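import Mathlib
import Pool.Agent.Lib.MP_0016c7_nt.Rz.Defs
import Pool.Agent.Lib.MP_0016c7_nt.Rz.DefsC
import Pool.Agent.Lib.MP_0016c7_nt.Rz.DefsE
import Pool.Agent.Lib.MP_0016c7_nt.Rz.DefsF
import Pool.Agent.Lib.MP_0016c7_nt.Rz.DefsF2
import Pool.Agent.Lib.MP_0016c7_nt.Rz.Gen0
import Pool.Agent.Lib.MP_0016c7_nt.Rz.W0
import Pool.Agent.Lib.MP_0016c7_nt.Rz2.DefsG
import Pool.Agent.Lib.MP_0016c7_nt.Rz2.NSc
import Pool.Agent.Lib.MP_0016c7_nt.PC.DefsM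
import Pool.Agent.Lib.MP_0da313_nt.BV.DefsL

set_option autoImplicit false

/-!
Definitions for the project on prime conductors.
-/

open Finset MeasureTheory Filter Topology
open scoped Real ContDiff

namespace Pool.Agent.MP0016c7.PC

open Pool.Agent.MP0016c7.Rz
open Pool.Agent.BVall (OmL)

/-! ### The twisted sums -/

open Classical in
/-- The sum over the nonsquare multiples `t` of `m`. -/
noncomputable def NSm (F : ℝ → ℝ) (σ : ℤ) (c : ℤ → ℝ) (m : ℕ) (Y : ℝ) (N : ℕ) : ℝ :=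
  ∑' t : ℤ, if IsSquare t ∨ ¬ (m : ℤ) ∣ t then 0 else
    c t * gg t N * Ft F σ ((t : ℝ) * Y / (2 * (m : ℝ) ^ 2 * N))

open Classical in
/-- The normalised sum of `(σ d / N)` over the multiples `d` of `m` in the class `c` mod `8`. -/
noncomputable def PRm (F : ℝ → ℝ) (c σ : ℤ) (m : ℕ) (X : ℝ) (N : ℕ) : ℝ :=
  8 * m / X * ∑' d : ℕ, if Rf 8 c σ d ∧ m ∣ d then F (d / X) * jr (σ * d) N else 0

/-! ### The sieve -/

/-- Upper bound sieve weights `w` of level `X ^ η`, with total mass `V`, for the primes. -/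
structure SW (X η ε₀ : ℝ) (A : ℕ) (w : ℕ → ℝ) (V : ℝ) : Prop where
  one : w 1 = 1
  supp : ∀ m : ℕ, w m ≠ 0 → Odd m ∧ Squarefree m ∧ (m : ℝ) ≤ X ^ η
  bd : ∀ m : ℕ, |w m| ≤ X ^ ε₀
  nn : ∀ d : ℕ, 0 < d → 0 ≤ ∑ m ∈ d.divisors, w m
  pos : 0 < V
  low : (Real.log X) ^ (-(10 : ℝ)) ≤ V
  dens : ∀ N : ℕ, Odd N → (N : ℝ) ≤ X ^ 4 →
    |(∑ m ∈ (Icc 1 ⌊X ^ η⌋₊).filter (fun m => Nat.Coprime m N), w m / m) - V * gN N| ≤
      V / (Real.log X) ^ A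

/-- The average with the sieve weights over the class `R` (a residue class modulo `8`). -/
noncomputable def avW (R : ℕ → Prop) (w : ℕ → ℝ) (V : ℝ) (F : ℝ → ℝ) (X : ℝ) (g : ℕ → ℝ) : ℝ :=
  8 / (V * X) * ∑' d : ℕ,
    (@ite ℝ (R d) (Classical.dec _) ((∑ m ∈ d.divisors, w m) * F (d / X) * g d) 0)

/-! ### Sums over primes -/

/-- The total mass of the window weight. -/
noncomputable def SO (lam Z : ℝ) : ℝ := ∑ n ∈ Icc 1 ⌊3 * Z⌋₊, OmL lam Z n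

open Classical in
/-- The weighted sum over the primes in the class `R`. -/
noncomputable def psiR (R : ℕ → Prop) (lam Z : ℝ) (g : ℕ → ℝ) : ℝ :=
  ∑ p ∈ (Icc 1 ⌊3 * Z⌋₊).filter (fun p => p.Prime ∧ R p), Real.log p * OmL lam Z p * g p

/-- The sum of the von Mangoldt function twisted by `(u / n) (n / a)`. -/
noncomputable def EU (lam Z : ℝ) (u : ℤ) (a : ℕ) : ℝ :=
  ∑ n ∈ Icc 1 ⌊3 * Z⌋₊, ArithmeticFunction.vonMangoldt n * OmL lam Z n * (jr u n * jr n a)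

/-- Odd squarefree numbers up to `K`. -/
def Osq (K : ℕ) : Finset ℕ := (Icc 1 K).filter (fun m => Odd m ∧ Squarefree m)

/-! ### The certificate -/

/-- The quadratic functional. -/
noncomputable def qP (w u₁ u₂ : ℝ → ℝ) (g₁ g₂ V : ℝ) (f : ℝ → ℝ) : ℝ :=
  (∫ v in (0 : ℝ)..V, w v * f v ^ 2) + g₁ * (∫ v in (0 : ℝ)..V, u₁ v * f v) ^ 2 +
    g₂ * (∫ v in (0 : ℝ)..V, u₂ v * f v) ^ 2

/-- The double integral of `u` against the Brownian covariance. -/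
noncomputable def mmP (u : ℝ → ℝ) (V : ℝ) : ℝ :=
  ∫ v in (0 : ℝ)..V, u v * ∫ v' in (0 : ℝ)..V, u v' * min (V - v) (V - v')

/-- The bound for the mean value of the quadratic functional (`s`: variance constant, `B₁`, `B₂`:
bounds for `(∫ |u|)²`, which take care of the smoothing errors). -/
noncomputable def enP (w u₁ u₂ : ℝ → ℝ) (g₁ g₂ B₁ B₂ δ s : ℝ) (e : ℝ → ℝ) : ℝ :=
  (∫ v in (0 : ℝ)..(1 / 2 + δ), w v * (s * (1 / 2 + δ - v) + e v ^ 2)) +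
    g₁ * (s * (mmP u₁ (1 / 2 + δ) + 3 * δ * B₁) + (∫ v in (0 : ℝ)..(1 / 2 + δ), u₁ v * e v) ^ 2) +
    g₂ * (s * (mmP u₂ (1 / 2 + δ) + 3 * δ * B₂) + (∫ v in (0 : ℝ)..(1 / 2 + δ), u₂ v * e v) ^ 2)

/-- The numerical certificate for prime conductors: `κ` is the loss of the sieve, `A ≤ |a|` the
range of the parameter. -/
structure CertP (A θ₀ δ κ μ E : ℝ) (w u₁ u₂ y : ℝ → ℝ) (g₁ g₂ B₁ B₂ : ℝ) : Prop where
  hθ₀ : 0 < θ₀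
  hδ : 0 < δ
  hδ' : δ ≤ 1 / 100
  hκ : 0 < κ
  hμ : 0 < μ
  hlen : θ₀ + 6 * δ + 2 / κ < 1 / 2
  hw : Continuous w
  hwp : ∀ v, 0 < w v
  hg₁ : 0 ≤ g₁
  hg₂ : 0 ≤ g₂
  hu₁ : Continuous u₁
  hu₂ : Continuous u₂
  hB₁ : (∫ v in (0 : ℝ)..(1 / 2 + δ), |u₁ v|) ^ 2 ≤ B₁
  hB₂ : (∫ v in (0 : ℝ)..(1 / 2 + δ), |u₂ v|) ^ 2 ≤ B₂
  hM₁ : 0 ≤ mmP u₁ (1 / 2 + δ)
  hM₂ : 0 ≤ mmP u₂ (1 / 2 + δ)
  hy : Continuous y
  hyp : ∀ v ∈ Set.Icc 0 (1 / 2 + δ), 0 ≤ y v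
  main : ∀ a : ℝ, A ≤ |a| → ∀ f : ℝ → ℝ, ContinuousOn f (Set.Icc 0 (1 / 2 + δ)) →
    (1 + μ) * (∫ v in (0 : ℝ)..(1 / 2 + δ), Real.cosh (a * v) * f v) ^ 2 ≤
      qP w u₁ u₂ g₁ g₂ (1 / 2 + δ) f * PP2 θ₀ (1 / 2 + δ) y a ^ 2
  en : enP w u₁ u₂ g₁ g₂ B₁ B₂ δ (κ * (((θ₀ + 1 / 2) ^ 3 - 1 / 8) / 3))
    (fun v => y v - Hid θ₀ 0) ≤ E

end Pool.Agent.MP0016c7.PC
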