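import Mathlib
import Pool.Agent.Lib.MP_0016c7_nt.PC.Defs

set_option autoImplicit false

/-!
Project PrimeConductors: the statements at the boundaries of the blocks.
(`IF_` = interface; each is proved in its block and used as a hypothesis elsewhere.)
-/

open Finset MeasureTheory Filter Topology
open scoped Real ContDiff

namespace Pool.Agent.MP0016c7.PC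

open Pool.Agent.MP0016c7.Rz
open Pool.Agent.BVall (OmL)

/-- [S] Existence of the sieve weights. -/
def IF_sieve : Prop :=
  ∀ η : ℝ, 0 < η → η < 1 / 2 → ∀ ε₀ : ℝ, 0 < ε₀ → ∀ (A : ℕ) (κ' : ℝ), 4 / η < κ' →
    ∃ X₀ : ℝ, ∀ X : ℝ, X₀ ≤ X → ∃ (w : ℕ → ℝ) (V : ℝ), SW X η ε₀ A w V ∧ V * Real.log X ≤ κ'

/-- [E] The error terms, summed over the sieve modulus. -/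
def IF_err : Prop :=
  ∀ (θ δ η : ℝ), 0 < θ → 0 < δ → 0 < η → θ + 3 * δ + η < 1 / 2 →
  ∀ (F : ℝ → ℝ) (a b : ℝ), 0 < a → Bump F a b → ∀ σ : ℤ, (σ = 1 ∨ σ = -1) →
  ∀ c₀ : ℝ, (c₀ = 0 ∨ c₀ = 1) → ∀ (ρ₁ ρ₂ h : ℝ → ℝ), Bump ρ₁ (-(δ / 2)) (δ / 2) →
  Bump ρ₂ (-(δ / 2)) (δ / 2) → Bump h 0 θ → ∀ C₀ : ℝ, 0 < C₀ →
  ∃ ε₀ η' X₀ : ℝ, 0 < ε₀ ∧ 0 < η' ∧ ∀ X : ℝ, X₀ ≤ X →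
    ∀ Y₁ ∈ Set.Icc (-1 : ℝ) (1 / 2 + δ), ∀ Y₂ ∈ Set.Icc (-1 : ℝ) (1 / 2 + δ), ∀ c : ℤ → ℝ,
    (∀ k, |c k| ≤ 2) → ∀ Y : ℝ, X / C₀ ≤ Y → Y ≤ C₀ * X → ∀ v : ℕ → ℝ, (∀ m, |v m| ≤ X ^ ε₀) →
    |∑ m ∈ Osq ⌊X ^ η⌋₊, v m / m * quad (Wt c₀ ρ₁ h X θ δ Y₁) (Wt c₀ ρ₂ h X θ δ Y₂) m ⌊X ^ 2⌋₊
      (NSm F σ c m Y)| ≤ X ^ (-η')

/-- [P] The twisted Poisson formula. -/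
def IF_split : Prop :=
  ∀ (F : ℝ → ℝ) (a b : ℝ), 0 < a → Bump F a b → 0 < (∫ t, F t) → ∀ σ : ℤ, (σ = 1 ∨ σ = -1) →
  ∀ c ε : ℤ, ((c = 1 ∧ ε = 1) ∨ (c = 5 ∧ ε = -1)) →
  ∃ (c₁ c₂ c₃ : ℤ → ℝ) (C : ℝ), 0 ≤ C ∧ (∀ k, |c₁ k| ≤ 2) ∧ (∀ k, |c₂ k| ≤ 2) ∧
    (∀ k, |c₃ k| ≤ 2) ∧ ∀ m : ℕ, Odd m → Squarefree m → ∀ N : ℕ, Odd N → Nat.Coprime m N →
    ∀ X : ℝ, (m : ℝ) ^ 2 ≤ X →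
    |PRm F c σ m X N - (MG F σ ε X N + NSm F σ c₁ m (X / 4) N + NSm F σ c₂ m (X / 2) N +
      NSm F σ c₃ m (2 * X) N)| ≤ C * m * N.divisors.card / X

/-- [M] The main term with the factor `gN`. -/
def IF_quadp : Prop :=
  ∀ (β : ℂ → ℂ) (B : ℝ → ℝ), BC β B → ∀ (I₀ δ θ : ℝ), 0 < δ → δ ≤ 1 / 4 → 0 < θ →
  θ + 3 * δ < 1 / 2 → ∀ c : ℝ, (c = 0 ∨ c = 1) → ∀ (ρ₁ ρ₂ h : ℝ → ℝ),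
  Bump ρ₁ (-(δ / 2)) (δ / 2) → Bump ρ₂ (-(δ / 2)) (δ / 2) → Bump h 0 θ →
  ∀ (C₀ ε : ℝ), 0 < ε → ∃ X₀ : ℝ, ∀ X : ℝ, X₀ ≤ X → ∀ M : ℕ → ℝ, MRepp β I₀ X M →
    (∀ N : ℕ, Odd N → |M N| ≤ C₀ * N) →
    ∀ Y₁ ∈ Set.Icc (-1 : ℝ) (1 / 2 + δ), ∀ Y₂ ∈ Set.Icc (-1 : ℝ) (1 / 2 + δ),
    |quad (Wt c ρ₁ h X θ δ Y₁) (Wt c ρ₂ h X θ δ Y₂) 1 ⌊X ^ 2⌋₊ M - I₀ * CC ρ₁ ρ₂ h Y₁ Y₂| ≤ ε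

/-- [M] The size of the main function. -/
def IF_absMG : Prop :=
  ∀ (F : ℝ → ℝ) (a b : ℝ), 0 < a → Bump F a b → 0 < (∫ t, F t) → ∀ σ : ℤ, (σ = 1 ∨ σ = -1) →
  ∀ ε : ℤ, (ε = 0 ∨ ε = 1 ∨ ε = -1) → ∃ C : ℝ, ∀ N : ℕ, Odd N → ∀ Y : ℝ, 0 < Y →
    |MG F σ ε Y N| ≤ C * ((N.divisors.card : ℝ) / √(sq1 N : ℝ))

/-- [M] The absolute size of the quadruple sums (powers of the logarithm). -/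
def IF_absq : Prop :=
  ∀ (θ δ : ℝ), 0 < θ → 0 < δ → θ + 3 * δ < 1 / 2 → ∀ c₀ : ℝ, (c₀ = 0 ∨ c₀ = 1) →
  ∀ (ρ₁ ρ₂ h : ℝ → ℝ), Bump ρ₁ (-(δ / 2)) (δ / 2) → Bump ρ₂ (-(δ / 2)) (δ / 2) → Bump h 0 θ →
  ∃ (A₀ : ℕ) (X₀ : ℝ), ∀ X : ℝ, X₀ ≤ X →
    ∀ Y₁ ∈ Set.Icc (-1 : ℝ) (1 / 2 + δ), ∀ Y₂ ∈ Set.Icc (-1 : ℝ) (1 / 2 + δ),
    ∀ (M : ℕ → ℝ) (e : ℝ), 0 ≤ e → (∀ N : ℕ, Odd N → (N : ℝ) ≤ X ^ 4 →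
      |M N| ≤ e * ((N.divisors.card : ℝ) / √(sq1 N : ℝ))) →
    |quad (Wt c₀ ρ₁ h X θ δ Y₁) (Wt c₀ ρ₂ h X θ δ Y₂) 1 ⌊X ^ 2⌋₊ M| ≤ e * (Real.log X) ^ A₀

/-- [W] The second moment with the sieve weights. -/
def IF_smW (θ δ η : ℝ) : Prop :=
  ∀ (F : ℝ → ℝ) (a b : ℝ), 0 < a → Bump F a b → 0 < (∫ t, F t) → ∀ σ : ℤ, (σ = 1 ∨ σ = -1) →
  ∀ c ε : ℤ, ((c = 1 ∧ ε = 1) ∨ (c = 5 ∧ ε = -1)) → ∀ c₀ : ℝ, (c₀ = 0 ∨ c₀ = 1) →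
  ∀ (ρ₁ ρ₂ h : ℝ → ℝ), Bump ρ₁ (-(δ / 2)) (δ / 2) → Bump ρ₂ (-(δ / 2)) (δ / 2) → Bump h 0 θ →
  ∀ ε' : ℝ, 0 < ε' → ∃ (ε₀ : ℝ) (A : ℕ) (X₀ : ℝ), 0 < ε₀ ∧ ∀ X : ℝ, X₀ ≤ X →
    ∀ (w : ℕ → ℝ) (V : ℝ), SW X η ε₀ A w V →
    ∀ Y₁ ∈ Set.Icc (-1 : ℝ) (1 / 2 + δ), ∀ Y₂ ∈ Set.Icc (-1 : ℝ) (1 / 2 + δ),
    |avW (Rf 8 c σ) w V F X (fun d => ytil c₀ σ ρ₁ h X (2 * d) Y₁ * ytil c₀ σ ρ₂ h X (2 * d) Y₂) -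
      (∫ t, F t) * CC ρ₁ ρ₂ h Y₁ Y₂| ≤ ε'

/-- [W] The total mass with the sieve weights. -/
def IF_zmW (η : ℝ) : Prop :=
  ∀ (F : ℝ → ℝ) (a b : ℝ), 0 < a → Bump F a b → ∀ σ : ℤ, (σ = 1 ∨ σ = -1) →
  ∀ c : ℤ, (c = 1 ∨ c = 5) → ∀ ε' : ℝ, 0 < ε' → ∃ (ε₀ : ℝ) (A : ℕ) (X₀ : ℝ), 0 < ε₀ ∧
    ∀ X : ℝ, X₀ ≤ X → ∀ (w : ℕ → ℝ) (V : ℝ), SW X η ε₀ A w V →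
    |avW (Rf 8 c σ) w V F X (fun _ => 1) - ∫ t, F t| ≤ ε'

/-- [F] The prime sums twisted by quadratic characters. -/
def IF_EU : Prop :=
  ∀ lam : ℝ, 1 ≤ lam → ∀ θ₂ : ℝ, θ₂ < 1 → ∀ A : ℕ, ∃ Z₀ : ℝ, ∀ Z : ℝ, Z₀ ≤ Z →
    ∀ u ∈ ({1, -1, 2, -2} : Finset ℤ),
    ∑ a ∈ (Osq ⌊Z ^ θ₂⌋₊).filter (fun a => u ≠ 1 ∨ a ≠ 1),
      (a.divisors.card : ℝ) / √(a : ℝ) * |EU lam Z u a| ≤ Z / (Real.log Z) ^ A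

/-- [D] The main term of the first moment over primes. -/
def IF_D : Prop :=
  ∀ (θ δ : ℝ), 0 < θ → 0 < δ → δ ≤ 1 / 4 → θ + 3 * δ < 1 / 2 → ∀ c₀ : ℝ, (c₀ = 0 ∨ c₀ = 1) →
  ∀ (ρ h : ℝ → ℝ), Bump ρ (-(δ / 2)) (δ / 2) → Bump h 0 θ → ∀ ε : ℝ, 0 < ε →
  ∃ X₀ : ℝ, ∀ X : ℝ, X₀ ≤ X → ∀ Y ∈ Set.Icc (-1 : ℝ) (1 / 2 + δ),
    |(∑ n ∈ Icc 1 ⌊X ^ 2⌋₊, ∑ l ∈ Icc 1 ⌊X ^ 2⌋₊, (@ite ℝ (Odd (n * l) ∧ IsSquare (n * l))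
      (Classical.dec _) ((ArithmeticFunction.moebius l : ℝ) / √((n * l : ℕ) : ℝ) *
        Wt c₀ ρ h X θ δ Y l n) 0)) - ∫ y, ρ y * HH h (y - Y)| ≤ ε

/-- [F1] The first moment over primes. -/
def IF_fmP : Prop :=
  ∀ lam : ℝ, 3 ≤ lam → ∀ (θ δ : ℝ), 0 < θ → 0 < δ → δ ≤ 1 / 4 → θ + 3 * δ < 1 / 2 →
  ∀ σ : ℤ, (σ = 1 ∨ σ = -1) → ∀ c : ℤ, (c = 1 ∨ c = 5) → ∀ c₀ : ℝ, (c₀ = 0 ∨ c₀ = 1) →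
  ∀ (ρ h : ℝ → ℝ), Bump ρ (-(δ / 2)) (δ / 2) → Bump h 0 θ → ∀ ε' : ℝ, 0 < ε' →
  ∃ X₀ : ℝ, ∀ X : ℝ, X₀ ≤ X → ∀ Y ∈ Set.Icc (-1 : ℝ) (1 / 2 + δ),
    |psiR (Rf 8 c σ) lam (X * Real.exp (1 / lam)) (fun p => ytil c₀ σ ρ h X (2 * p) Y) -
      SO lam (X * Real.exp (1 / lam)) / 4 * ∫ y, ρ y * HH h (y - Y)| ≤ ε' * X

/-- [F0] The primes in the classes modulo `8`. -/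
def IF_zmP : Prop :=
  ∀ lam : ℝ, 3 ≤ lam → ∀ σ : ℤ, (σ = 1 ∨ σ = -1) → ∀ c : ℤ, (c = 1 ∨ c = 5) →
  ∀ ε' : ℝ, 0 < ε' → ∃ X₀ : ℝ, ∀ X : ℝ, X₀ ≤ X →
    |psiR (Rf 8 c σ) lam (X * Real.exp (1 / lam)) (fun _ => 1) -
      SO lam (X * Real.exp (1 / lam)) / 4| ≤ ε' * X

/-- [Y2] From the process `ytil` to the process `yS`: second moments, for any finite measure. -/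
def IF_yS2 : Prop :=
  ∀ (θ δ : ℝ), 0 < θ → 0 < δ → δ ≤ 1 / 4 → θ + 3 * δ < 1 / 2 → ∀ σ : ℤ, (σ = 1 ∨ σ = -1) →
  ∀ ε : ℤ, (ε = 0 ∨ ε = 1 ∨ ε = -1) → ∀ c₀ : ℝ, (c₀ = 0 ∨ c₀ = 1) →
  ∀ (ρ₁ ρ₂ h : ℝ → ℝ), Bump ρ₁ (-(δ / 2)) (δ / 2) → Bump ρ₂ (-(δ / 2)) (δ / 2) → Bump h 0 θ →
  ∀ (K ε' : ℝ), 0 < ε' → ∃ (ε₁ X₀ : ℝ), 0 < ε₁ ∧ ∀ X : ℝ, X₀ ≤ X → ∀ I : ℝ, 0 ≤ I → I ≤ K →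
    ∀ (S : Finset ℕ) (cf : ℕ → ℝ), (∀ d ∈ S, 0 ≤ cf d) → (∑ d ∈ S, cf d) ≤ K →
    (∀ Y₁ ∈ Set.Icc (-1 : ℝ) (1 / 2 + δ), ∀ Y₂ ∈ Set.Icc (-1 : ℝ) (1 / 2 + δ),
      |(∑ d ∈ S, cf d * (ytil c₀ σ ρ₁ h X (2 * d) Y₁ * ytil c₀ σ ρ₂ h X (2 * d) Y₂)) -
        I * CC ρ₁ ρ₂ h Y₁ Y₂| ≤ ε₁) →
    ∀ Y₁ ∈ Set.Icc (-(1 / 2) : ℝ) (1 / 2 + δ), ∀ Y₂ ∈ Set.Icc (-(1 / 2) : ℝ) (1 / 2 + δ),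
      |(∑ d ∈ S, cf d * (yS c₀ ε σ ρ₁ h X d Y₁ * yS c₀ ε σ ρ₂ h X d Y₂)) -
        I * CC ρ₁ ρ₂ h Y₁ Y₂| ≤ ε'

/-- [Y1] From `ytil` to `yS`: first moments. -/
def IF_yS1 : Prop :=
  ∀ (θ δ : ℝ), 0 < θ → 0 < δ → δ ≤ 1 / 4 → θ + 3 * δ < 1 / 2 → ∀ σ : ℤ, (σ = 1 ∨ σ = -1) →
  ∀ ε : ℤ, (ε = 0 ∨ ε = 1 ∨ ε = -1) → ∀ c₀ : ℝ, (c₀ = 0 ∨ c₀ = 1) →
  ∀ (ρ h : ℝ → ℝ), Bump ρ (-(δ / 2)) (δ / 2) → Bump h 0 θ →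
  ∀ (K ε' : ℝ), 0 < ε' → ∃ (ε₁ X₀ : ℝ), 0 < ε₁ ∧ ∀ X : ℝ, X₀ ≤ X → ∀ I : ℝ, 0 ≤ I → I ≤ K →
    ∀ (S : Finset ℕ) (cf : ℕ → ℝ), (∀ d ∈ S, 0 ≤ cf d) → (∑ d ∈ S, cf d) ≤ K →
    (∀ Y ∈ Set.Icc (-1 : ℝ) (1 / 2 + δ), |(∑ d ∈ S, cf d * ytil c₀ σ ρ h X (2 * d) Y) -
        I * ∫ y, ρ y * HH h (y - Y)| ≤ ε₁) →
    ∀ Y ∈ Set.Icc (-(1 / 2) : ℝ) (1 / 2 + δ), |(∑ d ∈ S, cf d * yS c₀ ε σ ρ h X d Y) -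
        I * ∫ y, ρ y * HH h (y - Y)| ≤ ε'

/-- [Y0] The first moment of `ytil` from the second moment. -/
def IF_y1of2 : Prop :=
  ∀ (θ δ : ℝ), 0 < θ → 0 < δ → δ ≤ 1 / 4 → θ + 3 * δ < 1 / 2 → ∀ σ : ℤ, (σ = 1 ∨ σ = -1) →
  ∀ c₀ : ℝ, (c₀ = 0 ∨ c₀ = 1) →
  ∀ (ρ h : ℝ → ℝ), Bump ρ (-(δ / 2)) (δ / 2) → (∫ y, ρ y) = 1 → Bump h 0 θ →
  (∀ t ≤ 2 * δ, HH h t = HH h 0) → 0 < HH h 0 →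
  ∀ (K ε' : ℝ), 0 < ε' → ∃ (ε₁ X₀ : ℝ), 0 < ε₁ ∧ ∀ X : ℝ, X₀ ≤ X → ∀ I : ℝ, 0 ≤ I → I ≤ K →
    ∀ (S : Finset ℕ) (cf : ℕ → ℝ), (∀ d ∈ S, 0 ≤ cf d) → (∑ d ∈ S, cf d) ≤ K →
    (∀ Y₁ ∈ Set.Icc (-1 : ℝ) (1 / 2 + δ), ∀ Y₂ ∈ Set.Icc (-1 : ℝ) (1 / 2 + δ),
      |(∑ d ∈ S, cf d * (ytil c₀ σ ρ h X (2 * d) Y₁ * ytil c₀ σ ρ h X (2 * d) Y₂)) -
        I * CC ρ ρ h Y₁ Y₂| ≤ ε₁) →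
    ∀ Y ∈ Set.Icc (-1 : ℝ) (1 / 2 + δ), |(∑ d ∈ S, cf d * ytil c₀ σ ρ h X (2 * d) Y) -
        I * ∫ y, ρ y * HH h (y - Y)| ≤ ε'

/-- [G] The mean of the quadratic functional of the centred process, for any finite measure with
the right moments. -/
def IF_gav : Prop :=
  ∀ (θ δ : ℝ), 0 < θ → 0 < δ → δ ≤ 1 / 100 → ∀ (ρ h : ℝ → ℝ), Bump ρ (-(δ / 2)) (δ / 2) →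
  (∀ y, 0 ≤ ρ y) → (∫ y, ρ y) = 1 → Bump h (2 * δ) θ →
  ∀ (w u₁ u₂ : ℝ → ℝ) (g₁ g₂ B₁ B₂ : ℝ), Continuous w → (∀ v, 0 < w v) → Continuous u₁ →
  Continuous u₂ → 0 ≤ g₁ → 0 ≤ g₂ → (∫ v in (0 : ℝ)..(1 / 2 + δ), |u₁ v|) ^ 2 ≤ B₁ →
  (∫ v in (0 : ℝ)..(1 / 2 + δ), |u₂ v|) ^ 2 ≤ B₂ →
  ∀ (K ε' : ℝ), 0 < ε' → ∃ ε₁ : ℝ, 0 < ε₁ ∧ ∀ I : ℝ, 0 ≤ I → I ≤ K →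
    ∀ (S : Finset ℕ) (cf : ℕ → ℝ) (T : ℕ → ℝ → ℝ), (∀ d ∈ S, 0 ≤ cf d) →
    (∀ d, Continuous (T d)) → |(∑ d ∈ S, cf d) - I| ≤ ε₁ →
    (∀ Y ∈ Set.Icc (-(1 / 2) : ℝ) (1 / 2 + δ), |(∑ d ∈ S, cf d * T d Y) -
        I * ∫ y, ρ y * HH h (y - Y)| ≤ ε₁) →
    (∀ Y₁ ∈ Set.Icc (-(1 / 2) : ℝ) (1 / 2 + δ), ∀ Y₂ ∈ Set.Icc (-(1 / 2) : ℝ) (1 / 2 + δ),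
      |(∑ d ∈ S, cf d * (T d Y₁ * T d Y₂)) - I * CC ρ ρ h Y₁ Y₂| ≤ ε₁) →
    ∑ d ∈ S, cf d * qP w u₁ u₂ g₁ g₂ (1 / 2 + δ) (fun v => HH h 0 - T d (1 / 2 - v)) ≤
      I * enP w u₁ u₂ g₁ g₂ B₁ B₂ δ (∫ t, h t ^ 2) (fun _ => 0) + ε'

/-- [G1] The change of the profile, for any finite measure with the right first moment. -/
def IF_cross : Prop :=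
  ∀ (δ : ℝ), 0 < δ → δ ≤ 1 / 100 → ∀ (w u₁ u₂ y : ℝ → ℝ) (g₁ g₂ m₀ : ℝ), Continuous w →
  (∀ v, 0 < w v) → Continuous u₁ → Continuous u₂ → Continuous y → 0 ≤ g₁ → 0 ≤ g₂ →
  ∀ (K ε' : ℝ), 0 < ε' → ∃ ε₁ : ℝ, 0 < ε₁ ∧ ∀ I : ℝ, 0 ≤ I → I ≤ K →
    ∀ (S : Finset ℕ) (cf : ℕ → ℝ) (T : ℕ → ℝ → ℝ), (∀ d ∈ S, 0 ≤ cf d) →
    (∀ d, Continuous (T d)) → |(∑ d ∈ S, cf d) - I| ≤ ε₁ →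
    (∀ Y ∈ Set.Icc (-δ) (1 / 2 : ℝ), |(∑ d ∈ S, cf d * T d Y) - I * m₀| ≤ ε₁) →
    ∑ d ∈ S, cf d * qP w u₁ u₂ g₁ g₂ (1 / 2 + δ) (fun v => y v - T d (1 / 2 - v)) ≤
      (∑ d ∈ S, cf d * qP w u₁ u₂ g₁ g₂ (1 / 2 + δ) (fun v => m₀ - T d (1 / 2 - v))) +
      I * qP w u₁ u₂ g₁ g₂ (1 / 2 + δ) (fun v => y v - m₀) + ε'

/-- [H] The shift of the process, for any finite measure. -/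
def IF_shift : Prop :=
  ∀ (θ δ : ℝ), 0 < θ → 0 < δ → δ ≤ 1 / 100 → θ + 3 * δ < 1 / 2 → ∀ σ : ℤ, (σ = 1 ∨ σ = -1) →
  ∀ ε : ℤ, (ε = 0 ∨ ε = 1 ∨ ε = -1) → ∀ c₀ : ℝ, (c₀ = 0 ∨ c₀ = 1) →
  ∀ (ρ h : ℝ → ℝ), Bump ρ (-(δ / 2)) (δ / 2) → Bump h 0 θ → ∀ (K ε' : ℝ), 0 < ε' →
  ∃ X₀ : ℝ, ∀ X : ℝ, X₀ ≤ X → ∀ (S : Finset ℕ) (cf : ℕ → ℝ), (∀ d ∈ S, 0 ≤ cf d) →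
    (∀ d ∈ S, X < d ∧ (d : ℝ) ≤ 2 * X) →
    (∀ Y ∈ Set.Icc (-(1 / 2) : ℝ) (1 / 2 + δ),
      ∑ d ∈ S, cf d * yS c₀ ε σ (deriv ρ) h X d Y ^ 2 ≤ K) →
    ∑ d ∈ S, cf d * ∫ v in (0 : ℝ)..(1 / 2 + δ), (yS c₀ ε σ ρ h X d (1 / 2 - v) -
      yS c₀ ε σ ρ h X d (Real.log (1 * d) / (2 * Real.log X) - v)) ^ 2 ≤ ε'

/-- [Z1] The bad primes in one window. -/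
def IF_window (lam A E' : ℝ) (σ c : ℤ) : Prop :=
  ∃ X₀ : ℝ, ∀ X : ℝ, X₀ ≤ X →
    psiR (fun p => Rf 8 c σ p ∧ ¬ NoZWG A 1 p) lam (X * Real.exp (1 / lam)) (fun _ => 1) ≤
      E' * psiR (Rf 8 c σ) lam (X * Real.exp (1 / lam)) (fun _ => 1)

/-- [Z2] The total bound for one class. -/
def IF_total (A E' : ℝ) (σ c : ℤ) : Prop :=
  ∃ X₀ : ℕ, ∀ X : ℕ, X₀ ≤ X →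
    (Nat.card {p : ℕ | p ≤ X ∧ p.Prime ∧ Rf 8 c σ p ∧ ¬ NoZWG A 1 p} : ℝ) ≤
      E' * (Nat.card {p : ℕ | p ≤ X ∧ p.Prime ∧ Rf 8 c σ p} : ℝ)

end Pool.Agent.MP0016c7.PC
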