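import Mathlib
import Pool.Agent.Lib.MP_0016c7_nt.PC.Defs

set_option autoImplicit false

/-!
Project on prime conductors, version with slices: definitions.
-/

open Finset MeasureTheory Filter Topology
open scoped Real ContDiff

namespace Pool.Agent.MP0016c7.PC

open Pool.Agent.MP0016c7.Rz
open Pool.Agent.BVall (OmL)

/-! ### The Brownian covariance -/

/-- The smoothed Brownian covariance. -/
noncomputable def Gam2 (ρ₁ ρ₂ : ℝ → ℝ) (Y₁ Y₂ : ℝ) : ℝ :=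
  ∫ x : ℝ, ∫ y : ℝ, ρ₁ x * ρ₂ y * (max (min (Y₁ - x) (Y₂ - y)) 0 - max (Y₁ - x + (Y₂ - y) - 1) 0)

/-! ### Families -/

open Classical in
/-- The normalised sum of `(2 σ c₀ d / N)` over the multiples `d` of `m` in the class `R` of
density `D`. -/
noncomputable def PRw (R : ℕ → Prop) (D : ℝ) (c₀ : ℕ) (σ : ℤ) (F : ℝ → ℝ) (m : ℕ) (X : ℝ)
    (N : ℕ) : ℝ :=
  m / (D * X) * ∑' d : ℕ, if R d ∧ m ∣ d then F (d / X) * jr (2 * σ * ((c₀ * d : ℕ) : ℤ)) N else 0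

/-- The twisted Poisson formula for the class `R` of density `D`: the main function `M` is the
same for all sieve moduli `m`. (`c₀ = 1`: discriminants `8 σ d`; `c₀ = 2`: discriminants `σ d`
and `4 σ d`.) -/
def TwP (R : ℕ → Prop) (D : ℝ) (c₀ : ℕ) (σ : ℤ) : Prop :=
  ∀ (F : ℝ → ℝ) (a b : ℝ), 0 < a → Bump F a b → 0 < (∫ t, F t) →
  ∃ (β : ℂ → ℂ) (B : ℝ → ℝ) (M : ℝ → ℕ → ℝ) (c₁ c₂ c₃ : ℤ → ℝ) (k₁ k₂ k₃ C : ℝ),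
    BC β B ∧ 0 ≤ C ∧ 0 < k₁ ∧ 0 < k₂ ∧ 0 < k₃ ∧ (∀ k, |c₁ k| ≤ 2) ∧ (∀ k, |c₂ k| ≤ 2) ∧
    (∀ k, |c₃ k| ≤ 2) ∧ (∀ Y : ℝ, 0 < Y → MRep β (∫ t, F t) Y (M Y)) ∧
    (∀ N : ℕ, Odd N → ∀ Y : ℝ, 0 < Y → |M Y N| ≤ C * ((N.divisors.card : ℝ) / √(sq1 N : ℝ))) ∧
    ∀ m : ℕ, Odd m → Squarefree m → ∀ N : ℕ, Odd N → Nat.Coprime m N →
    ∀ X : ℝ, (m : ℝ) ^ 2 ≤ X →
    |PRw R D c₀ σ F m X N - (M X N + NSm F σ c₁ m (k₁ * X) N + NSm F σ c₂ m (k₂ * X) N +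
      NSm F σ c₃ m (k₃ * X) N)| ≤ C * m * N.divisors.card / X

/-- The average with the sieve weights over the class `R` of density `D`. -/
noncomputable def avWg (R : ℕ → Prop) (D : ℝ) (w : ℕ → ℝ) (V : ℝ) (F : ℝ → ℝ) (X : ℝ)
    (g : ℕ → ℝ) : ℝ :=
  1 / (D * V * X) * ∑' d : ℕ,
    (@ite ℝ (R d) (Classical.dec _) ((∑ m ∈ d.divisors, w m) * F (d / X) * g d) 0)

/-- The primes of the class `R` are those in the residue classes `S` modulo `8`. -/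
def PCl (R : ℕ → Prop) (D : ℝ) (S : Finset ℕ) : Prop :=
  S ⊆ {1, 3, 5, 7} ∧ 0 < S.card ∧ D = S.card / 8 ∧ ∀ p : ℕ, p.Prime → (R p ↔ p % 8 ∈ S)

/-! ### Slices -/

/-- The beginning of the `k`-th slice `(wp ws k, ws k)`. -/
noncomputable def wp (ws : ℕ → ℝ) (k : ℕ) : ℝ := if k = 0 then 0 else ws (k - 1)

/-- The variance constant of the `k`-th slice: the integral of `(1/2 + x)²`. -/
noncomputable def sk (ws : ℕ → ℝ) (k : ℕ) : ℝ := ((ws k + 1 / 2) ^ 3 - (wp ws k + 1 / 2) ^ 3) / 3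

/-- The ideal tail integral of the `k`-th slice. -/
noncomputable def HS (ws : ℕ → ℝ) (k : ℕ) (x : ℝ) : ℝ := Hid (ws k) x - Hid (wp ws k) x

/-- The ideal tail integral of the whole profile. -/
noncomputable def HJ (ws cs : ℕ → ℝ) (J : ℕ) (x : ℝ) : ℝ := ∑ k ∈ range J, cs k * HS ws k x

/-- The lower bound for `∫ cosh (a v) (y - ytil)` for a bad discriminant (profile `H`). -/
noncomputable def PPH (H : ℝ → ℝ) (θ₀ V : ℝ) (y : ℝ → ℝ) (a : ℝ) : ℝ :=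
  (∫ v in V..(V + θ₀), Real.cosh (a * v) * H (v - V)) + ∫ v in (0 : ℝ)..V, Real.cosh (a * v) * y v

/-! ### The functional -/

/-- The value of the functional on the indicator function of `[0, u]`. -/
noncomputable def Kq (w u₁ u₂ : ℝ → ℝ) (g₁ g₂ u : ℝ) : ℝ :=
  (∫ v in (0 : ℝ)..u, w v) + g₁ * (∫ v in (0 : ℝ)..u, u₁ v) ^ 2 + g₂ * (∫ v in (0 : ℝ)..u, u₂ v) ^ 2

/-- The weighted integral of `K`: weight `ωb` before `e₁`, `ωa` between `e₁` and `e₂`, `1` up to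
`1 / 2`. -/
noncomputable def Kint (K : ℝ → ℝ) (ωa ωb e₁ e₂ : ℝ) : ℝ :=
  ωb * (∫ u in (0 : ℝ)..e₁, K u) + ωa * (∫ u in e₁..e₂, K u) + ∫ u in e₂..(1 / 2 : ℝ), K u

/-- The bound for the mean value of the functional over primes: `s k` are the variance constants
of the components, `τ k`, `σ k` the two stopping heights, `κ` the loss of the sieve, `t`, `lam`,
`ν` the parameters of the splitting, `S₁` a bound for the sum of the off-diagonal covariances. -/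
noncomputable def enJ (J : ℕ) (s τ σ : ℕ → ℝ) (S₁ κ t lam ν δ : ℝ) (w u₁ u₂ : ℝ → ℝ)
    (g₁ g₂ B₁ B₂ : ℝ) (e : ℝ → ℝ) : ℝ :=
  (∑ k ∈ range J, s k * Kint (Kq w u₁ u₂ g₁ g₂)
    (1 - t * lam ^ 2 + (t - 1) * ν ^ 2 + t * κ * lam ^ 2) (t * κ) (1 / 2 - τ k)
      (min (1 / 2) (1 / 2 - σ k))) +
  (5 + 4 * (1 - t * lam ^ 2 + (t - 1) * ν ^ 2) + 4 * t * κ) *
    (3 / 2 * δ * (∑ k ∈ range J, s k) + S₁) *
    ((∫ v in (0 : ℝ)..(1 / 2 + δ), w v) + g₁ * B₁ + g₂ * B₂) +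
  qP w u₁ u₂ g₁ g₂ (1 / 2 + δ) e

/-- Two measures on a finite set of discriminants: `cf` (primes, mass about `I`) is dominated by
`cf'` (sieve, mass about `κ' I`), with the moments of the components `T k` (means `mm k`,
covariances `Sm i j * Gam2`): `cf` has exact covariances for `Y₁ + ws i + Y₂ + ws j + 12 δ ≤ 1`. -/
structure MD (J : ℕ) (ws mm : ℕ → ℝ) (Sm : ℕ → ℕ → ℝ) (ρ : ℝ → ℝ) (δ I κ' ε₁ : ℝ)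
    (S : Finset ℕ) (cf cf' : ℕ → ℝ) (T : ℕ → ℕ → ℝ → ℝ) : Prop where
  nn : ∀ d ∈ S, 0 ≤ cf d ∧ cf d ≤ cf' d
  ct : ∀ k < J, ∀ d, Continuous (T k d)
  m0 : |(∑ d ∈ S, cf d) - I| ≤ ε₁
  m1 : ∀ k < J, ∀ Y ∈ Set.Icc (-δ) (1 / 2 : ℝ), |(∑ d ∈ S, cf d * T k d Y) - I * mm k| ≤ ε₁
  det : ∀ k < J, ∀ d ∈ S, |T k d (-δ) - mm k| ≤ ε₁
  m2 : ∀ i < J, ∀ j < J, ∀ Y₁ ∈ Set.Icc (-δ) (1 / 2 : ℝ), ∀ Y₂ ∈ Set.Icc (-δ) (1 / 2 : ℝ),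
    Y₁ + ws i + Y₂ + ws j + 12 * δ ≤ 1 →
    |(∑ d ∈ S, cf d * (T i d Y₁ * T j d Y₂)) -
      I * (mm i * mm j + Sm i j * Gam2 ρ ρ Y₁ Y₂)| ≤ ε₁
  m2' : ∀ i < J, ∀ j < J, ∀ Y₁ ∈ Set.Icc (-δ) (1 / 2 : ℝ), ∀ Y₂ ∈ Set.Icc (-δ) (1 / 2 : ℝ),
    |(∑ d ∈ S, cf' d * (T i d Y₁ * T j d Y₂)) -
      κ' * I * (mm i * mm j + Sm i j * Gam2 ρ ρ Y₁ Y₂)| ≤ ε₁

/-- The energy bound `E` for the functional: interface between the certificates and the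
assembly. -/
def EnBd (J : ℕ) (ws cs : ℕ → ℝ) (δ κ : ℝ) (w u₁ u₂ y : ℝ → ℝ) (g₁ g₂ E : ℝ) : Prop :=
  ∀ ρ : ℝ → ℝ, Bump ρ (-(δ / 2)) (δ / 2) → (∀ y, 0 ≤ ρ y) → (∫ y, ρ y) = 1 →
  ∀ Sm : ℕ → ℕ → ℝ, (∀ k < J, 0 ≤ Sm k k ∧ Sm k k ≤ cs k ^ 2 * sk ws k) →
  (∀ k < J, ∀ l < J, k ≠ l →
    |Sm k l| ≤ if k = l + 1 ∨ l = k + 1 then δ * (cs k * cs l) else 0) →
  ∀ (K ε' : ℝ), 0 < ε' → ∃ ε₁ : ℝ, 0 < ε₁ ∧ ∀ (I κ' : ℝ), 0 ≤ I → I ≤ K → 0 ≤ κ' → κ' ≤ κ →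
  ∀ (S : Finset ℕ) (cf cf' : ℕ → ℝ) (T : ℕ → ℕ → ℝ → ℝ),
  MD J ws (fun k => cs k * HS ws k 0) Sm ρ δ I κ' ε₁ S cf cf' T →
  ∑ d ∈ S, cf d * qP w u₁ u₂ g₁ g₂ (1 / 2 + δ) (fun v => y v - ∑ k ∈ range J, T k d (1 / 2 - v)) ≤
    I * E + ε'

/-- The certificate, part 1. `A ≤ |a|`: range of the parameter; slices `(ws (k-1), ws k)`,
`k < J`, with the coefficients `cs k`; `κ`: loss of the sieve. -/
structure CertM (A δ κ μ : ℝ) (J : ℕ) (ws cs : ℕ → ℝ) (w u₁ u₂ y : ℝ → ℝ) (g₁ g₂ : ℝ) : Prop where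
  hJ : 0 < J
  hδ : 0 < δ
  hδ' : δ ≤ 1 / 100
  hμ : 0 < μ
  hws₀ : 0 < ws 0
  hws : ∀ k, k + 1 < J → ws k + δ ≤ ws (k + 1)
  hcs : ∀ k < J, 0 ≤ cs k
  hcsJ : 0 < cs (J - 1)
  hκ : 1 ≤ κ
  hlen : ws (J - 1) + 10 * δ + 2 / κ < 1 / 2
  hw : Continuous w
  hwp : ∀ v, 0 < w v
  hg₁ : 0 ≤ g₁
  hg₂ : 0 ≤ g₂
  hu₁ : Continuous u₁
  hu₂ : Continuous u₂
  hy : Continuous y
  hyp : ∀ v ∈ Set.Icc 0 (1 / 2 + δ), 0 ≤ y v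
  hyi : 0 < ∫ v in (0 : ℝ)..(1 / 2 + δ), y v
  main : ∀ a : ℝ, A ≤ |a| → ∀ f : ℝ → ℝ, ContinuousOn f (Set.Icc 0 (1 / 2 + δ)) →
    (1 + μ) * (∫ v in (0 : ℝ)..(1 / 2 + δ), Real.cosh (a * v) * f v) ^ 2 ≤
      qP w u₁ u₂ g₁ g₂ (1 / 2 + δ) f * PPH (HJ ws cs J) (ws (J - 1)) (1 / 2 + δ) y a ^ 2

/-- The certificate, part 2: the energy. `σs`: first stopping heights; `t`, `lam`, `ν`: parameters
of the splitting `q(A₁ + B) ≤ t q(B + lam A₁) + (1 - t lam² + (t-1) ν²) q(A₁)`. -/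
structure CertE (δ κ E : ℝ) (J : ℕ) (ws cs σs : ℕ → ℝ) (w u₁ u₂ y : ℝ → ℝ)
    (g₁ g₂ B₁ B₂ t lam ν : ℝ) : Prop where
  hσ₀ : ∀ k < J, -δ ≤ σs k ∧ σs k ≤ 1 / 2 - ws k - 6 * δ
  hσ : ∀ k < J, σs k = -δ ∨ σs k + ws k + ws (J - 1) + 12 * δ ≤ 1 / 2
  hτ : ws (J - 1) + 6 * δ ≤ 1 / 2
  ht : 1 ≤ t
  hlam : 0 ≤ lam ∧ lam ≤ 1
  hν : 0 ≤ ν
  htl : t * lam + (t - 1) * ν = 1
  hρ : 0 ≤ 1 - t * lam ^ 2 + (t - 1) * ν ^ 2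
  hB₁ : (∫ v in (0 : ℝ)..(1 / 2 + δ), |u₁ v|) ^ 2 ≤ B₁
  hB₂ : (∫ v in (0 : ℝ)..(1 / 2 + δ), |u₂ v|) ^ 2 ≤ B₂
  en : enJ J (fun k => cs k ^ 2 * sk ws k) (fun k => 1 / 2 - ws k - 6 * δ) σs
    (2 * δ * ∑ k ∈ range (J - 1), cs k * cs (k + 1)) κ t lam ν δ w u₁ u₂ g₁ g₂ B₁ B₂
    (fun v => y v - HJ ws cs J 0) ≤ E

/-! ### One discriminant -/

/-- The process `τ` is close to `T₀` in mean square over all members of the family (the error is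
`O(X / (log X)²)`, so negligible for the primes). -/
def PerQ (R : ℕ → Prop) (δ : ℝ) (T₀ τ : ℝ → ℕ → ℝ → ℝ) : Prop :=
  ∃ C X₀ : ℝ, ∀ X : ℝ, X₀ ≤ X → ∀ S : Finset ℕ, (∀ d ∈ S, R d ∧ X < d ∧ (d : ℝ) ≤ 2 * X) →
    ∑ d ∈ S, ∫ v in (0 : ℝ)..(1 / 2 + δ), (T₀ X d (1 / 2 - v) - τ X d v) ^ 2 ≤
      C * X / (Real.log X) ^ 2

/-- The linear relation for the discriminants with a zero, for a profile with the tail integral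
at least `H`; the parameter `a` satisfies `A ≤ |a|`. -/
def BadH (A : ℝ) (R NZ : ℕ → Prop) (H : ℝ → ℝ) (θ₀ δ : ℝ) (τ : ℝ → ℕ → ℝ → ℝ) : Prop :=
  ∀ ε : ℝ, 0 < ε → ∃ X₀ : ℝ, ∀ X : ℝ, X₀ ≤ X → ∀ d : ℕ, X < d → (d : ℝ) ≤ 2 * X → R d →
    Squarefree d → ¬ NZ d → ∃ a : ℝ, A ≤ |a| ∧
    IntegrableOn (fun v : ℝ => Real.cosh (a * v) * τ X d v) (Set.Ioi 0) ∧
    (∫ v in Set.Ioi (0 : ℝ), Real.cosh (a * v) * τ X d v) = 0 ∧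
    (1 - ε) * (∫ v in Set.Ioc (1 / 2 + δ) (1 / 2 + δ + θ₀), Real.cosh (a * v) *
        H (v - (1 / 2 + δ))) - ε ≤
      ∫ v in Set.Ioi (1 / 2 + δ), Real.cosh (a * v) * τ X d v

/-- A family of discriminants for the prime version: the class `R` of density `D`, the process is
`ytil` at `c₀ d` (`c₀ = 1`: discriminants `8 σ d`, `c₀ = 2`: `4 σ d` and `σ d`), `NZ d`: no zero
(outside the window of the parameter `A`). -/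
structure FamP (A : ℝ) (R NZ : ℕ → Prop) (D : ℝ) (c₀ : ℕ) (σ : ℤ) (δ : ℝ) : Prop where
  odd : ∀ d, R d → Odd d
  hD : 0 < D
  hσ : σ = 1 ∨ σ = -1
  hc₀ : c₀ = 1 ∨ c₀ = 2
  tw : TwP R D c₀ σ
  pcl : ∃ S : Finset ℕ, PCl R D S
  data : ∀ ρ : ℝ → ℝ, Bump ρ (-(δ / 2)) (δ / 2) → (∀ y, 0 ≤ ρ y) → (∀ y, ρ (-y) = ρ y) →
    (∫ y, ρ y) = 1 → ∀ (θ₀ : ℝ) (H h : ℝ → ℝ), 0 < θ₀ → θ₀ + 6 * δ < 1 / 2 → (∀ x, 0 ≤ H x) →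
    Antitone H → Continuous H → (∀ x, θ₀ ≤ x → H x = 0) → Bump h (2 * δ) (θ₀ + 3 * δ) →
    (∀ t, 0 ≤ h t) → (∀ t, H (t - 2 * δ) ≤ HH h t) →
    ∃ τ : ℝ → ℕ → ℝ → ℝ, (∀ X : ℝ, 1 < X → ∀ d, Continuous (τ X d)) ∧
      PerQ R δ (fun X d Y => ytil (if σ = 1 then 0 else 1) σ ρ h X (c₀ * d) Y) τ ∧
      BadH A R NZ H θ₀ δ τ

end Pool.Agent.MP0016c7.PC
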