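import Mathlib
import Pool.Agent.Lib.MP_0016c7_nt.PC.Defs2

set_option autoImplicit false

/-!
Project PrimeConductors, version with slices: the statements at the boundaries of the blocks.
(`JF_` = interface; each is proved in its block and used as a hypothesis elsewhere.
`IF_sieve` and `IF_split` of Iface.lean stay valid; everything else of Iface.lean that occurs here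
in a new form is replaced by the form here.)
-/

open Finset MeasureTheory Filter Topology
open scoped Real ContDiff

namespace Pool.Agent.MP0016c7.PC

open Pool.Agent.MP0016c7.Rz
open Pool.Agent.BVall (OmL)

/-- [E] The error terms, summed over the sieve modulus; two profiles. -/
def JF_err : Prop :=
  ∀ (θ δ η : ℝ), 0 < θ → 0 < δ → 0 < η → θ + 3 * δ + η < 1 / 2 →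
  ∀ (F : ℝ → ℝ) (a b : ℝ), 0 < a → Bump F a b → ∀ σ : ℤ, (σ = 1 ∨ σ = -1) →
  ∀ c₀ : ℝ, (c₀ = 0 ∨ c₀ = 1) → ∀ (ρ₁ ρ₂ h₁ h₂ : ℝ → ℝ), Bump ρ₁ (-(δ / 2)) (δ / 2) →
  Bump ρ₂ (-(δ / 2)) (δ / 2) → Bump h₁ 0 θ → Bump h₂ 0 θ → ∀ C₀ : ℝ, 0 < C₀ →
  ∃ ε₀ η' X₀ : ℝ, 0 < ε₀ ∧ 0 < η' ∧ ∀ X : ℝ, X₀ ≤ X →
    ∀ Y₁ ∈ Set.Icc (-1 : ℝ) (1 / 2 + δ), ∀ Y₂ ∈ Set.Icc (-1 : ℝ) (1 / 2 + δ), ∀ c : ℤ → ℝ,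
    (∀ k, |c k| ≤ 2) → ∀ Y : ℝ, X / C₀ ≤ Y → Y ≤ C₀ * X → ∀ v : ℕ → ℝ, (∀ m, |v m| ≤ X ^ ε₀) →
    |∑ m ∈ Osq ⌊X ^ η⌋₊, v m / m * quad (Wt c₀ ρ₁ h₁ X θ δ Y₁) (Wt c₀ ρ₂ h₂ X θ δ Y₂) m
      ⌊X ^ 2⌋₊ (NSm F σ c m Y)| ≤ X ^ (-η')

/-- [P] The twisted Poisson formula for all families. -/
def JF_tw : Prop :=
  ∀ σ : ℤ, (σ = 1 ∨ σ = -1) → TwP Odd (1 / 2) 1 σ ∧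
    ∀ (m c ε : ℤ) (κ : ℕ), Fam m c ε κ → TwP (Rf m c σ) (1 / m) 2 σ

/-- [M] The main term with the factor `gN`; two profiles. (helper8: `quad_CCp2`.) -/
def JF_quadp : Prop :=
  ∀ (β : ℂ → ℂ) (B : ℝ → ℝ), BC β B → ∀ (I₀ δ θ₁ θ₂ : ℝ), 0 < δ → δ ≤ 1 / 4 → 0 < θ₁ → 0 < θ₂ →
  θ₁ + 3 * δ < 1 / 2 → θ₂ + 3 * δ < 1 / 2 → ∀ c : ℝ, (c = 0 ∨ c = 1) →
  ∀ (ρ₁ ρ₂ h₁ h₂ : ℝ → ℝ), Bump ρ₁ (-(δ / 2)) (δ / 2) → Bump ρ₂ (-(δ / 2)) (δ / 2) →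
  Bump h₁ 0 θ₁ → Bump h₂ 0 θ₂ →
  ∀ (C₀ ε : ℝ), 0 < ε → ∃ X₀ : ℝ, ∀ X : ℝ, X₀ ≤ X → ∀ M : ℕ → ℝ, MRep β I₀ X M →
    (∀ N : ℕ, Odd N → |gN N * M N| ≤ C₀ * N) →
    ∀ Y₁ ∈ Set.Icc (-1 : ℝ) (1 / 2 + δ), ∀ Y₂ ∈ Set.Icc (-1 : ℝ) (1 / 2 + δ),
    |quad (Wt c ρ₁ h₁ X θ₁ δ Y₁) (Wt c ρ₂ h₂ X θ₂ δ Y₂) 1 ⌊X ^ 2⌋₊ (fun N => gN N * M N) -
      I₀ * CC2 ρ₁ ρ₂ h₁ h₂ Y₁ Y₂| ≤ ε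

open Classical in
/-- [M] The diagonal term; two profiles. (helper8: `quad_D2`.) -/
def JF_quadD : Prop :=
  ∀ (δ θ₁ θ₂ : ℝ), 0 < δ → δ ≤ 1 / 4 → 0 < θ₁ → 0 < θ₂ →
  θ₁ + 3 * δ < 1 / 2 → θ₂ + 3 * δ < 1 / 2 → ∀ c : ℝ, (c = 0 ∨ c = 1) →
  ∀ (ρ₁ ρ₂ h₁ h₂ : ℝ → ℝ), Bump ρ₁ (-(δ / 2)) (δ / 2) → Bump ρ₂ (-(δ / 2)) (δ / 2) →
  Bump h₁ 0 θ₁ → Bump h₂ 0 θ₂ →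
  ∀ ε : ℝ, 0 < ε → ∃ X₀ : ℝ, ∀ X : ℝ, X₀ ≤ X →
    ∀ Y₁ ∈ Set.Icc (-1 : ℝ) (1 / 2 + δ), ∀ Y₂ ∈ Set.Icc (-1 : ℝ) (1 / 2 + δ),
    |quad (Wt c ρ₁ h₁ X θ₁ δ Y₁) (Wt c ρ₂ h₂ X θ₂ δ Y₂) 1 ⌊X ^ 2⌋₊
      (fun N => if IsSquare N then 1 else 0) - CD2 ρ₁ ρ₂ h₁ h₂ Y₁ Y₂| ≤ ε

/-- [M] The absolute size of the quadruple sums (powers of the logarithm); two profiles. -/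
def JF_absq : Prop :=
  ∀ (θ₁ θ₂ δ : ℝ), 0 < θ₁ → 0 < θ₂ → 0 < δ → θ₁ + 3 * δ < 1 / 2 → θ₂ + 3 * δ < 1 / 2 →
  ∀ c₀ : ℝ, (c₀ = 0 ∨ c₀ = 1) →
  ∀ (ρ₁ ρ₂ h₁ h₂ : ℝ → ℝ), Bump ρ₁ (-(δ / 2)) (δ / 2) → Bump ρ₂ (-(δ / 2)) (δ / 2) →
  Bump h₁ 0 θ₁ → Bump h₂ 0 θ₂ →
  ∃ (A₀ : ℕ) (X₀ : ℝ), ∀ X : ℝ, X₀ ≤ X →
    ∀ Y₁ ∈ Set.Icc (-1 : ℝ) (1 / 2 + δ), ∀ Y₂ ∈ Set.Icc (-1 : ℝ) (1 / 2 + δ),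
    ∀ (M : ℕ → ℝ) (e : ℝ), 0 ≤ e → (∀ N : ℕ, Odd N → (N : ℝ) ≤ X ^ 4 →
      |M N| ≤ e * ((N.divisors.card : ℝ) / √(sq1 N : ℝ))) →
    |quad (Wt c₀ ρ₁ h₁ X θ₁ δ Y₁) (Wt c₀ ρ₂ h₂ X θ₂ δ Y₂) 1 ⌊X ^ 2⌋₊ M| ≤
      e * (Real.log X) ^ A₀

/-- [W] The second moment with the sieve weights, any family; two profiles. -/
def JF_smW : Prop :=
  ∀ (θ δ η : ℝ), 0 < θ → 0 < δ → δ ≤ 1 / 4 → 0 < η → θ + 3 * δ + η < 1 / 2 →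
  ∀ (R : ℕ → Prop) (D : ℝ) (c₀ : ℕ) (σ : ℤ), (∀ d, R d → Odd d) → 0 < D → (c₀ = 1 ∨ c₀ = 2) →
  (σ = 1 ∨ σ = -1) → TwP R D c₀ σ →
  ∀ (F : ℝ → ℝ) (a b : ℝ), 0 < a → Bump F a b → 0 < (∫ t, F t) → ∀ a₀ : ℝ, (a₀ = 0 ∨ a₀ = 1) →
  ∀ (ρ₁ ρ₂ h₁ h₂ : ℝ → ℝ), Bump ρ₁ (-(δ / 2)) (δ / 2) → Bump ρ₂ (-(δ / 2)) (δ / 2) →
  Bump h₁ 0 θ → Bump h₂ 0 θ →
  ∀ ε' : ℝ, 0 < ε' → ∃ (ε₀ : ℝ) (A : ℕ) (X₀ : ℝ), 0 < ε₀ ∧ ∀ X : ℝ, X₀ ≤ X →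
    ∀ (w : ℕ → ℝ) (V : ℝ), SW X η ε₀ A w V →
    ∀ Y₁ ∈ Set.Icc (-1 : ℝ) (1 / 2 + δ), ∀ Y₂ ∈ Set.Icc (-1 : ℝ) (1 / 2 + δ),
    |avWg R D w V F X (fun d => ytil a₀ σ ρ₁ h₁ X (c₀ * d) Y₁ * ytil a₀ σ ρ₂ h₂ X (c₀ * d) Y₂) -
      (∫ t, F t) * CC2 ρ₁ ρ₂ h₁ h₂ Y₁ Y₂| ≤ ε'

/-- [F] The prime sums twisted by quadratic characters. -/
def JF_EU : Prop :=
  ∀ lam : ℝ, 1 ≤ lam → ∀ η : ℝ, 0 < η → ∀ A K : ℕ, ∃ Z₀ : ℝ, ∀ Z : ℝ, Z₀ ≤ Z →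
    ∀ u ∈ ({1, -1, 2, -2} : Finset ℤ),
    ∑ a ∈ (Osq ⌊Z ^ (1 - η)⌋₊).filter (fun a => u ≠ 1 ∨ a ≠ 1),
      (a.divisors.card : ℝ) ^ K / √(a : ℝ) * |EU lam Z u a| ≤ Z / (Real.log Z) ^ A

/-- [X] The covariance over the primes of a class modulo `8`, in the exact range. -/
def JF_covP : Prop :=
  ∀ lam : ℝ, 3 ≤ lam → ∀ (θ₁ θ₂ δ : ℝ), 0 < θ₁ → 0 < θ₂ → 0 < δ → δ ≤ 1 / 100 →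
  θ₁ + 3 * δ < 1 / 2 → θ₂ + 3 * δ < 1 / 2 →
  ∀ r ∈ ({1, 3, 5, 7} : Finset ℕ), ∀ c₀ : ℕ, (c₀ = 1 ∨ c₀ = 2) → ∀ σ : ℤ, (σ = 1 ∨ σ = -1) →
  ∀ a₀ : ℝ, (a₀ = 0 ∨ a₀ = 1) →
  ∀ (ρ₁ ρ₂ h₁ h₂ : ℝ → ℝ), Bump ρ₁ (-(δ / 2)) (δ / 2) → Bump ρ₂ (-(δ / 2)) (δ / 2) →
  Bump h₁ 0 θ₁ → Bump h₂ 0 θ₂ → ∀ ε' : ℝ, 0 < ε' → ∃ X₀ : ℝ, ∀ X : ℝ, X₀ ≤ X →
    ∀ Y₁ ∈ Set.Icc (-1 : ℝ) (1 / 2 + δ), ∀ Y₂ ∈ Set.Icc (-1 : ℝ) (1 / 2 + δ),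
    Y₁ + θ₁ + Y₂ + θ₂ + 5 * δ ≤ 1 →
    |psiR (fun p => p % 8 = r) lam (X * Real.exp (1 / lam))
        (fun p => ytil a₀ σ ρ₁ h₁ X (c₀ * p) Y₁ * ytil a₀ σ ρ₂ h₂ X (c₀ * p) Y₂) -
      SO lam (X * Real.exp (1 / lam)) / 4 * CC2 ρ₁ ρ₂ h₁ h₂ Y₁ Y₂| ≤ ε' * X

/-- [X] The first moment over the primes of a class modulo `8`, all heights. -/
def JF_fmP : Prop :=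
  ∀ lam : ℝ, 3 ≤ lam → ∀ (θ δ : ℝ), 0 < θ → 0 < δ → δ ≤ 1 / 100 → θ + 6 * δ < 1 / 2 →
  ∀ r ∈ ({1, 3, 5, 7} : Finset ℕ), ∀ c₀ : ℕ, (c₀ = 1 ∨ c₀ = 2) → ∀ σ : ℤ, (σ = 1 ∨ σ = -1) →
  ∀ a₀ : ℝ, (a₀ = 0 ∨ a₀ = 1) → ∀ (ρ h : ℝ → ℝ), Bump ρ (-(δ / 2)) (δ / 2) → Bump h 0 θ →
  ∀ ε' : ℝ, 0 < ε' → ∃ X₀ : ℝ, ∀ X : ℝ, X₀ ≤ X → ∀ Y ∈ Set.Icc (-1 : ℝ) (1 / 2 + δ),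
    |psiR (fun p => p % 8 = r) lam (X * Real.exp (1 / lam))
        (fun p => ytil a₀ σ ρ h X (c₀ * p) Y) -
      SO lam (X * Real.exp (1 / lam)) / 4 * ∫ y, ρ y * HH h (y - Y)| ≤ ε' * X

/-- [X] The primes in the classes modulo `8`. -/
def JF_zmP : Prop :=
  ∀ lam : ℝ, 3 ≤ lam → ∀ r ∈ ({1, 3, 5, 7} : Finset ℕ),
  ∀ ε' : ℝ, 0 < ε' → ∃ X₀ : ℝ, ∀ X : ℝ, X₀ ≤ X →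
    |psiR (fun p => p % 8 = r) lam (X * Real.exp (1 / lam)) (fun _ => 1) -
      SO lam (X * Real.exp (1 / lam)) / 4| ≤ ε' * X

/-- [Sl] The slices: `q k` is a smooth version of `(1/2 + x)` on `(wp ws k, ws k)`. -/
def JF_slices : Prop :=
  ∀ (J : ℕ) (ws : ℕ → ℝ) (δ : ℝ), 0 < J → 0 < δ → δ ≤ 1 / 100 → 0 < ws 0 →
  (∀ k, k + 1 < J → ws k + δ ≤ ws (k + 1)) → ws (J - 1) ≤ 1 / 2 →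
  ∃ q : ℕ → ℝ → ℝ, (∀ k < J, Bump (q k) (2 * δ) (ws k + 3 * δ) ∧ (∀ t, 0 ≤ q k t) ∧
      HH (q k) 0 = HS ws k 0 ∧ (∀ t, HS ws k (t - 2 * δ) ≤ HH (q k) t) ∧
      ∫ t, q k t ^ 2 ≤ sk ws k) ∧
    ∀ k < J, ∀ l < J, k ≠ l →
      |∫ t, q k t * q l t| ≤ if k = l + 1 ∨ l = k + 1 then δ else 0

/-- [G] The core inequality: the energy bound from the certificate, part 2. -/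
def JF_core : Prop :=
  ∀ (δ κ E : ℝ) (J : ℕ) (ws cs σs : ℕ → ℝ) (w u₁ u₂ y : ℝ → ℝ) (g₁ g₂ B₁ B₂ t lam ν : ℝ),
  0 < δ → δ ≤ 1 / 100 → 0 ≤ κ → 0 < J → 0 < ws 0 → (∀ k, k + 1 < J → ws k + δ ≤ ws (k + 1)) →
  (∀ k < J, 0 ≤ cs k) → Continuous w → (∀ v, 0 < w v) → Continuous u₁ → Continuous u₂ →
  Continuous y → 0 ≤ g₁ → 0 ≤ g₂ →
  CertE δ κ E J ws cs σs w u₁ u₂ y g₁ g₂ B₁ B₂ t lam ν → EnBd J ws cs δ κ w u₁ u₂ y g₁ g₂ E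

/-- [G] The core inequality at one height `Y` (uniformly in `Y`, with parameters depending on
`Y`), for the window certificates. -/
def JF_pt : Prop :=
  ∀ (δ κ : ℝ) (J : ℕ) (ws cs σs : ℕ → ℝ), 0 < δ → δ ≤ 1 / 100 → 0 ≤ κ → 0 < J → 0 < ws 0 →
  (∀ k, k + 1 < J → ws k + δ ≤ ws (k + 1)) → (∀ k < J, 0 ≤ cs k) → ws (J - 1) + 6 * δ ≤ 1 / 2 →
  (∀ k < J, -δ ≤ σs k ∧ σs k ≤ 1 / 2 - ws k - 6 * δ) →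
  (∀ k < J, σs k = -δ ∨ σs k + ws k + ws (J - 1) + 12 * δ ≤ 1 / 2) →
  ∀ ρ : ℝ → ℝ, Bump ρ (-(δ / 2)) (δ / 2) → (∀ y, 0 ≤ ρ y) → (∫ y, ρ y) = 1 →
  ∀ Sm : ℕ → ℕ → ℝ, (∀ k < J, 0 ≤ Sm k k ∧ Sm k k ≤ cs k ^ 2 * sk ws k) →
  (∀ k < J, ∀ l < J, k ≠ l →
    |Sm k l| ≤ if k = l + 1 ∨ l = k + 1 then δ * (cs k * cs l) else 0) →
  ∀ (K K₁ ε' : ℝ), 0 < ε' → ∃ ε₁ : ℝ, 0 < ε₁ ∧ ∀ (I κ' : ℝ), 0 ≤ I → I ≤ K → 0 ≤ κ' → κ' ≤ κ →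
  ∀ (S : Finset ℕ) (cf cf' : ℕ → ℝ) (T : ℕ → ℕ → ℝ → ℝ),
  MD J ws (fun k => cs k * HS ws k 0) Sm ρ δ I κ' ε₁ S cf cf' T →
  ∀ Y ∈ Set.Icc (-δ) (1 / 2 : ℝ), ∀ t lam ν : ℝ, 1 ≤ t → t ≤ K₁ → 0 ≤ lam → lam ≤ 1 →
  0 ≤ ν → ν ≤ K₁ → t * lam + (t - 1) * ν = 1 → 0 ≤ 1 - t * lam ^ 2 + (t - 1) * ν ^ 2 →
  ∑ d ∈ S, cf d * (∑ k ∈ range J, (cs k * HS ws k 0 - T k d Y)) ^ 2 ≤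
    I * ((∑ k ∈ range J, cs k ^ 2 * sk ws k * (t * κ * max (Y - (1 / 2 - ws k - 6 * δ)) 0 +
      (1 - t * lam ^ 2 + (t - 1) * ν ^ 2 + t * κ * lam ^ 2) *
        max (min Y (1 / 2 - ws k - 6 * δ) - max (σs k) 0) 0 +
      max (min Y (σs k)) 0)) +
      (5 + 4 * (1 - t * lam ^ 2 + (t - 1) * ν ^ 2) + 4 * t * κ) *
        (3 / 2 * δ * (∑ k ∈ range J, cs k ^ 2 * sk ws k) +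
          2 * δ * ∑ k ∈ range (J - 1), cs k * cs (k + 1))) + ε'

/-- [H], [B] The families, all zeros. -/
def JF_fam0 : Prop :=
  ∀ σ : ℤ, (σ = 1 ∨ σ = -1) → ∀ δ : ℝ, 0 < δ → δ ≤ 1 / 100 →
    FamP 0 Odd (NoZero σ) (1 / 2) 1 σ δ ∧
    ∀ (m c ε : ℤ) (κ : ℕ), Fam m c ε κ → FamP 0 (Rf m c σ) (NoZeroG κ) (1 / m) 2 σ δ

/-- [H], [B] The families, zeros outside windows. -/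
def JF_famW : Prop :=
  ∀ σ : ℤ, (σ = 1 ∨ σ = -1) → ∀ δ : ℝ, 0 < δ → δ ≤ 1 / 100 → ∀ A A' : ℝ, 0 < A' → A' < A →
    FamP A' Odd (NoZW A σ) (1 / 2) 1 σ δ ∧
    ∀ (m c ε : ℤ) (κ : ℕ), Fam m c ε κ → FamP A' (Rf m c σ) (NoZWG A κ) (1 / m) 2 σ δ

/-- [A] The bad primes in one window. -/
def JF_window : Prop :=
  ∀ (A δ κ μ E : ℝ) (J : ℕ) (ws cs : ℕ → ℝ) (w u₁ u₂ y : ℝ → ℝ) (g₁ g₂ : ℝ),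
  CertM A δ κ μ J ws cs w u₁ u₂ y g₁ g₂ → EnBd J ws cs δ κ w u₁ u₂ y g₁ g₂ E →
  ∀ (R NZ : ℕ → Prop) (D : ℝ) (c₀ : ℕ) (σ : ℤ), FamP A R NZ D c₀ σ δ →
  ∀ E' : ℝ, E < E' → ∃ lam₁ : ℝ, ∀ lam : ℝ, lam₁ ≤ lam → 3 ≤ lam → ∃ X₀ : ℝ, ∀ X : ℝ, X₀ ≤ X →
    psiR (fun p => R p ∧ ¬ NZ p) lam (X * Real.exp (1 / lam)) (fun _ => 1) ≤
      E' * psiR R lam (X * Real.exp (1 / lam)) (fun _ => 1)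

/-- [Z] From windows to counts. -/
def JF_total : Prop :=
  ∀ (R NZ : ℕ → Prop) (D : ℝ) (S : Finset ℕ), PCl R D S → ∀ E E' : ℝ, 0 ≤ E → E < E' →
  (∃ lam₁ : ℝ, ∀ lam : ℝ, lam₁ ≤ lam → 3 ≤ lam → ∃ X₀ : ℝ, ∀ X : ℝ, X₀ ≤ X →
    psiR (fun p => R p ∧ ¬ NZ p) lam (X * Real.exp (1 / lam)) (fun _ => 1) ≤
      E * psiR R lam (X * Real.exp (1 / lam)) (fun _ => 1)) →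
  ∃ X₀ : ℕ, ∀ X : ℕ, X₀ ≤ X →
    (Nat.card {p : ℕ | p ≤ X ∧ p.Prime ∧ R p ∧ ¬ NZ p} : ℝ) ≤
      E' * (Nat.card {p : ℕ | p ≤ X ∧ p.Prime ∧ R p} : ℝ)

/-- [C] The certificate: less than one half. -/
def JF_cert : Prop :=
  ∃ (δ κ μ E : ℝ) (J : ℕ) (ws cs σs : ℕ → ℝ) (w u₁ u₂ y : ℝ → ℝ) (g₁ g₂ B₁ B₂ t lam ν : ℝ),
    E < 1 / 2 ∧ CertM 0 δ κ μ J ws cs w u₁ u₂ y g₁ g₂ ∧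
    CertE δ κ E J ws cs σs w u₁ u₂ y g₁ g₂ B₁ B₂ t lam ν

end Pool.Agent.MP0016c7.PC
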