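import Mathlib
import Pool.Agent.Lib.MP_0016c7_nt.PC.Iface2
import Pool.Agent.Lib.MP_0016c7_nt.Rz.TestH

set_option autoImplicit false

/-!
Project PrimeConductors: the slices of the profile (`JF_slices`).
-/

open Finset MeasureTheory Filter Topology
open scoped Real ContDiff

namespace Pool.Agent.MP0016c7.PC

open Pool.Agent.MP0016c7.Rz
open Pool.Agent.MP0016c7.Rz.TestH
open scoped Convolution

/-- the unsmoothed slice -/
private noncomputable def sb (a b δ v : ℝ) : ℝ := bs b δ v - bs a δ v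

private theorem sb_cases (a b δ v : ℝ) (hab : a ≤ b) :
    (sb a b δ v = 0 ∧ bs b δ v = bs a δ v) ∨
      (bs a δ v = 0 ∧ sb a b δ v = 1 / 2 + (v - 2 * δ) ∧ 2 * δ < v ∧ a + 2 * δ ≤ v ∧
        v < b + 2 * δ) := by
  unfold sb bs
  by_cases h1 : v ∈ Set.Ioo (2 * δ) (a + 2 * δ)
  · have h2 : v ∈ Set.Ioo (2 * δ) (b + 2 * δ) := ⟨h1.1, h1.2.trans_le (by linarith)⟩
    left
    rw [Set.indicator_of_mem h1, Set.indicator_of_mem h2]
    exact ⟨sub_self _, rfl⟩
  · by_cases h2 : v ∈ Set.Ioo (2 * δ) (b + 2 * δ)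
    · right
      rw [Set.indicator_of_notMem h1, Set.indicator_of_mem h2]
      refine ⟨rfl, by ring, h2.1, ?_, h2.2⟩
      by_contra h3
      exact h1 ⟨h2.1, not_le.1 h3⟩
    · left
      rw [Set.indicator_of_notMem h1, Set.indicator_of_notMem h2]
      exact ⟨sub_self _, rfl⟩

private theorem sb_nonneg (a b δ v : ℝ) (hab : a ≤ b) : 0 ≤ sb a b δ v := by
  rcases sb_cases a b δ v hab with ⟨h, -⟩ | ⟨-, h, h2, -, -⟩
  · exact h.ge
  · rw [h]; linarith

private theorem sb_le (a b δ v : ℝ) (hab : a ≤ b) (hb : 0 ≤ b) : sb a b δ v ≤ 1 / 2 + b := by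
  rcases sb_cases a b δ v hab with ⟨h, -⟩ | ⟨-, h, -, -, h2⟩
  · rw [h]; linarith
  · rw [h]; linarith

private theorem sb_sq (a b δ v : ℝ) (hab : a ≤ b) :
    sb a b δ v ^ 2 = bs b δ v ^ 2 - bs a δ v ^ 2 := by
  rcases sb_cases a b δ v hab with ⟨h, h2⟩ | ⟨h, -⟩
  · rw [h, h2]; ring
  · unfold sb; rw [h]; ring

private theorem bs_zero_left (δ v : ℝ) : bs 0 δ v = 0 := by
  unfold bs
  refine Set.indicator_of_notMem ?_ _
  intro h
  have h1 := h.1
  have h2 := h.2
  linarith

private theorem bs_sq_integral' (a δ : ℝ) (ha : 0 ≤ a) :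
    ∫ v, bs a δ v ^ 2 = ((a + 1 / 2) ^ 3 - 1 / 8) / 3 := by
  rcases ha.eq_or_lt with rfl | ha
  · have : (fun v : ℝ => bs 0 δ v ^ 2) = fun _ => 0 := by
      funext v
      rw [bs_zero_left]; ring
    rw [this, integral_zero]
    norm_num
  · exact bs_sq_integral a δ ha

private theorem Hid_neg' (a : ℝ) (ha : 0 ≤ a) {x : ℝ} (hx : x ≤ 0) : Hid a x = Hid a 0 := by
  rcases ha.eq_or_lt with rfl | ha
  · unfold Hid
    rw [if_pos le_rfl]
    split_ifs with h
    · rfl
    · rw [max_eq_right hx]; ring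
  · exact Hid_neg a ha hx

/-- the tail of a slice -/
private noncomputable def Hs (a b x : ℝ) : ℝ := Hid b x - Hid a x

private theorem sb_measurable (a b δ : ℝ) : Measurable (sb a b δ) :=
  (bs_measurable b δ).sub (bs_measurable a δ)

private theorem sb_integrable (a b δ : ℝ) : Integrable (sb a b δ) :=
  (bs_integrable b δ).sub (bs_integrable a δ)

private theorem sb_tail (a b δ : ℝ) (ha : 0 ≤ a) (hb : 0 ≤ b) (v : ℝ) :
    ∫ s in Set.Ioi v, sb a b δ s = Hs a b (v - 2 * δ) := by
  unfold sb Hs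
  rw [integral_sub (bs_integrable b δ).integrableOn (bs_integrable a δ).integrableOn,
    bs_tail b δ hb, bs_tail a δ ha]

private theorem Hs_anti (a b : ℝ) (ha : 0 ≤ a) (hab : a ≤ b) {x y : ℝ} (hxy : x ≤ y) :
    Hs a b y ≤ Hs a b x := by
  have h1 := sb_tail a b 0 ha (ha.trans hab) x
  have h2 := sb_tail a b 0 ha (ha.trans hab) y
  rw [mul_zero, sub_zero] at h1 h2
  rw [← h1, ← h2]
  exact setIntegral_mono_set (sb_integrable a b 0).integrableOn
    (Eventually.of_forall fun v => sb_nonneg a b 0 v hab)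
    (Eventually.of_forall fun v (hv : y < v) => (hxy.trans_lt hv : x < v))

private theorem Hs_nonneg (a b : ℝ) (ha : 0 ≤ a) (hab : a ≤ b) (x : ℝ) : 0 ≤ Hs a b x := by
  have h1 := sb_tail a b 0 ha (ha.trans hab) x
  rw [mul_zero, sub_zero] at h1
  rw [← h1]
  exact integral_nonneg fun v => sb_nonneg a b 0 v hab

private theorem Hs_neg (a b : ℝ) (ha : 0 ≤ a) (hab : a ≤ b) {x : ℝ} (hx : x ≤ 0) :
    Hs a b x = Hs a b 0 := by
  unfold Hs
  rw [Hid_neg' a ha hx, Hid_neg' b (ha.trans hab) hx]

private theorem Hs_le (a b : ℝ) (ha : 0 ≤ a) (hab : a ≤ b) (x : ℝ) : Hs a b x ≤ Hs a b 0 := by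
  rcases le_total x 0 with h | h
  · exact (Hs_neg a b ha hab h).le
  · exact Hs_anti a b ha hab h

private theorem exists_slice (a b δ : ℝ) (ha : 0 ≤ a) (hab : a < b) (hδ : 0 < δ) :
    ∃ h : ℝ → ℝ, ContDiff ℝ ∞ h ∧ (∀ t, h t ≠ 0 → a + 2 * δ < t ∧ t < b + 3 * δ) ∧
      (∀ t, 0 ≤ h t) ∧ (∀ t, h t ≤ 1 / 2 + b) ∧ HH h 0 = Hs a b 0 ∧
      (∀ t, Hs a b (t - 2 * δ) ≤ HH h t) ∧
      ∫ t, h t ^ 2 ≤ ((b + 1 / 2) ^ 3 - (a + 1 / 2) ^ 3) / 3 := by
  have hb : 0 < b := ha.trans_lt hab
  let f : ContDiffBump (δ / 2) := ⟨δ / 8, δ / 4, by positivity, by linarith⟩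
  set φ : ℝ → ℝ := f.normed volume with hφ
  have φ0 : ∀ u, 0 ≤ φ u := fun u => f.nonneg_normed u
  have φ1 : ∫ u, φ u = 1 := f.integral_normed
  have φi : Integrable φ := f.integrable_normed
  have φs : HasCompactSupport φ := f.hasCompactSupport_normed
  have φsupp : ∀ u, φ u ≠ 0 → 0 < u ∧ u < δ := by
    intro u hu
    have h1 : u ∈ Function.support (f.normed volume) := hu
    rw [f.support_normed_eq] at h1
    have h2 : |u - δ / 2| < δ / 4 := by
      have := Metric.mem_ball.1 h1
      rwa [Real.dist_eq] at this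
    rw [abs_lt] at h2
    constructor <;> linarith
  have bi := sb_integrable a b δ
  have b2i : Integrable (fun v => sb a b δ v ^ 2) := by
    refine ((bs_sq_integrable b δ).sub (bs_sq_integrable a δ)).congr
      (Eventually.of_forall fun v => ?_)
    exact (sb_sq a b δ v hab.le).symm
  have b2v : ∫ v, sb a b δ v ^ 2 = ((b + 1 / 2) ^ 3 - (a + 1 / 2) ^ 3) / 3 := by
    have h1 : (fun v => sb a b δ v ^ 2) = fun v => bs b δ v ^ 2 - bs a δ v ^ 2 := by
      funext v
      exact sb_sq a b δ v hab.le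
    rw [h1, integral_sub (bs_sq_integrable b δ) (bs_sq_integrable a δ),
      bs_sq_integral' a δ ha, bs_sq_integral' b δ hb.le]
    ring
  set h : ℝ → ℝ := φ ⋆[ContinuousLinearMap.lsmul ℝ ℝ, volume] sb a b δ with hh
  have hdef : ∀ t, h t = ∫ u, φ u * sb a b δ (t - u) := fun t => rfl
  have hi : Integrable h := φi.integrable_convolution _ bi
  -- pointwise integrability
  have hbm : ∀ t, AEStronglyMeasurable (fun u => sb a b δ (t - u)) volume := fun t =>
    ((sb_measurable a b δ).comp (measurable_const.sub measurable_id)).aestronglyMeasurable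
  have i1 : ∀ t, Integrable (fun u => φ u * sb a b δ (t - u)) := by
    intro t
    refine (φi.mul_const (1 / 2 + b)).mono' (φi.aestronglyMeasurable.mul (hbm t))
      (Eventually.of_forall fun u => ?_)
    rw [norm_mul, Real.norm_eq_abs, Real.norm_eq_abs, abs_of_nonneg (φ0 u),
      abs_of_nonneg (sb_nonneg _ _ _ _ hab.le)]
    exact mul_le_mul_of_nonneg_left (sb_le _ _ _ _ hab.le hb.le) (φ0 u)
  have i2 : ∀ t, Integrable (fun u => φ u * sb a b δ (t - u) ^ 2) := by
    intro t
    refine (φi.mul_const ((1 / 2 + b) ^ 2)).mono' (φi.aestronglyMeasurable.mul ((hbm t).pow 2))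
      (Eventually.of_forall fun u => ?_)
    rw [norm_mul, Real.norm_eq_abs, Real.norm_eq_abs, abs_of_nonneg (φ0 u), abs_of_nonneg
      (sq_nonneg _)]
    exact mul_le_mul_of_nonneg_left (pow_le_pow_left₀ (sb_nonneg _ _ _ _ hab.le)
      (sb_le _ _ _ _ hab.le hb.le) 2) (φ0 u)
  -- the tail integral
  have tail : ∀ t, HH h t = ∫ u, φ u * Hs a b (t - u - 2 * δ) := by
    intro t
    unfold HH
    have hint : Integrable (Function.uncurry fun s u => φ u * sb a b δ (s - u))
        ((volume.restrict (Set.Ioi t)).prod volume) := by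
      have h1 := φi.convolution_integrand (ContinuousLinearMap.lsmul ℝ ℝ) bi
      have h2 : ((volume : Measure ℝ).restrict (Set.Ioi t)).prod (volume : Measure ℝ) =
          ((volume : Measure ℝ).prod volume).restrict (Set.Ioi t ×ˢ Set.univ) := by
        rw [← Measure.prod_restrict, Measure.restrict_univ]
      rw [h2]
      exact h1.integrableOn
    have h3 := integral_integral_swap hint
    calc ∫ s in Set.Ioi t, h s = ∫ s in Set.Ioi t, ∫ u, φ u * sb a b δ (s - u) := rfl
      _ = ∫ u, ∫ s in Set.Ioi t, φ u * sb a b δ (s - u) := h3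
      _ = ∫ u, φ u * Hs a b (t - u - 2 * δ) := by
        congr 1
        funext u
        rw [integral_const_mul, ← sb_tail a b δ ha hb.le (t - u)]
        congr 1
        have h4 := integral_sub_right_eq_self (μ := volume)
          (fun s => (Set.Ioi (t - u)).indicator (sb a b δ) s) u
        rw [integral_indicator measurableSet_Ioi] at h4
        rw [← h4, ← integral_indicator measurableSet_Ioi]
        congr 1
        funext s
        by_cases hs : t < s
        · rw [Set.indicator_of_mem (by exact hs), Set.indicator_of_mem (by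
            show t - u < s - u
            linarith)]
        · rw [Set.indicator_of_notMem (by exact hs), Set.indicator_of_notMem (by
            show ¬ (t - u < s - u)
            intro h5
            exact hs (by linarith))]
  have i3 : ∀ t, Integrable (fun u => φ u * Hs a b (t - u - 2 * δ)) := by
    intro t
    have hmon : Monotone (fun u => Hs a b (t - u - 2 * δ)) := fun u v huv =>
      Hs_anti a b ha hab.le (by linarith)
    refine (φi.mul_const (Hs a b 0)).mono' (φi.aestronglyMeasurable.mul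
      hmon.measurable.aestronglyMeasurable) (Eventually.of_forall fun u => ?_)
    rw [norm_mul, Real.norm_eq_abs, Real.norm_eq_abs, abs_of_nonneg (φ0 u),
      abs_of_nonneg (Hs_nonneg a b ha hab.le _)]
    exact mul_le_mul_of_nonneg_left (Hs_le a b ha hab.le _) (φ0 u)
  have φu1 : ∀ C : ℝ, ∫ u, φ u * C = C := fun C => by rw [integral_mul_const, φ1, one_mul]
  refine ⟨h, ?_, ?_, ?_, ?_, ?_, ?_, ?_⟩
  · exact φs.contDiff_convolution_left (ContinuousLinearMap.lsmul ℝ ℝ) f.contDiff_normed
      bi.locallyIntegrable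
  · intro t ht
    by_contra hcon
    apply ht
    rw [hdef]
    have : (fun u => φ u * sb a b δ (t - u)) = fun _ => 0 := by
      funext u
      by_cases hu : φ u = 0
      · rw [hu, zero_mul]
      · obtain ⟨h1, h2⟩ := φsupp u hu
        rcases sb_cases a b δ (t - u) hab.le with ⟨h3, -⟩ | ⟨-, -, -, h4, h5⟩
        · rw [h3, mul_zero]
        · exfalso
          apply hcon
          constructor <;> linarith
    rw [this, integral_zero]
  · intro t
    rw [hdef]
    exact integral_nonneg fun u => mul_nonneg (φ0 u) (sb_nonneg _ _ _ _ hab.le)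
  · intro t
    rw [hdef, ← φu1 (1 / 2 + b)]
    exact integral_mono (i1 t) (φi.mul_const _) fun u =>
      mul_le_mul_of_nonneg_left (sb_le _ _ _ _ hab.le hb.le) (φ0 u)
  · rw [tail]
    have : (fun u => φ u * Hs a b (0 - u - 2 * δ)) = fun u => φ u * Hs a b 0 := by
      funext u
      by_cases hu : φ u = 0
      · rw [hu, zero_mul, zero_mul]
      · obtain ⟨h1, h2⟩ := φsupp u hu
        rw [Hs_neg a b ha hab.le (by linarith)]
    rw [this, φu1]
  · intro t
    rw [tail, ← φu1 (Hs a b (t - 2 * δ))]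
    refine integral_mono (φi.mul_const _) (i3 t) fun u => ?_
    simp only
    by_cases hu : φ u = 0
    · rw [hu, zero_mul, zero_mul]
    · obtain ⟨h1, h2⟩ := φsupp u hu
      exact mul_le_mul_of_nonneg_left (Hs_anti a b ha hab.le (by linarith)) (φ0 u)
  · have hconv : Integrable (φ ⋆[ContinuousLinearMap.lsmul ℝ ℝ, volume]
        (fun v => sb a b δ v ^ 2)) := φi.integrable_convolution _ b2i
    have hint := integral_convolution (ContinuousLinearMap.lsmul ℝ ℝ) φi b2i
    rw [φ1, b2v] at hint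
    have hle : ∫ t, h t ^ 2 ≤
        ∫ t, (φ ⋆[ContinuousLinearMap.lsmul ℝ ℝ, volume] (fun v => sb a b δ v ^ 2)) t := by
      refine integral_mono_of_nonneg (Eventually.of_forall fun t => sq_nonneg _) hconv
        (Eventually.of_forall fun t => ?_)
      have h1 : (φ ⋆[ContinuousLinearMap.lsmul ℝ ℝ, volume] (fun v => sb a b δ v ^ 2)) t =
          ∫ u, φ u * sb a b δ (t - u) ^ 2 := rfl
      simp only
      rw [h1]
      have h2 : 0 ≤ ∫ u, φ u * (sb a b δ (t - u) - h t) ^ 2 :=
        integral_nonneg fun u => mul_nonneg (φ0 u) (sq_nonneg _)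
      have h3 : ∫ u, φ u * (sb a b δ (t - u) - h t) ^ 2 =
          (∫ u, φ u * sb a b δ (t - u) ^ 2) - 2 * h t * (∫ u, φ u * sb a b δ (t - u)) +
            h t ^ 2 * ∫ u, φ u := by
        have j1 : Integrable (fun u => 2 * h t * (φ u * sb a b δ (t - u))) := (i1 t).const_mul _
        have j2 : Integrable (fun u => h t ^ 2 * φ u) := φi.const_mul _
        have j3 : Integrable (fun u => φ u * sb a b δ (t - u) ^ 2 -
            2 * h t * (φ u * sb a b δ (t - u))) := (i2 t).sub j1
        rw [← integral_const_mul, ← integral_const_mul, ← integral_sub (i2 t) j1,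
          ← integral_add j3 j2]
        congr 1
        funext u
        ring
      rw [h3, ← hdef, φ1] at h2
      nlinarith
    rw [hint] at hle
    simpa using hle

private theorem ws_le {J : ℕ} {ws : ℕ → ℝ} {δ : ℝ} (hδ : 0 < δ)
    (hws : ∀ k, k + 1 < J → ws k + δ ≤ ws (k + 1)) {k : ℕ} : ∀ n, k + n < J →
    ws k ≤ ws (k + n) := by
  intro n
  induction n with
  | zero => intro _; exact le_rfl
  | succ n ih =>
    intro h
    have h1 := ih (by omega)
    have h2 := hws (k + n) (by omega)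
    have e : k + (n + 1) = k + n + 1 := by omega
    rw [e]
    linarith

private theorem overlap {q₁ q₂ : ℝ → ℝ} {c δ : ℝ} (hδ : 0 < δ) (h1 : ContDiff ℝ ∞ q₁)
    (h2 : ContDiff ℝ ∞ q₂) (n1 : ∀ t, 0 ≤ q₁ t) (n2 : ∀ t, 0 ≤ q₂ t) (l1 : ∀ t, q₁ t ≤ 1)
    (l2 : ∀ t, q₂ t ≤ 1) (s1 : ∀ t, q₁ t ≠ 0 → t < c + δ) (s2 : ∀ t, q₂ t ≠ 0 → c < t) :
    |∫ t, q₁ t * q₂ t| ≤ δ := by
  have hz : ∀ t, t ∉ Set.Ioo c (c + δ) → q₁ t * q₂ t = 0 := by
    intro t ht
    by_contra h
    exact ht ⟨s2 t (right_ne_zero_of_mul h), s1 t (left_ne_zero_of_mul h)⟩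
  have e : ∫ t, q₁ t * q₂ t = ∫ t in Set.Ioo c (c + δ), q₁ t * q₂ t :=
    (setIntegral_eq_integral_of_forall_compl_eq_zero hz).symm
  have hn : 0 ≤ ∫ t, q₁ t * q₂ t := integral_nonneg fun t => mul_nonneg (n1 t) (n2 t)
  rw [abs_of_nonneg hn, e]
  have hc : ContinuousOn (fun t => q₁ t * q₂ t) (Set.Icc c (c + δ)) :=
    (h1.continuous.mul h2.continuous).continuousOn
  have hi : IntegrableOn (fun t => q₁ t * q₂ t) (Set.Ioo c (c + δ)) :=
    hc.integrableOn_Icc.mono_set Set.Ioo_subset_Icc_self
  calc ∫ t in Set.Ioo c (c + δ), q₁ t * q₂ t ≤ ∫ _t in Set.Ioo c (c + δ), (1 : ℝ) := by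
        refine setIntegral_mono_on hi (integrableOn_const (by simp)) measurableSet_Ioo
          fun t _ => ?_
        exact mul_le_one₀ (l1 t) (n2 t) (l2 t)
    _ = δ := by
        rw [setIntegral_const, smul_eq_mul, mul_one, Measure.real, Real.volume_Ioo,
          ENNReal.toReal_ofReal (by linarith)]
        ring

theorem p_slices : JF_slices := by
  intro J ws δ hJ hδ hδ' hws0 hws hws2
  have hpos : ∀ k < J, 0 < ws k := by
    intro k hk
    have := ws_le hδ hws (k := 0) k (by omega)
    rw [zero_add] at this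
    linarith
  have hhalf : ∀ k < J, ws k ≤ 1 / 2 := by
    intro k hk
    have := ws_le hδ hws (k := k) (J - 1 - k) (by omega)
    have e : k + (J - 1 - k) = J - 1 := by omega
    rw [e] at this
    linarith
  have hwp0 : ∀ k < J, 0 ≤ wp ws k := by
    intro k hk
    unfold wp
    split_ifs with h
    · exact le_rfl
    · exact (hpos (k - 1) (by omega)).le
  have hwp1 : ∀ k < J, wp ws k < ws k := by
    intro k hk
    unfold wp
    split_ifs with h
    · exact hpos k hk
    · have := hws (k - 1) (by omega)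
      have e : k - 1 + 1 = k := by omega
      rw [e] at this
      linarith
  have hex : ∀ k, ∃ q : ℝ → ℝ, k < J → ContDiff ℝ ∞ q ∧
      (∀ t, q t ≠ 0 → wp ws k + 2 * δ < t ∧ t < ws k + 3 * δ) ∧
      (∀ t, 0 ≤ q t) ∧ (∀ t, q t ≤ 1 / 2 + ws k) ∧ HH q 0 = Hs (wp ws k) (ws k) 0 ∧
      (∀ t, Hs (wp ws k) (ws k) (t - 2 * δ) ≤ HH q t) ∧
      ∫ t, q t ^ 2 ≤ ((ws k + 1 / 2) ^ 3 - (wp ws k + 1 / 2) ^ 3) / 3 := by
    intro k
    by_cases hk : k < J
    · obtain ⟨q, hq⟩ := exists_slice (wp ws k) (ws k) δ (hwp0 k hk) (hwp1 k hk) hδ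
      exact ⟨q, fun _ => hq⟩
    · exact ⟨fun _ => 0, fun h => absurd h hk⟩
  choose q hq using hex
  refine ⟨q, fun k hk => ?_, ?_⟩
  · obtain ⟨g1, g2, g3, g4, g5, g6, g7⟩ := hq k hk
    refine ⟨⟨g1, fun t ht => ?_⟩, g3, g5, g6, g7⟩
    obtain ⟨h1, h2⟩ := g2 t ht
    have := hwp0 k hk
    exact ⟨by linarith, h2⟩
  · have key : ∀ k < J, ∀ l < J, k < l →
        |∫ t, q k t * q l t| ≤ if l = k + 1 then δ else 0 := by
      intro k hk l hl hkl
      obtain ⟨g1, g2, g3, g4, -, -, -⟩ := hq k hk
      obtain ⟨f1, f2, f3, f4, -, -, -⟩ := hq l hl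
      have hk2 := hhalf k hk
      have hl2 := hhalf l hl
      have hwl : wp ws l = ws (l - 1) := by
        unfold wp
        rw [if_neg (by omega)]
      by_cases h : l = k + 1
      · rw [if_pos h]
        have e : l - 1 = k := by omega
        rw [e] at hwl
        refine overlap (c := ws k + 2 * δ) hδ g1 f1 g3 f3 (fun t => (g4 t).trans (by linarith))
          (fun t => (f4 t).trans (by linarith)) (fun t ht => ?_) (fun t ht => ?_)
        · have := (g2 t ht).2
          linarith
        · have := (f2 t ht).1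
          rw [hwl] at this
          linarith
      · rw [if_neg h]
        have hz : (fun t => q k t * q l t) = fun _ => 0 := by
          funext t
          by_contra hne
          have h1 := (g2 t (left_ne_zero_of_mul hne)).2
          have h2 := (f2 t (right_ne_zero_of_mul hne)).1
          rw [hwl] at h2
          have h3 := hws k (by omega)
          have h4 := ws_le hδ hws (k := k + 1) (l - 1 - (k + 1)) (by omega)
          have e : k + 1 + (l - 1 - (k + 1)) = l - 1 := by omega
          rw [e] at h4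
          linarith
        rw [hz, integral_zero, abs_zero]
    intro k hk l hl hkl
    rcases Nat.lt_or_gt_of_ne hkl with h | h
    · have h1 := key k hk l hl h
      have e : (k = l + 1 ∨ l = k + 1) ↔ l = k + 1 := by
        constructor
        · rintro (h2 | h2)
          · omega
          · exact h2
        · exact Or.inr
      simp only [e]
      exact h1
    · have h1 := key l hl k hk h
      have e : (k = l + 1 ∨ l = k + 1) ↔ k = l + 1 := by
        constructor
        · rintro (h2 | h2)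
          · exact h2
          · omega
        · exact Or.inl
      simp only [e]
      have h2 : (fun t => q k t * q l t) = fun t => q l t * q k t := by
        funext t
        exact mul_comm _ _
      rw [h2]
      exact h1

end Pool.Agent.MP0016c7.PC
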