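import Mathlib
import Pool.Agent.Lib.MP_0016c7_nt.Rz.Defs
import Pool.Agent.Lib.MP_0016c7_nt.Rz.DefsC
import Pool.Agent.Lib.MP_0016c7_nt.Rz.DefsE
import Pool.Agent.Lib.MP_0016c7_nt.Rz.DefsF
import Pool.Agent.Lib.MP_0016c7_nt.Rz2.DefsG

set_option autoImplicit false

/-!
Definitions for the main terms (project on prime conductors).
-/

open Finset MeasureTheory Filter Topology
open scoped Real ContDiff

namespace Pool.Agent.MP0016c7.PC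

open Pool.Agent.MP0016c7.Rz

/-! ### The Euler product with the extra factor of the sieve -/

/-- `∏ (1 - 1/p)⁻¹` over the primes dividing `N`. -/
noncomputable def gN (N : ℕ) : ℝ := ∏ p ∈ N.primeFactors, (1 - 1 / (p : ℝ))⁻¹

/-- The arithmetic weight of the main term with the factor `gN`. -/
noncomputable def bzp (z : ℂ) (N : ℕ) : ℂ := (gN N : ℂ) * bz z N

/-- The Dirichlet series of the main term with the factor `gN`. -/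
noncomputable def OOp (r : ℕ) (s₁ w₁ s₂ w₂ z : ℂ) : ℂ :=
  ∑' N : ℕ, if Nat.Coprime N (2 * r) then cfA s₁ w₁ s₂ w₂ N * bzp z N / (√(N : ℝ) : ℂ) else 0

/-- The local factor of `OOp`. -/
noncomputable def locOxp (q x y x' y' u v : ℂ) : ℂ :=
  (1 + (x * x' + y * y' - (x + x') * (y + y')) / q + x * x' * y * y' / q ^ 2) /
      ((1 - x ^ 2 / q) * (1 - x' ^ 2 / q)) +
  (u - v) / (1 - 1 / q) *
    (((x + x' - y - y') / q + ((x + x') * (y * y') - x * x' * (y + y')) / q ^ 2) /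
      ((1 - x ^ 2 / q) * (1 - x' ^ 2 / q)))

noncomputable def locOp (p : ℕ) (s₁ w₁ s₂ w₂ z : ℂ) : ℂ :=
  locOxp p ((p : ℂ) ^ (-s₁)) ((p : ℂ) ^ (-w₁)) ((p : ℂ) ^ (-s₂)) ((p : ℂ) ^ (-w₂)) ((p : ℂ) ^ z)
    ((p : ℂ) ^ (-z))

/-- `M` has the Mellin representation with the kernel `β` at the height `Y`, with the factor
`gN`. -/
def MRepp (β : ℂ → ℂ) (I₀ Y : ℝ) (M : ℕ → ℝ) : Prop :=
  ∀ N : ℕ, Odd N → ∀ c : ℝ, 0 < c → c ≤ 1 / 8 →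
    (M N : ℂ) = (I₀ : ℂ) * (bzp 0 N - 1 / 2 * (1 / (2 * π)) * ∫ t : ℝ,
      β (c + Complex.I * t) * (((Y / 2 : ℝ)) : ℂ) ^ (-(c + Complex.I * t : ℂ)) *
        bzp (c + Complex.I * t) N / (c + Complex.I * t))

/-- The Dirichlet series of the main term with the kernel `β`, with the factor `gN`. -/
noncomputable def QXgp (β : ℂ → ℂ) (r : ℕ) (X : ℝ) (s₁ w₁ s₂ w₂ : ℂ) : ℂ :=
  OOp r (s₁ / Real.log X) (w₁ / Real.log X) (s₂ / Real.log X) (w₂ / Real.log X) 0 -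
  1 / 2 * (1 / (2 * π)) * ∫ ζ : ℝ, β (1 / Real.log X + Complex.I * ζ) *
    (((X / (2 * r ^ 2) : ℝ)) : ℂ) ^ (-(1 / Real.log X + Complex.I * ζ : ℂ)) *
    OOp r (s₁ / Real.log X) (w₁ / Real.log X) (s₂ / Real.log X) (w₂ / Real.log X)
      (1 / Real.log X + Complex.I * ζ) / (1 / Real.log X + Complex.I * ζ)

/-! ### Two profiles -/

/-- The limit covariance for two profiles. -/
noncomputable def CC2 (ρ₁ ρ₂ h₁ h₂ : ℝ → ℝ) (Y₁ Y₂ : ℝ) : ℝ :=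
  ∫ x : ℝ, ∫ y : ℝ, ρ₁ x * ρ₂ y * (HH h₁ (x - Y₁) * HH h₂ (y - Y₂) +
    (∫ t : ℝ, h₁ t * h₂ t) * (max (min (Y₁ - x) (Y₂ - y)) 0 - max (Y₁ - x + (Y₂ - y) - 1) 0))

/-- The limit covariance for two profiles, diagonal part. -/
noncomputable def CD2 (ρ₁ ρ₂ h₁ h₂ : ℝ → ℝ) (Y₁ Y₂ : ℝ) : ℝ :=
  ∫ x : ℝ, ∫ y : ℝ, ρ₁ x * ρ₂ y * (HH h₁ (x - Y₁) * HH h₂ (y - Y₂) +
    (∫ t : ℝ, h₁ t * h₂ t) * max (min (Y₁ - x) (Y₂ - y)) 0)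

/-- The main term of the second moment for two profiles. -/
noncomputable def MTg2 (a : ℝ) (ρ₁ ρ₂ h₁ h₂ : ℝ → ℝ) (M : ℕ → ℝ) (X : ℝ) (r : ℕ)
    (Y₁ Y₂ : ℝ) : ℝ :=
  ∑' q : (ℕ × ℕ) × (ℕ × ℕ),
    if Nat.Coprime (q.1.1 * q.1.2 * q.2.1 * q.2.2) (2 * r) then
      (ArithmeticFunction.moebius q.1.2 : ℝ) * (ArithmeticFunction.moebius q.2.2 : ℝ) *
        kL a ρ₁ h₁ (Real.log X) (Y₁ - Real.log q.1.1 / Real.log X) (Real.log q.1.2 / Real.log X) *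
        kL a ρ₂ h₂ (Real.log X) (Y₂ - Real.log q.2.1 / Real.log X) (Real.log q.2.2 / Real.log X) /
        √((q.1.1 * q.1.2 * q.2.1 * q.2.2 : ℕ) : ℝ) *
        M (q.1.1 * q.1.2 * q.2.1 * q.2.2)
    else 0

/-- The basic integrals of the limit formula for two profiles. -/
noncomputable def JJ2 (ρ₁ ρ₂ h₁ h₂ : ℝ → ℝ) (Y₁ Y₂ : ℝ) (K : ℂ → ℂ → ℂ → ℂ → ℂ) : ℂ :=
  1 / (2 * π) ^ 4 * ∫ x₁ : ℝ, ∫ y₁ : ℝ, ∫ x₂ : ℝ, ∫ y₂ : ℝ,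
    rhat ρ₁ (2 + Complex.I * x₁) * hhat h₁ (3 + Complex.I * y₁) *
      (rhat ρ₂ (5 / 2 + Complex.I * x₂) * hhat h₂ (3 + Complex.I * y₂)) *
      Complex.exp ((2 + Complex.I * x₁) * Y₁ + (5 / 2 + Complex.I * x₂) * Y₂) *
      K (2 + Complex.I * x₁) (3 + Complex.I * y₁) (5 / 2 + Complex.I * x₂) (3 + Complex.I * y₂)

/-- The quadruple Dirichlet series of the main function `M` (scale `L`) equals `Q`. -/
def SerQ (M : ℕ → ℝ) (r : ℕ) (L : ℝ) (Q : ℂ → ℂ → ℂ → ℂ → ℂ) : Prop :=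
  ∀ s₁ w₁ s₂ w₂ : ℂ,
    2 ≤ s₁.re → s₁.re ≤ 3 → 2 ≤ w₁.re → w₁.re ≤ 3 → 2 ≤ s₂.re → s₂.re ≤ 3 → 2 ≤ w₂.re → w₂.re ≤ 3 →
    Summable (fun q : (ℕ × ℕ) × (ℕ × ℕ) =>
      if Nat.Coprime (q.1.1 * q.1.2 * q.2.1 * q.2.2) (2 * r) then
        ((q.1.1 * q.1.2 * q.2.1 * q.2.2 : ℕ) : ℝ) ^ (-(1 / 2) - 2 / L : ℝ) *
          |M (q.1.1 * q.1.2 * q.2.1 * q.2.2)| else 0) ∧
    ∑' q : (ℕ × ℕ) × (ℕ × ℕ),
      (if Nat.Coprime (q.1.1 * q.1.2 * q.2.1 * q.2.2) (2 * r) then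
        (ArithmeticFunction.moebius q.1.2 : ℂ) * (ArithmeticFunction.moebius q.2.2 : ℂ) *
        (q.1.1 : ℂ) ^ (-(s₁ / L)) * (q.1.2 : ℂ) ^ (-(w₁ / L)) *
        (q.2.1 : ℂ) ^ (-(s₂ / L)) * (q.2.2 : ℂ) ^ (-(w₂ / L)) /
        (√((q.1.1 * q.1.2 * q.2.1 * q.2.2 : ℕ) : ℝ) : ℂ) *
        (M (q.1.1 * q.1.2 * q.2.1 * q.2.2) : ℂ) else 0) = Q s₁ w₁ s₂ w₂

/-- The analytic properties of a family of main series `Q X` with the limit `Qi`. -/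
structure QOK (Q : ℝ → ℂ → ℂ → ℂ → ℂ → ℂ) (Qi : ℂ → ℂ → ℂ → ℂ → ℂ) : Prop where
  meas : ∃ X₀ : ℝ, ∀ X : ℝ, X₀ ≤ X → Measurable (fun p : ℝ × ℝ × ℝ × ℝ =>
    Q X (2 + Complex.I * p.1) (3 + Complex.I * p.2.1) (5 / 2 + Complex.I * p.2.2.1)
      (3 + Complex.I * p.2.2.2))
  bd : ∃ C A X₀ : ℝ, 0 < C ∧ 0 < A ∧ ∀ X : ℝ, X₀ ≤ X → ∀ a' b' c' d' : ℝ,
    ‖Q X (2 + Complex.I * a') (3 + Complex.I * b') (5 / 2 + Complex.I * c')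
      (3 + Complex.I * d')‖ ≤ C * ((1 + |a'|) * (1 + |b'|) * (1 + |c'|) * (1 + |d'|)) ^ A
  lim : ∀ a' b' c' d' : ℝ, b' ≠ d' → Tendsto (fun X : ℝ =>
    Q X (2 + Complex.I * a') (3 + Complex.I * b') (5 / 2 + Complex.I * c')
      (3 + Complex.I * d')) atTop
    (𝓝 (Qi (2 + Complex.I * a') (3 + Complex.I * b') (5 / 2 + Complex.I * c')
      (3 + Complex.I * d')))

end Pool.Agent.MP0016c7.PC
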