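import Mathlib
import Pool.Agent.Lib.MP_0016c7_nt.Theta
import Pool.Agent.Lib.MP_0016c7_nt.Rz.Defs
import Pool.Agent.Lib.MP_0016c7_nt.Rz.DefsC
import Pool.Agent.Lib.MP_0016c7_nt.Rz.DefsF
import Pool.Agent.Lib.MP_0016c7_nt.Rz.DefsE
import Pool.Agent.Lib.MP_0016c7_nt.Rz.ArithA1
import Pool.Agent.Lib.MP_0016c7_nt.Rz.ArithA9
import Pool.Agent.Lib.MP_0016c7_nt.Rz.ArithA10
import Pool.Agent.Lib.MP_0016c7_nt.Rz.DivB
import Pool.Agent.Lib.MP_0016c7_nt.PC.DefsM

set_option autoImplicit false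

open Finset MeasureTheory Filter Topology
open scoped Real ContDiff

namespace Pool.Agent.MP0016c7.PC

open Pool.Agent.MP0016c7.Rz

/-! ### values at prime powers -/

private lemma eul1p_sq1_pp {p : ℕ} (hp : p.Prime) (k : ℕ) :
    sq1 (p ^ k) = if Odd k then p else 1 := by
  unfold sq1
  rcases Nat.eq_zero_or_pos k with rfl | hk
  · simp
  · rw [Nat.primeFactors_prime_pow hk.ne' hp]
    have hf : (p ^ k).factorization p = k := by
      rw [hp.factorization_pow]; simp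
    by_cases h : Odd k
    · rw [if_pos h, Finset.filter_singleton, hf, if_pos h, Finset.prod_singleton]
    · rw [if_neg h, Finset.filter_singleton, hf, if_neg h, Finset.prod_empty]

private lemma eul1p_sq2_pp {p : ℕ} (hp : p.Prime) (k : ℕ) : sq2 (p ^ k) = p ^ (k / 2) := by
  unfold sq2
  rcases Nat.eq_zero_or_pos k with rfl | hk
  · simp
  · rw [Nat.primeFactors_prime_pow hk.ne' hp, Finset.prod_singleton]
    have hf : (p ^ k).factorization p = k := by
      rw [hp.factorization_pow]; simp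
    rw [hf]

private lemma eul1p_rho_odd {p : ℕ} (hp : p.Prime) (k : ℕ) (hk : Odd k) : rhoN (p ^ k) = 1 := by
  unfold rhoN
  rw [eul1p_sq1_pp hp, eul1p_sq2_pp hp, if_pos hk]
  refine Finset.prod_eq_one fun q hq => ?_
  rw [Finset.mem_filter] at hq
  exfalso
  apply hq.2
  have h1 := Nat.dvd_of_mem_primeFactors hq.1
  exact (Nat.prime_of_mem_primeFactors hq.1).dvd_of_dvd_pow h1

private lemma eul1p_rho_even {p : ℕ} (hp : p.Prime) (k : ℕ) (hk : ¬ Odd k) (hk0 : k ≠ 0) :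
    rhoN (p ^ k) = 1 - 1 / (p : ℝ) := by
  unfold rhoN
  rw [eul1p_sq1_pp hp, eul1p_sq2_pp hp, if_neg hk]
  have h2 : k / 2 ≠ 0 := by
    rw [Nat.not_odd_iff_even] at hk
    obtain ⟨j, hj⟩ := hk
    omega
  rw [Nat.primeFactors_prime_pow h2 hp, Finset.filter_singleton,
    if_pos (by simpa using hp.one_lt.ne'), Finset.prod_singleton]

private lemma eul1p_rho_one : rhoN 1 = 1 := by
  unfold rhoN sq2
  simp

/-! ### the sum over divisors as a Dirichlet convolution -/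

private lemma eul1p_cpow_real (t : ℝ) (ht : 0 < t) (z : ℂ) :
    (t : ℂ) ^ z = Complex.exp ((Real.log t : ℂ) * z) := by
  rw [Complex.cpow_def_of_ne_zero (by exact_mod_cast ht.ne'), Complex.ofReal_log ht.le]

private lemma eul1p_S (z : ℂ) (a : ℕ) (ha : a ≠ 0) :
    ∑ e ∈ a.divisors, (ArithmeticFunction.moebius e : ℂ) *
      (((a : ℝ) / (e : ℝ) ^ 2 : ℝ) : ℂ) ^ z = (pmA z * pwA (-z)) a := by
  rw [ArithmeticFunction.mul_apply]
  rw [Nat.sum_divisorsAntidiagonal (f := fun i j => pmA z i * pwA (-z) j)]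
  refine Finset.sum_congr rfl fun e he => ?_
  have hdvd : e ∣ a := Nat.dvd_of_mem_divisors he
  have he0 : e ≠ 0 := fun h => ha (by rw [h] at hdvd; exact Nat.eq_zero_of_zero_dvd hdvd)
  obtain ⟨c, rfl⟩ := hdvd
  have hc0 : c ≠ 0 := fun h => ha (by rw [h, mul_zero])
  rw [Nat.mul_div_cancel_left c (Nat.pos_of_ne_zero he0)]
  have h1 : pmA z e = (ArithmeticFunction.moebius e : ℂ) * (e : ℂ) ^ (-z) := by
    simp [pmA, he0]
  have h2 : pwA (-z) c = (c : ℂ) ^ z := by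
    simp [pwA, hc0]
  rw [h1, h2, mul_assoc]
  congr 1
  have heR : (0 : ℝ) < e := by exact_mod_cast Nat.pos_of_ne_zero he0
  have hcR : (0 : ℝ) < c := by exact_mod_cast Nat.pos_of_ne_zero hc0
  have h3 : (((e * c : ℕ) : ℝ) / (e : ℝ) ^ 2) = c / e := by
    push_cast
    field_simp
  rw [h3, eul1p_cpow_real _ (by positivity)]
  have h4 : (e : ℂ) ^ (-z) = Complex.exp ((Real.log e : ℂ) * (-z)) := by
    rw [← eul1p_cpow_real _ heR]
    norm_cast
  have h5 : (c : ℂ) ^ z = Complex.exp ((Real.log c : ℂ) * z) := by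
    rw [← eul1p_cpow_real _ hcR]
    norm_cast
  rw [h4, h5, ← Complex.exp_add, Real.log_div hcR.ne' heR.ne']
  congr 1
  push_cast
  ring

private lemma eul1p_pwA_mult (s : ℂ) : (pwA s).IsMultiplicative := by
  rw [ArithmeticFunction.IsMultiplicative.iff_ne_zero]
  constructor
  · simp [pwA]
  · intro m n hm hn _
    simp only [pwA, ArithmeticFunction.coe_mk, hm, hn, mul_eq_zero, or_self, if_false]
    push_cast
    exact Complex.natCast_mul_natCast_cpow m n (-s)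

private lemma eul1p_pmA_mult (w : ℂ) : (pmA w).IsMultiplicative := by
  rw [ArithmeticFunction.IsMultiplicative.iff_ne_zero]
  constructor
  · simp [pmA]
  · intro m n hm hn hmn
    simp only [pmA, ArithmeticFunction.coe_mk, hm, hn, mul_eq_zero, or_self, if_false]
    rw [ArithmeticFunction.isMultiplicative_moebius.map_mul_of_coprime hmn]
    push_cast
    rw [Complex.natCast_mul_natCast_cpow m n (-w)]
    ring

private lemma eul1p_cfA_mult (s₁ w₁ s₂ w₂ : ℂ) : (cfA s₁ w₁ s₂ w₂).IsMultiplicative :=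
  ((eul1p_pwA_mult s₁).mul (eul1p_pmA_mult w₁)).mul ((eul1p_pwA_mult s₂).mul (eul1p_pmA_mult w₂))

private lemma eul1p_sq1_ne (n : ℕ) : sq1 n ≠ 0 := by
  have := squarefree_sq1 n
  exact this.ne_zero

private lemma eul1p_sq1_dvd (n : ℕ) (hn : n ≠ 0) : sq1 n ∣ n :=
  ⟨sq2 n ^ 2, (sq1_mul_sq2 n hn).symm⟩

private lemma eul1p_sq2_dvd (n : ℕ) (hn : n ≠ 0) : sq2 n ∣ n :=
  ⟨sq1 n * sq2 n, by rw [← mul_assoc, mul_comm (sq2 n), mul_assoc, ← pow_two, sq1_mul_sq2 n hn]⟩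

private lemma eul1p_rho_mul {m n : ℕ} (h : Nat.Coprime m n) (hm : m ≠ 0) (hn : n ≠ 0) :
    rhoN (m * n) = rhoN m * rhoN n := by
  have hcop : Nat.Coprime (sq2 m) (sq2 n) :=
    (h.coprime_dvd_left (eul1p_sq2_dvd m hm)).coprime_dvd_right (eul1p_sq2_dvd n hn)
  unfold rhoN
  rw [sq2_mul h, sq1_mul h, hcop.primeFactors_mul, Finset.filter_union, Finset.prod_union]
  · congr 1
    · refine Finset.prod_congr ?_ fun _ _ => rfl
      refine Finset.filter_congr fun p hp => ?_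
      have hpp := Nat.prime_of_mem_primeFactors hp
      have hpm : p ∣ m := (Nat.dvd_of_mem_primeFactors hp).trans (eul1p_sq2_dvd m hm)
      have hpn : ¬ p ∣ sq1 n := by
        intro h1
        have h2 : p ∣ n := h1.trans (eul1p_sq1_dvd n hn)
        exact hpp.one_lt.ne' (Nat.dvd_one.1 (h ▸ Nat.dvd_gcd hpm h2))
      rw [hpp.dvd_mul]
      tauto
    · refine Finset.prod_congr ?_ fun _ _ => rfl
      refine Finset.filter_congr fun p hp => ?_
      have hpp := Nat.prime_of_mem_primeFactors hp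
      have hpn : p ∣ n := (Nat.dvd_of_mem_primeFactors hp).trans (eul1p_sq2_dvd n hn)
      have hpm : ¬ p ∣ sq1 m := by
        intro h1
        have h2 : p ∣ m := h1.trans (eul1p_sq1_dvd m hm)
        exact hpp.one_lt.ne' (Nat.dvd_one.1 (h ▸ Nat.dvd_gcd h2 hpn))
      rw [hpp.dvd_mul]
      tauto
  · exact Finset.disjoint_filter_filter (hcop.disjoint_primeFactors)

private lemma eul1p_bz_eq (z : ℂ) (N : ℕ) :
    bz z N = (rhoN N : ℂ) / (√(sq1 N : ℝ) : ℂ) * (pmA z * pwA (-z)) (sq1 N) := by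
  unfold bz
  rw [eul1p_S z _ (eul1p_sq1_ne N)]

private lemma eul1p_bz_mul (z : ℂ) {m n : ℕ} (h : Nat.Coprime m n) (hm : m ≠ 0) (hn : n ≠ 0) :
    bz z (m * n) = bz z m * bz z n := by
  rw [eul1p_bz_eq, eul1p_bz_eq, eul1p_bz_eq, eul1p_rho_mul h hm hn, sq1_mul h]
  have hcop : Nat.Coprime (sq1 m) (sq1 n) :=
    (h.coprime_dvd_left (eul1p_sq1_dvd m hm)).coprime_dvd_right (eul1p_sq1_dvd n hn)
  rw [((eul1p_pmA_mult z).mul (eul1p_pwA_mult (-z))).map_mul_of_coprime hcop]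
  have h1 : √((sq1 m * sq1 n : ℕ) : ℝ) = √(sq1 m : ℝ) * √(sq1 n : ℝ) := by
    push_cast
    rw [Real.sqrt_mul (by positivity)]
  rw [h1]
  push_cast
  have h2 : ((√(sq1 m : ℝ) : ℝ) : ℂ) ≠ 0 := by
    have : (0 : ℝ) < sq1 m := by exact_mod_cast Nat.pos_of_ne_zero (eul1p_sq1_ne m)
    exact_mod_cast (Real.sqrt_pos.2 this).ne'
  have h3 : ((√(sq1 n : ℝ) : ℝ) : ℂ) ≠ 0 := by
    have : (0 : ℝ) < sq1 n := by exact_mod_cast Nat.pos_of_ne_zero (eul1p_sq1_ne n)
    exact_mod_cast (Real.sqrt_pos.2 this).ne'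
  field_simp

private lemma eul1p_bz_one (z : ℂ) : bz z 1 = 1 := by
  unfold bz
  rw [eul1p_rho_one]
  simp [sq1]

/-! ### local series -/

private lemma eul1p_conv {F G : ArithmeticFunction ℂ} {p : ℕ} (hp : p.Prime) (k : ℕ) :
    (F * G) (p ^ k) = ∑ ij ∈ HasAntidiagonal.antidiagonal k, F (p ^ ij.1) * G (p ^ ij.2) := by
  rw [ArithmeticFunction.mul_apply]
  rw [Nat.sum_divisorsAntidiagonal (f := fun i j => F i * G j)]
  rw [Nat.sum_divisors_prime_pow hp,
    Finset.Nat.sum_antidiagonal_eq_sum_range_succ (fun i j => F (p ^ i) * G (p ^ j))]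
  refine Finset.sum_congr rfl fun i hi => ?_
  rw [Finset.mem_range] at hi
  rw [Nat.pow_div (by omega) hp.pos]

private lemma eul1p_loc_mul {F G : ArithmeticFunction ℂ} {p : ℕ} (hp : p.Prime) {T A B : ℂ}
    (hF : HasSum (fun k => F (p ^ k) * T ^ k) A) (hFs : Summable fun k => ‖F (p ^ k) * T ^ k‖)
    (hG : HasSum (fun k => G (p ^ k) * T ^ k) B) (hGs : Summable fun k => ‖G (p ^ k) * T ^ k‖) :
    HasSum (fun k => (F * G) (p ^ k) * T ^ k) (A * B) ∧
      Summable fun k => ‖(F * G) (p ^ k) * T ^ k‖ := by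
  have e : ∀ k, (F * G) (p ^ k) * T ^ k = ∑ ij ∈ HasAntidiagonal.antidiagonal k,
      (F (p ^ ij.1) * T ^ ij.1) * (G (p ^ ij.2) * T ^ ij.2) := by
    intro k
    rw [eul1p_conv hp, Finset.sum_mul]
    refine Finset.sum_congr rfl fun ij hij => ?_
    rw [HasAntidiagonal.mem_antidiagonal] at hij
    rw [← hij, pow_add]
    ring
  have hs := summable_norm_sum_mul_antidiagonal_of_summable_norm hFs hGs
  have hs' : Summable fun k => ‖(F * G) (p ^ k) * T ^ k‖ := by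
    refine hs.congr fun k => ?_
    rw [e k]
  refine ⟨?_, hs'⟩
  have h1 := tsum_mul_tsum_eq_tsum_sum_antidiagonal_of_summable_norm hFs hGs
  rw [hF.tsum_eq, hG.tsum_eq] at h1
  rw [h1]
  have h2 : (fun k => (F * G) (p ^ k) * T ^ k) = fun k => ∑ ij ∈ HasAntidiagonal.antidiagonal k,
      (F (p ^ ij.1) * T ^ ij.1) * (G (p ^ ij.2) * T ^ ij.2) := funext e
  rw [h2]
  exact (hs.of_norm).hasSum

private lemma eul1p_pw {p : ℕ} (hp : p.Prime) (s T : ℂ) (h : ‖(p : ℂ) ^ (-s) * T‖ < 1) :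
    HasSum (fun k => pwA s (p ^ k) * T ^ k) (1 - (p : ℂ) ^ (-s) * T)⁻¹ ∧
      Summable fun k => ‖pwA s (p ^ k) * T ^ k‖ := by
  have e : (fun k => pwA s (p ^ k) * T ^ k) = fun k => ((p : ℂ) ^ (-s) * T) ^ k := by
    funext k
    have h0 : p ^ k ≠ 0 := pow_ne_zero _ hp.ne_zero
    have : pwA s (p ^ k) = ((p : ℂ) ^ (-s)) ^ k := by
      simp only [pwA, ArithmeticFunction.coe_mk, h0, if_false]
      push_cast
      rw [← Complex.cpow_nat_mul, ← Complex.natCast_cpow_natCast_mul]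
    rw [this, mul_pow]
  rw [e]
  refine ⟨hasSum_geometric_of_norm_lt_one h, ?_⟩
  refine (summable_geometric_of_lt_one (norm_nonneg _) h).congr fun k => ?_
  rw [← norm_pow]
  exact (congrArg norm (congrFun e k)).symm

private lemma eul1p_pm {p : ℕ} (hp : p.Prime) (w T : ℂ) :
    HasSum (fun k => pmA w (p ^ k) * T ^ k) (1 - (p : ℂ) ^ (-w) * T) ∧
      Summable fun k => ‖pmA w (p ^ k) * T ^ k‖ := by
  have h0 : ∀ k, k ∉ Finset.range 2 → pmA w (p ^ k) * T ^ k = 0 := by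
    intro k hk
    rw [Finset.mem_range, not_lt] at hk
    have h1 : p ^ k ≠ 0 := pow_ne_zero _ hp.ne_zero
    have h2 : ArithmeticFunction.moebius (p ^ k) = 0 := by
      rw [ArithmeticFunction.moebius_apply_prime_pow hp (by omega)]
      rw [if_neg (by omega)]
    simp [pmA, h2]
  have hsum : ∑ k ∈ Finset.range 2, pmA w (p ^ k) * T ^ k = 1 - (p : ℂ) ^ (-w) * T := by
    rw [Finset.sum_range_succ, Finset.sum_range_one]
    have h2 : ArithmeticFunction.moebius p = -1 := ArithmeticFunction.moebius_apply_prime hp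
    simp [pmA, h2, hp.ne_zero]
    ring
  refine ⟨?_, ?_⟩
  · rw [← hsum]
    exact hasSum_sum_of_ne_finset_zero h0
  · refine summable_of_ne_finset_zero (s := Finset.range 2) fun k hk => ?_
    rw [h0 k hk, norm_zero]

private lemma eul1p_cf {p : ℕ} (hp : p.Prime) (s₁ w₁ s₂ w₂ T : ℂ)
    (h1 : ‖(p : ℂ) ^ (-s₁) * T‖ < 1) (h2 : ‖(p : ℂ) ^ (-s₂) * T‖ < 1) :
    HasSum (fun k => cfA s₁ w₁ s₂ w₂ (p ^ k) * T ^ k)
      ((1 - (p : ℂ) ^ (-s₁) * T)⁻¹ * (1 - (p : ℂ) ^ (-w₁) * T) *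
        ((1 - (p : ℂ) ^ (-s₂) * T)⁻¹ * (1 - (p : ℂ) ^ (-w₂) * T))) := by
  have a1 := eul1p_pw hp s₁ T h1
  have a2 := eul1p_pm hp w₁ T
  have a3 := eul1p_pw hp s₂ T h2
  have a4 := eul1p_pm hp w₂ T
  have b1 := eul1p_loc_mul hp a1.1 a1.2 a2.1 a2.2
  have b2 := eul1p_loc_mul hp a3.1 a3.2 a4.1 a4.2
  exact (eul1p_loc_mul hp b1.1 b1.2 b2.1 b2.2).1

/-- the algebraic identity -/
private lemma eul1p_alg (q x y x' y' u v T : ℂ) (hT : T ^ 2 = 1 / q)
    (h1 : 1 - x * T ≠ 0) (h2 : 1 + x * T ≠ 0) (h3 : 1 - x' * T ≠ 0) (h4 : 1 + x' * T ≠ 0) :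
    1 / 2 *
      ((1 - x * T)⁻¹ * (1 - y * T) * ((1 - x' * T)⁻¹ * (1 - y' * T)) +
        (1 - x * (-T))⁻¹ * (1 - y * (-T)) * ((1 - x' * (-T))⁻¹ * (1 - y' * (-T)))) +
      (1 - 1 / q)⁻¹ * ((u - v) * T / 2) *
      ((1 - x * T)⁻¹ * (1 - y * T) * ((1 - x' * T)⁻¹ * (1 - y' * T)) -
        (1 - x * (-T))⁻¹ * (1 - y * (-T)) * ((1 - x' * (-T))⁻¹ * (1 - y' * (-T)))) =
    locOxp q x y x' y' u v := by
  have hD : (1 - x * T) * (1 + x * T) * ((1 - x' * T) * (1 + x' * T)) ≠ 0 :=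
    mul_ne_zero (mul_ne_zero h1 h2) (mul_ne_zero h3 h4)
  have e1 : (1 - x * (-T)) = 1 + x * T := by ring
  have e2 : (1 - x' * (-T)) = 1 + x' * T := by ring
  have e3 : (1 : ℂ) - x ^ 2 / q = (1 - x * T) * (1 + x * T) := by
    linear_combination x ^ 2 * hT
  have e4 : (1 : ℂ) - x' ^ 2 / q = (1 - x' * T) * (1 + x' * T) := by
    linear_combination x' ^ 2 * hT
  have i1 : (1 - x * T)⁻¹ * (1 - x * T) = 1 := inv_mul_cancel₀ h1
  have i2 : (1 + x * T)⁻¹ * (1 + x * T) = 1 := inv_mul_cancel₀ h2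
  have i3 : (1 - x' * T)⁻¹ * (1 - x' * T) = 1 := inv_mul_cancel₀ h3
  have i4 : (1 + x' * T)⁻¹ * (1 + x' * T) = 1 := inv_mul_cancel₀ h4
  have A1 : (1 - x * T)⁻¹ * (1 - y * T) * ((1 - x' * T)⁻¹ * (1 - y' * T)) =
      ((1 - y * T) * (1 - y' * T) * ((1 + x * T) * (1 + x' * T))) /
        ((1 - x * T) * (1 + x * T) * ((1 - x' * T) * (1 + x' * T))) := by
    rw [eq_div_iff hD]
    linear_combination ((1 - y * T) * (1 - y' * T) * ((1 + x * T) * (1 + x' * T))) *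
      ((1 - x' * T)⁻¹ * (1 - x' * T)) * i1 +
      ((1 - y * T) * (1 - y' * T) * ((1 + x * T) * (1 + x' * T))) * i3
  have A2 : (1 + x * T)⁻¹ * (1 - y * (-T)) * ((1 + x' * T)⁻¹ * (1 - y' * (-T))) =
      ((1 + y * T) * (1 + y' * T) * ((1 - x * T) * (1 - x' * T))) /
        ((1 - x * T) * (1 + x * T) * ((1 - x' * T) * (1 + x' * T))) := by
    rw [eq_div_iff hD]
    linear_combination ((1 + y * T) * (1 + y' * T) * ((1 - x * T) * (1 - x' * T))) *
      ((1 + x' * T)⁻¹ * (1 + x' * T)) * i2 +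
      ((1 + y * T) * (1 + y' * T) * ((1 - x * T) * (1 - x' * T))) * i4
  unfold locOxp
  rw [e1, e2, e3, e4, A1, A2, ← add_div, ← sub_div]
  have B1 : (1 - y * T) * (1 - y' * T) * ((1 + x * T) * (1 + x' * T)) +
      (1 + y * T) * (1 + y' * T) * ((1 - x * T) * (1 - x' * T)) =
      2 * (1 + (x * x' + y * y' - (x + x') * (y + y')) / q + x * x' * y * y' / q ^ 2) := by
    have : (1 : ℂ) / q ^ 2 = T ^ 4 := by
      rw [show T ^ 4 = (T ^ 2) ^ 2 by ring, hT]
      ring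
    linear_combination (2 * (x * x' + y * y' - (x + x') * (y + y'))) * hT -
      2 * x * x' * y * y' * this
  have B2 : T * ((1 - y * T) * (1 - y' * T) * ((1 + x * T) * (1 + x' * T)) -
      (1 + y * T) * (1 + y' * T) * ((1 - x * T) * (1 - x' * T))) =
      2 * ((x + x' - y - y') / q + ((x + x') * (y * y') - x * x' * (y + y')) / q ^ 2) := by
    have : (1 : ℂ) / q ^ 2 = T ^ 4 := by
      rw [show T ^ 4 = (T ^ 2) ^ 2 by ring, hT]
      ring
    linear_combination (2 * (x + x' - y - y')) * hT -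
      2 * ((x + x') * (y * y') - x * x' * (y + y')) * this
  have B3 : (u - v) * T / 2 * (((1 - y * T) * (1 - y' * T) * ((1 + x * T) * (1 + x' * T)) -
      (1 + y * T) * (1 + y' * T) * ((1 - x * T) * (1 - x' * T))) /
        ((1 - x * T) * (1 + x * T) * ((1 - x' * T) * (1 + x' * T)))) =
      (u - v) / 2 * ((T * ((1 - y * T) * (1 - y' * T) * ((1 + x * T) * (1 + x' * T)) -
      (1 + y * T) * (1 + y' * T) * ((1 - x * T) * (1 - x' * T)))) /
        ((1 - x * T) * (1 + x * T) * ((1 - x' * T) * (1 + x' * T)))) := by ring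
  rw [mul_assoc (1 - 1 / q)⁻¹, B3, B1, B2]
  ring

private lemma eul1p_bz_odd (z : ℂ) {p : ℕ} (hp : p.Prime) (k : ℕ) (hk : Odd k) :
    bz z (p ^ k) = ((√(p : ℝ) : ℝ) : ℂ)⁻¹ * ((p : ℂ) ^ z - (p : ℂ) ^ (-z)) := by
  rw [eul1p_bz_eq, eul1p_rho_odd hp k hk, eul1p_sq1_pp hp, if_pos hk]
  have h1 : (pmA z * pwA (-z)) p = (p : ℂ) ^ z - (p : ℂ) ^ (-z) := by
    have h2 := eul1p_conv (F := pmA z) (G := pwA (-z)) hp 1
    rw [pow_one] at h2
    rw [h2, Finset.Nat.sum_antidiagonal_eq_sum_range_succ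
      (fun i j => pmA z (p ^ i) * pwA (-z) (p ^ j)), Finset.sum_range_succ, Finset.sum_range_one]
    have h3 : ArithmeticFunction.moebius p = -1 := ArithmeticFunction.moebius_apply_prime hp
    simp [pmA, pwA, h3, hp.ne_zero]
    ring
  rw [h1]
  simp

private lemma eul1p_bz_even (z : ℂ) {p : ℕ} (hp : p.Prime) (k : ℕ) (hk : ¬ Odd k) (hk0 : k ≠ 0) :
    bz z (p ^ k) = 1 - 1 / (p : ℂ) := by
  rw [eul1p_bz_eq, eul1p_rho_even hp k hk hk0, eul1p_sq1_pp hp, if_neg hk,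
    ((eul1p_pmA_mult z).mul (eul1p_pwA_mult (-z))).map_one]
  simp

/-! ### the weights with the extra factor -/

private lemma eul1p_gN_mul {m n : ℕ} (h : Nat.Coprime m n) : gN (m * n) = gN m * gN n := by
  unfold gN
  rw [h.primeFactors_mul, Finset.prod_union h.disjoint_primeFactors]

private lemma eul1p_gN_one : gN 1 = 1 := by
  unfold gN
  simp

private lemma eul1p_gN_pp {p : ℕ} (hp : p.Prime) (k : ℕ) (hk : k ≠ 0) :
    gN (p ^ k) = (1 - 1 / (p : ℝ))⁻¹ := by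
  unfold gN
  rw [Nat.primeFactors_prime_pow hk hp, Finset.prod_singleton]

private lemma eul1p_bzp_mul (z : ℂ) {m n : ℕ} (h : Nat.Coprime m n) (hm : m ≠ 0) (hn : n ≠ 0) :
    bzp z (m * n) = bzp z m * bzp z n := by
  unfold bzp
  rw [eul1p_gN_mul h, eul1p_bz_mul z h hm hn]
  push_cast
  ring

private lemma eul1p_bzp_one (z : ℂ) : bzp z 1 = 1 := by
  unfold bzp
  rw [eul1p_gN_one, eul1p_bz_one]
  simp

private lemma eul1p_one_sub {p : ℕ} (hp : p.Prime) : (1 : ℂ) - 1 / (p : ℂ) ≠ 0 := by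
  have h1 : (p : ℂ) ≠ 0 := by exact_mod_cast hp.ne_zero
  have h2 : (p : ℂ) ≠ 1 := by exact_mod_cast hp.one_lt.ne'
  intro h
  apply h2
  field_simp at h
  linear_combination h

private lemma eul1p_bzp_odd (z : ℂ) {p : ℕ} (hp : p.Prime) (k : ℕ) (hk : Odd k) :
    bzp z (p ^ k) = (1 - 1 / (p : ℂ))⁻¹ *
      (((√(p : ℝ) : ℝ) : ℂ)⁻¹ * ((p : ℂ) ^ z - (p : ℂ) ^ (-z))) := by
  unfold bzp
  rw [eul1p_bz_odd z hp k hk, eul1p_gN_pp hp k (by rintro rfl; simp at hk)]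
  push_cast
  ring

private lemma eul1p_bzp_even (z : ℂ) {p : ℕ} (hp : p.Prime) (k : ℕ) (hk : ¬ Odd k) :
    bzp z (p ^ k) = 1 := by
  rcases Nat.eq_zero_or_pos k with rfl | h0
  · rw [pow_zero, eul1p_bzp_one]
  · unfold bzp
    rw [eul1p_bz_even z hp k hk h0.ne', eul1p_gN_pp hp k h0.ne']
    push_cast
    exact inv_mul_cancel₀ (eul1p_one_sub hp)

theorem gN_pos (N : ℕ) : 0 < gN N := by
  unfold gN
  refine Finset.prod_pos fun p hp => ?_
  have hpp := Nat.prime_of_mem_primeFactors hp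
  have h2 : (2 : ℝ) ≤ p := by exact_mod_cast hpp.two_le
  have h3 : 1 / (p : ℝ) ≤ 1 / 2 := one_div_le_one_div_of_le (by norm_num) h2
  have : 0 < 1 - 1 / (p : ℝ) := by linarith
  positivity

theorem gN_le_card (N : ℕ) (hN : N ≠ 0) : gN N ≤ (N.divisors.card : ℝ) := by
  unfold gN
  rw [Nat.card_divisors hN]
  push_cast
  refine Finset.prod_le_prod (fun p hp => ?_) (fun p hp => ?_)
  · have hpp := Nat.prime_of_mem_primeFactors hp
    have h2 : (2 : ℝ) ≤ p := by exact_mod_cast hpp.two_le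
    have h3 : 1 / (p : ℝ) ≤ 1 / 2 := one_div_le_one_div_of_le (by norm_num) h2
    have : 0 < 1 - 1 / (p : ℝ) := by linarith
    positivity
  · have hpp := Nat.prime_of_mem_primeFactors hp
    have h2 : (2 : ℝ) ≤ p := by exact_mod_cast hpp.two_le
    have h3 : 1 / (p : ℝ) ≤ 1 / 2 := one_div_le_one_div_of_le (by norm_num) h2
    have h4 : (1 : ℝ) ≤ N.factorization p := by
      exact_mod_cast hpp.factorization_pos_of_dvd hN (Nat.dvd_of_mem_primeFactors hp)
    have h5 : (1 - 1 / (p : ℝ))⁻¹ ≤ 2 := by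
      rw [inv_le_comm₀ (by linarith) (by norm_num)]
      linarith
    linarith

theorem norm_bzp_le (z : ℂ) (N : ℕ) (hN : N ≠ 0) :
    ‖bzp z N‖ ≤ (N.divisors.card : ℝ) ^ 2 * (sq1 N : ℝ) ^ (-(1 / 2) + |z.re|) := by
  unfold bzp
  rw [norm_mul, Complex.norm_real, Real.norm_eq_abs, abs_of_pos (gN_pos N)]
  calc gN N * ‖bz z N‖ ≤ (N.divisors.card : ℝ) *
      ((N.divisors.card : ℝ) * (sq1 N : ℝ) ^ (-(1 / 2) + |z.re|)) :=
        mul_le_mul (gN_le_card N hN) (norm_bz_le z N hN) (norm_nonneg _) (Nat.cast_nonneg _)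
    _ = _ := by ring

theorem summable_sq5 (m ζ : ℝ) (hζ : 0 ≤ ζ) (h : ζ < m) :
    Summable (fun N : ℕ => (N.divisors.card : ℝ) ^ 5 * (N : ℝ) ^ (-(1 / 2) - m) *
      (sq1 N : ℝ) ^ (-(1 / 2) + ζ)) := by
  set η : ℝ := (m - ζ) / 2 with hη
  have hη0 : 0 < η := by
    rw [hη]
    linarith
  obtain ⟨C, hC, hd⟩ := divisor_bound η hη0
  have hs := (summable_sq (m - η) ζ hζ (by rw [hη]; linarith)).mul_left C
  refine Summable.of_nonneg_of_le (fun N => by positivity) (fun N => ?_) hs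
  rcases Nat.eq_zero_or_pos N with rfl | hN
  · simp
  · have hNR : (0 : ℝ) < N := by exact_mod_cast hN
    have h1 := hd N hN
    calc (N.divisors.card : ℝ) ^ 5 * (N : ℝ) ^ (-(1 / 2) - m) * (sq1 N : ℝ) ^ (-(1 / 2) + ζ)
        = (N.divisors.card : ℝ) * ((N.divisors.card : ℝ) ^ 4 * (N : ℝ) ^ (-(1 / 2) - m) *
          (sq1 N : ℝ) ^ (-(1 / 2) + ζ)) := by ring
      _ ≤ (C * (N : ℝ) ^ η) * ((N.divisors.card : ℝ) ^ 4 * (N : ℝ) ^ (-(1 / 2) - m) *
          (sq1 N : ℝ) ^ (-(1 / 2) + ζ)) := mul_le_mul_of_nonneg_right h1 (by positivity)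
      _ = C * ((N.divisors.card : ℝ) ^ 4 * ((N : ℝ) ^ η * (N : ℝ) ^ (-(1 / 2) - m)) *
          (sq1 N : ℝ) ^ (-(1 / 2) + ζ)) := by ring
      _ = _ := by
          rw [← Real.rpow_add hNR]
          congr 4
          ring

theorem OOp_euler (r : ℕ) (hr : Odd r) (s₁ w₁ s₂ w₂ z : ℂ) (h1 : |z.re| < s₁.re)
    (h2 : |z.re| < w₁.re) (h3 : |z.re| < s₂.re) (h4 : |z.re| < w₂.re) :
    Summable (fun N : ℕ => ‖(if Nat.Coprime N (2 * r) then cfA s₁ w₁ s₂ w₂ N * bzp z N /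
        (√(N : ℝ) : ℂ) else 0)‖) ∧
    HasProd (fun p : Nat.Primes => if (p : ℕ) ∣ 2 * r then 1 else locOp p s₁ w₁ s₂ w₂ z)
      (OOp r s₁ w₁ s₂ w₂ z) := by
  set f : ℕ → ℂ := fun N => if Nat.Coprime N (2 * r) then cfA s₁ w₁ s₂ w₂ N * bzp z N /
        (√(N : ℝ) : ℂ) else 0 with hf
  have hf0 : f 0 = 0 := by
    simp only [hf]
    rw [if_neg]
    rw [Nat.coprime_zero_left]
    omega
  have hcf := eul1p_cfA_mult s₁ w₁ s₂ w₂
  have hf1 : f 1 = 1 := by
    simp only [hf]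
    rw [if_pos (Nat.coprime_one_left _), hcf.map_one, eul1p_bzp_one]
    simp
  have hmul : ∀ {m n : ℕ}, Nat.Coprime m n → f (m * n) = f m * f n := by
    intro m n hmn
    rcases Nat.eq_zero_or_pos m with rfl | hm
    · rw [zero_mul, hf0, zero_mul]
    rcases Nat.eq_zero_or_pos n with rfl | hn
    · rw [mul_zero, hf0, mul_zero]
    simp only [hf]
    have hiff : Nat.Coprime (m * n) (2 * r) ↔ Nat.Coprime m (2 * r) ∧ Nat.Coprime n (2 * r) :=
      Nat.coprime_mul_iff_left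
    by_cases hm2 : Nat.Coprime m (2 * r)
    · by_cases hn2 : Nat.Coprime n (2 * r)
      · rw [if_pos (hiff.2 ⟨hm2, hn2⟩), if_pos hm2, if_pos hn2, hcf.map_mul_of_coprime hmn,
          eul1p_bzp_mul z hmn hm.ne' hn.ne']
        have hs : √((m * n : ℕ) : ℝ) = √(m : ℝ) * √(n : ℝ) := by
          push_cast
          rw [Real.sqrt_mul (by positivity)]
        rw [hs]
        push_cast
        rw [mul_div_mul_comm, ← mul_div_mul_comm]
        ring
      · rw [if_neg (fun h => hn2 (hiff.1 h).2), if_neg hn2, mul_zero]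
    · rw [if_neg (fun h => hm2 (hiff.1 h).1), if_neg hm2, zero_mul]
  have hsum : Summable (fun N => ‖f N‖) := by
    set m : ℝ := min (min s₁.re w₁.re) (min s₂.re w₂.re) with hm
    have hζm : |z.re| < m := lt_min (lt_min h1 h2) (lt_min h3 h4)
    have hm1 : m ≤ s₁.re := (min_le_left _ _).trans (min_le_left _ _)
    have hm2 : m ≤ w₁.re := (min_le_left _ _).trans (min_le_right _ _)
    have hm3 : m ≤ s₂.re := (min_le_right _ _).trans (min_le_left _ _)
    have hm4 : m ≤ w₂.re := (min_le_right _ _).trans (min_le_right _ _)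
    refine (summable_sq5 m |z.re| (abs_nonneg _) hζm).of_nonneg_of_le (fun N => norm_nonneg _) ?_
    intro N
    rcases Nat.eq_zero_or_pos N with rfl | hN
    · rw [hf0, norm_zero]
      positivity
    simp only [hf]
    by_cases hc : Nat.Coprime N (2 * r)
    · rw [if_pos hc, norm_div, norm_mul]
      have hNR : (0 : ℝ) < N := by exact_mod_cast hN
      have a1 := norm_cfA_le s₁ w₁ s₂ w₂ m hm1 hm2 hm3 hm4 N
      have a2 := norm_bzp_le z N hN.ne'
      have a3 : ‖((√(N : ℝ) : ℝ) : ℂ)‖ = √(N : ℝ) := by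
        rw [Complex.norm_real, Real.norm_eq_abs, abs_of_nonneg (Real.sqrt_nonneg _)]
      rw [a3]
      calc ‖cfA s₁ w₁ s₂ w₂ N‖ * ‖bzp z N‖ / √(N : ℝ)
          ≤ ((N.divisors.card : ℝ) ^ 3 * (N : ℝ) ^ (-m)) *
            ((N.divisors.card : ℝ) ^ 2 * (sq1 N : ℝ) ^ (-(1 / 2) + |z.re|)) / √(N : ℝ) := by
            gcongr
        _ = (N.divisors.card : ℝ) ^ 5 * (N : ℝ) ^ (-(1 / 2) - m) *
              (sq1 N : ℝ) ^ (-(1 / 2) + |z.re|) := by
            have e1 : (N : ℝ) ^ (-(1 / 2) - m) = (N : ℝ) ^ (-m) * (√(N : ℝ))⁻¹ := by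
              rw [Real.sqrt_eq_rpow, ← Real.rpow_neg hNR.le, ← Real.rpow_add hNR]
              congr 1
              ring
            rw [e1]
            ring
    · rw [if_neg hc, norm_zero]
      positivity
  refine ⟨hsum, ?_⟩
  have hprod := EulerProduct.eulerProduct_hasProd hf1 hmul hsum hf0
  have hOOp : OOp r s₁ w₁ s₂ w₂ z = ∑' n, f n := rfl
  rw [hOOp]
  have hfac : (fun p : Nat.Primes => ∑' e, f ((p : ℕ) ^ e)) =
      fun p : Nat.Primes => if (p : ℕ) ∣ 2 * r then 1 else locOp p s₁ w₁ s₂ w₂ z := by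
    funext ⟨p, hp⟩
    simp only
    by_cases hpr : p ∣ 2 * r
    · rw [if_pos hpr, tsum_eq_single 0]
      · rw [pow_zero, hf1]
      · intro k hk
        simp only [hf]
        rw [if_neg]
        intro hc
        have h5 : p ∣ Nat.gcd (p ^ k) (2 * r) := Nat.dvd_gcd (dvd_pow_self p hk) hpr
        rw [hc] at h5
        exact hp.one_lt.ne' (Nat.dvd_one.1 h5)
    · rw [if_neg hpr]
      have hcop : ∀ k, Nat.Coprime (p ^ k) (2 * r) := fun k =>
        Nat.Coprime.pow_left k ((Nat.Prime.coprime_iff_not_dvd hp).2 hpr)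
      have hpR : (0 : ℝ) < p := by exact_mod_cast hp.pos
      have hp1 : (1 : ℝ) < p := by exact_mod_cast hp.one_lt
      set T : ℂ := ((√(p : ℝ) : ℝ) : ℂ)⁻¹ with hTdef
      have hT2 : T ^ 2 = 1 / (p : ℂ) := by
        rw [hTdef, inv_pow, one_div]
        congr 1
        have := Real.sq_sqrt hpR.le
        exact_mod_cast this
      have hTn : ‖T‖ ≤ 1 := by
        rw [hTdef, norm_inv, Complex.norm_real, Real.norm_eq_abs,
          abs_of_nonneg (Real.sqrt_nonneg _)]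
        refine inv_le_one_of_one_le₀ ?_
        rw [Real.one_le_sqrt]
        exact hp1.le
      have hxn : ∀ s : ℂ, |z.re| < s.re → ‖(p : ℂ) ^ (-s) * T‖ < 1 := by
        intro s hs
        have hs0 : 0 < s.re := lt_of_le_of_lt (abs_nonneg _) hs
        have h5 : ‖(p : ℂ) ^ (-s)‖ < 1 := by
          rw [Complex.norm_natCast_cpow_of_pos hp.pos]
          refine Real.rpow_lt_one_of_one_lt_of_neg hp1 ?_
          simpa using hs0
        rw [norm_mul]
        exact mul_lt_one_of_nonneg_of_lt_one_left (norm_nonneg _) h5 hTn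
      have hxn' : ∀ s : ℂ, |z.re| < s.re → ‖(p : ℂ) ^ (-s) * (-T)‖ < 1 := by
        intro s hs
        rw [mul_neg, norm_neg]
        exact hxn s hs
      have hne1 : ∀ s : ℂ, |z.re| < s.re → 1 - (p : ℂ) ^ (-s) * T ≠ 0 := by
        intro s hs h0
        have h5 := hxn s hs
        rw [← sub_eq_zero.1 h0, norm_one] at h5
        exact lt_irrefl _ h5
      have hne2 : ∀ s : ℂ, |z.re| < s.re → 1 + (p : ℂ) ^ (-s) * T ≠ 0 := by
        intro s hs h0
        have h5 := hxn' s hs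
        have h6 : (p : ℂ) ^ (-s) * (-T) = 1 := by linear_combination -h0
        rw [h6, norm_one] at h5
        exact lt_irrefl _ h5
      have hs1 := eul1p_cf hp s₁ w₁ s₂ w₂ T (hxn s₁ h1) (hxn s₂ h3)
      have hs2 := eul1p_cf hp s₁ w₁ s₂ w₂ (-T) (hxn' s₁ h1) (hxn' s₂ h3)
      have hfk : ∀ k, f (p ^ k) =
          1 / 2 * (cfA s₁ w₁ s₂ w₂ (p ^ k) * T ^ k +
            cfA s₁ w₁ s₂ w₂ (p ^ k) * (-T) ^ k) +
          (1 - 1 / (p : ℂ))⁻¹ * (((p : ℂ) ^ z - (p : ℂ) ^ (-z)) * T / 2) *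
            (cfA s₁ w₁ s₂ w₂ (p ^ k) * T ^ k - cfA s₁ w₁ s₂ w₂ (p ^ k) * (-T) ^ k) := by
        intro k
        have hsq : (((√((p ^ k : ℕ) : ℝ) : ℝ) : ℂ))⁻¹ = T ^ k := by
          rw [hTdef, inv_pow]
          congr 1
          push_cast
          have h5 : √((p : ℝ) ^ k) = √(p : ℝ) ^ k := by
            rw [Real.sqrt_eq_iff_mul_self_eq (by positivity) (by positivity), ← mul_pow,
              Real.mul_self_sqrt hpR.le]
          rw [h5]
          push_cast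
          rfl
        have hfe : f (p ^ k) = cfA s₁ w₁ s₂ w₂ (p ^ k) * bzp z (p ^ k) * T ^ k := by
          simp only [hf]
          rw [if_pos (hcop k), div_eq_mul_inv, hsq]
        rw [hfe]
        by_cases hko : Odd k
        · rw [eul1p_bzp_odd z hp k hko, hko.neg_pow]
          rw [← hTdef]
          ring
        · rw [eul1p_bzp_even z hp k hko, (Nat.not_odd_iff_even.1 hko).neg_pow]
          ring
      have hS := ((hs1.add hs2).mul_left (1 / 2 : ℂ)).add ((hs1.sub hs2).mul_left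
          ((1 - 1 / (p : ℂ))⁻¹ * (((p : ℂ) ^ z - (p : ℂ) ^ (-z)) * T / 2)))
      rw [tsum_congr hfk, hS.tsum_eq]
      exact eul1p_alg p _ _ _ _ _ _ T hT2 (hne1 s₁ h1) (hne2 s₁ h1) (hne1 s₂ h3) (hne2 s₂ h3)
  rw [← hfac]
  exact hprod

end Pool.Agent.MP0016c7.PC
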