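import Mathlib
import Pool.Agent.Lib.MP_0016c7_nt.Theta
import Pool.Agent.Lib.MP_0016c7_nt.Rz.Defs
import Pool.Agent.Lib.MP_0016c7_nt.Rz.DefsC
import Pool.Agent.Lib.MP_0016c7_nt.Rz.DefsF
import Pool.Agent.Lib.MP_0016c7_nt.Rz.DefsE
import Pool.Agent.Lib.MP_0016c7_nt.Rz.MTe
import Pool.Agent.Lib.MP_0016c7_nt.PC.DefsM
import Pool.Agent.Lib.MP_0016c7_nt.PC.MTe2

set_option autoImplicit false

/-!
The limit of the main term, two profiles.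
-/

open Finset MeasureTheory Filter Topology
open scoped Real ContDiff

namespace Pool.Agent.MP0016c7.PC

open Pool.Agent.MP0016c7.Rz

/-! ### measurability of the transforms -/

private lemma mtl2_sm {α : Type} [MeasurableSpace α] {f : α → ℂ} (h : Measurable f) :
    StronglyMeasurable f := h.stronglyMeasurable

private lemma mtl2_rhat {ρ : ℝ → ℝ} (hρ : Continuous ρ) (c : ℂ) :
    Measurable (fun t : ℝ => rhat ρ (c + Complex.I * t)) := by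
  unfold rhat
  have h : Continuous (fun p : ℝ × ℝ => (ρ p.2 : ℂ) * Complex.exp (-(c + Complex.I * p.1) * p.2)) := by
    fun_prop
  exact (StronglyMeasurable.integral_prod_right
    (f := fun t y : ℝ => (ρ y : ℂ) * Complex.exp (-(c + Complex.I * t) * y))
    h.stronglyMeasurable).measurable

private lemma mtl2_hhat {ρ : ℝ → ℝ} (hρ : Continuous ρ) (c : ℂ) :
    Measurable (fun t : ℝ => hhat ρ (c + Complex.I * t)) := by
  unfold hhat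
  have h : Continuous (fun p : ℝ × ℝ => (ρ p.2 : ℂ) * Complex.exp ((c + Complex.I * p.1) * p.2)) := by
    fun_prop
  exact (StronglyMeasurable.integral_prod_right
    (f := fun t y : ℝ => (ρ y : ℂ) * Complex.exp ((c + Complex.I * t) * y))
    h.stronglyMeasurable).measurable

private lemma mtl2_Gh (a L : ℝ) (c : ℂ) :
    Measurable (fun t : ℝ => Gh a L (c + Complex.I * t)) := by
  unfold Gh
  have h : Continuous (fun p : ℝ × ℝ => (kap a p.2 : ℂ) *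
      Complex.exp ((c + Complex.I * p.1) * (p.2 / L : ℝ))) := by
    unfold kap
    fun_prop
  exact ((StronglyMeasurable.integral_prod_right
    (f := fun t y : ℝ => (kap a y : ℂ) * Complex.exp ((c + Complex.I * t) * (y / L : ℝ)))
    h.stronglyMeasurable).measurable).div_const _

private lemma mtl2_wtc1 {ρ h : ℝ → ℝ} (hρ : Continuous ρ) (hh : Continuous h) (a L : ℝ) :
    Measurable (fun p : ℝ × ℝ × ℝ × ℝ => wtc a L ρ h (2 + Complex.I * p.1) (3 + Complex.I * p.2.1)) := by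
  unfold wtc
  have q1 : Measurable (fun p : ℝ × ℝ × ℝ × ℝ => p.1) := by fun_prop
  have q2 : Measurable (fun p : ℝ × ℝ × ℝ × ℝ => p.2.1) := by fun_prop
  have m1 := (mtl2_rhat hρ 2).comp q1
  have m2 := (mtl2_Gh a L 2).comp q1
  have m3 := (mtl2_hhat hh 3).comp q2
  have m4 : Measurable (fun p : ℝ × ℝ × ℝ × ℝ => ((3 : ℂ) + Complex.I * p.2.1) ^ 2 -
      (2 + Complex.I * p.1) ^ 2) := by
    have : Continuous (fun p : ℝ × ℝ × ℝ × ℝ => ((3 : ℂ) + Complex.I * p.2.1) ^ 2 -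
      (2 + Complex.I * p.1) ^ 2) := by fun_prop
    exact this.measurable
  exact (m1.mul m2).mul ((measurable_const.mul m3).div m4)

private lemma mtl2_wtc2 {ρ h : ℝ → ℝ} (hρ : Continuous ρ) (hh : Continuous h) (a L : ℝ) :
    Measurable (fun p : ℝ × ℝ × ℝ × ℝ =>
      wtc a L ρ h (5 / 2 + Complex.I * p.2.2.1) (3 + Complex.I * p.2.2.2)) := by
  unfold wtc
  have q1 : Measurable (fun p : ℝ × ℝ × ℝ × ℝ => p.2.2.1) := by fun_prop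
  have q2 : Measurable (fun p : ℝ × ℝ × ℝ × ℝ => p.2.2.2) := by fun_prop
  have m1 := (mtl2_rhat hρ (5 / 2)).comp q1
  have m2 := (mtl2_Gh a L (5 / 2)).comp q1
  have m3 := (mtl2_hhat hh 3).comp q2
  have m4 : Measurable (fun p : ℝ × ℝ × ℝ × ℝ => ((3 : ℂ) + Complex.I * p.2.2.2) ^ 2 -
      (5 / 2 + Complex.I * p.2.2.1) ^ 2) := by
    have : Continuous (fun p : ℝ × ℝ × ℝ × ℝ => ((3 : ℂ) + Complex.I * p.2.2.2) ^ 2 -
      (5 / 2 + Complex.I * p.2.2.1) ^ 2) := by fun_prop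
    exact this.measurable
  exact (m1.mul m2).mul ((measurable_const.mul m3).div m4)


/-! ### the majorant -/

private noncomputable def mtl2M (K : ℝ) (p : ℝ × ℝ × ℝ × ℝ) : ℝ :=
  K * ((1 + |p.1|) ^ (-2 : ℝ) * ((1 + |p.2.1|) ^ (-2 : ℝ) *
    ((1 + |p.2.2.1|) ^ (-2 : ℝ) * (1 + |p.2.2.2|) ^ (-2 : ℝ))))

private lemma mtl2M_int (K : ℝ) : Integrable (mtl2M K) := by
  have h : Integrable (fun x : ℝ => (1 + |x|) ^ (-2 : ℝ)) := by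
    have := integrable_one_add_norm (E := ℝ) (μ := volume) (r := 2) (by simp)
    simpa using this
  exact ((h.mul_prod (h.mul_prod (h.mul_prod h))).const_mul K)

private lemma mtl2_iter {f : ℝ × ℝ × ℝ × ℝ → ℂ} (hf : Integrable f) :
    ∫ x₁ : ℝ, ∫ y₁ : ℝ, ∫ x₂ : ℝ, ∫ y₂ : ℝ, f (x₁, y₁, x₂, y₂) = ∫ p, f p := by
  rw [show (∫ p, f p) = ∫ x₁ : ℝ, ∫ q : ℝ × ℝ × ℝ, f (x₁, q) from integral_prod f hf]
  refine integral_congr_ae ?_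
  filter_upwards [hf.prod_right_ae] with x₁ h1
  rw [show (∫ q : ℝ × ℝ × ℝ, f (x₁, q)) = ∫ y₁ : ℝ, ∫ q : ℝ × ℝ, f (x₁, y₁, q) from
    integral_prod _ h1]
  refine integral_congr_ae ?_
  filter_upwards [h1.prod_right_ae] with y₁ h2
  rw [show (∫ q : ℝ × ℝ, f (x₁, y₁, q)) = ∫ x₂ : ℝ, ∫ y₂ : ℝ, f (x₁, y₁, x₂, y₂) from
    integral_prod _ h2]

private lemma mtl2_diag : ∀ᵐ p : ℝ × ℝ × ℝ × ℝ, p.2.1 ≠ p.2.2.2 := by
  have hc : IsClosed {p : ℝ × ℝ × ℝ × ℝ | p.2.1 = p.2.2.2} := by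
    apply isClosed_eq <;> fun_prop
  have h0 : (volume : Measure (ℝ × ℝ × ℝ × ℝ)) {p | p.2.1 = p.2.2.2} = 0 := by
    have e : (volume : Measure (ℝ × ℝ × ℝ × ℝ)) = (volume : Measure ℝ).prod
      ((volume : Measure ℝ).prod ((volume : Measure ℝ).prod (volume : Measure ℝ))) := rfl
    rw [e, Measure.measure_prod_null hc.measurableSet]
    refine Eventually.of_forall fun x₁ => ?_
    have hc2 : IsClosed (Prod.mk x₁ ⁻¹' {p : ℝ × ℝ × ℝ × ℝ | p.2.1 = p.2.2.2}) :=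
      hc.preimage (by fun_prop)
    change ((volume : Measure ℝ).prod ((volume : Measure ℝ).prod (volume : Measure ℝ))) _ = 0
    rw [Measure.measure_prod_null hc2.measurableSet]
    refine Eventually.of_forall fun y₁ => ?_
    have hc3 : IsClosed (Prod.mk y₁ ⁻¹' (Prod.mk x₁ ⁻¹' {p : ℝ × ℝ × ℝ × ℝ | p.2.1 = p.2.2.2})) :=
      hc2.preimage (by fun_prop)
    change ((volume : Measure ℝ).prod (volume : Measure ℝ)) _ = 0
    rw [Measure.measure_prod_null hc3.measurableSet]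
    refine Eventually.of_forall fun x₂ => ?_
    have : (Prod.mk x₂ ⁻¹' (Prod.mk y₁ ⁻¹' (Prod.mk x₁ ⁻¹' {p : ℝ × ℝ × ℝ × ℝ | p.2.1 = p.2.2.2})))
        = {y₁} := by
      ext y
      simp [eq_comm]
    change (volume : Measure ℝ) _ = 0
    rw [this]
    exact Real.volume_singleton
  rw [ae_iff]
  simpa using h0


private lemma mtl2_fac {f : ℝ → ℂ} {A C : ℝ} (h : ∀ t, ‖f t‖ * (1 + |t|) ^ (A + 2) ≤ C) (t : ℝ) :
    ‖f t‖ * (1 + |t|) ^ A ≤ C * (1 + |t|) ^ (-2 : ℝ) := by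
  have h0 : 0 < 1 + |t| := by positivity
  have e : (1 + |t|) ^ A = (1 + |t|) ^ (A + 2) * (1 + |t|) ^ (-2 : ℝ) := by
    rw [← Real.rpow_add h0]
    congr 1
    ring
  rw [e, ← mul_assoc]
  exact mul_le_mul_of_nonneg_right (h t) (by positivity)

private lemma mtl2_wtc_bd (a L : ℝ) (ρ h : ℝ → ℝ) (c x y : ℝ) (hc : 0 < c) (hc3 : c < 3) :
    ‖wtc a L ρ h (c + Complex.I * x) (3 + Complex.I * y)‖ ≤ 2 / ((3 - c) * (3 + c)) *
      (‖rhat ρ (c + Complex.I * x)‖ * ‖Gh a L (c + Complex.I * x)‖ *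
        ‖hhat h (3 + Complex.I * y)‖) := by
  unfold wtc
  have h1 : 3 - c ≤ ‖((3 : ℂ) + Complex.I * y) - (c + Complex.I * x)‖ := by
    refine le_trans (le_of_eq ?_) (Complex.re_le_norm _)
    simp
  have h2 : 3 + c ≤ ‖((3 : ℂ) + Complex.I * y) + (c + Complex.I * x)‖ := by
    refine le_trans (le_of_eq ?_) (Complex.re_le_norm _)
    simp
  have h3 : (3 - c) * (3 + c) ≤ ‖((3 : ℂ) + Complex.I * y) ^ 2 - (c + Complex.I * x) ^ 2‖ := by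
    have e : ((3 : ℂ) + Complex.I * y) ^ 2 - (c + Complex.I * x) ^ 2 =
        (((3 : ℂ) + Complex.I * y) - (c + Complex.I * x)) *
          (((3 : ℂ) + Complex.I * y) + (c + Complex.I * x)) := by ring
    rw [e, norm_mul]
    exact mul_le_mul h1 h2 (by linarith) (norm_nonneg _)
  have hp : 0 < (3 - c) * (3 + c) := mul_pos (by linarith) (by linarith)
  rw [norm_mul, norm_mul, norm_div, norm_mul]
  have e2 : ‖(2 : ℂ)‖ = 2 := by simp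
  rw [e2]
  have h4 : 2 * ‖hhat h (3 + Complex.I * y)‖ /
      ‖((3 : ℂ) + Complex.I * y) ^ 2 - (c + Complex.I * x) ^ 2‖ ≤
      2 * ‖hhat h (3 + Complex.I * y)‖ / ((3 - c) * (3 + c)) :=
    div_le_div_of_nonneg_left (by positivity) hp h3
  calc _ ≤ ‖rhat ρ (c + Complex.I * x)‖ * ‖Gh a L (c + Complex.I * x)‖ *
        (2 * ‖hhat h (3 + Complex.I * y)‖ / ((3 - c) * (3 + c))) :=
        mul_le_mul_of_nonneg_left h4 (by positivity)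
    _ = _ := by ring

private lemma mtl2_wtc_lim (a : ℝ) (ha' : a = 0 ∨ a = 1) (ρ h : ℝ → ℝ) (s w : ℂ) :
    Tendsto (fun X : ℝ => wtc a (Real.log X) ρ h s w) atTop (𝓝 (wti ρ h s w)) := by
  unfold wtc wti
  have h1 := (Gh_lim a ha' s).comp Real.tendsto_log_atTop
  have h2 := (h1.const_mul (rhat ρ s)).mul_const (2 * hhat h w / (w ^ 2 - s ^ 2))
  rw [mul_one] at h2
  exact h2

/-- the integrand at scale `X` -/
private noncomputable def mtl2G (a : ℝ) (Q : ℝ → ℂ → ℂ → ℂ → ℂ → ℂ) (ρ₁ ρ₂ h₁ h₂ : ℝ → ℝ) (X : ℝ)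
    (p : ℝ × ℝ × ℝ × ℝ) : ℂ :=
  wtc a (Real.log X) ρ₁ h₁ (2 + Complex.I * p.1) (3 + Complex.I * p.2.1) *
    wtc a (Real.log X) ρ₂ h₂ (5 / 2 + Complex.I * p.2.2.1) (3 + Complex.I * p.2.2.2) *
    Q X (2 + Complex.I * p.1) (3 + Complex.I * p.2.1) (5 / 2 + Complex.I * p.2.2.1)
      (3 + Complex.I * p.2.2.2)

/-- the limit integrand -/
private noncomputable def mtl2H (Qi : ℂ → ℂ → ℂ → ℂ → ℂ) (ρ₁ ρ₂ h₁ h₂ : ℝ → ℝ)
    (p : ℝ × ℝ × ℝ × ℝ) : ℂ :=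
  wti ρ₁ h₁ (2 + Complex.I * p.1) (3 + Complex.I * p.2.1) *
    wti ρ₂ h₂ (5 / 2 + Complex.I * p.2.2.1) (3 + Complex.I * p.2.2.2) *
    Qi (2 + Complex.I * p.1) (3 + Complex.I * p.2.1) (5 / 2 + Complex.I * p.2.2.1)
      (3 + Complex.I * p.2.2.2)

private noncomputable def mtl2E (Y₁ Y₂ : ℝ) (p : ℝ × ℝ × ℝ × ℝ) : ℂ :=
  Complex.exp ((2 + Complex.I * p.1) * Y₁ + (5 / 2 + Complex.I * p.2.2.1) * Y₂)

private lemma mtl2E_cont (Y₁ Y₂ : ℝ) : Continuous (mtl2E Y₁ Y₂) := by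
  unfold mtl2E
  fun_prop

private lemma mtl2E_bd {Y₁ Y₂ : ℝ} (h1 : Y₁ ∈ Set.Icc (-1 : ℝ) 1) (h2 : Y₂ ∈ Set.Icc (-1 : ℝ) 1)
    (p : ℝ × ℝ × ℝ × ℝ) : ‖mtl2E Y₁ Y₂ p‖ ≤ Real.exp 5 := by
  unfold mtl2E
  rw [Complex.norm_exp]
  apply Real.exp_le_exp.mpr
  have e : ((2 + Complex.I * (p.1 : ℂ)) * Y₁ + (5 / 2 + Complex.I * (p.2.2.1 : ℂ)) * Y₂).re =
      2 * Y₁ + 5 / 2 * Y₂ := by
    simp only [Complex.add_re, Complex.mul_re, Complex.add_im, Complex.mul_im, Complex.I_re,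
      Complex.I_im, Complex.ofReal_re, Complex.ofReal_im]
    norm_num
  rw [e]
  linarith only [h1, h2, h1.2, h2.2]

private lemma mtl2_G_bound (a : ℝ) (ha' : a = 0 ∨ a = 1) {Q : ℝ → ℂ → ℂ → ℂ → ℂ → ℂ}
    {Qi : ℂ → ℂ → ℂ → ℂ → ℂ} (hQ' : QOK Q Qi)
    {ρ₁ ρ₂ h₁ h₂ : ℝ → ℝ} {b₁ b₂ θ₁ θ₂ : ℝ} (hρ₁ : Bump ρ₁ b₁ b₂) (hρ₂ : Bump ρ₂ b₁ b₂)
    (hh₁ : Bump h₁ 0 θ₁) (hh₂ : Bump h₂ 0 θ₂) :
    ∃ K X₀ : ℝ, 0 ≤ K ∧ ∀ X : ℝ, X₀ ≤ X → ∀ p, ‖mtl2G a Q ρ₁ ρ₂ h₁ h₂ X p‖ ≤ mtl2M K p := by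
  obtain ⟨C, A, X₀, hC, hA, hQ⟩ := hQ'.bd
  obtain ⟨R1, hR1, hr1⟩ := rhat_decay hρ₁ 2 (A + 2)
  obtain ⟨R2, hR2, hr2⟩ := rhat_decay hρ₂ (5 / 2) (A + 2)
  obtain ⟨H, hH, hh3⟩ := hhat_decay hh₁ 3 (A + 2)
  obtain ⟨K2, hK2, hh4⟩ := hhat_decay hh₂ 3 (A + 2)
  obtain ⟨G1, L1, hG1, hg1⟩ := Gh_bound a ha' 2
  obtain ⟨G2, L2, hG2, hg2⟩ := Gh_bound a ha' (5 / 2)
  refine ⟨(2 / ((3 - 2) * (3 + 2)) * G1) * (2 / ((3 - 5 / 2) * (3 + 5 / 2)) * G2) *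
    (C * (R1 * (H * (R2 * K2)))), max (max X₀ 1) (max (Real.exp L1) (Real.exp L2)), by (clear * - hG1 hG2 hC hR1 hH hR2 hK2; positivity),
    fun X hX p => ?_⟩
  have hX0 : X₀ ≤ X := le_trans (le_trans (le_max_left _ _) (le_max_left _ _)) hX
  have hX1 : 1 ≤ X := le_trans (le_trans (le_max_right _ _) (le_max_left _ _)) hX
  have hXp : 0 < X := by linarith
  have hL1 : L1 ≤ Real.log X := by
    rw [Real.le_log_iff_exp_le hXp]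
    exact le_trans (le_trans (le_max_left _ _) (le_max_right _ _)) hX
  have hL2 : L2 ≤ Real.log X := by
    rw [Real.le_log_iff_exp_le hXp]
    exact le_trans (le_trans (le_max_right _ _) (le_max_right _ _)) hX
  obtain ⟨x₁, y₁, x₂, y₂⟩ := p
  unfold mtl2G mtl2M
  simp only
  have w1 := mtl2_wtc_bd a (Real.log X) ρ₁ h₁ 2 x₁ y₁ (by norm_num) (by norm_num)
  have w2 := mtl2_wtc_bd a (Real.log X) ρ₂ h₂ (5 / 2) x₂ y₂ (by norm_num) (by norm_num)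
  have g1 := hg1 (Real.log X) hL1 x₁
  have g2 := hg2 (Real.log X) hL2 x₂
  have q := hQ X hX0 x₁ y₁ x₂ y₂
  have t1 := mtl2_fac hr1 x₁
  have t2 := mtl2_fac hr2 x₂
  have t3 := mtl2_fac hh3 y₁
  have t4 := mtl2_fac hh4 y₂
  push_cast at w1 w2 g1 g2 t1 t2 t3 t4
  have n1 : (0 : ℝ) ≤ 1 + |x₁| := by positivity
  have n2 : (0 : ℝ) ≤ 1 + |y₁| := by positivity
  have n3 : (0 : ℝ) ≤ 1 + |x₂| := by positivity
  have n4 : (0 : ℝ) ≤ 1 + |y₂| := by positivity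
  rw [Real.mul_rpow (by (clear * -; positivity)) n4, Real.mul_rpow (by positivity) n3,
    Real.mul_rpow n1 n2] at q
  rw [norm_mul, norm_mul]
  set r1 := ‖rhat ρ₁ (2 + Complex.I * x₁)‖ with hr1d
  set r2 := ‖rhat ρ₂ (5 / 2 + Complex.I * x₂)‖ with hr2d
  set k1 := ‖hhat h₁ (3 + Complex.I * y₁)‖ with hk1d
  set k2 := ‖hhat h₂ (3 + Complex.I * y₂)‖ with hk2d
  have hr1n : 0 ≤ r1 := norm_nonneg _
  have hr2n : 0 ≤ r2 := norm_nonneg _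
  have hk1n : 0 ≤ k1 := norm_nonneg _
  have hk2n : 0 ≤ k2 := norm_nonneg _
  have w1' : ‖wtc a (Real.log X) ρ₁ h₁ (2 + Complex.I * x₁) (3 + Complex.I * y₁)‖ ≤
      (2 / ((3 - 2) * (3 + 2)) * G1) * (r1 * k1) := by
    refine w1.trans ?_
    calc 2 / ((3 - 2) * (3 + 2)) * (r1 * ‖Gh a (Real.log X) (2 + Complex.I * x₁)‖ * k1)
        ≤ 2 / ((3 - 2) * (3 + 2)) * (r1 * G1 * k1) := by (clear * - g1; gcongr)
      _ = _ := by ring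
  have w2' : ‖wtc a (Real.log X) ρ₂ h₂ (5 / 2 + Complex.I * x₂) (3 + Complex.I * y₂)‖ ≤
      (2 / ((3 - 5 / 2) * (3 + 5 / 2)) * G2) * (r2 * k2) := by
    refine w2.trans ?_
    calc 2 / ((3 - 5 / 2) * (3 + 5 / 2)) * (r2 * ‖Gh a (Real.log X) (5 / 2 + Complex.I * x₂)‖ * k2)
        ≤ 2 / ((3 - 5 / 2) * (3 + 5 / 2)) * (r2 * G2 * k2) := by (clear * - g2; gcongr)
      _ = _ := by ring
  have p1 : 0 ≤ (1 + |x₁|) ^ A := by positivity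
  have p2 : 0 ≤ (1 + |y₁|) ^ A := by positivity
  have p3 : 0 ≤ (1 + |x₂|) ^ A := by positivity
  have p4 : 0 ≤ (1 + |y₂|) ^ A := by positivity
  calc _ ≤ ((2 / ((3 - 2) * (3 + 2)) * G1) * (r1 * k1)) *
        ((2 / ((3 - 5 / 2) * (3 + 5 / 2)) * G2) * (r2 * k2)) *
        (C * ((1 + |x₁|) ^ A * (1 + |y₁|) ^ A * (1 + |x₂|) ^ A * (1 + |y₂|) ^ A)) := by
        refine mul_le_mul (mul_le_mul w1' w2' (norm_nonneg _) (by (clear * - hG1; positivity))) q (norm_nonneg _)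
          (by (clear * - hG1 hG2; positivity))
    _ = ((2 / ((3 - 2) * (3 + 2)) * G1) * (2 / ((3 - 5 / 2) * (3 + 5 / 2)) * G2)) *
        (C * ((r1 * (1 + |x₁|) ^ A) * ((k1 * (1 + |y₁|) ^ A) * ((r2 * (1 + |x₂|) ^ A) *
          (k2 * (1 + |y₂|) ^ A))))) := by ring
    _ ≤ ((2 / ((3 - 2) * (3 + 2)) * G1) * (2 / ((3 - 5 / 2) * (3 + 5 / 2)) * G2)) *
        (C * ((R1 * (1 + |x₁|) ^ (-2 : ℝ)) * ((H * (1 + |y₁|) ^ (-2 : ℝ)) *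
          ((R2 * (1 + |x₂|) ^ (-2 : ℝ)) * (K2 * (1 + |y₂|) ^ (-2 : ℝ)))))) := by
        (clear * - t1 t3 t2 t4 hR2 hH hK2 hR1 hC hG1 hG2; gcongr)
    _ = _ := by ring

theorem MT_lim2 (a : ℝ) (ha' : a = 0 ∨ a = 1) {Q : ℝ → ℂ → ℂ → ℂ → ℂ → ℂ}
    {Qi : ℂ → ℂ → ℂ → ℂ → ℂ} (hQ : QOK Q Qi) (r : ℕ)
    {ρ₁ ρ₂ h₁ h₂ : ℝ → ℝ} {b₁ b₂ θ₁ θ₂ : ℝ} (hρ₁ : Bump ρ₁ b₁ b₂) (hρ₂ : Bump ρ₂ b₁ b₂)
    (hh₁ : Bump h₁ 0 θ₁) (hh₂ : Bump h₂ 0 θ₂) (ε : ℝ) (hε : 0 < ε) :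
    ∃ X₀ : ℝ, ∀ X : ℝ, X₀ ≤ X → ∀ M : ℕ → ℝ, SerQ M r (Real.log X) (Q X) →
    ∀ Y₁ ∈ Set.Icc (-1 : ℝ) 1, ∀ Y₂ ∈ Set.Icc (-1 : ℝ) 1,
    ‖(MTg2 a ρ₁ ρ₂ h₁ h₂ M X r Y₁ Y₂ : ℂ) - 1 / (2 * π) ^ 4 *
      ∫ x₁ : ℝ, ∫ y₁ : ℝ, ∫ x₂ : ℝ, ∫ y₂ : ℝ,
        wti ρ₁ h₁ (2 + Complex.I * x₁) (3 + Complex.I * y₁) *
        wti ρ₂ h₂ (5 / 2 + Complex.I * x₂) (3 + Complex.I * y₂) *
        Complex.exp ((2 + Complex.I * x₁) * Y₁ + (5 / 2 + Complex.I * x₂) * Y₂) *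
        Qi (2 + Complex.I * x₁) (3 + Complex.I * y₁) (5 / 2 + Complex.I * x₂)
          (3 + Complex.I * y₂)‖ ≤ ε := by
  obtain ⟨X₁, hX₁⟩ := MT_eq2 a ha' r hρ₁ hρ₂ hh₁ hh₂
  obtain ⟨K, X₂, hK, hX₂⟩ := mtl2_G_bound a ha' hQ hρ₁ hρ₂ hh₁ hh₂
  obtain ⟨X₄, hX₄⟩ := hQ.meas
  have hmeas : ∀ X : ℝ, X₄ ≤ X → Measurable (mtl2G a Q ρ₁ ρ₂ h₁ h₂ X) := by
    intro X hX
    exact ((mtl2_wtc1 hρ₁.smooth.continuous hh₁.smooth.continuous a _).mul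
      (mtl2_wtc2 hρ₂.smooth.continuous hh₂.smooth.continuous a _)).mul (hX₄ X hX)
  have hlim : ∀ᵐ p : ℝ × ℝ × ℝ × ℝ, Tendsto (fun X : ℝ => mtl2G a Q ρ₁ ρ₂ h₁ h₂ X p) atTop
      (𝓝 (mtl2H Qi ρ₁ ρ₂ h₁ h₂ p)) := by
    filter_upwards [mtl2_diag] with p hp
    exact ((mtl2_wtc_lim a ha' ρ₁ h₁ _ _).mul (mtl2_wtc_lim a ha' ρ₂ h₂ _ _)).mul
      (hQ.lim p.1 p.2.1 p.2.2.1 p.2.2.2 hp)
  have hev : ∀ᶠ X : ℝ in atTop, X₂ ≤ X ∧ X₄ ≤ X :=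
    (eventually_ge_atTop _).and (eventually_ge_atTop _)
  have hHbd : ∀ᵐ p : ℝ × ℝ × ℝ × ℝ, ‖mtl2H Qi ρ₁ ρ₂ h₁ h₂ p‖ ≤ mtl2M K p := by
    filter_upwards [hlim] with p hp
    exact le_of_tendsto hp.norm (hev.mono fun X hX => hX₂ X hX.1 p)
  have hHm : AEStronglyMeasurable (mtl2H Qi ρ₁ ρ₂ h₁ h₂) := by
    refine aestronglyMeasurable_of_tendsto_ae (u := atTop)
      (f := fun n : ℕ => mtl2G a Q ρ₁ ρ₂ h₁ h₂ ((n : ℝ) + X₄)) (fun n => ?_) ?_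
    · exact (hmeas _ (by have := Nat.cast_nonneg (α := ℝ) n; linarith)).aestronglyMeasurable
    · filter_upwards [hlim] with p hp
      exact hp.comp (tendsto_atTop_add_const_right _ _ tendsto_natCast_atTop_atTop)
  have hHi : Integrable (mtl2H Qi ρ₁ ρ₂ h₁ h₂) := (mtl2M_int K).mono' hHm hHbd
  have hGi : ∀ X : ℝ, X₂ ≤ X → X₄ ≤ X → Integrable (mtl2G a Q ρ₁ ρ₂ h₁ h₂ X) :=
    fun X h1 h2 => (mtl2M_int K).mono' (hmeas X h2).aestronglyMeasurable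
      (Eventually.of_forall fun p => hX₂ X h1 p)
  have hD : Tendsto (fun X : ℝ => ∫ p, ‖mtl2G a Q ρ₁ ρ₂ h₁ h₂ X p - mtl2H Qi ρ₁ ρ₂ h₁ h₂ p‖) atTop
      (𝓝 0) := by
    have h0 : (∫ _p : ℝ × ℝ × ℝ × ℝ, (0 : ℝ)) = 0 := by simp
    rw [← h0]
    refine tendsto_integral_filter_of_dominated_convergence (fun p => mtl2M K p + mtl2M K p)
      ?_ ?_ ((mtl2M_int K).add (mtl2M_int K)) ?_
    · filter_upwards [hev] with X hX
      exact ((hmeas X hX.2).aestronglyMeasurable.sub hHm).norm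
    · filter_upwards [hev] with X hX
      filter_upwards [hHbd] with p hp
      rw [norm_norm]
      exact (norm_sub_le _ _).trans (add_le_add (hX₂ X hX.1 p) hp)
    · filter_upwards [hlim] with p hp
      have h1 := (hp.sub_const (mtl2H Qi ρ₁ ρ₂ h₁ h₂ p)).norm
      rw [sub_self, norm_zero] at h1
      exact h1
  set cF : ℂ := 1 / (2 * π) ^ 4 with hcF
  set η : ℝ := ε / ((‖cF‖ + 1) * Real.exp 5) with hη
  have hη0 : 0 < η := by positivity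
  obtain ⟨X₃, hX₃⟩ := eventually_atTop.mp (hD.eventually (gt_mem_nhds hη0))
  refine ⟨max (max X₁ X₂) (max X₃ (X₄)), fun X hX M hM Y₁ hY₁ Y₂ hY₂ => ?_⟩
  have a1 : X₁ ≤ X := le_trans (le_trans (le_max_left _ _) (le_max_left _ _)) hX
  have a2 : X₂ ≤ X := le_trans (le_trans (le_max_right _ _) (le_max_left _ _)) hX
  have a3 : X₃ ≤ X := le_trans (le_trans (le_max_left _ _) (le_max_right _ _)) hX
  have a4 : X₄ ≤ X := le_trans (le_trans (le_max_right _ _) (le_max_right _ _)) hX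
  have hEb := mtl2E_bd hY₁ hY₂
  have hEm : AEStronglyMeasurable (mtl2E Y₁ Y₂) := (mtl2E_cont Y₁ Y₂).aestronglyMeasurable
  have i1 : Integrable (fun p => mtl2G a Q ρ₁ ρ₂ h₁ h₂ X p * mtl2E Y₁ Y₂ p) :=
    (hGi X a2 a4).mul_bdd (c := Real.exp 5) hEm (Eventually.of_forall hEb)
  have i2 : Integrable (fun p => mtl2H Qi ρ₁ ρ₂ h₁ h₂ p * mtl2E Y₁ Y₂ p) :=
    hHi.mul_bdd (c := Real.exp 5) hEm (Eventually.of_forall hEb)
  have e1 : (∫ x₁ : ℝ, ∫ y₁ : ℝ, ∫ x₂ : ℝ, ∫ y₂ : ℝ,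
        wtc a (Real.log X) ρ₁ h₁ (2 + Complex.I * x₁) (3 + Complex.I * y₁) *
        wtc a (Real.log X) ρ₂ h₂ (5 / 2 + Complex.I * x₂) (3 + Complex.I * y₂) *
        Complex.exp ((2 + Complex.I * x₁) * Y₁ + (5 / 2 + Complex.I * x₂) * Y₂) *
        Q X (2 + Complex.I * x₁) (3 + Complex.I * y₁) (5 / 2 + Complex.I * x₂)
          (3 + Complex.I * y₂)) = ∫ p, mtl2G a Q ρ₁ ρ₂ h₁ h₂ X p * mtl2E Y₁ Y₂ p := by
    rw [← mtl2_iter i1]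
    refine integral_congr_ae (Eventually.of_forall fun x₁ => ?_)
    refine integral_congr_ae (Eventually.of_forall fun y₁ => ?_)
    refine integral_congr_ae (Eventually.of_forall fun x₂ => ?_)
    refine integral_congr_ae (Eventually.of_forall fun y₂ => ?_)
    simp only [mtl2G, mtl2E]
    ring
  have e2 : (∫ x₁ : ℝ, ∫ y₁ : ℝ, ∫ x₂ : ℝ, ∫ y₂ : ℝ,
        wti ρ₁ h₁ (2 + Complex.I * x₁) (3 + Complex.I * y₁) *
        wti ρ₂ h₂ (5 / 2 + Complex.I * x₂) (3 + Complex.I * y₂) *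
        Complex.exp ((2 + Complex.I * x₁) * Y₁ + (5 / 2 + Complex.I * x₂) * Y₂) *
        Qi (2 + Complex.I * x₁) (3 + Complex.I * y₁) (5 / 2 + Complex.I * x₂)
          (3 + Complex.I * y₂)) = ∫ p, mtl2H Qi ρ₁ ρ₂ h₁ h₂ p * mtl2E Y₁ Y₂ p := by
    rw [← mtl2_iter i2]
    refine integral_congr_ae (Eventually.of_forall fun x₁ => ?_)
    refine integral_congr_ae (Eventually.of_forall fun y₁ => ?_)
    refine integral_congr_ae (Eventually.of_forall fun x₂ => ?_)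
    refine integral_congr_ae (Eventually.of_forall fun y₂ => ?_)
    simp only [mtl2H, mtl2E]
    ring
  rw [hX₁ X a1 M (Q X) hM Y₁ Y₂, e1, e2, ← mul_sub, ← integral_sub i1 i2, norm_mul]
  have h5 : ‖∫ p, (mtl2G a Q ρ₁ ρ₂ h₁ h₂ X p * mtl2E Y₁ Y₂ p - mtl2H Qi ρ₁ ρ₂ h₁ h₂ p * mtl2E Y₁ Y₂ p)‖ ≤
      Real.exp 5 * ∫ p, ‖mtl2G a Q ρ₁ ρ₂ h₁ h₂ X p - mtl2H Qi ρ₁ ρ₂ h₁ h₂ p‖ := by
    rw [← integral_const_mul]
    refine norm_integral_le_of_norm_le (((hGi X a2 a4).sub hHi).norm.const_mul _)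
      (Eventually.of_forall fun p => ?_)
    rw [← sub_mul, norm_mul, mul_comm]
    exact mul_le_mul_of_nonneg_right (hEb p) (norm_nonneg _)
  have h6 := (hX₃ X a3).le
  calc ‖cF‖ * ‖∫ p, (mtl2G a Q ρ₁ ρ₂ h₁ h₂ X p * mtl2E Y₁ Y₂ p - mtl2H Qi ρ₁ ρ₂ h₁ h₂ p * mtl2E Y₁ Y₂ p)‖
      ≤ ‖cF‖ * (Real.exp 5 * η) := by
        refine mul_le_mul_of_nonneg_left (h5.trans ?_) (norm_nonneg _)
        exact mul_le_mul_of_nonneg_left h6 (Real.exp_pos _).le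
    _ ≤ (‖cF‖ + 1) * (Real.exp 5 * η) := by
        refine mul_le_mul_of_nonneg_right (by linarith) (by positivity)
    _ = ε := by
        rw [hη]
        have : (‖cF‖ + 1) ≠ 0 := by positivity
        have h7 := (Real.exp_pos 5).ne'
        field_simp

end Pool.Agent.MP0016c7.PC
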