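import Mathlib
import Pool.Agent.Lib.MP_0016c7_nt.Theta
import Pool.Agent.Lib.MP_0016c7_nt.Rz.Defs
import Pool.Agent.Lib.MP_0016c7_nt.Rz.DefsC
import Pool.Agent.Lib.MP_0016c7_nt.Rz.DefsF
import Pool.Agent.Lib.MP_0016c7_nt.Rz.DefsE
import Pool.Agent.Lib.MP_0016c7_nt.Rz.Lap
import Pool.Agent.Lib.MP_0016c7_nt.Rz.VHelp
import Pool.Agent.Lib.MP_0016c7_nt.PC.DefsM

set_option autoImplicit false

open Finset MeasureTheory Filter Topology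
open scoped Real ContDiff

namespace Pool.Agent.MP0016c7.PC

open Pool.Agent.MP0016c7.Rz

open VH

/-- kernels `P(s₁, s₂) Q(w₁, w₂)` -/
theorem jj_sw2 (ρ₁ ρ₂ h₁ h₂ : ℝ → ℝ) (Y₁ Y₂ : ℝ) (P Q : ℂ → ℂ → ℂ) (K : ℂ → ℂ → ℂ → ℂ → ℂ)
    (hK : ∀ s₁ w₁ s₂ w₂, K s₁ w₁ s₂ w₂ = P s₁ s₂ * Q w₁ w₂) :
    JJ2 ρ₁ ρ₂ h₁ h₂ Y₁ Y₂ K =
      (1 / (2 * π) ^ 2 * ∫ x₁ : ℝ, ∫ x₂ : ℝ,
        rhat ρ₁ (2 + Complex.I * x₁) * Complex.exp ((2 + Complex.I * x₁) * Y₁) *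
        (rhat ρ₂ (5 / 2 + Complex.I * x₂) * Complex.exp ((5 / 2 + Complex.I * x₂) * Y₂)) *
          P (2 + Complex.I * x₁) (5 / 2 + Complex.I * x₂)) *
      (1 / (2 * π) ^ 2 * ∫ y₁ : ℝ, ∫ y₂ : ℝ,
        hhat h₁ (3 + Complex.I * y₁) * hhat h₂ (3 + Complex.I * y₂) *
          Q (3 + Complex.I * y₁) (3 + Complex.I * y₂)) := by
  unfold JJ2
  have h1 : (1 / (2 * (π : ℂ)) ^ 4) = 1 / (2 * π) ^ 2 * (1 / (2 * π) ^ 2) := by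
    have : (π : ℂ) ≠ 0 := by exact_mod_cast Real.pi_ne_zero
    field_simp
  rw [h1, mul_mul_mul_comm, ← four]
  congr 1
  refine integral_congr_ae (ae_of_all _ fun x₁ => ?_)
  refine integral_congr_ae (ae_of_all _ fun y₁ => ?_)
  refine integral_congr_ae (ae_of_all _ fun x₂ => ?_)
  refine integral_congr_ae (ae_of_all _ fun y₂ => ?_)
  simp only [hK, Complex.exp_add]
  ring

/-- kernels `P(s₁, w₁) Q(s₂, w₂)` -/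
theorem jj_122 (ρ₁ ρ₂ h₁ h₂ : ℝ → ℝ) (Y₁ Y₂ : ℝ) (P Q : ℂ → ℂ → ℂ) (K : ℂ → ℂ → ℂ → ℂ → ℂ)
    (hK : ∀ s₁ w₁ s₂ w₂, K s₁ w₁ s₂ w₂ = P s₁ w₁ * Q s₂ w₂) :
    JJ2 ρ₁ ρ₂ h₁ h₂ Y₁ Y₂ K =
      (1 / (2 * π) ^ 2 * ∫ x₁ : ℝ, ∫ y₁ : ℝ,
        rhat ρ₁ (2 + Complex.I * x₁) * Complex.exp ((2 + Complex.I * x₁) * Y₁) *
        hhat h₁ (3 + Complex.I * y₁) * P (2 + Complex.I * x₁) (3 + Complex.I * y₁)) *
      (1 / (2 * π) ^ 2 * ∫ x₂ : ℝ, ∫ y₂ : ℝ,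
        rhat ρ₂ (5 / 2 + Complex.I * x₂) * Complex.exp ((5 / 2 + Complex.I * x₂) * Y₂) *
        hhat h₂ (3 + Complex.I * y₂) * Q (5 / 2 + Complex.I * x₂) (3 + Complex.I * y₂)) := by
  unfold JJ2
  have h1 : (1 / (2 * (π : ℂ)) ^ 4) = 1 / (2 * π) ^ 2 * (1 / (2 * π) ^ 2) := by
    have : (π : ℂ) ≠ 0 := by exact_mod_cast Real.pi_ne_zero
    field_simp
  rw [h1, mul_mul_mul_comm, ← four']
  congr 1
  refine integral_congr_ae (ae_of_all _ fun x₁ => ?_)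
  refine integral_congr_ae (ae_of_all _ fun y₁ => ?_)
  refine integral_congr_ae (ae_of_all _ fun x₂ => ?_)
  refine integral_congr_ae (ae_of_all _ fun y₂ => ?_)
  simp only [hK, Complex.exp_add]
  ring

theorem bump_sq2 {h₁ h₂ : ℝ → ℝ} {b : ℝ} (hh₁ : Bump h₁ 0 b) :
    ∫ v in Set.Ioi (0 : ℝ), (h₁ v : ℂ) * (h₂ v : ℂ) = ((∫ t : ℝ, h₁ t * h₂ t : ℝ) : ℂ) := by
  rw [← integral_complex_ofReal, ← integral_indicator measurableSet_Ioi]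
  refine integral_congr_ae (ae_of_all _ fun v => ?_)
  by_cases hv : 0 < v
  · simp only [Set.indicator, Set.mem_Ioi, hv, if_true]
    push_cast
    ring
  · have h0 : h₁ v = 0 := by
      by_contra hne
      exact hv (hh₁.supp v hne).1
    simp [Set.indicator, hv, h0]

/-- the `w`-part of the kernels with `1 / (w₁ + w₂)` -/
theorem w_part2 {h₁ h₂ : ℝ → ℝ} {b₁ b₂ : ℝ} (hh₁ : Bump h₁ 0 b₁)
    (hh₂ : Bump h₂ 0 b₂) :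
    1 / (2 * π) ^ 2 * ∫ y₁ : ℝ, ∫ y₂ : ℝ,
        hhat h₁ (3 + Complex.I * y₁) * hhat h₂ (3 + Complex.I * y₂) *
          (1 / ((3 + Complex.I * y₁) + (3 + Complex.I * y₂))) =
      ((∫ t : ℝ, h₁ t * h₂ t : ℝ) : ℂ) := by
  have h1 := conv (be_int hh₁ 3) (be_int hh₂ 3) (p := fun x : ℝ => ((3 : ℝ) : ℂ) + Complex.I * x)
    (q := fun x : ℝ => ((3 : ℝ) : ℂ) + Complex.I * x) (by fun_prop) (by fun_prop) (p0 := 3)
    (q0 := 3) (by intro x; simp) (by intro x; simp) (by norm_num)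
  simp only [be_tr hh₁, be_tr hh₂] at h1
  rw [bump_sq2 hh₁] at h1
  rw [← h1, ← integral_const_mul]
  refine integral_congr_ae (ae_of_all _ fun y₁ => ?_)
  simp only
  rw [← integral_const_mul]
  refine integral_congr_ae (ae_of_all _ fun y₂ => ?_)
  simp only [be]
  push_cast
  ring

end Pool.Agent.MP0016c7.PC
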