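import Mathlib
import Pool.Agent.Lib.MP_0016c7_nt.Theta
import Pool.Agent.Lib.MP_0016c7_nt.Rz.Defs
import Pool.Agent.Lib.MP_0016c7_nt.Rz.DefsC
import Pool.Agent.Lib.MP_0016c7_nt.Rz.DefsF
import Pool.Agent.Lib.MP_0016c7_nt.Rz.DefsE
import Pool.Agent.Lib.MP_0016c7_nt.Rz.Lap
import Pool.Agent.Lib.MP_0016c7_nt.Rz.VHelp
import Pool.Agent.Lib.MP_0016c7_nt.PC.DefsM
import Pool.Agent.Lib.MP_0016c7_nt.PC.VH2

set_option autoImplicit false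

open Finset MeasureTheory Filter Topology
open scoped Real ContDiff

namespace Pool.Agent.MP0016c7.PC

open Pool.Agent.MP0016c7.Rz

open VH


theorem JJ2_A {ρ₁ ρ₂ h₁ h₂ : ℝ → ℝ} {θ₁ θ₂ : ℝ} (hρ₁ : Bump ρ₁ (-(1 / 8)) (1 / 8))
    (hρ₂ : Bump ρ₂ (-(1 / 8)) (1 / 8)) (hh₁ : Bump h₁ 0 θ₁) (hh₂ : Bump h₂ 0 θ₂) (Y₁ Y₂ : ℝ) :
    JJ2 ρ₁ ρ₂ h₁ h₂ Y₁ Y₂ (fun s₁ w₁ s₂ w₂ => 1 / (s₁ * s₂ * (s₁ + s₂) * (w₁ + w₂))) =
      ((∫ x : ℝ, ∫ y : ℝ, ρ₁ x * ρ₂ y * ((∫ t : ℝ, h₁ t * h₂ t) *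
        max (min (Y₁ - x) (Y₂ - y)) 0) : ℝ) : ℂ) := by
  rw [jj_sw2 ρ₁ ρ₂ h₁ h₂ Y₁ Y₂ (fun s₁ s₂ => 1 / (s₁ * s₂ * (s₁ + s₂))) (fun w₁ w₂ => 1 / (w₁ + w₂))
    _ (fun s₁ w₁ s₂ w₂ => by simp only [div_eq_mul_inv, mul_inv]; ring), w_part2 hh₁ hh₂]
  have h1 := conv (al_int hρ₁ (c := 2) (by norm_num) Y₁) (al_int hρ₂ (c := 5 / 2) (by norm_num) Y₂)
    (p := fun x : ℝ => ((2 : ℝ) : ℂ) + Complex.I * x)
    (q := fun x : ℝ => ((5 / 2 : ℝ) : ℂ) + Complex.I * x) (by fun_prop) (by fun_prop) (p0 := 2)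
    (q0 := 5 / 2) (by intro x; simp) (by intro x; simp) (by norm_num)
  simp only [al_tr hρ₁ (c := 2) (by norm_num), al_tr hρ₂ (c := 5 / 2) (by norm_num)] at h1
  have h2 := fub (bump_int hρ₁) (bump_int hρ₂) (M := 1 / 8) (fun y hy => (hρ₂.supp y hy).1)
    (A := fun v => Y₁ - v) (by fun_prop) Y₂
  have h3 : 1 / (2 * π) ^ 2 * ∫ x₁ : ℝ, ∫ x₂ : ℝ,
        rhat ρ₁ (2 + Complex.I * x₁) * Complex.exp ((2 + Complex.I * x₁) * Y₁) *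
        (rhat ρ₂ (5 / 2 + Complex.I * x₂) * Complex.exp ((5 / 2 + Complex.I * x₂) * Y₂)) *
          (1 / ((2 + Complex.I * x₁) * (5 / 2 + Complex.I * x₂) *
            ((2 + Complex.I * x₁) + (5 / 2 + Complex.I * x₂)))) =
      ((∫ v in Set.Ioi (0 : ℝ), RR ρ₁ (Y₁ - v) * RR ρ₂ (Y₂ - v) : ℝ) : ℂ) := by
    rw [← integral_complex_ofReal]
    push_cast
    rw [← h1, ← integral_const_mul]
    refine integral_congr_ae (ae_of_all _ fun x₁ => ?_)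
    simp only
    rw [← integral_const_mul]
    refine integral_congr_ae (ae_of_all _ fun x₂ => ?_)
    simp only [al]
    push_cast
    simp only [div_eq_mul_inv, mul_inv]
    ring
  rw [h3, h2, ← Complex.ofReal_mul, ← integral_mul_const]
  congr 1
  refine integral_congr_ae (ae_of_all _ fun x => ?_)
  simp only
  rw [← integral_mul_const]
  refine integral_congr_ae (ae_of_all _ fun y => ?_)
  simp only
  have hset : {v : ℝ | 0 < v ∧ x ≤ Y₁ - v ∧ y ≤ Y₂ - v} =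
      Set.Ioc 0 (min (Y₁ - x) (Y₂ - y)) := by
    ext v
    simp only [Set.mem_ofPred_eq, Set.mem_Ioc, le_min_iff]
    constructor
    · rintro ⟨a1, a2, a3⟩
      exact ⟨a1, by linarith, by linarith⟩
    · rintro ⟨a1, a2, a3⟩
      exact ⟨a1, by linarith, by linarith⟩
  rw [hset]
  have hv : volume.real (Set.Ioc 0 (min (Y₁ - x) (Y₂ - y))) =
      max (min (Y₁ - x) (Y₂ - y)) 0 := by
    rw [Measure.real, Real.volume_Ioc, sub_zero, ENNReal.toReal_ofReal']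
  rw [hv]
  ring



private lemma jjB_part {ρ h : ℝ → ℝ} {θ : ℝ} (hρ : Bump ρ (-(1 / 8)) (1 / 8)) (hh : Bump h 0 θ)
    (Y c : ℝ) (hc : 0 < c) (hc3 : c < 3) :
    1 / (2 * π) ^ 2 * ∫ x : ℝ, ∫ y : ℝ,
        rhat ρ (c + Complex.I * x) * Complex.exp ((c + Complex.I * x) * Y) *
        hhat h (3 + Complex.I * y) * (1 / ((c + Complex.I * x) *
          ((3 + Complex.I * y) - (c + Complex.I * x)))) =
      ((∫ x : ℝ, ρ x * HH h (x - Y) : ℝ) : ℂ) := by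
  have h1 := conv (al_int hρ hc Y) (be_int hh 3)
    (p := fun x : ℝ => -((c : ℂ) + Complex.I * x))
    (q := fun x : ℝ => ((3 : ℝ) : ℂ) + Complex.I * x) (by fun_prop) (by fun_prop) (p0 := -c)
    (q0 := 3) (by intro x; simp) (by intro x; simp) (by linarith)
  simp only [al_tr' hρ hc, be_tr hh] at h1
  rw [← fubB (bump_int hρ) hh Y, ← integral_complex_ofReal]
  push_cast
  rw [← h1, ← integral_const_mul]
  refine integral_congr_ae (ae_of_all _ fun x₁ => ?_)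
  simp only
  rw [← integral_const_mul]
  refine integral_congr_ae (ae_of_all _ fun x₂ => ?_)
  simp only [al, be]
  push_cast
  have e : (3 + Complex.I * (x₂ : ℂ)) - (c + Complex.I * x₁) =
      -(c + Complex.I * x₁) + (3 + Complex.I * x₂) := by ring
  rw [e]
  simp only [div_eq_mul_inv, mul_inv]
  ring

theorem JJ2_B {ρ₁ ρ₂ h₁ h₂ : ℝ → ℝ} {θ₁ θ₂ : ℝ} (hρ₁ : Bump ρ₁ (-(1 / 8)) (1 / 8))
    (hρ₂ : Bump ρ₂ (-(1 / 8)) (1 / 8)) (hh₁ : Bump h₁ 0 θ₁) (hh₂ : Bump h₂ 0 θ₂) (Y₁ Y₂ : ℝ) :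
    JJ2 ρ₁ ρ₂ h₁ h₂ Y₁ Y₂ (fun s₁ w₁ s₂ w₂ => 1 / (s₁ * s₂ * (w₁ - s₁) * (w₂ - s₂))) =
      ((∫ x : ℝ, ∫ y : ℝ, ρ₁ x * ρ₂ y * (HH h₁ (x - Y₁) * HH h₂ (y - Y₂)) : ℝ) : ℂ) := by
  rw [jj_122 ρ₁ ρ₂ h₁ h₂ Y₁ Y₂ (fun s₁ w₁ => 1 / (s₁ * (w₁ - s₁))) (fun s₂ w₂ => 1 / (s₂ * (w₂ - s₂)))
    _ (fun s₁ w₁ s₂ w₂ => by simp only [div_eq_mul_inv, mul_inv]; ring)]
  have h1 := jjB_part hρ₁ hh₁ Y₁ 2 (by norm_num) (by norm_num)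
  have h2 := jjB_part hρ₂ hh₂ Y₂ (5 / 2) (by norm_num) (by norm_num)
  push_cast at h1 h2
  rw [h1, h2, ← integral_complex_ofReal, ← integral_complex_ofReal, ← integral_complex_ofReal,
    ← integral_mul_const]
  refine integral_congr_ae (ae_of_all _ fun x => ?_)
  simp only
  rw [← integral_complex_ofReal, ← integral_const_mul]
  refine integral_congr_ae (ae_of_all _ fun y => ?_)
  simp only
  push_cast
  ring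



theorem JJ2_C1 {ρ₁ ρ₂ h₁ h₂ : ℝ → ℝ} {θ₁ θ₂ : ℝ} (hρ₁ : Bump ρ₁ (-(1 / 8)) (1 / 8))
    (hρ₂ : Bump ρ₂ (-(1 / 8)) (1 / 8)) (hh₁ : Bump h₁ 0 θ₁) (hh₂ : Bump h₂ 0 θ₂) (Y₁ Y₂ : ℝ) (hY₁ : Y₁ ≤ 3 / 4) :
    JJ2 ρ₁ ρ₂ h₁ h₂ Y₁ Y₂ (fun s₁ w₁ s₂ w₂ => Complex.exp (-s₁) *
      (-1 / (s₁ * s₂ * (s₂ - s₁) * (w₁ + w₂)))) =
      ((∫ x : ℝ, ∫ y : ℝ, ρ₁ x * ρ₂ y * (-((∫ t : ℝ, h₁ t * h₂ t) *
        max (Y₁ - x + (Y₂ - y) - 1) 0)) : ℝ) : ℂ) := by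
  rw [jj_sw2 ρ₁ ρ₂ h₁ h₂ Y₁ Y₂ (fun s₁ s₂ => Complex.exp (-s₁) * (-1 / (s₁ * s₂ * (s₂ - s₁))))
    (fun w₁ w₂ => 1 / (w₁ + w₂)) _ (fun s₁ w₁ s₂ w₂ => by simp only [div_eq_mul_inv, mul_inv]; ring), w_part2 hh₁ hh₂]
  have h1 := conv (al_int hρ₁ (c := 2) (by norm_num) (Y₁ - 1))
    (al_int hρ₂ (c := 5 / 2) (by norm_num) Y₂)
    (p := fun x : ℝ => -(((2 : ℝ) : ℂ) + Complex.I * x))
    (q := fun x : ℝ => ((5 / 2 : ℝ) : ℂ) + Complex.I * x) (by fun_prop) (by fun_prop) (p0 := -2)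
    (q0 := 5 / 2) (by intro x; simp) (by intro x; simp) (by norm_num)
  simp only [al_tr' hρ₁ (c := 2) (by norm_num), al_tr hρ₂ (c := 5 / 2) (by norm_num)] at h1
  have h2 := fub (bump_int hρ₁) (bump_int hρ₂) (M := 1 / 8) (fun y hy => (hρ₂.supp y hy).1)
    (A := fun v => Y₁ - 1 + v) (by fun_prop) Y₂
  have h3 : 1 / (2 * π) ^ 2 * ∫ x₁ : ℝ, ∫ x₂ : ℝ,
        rhat ρ₁ (2 + Complex.I * x₁) * Complex.exp ((2 + Complex.I * x₁) * Y₁) *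
        (rhat ρ₂ (5 / 2 + Complex.I * x₂) * Complex.exp ((5 / 2 + Complex.I * x₂) * Y₂)) *
          (Complex.exp (-(2 + Complex.I * x₁)) * (-1 / ((2 + Complex.I * x₁) *
            (5 / 2 + Complex.I * x₂) * ((5 / 2 + Complex.I * x₂) - (2 + Complex.I * x₁))))) =
      ((-∫ v in Set.Ioi (0 : ℝ), RR ρ₁ (Y₁ - 1 + v) * RR ρ₂ (Y₂ - v) : ℝ) : ℂ) := by
    rw [Complex.ofReal_neg, ← integral_complex_ofReal]
    push_cast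
    rw [← h1, ← integral_const_mul, ← integral_neg]
    refine integral_congr_ae (ae_of_all _ fun x₁ => ?_)
    simp only
    rw [← integral_const_mul, ← integral_neg]
    refine integral_congr_ae (ae_of_all _ fun x₂ => ?_)
    simp only [al]
    have e : (5 / 2 + Complex.I * (x₂ : ℂ)) - (2 + Complex.I * x₁) =
      -(2 + Complex.I * x₁) + (5 / 2 + Complex.I * x₂) := by ring
    have e' : (2 + Complex.I * (x₁ : ℂ)) * ((Y₁ : ℂ) - 1) =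
        (2 + Complex.I * x₁) * Y₁ + -(2 + Complex.I * x₁) := by ring
    push_cast
    rw [e, e', Complex.exp_add]
    simp only [div_eq_mul_inv, mul_inv]
    ring
  rw [h3, h2, ← Complex.ofReal_mul, ← integral_neg, ← integral_mul_const]
  congr 1
  refine integral_congr_ae (ae_of_all _ fun x => ?_)
  simp only
  rw [← integral_neg, ← integral_mul_const]
  refine integral_congr_ae (ae_of_all _ fun y => ?_)
  simp only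
  by_cases hx : ρ₁ x = 0
  · simp [hx]
  have hx1 := (hρ₁.supp x hx).1
  have hset : {v : ℝ | 0 < v ∧ x ≤ Y₁ - 1 + v ∧ y ≤ Y₂ - v} =
      Set.Icc (x - Y₁ + 1) (Y₂ - y) := by
    ext v
    simp only [Set.mem_ofPred_eq, Set.mem_Icc]
    constructor
    · rintro ⟨a1, a2, a3⟩
      exact ⟨by linarith, by linarith⟩
    · rintro ⟨a2, a3⟩
      exact ⟨by linarith, by linarith, by linarith⟩
  rw [hset]
  have hv : volume.real (Set.Icc (x - Y₁ + 1) (Y₂ - y)) =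
      max (Y₁ - x + (Y₂ - y) - 1) 0 := by
    rw [Measure.real, Real.volume_Icc, ENNReal.toReal_ofReal']
    congr 1
    ring
  rw [hv]
  ring

theorem JJ2_C2 {ρ₁ ρ₂ h₁ h₂ : ℝ → ℝ} {θ₁ θ₂ : ℝ} (hρ₁ : Bump ρ₁ (-(1 / 8)) (1 / 8))
    (hρ₂ : Bump ρ₂ (-(1 / 8)) (1 / 8)) (hh₁ : Bump h₁ 0 θ₁) (hh₂ : Bump h₂ 0 θ₂) (Y₁ Y₂ : ℝ) (hY₂ : Y₂ ≤ 3 / 4) :
    JJ2 ρ₁ ρ₂ h₁ h₂ Y₁ Y₂ (fun s₁ w₁ s₂ w₂ => Complex.exp (-s₂) *
      (1 / (s₁ * s₂ * (s₂ - s₁) * (w₁ + w₂)))) = 0 := by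
  rw [jj_sw2 ρ₁ ρ₂ h₁ h₂ Y₁ Y₂ (fun s₁ s₂ => Complex.exp (-s₂) * (1 / (s₁ * s₂ * (s₂ - s₁))))
    (fun w₁ w₂ => 1 / (w₁ + w₂)) _ (fun s₁ w₁ s₂ w₂ => by simp only [div_eq_mul_inv, mul_inv]; ring)]
  have h1 := conv (al_int hρ₁ (c := 2) (by norm_num) Y₁)
    (al_int hρ₂ (c := 5 / 2) (by norm_num) (Y₂ - 1))
    (p := fun x : ℝ => -(((2 : ℝ) : ℂ) + Complex.I * x))
    (q := fun x : ℝ => ((5 / 2 : ℝ) : ℂ) + Complex.I * x) (by fun_prop) (by fun_prop) (p0 := -2)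
    (q0 := 5 / 2) (by intro x; simp) (by intro x; simp) (by norm_num)
  simp only [al_tr' hρ₁ (c := 2) (by norm_num), al_tr hρ₂ (c := 5 / 2) (by norm_num)] at h1
  have h0 : ∫ v in Set.Ioi (0 : ℝ), (RR ρ₁ (Y₁ + v) : ℂ) * (RR ρ₂ (Y₂ - 1 - v) : ℂ) = 0 := by
    rw [← integral_zero ℝ ℂ (μ := volume.restrict (Set.Ioi 0))]
    refine setIntegral_congr_fun measurableSet_Ioi fun v hv => ?_
    have hv0 : 0 < v := hv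
    rw [RR_zero hρ₂ (by linarith), Complex.ofReal_zero, mul_zero]
  rw [h0] at h1
  have h3 : 1 / (2 * π) ^ 2 * ∫ x₁ : ℝ, ∫ x₂ : ℝ,
        rhat ρ₁ (2 + Complex.I * x₁) * Complex.exp ((2 + Complex.I * x₁) * Y₁) *
        (rhat ρ₂ (5 / 2 + Complex.I * x₂) * Complex.exp ((5 / 2 + Complex.I * x₂) * Y₂)) *
          (Complex.exp (-(5 / 2 + Complex.I * x₂)) * (1 / ((2 + Complex.I * x₁) *
            (5 / 2 + Complex.I * x₂) * ((5 / 2 + Complex.I * x₂) - (2 + Complex.I * x₁))))) =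
      0 := by
    rw [← h1, ← integral_const_mul]
    refine integral_congr_ae (ae_of_all _ fun x₁ => ?_)
    simp only
    rw [← integral_const_mul]
    refine integral_congr_ae (ae_of_all _ fun x₂ => ?_)
    simp only [al]
    have e : (5 / 2 + Complex.I * (x₂ : ℂ)) - (2 + Complex.I * x₁) =
      -(2 + Complex.I * x₁) + (5 / 2 + Complex.I * x₂) := by ring
    have e' : (5 / 2 + Complex.I * (x₂ : ℂ)) * ((Y₂ : ℂ) - 1) =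
        (5 / 2 + Complex.I * x₂) * Y₂ + -(5 / 2 + Complex.I * x₂) := by ring
    push_cast
    rw [e, e', Complex.exp_add]
    simp only [div_eq_mul_inv, mul_inv]
    ring
  rw [h3, zero_mul]



private lemma jjD_part {ρ h : ℝ → ℝ} {θ : ℝ} (hρ : Bump ρ (-(1 / 8)) (1 / 8)) (hh : Bump h 0 θ)
    (Y c : ℝ) (hc : 0 < c) (hY : Y ≤ 3 / 4) :
    1 / (2 * π) ^ 2 * ∫ x : ℝ, ∫ y : ℝ,
        rhat ρ (c + Complex.I * x) * Complex.exp ((c + Complex.I * x) * Y) *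
        hhat h (3 + Complex.I * y) * (Complex.exp (-(c + Complex.I * x)) *
          (-1 / ((c + Complex.I * x) * ((3 + Complex.I * y) + (c + Complex.I * x))))) = 0 := by
  have h1 := conv (al_int hρ hc (Y - 1)) (be_int hh 3)
    (p := fun x : ℝ => (c : ℂ) + Complex.I * x)
    (q := fun x : ℝ => ((3 : ℝ) : ℂ) + Complex.I * x) (by fun_prop) (by fun_prop) (p0 := c)
    (q0 := 3) (by intro x; simp) (by intro x; simp) (by linarith)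
  simp only [al_tr hρ hc, be_tr hh] at h1
  have h0 : ∫ v in Set.Ioi (0 : ℝ), (RR ρ (Y - 1 - v) : ℂ) * (h v : ℂ) = 0 := by
    rw [← integral_zero ℝ ℂ (μ := volume.restrict (Set.Ioi 0))]
    refine setIntegral_congr_fun measurableSet_Ioi fun v hv => ?_
    have hv0 : 0 < v := hv
    rw [RR_zero hρ (by linarith), Complex.ofReal_zero, zero_mul]
  rw [h0] at h1
  rw [← neg_zero, ← h1, ← integral_const_mul, ← integral_neg]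
  refine integral_congr_ae (ae_of_all _ fun x₁ => ?_)
  simp only
  rw [← integral_const_mul, ← integral_neg]
  refine integral_congr_ae (ae_of_all _ fun x₂ => ?_)
  simp only [al, be]
  have e : (3 + Complex.I * (x₂ : ℂ)) + (c + Complex.I * x₁) =
      (c + Complex.I * x₁) + (3 + Complex.I * x₂) := by ring
  have e' : (c + Complex.I * (x₁ : ℂ)) * ((Y : ℂ) - 1) =
      (c + Complex.I * x₁) * Y + -(c + Complex.I * x₁) := by ring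
  push_cast
  rw [e, e', Complex.exp_add]
  simp only [div_eq_mul_inv, mul_inv]
  ring

theorem JJ2_D1 {ρ₁ ρ₂ h₁ h₂ : ℝ → ℝ} {θ₁ θ₂ : ℝ} (hρ₁ : Bump ρ₁ (-(1 / 8)) (1 / 8))
    (hρ₂ : Bump ρ₂ (-(1 / 8)) (1 / 8)) (hh₁ : Bump h₁ 0 θ₁) (hh₂ : Bump h₂ 0 θ₂) (Y₁ Y₂ : ℝ) (hY₁ : Y₁ ≤ 3 / 4) :
    JJ2 ρ₁ ρ₂ h₁ h₂ Y₁ Y₂ (fun s₁ w₁ s₂ w₂ => Complex.exp (-s₁) *
      (-1 / (s₁ * s₂ * (w₂ - s₂) * (w₁ + s₁)))) = 0 := by
  rw [jj_122 ρ₁ ρ₂ h₁ h₂ Y₁ Y₂ (fun s₁ w₁ => Complex.exp (-s₁) * (-1 / (s₁ * (w₁ + s₁))))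
    (fun s₂ w₂ => 1 / (s₂ * (w₂ - s₂))) _ (fun s₁ w₁ s₂ w₂ => by simp only [div_eq_mul_inv, mul_inv]; ring)]
  have h1 := jjD_part hρ₁ hh₁ Y₁ 2 (by norm_num) hY₁
  push_cast at h1
  rw [h1, zero_mul]

theorem JJ2_D2 {ρ₁ ρ₂ h₁ h₂ : ℝ → ℝ} {θ₁ θ₂ : ℝ} (hρ₁ : Bump ρ₁ (-(1 / 8)) (1 / 8))
    (hρ₂ : Bump ρ₂ (-(1 / 8)) (1 / 8)) (hh₁ : Bump h₁ 0 θ₁) (hh₂ : Bump h₂ 0 θ₂) (Y₁ Y₂ : ℝ) (hY₂ : Y₂ ≤ 3 / 4) :
    JJ2 ρ₁ ρ₂ h₁ h₂ Y₁ Y₂ (fun s₁ w₁ s₂ w₂ => Complex.exp (-s₂) *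
      (-1 / (s₁ * s₂ * (w₁ - s₁) * (w₂ + s₂)))) = 0 := by
  rw [jj_122 ρ₁ ρ₂ h₁ h₂ Y₁ Y₂ (fun s₁ w₁ => 1 / (s₁ * (w₁ - s₁)))
    (fun s₂ w₂ => Complex.exp (-s₂) * (-1 / (s₂ * (w₂ + s₂)))) _ (fun s₁ w₁ s₂ w₂ => by simp only [div_eq_mul_inv, mul_inv]; ring)]
  have h1 := jjD_part hρ₂ hh₂ Y₂ (5 / 2) (by norm_num) hY₂
  push_cast at h1
  rw [h1, mul_zero]



private lemma vadd_rhat {ρ : ℝ → ℝ} (hρ : Continuous ρ) (c : ℂ) :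
    Measurable (fun t : ℝ => rhat ρ (c + Complex.I * t)) := by
  unfold rhat
  have h : Continuous (fun p : ℝ × ℝ => (ρ p.2 : ℂ) * Complex.exp (-(c + Complex.I * p.1) * p.2)) := by
    fun_prop
  exact (StronglyMeasurable.integral_prod_right
    (f := fun t y : ℝ => (ρ y : ℂ) * Complex.exp (-(c + Complex.I * t) * y))
    h.stronglyMeasurable).measurable

private lemma vadd_hhat {ρ : ℝ → ℝ} (hρ : Continuous ρ) (c : ℂ) :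
    Measurable (fun t : ℝ => hhat ρ (c + Complex.I * t)) := by
  unfold hhat
  have h : Continuous (fun p : ℝ × ℝ => (ρ p.2 : ℂ) * Complex.exp ((c + Complex.I * p.1) * p.2)) := by
    fun_prop
  exact (StronglyMeasurable.integral_prod_right
    (f := fun t y : ℝ => (ρ y : ℂ) * Complex.exp ((c + Complex.I * t) * y))
    h.stronglyMeasurable).measurable

private noncomputable def vaddM (K : ℝ) (p : ℝ × ℝ × ℝ × ℝ) : ℝ :=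
  K * ((1 + |p.1|) ^ (-2 : ℝ) * ((1 + |p.2.1|) ^ (-2 : ℝ) *
    ((1 + |p.2.2.1|) ^ (-2 : ℝ) * (1 + |p.2.2.2|) ^ (-2 : ℝ))))

private lemma vaddM_int (K : ℝ) : Integrable (vaddM K) := by
  have h : Integrable (fun x : ℝ => (1 + |x|) ^ (-2 : ℝ)) := by
    have := integrable_one_add_norm (E := ℝ) (μ := volume) (r := 2) (by simp)
    simpa using this
  exact ((h.mul_prod (h.mul_prod (h.mul_prod h))).const_mul K)

private lemma vadd_iter {f : ℝ × ℝ × ℝ × ℝ → ℂ} (hf : Integrable f) :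
    ∫ x₁ : ℝ, ∫ y₁ : ℝ, ∫ x₂ : ℝ, ∫ y₂ : ℝ, f (x₁, y₁, x₂, y₂) = ∫ p, f p := by
  rw [show (∫ p, f p) = ∫ x₁ : ℝ, ∫ q : ℝ × ℝ × ℝ, f (x₁, q) from integral_prod f hf]
  refine integral_congr_ae ?_
  filter_upwards [hf.prod_right_ae] with x₁ h1
  rw [show (∫ q : ℝ × ℝ × ℝ, f (x₁, q)) = ∫ y₁ : ℝ, ∫ q : ℝ × ℝ, f (x₁, y₁, q) from
    integral_prod _ h1]
  refine integral_congr_ae ?_
  filter_upwards [h1.prod_right_ae] with y₁ h2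
  rw [show (∫ q : ℝ × ℝ, f (x₁, y₁, q)) = ∫ x₂ : ℝ, ∫ y₂ : ℝ, f (x₁, y₁, x₂, y₂) from
    integral_prod _ h2]

private lemma vadd_fac {f : ℝ → ℂ} {A C : ℝ} (h : ∀ t, ‖f t‖ * (1 + |t|) ^ (A + 2) ≤ C) (t : ℝ) :
    ‖f t‖ * (1 + |t|) ^ A ≤ C * (1 + |t|) ^ (-2 : ℝ) := by
  have h0 : 0 < 1 + |t| := by positivity
  have e : (1 + |t|) ^ A = (1 + |t|) ^ (A + 2) * (1 + |t|) ^ (-2 : ℝ) := by
    rw [← Real.rpow_add h0]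
    congr 1
    ring
  rw [e, ← mul_assoc]
  exact mul_le_mul_of_nonneg_right (h t) (by positivity)

/-- the integrand of `JJ` -/
private noncomputable def vaddG (ρ₁ ρ₂ h₁ h₂ : ℝ → ℝ) (Y₁ Y₂ : ℝ) (K : ℂ → ℂ → ℂ → ℂ → ℂ)
    (p : ℝ × ℝ × ℝ × ℝ) : ℂ :=
  rhat ρ₁ (2 + Complex.I * p.1) * hhat h₁ (3 + Complex.I * p.2.1) *
    (rhat ρ₂ (5 / 2 + Complex.I * p.2.2.1) * hhat h₂ (3 + Complex.I * p.2.2.2)) *
    Complex.exp ((2 + Complex.I * p.1) * Y₁ + (5 / 2 + Complex.I * p.2.2.1) * Y₂) *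
    K (2 + Complex.I * p.1) (3 + Complex.I * p.2.1) (5 / 2 + Complex.I * p.2.2.1)
      (3 + Complex.I * p.2.2.2)

private lemma vaddG_int {ρ₁ ρ₂ h₁ h₂ : ℝ → ℝ} {θ₁ θ₂ : ℝ} (hρ₁ : Bump ρ₁ (-(1 / 8)) (1 / 8))
    (hρ₂ : Bump ρ₂ (-(1 / 8)) (1 / 8)) (hh₁ : Bump h₁ 0 θ₁) (hh₂ : Bump h₂ 0 θ₂) (Y₁ Y₂ : ℝ) (K : ℂ → ℂ → ℂ → ℂ → ℂ)
    (C : ℝ)
    (hK : Continuous (fun q : ℝ × ℝ × ℝ × ℝ => K (2 + Complex.I * q.1) (3 + Complex.I * q.2.1)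
      (5 / 2 + Complex.I * q.2.2.1) (3 + Complex.I * q.2.2.2)))
    (hb : ∀ x₁ y₁ x₂ y₂ : ℝ, ‖K (2 + Complex.I * x₁) (3 + Complex.I * y₁)
      (5 / 2 + Complex.I * x₂) (3 + Complex.I * y₂)‖ ≤ C) :
    Integrable (vaddG ρ₁ ρ₂ h₁ h₂ Y₁ Y₂ K) := by
  obtain ⟨R1, hR1, hr1⟩ := rhat_decay hρ₁ 2 (0 + 2)
  obtain ⟨R2, hR2, hr2⟩ := rhat_decay hρ₂ (5 / 2) (0 + 2)
  obtain ⟨H, hH, hh3⟩ := hhat_decay hh₁ 3 (0 + 2)
  obtain ⟨G, hG, hg3⟩ := hhat_decay hh₂ 3 (0 + 2)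
  have q1 : Measurable (fun p : ℝ × ℝ × ℝ × ℝ => p.1) := by fun_prop
  have q2 : Measurable (fun p : ℝ × ℝ × ℝ × ℝ => p.2.1) := by fun_prop
  have q3 : Measurable (fun p : ℝ × ℝ × ℝ × ℝ => p.2.2.1) := by fun_prop
  have q4 : Measurable (fun p : ℝ × ℝ × ℝ × ℝ => p.2.2.2) := by fun_prop
  have m1 := (vadd_rhat hρ₁.smooth.continuous 2).comp q1
  have m2 := (vadd_hhat hh₁.smooth.continuous 3).comp q2
  have m3 := (vadd_rhat hρ₂.smooth.continuous (5 / 2)).comp q3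
  have m4 := (vadd_hhat hh₂.smooth.continuous 3).comp q4
  have m5 : Continuous (fun p : ℝ × ℝ × ℝ × ℝ =>
      Complex.exp ((2 + Complex.I * p.1) * Y₁ + (5 / 2 + Complex.I * p.2.2.1) * Y₂)) := by
    fun_prop
  have hm : Measurable (vaddG ρ₁ ρ₂ h₁ h₂ Y₁ Y₂ K) :=
    (((m1.mul m2).mul (m3.mul m4)).mul m5.measurable).mul hK.measurable
  refine (vaddM_int ((Real.exp (2 * Y₁ + 5 / 2 * Y₂) * C) * (R1 * (H * (R2 * G))))).mono'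
    hm.aestronglyMeasurable (Eventually.of_forall fun p => ?_)
  obtain ⟨x₁, y₁, x₂, y₂⟩ := p
  unfold vaddG vaddM
  simp only
  have t1 := vadd_fac hr1 x₁
  have t2 := vadd_fac hr2 x₂
  have t3 := vadd_fac hh3 y₁
  have t4 := vadd_fac hg3 y₂
  push_cast at t1 t2 t3 t4
  rw [Real.rpow_zero, mul_one] at t1 t2 t3 t4
  have hC : 0 ≤ C := (norm_nonneg _).trans (hb x₁ y₁ x₂ y₂)
  have e : ((2 + Complex.I * (x₁ : ℂ)) * Y₁ + (5 / 2 + Complex.I * (x₂ : ℂ)) * Y₂).re =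
      2 * Y₁ + 5 / 2 * Y₂ := by
    simp only [Complex.add_re, Complex.mul_re, Complex.add_im, Complex.mul_im, Complex.I_re,
      Complex.I_im, Complex.ofReal_re, Complex.ofReal_im]
    norm_num
  rw [norm_mul, norm_mul, norm_mul, norm_mul, norm_mul, Complex.norm_exp, e]
  have hk := hb x₁ y₁ x₂ y₂
  set E := Real.exp (2 * Y₁ + 5 / 2 * Y₂) with hE
  have hE0 : 0 ≤ E := (Real.exp_pos _).le
  calc _ ≤ ((R1 * (1 + |x₁|) ^ (-2 : ℝ)) * (H * (1 + |y₁|) ^ (-2 : ℝ))) *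
        ((R2 * (1 + |x₂|) ^ (-2 : ℝ)) * (G * (1 + |y₂|) ^ (-2 : ℝ))) * E * C := by
        gcongr
    _ = _ := by ring

theorem JJ2_add {ρ₁ ρ₂ h₁ h₂ : ℝ → ℝ} {θ₁ θ₂ : ℝ} (hρ₁ : Bump ρ₁ (-(1 / 8)) (1 / 8))
    (hρ₂ : Bump ρ₂ (-(1 / 8)) (1 / 8)) (hh₁ : Bump h₁ 0 θ₁) (hh₂ : Bump h₂ 0 θ₂) (Y₁ Y₂ : ℝ) (K K' : ℂ → ℂ → ℂ → ℂ → ℂ)
    (C : ℝ)
    (hK : Continuous (fun q : ℝ × ℝ × ℝ × ℝ => K (2 + Complex.I * q.1) (3 + Complex.I * q.2.1)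
      (5 / 2 + Complex.I * q.2.2.1) (3 + Complex.I * q.2.2.2)))
    (hK' : Continuous (fun q : ℝ × ℝ × ℝ × ℝ => K' (2 + Complex.I * q.1) (3 + Complex.I * q.2.1)
      (5 / 2 + Complex.I * q.2.2.1) (3 + Complex.I * q.2.2.2)))
    (hb : ∀ x₁ y₁ x₂ y₂ : ℝ, ‖K (2 + Complex.I * x₁) (3 + Complex.I * y₁)
      (5 / 2 + Complex.I * x₂) (3 + Complex.I * y₂)‖ ≤ C)
    (hb' : ∀ x₁ y₁ x₂ y₂ : ℝ, ‖K' (2 + Complex.I * x₁) (3 + Complex.I * y₁)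
      (5 / 2 + Complex.I * x₂) (3 + Complex.I * y₂)‖ ≤ C) :
    JJ2 ρ₁ ρ₂ h₁ h₂ Y₁ Y₂ (fun s₁ w₁ s₂ w₂ => K s₁ w₁ s₂ w₂ + K' s₁ w₁ s₂ w₂) =
      JJ2 ρ₁ ρ₂ h₁ h₂ Y₁ Y₂ K + JJ2 ρ₁ ρ₂ h₁ h₂ Y₁ Y₂ K' := by
  have i1 := vaddG_int hρ₁ hρ₂ hh₁ hh₂ Y₁ Y₂ K C hK hb
  have i2 := vaddG_int hρ₁ hρ₂ hh₁ hh₂ Y₁ Y₂ K' C hK' hb'
  have i3 : Integrable (fun p => vaddG ρ₁ ρ₂ h₁ h₂ Y₁ Y₂ K p + vaddG ρ₁ ρ₂ h₁ h₂ Y₁ Y₂ K' p) := i1.add i2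
  unfold JJ2
  rw [← mul_add]
  congr 1
  have e1 := vadd_iter i1
  have e2 := vadd_iter i2
  have e3 := vadd_iter i3
  rw [integral_add i1 i2, ← e1, ← e2] at e3
  refine Eq.trans ?_ e3
  refine integral_congr_ae (Eventually.of_forall fun x₁ => ?_)
  refine integral_congr_ae (Eventually.of_forall fun y₁ => ?_)
  refine integral_congr_ae (Eventually.of_forall fun x₂ => ?_)
  refine integral_congr_ae (Eventually.of_forall fun y₂ => ?_)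
  simp only [vaddG]
  ring

end Pool.Agent.MP0016c7.PC
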