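import Mathlib
import Pool.Agent.Lib.MP_0016c7_nt.Theta
import Pool.Agent.Lib.MP_0016c7_nt.Rz.Defs
import Pool.Agent.Lib.MP_0016c7_nt.Rz.DefsC
import Pool.Agent.Lib.MP_0016c7_nt.Rz.DefsF
import Pool.Agent.Lib.MP_0016c7_nt.Rz.DefsE
import Pool.Agent.Lib.MP_0016c7_nt.Rz.VKer
import Pool.Agent.Lib.MP_0016c7_nt.PC.DefsM
import Pool.Agent.Lib.MP_0016c7_nt.PC.VJ2

set_option autoImplicit false

open Finset MeasureTheory Filter Topology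
open scoped Real ContDiff

namespace Pool.Agent.MP0016c7.PC

open Pool.Agent.MP0016c7.Rz


private lemma bump_cs {F : ℝ → ℝ} {a b : ℝ} (hF : Bump F a b) : HasCompactSupport F := by
  refine HasCompactSupport.of_support_subset_isCompact (isCompact_Icc (a := a) (b := b)) ?_
  intro t ht
  have := hF.supp t ht
  exact ⟨this.1.le, this.2.le⟩

private lemma bump_int {F : ℝ → ℝ} {a b : ℝ} (hF : Bump F a b) : Integrable F :=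
  hF.smooth.continuous.integrable_of_hasCompactSupport (bump_cs hF)

private lemma HH_cont {h : ℝ → ℝ} {a b : ℝ} (hh : Bump h a b) : Continuous (HH h) := by
  have hi := bump_int hh
  have h1 : ∀ v : ℝ, HH h v = (∫ t, h t) - (∫ t in Set.Iic (0:ℝ), h t) - ∫ t in (0:ℝ)..v, h t := by
    intro v
    have h2 := intervalIntegral.integral_Iic_add_Ioi (b := v) (μ := volume) hi.integrableOn hi.integrableOn
    have h3 := intervalIntegral.integral_Iic_sub_Iic (a := (0:ℝ)) (b := v) (μ := volume) hi.integrableOn hi.integrableOn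
    unfold HH
    linarith
  have h4 : HH h = fun v => (∫ t, h t) - (∫ t in Set.Iic (0:ℝ), h t) - ∫ t in (0:ℝ)..v, h t :=
    funext h1
  rw [h4]
  refine continuous_const.sub ?_
  exact intervalIntegral.continuous_primitive (fun a b => hi.intervalIntegrable) 0

private lemma norm_ge_re {z : ℂ} {c : ℝ} (h : c ≤ z.re) : c ≤ ‖z‖ :=
  h.trans ((le_abs_self _).trans (Complex.abs_re_le_norm z))

private def NiceK (K : ℂ → ℂ → ℂ → ℂ → ℂ) (C : ℝ) : Prop :=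
  Continuous (fun q : ℝ × ℝ × ℝ × ℝ => K (2 + Complex.I * q.1) (3 + Complex.I * q.2.1)
      (5 / 2 + Complex.I * q.2.2.1) (3 + Complex.I * q.2.2.2)) ∧
  ∀ x₁ y₁ x₂ y₂ : ℝ, ‖K (2 + Complex.I * x₁) (3 + Complex.I * y₁)
      (5 / 2 + Complex.I * x₂) (3 + Complex.I * y₂)‖ ≤ C

private lemma NiceK.add {K K' : ℂ → ℂ → ℂ → ℂ → ℂ} {C C' : ℝ} (h : NiceK K C) (h' : NiceK K' C') :
    NiceK (fun s₁ w₁ s₂ w₂ => K s₁ w₁ s₂ w₂ + K' s₁ w₁ s₂ w₂) (C + C') :=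
  ⟨h.1.add h'.1, fun x₁ y₁ x₂ y₂ => (norm_add_le _ _).trans (add_le_add (h.2 _ _ _ _) (h'.2 _ _ _ _))⟩

private lemma JJ2_add' {ρ₁ ρ₂ h₁ h₂ : ℝ → ℝ} {θ₁ θ₂ : ℝ} (hρ₁ : Bump ρ₁ (-(1 / 8)) (1 / 8))
    (hρ₂ : Bump ρ₂ (-(1 / 8)) (1 / 8)) (hh₁ : Bump h₁ 0 θ₁) (hh₂ : Bump h₂ 0 θ₂) (Y₁ Y₂ : ℝ)
    {K K' : ℂ → ℂ → ℂ → ℂ → ℂ} {C C' : ℝ} (h1 : NiceK K C) (h2 : NiceK K' C') :
    JJ2 ρ₁ ρ₂ h₁ h₂ Y₁ Y₂ (fun s₁ w₁ s₂ w₂ => K s₁ w₁ s₂ w₂ + K' s₁ w₁ s₂ w₂) =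
      JJ2 ρ₁ ρ₂ h₁ h₂ Y₁ Y₂ K + JJ2 ρ₁ ρ₂ h₁ h₂ Y₁ Y₂ K' :=
  JJ2_add hρ₁ hρ₂ hh₁ hh₂ Y₁ Y₂ K K' (max C C') h1.1 h2.1
    (fun _ _ _ _ => (h1.2 _ _ _ _).trans (le_max_left _ _))
    (fun _ _ _ _ => (h2.2 _ _ _ _).trans (le_max_right _ _))

private lemma re_s1 (x : ℝ) : ((2 : ℂ) + Complex.I * x).re = 2 := by simp
private lemma re_s2 (x : ℝ) : ((5 / 2 : ℂ) + Complex.I * x).re = 5 / 2 := by
  have : (5 / 2 : ℂ) = ((5 / 2 : ℝ) : ℂ) := by push_cast; rfl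
  rw [this]; simp
private lemma re_w (x : ℝ) : ((3 : ℂ) + Complex.I * x).re = 3 := by simp

private lemma div_bound {e D : ℂ} (he : ‖e‖ ≤ 1) (hD : 1 ≤ ‖D‖) : ‖e / D‖ ≤ 1 := by
  rw [norm_div]
  exact div_le_one_of_le₀ (he.trans hD) (norm_nonneg _)

private lemma mul4_ge {a b c d : ℂ} {A B C D : ℝ} (hA : 0 ≤ A) (hB : 0 ≤ B) (hC : 0 ≤ C) (hD : 0 ≤ D)
    (ha : A ≤ ‖a‖) (hb : B ≤ ‖b‖) (hc : C ≤ ‖c‖) (hd : D ≤ ‖d‖) (h1 : 1 ≤ A * B * C * D) :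
    1 ≤ ‖a * b * c * d‖ := by
  rw [norm_mul, norm_mul, norm_mul]
  refine h1.trans ?_
  gcongr

private lemma ge_s1 (x : ℝ) : 2 ≤ ‖(2 : ℂ) + Complex.I * x‖ := norm_ge_re (by rw [re_s1])
private lemma ge_s2 (x : ℝ) : 5 / 2 ≤ ‖(5 / 2 : ℂ) + Complex.I * x‖ := norm_ge_re (by rw [re_s2])
private lemma ge_s12 (x y : ℝ) :
    9 / 2 ≤ ‖((2 : ℂ) + Complex.I * x) + ((5 / 2 : ℂ) + Complex.I * y)‖ :=
  norm_ge_re (by rw [Complex.add_re, re_s1, re_s2]; norm_num)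
private lemma ge_s21 (x y : ℝ) :
    1 / 2 ≤ ‖((5 / 2 : ℂ) + Complex.I * y) - ((2 : ℂ) + Complex.I * x)‖ :=
  norm_ge_re (by rw [Complex.sub_re, re_s1, re_s2]; norm_num)
private lemma ge_ww (x y : ℝ) :
    6 ≤ ‖((3 : ℂ) + Complex.I * x) + ((3 : ℂ) + Complex.I * y)‖ :=
  norm_ge_re (by rw [Complex.add_re, re_w, re_w]; norm_num)
private lemma ge_ws1 (x y : ℝ) :
    1 ≤ ‖((3 : ℂ) + Complex.I * x) - ((2 : ℂ) + Complex.I * y)‖ :=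
  norm_ge_re (by rw [Complex.sub_re, re_w, re_s1]; norm_num)
private lemma ge_ws2 (x y : ℝ) :
    1 / 2 ≤ ‖((3 : ℂ) + Complex.I * x) - ((5 / 2 : ℂ) + Complex.I * y)‖ :=
  norm_ge_re (by rw [Complex.sub_re, re_w, re_s2]; norm_num)
private lemma ge_wps1 (x y : ℝ) :
    5 ≤ ‖((3 : ℂ) + Complex.I * x) + ((2 : ℂ) + Complex.I * y)‖ :=
  norm_ge_re (by rw [Complex.add_re, re_w, re_s1]; norm_num)
private lemma ge_wps2 (x y : ℝ) :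
    11 / 2 ≤ ‖((3 : ℂ) + Complex.I * x) + ((5 / 2 : ℂ) + Complex.I * y)‖ :=
  norm_ge_re (by rw [Complex.add_re, re_w, re_s2]; norm_num)

private lemma ne_of_ge {z : ℂ} {c : ℝ} (hc : 0 < c) (h : c ≤ ‖z‖) : z ≠ 0 := by
  intro h0
  rw [h0, norm_zero] at h
  linarith

private lemma exp_neg_le {z : ℂ} (h : 0 ≤ z.re) : ‖Complex.exp (-z)‖ ≤ 1 := by
  rw [Complex.norm_exp, Complex.neg_re]
  exact Real.exp_le_one_iff.mpr (by linarith)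

private lemma niceA : NiceK (fun s₁ w₁ s₂ w₂ => 1 / (s₁ * s₂ * (s₁ + s₂) * (w₁ + w₂))) 1 := by
  have hb : ∀ x₁ y₁ x₂ y₂ : ℝ, 1 ≤ ‖((2 : ℂ) + Complex.I * x₁) * ((5 / 2 : ℂ) + Complex.I * x₂) *
      (((2 : ℂ) + Complex.I * x₁) + ((5 / 2 : ℂ) + Complex.I * x₂)) *
      (((3 : ℂ) + Complex.I * y₁) + ((3 : ℂ) + Complex.I * y₂))‖ := fun x₁ y₁ x₂ y₂ =>
    mul4_ge (by norm_num) (by norm_num) (by norm_num) (by norm_num) (ge_s1 _) (ge_s2 _)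
      (ge_s12 _ _) (ge_ww _ _) (by norm_num)
  refine ⟨?_, fun x₁ y₁ x₂ y₂ => div_bound (by simp) (hb x₁ y₁ x₂ y₂)⟩
  refine Continuous.div continuous_const (by fun_prop) ?_
  intro q
  exact ne_of_ge one_pos (hb q.1 q.2.1 q.2.2.1 q.2.2.2)

private lemma niceB : NiceK (fun s₁ w₁ s₂ w₂ => 1 / (s₁ * s₂ * (w₁ - s₁) * (w₂ - s₂))) 1 := by
  have hb : ∀ x₁ y₁ x₂ y₂ : ℝ, 1 ≤ ‖((2 : ℂ) + Complex.I * x₁) * ((5 / 2 : ℂ) + Complex.I * x₂) *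
      (((3 : ℂ) + Complex.I * y₁) - ((2 : ℂ) + Complex.I * x₁)) *
      (((3 : ℂ) + Complex.I * y₂) - ((5 / 2 : ℂ) + Complex.I * x₂))‖ := fun x₁ y₁ x₂ y₂ =>
    mul4_ge (by norm_num) (by norm_num) (by norm_num) (by norm_num) (ge_s1 _) (ge_s2 _)
      (ge_ws1 _ _) (ge_ws2 _ _) (by norm_num)
  refine ⟨?_, fun x₁ y₁ x₂ y₂ => div_bound (by simp) (hb x₁ y₁ x₂ y₂)⟩
  refine Continuous.div continuous_const (by fun_prop) ?_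
  intro q
  exact ne_of_ge one_pos (hb q.1 q.2.1 q.2.2.1 q.2.2.2)

private lemma niceC (c : ℂ) (hc : ‖c‖ ≤ 1) : NiceK (fun s₁ w₁ s₂ w₂ => c / (s₁ * s₂ * (s₂ - s₁) * (w₁ + w₂))) 1 := by
  have hb : ∀ x₁ y₁ x₂ y₂ : ℝ, 1 ≤ ‖((2 : ℂ) + Complex.I * x₁) * ((5 / 2 : ℂ) + Complex.I * x₂) *
      (((5 / 2 : ℂ) + Complex.I * x₂) - ((2 : ℂ) + Complex.I * x₁)) *
      (((3 : ℂ) + Complex.I * y₁) + ((3 : ℂ) + Complex.I * y₂))‖ := fun x₁ y₁ x₂ y₂ =>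
    mul4_ge (by norm_num) (by norm_num) (by norm_num) (by norm_num) (ge_s1 _) (ge_s2 _)
      (ge_s21 _ _) (ge_ww _ _) (by norm_num)
  refine ⟨?_, fun x₁ y₁ x₂ y₂ => div_bound hc (hb x₁ y₁ x₂ y₂)⟩
  refine Continuous.div continuous_const (by fun_prop) ?_
  intro q
  exact ne_of_ge one_pos (hb q.1 q.2.1 q.2.2.1 q.2.2.2)

private lemma niceD1 : NiceK (fun s₁ w₁ s₂ w₂ => -1 / (s₁ * s₂ * (w₂ - s₂) * (w₁ + s₁))) 1 := by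
  have hb : ∀ x₁ y₁ x₂ y₂ : ℝ, 1 ≤ ‖((2 : ℂ) + Complex.I * x₁) * ((5 / 2 : ℂ) + Complex.I * x₂) *
      (((3 : ℂ) + Complex.I * y₂) - ((5 / 2 : ℂ) + Complex.I * x₂)) *
      (((3 : ℂ) + Complex.I * y₁) + ((2 : ℂ) + Complex.I * x₁))‖ := fun x₁ y₁ x₂ y₂ =>
    mul4_ge (by norm_num) (by norm_num) (by norm_num) (by norm_num) (ge_s1 _) (ge_s2 _)
      (ge_ws2 _ _) (ge_wps1 _ _) (by norm_num)
  refine ⟨?_, fun x₁ y₁ x₂ y₂ => div_bound (by simp) (hb x₁ y₁ x₂ y₂)⟩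
  refine Continuous.div continuous_const (by fun_prop) ?_
  intro q
  exact ne_of_ge one_pos (hb q.1 q.2.1 q.2.2.1 q.2.2.2)

private lemma niceD2 : NiceK (fun s₁ w₁ s₂ w₂ => -1 / (s₁ * s₂ * (w₁ - s₁) * (w₂ + s₂))) 1 := by
  have hb : ∀ x₁ y₁ x₂ y₂ : ℝ, 1 ≤ ‖((2 : ℂ) + Complex.I * x₁) * ((5 / 2 : ℂ) + Complex.I * x₂) *
      (((3 : ℂ) + Complex.I * y₁) - ((2 : ℂ) + Complex.I * x₁)) *
      (((3 : ℂ) + Complex.I * y₂) + ((5 / 2 : ℂ) + Complex.I * x₂))‖ := fun x₁ y₁ x₂ y₂ =>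
    mul4_ge (by norm_num) (by norm_num) (by norm_num) (by norm_num) (ge_s1 _) (ge_s2 _)
      (ge_ws1 _ _) (ge_wps2 _ _) (by norm_num)
  refine ⟨?_, fun x₁ y₁ x₂ y₂ => div_bound (by simp) (hb x₁ y₁ x₂ y₂)⟩
  refine Continuous.div continuous_const (by fun_prop) ?_
  intro q
  exact ne_of_ge one_pos (hb q.1 q.2.1 q.2.2.1 q.2.2.2)

private lemma nice_exp1 {K : ℂ → ℂ → ℂ → ℂ → ℂ} (h : NiceK K 1) :
    NiceK (fun s₁ w₁ s₂ w₂ => Complex.exp (-s₁) * K s₁ w₁ s₂ w₂) 1 := by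
  refine ⟨(Complex.continuous_exp.comp (by fun_prop)).mul h.1, fun x₁ y₁ x₂ y₂ => ?_⟩
  rw [norm_mul]
  exact mul_le_one₀ (exp_neg_le (by rw [re_s1]; norm_num)) (norm_nonneg _) (h.2 _ _ _ _)

private lemma nice_exp2 {K : ℂ → ℂ → ℂ → ℂ → ℂ} (h : NiceK K 1) :
    NiceK (fun s₁ w₁ s₂ w₂ => Complex.exp (-s₂) * K s₁ w₁ s₂ w₂) 1 := by
  refine ⟨(Complex.continuous_exp.comp (by fun_prop)).mul h.1, fun x₁ y₁ x₂ y₂ => ?_⟩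
  rw [norm_mul]
  exact mul_le_one₀ (exp_neg_le (by rw [re_s2]; norm_num)) (norm_nonneg _) (h.2 _ _ _ _)

private lemma int2 {ρ₁ ρ₂ : ℝ → ℝ} {a b c d : ℝ} (h1 : Bump ρ₁ a b) (h2 : Bump ρ₂ c d)
    {g : ℝ × ℝ → ℝ} (hg : Continuous g) :
    Integrable (fun z : ℝ × ℝ => ρ₁ z.1 * ρ₂ z.2 * g z) ((volume : Measure ℝ).prod volume) := by
  rw [← Measure.volume_eq_prod]
  refine Continuous.integrable_of_hasCompactSupport ?_ ?_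
  · exact ((h1.smooth.continuous.comp continuous_fst).mul
      (h2.smooth.continuous.comp continuous_snd)).mul hg
  · refine HasCompactSupport.of_support_subset_isCompact
      ((isCompact_Icc (a := a) (b := b)).prod (isCompact_Icc (a := c) (b := d))) ?_
    intro z hz
    have h3 : ρ₁ z.1 ≠ 0 := fun h0 => hz (by simp [h0])
    have h4 : ρ₂ z.2 ≠ 0 := fun h0 => hz (by simp [h0])
    have h5 := h1.supp _ h3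
    have h6 := h2.supp _ h4
    exact ⟨⟨h5.1.le, h5.2.le⟩, ⟨h6.1.le, h6.2.le⟩⟩

theorem limit_eq2 {ρ₁ ρ₂ h₁ h₂ : ℝ → ℝ} {θ₁ θ₂ : ℝ}
    (hρ₁ : Bump ρ₁ (-(1 / 8)) (1 / 8)) (hρ₂ : Bump ρ₂ (-(1 / 8)) (1 / 8)) (hh₁ : Bump h₁ 0 θ₁)
    (hh₂ : Bump h₂ 0 θ₂)
    (Y₁ Y₂ : ℝ) (hY₁ : Y₁ ≤ 3 / 4) (hY₂ : Y₂ ≤ 3 / 4) :
    1 / (2 * π) ^ 4 *
      ∫ x₁ : ℝ, ∫ y₁ : ℝ, ∫ x₂ : ℝ, ∫ y₂ : ℝ,
        wti ρ₁ h₁ (2 + Complex.I * x₁) (3 + Complex.I * y₁) *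
        wti ρ₂ h₂ (5 / 2 + Complex.I * x₂) (3 + Complex.I * y₂) *
        Complex.exp ((2 + Complex.I * x₁) * Y₁ + (5 / 2 + Complex.I * x₂) * Y₂) *
        Qinf (2 + Complex.I * x₁) (3 + Complex.I * y₁) (5 / 2 + Complex.I * x₂)
          (3 + Complex.I * y₂) = (CC2 ρ₁ ρ₂ h₁ h₂ Y₁ Y₂ : ℂ) := by
  have nA := niceA
  have nB := niceB
  have nC1 := nice_exp1 (niceC (-1) (by simp))
  have nC2 := nice_exp2 (niceC 1 (by simp))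
  have nD1 := nice_exp1 niceD1
  have nD2 := nice_exp2 niceD2
  have e1 : 1 / (2 * π) ^ 4 *
      ∫ x₁ : ℝ, ∫ y₁ : ℝ, ∫ x₂ : ℝ, ∫ y₂ : ℝ,
        wti ρ₁ h₁ (2 + Complex.I * x₁) (3 + Complex.I * y₁) *
        wti ρ₂ h₂ (5 / 2 + Complex.I * x₂) (3 + Complex.I * y₂) *
        Complex.exp ((2 + Complex.I * x₁) * Y₁ + (5 / 2 + Complex.I * x₂) * Y₂) *
        Qinf (2 + Complex.I * x₁) (3 + Complex.I * y₁) (5 / 2 + Complex.I * x₂)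
          (3 + Complex.I * y₂) = JJ2 ρ₁ ρ₂ h₁ h₂ Y₁ Y₂ (fun s₁ w₁ s₂ w₂ =>
      1 / (s₁ * s₂ * (s₁ + s₂) * (w₁ + w₂)) + 1 / (s₁ * s₂ * (w₁ - s₁) * (w₂ - s₂)) +
      Complex.exp (-s₁) * (-1 / (s₁ * s₂ * (s₂ - s₁) * (w₁ + w₂))) +
      Complex.exp (-s₂) * (1 / (s₁ * s₂ * (s₂ - s₁) * (w₁ + w₂))) +
      Complex.exp (-s₁) * (-1 / (s₁ * s₂ * (w₂ - s₂) * (w₁ + s₁))) +
      Complex.exp (-s₂) * (-1 / (s₁ * s₂ * (w₁ - s₁) * (w₂ + s₂)))) := by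
    unfold JJ2
    congr 1
    refine integral_congr_ae (Eventually.of_forall fun x₁ => ?_)
    refine integral_congr_ae (Eventually.of_forall fun y₁ => ?_)
    refine integral_congr_ae (Eventually.of_forall fun x₂ => ?_)
    refine integral_congr_ae (Eventually.of_forall fun y₂ => ?_)
    have hk := kernel_identity (2 + Complex.I * x₁) (3 + Complex.I * y₁)
      (5 / 2 + Complex.I * x₂) (3 + Complex.I * y₂)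
      (ne_of_ge (by norm_num) (ge_s1 _)) (ne_of_ge (by norm_num) (ge_s2 _))
      (ne_of_ge (by norm_num) (ge_s12 _ _)) (ne_of_ge (by norm_num) (ge_s21 _ _))
      (ne_of_ge (by norm_num) (ge_ww _ _)) (ne_of_ge (by norm_num) (ge_ws1 _ _))
      (ne_of_ge (by norm_num) (ge_ws2 _ _)) (ne_of_ge (by norm_num) (ge_wps1 _ _))
      (ne_of_ge (by norm_num) (ge_wps2 _ _)) (ne_of_ge (by norm_num) (ge_wps2 _ _))
      (ne_of_ge (by norm_num) (ge_wps1 _ _))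
    simp only
    rw [← hk]
    unfold wti
    have hden : ((3 : ℂ) + Complex.I * y₁) ^ 2 - (2 + Complex.I * x₁) ^ 2 ≠ 0 := by
      rw [sq_sub_sq]
      exact mul_ne_zero (ne_of_ge (by norm_num) (ge_wps1 _ _)) (ne_of_ge (by norm_num) (ge_ws1 _ _))
    have hden2 : ((3 : ℂ) + Complex.I * y₂) ^ 2 - (5 / 2 + Complex.I * x₂) ^ 2 ≠ 0 := by
      rw [sq_sub_sq]
      exact mul_ne_zero (ne_of_ge (by norm_num) (ge_wps2 _ _)) (ne_of_ge (by norm_num) (ge_ws2 _ _))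
    generalize ((3 : ℂ) + Complex.I * y₁) ^ 2 - (2 + Complex.I * x₁) ^ 2 = D1 at *
    generalize ((3 : ℂ) + Complex.I * y₂) ^ 2 - (5 / 2 + Complex.I * x₂) ^ 2 = D2 at *
    generalize Qinf (2 + Complex.I * x₁) (3 + Complex.I * y₁) (5 / 2 + Complex.I * x₂)
          (3 + Complex.I * y₂) = Qval at *
    field_simp
    try ring
  rw [e1, JJ2_add' hρ₁ hρ₂ hh₁ hh₂ Y₁ Y₂ ((((nA.add nB).add nC1).add nC2).add nD1) nD2,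
    JJ2_add' hρ₁ hρ₂ hh₁ hh₂ Y₁ Y₂ (((nA.add nB).add nC1).add nC2) nD1,
    JJ2_add' hρ₁ hρ₂ hh₁ hh₂ Y₁ Y₂ ((nA.add nB).add nC1) nC2,
    JJ2_add' hρ₁ hρ₂ hh₁ hh₂ Y₁ Y₂ (nA.add nB) nC1,
    JJ2_add' hρ₁ hρ₂ hh₁ hh₂ Y₁ Y₂ nA nB,
    JJ2_A hρ₁ hρ₂ hh₁ hh₂, JJ2_B hρ₁ hρ₂ hh₁ hh₂, JJ2_C1 hρ₁ hρ₂ hh₁ hh₂ Y₁ Y₂ hY₁,
    JJ2_C2 hρ₁ hρ₂ hh₁ hh₂ Y₁ Y₂ hY₂,
    JJ2_D1 hρ₁ hρ₂ hh₁ hh₂ Y₁ Y₂ hY₁, JJ2_D2 hρ₁ hρ₂ hh₁ hh₂ Y₁ Y₂ hY₂, add_zero, add_zero, add_zero]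
  have hHc1 := HH_cont hh₁
  have hHc2 := HH_cont hh₂
  have i1 := int2 hρ₁ hρ₂ (g := fun z => (∫ t : ℝ, h₁ t * h₂ t) * max (min (Y₁ - z.1) (Y₂ - z.2)) 0)
    (by fun_prop)
  have i2 := int2 hρ₁ hρ₂ (g := fun z => HH h₁ (z.1 - Y₁) * HH h₂ (z.2 - Y₂))
    ((hHc1.comp (by fun_prop)).mul (hHc2.comp (by fun_prop)))
  have i3 := int2 hρ₁ hρ₂ (g := fun z => -((∫ t : ℝ, h₁ t * h₂ t) *
    max (Y₁ - z.1 + (Y₂ - z.2) - 1) 0)) (by fun_prop)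
  rw [← Complex.ofReal_add, ← Complex.ofReal_add]
  congr 1
  have j1 := integral_integral_add i1 i2
  have j2 := integral_integral_add (i1.add i2) i3
  simp only [Pi.add_apply] at j1 j2
  rw [← j1, ← j2]
  unfold CC2
  refine integral_congr_ae (Eventually.of_forall fun x => ?_)
  refine integral_congr_ae (Eventually.of_forall fun y => ?_)
  simp only
  ring


private lemma part0 (s₁ w₁ s₂ w₂ : ℂ) (h1 : s₁ ≠ 0) (h2 : s₂ ≠ 0) (h12 : s₁ + s₂ ≠ 0)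
    (hw : w₁ + w₂ ≠ 0) (ha : w₁ - s₁ ≠ 0) (hb : w₂ - s₂ ≠ 0)
    (hc : w₁ + s₁ ≠ 0) (hd' : w₂ + s₂ ≠ 0) :
    4 / ((w₁ ^ 2 - s₁ ^ 2) * (w₂ ^ 2 - s₂ ^ 2)) * R0 s₁ w₁ s₂ w₂ =
      1 / (s₁ * s₂ * (s₁ + s₂) * (w₁ + w₂)) + 1 / (s₁ * s₂ * (w₁ - s₁) * (w₂ - s₂)) := by
  have e1 : w₁ ^ 2 - s₁ ^ 2 = (w₁ + s₁) * (w₁ - s₁) := by ring
  have e2 : w₂ ^ 2 - s₂ ^ 2 = (w₂ + s₂) * (w₂ - s₂) := by ring
  have hc' : s₁ + w₁ ≠ 0 := by rwa [add_comm]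
  have hd'' : s₂ + w₂ ≠ 0 := by rwa [add_comm]
  unfold R0
  rw [e1, e2]
  field_simp
  ring

theorem limit_eq0 {ρ₁ ρ₂ h₁ h₂ : ℝ → ℝ} {θ₁ θ₂ : ℝ}
    (hρ₁ : Bump ρ₁ (-(1 / 8)) (1 / 8)) (hρ₂ : Bump ρ₂ (-(1 / 8)) (1 / 8))
    (hh₁ : Bump h₁ 0 θ₁) (hh₂ : Bump h₂ 0 θ₂) (Y₁ Y₂ : ℝ) :
    1 / (2 * π) ^ 4 *
      ∫ x₁ : ℝ, ∫ y₁ : ℝ, ∫ x₂ : ℝ, ∫ y₂ : ℝ,
        wti ρ₁ h₁ (2 + Complex.I * x₁) (3 + Complex.I * y₁) *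
        wti ρ₂ h₂ (5 / 2 + Complex.I * x₂) (3 + Complex.I * y₂) *
        Complex.exp ((2 + Complex.I * x₁) * Y₁ + (5 / 2 + Complex.I * x₂) * Y₂) *
        R0 (2 + Complex.I * x₁) (3 + Complex.I * y₁) (5 / 2 + Complex.I * x₂)
          (3 + Complex.I * y₂) = (CD2 ρ₁ ρ₂ h₁ h₂ Y₁ Y₂ : ℂ) := by
  have nA := niceA
  have nB := niceB
  have e1 : 1 / (2 * π) ^ 4 *
      ∫ x₁ : ℝ, ∫ y₁ : ℝ, ∫ x₂ : ℝ, ∫ y₂ : ℝ,
        wti ρ₁ h₁ (2 + Complex.I * x₁) (3 + Complex.I * y₁) *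
        wti ρ₂ h₂ (5 / 2 + Complex.I * x₂) (3 + Complex.I * y₂) *
        Complex.exp ((2 + Complex.I * x₁) * Y₁ + (5 / 2 + Complex.I * x₂) * Y₂) *
        R0 (2 + Complex.I * x₁) (3 + Complex.I * y₁) (5 / 2 + Complex.I * x₂)
          (3 + Complex.I * y₂) = JJ2 ρ₁ ρ₂ h₁ h₂ Y₁ Y₂ (fun s₁ w₁ s₂ w₂ =>
      1 / (s₁ * s₂ * (s₁ + s₂) * (w₁ + w₂)) + 1 / (s₁ * s₂ * (w₁ - s₁) * (w₂ - s₂))) := by
    unfold JJ2
    congr 1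
    refine integral_congr_ae (Eventually.of_forall fun x₁ => ?_)
    refine integral_congr_ae (Eventually.of_forall fun y₁ => ?_)
    refine integral_congr_ae (Eventually.of_forall fun x₂ => ?_)
    refine integral_congr_ae (Eventually.of_forall fun y₂ => ?_)
    have hk := part0 (2 + Complex.I * x₁) (3 + Complex.I * y₁)
      (5 / 2 + Complex.I * x₂) (3 + Complex.I * y₂)
      (ne_of_ge (by norm_num) (ge_s1 _)) (ne_of_ge (by norm_num) (ge_s2 _))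
      (ne_of_ge (by norm_num) (ge_s12 _ _))
      (ne_of_ge (by norm_num) (ge_ww _ _)) (ne_of_ge (by norm_num) (ge_ws1 _ _))
      (ne_of_ge (by norm_num) (ge_ws2 _ _)) (ne_of_ge (by norm_num) (ge_wps1 _ _))
      (ne_of_ge (by norm_num) (ge_wps2 _ _))
    simp only
    rw [← hk]
    unfold wti
    have hden : ((3 : ℂ) + Complex.I * y₁) ^ 2 - (2 + Complex.I * x₁) ^ 2 ≠ 0 := by
      rw [sq_sub_sq]
      exact mul_ne_zero (ne_of_ge (by norm_num) (ge_wps1 _ _)) (ne_of_ge (by norm_num) (ge_ws1 _ _))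
    have hden2 : ((3 : ℂ) + Complex.I * y₂) ^ 2 - (5 / 2 + Complex.I * x₂) ^ 2 ≠ 0 := by
      rw [sq_sub_sq]
      exact mul_ne_zero (ne_of_ge (by norm_num) (ge_wps2 _ _)) (ne_of_ge (by norm_num) (ge_ws2 _ _))
    generalize ((3 : ℂ) + Complex.I * y₁) ^ 2 - (2 + Complex.I * x₁) ^ 2 = D1 at *
    generalize ((3 : ℂ) + Complex.I * y₂) ^ 2 - (5 / 2 + Complex.I * x₂) ^ 2 = D2 at *
    generalize R0 (2 + Complex.I * x₁) (3 + Complex.I * y₁) (5 / 2 + Complex.I * x₂)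
          (3 + Complex.I * y₂) = Qval at *
    field_simp
    try ring
  rw [e1, JJ2_add' hρ₁ hρ₂ hh₁ hh₂ Y₁ Y₂ nA nB, JJ2_A hρ₁ hρ₂ hh₁ hh₂, JJ2_B hρ₁ hρ₂ hh₁ hh₂]
  have hHc1 := HH_cont hh₁
  have hHc2 := HH_cont hh₂
  have i1 := int2 hρ₁ hρ₂ (g := fun z => (∫ t : ℝ, h₁ t * h₂ t) *
    max (min (Y₁ - z.1) (Y₂ - z.2)) 0) (by fun_prop)
  have i2 := int2 hρ₁ hρ₂ (g := fun z => HH h₁ (z.1 - Y₁) * HH h₂ (z.2 - Y₂))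
    ((hHc1.comp (by fun_prop)).mul (hHc2.comp (by fun_prop)))
  rw [← Complex.ofReal_add]
  congr 1
  have j1 := integral_integral_add i1 i2
  rw [← j1]
  unfold CD2
  refine integral_congr_ae (Eventually.of_forall fun x => ?_)
  refine integral_congr_ae (Eventually.of_forall fun y => ?_)
  simp only
  ring

end Pool.Agent.MP0016c7.PC
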