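import Mathlib
import Pool.Agent.Lib.MP_0016c7_nt.Theta
import Pool.Agent.Lib.MP_0016c7_nt.Rz.Defs
import Pool.Agent.Lib.MP_0016c7_nt.Rz.DefsC
import Pool.Agent.Lib.MP_0016c7_nt.Rz.DefsF
import Pool.Agent.Lib.MP_0016c7_nt.Rz.DefsE
import Pool.Agent.Lib.MP_0016c7_nt.PC.DefsM
import Pool.Agent.Lib.MP_0016c7_nt.PC.MTl2
import Pool.Agent.Lib.MP_0016c7_nt.PC.Sm32
import Pool.Agent.Lib.MP_0016c7_nt.PC.QOK2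
import Pool.Agent.Lib.MP_0016c7_nt.PC.VLim2

set_option autoImplicit false

/-!
The limits of the sieved main term and of the diagonal term, two profiles.
-/

open Finset MeasureTheory Filter Topology
open scoped Real ContDiff

namespace Pool.Agent.MP0016c7.PC

open Pool.Agent.MP0016c7.Rz

private theorem bump_monoQ {F : ℝ → ℝ} {a b a' b' : ℝ} (hF : Bump F a b) (h1 : a' ≤ a)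
    (h2 : b ≤ b') : Bump F a' b' :=
  ⟨hF.smooth, fun t ht => ⟨lt_of_le_of_lt h1 (hF.supp t ht).1, lt_of_lt_of_le (hF.supp t ht).2 h2⟩⟩

/-- The general form: a main function `M` whose series converges to `Qi`. -/
theorem quad_gen {Q : ℝ → ℂ → ℂ → ℂ → ℂ → ℂ} {Qi : ℂ → ℂ → ℂ → ℂ → ℂ} (hQ : QOK Q Qi)
    {δ θ₁ θ₂ : ℝ} (hδ : 0 < δ) (hδ4 : δ ≤ 1 / 4) (hθ₁ : 0 < θ₁) (hθ₁' : θ₁ + 3 * δ < 1 / 2)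
    (hθ₂ : 0 < θ₂) (hθ₂' : θ₂ + 3 * δ < 1 / 2)
    (r : ℕ) (hr : Odd r) (c : ℝ) (hc : c = 0 ∨ c = 1)
    {ρ₁ ρ₂ h₁ h₂ : ℝ → ℝ} (hρ₁ : Bump ρ₁ (-(δ / 2)) (δ / 2)) (hρ₂ : Bump ρ₂ (-(δ / 2)) (δ / 2))
    (hh₁ : Bump h₁ 0 θ₁) (hh₂ : Bump h₂ 0 θ₂) (K : ℝ → ℝ → ℝ)
    (hK : ∀ Y₁ ∈ Set.Icc (-1 : ℝ) (1 / 2 + δ), ∀ Y₂ ∈ Set.Icc (-1 : ℝ) (1 / 2 + δ),
      1 / (2 * π) ^ 4 * ∫ x₁ : ℝ, ∫ y₁ : ℝ, ∫ x₂ : ℝ, ∫ y₂ : ℝ,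
        wti ρ₁ h₁ (2 + Complex.I * x₁) (3 + Complex.I * y₁) *
        wti ρ₂ h₂ (5 / 2 + Complex.I * x₂) (3 + Complex.I * y₂) *
        Complex.exp ((2 + Complex.I * x₁) * Y₁ + (5 / 2 + Complex.I * x₂) * Y₂) *
        Qi (2 + Complex.I * x₁) (3 + Complex.I * y₁) (5 / 2 + Complex.I * x₂)
          (3 + Complex.I * y₂) = (K Y₁ Y₂ : ℂ))
    (C₀ : ℝ) (ε : ℝ) (hε : 0 < ε) :
    ∃ X₀ : ℝ, ∀ X : ℝ, X₀ ≤ X → ∀ M : ℕ → ℝ, SerQ M r (Real.log X) (Q X) →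
      (∀ N : ℕ, Odd N → |M N| ≤ C₀ * N) →
      ∀ Y₁ ∈ Set.Icc (-1 : ℝ) (1 / 2 + δ), ∀ Y₂ ∈ Set.Icc (-1 : ℝ) (1 / 2 + δ),
      |quad (Wt c ρ₁ h₁ X θ₁ δ Y₁) (Wt c ρ₂ h₂ X θ₂ δ Y₂) r ⌊X ^ 2⌋₊ M - K Y₁ Y₂| ≤ ε := by
  obtain ⟨X₃, hX₃⟩ := quad_MT2 hδ hθ₁ hθ₁' hθ₂ hθ₂' r hr c hc hρ₁ hρ₂ hh₁ hh₂ C₀ (ε / 2)
    (by linarith)
  obtain ⟨X₅, hX₅⟩ := MT_lim2 c hc hQ r hρ₁ hρ₂ hh₁ hh₂ (ε / 2) (by linarith)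
  refine ⟨max X₃ X₅, ?_⟩
  intro X hX M hM hMC Y₁ hY₁ Y₂ hY₂
  have s3 := hX₃ X ((le_max_left _ _).trans hX) M hMC Y₁ hY₁ Y₂ hY₂
  have hI1 : Y₁ ∈ Set.Icc (-1 : ℝ) 1 := ⟨hY₁.1, by linarith [hY₁.2]⟩
  have hI2 : Y₂ ∈ Set.Icc (-1 : ℝ) 1 := ⟨hY₂.1, by linarith [hY₂.2]⟩
  have s5 := hX₅ X ((le_max_right _ _).trans hX) M hM Y₁ hI1 Y₂ hI2
  have s7 : |MTg2 c ρ₁ ρ₂ h₁ h₂ M X r Y₁ Y₂ - K Y₁ Y₂| ≤ ε / 2 := by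
    refine le_trans (le_of_eq ?_) s5
    rw [hK Y₁ hY₁ Y₂ hY₂, ← Complex.ofReal_sub, Complex.norm_real, Real.norm_eq_abs]
  rw [abs_le] at s3 s7 ⊢
  constructor <;> linarith [s3.1, s3.2, s7.1, s7.2]

/-- The sieved main term, for a main function with the factor `gN` already included. -/
theorem quad_CCp2 {β : ℂ → ℂ} {B : ℝ → ℝ} (hβ : BC β B) (I₀ : ℝ)
    {δ θ₁ θ₂ : ℝ} (hδ : 0 < δ) (hδ4 : δ ≤ 1 / 4) (hθ₁ : 0 < θ₁) (hθ₁' : θ₁ + 3 * δ < 1 / 2)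
    (hθ₂ : 0 < θ₂) (hθ₂' : θ₂ + 3 * δ < 1 / 2)
    (r : ℕ) (hr : Odd r) (c : ℝ) (hc : c = 0 ∨ c = 1)
    {ρ₁ ρ₂ h₁ h₂ : ℝ → ℝ} (hρ₁ : Bump ρ₁ (-(δ / 2)) (δ / 2)) (hρ₂ : Bump ρ₂ (-(δ / 2)) (δ / 2))
    (hh₁ : Bump h₁ 0 θ₁) (hh₂ : Bump h₂ 0 θ₂) (C₀ : ℝ) (ε : ℝ) (hε : 0 < ε) :
    ∃ X₀ : ℝ, ∀ X : ℝ, X₀ ≤ X → ∀ M : ℕ → ℝ, MRepp β I₀ (X / r ^ 2) M →
      (∀ N : ℕ, Odd N → |M N| ≤ C₀ * N) →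
      ∀ Y₁ ∈ Set.Icc (-1 : ℝ) (1 / 2 + δ), ∀ Y₂ ∈ Set.Icc (-1 : ℝ) (1 / 2 + δ),
      |quad (Wt c ρ₁ h₁ X θ₁ δ Y₁) (Wt c ρ₂ h₂ X θ₂ δ Y₂) r ⌊X ^ 2⌋₊ M -
        I₀ * CC2 ρ₁ ρ₂ h₁ h₂ Y₁ Y₂| ≤ ε := by
  obtain ⟨X₁, h1⟩ := serQ_p hβ I₀ r hr
  obtain ⟨X₂, h2⟩ := quad_gen (qok_p hβ I₀ r hr) hδ hδ4 hθ₁ hθ₁' hθ₂ hθ₂' r hr c hc hρ₁ hρ₂
    hh₁ hh₂ (fun Y₁ Y₂ => I₀ * CC2 ρ₁ ρ₂ h₁ h₂ Y₁ Y₂) (by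
      intro Y₁ hY₁ Y₂ hY₂
      have s6 := limit_eq2 (ρ₁ := ρ₁) (ρ₂ := ρ₂)
        (bump_monoQ hρ₁ (by linarith) (by linarith)) (bump_monoQ hρ₂ (by linarith) (by linarith))
        hh₁ hh₂ Y₁ Y₂ (by linarith [hY₁.2]) (by linarith [hY₂.2])
      push_cast
      rw [← s6]
      have e : ∀ x₁ y₁ x₂ y₂ : ℝ, wti ρ₁ h₁ (2 + Complex.I * x₁) (3 + Complex.I * y₁) *
        wti ρ₂ h₂ (5 / 2 + Complex.I * x₂) (3 + Complex.I * y₂) *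
        Complex.exp ((2 + Complex.I * x₁) * Y₁ + (5 / 2 + Complex.I * x₂) * Y₂) *
        ((I₀ : ℂ) * Qinf (2 + Complex.I * x₁) (3 + Complex.I * y₁) (5 / 2 + Complex.I * x₂)
          (3 + Complex.I * y₂)) = (I₀ : ℂ) * (wti ρ₁ h₁ (2 + Complex.I * x₁) (3 + Complex.I * y₁) *
        wti ρ₂ h₂ (5 / 2 + Complex.I * x₂) (3 + Complex.I * y₂) *
        Complex.exp ((2 + Complex.I * x₁) * Y₁ + (5 / 2 + Complex.I * x₂) * Y₂) *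
        Qinf (2 + Complex.I * x₁) (3 + Complex.I * y₁) (5 / 2 + Complex.I * x₂)
          (3 + Complex.I * y₂)) := by
        intro x₁ y₁ x₂ y₂
        ring
      simp only [e, integral_const_mul]
      ring) C₀ ε hε
  exact ⟨max X₁ X₂, fun X hX M hM hMC => h2 X ((le_max_right _ _).trans hX) M
    (h1 X ((le_max_left _ _).trans hX) M hM) hMC⟩

theorem MRepp_of_MRep {β : ℂ → ℂ} {I₀ Y : ℝ} {M : ℕ → ℝ} (h : MRep β I₀ Y M) :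
    MRepp β I₀ Y (fun N => gN N * M N) := by
  intro N hN c hc hc8
  have h1 := h N hN c hc hc8
  unfold bzp
  have e : ∀ t : ℝ, β (c + Complex.I * t) * (((Y / 2 : ℝ)) : ℂ) ^ (-(c + Complex.I * t : ℂ)) *
      ((gN N : ℂ) * bz (c + Complex.I * t) N) / (c + Complex.I * t) =
      (gN N : ℂ) * (β (c + Complex.I * t) * (((Y / 2 : ℝ)) : ℂ) ^ (-(c + Complex.I * t : ℂ)) *
        bz (c + Complex.I * t) N / (c + Complex.I * t)) := by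
    intro t
    ring
  simp only [e, integral_const_mul]
  rw [Complex.ofReal_mul, h1]
  ring

/-- The diagonal term: only `N = □`, with weight `1`. -/
theorem quad_D2 {δ θ₁ θ₂ : ℝ} (hδ : 0 < δ) (hδ4 : δ ≤ 1 / 4) (hθ₁ : 0 < θ₁)
    (hθ₁' : θ₁ + 3 * δ < 1 / 2) (hθ₂ : 0 < θ₂) (hθ₂' : θ₂ + 3 * δ < 1 / 2)
    (r : ℕ) (hr : Odd r) (c : ℝ) (hc : c = 0 ∨ c = 1)
    {ρ₁ ρ₂ h₁ h₂ : ℝ → ℝ} (hρ₁ : Bump ρ₁ (-(δ / 2)) (δ / 2)) (hρ₂ : Bump ρ₂ (-(δ / 2)) (δ / 2))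
    (hh₁ : Bump h₁ 0 θ₁) (hh₂ : Bump h₂ 0 θ₂) (ε : ℝ) (hε : 0 < ε) :
    ∃ X₀ : ℝ, ∀ X : ℝ, X₀ ≤ X →
      ∀ Y₁ ∈ Set.Icc (-1 : ℝ) (1 / 2 + δ), ∀ Y₂ ∈ Set.Icc (-1 : ℝ) (1 / 2 + δ),
      |quad (Wt c ρ₁ h₁ X θ₁ δ Y₁) (Wt c ρ₂ h₂ X θ₂ δ Y₂) r ⌊X ^ 2⌋₊ sqI -
        CD2 ρ₁ ρ₂ h₁ h₂ Y₁ Y₂| ≤ ε := by
  obtain ⟨X₁, h1⟩ := serQ_0 r hr
  obtain ⟨X₂, h2⟩ := quad_gen (qok_0 r hr) hδ hδ4 hθ₁ hθ₁' hθ₂ hθ₂' r hr c hc hρ₁ hρ₂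
    hh₁ hh₂ (fun Y₁ Y₂ => CD2 ρ₁ ρ₂ h₁ h₂ Y₁ Y₂) (by
      intro Y₁ hY₁ Y₂ hY₂
      exact limit_eq0 (ρ₁ := ρ₁) (ρ₂ := ρ₂)
        (bump_monoQ hρ₁ (by linarith) (by linarith)) (bump_monoQ hρ₂ (by linarith) (by linarith))
        hh₁ hh₂ Y₁ Y₂) 1 ε hε
  refine ⟨max X₁ X₂, fun X hX => h2 X ((le_max_right _ _).trans hX) sqI
    (h1 X ((le_max_left _ _).trans hX)) fun N hN => ?_⟩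
  have hN1 : (1 : ℝ) ≤ N := by exact_mod_cast hN.pos
  unfold sqI
  split_ifs
  · rw [abs_one]
    linarith
  · rw [abs_zero]
    linarith

end Pool.Agent.MP0016c7.PC
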