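import Mathlib
import Pool.Agent.Lib.MP_0016c7_nt.PC.Iface2
import Pool.Agent.Lib.MP_0016c7_nt.PC.QCC2
import Pool.Agent.Lib.MP_0016c7_nt.PC.Eul1p

set_option autoImplicit false

/-!
The interface statements for the main terms.
-/

open Finset MeasureTheory Filter Topology
open scoped Real ContDiff

namespace Pool.Agent.MP0016c7.PC

open Pool.Agent.MP0016c7.Rz

/-- [M] The main term with the factor `gN`; two profiles. -/
theorem jf_quadp : JF_quadp := by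
  intro β B hβ I₀ δ θ₁ θ₂ hδ hδ4 hθ₁ hθ₂ hθ₁' hθ₂' c hc ρ₁ ρ₂ h₁ h₂ hρ₁ hρ₂ hh₁ hh₂ C₀ ε hε
  obtain ⟨X₀, hX₀⟩ := quad_CCp2 hβ I₀ hδ hδ4 hθ₁ hθ₁' hθ₂ hθ₂' 1 odd_one c hc hρ₁ hρ₂ hh₁ hh₂
    C₀ ε hε
  refine ⟨X₀, fun X hX M hM hMC Y₁ hY₁ Y₂ hY₂ => ?_⟩
  refine hX₀ X hX (fun N => gN N * M N) ?_ hMC Y₁ hY₁ Y₂ hY₂
  have h1 : X / ((1 : ℕ) : ℝ) ^ 2 = X := by simp
  rw [h1]
  exact MRepp_of_MRep hM

/-- [M] The diagonal term; two profiles. -/
theorem jf_quadD : JF_quadD := by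
  intro δ θ₁ θ₂ hδ hδ4 hθ₁ hθ₂ hθ₁' hθ₂' c hc ρ₁ ρ₂ h₁ h₂ hρ₁ hρ₂ hh₁ hh₂ ε hε
  obtain ⟨X₀, hX₀⟩ := quad_D2 hδ hδ4 hθ₁ hθ₁' hθ₂ hθ₂' 1 odd_one c hc hρ₁ hρ₂ hh₁ hh₂ ε hε
  refine ⟨X₀, fun X hX Y₁ hY₁ Y₂ hY₂ => ?_⟩
  have h1 := hX₀ X hX Y₁ hY₁ Y₂ hY₂
  have h2 : sqI = fun N : ℕ => if IsSquare N then (1 : ℝ) else 0 := by
    funext N
    unfold sqI
    by_cases h : IsSquare N
    · simp only [if_pos h]
    · simp only [if_neg h]
  rw [h2] at h1
  exact h1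

private theorem te_three (v : ℕ) (hv : 1 ≤ v) : 3 / 2 * ((v : ℝ) + 1) ≤ 3 ^ v := by
  induction v, hv using Nat.le_induction with
  | base => norm_num
  | succ n hn ih =>
    rw [pow_succ]
    push_cast
    have : (1 : ℝ) ≤ n := by exact_mod_cast hn
    nlinarith

/-- The factor `gN` times the number of divisors is at most `N`. -/
theorem gN_mul_card_le (N : ℕ) (hN : Odd N) : gN N * (N.divisors.card : ℝ) ≤ N := by
  have hN0 : N ≠ 0 := hN.pos.ne'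
  unfold gN
  rw [Nat.card_divisors hN0]
  push_cast
  rw [← Finset.prod_mul_distrib]
  have h1 : (N : ℝ) = ∏ p ∈ N.primeFactors, (p : ℝ) ^ N.factorization p := by
    conv_lhs => rw [← Nat.prod_factorization_pow_eq_self hN0]
    rw [Finsupp.prod, Nat.support_factorization]
    push_cast
    rfl
  conv_rhs => rw [h1]
  refine Finset.prod_le_prod (fun p hp => ?_) (fun p hp => ?_)
  · have hpp := Nat.prime_of_mem_primeFactors hp
    have h2 : (2 : ℝ) ≤ p := by exact_mod_cast hpp.two_le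
    have h3 : 1 / (p : ℝ) ≤ 1 / 2 := one_div_le_one_div_of_le (by norm_num) h2
    have : 0 < 1 - 1 / (p : ℝ) := by linarith
    positivity
  · have hpp := Nat.prime_of_mem_primeFactors hp
    have hpd := Nat.dvd_of_mem_primeFactors hp
    have hpo : Odd p := hN.of_dvd_nat hpd
    have hp3 : 3 ≤ p := by
      have h2 := hpp.two_le
      have h4 := Nat.odd_iff.1 hpo
      omega
    have hp3' : (3 : ℝ) ≤ p := by exact_mod_cast hp3
    have h3 : 1 / (p : ℝ) ≤ 1 / 3 := one_div_le_one_div_of_le (by norm_num) hp3'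
    have h4 : (1 - 1 / (p : ℝ))⁻¹ ≤ 3 / 2 := by
      rw [inv_le_comm₀ (by linarith) (by norm_num)]
      norm_num
      have : (p : ℝ)⁻¹ ≤ 1 / 3 := by rwa [one_div] at h3
      linarith
    have hv : 1 ≤ N.factorization p :=
      (hpp.dvd_iff_one_le_factorization hN0).1 hpd
    calc (1 - 1 / (p : ℝ))⁻¹ * ((N.factorization p : ℝ) + 1)
        ≤ 3 / 2 * ((N.factorization p : ℝ) + 1) :=
          mul_le_mul_of_nonneg_right h4 (by positivity)
      _ ≤ 3 ^ N.factorization p := te_three _ hv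
      _ ≤ (p : ℝ) ^ N.factorization p := pow_le_pow_left₀ (by norm_num) hp3' _

/-- The bound needed for `JF_quadp`. -/
theorem gN_mul_le {M : ℕ → ℝ} {C : ℝ} (hC : 0 ≤ C)
    (h : ∀ N : ℕ, Odd N → |M N| ≤ C * ((N.divisors.card : ℝ) / √(sq1 N : ℝ))) (N : ℕ)
    (hN : Odd N) : |gN N * M N| ≤ C * N := by
  have h1 := h N hN
  have hq : 1 ≤ sq1 N := by
    unfold sq1
    exact Finset.prod_pos (fun p hp =>
      (Nat.prime_of_mem_primeFactors (Finset.mem_filter.1 hp).1).pos)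
  have hqR : (1 : ℝ) ≤ √(sq1 N : ℝ) := by
    rw [Real.one_le_sqrt]
    exact_mod_cast hq
  have h2 : (N.divisors.card : ℝ) / √(sq1 N : ℝ) ≤ N.divisors.card :=
    div_le_self (Nat.cast_nonneg _) hqR
  have hg := gN_pos N
  rw [abs_mul, abs_of_pos hg]
  calc gN N * |M N| ≤ gN N * (C * N.divisors.card) :=
        mul_le_mul_of_nonneg_left (h1.trans (mul_le_mul_of_nonneg_left h2 hC)) hg.le
    _ = C * (gN N * N.divisors.card) := by ring
    _ ≤ C * N := mul_le_mul_of_nonneg_left (gN_mul_card_le N hN) hC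

end Pool.Agent.MP0016c7.PC
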