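import Mathlib
import Pool.Agent.Lib.MP_0016c7_nt.Theta
import Pool.Agent.Lib.MP_0016c7_nt.Rz.Defs
import Pool.Agent.Lib.MP_0016c7_nt.Rz.DefsC
import Pool.Agent.Lib.MP_0016c7_nt.Rz.DefsF
import Pool.Agent.Lib.MP_0016c7_nt.Rz.DefsE
import Pool.Agent.Lib.MP_0016c7_nt.Rz.Gen0
import Pool.Agent.Lib.MP_0016c7_nt.Rz.W0
import Pool.Agent.Lib.MP_0016c7_nt.Rz.Van1
import Pool.Agent.Lib.MP_0016c7_nt.Rz.WA
import Pool.Agent.Lib.MP_0016c7_nt.Rz2.DefsG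
import Pool.Agent.Lib.MP_0016c7_nt.Rz2.VanS
import Pool.Agent.Lib.MP_0016c7_nt.Rz2.CharG
import Pool.Agent.Lib.MP_0016c7_nt.Rz2.SymG
import Pool.Agent.Lib.MP_0016c7_nt.Rz2.YS1
import Pool.Agent.Lib.MP_0016c7_nt.PC.DetLH
import Pool.Agent.Lib.MP_0016c7_nt.PC.Defs2
import Pool.Agent.Lib.MP_0016c7_nt.PC.DetSH

set_option autoImplicit false

/-!
The linear relation of a bad discriminant with a general profile `H`; zeros outside a window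
(`A = 0`: the whole interval).
-/

open Finset MeasureTheory Filter Topology
open scoped Real ContDiff

namespace Pool.Agent.MP0016c7.PC

open Pool.Agent.MP0016c7.Rz

/-- change of scale for the window, with the trivial window -/
theorem window_scale' {A A' : ℝ} (hAA : A' ≤ 0 ∨ (0 < A' ∧ A' < A)) : ∃ X₀ : ℝ, ∀ X : ℝ, X₀ ≤ X →
    ∀ (n : ℕ) (t : ℝ), X < n → (n : ℝ) ≤ 16 * X → A ≤ |t| * Real.log n →
      A' ≤ |t * Real.log X| := by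
  rcases hAA with h | ⟨h1, h2⟩
  · exact ⟨0, fun X _ n t _ _ _ => h.trans (abs_nonneg _)⟩
  · exact window_scale h1 h2

theorem badH_fam {θ₀ δ : ℝ} (hθ₀ : 0 < θ₀) (hδ : 0 < δ) (hδ' : δ ≤ 1 / 100)
    (hlen : θ₀ + 6 * δ < 1 / 2)
    {ρ h : ℝ → ℝ} (hρ : Bump ρ (-(δ / 2)) (δ / 2)) (hρn : ∀ y, 0 ≤ ρ y)
    (hρe : ∀ y, ρ (-y) = ρ y) (hρ1 : ∫ y, ρ y = 1) (hh : Bump h (2 * δ) (θ₀ + 3 * δ))
    (hhn : ∀ t, 0 ≤ h t) {H : ℝ → ℝ} (hPn : ∀ x, 0 ≤ H x) (hPa : Antitone H)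
    (hPz : ∀ x, θ₀ ≤ x → H x = 0) (hH : ∀ t, H (t - 2 * δ) ≤ HH h t)
    (σ : ℤ) (hσ : σ = 1 ∨ σ = -1) {m c ε : ℤ} {κ : ℕ} (hf : Fam m c ε κ)
    {A A' : ℝ} (hAA : A' ≤ 0 ∨ (0 < A' ∧ A' < A)) :
    BadH A' (Rf m c σ) (NoZWG A κ) H θ₀ δ (fun X d v => yS (if σ = 1 then 0 else 1) ε σ ρ h X d
      (Real.log (κ * d) / (2 * Real.log X) - v)) := by
  have hh0 : Bump h 0 (θ₀ + 3 * δ) :=
    ⟨hh.smooth, fun t ht => ⟨(by linarith [(hh.supp t ht).1]), (hh.supp t ht).2⟩⟩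
  intro ε₁ hε₁0
  set c₁ : ℝ := if σ = 1 then 0 else 1 with hc
  have hc01 : c₁ = 0 ∨ c₁ = 1 := by
    rw [hc]; split_ifs
    · exact Or.inl rfl
    · exact Or.inr rfl
  have hε : ε = 0 ∨ ε = 1 ∨ ε = -1 := by
    rcases hf with h | h | h
    · exact Or.inl h.2.2.1
    · exact Or.inr (Or.inl h.2.2.1)
    · exact Or.inr (Or.inr h.2.2.1)
  have hκ : κ = 1 ∨ κ = 4 := by
    rcases hf with h | h | h
    · exact Or.inr h.2.2.2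
    · exact Or.inl h.2.2.2
    · exact Or.inl h.2.2.2
  obtain ⟨X₁, hdet⟩ := det_lowerSH (θ := θ₀ + 3 * δ) hδ hδ' hθ₀ (by linarith) (by linarith) hρ hρn
    hρ1 hh0 hhn hPn hPa hPz hH c₁ hc01 ε σ hε κ hκ ε₁ hε₁0
  obtain ⟨X₂, hwin⟩ := window_scale' hAA
  refine ⟨max X₂ (max X₁ 2), ?_⟩
  intro X hX d hd1 hd2 hRf hsf hbad
  have hodd : Odd d := by
    have hR := hRf.1
    have h1 : (σ * (d : ℤ)) % 2 = 1 := by
      rcases hf with h | h | h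
      · obtain ⟨hm, hcc, -, -⟩ := h
        subst hm; subst hcc; omega
      · obtain ⟨hm, hcc, -, -⟩ := h
        subst hm; subst hcc; omega
      · obtain ⟨hm, hcc, -, -⟩ := h
        subst hm; subst hcc; omega
    have h2 : Odd (σ * (d : ℤ)) := Int.odd_iff.2 h1
    have h3 : Odd ((d : ℕ) : ℤ) := (Int.odd_mul.1 h2).2
    exact_mod_cast h3
  have hX0 : X₂ ≤ X := (le_max_left _ _).trans hX
  have hX1 : X₁ ≤ X := (le_max_left _ _).trans ((le_max_right _ _).trans hX)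
  have hX2 : (2 : ℝ) ≤ X := (le_max_right _ _).trans ((le_max_right _ _).trans hX)
  unfold NoZWG at hbad
  push Not at hbad
  obtain ⟨hN, χ, hp, h2, s, hs0, hs1, hsw, hz⟩ := hbad
  obtain ⟨hval, hval2, hpar⟩ := char_eqG hf σ hσ d hodd hsf hRf.1 χ hp h2
  have hsym := fun t : ℝ => gth_symmG hf σ hσ d hodd hsf hRf.1 χ hp h2 t
  have hcpar : par χ = c₁ := by
    rcases hpar with ⟨h1, he⟩ | ⟨h1, ho⟩
    · rw [par_even χ he, hc, if_pos h1]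
    · rw [par_odd χ ho, hc, if_neg (by rw [h1]; norm_num)]
  have hq1 : κ * d ≠ 1 := by
    have h3 : (2 : ℝ) < d := lt_of_le_of_lt hX2 hd1
    have h4 : 2 < d := by exact_mod_cast h3
    rcases hκ with h | h <;> subst h <;> omega
  obtain ⟨hint, hzero⟩ := vanishS κ d hκ hodd hq1 ε σ hε χ hp h2 hval hval2 hsym hδ hρ hρe hh0 X
    (by linarith) s hs0 hs1 hz
  rw [hcpar] at hint hzero
  have hdet' := hdet X hX1 d hd1 hd2 (s - 1 / 2) (by rw [abs_le]; constructor <;> linarith)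
  have hn1 : X < ((κ * d : ℕ) : ℝ) := by
    rcases hκ with h | h <;> subst h <;> push_cast <;> linarith
  have hn2 : ((κ * d : ℕ) : ℝ) ≤ 16 * X := by
    rcases hκ with h | h <;> subst h <;> push_cast <;> linarith
  exact ⟨(s - 1 / 2) * Real.log X, hwin X hX0 (κ * d) (s - 1 / 2) hn1 hn2 hsw, hint, hzero,
    hdet'⟩

theorem badH_A {θ₀ δ : ℝ} (hθ₀ : 0 < θ₀) (hδ : 0 < δ) (hδ' : δ ≤ 1 / 100)
    (hlen : θ₀ + 6 * δ < 1 / 2)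
    {ρ h : ℝ → ℝ} (hρ : Bump ρ (-(δ / 2)) (δ / 2)) (hρn : ∀ y, 0 ≤ ρ y)
    (hρe : ∀ y, ρ (-y) = ρ y) (hρ1 : ∫ y, ρ y = 1) (hh : Bump h (2 * δ) (θ₀ + 3 * δ))
    (hhn : ∀ t, 0 ≤ h t) {H : ℝ → ℝ} (hPn : ∀ x, 0 ≤ H x) (hPa : Antitone H)
    (hPz : ∀ x, θ₀ ≤ x → H x = 0) (hH : ∀ t, H (t - 2 * δ) ≤ HH h t)
    (σ : ℤ) (hσ : σ = 1 ∨ σ = -1) {A A' : ℝ} (hAA : A' ≤ 0 ∨ (0 < A' ∧ A' < A)) :
    BadH A' Odd (NoZW A σ) H θ₀ δ (fun X d v => ytil (if σ = 1 then 0 else 1) σ ρ h X d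
      (Real.log (8 * d) / (2 * Real.log X) - v)) := by
  intro ε hε0
  have hh0 : Bump h 0 (θ₀ + 3 * δ) :=
    ⟨hh.smooth, fun t ht => ⟨(by linarith [(hh.supp t ht).1]), (hh.supp t ht).2⟩⟩
  set c : ℝ := if σ = 1 then 0 else 1 with hc
  have hc01 : c = 0 ∨ c = 1 := by
    rw [hc]; split_ifs
    · exact Or.inl rfl
    · exact Or.inr rfl
  obtain ⟨X₁, hdet⟩ := det_lowerH (θ := θ₀ + 3 * δ) hδ hδ' hθ₀ (by linarith) (by linarith) hρ hρn hρ1 hh0 hhn hPn hPa hPz hH c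
    hc01 σ ε hε0
  obtain ⟨X₂, hwin⟩ := window_scale' hAA
  refine ⟨max X₂ (max X₁ 2), ?_⟩
  intro X hX d hd1 hd2 hodd hsf hbad
  have hX0 : X₂ ≤ X := (le_max_left _ _).trans hX
  have hX1 : X₁ ≤ X := (le_max_left _ _).trans ((le_max_right _ _).trans hX)
  have hX2 : (2 : ℝ) ≤ X := (le_max_right _ _).trans ((le_max_right _ _).trans hX)
  unfold NoZW at hbad
  push Not at hbad
  obtain ⟨hN, χ, hp, h2, hpar, s, hs0, hs1, hsw, hz⟩ := hbad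
  have hval := fun n : ℕ => char_eq_jr d hodd hsf σ χ hp h2 hpar n
  have hsym := fun t : ℝ => gth_symm d hodd hsf σ χ hp h2 hpar t
  have hcpar : par χ = c := by
    rcases hpar with ⟨h1, he⟩ | ⟨h1, ho⟩
    · rw [par_even χ he, hc, if_pos h1]
    · rw [par_odd χ ho, hc, if_neg (by rw [h1]; norm_num)]
  obtain ⟨hint, hzero⟩ := vanish d hodd hsf σ χ hp h2 hval hsym hδ hρ hρe hh0 X (by linarith) s
    hs0 hs1 hz
  rw [hcpar] at hint hzero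
  have hdet' := hdet X hX1 d hd1 hd2 (s - 1 / 2) (by rw [abs_le]; constructor <;> linarith)
  exact ⟨(s - 1 / 2) * Real.log X, hwin X hX0 (8 * d) (s - 1 / 2) (by push_cast; linarith)
    (by push_cast; linarith) hsw, hint, hzero, hdet'⟩

/-- all zeros, families `4 d` and `d` -/
theorem badH_fam0 {θ₀ δ : ℝ} (hθ₀ : 0 < θ₀) (hδ : 0 < δ) (hδ' : δ ≤ 1 / 100)
    (hlen : θ₀ + 6 * δ < 1 / 2)
    {ρ h : ℝ → ℝ} (hρ : Bump ρ (-(δ / 2)) (δ / 2)) (hρn : ∀ y, 0 ≤ ρ y)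
    (hρe : ∀ y, ρ (-y) = ρ y) (hρ1 : ∫ y, ρ y = 1) (hh : Bump h (2 * δ) (θ₀ + 3 * δ))
    (hhn : ∀ t, 0 ≤ h t) {H : ℝ → ℝ} (hPn : ∀ x, 0 ≤ H x) (hPa : Antitone H)
    (hPz : ∀ x, θ₀ ≤ x → H x = 0) (hH : ∀ t, H (t - 2 * δ) ≤ HH h t)
    (σ : ℤ) (hσ : σ = 1 ∨ σ = -1) {m c ε : ℤ} {κ : ℕ} (hf : Fam m c ε κ) :
    BadH 0 (Rf m c σ) (NoZeroG κ) H θ₀ δ (fun X d v => yS (if σ = 1 then 0 else 1) ε σ ρ h X d
      (Real.log (κ * d) / (2 * Real.log X) - v)) := by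
  intro ε₁ hε₁
  obtain ⟨X₀, hX₀⟩ := badH_fam (A := 0) (A' := 0) hθ₀ hδ hδ' hlen hρ hρn hρe hρ1 hh hhn hPn hPa
    hPz hH σ hσ hf (Or.inl le_rfl) ε₁ hε₁
  refine ⟨X₀, fun X hX d h1 h2 h3 h4 h5 => hX₀ X hX d h1 h2 h3 h4 fun h6 => h5 ?_⟩
  intro hN χ hp hq s hs0 hs1
  refine h6 hN χ hp hq s hs0 hs1 (mul_nonneg (abs_nonneg _) (Real.log_nonneg ?_))
  exact_mod_cast Nat.one_le_iff_ne_zero.2 hN.out

/-- all zeros, family `8 d` -/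
theorem badH_A0 {θ₀ δ : ℝ} (hθ₀ : 0 < θ₀) (hδ : 0 < δ) (hδ' : δ ≤ 1 / 100)
    (hlen : θ₀ + 6 * δ < 1 / 2)
    {ρ h : ℝ → ℝ} (hρ : Bump ρ (-(δ / 2)) (δ / 2)) (hρn : ∀ y, 0 ≤ ρ y)
    (hρe : ∀ y, ρ (-y) = ρ y) (hρ1 : ∫ y, ρ y = 1) (hh : Bump h (2 * δ) (θ₀ + 3 * δ))
    (hhn : ∀ t, 0 ≤ h t) {H : ℝ → ℝ} (hPn : ∀ x, 0 ≤ H x) (hPa : Antitone H)
    (hPz : ∀ x, θ₀ ≤ x → H x = 0) (hH : ∀ t, H (t - 2 * δ) ≤ HH h t)
    (σ : ℤ) (hσ : σ = 1 ∨ σ = -1) :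
    BadH 0 Odd (NoZero σ) H θ₀ δ (fun X d v => ytil (if σ = 1 then 0 else 1) σ ρ h X d
      (Real.log (8 * d) / (2 * Real.log X) - v)) := by
  intro ε₁ hε₁
  obtain ⟨X₀, hX₀⟩ := badH_A (A := 0) (A' := 0) hθ₀ hδ hδ' hlen hρ hρn hρe hρ1 hh hhn hPn hPa
    hPz hH σ hσ (Or.inl le_rfl) ε₁ hε₁
  refine ⟨X₀, fun X hX d h1 h2 h3 h4 h5 => hX₀ X hX d h1 h2 h3 h4 fun h6 => h5 ?_⟩
  intro hN χ hp hq hpar s hs0 hs1
  refine h6 hN χ hp hq hpar s hs0 hs1 (mul_nonneg (abs_nonneg _) (Real.log_nonneg ?_))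
  exact_mod_cast Nat.one_le_iff_ne_zero.2 hN.out

end Pool.Agent.MP0016c7.PC
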