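import Mathlib
import Pool.Agent.Lib.MP_0016c7_nt.PC.Defs2

set_option autoImplicit false

/-!
The window certificate: the lower bound for the deterministic part.
-/

open Finset MeasureTheory Filter Topology
open scoped Real ContDiff

namespace Pool.Agent.MP0016c7.PC

open Pool.Agent.MP0016c7.Rz

/-- The slice points of the window certificate. -/
noncomputable def wsC (w₁ θ₀ : ℝ) (k : ℕ) : ℝ := if k = 0 then w₁ else θ₀

/-- The coefficients of the slices of the window certificate. -/
noncomputable def csC (k : ℕ) : ℝ := if k = 0 then 0 else 1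

/-- The numerator of the lower bound. -/
noncomputable def NNc (w₁ θ₀ a : ℝ) : ℝ :=
  Real.exp (a * θ₀) * (a * (1 / 2 + θ₀) - 1) - Real.exp (a * w₁) * (a * (1 / 2 + w₁) - 1)

theorem HJ_C (w₁ θ₀ x : ℝ) : HJ (wsC w₁ θ₀) csC 2 x = Hid θ₀ x - Hid w₁ x := by
  unfold HJ
  rw [Finset.sum_range_succ, Finset.sum_range_one]
  unfold HS wp wsC csC
  simp

private lemma Hid_eq {θ₀ x : ℝ} (h : 0 < θ₀) : Hid θ₀ x =
    (θ₀ - min (max x 0) θ₀) / 2 + (θ₀ ^ 2 - (min (max x 0) θ₀) ^ 2) / 2 := by
  unfold Hid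
  split_ifs with h1
  · rw [min_eq_right (h1.trans (le_max_left _ _))]
    ring
  · push Not at h1
    rw [min_eq_left (max_le h1.le h.le)]

theorem Hid_cont' {θ₀ : ℝ} (h : 0 < θ₀) : Continuous (Hid θ₀) := by
  have : Hid θ₀ = fun x => (θ₀ - min (max x 0) θ₀) / 2 + (θ₀ ^ 2 - (min (max x 0) θ₀) ^ 2) / 2 :=
    funext fun x => Hid_eq h
  rw [this]
  fun_prop

/-- The closed form of `PP2`. -/
private lemma PP2_eq {θ V a : ℝ} (hθ : 0 < θ) (ha : 0 < a) :
    (∫ v in V..(V + θ), Real.cosh (a * v) * Hid θ (v - V)) +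
      (∫ v in (0 : ℝ)..V, Real.cosh (a * v) * Hid θ 0) =
      (a * (1 / 2 + θ) * Real.cosh (a * (V + θ)) -
      a / 2 * Real.cosh (a * V) - Real.sinh (a * (V + θ)) + Real.sinh (a * V)) / a ^ 3 := by
  have hH0 : Hid θ 0 = θ / 2 + θ ^ 2 / 2 := by
    unfold Hid
    rw [if_neg (by linarith)]
    simp
  have hsinh : ∀ v : ℝ, HasDerivAt (fun v => Real.sinh (a * v)) (Real.cosh (a * v) * a) v := by
    intro v
    have := ((hasDerivAt_id v).const_mul a).sinh
    simpa using this
  have hcosh : ∀ v : ℝ, HasDerivAt (fun v => Real.cosh (a * v)) (Real.sinh (a * v) * a) v := by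
    intro v
    have := ((hasDerivAt_id v).const_mul a).cosh
    simpa using this
  have i1 : ∫ v in (0 : ℝ)..V, Real.cosh (a * v) * Hid θ 0 =
      Real.sinh (a * V) / a * Hid θ 0 := by
    rw [intervalIntegral.integral_mul_const]
    congr 1
    have h1 : ∀ v ∈ Set.uIcc 0 V, HasDerivAt (fun v => Real.sinh (a * v) / a)
        (Real.cosh (a * v)) v := by
      intro v _
      have := (hsinh v).div_const a
      rwa [mul_div_cancel_right₀ _ ha.ne'] at this
    rw [intervalIntegral.integral_eq_sub_of_hasDerivAt h1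
      (Continuous.intervalIntegrable (by fun_prop) _ _)]
    simp
  set P : ℝ → ℝ := fun v => (θ - (v - V)) / 2 + (θ ^ 2 - (v - V) ^ 2) / 2 with hP
  have i2 : ∫ v in V..(V + θ), Real.cosh (a * v) * Hid θ (v - V) =
      ∫ v in V..(V + θ), Real.cosh (a * v) * P v := by
    refine intervalIntegral.integral_congr fun v hv => ?_
    rw [Set.uIcc_of_le (by linarith)] at hv
    congr 1
    unfold Hid
    have h1 : max (v - V) 0 = v - V := max_eq_left (by linarith [hv.1])
    split_ifs with h2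
    · have h3 : v - V = θ := le_antisymm (by linarith [hv.2]) h2
      rw [hP]
      simp only
      rw [h3]
      ring
    · rw [h1, hP]
  have hPd : ∀ v : ℝ, HasDerivAt P (-(1 / 2 + (v - V))) v := by
    intro v
    have h1 : HasDerivAt (fun v : ℝ => v - V) 1 v := (hasDerivAt_id v).sub_const V
    have h2 : HasDerivAt (fun v : ℝ => (θ - (v - V)) / 2) (-1 / 2) v := by
      simpa using (h1.const_sub θ).div_const 2
    have h3 : HasDerivAt (fun v : ℝ => (θ ^ 2 - (v - V) ^ 2) / 2) (-(2 * (v - V)) / 2) v := by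
      have := ((h1.pow 2).const_sub (θ ^ 2)).div_const 2
      simpa using this
    have h4 := h2.add h3
    have e : -(1 / 2 + (v - V)) = -1 / 2 + -(2 * (v - V)) / 2 := by ring
    rw [e]
    exact h4
  have i3 : ∫ v in V..(V + θ), Real.cosh (a * v) * P v =
      (Real.sinh (a * (V + θ)) / a * P (V + θ) + Real.cosh (a * (V + θ)) / a ^ 2 *
        (1 / 2 + (V + θ - V)) - Real.sinh (a * (V + θ)) / a ^ 3) -
      (Real.sinh (a * V) / a * P V + Real.cosh (a * V) / a ^ 2 * (1 / 2 + (V - V)) -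
        Real.sinh (a * V) / a ^ 3) := by
    have h1 : ∀ v ∈ Set.uIcc V (V + θ), HasDerivAt (fun v => Real.sinh (a * v) / a * P v +
        Real.cosh (a * v) / a ^ 2 * (1 / 2 + (v - V)) - Real.sinh (a * v) / a ^ 3)
        (Real.cosh (a * v) * P v) v := by
      intro v _
      have k1 := ((hsinh v).div_const a).mul (hPd v)
      have k2 : HasDerivAt (fun v : ℝ => 1 / 2 + (v - V)) 1 v := by
        simpa using ((hasDerivAt_id v).sub_const V).const_add (1 / 2)
      have k3 := ((hcosh v).div_const (a ^ 2)).mul k2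
      have k4 := (hsinh v).div_const (a ^ 3)
      exact ((k1.add k3).sub k4).congr_deriv (by field_simp; ring)
    rw [intervalIntegral.integral_eq_sub_of_hasDerivAt h1
      (Continuous.intervalIntegrable (by rw [hP]; fun_prop) _ _)]
  rw [i1, i2, i3, hH0, hP]
  simp only
  field_simp
  ring

/-- The closed form of the deterministic part. -/
private lemma PPH_eq {w₁ θ V a : ℝ} (hw : 0 < w₁) (hwθ : w₁ < θ) (ha : 0 < a) :
    PPH (HJ (wsC w₁ θ) csC 2) θ V (fun _ => HJ (wsC w₁ θ) csC 2 0) a =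
      (a * (1 / 2 + θ) * Real.cosh (a * (V + θ)) - Real.sinh (a * (V + θ)) -
        (a * (1 / 2 + w₁) * Real.cosh (a * (V + w₁)) - Real.sinh (a * (V + w₁)))) / a ^ 3 := by
  have hθ : 0 < θ := hw.trans hwθ
  unfold PPH
  simp only [HJ_C]
  have c1 : Continuous (fun v : ℝ => Real.cosh (a * v) * Hid θ (v - V)) :=
    Continuous.mul (by fun_prop) ((Hid_cont' hθ).comp (by fun_prop))
  have c2 : Continuous (fun v : ℝ => Real.cosh (a * v) * Hid w₁ (v - V)) :=
    Continuous.mul (by fun_prop) ((Hid_cont' hw).comp (by fun_prop))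
  have e1 : ∫ v in V..(V + θ), Real.cosh (a * v) * (Hid θ (v - V) - Hid w₁ (v - V)) =
      (∫ v in V..(V + θ), Real.cosh (a * v) * Hid θ (v - V)) -
        ∫ v in V..(V + w₁), Real.cosh (a * v) * Hid w₁ (v - V) := by
    have e2 : (fun v : ℝ => Real.cosh (a * v) * (Hid θ (v - V) - Hid w₁ (v - V))) =
        fun v => Real.cosh (a * v) * Hid θ (v - V) - Real.cosh (a * v) * Hid w₁ (v - V) := by
      funext v
      ring
    rw [e2, intervalIntegral.integral_sub (c1.intervalIntegrable _ _)
      (c2.intervalIntegrable _ _)]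
    congr 1
    rw [← intervalIntegral.integral_add_adjacent_intervals
      (c2.intervalIntegrable V (V + w₁)) (c2.intervalIntegrable (V + w₁) (V + θ))]
    have e3 : ∫ v in (V + w₁)..(V + θ), Real.cosh (a * v) * Hid w₁ (v - V) = 0 := by
      have e4 : ∫ v in (V + w₁)..(V + θ), Real.cosh (a * v) * Hid w₁ (v - V) =
          ∫ v in (V + w₁)..(V + θ), (0 : ℝ) := by
        refine intervalIntegral.integral_congr fun v hv => ?_
        rw [Set.uIcc_of_le (by linarith)] at hv
        have : Hid w₁ (v - V) = 0 := by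
          unfold Hid
          rw [if_pos (by linarith [hv.1])]
        simp only [this, mul_zero]
      rw [e4]
      simp
    rw [e3, add_zero]
  have e5 : ∫ v in (0 : ℝ)..V, Real.cosh (a * v) * (Hid θ 0 - Hid w₁ 0) =
      (∫ v in (0 : ℝ)..V, Real.cosh (a * v) * Hid θ 0) -
        ∫ v in (0 : ℝ)..V, Real.cosh (a * v) * Hid w₁ 0 := by
    have e2 : (fun v : ℝ => Real.cosh (a * v) * (Hid θ 0 - Hid w₁ 0)) =
        fun v => Real.cosh (a * v) * Hid θ 0 - Real.cosh (a * v) * Hid w₁ 0 := by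
      funext v
      ring
    rw [e2, intervalIntegral.integral_sub (Continuous.intervalIntegrable (by fun_prop) _ _)
      (Continuous.intervalIntegrable (by fun_prop) _ _)]
  have h1 := PP2_eq (V := V) hθ ha
  have h2 := PP2_eq (V := V) hw ha
  rw [e1, e5]
  calc _ = ((∫ v in V..(V + θ), Real.cosh (a * v) * Hid θ (v - V)) +
      (∫ v in (0 : ℝ)..V, Real.cosh (a * v) * Hid θ 0)) -
      ((∫ v in V..(V + w₁), Real.cosh (a * v) * Hid w₁ (v - V)) +
      (∫ v in (0 : ℝ)..V, Real.cosh (a * v) * Hid w₁ 0)) := by ring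
    _ = _ := by
      rw [h1, h2]
      ring

/-- The lower bound for the deterministic part. -/
theorem PPH_ge {w₁ θ V a : ℝ} (hw : 0 < w₁) (hwθ : w₁ < θ) (ha : 0 < a) :
    Real.sinh (a * V) * (NNc w₁ θ a / a ^ 3) ≤
      PPH (HJ (wsC w₁ θ) csC 2) θ V (fun _ => HJ (wsC w₁ θ) csC 2 0) a := by
  rw [PPH_eq hw hwθ ha, mul_div_assoc']
  refine div_le_div_of_nonneg_right ?_ (by positivity)
  unfold NNc
  have e1 : ∀ x : ℝ, Real.cosh (a * (V + x)) = Real.sinh (a * V) * Real.exp (a * x) +
      Real.exp (-(a * V)) * Real.cosh (a * x) := by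
    intro x
    rw [mul_add, Real.cosh_add, ← Real.cosh_add_sinh (a * x), ← Real.cosh_sub_sinh (a * V)]
    ring
  have e2 : ∀ x : ℝ, Real.sinh (a * (V + x)) = Real.sinh (a * V) * Real.exp (a * x) +
      Real.exp (-(a * V)) * Real.sinh (a * x) := by
    intro x
    rw [mul_add, Real.sinh_add, ← Real.cosh_add_sinh (a * x), ← Real.cosh_sub_sinh (a * V)]
    ring
  have hmono : a * (1 / 2 + w₁) * Real.cosh (a * w₁) - Real.sinh (a * w₁) ≤
      a * (1 / 2 + θ) * Real.cosh (a * θ) - Real.sinh (a * θ) := by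
    have hder : ∀ x : ℝ, HasDerivAt (fun x => a * (1 / 2 + x) * Real.cosh (a * x) -
        Real.sinh (a * x)) (a ^ 2 * (1 / 2 + x) * Real.sinh (a * x)) x := by
      intro x
      have k1 : HasDerivAt (fun x : ℝ => a * (1 / 2 + x)) a x := by
        have h := ((hasDerivAt_id x).const_add (1 / 2)).const_mul a
        rwa [mul_one] at h
      have k2 : HasDerivAt (fun x => Real.cosh (a * x)) (Real.sinh (a * x) * a) x := by
        have := ((hasDerivAt_id x).const_mul a).cosh
        simpa using this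
      have k3 : HasDerivAt (fun x => Real.sinh (a * x)) (Real.cosh (a * x) * a) x := by
        have := ((hasDerivAt_id x).const_mul a).sinh
        simpa using this
      exact ((k1.mul k2).sub k3).congr_deriv (by ring)
    have hm : MonotoneOn (fun x => a * (1 / 2 + x) * Real.cosh (a * x) -
        Real.sinh (a * x)) (Set.Ici 0) := by
      refine monotoneOn_of_deriv_nonneg (convex_Ici _) ?_ ?_ ?_
      · intro x _
        exact (hder x).continuousAt.continuousWithinAt
      · intro x _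
        exact (hder x).differentiableAt.differentiableWithinAt
      · intro x hx
        rw [interior_Ici] at hx
        have hx' : (0 : ℝ) < x := hx
        rw [(hder x).deriv]
        have : 0 ≤ Real.sinh (a * x) := Real.sinh_nonneg_iff.mpr (by positivity)
        positivity
    exact hm (show (0 : ℝ) ≤ w₁ from hw.le) (show (0 : ℝ) ≤ θ from (hw.trans hwθ).le) hwθ.le
  rw [e1, e1, e2, e2]
  have h0 : 0 < Real.exp (-(a * V)) := Real.exp_pos _
  nlinarith [mul_le_mul_of_nonneg_left hmono h0.le]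

/-- The integral of `(1/2 + x) e^(a x)`. -/
private lemma int_ex {w₁ θ a : ℝ} (ha : 0 < a) :
    ∫ x in w₁..θ, (1 / 2 + x) * Real.exp (a * x) = NNc w₁ θ a / a ^ 2 := by
  have h1 : ∀ x ∈ Set.uIcc w₁ θ, HasDerivAt
      (fun x => Real.exp (a * x) * (a * (1 / 2 + x) - 1) / a ^ 2)
      ((1 / 2 + x) * Real.exp (a * x)) x := by
    intro x _
    have k1 : HasDerivAt (fun x => Real.exp (a * x)) (Real.exp (a * x) * a) x := by
      have := ((hasDerivAt_id x).const_mul a).exp
      simpa using this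
    have k2 : HasDerivAt (fun x : ℝ => a * (1 / 2 + x) - 1) a x := by
      have h := (((hasDerivAt_id x).const_add (1 / 2)).const_mul a).sub_const 1
      rwa [mul_one] at h
    exact ((k1.mul k2).div_const (a ^ 2)).congr_deriv (by field_simp; ring)
  rw [intervalIntegral.integral_eq_sub_of_hasDerivAt h1
    (Continuous.intervalIntegrable (by fun_prop) _ _)]
  unfold NNc
  ring

/-- The integral of `x (1/2 + x) e^(b x)`. -/
private lemma int_xex {w₁ θ b : ℝ} (hb : 0 < b) :
    ∫ x in w₁..θ, (b * x - 1) * ((1 / 2 + x) * Real.exp (b * x)) =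
      (Real.exp (b * θ) * (b ^ 2 * θ ^ 2 + b ^ 2 * θ / 2 - 3 * b * θ - b + 3) -
        Real.exp (b * w₁) * (b ^ 2 * w₁ ^ 2 + b ^ 2 * w₁ / 2 - 3 * b * w₁ - b + 3)) / b ^ 2 := by
  have h1 : ∀ x ∈ Set.uIcc w₁ θ, HasDerivAt
      (fun x => Real.exp (b * x) * (b ^ 2 * x ^ 2 + b ^ 2 * x / 2 - 3 * b * x - b + 3) / b ^ 2)
      ((b * x - 1) * ((1 / 2 + x) * Real.exp (b * x))) x := by
    intro x _
    have k1 : HasDerivAt (fun x => Real.exp (b * x)) (Real.exp (b * x) * b) x := by
      have := ((hasDerivAt_id x).const_mul b).exp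
      simpa using this
    have k2 : HasDerivAt (fun x : ℝ => b ^ 2 * x ^ 2 + b ^ 2 * x / 2 - 3 * b * x - b + 3)
        (b ^ 2 * (2 * x) + b ^ 2 / 2 - 3 * b) x := by
      have k3 : HasDerivAt (fun x : ℝ => b ^ 2 * x ^ 2) (b ^ 2 * (2 * x)) x := by
        simpa using (hasDerivAt_pow 2 x).const_mul (b ^ 2)
      have k4 : HasDerivAt (fun x : ℝ => b ^ 2 * x / 2) (b ^ 2 / 2) x := by
        simpa using ((hasDerivAt_id x).const_mul (b ^ 2)).div_const 2
      have k5 : HasDerivAt (fun x : ℝ => 3 * b * x) (3 * b) x := by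
        simpa using (hasDerivAt_id x).const_mul (3 * b)
      simpa using (((k3.add k4).sub k5).sub_const b).add_const 3
    exact ((k1.mul k2).div_const (b ^ 2)).congr_deriv (by field_simp; ring)
  rw [intervalIntegral.integral_eq_sub_of_hasDerivAt h1
    (Continuous.intervalIntegrable (by fun_prop) _ _)]
  ring

/-- The condition for the monotonicity of the lower bound. -/
def MonC (w₁ θ₀ b : ℝ) : Prop :=
  Real.exp (b * w₁) * (b ^ 2 * w₁ ^ 2 + b ^ 2 * w₁ / 2 - 3 * b * w₁ - b + 3) ≤
    Real.exp (b * θ₀) * (b ^ 2 * θ₀ ^ 2 + b ^ 2 * θ₀ / 2 - 3 * b * θ₀ - b + 3)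

theorem NNc_mono {w₁ θ₀ a b : ℝ} (hw : 0 < w₁) (hwθ : w₁ < θ₀) (hb : 0 < b) (hab : b ≤ a)
    (hm : MonC w₁ θ₀ b) : NNc w₁ θ₀ b / b ^ 3 ≤ NNc w₁ θ₀ a / a ^ 3 := by
  have ha : 0 < a := hb.trans_le hab
  have h1 : 0 ≤ ∫ x in w₁..θ₀, (b * x - 1) * ((1 / 2 + x) * Real.exp (b * x)) := by
    rw [int_xex hb]
    refine div_nonneg ?_ (by positivity)
    unfold MonC at hm
    linarith
  have c1 : Continuous (fun x : ℝ => (b * x - 1) * ((1 / 2 + x) * Real.exp (b * x))) := by fun_prop
  have c2 : Continuous (fun x : ℝ => (1 / 2 + x) * Real.exp (b * x)) := by fun_prop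
  have c3 : Continuous (fun x : ℝ => (1 / 2 + x) * Real.exp (a * x)) := by fun_prop
  have h2 : a / b * (∫ x in w₁..θ₀, (1 / 2 + x) * Real.exp (b * x)) ≤
      ∫ x in w₁..θ₀, (1 / 2 + x) * Real.exp (a * x) := by
    have h3 : ∫ x in w₁..θ₀, (a / b * ((1 / 2 + x) * Real.exp (b * x)) +
        (a - b) / b * ((b * x - 1) * ((1 / 2 + x) * Real.exp (b * x)))) ≤
        ∫ x in w₁..θ₀, (1 / 2 + x) * Real.exp (a * x) := by
      refine intervalIntegral.integral_mono_on hwθ.le
        (((c2.const_mul _).add (c1.const_mul _)).intervalIntegrable _ _)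
        (c3.intervalIntegrable _ _) fun x hx => ?_
      have hx0 : 0 < x := hw.trans_le hx.1
      have h4 : Real.exp (a * x) = Real.exp (b * x) * Real.exp ((a - b) * x) := by
        rw [← Real.exp_add]
        congr 1
        ring
      have h5 : 1 + (a - b) * x ≤ Real.exp ((a - b) * x) := by
        have := Real.add_one_le_exp ((a - b) * x)
        linarith
      rw [h4]
      have h6 : 0 ≤ (1 / 2 + x) * Real.exp (b * x) := by positivity
      have e : a / b * ((1 / 2 + x) * Real.exp (b * x)) +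
          (a - b) / b * ((b * x - 1) * ((1 / 2 + x) * Real.exp (b * x))) =
          (1 / 2 + x) * Real.exp (b * x) * (1 + (a - b) * x) := by
        field_simp
        ring
      rw [e]
      calc (1 / 2 + x) * Real.exp (b * x) * (1 + (a - b) * x) ≤
          (1 / 2 + x) * Real.exp (b * x) * Real.exp ((a - b) * x) :=
            mul_le_mul_of_nonneg_left h5 h6
        _ = _ := by ring
    rw [intervalIntegral.integral_add ((c2.const_mul _).intervalIntegrable _ _)
      ((c1.const_mul _).intervalIntegrable _ _), intervalIntegral.integral_const_mul,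
      intervalIntegral.integral_const_mul] at h3
    have h7 : 0 ≤ (a - b) / b * ∫ x in w₁..θ₀, (b * x - 1) * ((1 / 2 + x) * Real.exp (b * x)) :=
      mul_nonneg (div_nonneg (by linarith) hb.le) h1
    linarith
  rw [int_ex hb, int_ex ha] at h2
  rw [div_le_div_iff₀ (by positivity) (by positivity)]
  rw [mul_div_assoc', div_le_div_iff₀ (by positivity) (by positivity)] at h2
  have e1 : a / b * NNc w₁ θ₀ b * a ^ 2 = NNc w₁ θ₀ b * a ^ 3 / b := by
    field_simp
  rw [e1, div_le_iff₀ hb] at h2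
  calc NNc w₁ θ₀ b * a ^ 3 ≤ NNc w₁ θ₀ a * b ^ 2 * b := h2
    _ = NNc w₁ θ₀ a * b ^ 3 := by ring

end Pool.Agent.MP0016c7.PC
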