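import Mathlib
import Pool.Agent.Lib.MP_0016c7_nt.PC.CwA

set_option autoImplicit false

/-!
The window certificate: the main inequality.
-/

open Finset MeasureTheory Filter Topology
open scoped Real ContDiff

namespace Pool.Agent.MP0016c7.PC

open Pool.Agent.MP0016c7.Rz

private lemma cosh_sinh {a b v V : ℝ} (hab : b ≤ a) (hv : 0 ≤ v) (hvV : v ≤ V) :
    Real.cosh (a * v) * Real.sinh (b * V) ≤ Real.cosh (b * v) * Real.sinh (a * V) := by
  have h1 : ∀ x y : ℝ, Real.cosh x * Real.sinh y = (Real.sinh (y + x) + Real.sinh (y - x)) / 2 := by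
    intro x y
    rw [Real.sinh_add, Real.sinh_sub]
    ring
  rw [h1, h1]
  have h2 : Real.sinh (b * V + a * v) ≤ Real.sinh (a * V + b * v) :=
    Real.sinh_le_sinh.mpr (by nlinarith)
  have h3 : Real.sinh (b * V - a * v) ≤ Real.sinh (a * V - b * v) :=
    Real.sinh_le_sinh.mpr (by nlinarith)
  linarith

/-- Cauchy-Schwarz with a weight -/
private lemma w_cs {V : ℝ} (hV : 0 < V) {w c f : ℝ → ℝ} (hw : Continuous w) (hwp : ∀ v, 0 < w v)
    (hc : Continuous c) (hf : ContinuousOn f (Set.Icc 0 V)) :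
    (∫ v in (0 : ℝ)..V, c v * f v) ^ 2 ≤
      (∫ v in (0 : ℝ)..V, c v ^ 2 / w v) * ∫ v in (0 : ℝ)..V, w v * f v ^ 2 := by
  set J := ∫ v in (0 : ℝ)..V, c v * f v with hJ
  set K := ∫ v in (0 : ℝ)..V, c v ^ 2 / w v with hK
  set B := ∫ v in (0 : ℝ)..V, w v * f v ^ 2 with hB
  have hii : ∀ {g : ℝ → ℝ}, ContinuousOn g (Set.Icc 0 V) → IntervalIntegrable g volume 0 V :=
    fun h => h.intervalIntegrable_of_Icc hV.le
  have c1 : ContinuousOn (fun v => c v ^ 2 / w v) (Set.Icc 0 V) :=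
    ((hc.pow 2).div hw fun v => (hwp v).ne').continuousOn
  have c2 : ContinuousOn (fun v => w v * f v ^ 2) (Set.Icc 0 V) := hw.continuousOn.mul (hf.pow 2)
  have c3 : ContinuousOn (fun v => c v * f v) (Set.Icc 0 V) := hc.continuousOn.mul hf
  have h0 : ∀ t : ℝ, 0 ≤ B - 2 * t * J + t ^ 2 * K := by
    intro t
    have h1 : 0 ≤ ∫ v in (0 : ℝ)..V, (w v * f v - t * c v) ^ 2 / w v :=
      intervalIntegral.integral_nonneg hV.le fun v _ => div_nonneg (sq_nonneg _) (hwp v).le
    have e : (fun v => (w v * f v - t * c v) ^ 2 / w v) = fun v =>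
        w v * f v ^ 2 - 2 * t * (c v * f v) + t ^ 2 * (c v ^ 2 / w v) := by
      funext v
      have := (hwp v).ne'
      field_simp
      ring
    rw [e, intervalIntegral.integral_add ((hii c2).sub ((hii c3).const_mul _))
      ((hii c1).const_mul _), intervalIntegral.integral_sub (hii c2) ((hii c3).const_mul _),
      intervalIntegral.integral_const_mul, intervalIntegral.integral_const_mul] at h1
    exact h1
  have hK0 : 0 ≤ K := intervalIntegral.integral_nonneg hV.le fun v _ =>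
    div_nonneg (sq_nonneg _) (hwp v).le
  rcases hK0.eq_or_lt with hK1 | hK1
  · rw [← hK1]
    have h1 := h0
    rw [← hK1] at h1
    simp only [mul_zero, add_zero] at h1
    have hJ0 : J = 0 := by
      by_contra hne
      have h2 := h1 ((B + 1) / (2 * J))
      have h3 : 2 * ((B + 1) / (2 * J)) * J = B + 1 := by field_simp
      linarith
    rw [hJ0]
    simp
  · have h1 := h0 (J / K)
    have h2 : B - 2 * (J / K) * J + (J / K) ^ 2 * K = (K * B - J ^ 2) / K := by
      field_simp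
      ring
    rw [h2] at h1
    have h3 : 0 ≤ K * B - J ^ 2 := by
      by_contra hcon
      push Not at hcon
      have := div_neg_of_neg_of_pos hcon hK1
      linarith
    linarith

/-- The weight integral. -/
private lemma int_w {b V : ℝ} (hb : 0 < b) (_hV : 0 ≤ V) :
    ∫ v in (0 : ℝ)..V, Real.cosh (b * v) ^ 2 * Real.exp (-(3 / 2 * b * v)) ≤
      Real.exp (b * V / 2) / (2 * b) := by
  have e1 : (fun v : ℝ => Real.cosh (b * v) ^ 2 * Real.exp (-(3 / 2 * b * v))) = fun v =>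
      1 / 4 * (Real.exp (1 / 2 * b * v) + 2 * Real.exp (-(3 / 2 * b * v)) +
        Real.exp (-(7 / 2 * b * v))) := by
    funext v
    have h1 : Real.exp (1 / 2 * b * v) = Real.exp (b * v) ^ 2 * Real.exp (-(3 / 2 * b * v)) := by
      rw [← Real.exp_nat_mul, ← Real.exp_add]
      congr 1
      push_cast
      ring
    have h2 : Real.exp (-(7 / 2 * b * v)) =
        Real.exp (-(b * v)) ^ 2 * Real.exp (-(3 / 2 * b * v)) := by
      rw [← Real.exp_nat_mul, ← Real.exp_add]
      congr 1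
      push_cast
      ring
    have h3 : Real.exp (b * v) * Real.exp (-(b * v)) = 1 := by
      rw [← Real.exp_add]
      simp
    rw [Real.cosh_eq, h1, h2]
    linear_combination (1 / 2 * Real.exp (-(3 / 2 * b * v))) * h3
  rw [e1]
  have hd : ∀ v ∈ Set.uIcc 0 V, HasDerivAt (fun v : ℝ =>
      1 / 4 * (Real.exp (1 / 2 * b * v) * (2 / b) - 2 * Real.exp (-(3 / 2 * b * v)) * (2 / (3 * b)) -
        Real.exp (-(7 / 2 * b * v)) * (2 / (7 * b))))
      (1 / 4 * (Real.exp (1 / 2 * b * v) + 2 * Real.exp (-(3 / 2 * b * v)) +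
        Real.exp (-(7 / 2 * b * v)))) v := by
    intro v _
    have k0 : ∀ c : ℝ, HasDerivAt (fun v : ℝ => Real.exp (c * b * v))
        (Real.exp (c * b * v) * (c * b)) v := by
      intro c
      have := ((hasDerivAt_id v).const_mul (c * b)).exp
      simpa using this
    have k1 := k0 (1 / 2)
    have k2 : HasDerivAt (fun v : ℝ => Real.exp (-(3 / 2 * b * v)))
        (Real.exp (-(3 / 2 * b * v)) * (-(3 / 2) * b)) v := by
      have := k0 (-(3 / 2))
      have e : (fun v : ℝ => Real.exp (-(3 / 2) * b * v)) =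
          fun v => Real.exp (-(3 / 2 * b * v)) := by
        funext v
        congr 1
        ring
      rw [e] at this
      convert this using 2
      congr 1
      ring
    have k3 : HasDerivAt (fun v : ℝ => Real.exp (-(7 / 2 * b * v)))
        (Real.exp (-(7 / 2 * b * v)) * (-(7 / 2) * b)) v := by
      have := k0 (-(7 / 2))
      have e : (fun v : ℝ => Real.exp (-(7 / 2) * b * v)) =
          fun v => Real.exp (-(7 / 2 * b * v)) := by
        funext v
        congr 1
        ring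
      rw [e] at this
      convert this using 2
      congr 1
      ring
    exact ((((k1.mul_const (2 / b)).sub ((k2.const_mul 2).mul_const (2 / (3 * b)))).sub
      (k3.mul_const (2 / (7 * b)))).const_mul (1 / 4)).congr_deriv (by field_simp; ring)
  rw [intervalIntegral.integral_eq_sub_of_hasDerivAt hd
    (Continuous.intervalIntegrable (by fun_prop) _ _)]
  simp only [mul_zero, neg_zero, Real.exp_zero]
  have h1 : 0 < Real.exp (-(3 / 2 * b * V)) := Real.exp_pos _
  have h2 : 0 < Real.exp (-(7 / 2 * b * V)) := Real.exp_pos _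
  have e2 : Real.exp (1 / 2 * b * V) = Real.exp (b * V / 2) := by
    congr 1
    ring
  rw [e2]
  have e3 : Real.exp (b * V / 2) / (2 * b) - (1 / 4 * (Real.exp (b * V / 2) * (2 / b) -
      2 * Real.exp (-(3 / 2 * b * V)) * (2 / (3 * b)) - Real.exp (-(7 / 2 * b * V)) *
        (2 / (7 * b))) - 1 / 4 * (1 * (2 / b) - 2 * 1 * (2 / (3 * b)) - 1 * (2 / (7 * b)))) =
      (Real.exp (-(3 / 2 * b * V)) / 3 + Real.exp (-(7 / 2 * b * V)) / 14 + 2 / 21) / b := by
    field_simp
    ring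
  have h3 : 0 ≤ (Real.exp (-(3 / 2 * b * V)) / 3 + Real.exp (-(7 / 2 * b * V)) / 14 + 2 / 21) / b :=
    by positivity
  linarith

/-- The scale of the weight. -/
noncomputable def gC (w₁ θ₀ b V μ : ℝ) : ℝ :=
  (1 + μ) * Real.exp (b * V / 2) / (2 * b * Real.sinh (b * V) ^ 2 * (NNc w₁ θ₀ b / b ^ 3) ^ 2)

/-- The weight of the window certificate. -/
noncomputable def wC (w₁ θ₀ b V μ v : ℝ) : ℝ := gC w₁ θ₀ b V μ * Real.exp (3 / 2 * b * v)

theorem gC_pos {w₁ θ₀ b V μ : ℝ} (hb : 0 < b) (hV : 0 < V) (hμ : 0 < μ)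
    (hN : 0 < NNc w₁ θ₀ b) : 0 < gC w₁ θ₀ b V μ := by
  unfold gC
  have hS : 0 < Real.sinh (b * V) := Real.sinh_pos_iff.mpr (by positivity)
  have := Real.exp_pos (b * V / 2)
  positivity

theorem wC_cont (w₁ θ₀ b V μ : ℝ) : Continuous (wC w₁ θ₀ b V μ) := by
  unfold wC
  fun_prop

theorem cw_main {w₁ θ₀ b V μ : ℝ} (hw : 0 < w₁) (hwθ : w₁ < θ₀) (hb : 0 < b) (hV : 0 < V)
    (hμ : 0 < μ) (hm : MonC w₁ θ₀ b) (hN : 0 < NNc w₁ θ₀ b) (a : ℝ) (ha : b ≤ |a|)
    (f : ℝ → ℝ) (hf : ContinuousOn f (Set.Icc 0 V)) :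
    (1 + μ) * (∫ v in (0 : ℝ)..V, Real.cosh (a * v) * f v) ^ 2 ≤
      (∫ v in (0 : ℝ)..V, wC w₁ θ₀ b V μ v * f v ^ 2) *
        PPH (HJ (wsC w₁ θ₀) csC 2) θ₀ V (fun _ => HJ (wsC w₁ θ₀) csC 2 0) a ^ 2 := by
  set Q := NNc w₁ θ₀ b / b ^ 3 with hQ
  have hQp : 0 < Q := by positivity
  have hS : 0 < Real.sinh (b * V) := Real.sinh_pos_iff.mpr (by positivity)
  set g := gC w₁ θ₀ b V μ with hg
  have hgp : 0 < g := gC_pos hb hV hμ hN
  have hg' : g = (1 + μ) * Real.exp (b * V / 2) / (2 * b * Real.sinh (b * V) ^ 2 * Q ^ 2) := by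
    rw [hg, hQ]
    rfl
  clear_value g
  have hcont : Continuous (fun v : ℝ => g * Real.exp (3 / 2 * b * v)) := by fun_prop
  have hpos : ∀ v : ℝ, 0 < g * Real.exp (3 / 2 * b * v) := fun v => mul_pos hgp (Real.exp_pos _)
  have ew : (fun v => wC w₁ θ₀ b V μ v * f v ^ 2) =
      fun v => g * Real.exp (3 / 2 * b * v) * f v ^ 2 := by
    funext v
    unfold wC
    rw [← hg]
  rw [ew]
  -- reduction to positive a
  have hred : ∀ a : ℝ, b ≤ a → (1 + μ) * (∫ v in (0 : ℝ)..V, Real.cosh (a * v) * f v) ^ 2 ≤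
      (∫ v in (0 : ℝ)..V, g * Real.exp (3 / 2 * b * v) * f v ^ 2) *
        PPH (HJ (wsC w₁ θ₀) csC 2) θ₀ V (fun _ => HJ (wsC w₁ θ₀) csC 2 0) a ^ 2 := by
    intro a ha
    have ha0 : 0 < a := hb.trans_le ha
    set P := PPH (HJ (wsC w₁ θ₀) csC 2) θ₀ V (fun _ => HJ (wsC w₁ θ₀) csC 2 0) a with hP
    have hP1 : Real.sinh (a * V) * Q ≤ P := by
      refine le_trans ?_ (PPH_ge hw hwθ ha0)
      exact mul_le_mul_of_nonneg_left (NNc_mono hw hwθ hb ha hm)
        (Real.sinh_nonneg_iff.mpr (by positivity))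
    have hcs := w_cs hV hcont hpos (c := fun v => Real.cosh (a * v)) (by fun_prop) hf
    have hpt : ∀ v ∈ Set.Icc 0 V, Real.cosh (a * v) ^ 2 / (g * Real.exp (3 / 2 * b * v)) ≤
        P ^ 2 / (Real.sinh (b * V) ^ 2 * Q ^ 2 * g) *
          (Real.cosh (b * v) ^ 2 * Real.exp (-(3 / 2 * b * v))) := by
      intro v hv
      have h1 := cosh_sinh ha hv.1 hv.2
      have h2 : Real.cosh (a * v) * Real.sinh (b * V) * Q ≤ Real.cosh (b * v) * P := by
        calc Real.cosh (a * v) * Real.sinh (b * V) * Q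
            ≤ Real.cosh (b * v) * Real.sinh (a * V) * Q :=
              mul_le_mul_of_nonneg_right h1 hQp.le
          _ = Real.cosh (b * v) * (Real.sinh (a * V) * Q) := by ring
          _ ≤ Real.cosh (b * v) * P := mul_le_mul_of_nonneg_left hP1 (Real.cosh_pos _).le
      have h3 : (Real.cosh (a * v) * Real.sinh (b * V) * Q) ^ 2 ≤ (Real.cosh (b * v) * P) ^ 2 :=
        pow_le_pow_left₀ (by have := Real.cosh_pos (a * v); positivity) h2 2
      rw [Real.exp_neg]
      have h5 : 0 < Real.exp (3 / 2 * b * v) := Real.exp_pos _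
      have e : P ^ 2 / (Real.sinh (b * V) ^ 2 * Q ^ 2 * g) *
          (Real.cosh (b * v) ^ 2 * (Real.exp (3 / 2 * b * v))⁻¹) =
          (Real.cosh (b * v) * P) ^ 2 /
            (Real.sinh (b * V) ^ 2 * Q ^ 2 * g * Real.exp (3 / 2 * b * v)) := by
        field_simp
      rw [e, div_le_div_iff₀ (hpos v) (by positivity)]
      calc Real.cosh (a * v) ^ 2 * (Real.sinh (b * V) ^ 2 * Q ^ 2 * g * Real.exp (3 / 2 * b * v))
          = (Real.cosh (a * v) * Real.sinh (b * V) * Q) ^ 2 * (g * Real.exp (3 / 2 * b * v)) := by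
            ring
        _ ≤ (Real.cosh (b * v) * P) ^ 2 * (g * Real.exp (3 / 2 * b * v)) :=
            mul_le_mul_of_nonneg_right h3 (hpos v).le
    have hint : ∫ v in (0 : ℝ)..V, Real.cosh (a * v) ^ 2 / (g * Real.exp (3 / 2 * b * v)) ≤
        P ^ 2 / (1 + μ) := by
      have hc1 : Continuous (fun v : ℝ => Real.cosh (a * v) ^ 2 /
          (g * Real.exp (3 / 2 * b * v))) :=
        Continuous.div (by fun_prop) hcont fun v => (hpos v).ne'
      have hc2 : Continuous (fun v : ℝ => P ^ 2 / (Real.sinh (b * V) ^ 2 * Q ^ 2 * g) *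
          (Real.cosh (b * v) ^ 2 * Real.exp (-(3 / 2 * b * v)))) := by fun_prop
      have h1 := intervalIntegral.integral_mono_on (μ := volume) hV.le
        (hc1.intervalIntegrable _ _) (hc2.intervalIntegrable _ _) hpt
      rw [intervalIntegral.integral_const_mul] at h1
      refine h1.trans ((mul_le_mul_of_nonneg_left (int_w hb hV.le) (by positivity)).trans
        (le_of_eq ?_))
      rw [hg']
      have := Real.exp_pos (b * V / 2)
      field_simp
    have hB : 0 ≤ ∫ v in (0 : ℝ)..V, g * Real.exp (3 / 2 * b * v) * f v ^ 2 :=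
      intervalIntegral.integral_nonneg hV.le fun v _ => mul_nonneg (hpos v).le (sq_nonneg _)
    calc (1 + μ) * (∫ v in (0 : ℝ)..V, Real.cosh (a * v) * f v) ^ 2
        ≤ (1 + μ) * (P ^ 2 / (1 + μ) *
            ∫ v in (0 : ℝ)..V, g * Real.exp (3 / 2 * b * v) * f v ^ 2) := by
          refine mul_le_mul_of_nonneg_left (hcs.trans ?_) (by linarith)
          exact mul_le_mul_of_nonneg_right hint hB
      _ = _ := by field_simp
  rcases le_or_gt 0 a with h0 | h0
  · rw [abs_of_nonneg h0] at ha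
    exact hred a ha
  · rw [abs_of_neg h0] at ha
    have h1 := hred (-a) ha
    have e1 : ∀ v : ℝ, Real.cosh (-a * v) = Real.cosh (a * v) := by
      intro v
      rw [neg_mul, Real.cosh_neg]
    have e2 : PPH (HJ (wsC w₁ θ₀) csC 2) θ₀ V (fun _ => HJ (wsC w₁ θ₀) csC 2 0) (-a) =
        PPH (HJ (wsC w₁ θ₀) csC 2) θ₀ V (fun _ => HJ (wsC w₁ θ₀) csC 2 0) a := by
      unfold PPH
      simp only [e1]
    rw [e2] at h1
    simp only [e1] at h1
    exact h1

end Pool.Agent.MP0016c7.PC
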