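import Mathlib
import Pool.Agent.Lib.MP_0016c7_nt.PC.CwA
import Pool.Agent.Lib.MP_0016c7_nt.PC.Iface2

set_option autoImplicit false

/-!
The window certificate: the energy from the variance bound at one height.
-/

open Finset MeasureTheory Filter Topology
open scoped Real ContDiff

namespace Pool.Agent.MP0016c7.PC

open Pool.Agent.MP0016c7.Rz

/-- The bound for the variance at the height `Y` (with the constant `s` removed). -/
noncomputable def SIG (κ Ys Y : ℝ) : ℝ :=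
  max Y 0 + (κ - 1) * max (Y - Ys) 0 + 2 * √(κ * Ys) * √(max (Y - Ys) 0)

/-- The additional error of the variance bound. -/
noncomputable def errC (κ Ys ζ δ : ℝ) : ℝ :=
  2 * √(κ * Ys) * √ζ +
    (9 + 4 / √(Ys / κ) + 4 * (1 + √(Ys / (κ * ζ))) * κ) * (3 / 2 * δ)

theorem SIG_cont (κ Ys : ℝ) : Continuous (SIG κ Ys) := by
  unfold SIG
  fun_prop

/-- The pointwise optimisation of the splitting parameter. -/
private lemma split_pt {κ Ys ζ Y : ℝ} (hκ : 1 ≤ κ) (hYs : 0 < Ys) (hζ : 0 < ζ) (hζ' : ζ ≤ 1)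
    (hY : Y ≤ 1 / 2) : ∃ r : ℝ, 0 < r ∧ r ≤ √(Ys / (κ * ζ)) ∧ 1 / r ≤ 1 / √(Ys / κ) ∧
    (1 + r) * κ * max (Y - Ys) 0 + (1 + 1 / r) * max (min Y Ys) 0 ≤
      SIG κ Ys Y + 2 * √(κ * Ys) * √ζ := by
  set z := max (Y - Ys) 0 with hz
  set zz := max (Y - Ys) ζ with hzz
  have hz0 : 0 ≤ z := le_max_right _ _
  have hzz0 : 0 < zz := lt_of_lt_of_le hζ (le_max_right _ _)
  have hzle : z ≤ zz := max_le (le_max_left _ _) hzz0.le
  have hzz1 : zz ≤ z + ζ := by
    rw [hzz]
    refine max_le ?_ (by linarith)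
    have : Y - Ys ≤ z := le_max_left _ _
    linarith
  have hzz2 : zz ≤ 1 := max_le (by linarith) hζ'
  have hκ0 : 0 < κ := by linarith
  refine ⟨√(Ys / (κ * zz)), Real.sqrt_pos.mpr (by positivity), ?_, ?_, ?_⟩
  · refine Real.sqrt_le_sqrt ?_
    exact div_le_div_of_nonneg_left hYs.le (by positivity)
      (mul_le_mul_of_nonneg_left (le_max_right _ _) hκ0.le)
  · refine one_div_le_one_div_of_le (Real.sqrt_pos.mpr (by positivity)) (Real.sqrt_le_sqrt ?_)
    refine div_le_div_of_nonneg_left hYs.le (by positivity) ?_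
    nlinarith
  · set r := √(Ys / (κ * zz)) with hr
    have hr0 : 0 < r := Real.sqrt_pos.mpr (by positivity)
    set S := √(κ * Ys * zz) with hS
    have hS0 : 0 < S := Real.sqrt_pos.mpr (by positivity)
    have e1 : r * (κ * zz) = S := by
      rw [hr, hS]
      have h1 : κ * Ys * zz = (Ys / (κ * zz)) * (κ * zz) ^ 2 := by
        field_simp
      rw [h1, Real.sqrt_mul (by positivity), Real.sqrt_sq (by positivity)]
    have e2 : 1 / r * Ys = S := by
      have h2 : S * r = Ys := by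
        rw [← e1]
        have h3 : r * r = Ys / (κ * zz) := Real.mul_self_sqrt (by positivity)
        calc r * (κ * zz) * r = r * r * (κ * zz) := by ring
          _ = Ys := by
            rw [h3]
            field_simp
      rw [← h2]
      field_simp
    have h1 : r * κ * z ≤ S := by
      rw [← e1]
      have : r * κ * z ≤ r * κ * zz := mul_le_mul_of_nonneg_left hzle (by positivity)
      linarith
    have h2 : 1 / r * max (min Y Ys) 0 ≤ S := by
      rw [← e2]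
      exact mul_le_mul_of_nonneg_left (max_le (min_le_right _ _) hYs.le) (by positivity)
    have h3 : S ≤ √(κ * Ys) * √z + √(κ * Ys) * √ζ := by
      rw [← mul_add, hS, Real.sqrt_mul (by positivity)]
      refine mul_le_mul_of_nonneg_left ?_ (Real.sqrt_nonneg _)
      refine Real.sqrt_le_iff.mpr ⟨by positivity, ?_⟩
      have k1 := Real.sq_sqrt hz0
      have k2 := Real.sq_sqrt hζ.le
      have k3 : 0 ≤ √z * √ζ := by positivity
      nlinarith
    have h4 : z + max (min Y Ys) 0 = max Y 0 := by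
      rw [hz]
      rcases le_total Y Ys with h | h
      · rw [min_eq_left h, max_eq_right (by linarith : Y - Ys ≤ 0), zero_add]
      · rw [min_eq_right h, max_eq_left (by linarith : 0 ≤ Y - Ys), max_eq_left hYs.le,
          max_eq_left (by linarith : 0 ≤ Y)]
        ring
    unfold SIG
    rw [← hz]
    calc (1 + r) * κ * z + (1 + 1 / r) * max (min Y Ys) 0
        = (z + max (min Y Ys) 0) + (κ - 1) * z + r * κ * z + 1 / r * max (min Y Ys) 0 := by ring
      _ ≤ max Y 0 + (κ - 1) * z + S + S := by rw [h4]; linarith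
      _ ≤ _ := by linarith

/-- The energy bound for the window certificate. -/
theorem cw_en (hpt : JF_pt) {w₁ θ₀ δ κ ζ : ℝ} (hδ : 0 < δ) (hδ' : δ ≤ 1 / 100) (hκ : 1 ≤ κ)
    (hw₁ : 0 < w₁) (hwθ : w₁ + δ ≤ θ₀) (hθ : θ₀ + 6 * δ < 1 / 2) (hζ : 0 < ζ) (hζ' : ζ ≤ 1)
    {w : ℝ → ℝ} (hw : Continuous w) (hwp : ∀ v, 0 < w v) {E : ℝ}
    (hE : (∫ v in (0 : ℝ)..(1 / 2 + δ), w v * ((((θ₀ + 1 / 2) ^ 3 - (w₁ + 1 / 2) ^ 3) / 3) *
      (SIG κ (1 / 2 - θ₀ - 6 * δ) (1 / 2 - v) + errC κ (1 / 2 - θ₀ - 6 * δ) ζ δ))) ≤ E) :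
    EnBd 2 (wsC w₁ θ₀) csC δ κ w (fun _ => 0) (fun _ => 0) (fun _ => HJ (wsC w₁ θ₀) csC 2 0)
      0 0 E := by
  intro ρ hρ hρn hρ1 Sm hSm hSm' K ε' hε'
  set Ys := 1 / 2 - θ₀ - 6 * δ with hYs
  have hYs0 : 0 < Ys := by rw [hYs]; linarith
  have hκ0 : 0 < κ := by linarith
  set V := 1 / 2 + δ with hV
  have hV0 : 0 < V := by rw [hV]; linarith
  set s := ((θ₀ + 1 / 2) ^ 3 - (w₁ + 1 / 2) ^ 3) / 3 with hs
  have hs0 : 0 ≤ s := by
    rw [hs]
    have : (w₁ + 1 / 2) ^ 3 ≤ (θ₀ + 1 / 2) ^ 3 :=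
      pow_le_pow_left₀ (by linarith) (by linarith) 3
    linarith
  set W := ∫ v in (0 : ℝ)..V, w v with hW
  have hW0 : 0 ≤ W := intervalIntegral.integral_nonneg hV0.le fun v _ => (hwp v).le
  set K₁ := 1 + √(Ys / (κ * ζ)) + 1 / √(Ys / κ) with hK₁
  have hK₁a : 0 ≤ √(Ys / (κ * ζ)) := Real.sqrt_nonneg _
  have hK₁b : 0 < √(Ys / κ) := Real.sqrt_pos.mpr (by positivity)
  have hK₁c : 0 ≤ 1 / √(Ys / κ) := by positivity
  obtain ⟨ε₁, hε₁, hmain⟩ := hpt δ κ 2 (wsC w₁ θ₀) csC (fun _ => -δ) hδ hδ' hκ0.le (by norm_num)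
    (by simpa [wsC] using hw₁)
    (by
      intro k hk
      have hk0 : k = 0 := by omega
      subst hk0
      simpa [wsC] using hwθ)
    (by
      intro k _
      unfold csC
      split_ifs <;> norm_num)
    (by
      simp only [wsC]
      norm_num
      linarith)
    (by
      intro k hk
      refine ⟨le_rfl, ?_⟩
      unfold wsC
      split_ifs <;> linarith)
    (by
      intro k _
      exact Or.inl rfl)
    ρ hρ hρn hρ1 Sm hSm hSm' K K₁ (ε' / (W + 1)) (by positivity)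
  refine ⟨ε₁, hε₁, fun I κ' hI hIK hκ' hκκ S cf cf' T hMD => ?_⟩
  have hT : ∀ k < 2, ∀ d, Continuous (T k d) := hMD.ct
  -- the bound at one height
  have hone : ∀ Y ∈ Set.Icc (-δ) (1 / 2 : ℝ),
      ∑ d ∈ S, cf d * (∑ k ∈ range 2, (csC k * HS (wsC w₁ θ₀) k 0 - T k d Y)) ^ 2 ≤
        I * (s * (SIG κ Ys Y + errC κ Ys ζ δ)) + ε' / (W + 1) := by
    intro Y hY
    obtain ⟨r, hr0, hr1, hr2, hr3⟩ := split_pt hκ hYs0 hζ hζ' hY.2
    have h1 := hmain I κ' hI hIK hκ' hκκ S cf cf' T hMD Y hY (1 + r) 0 (1 / r) (by linarith)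
      (by rw [hK₁]; linarith) le_rfl zero_le_one (by positivity)
      (by rw [hK₁]; linarith)
      (by field_simp; ring)
      (by
        have : 0 ≤ (1 + r - 1) * (1 / r) ^ 2 := by
          have : 0 ≤ 1 + r - 1 := by linarith
          positivity
        nlinarith)
    refine h1.trans ?_
    have e0 : ∀ x : ℝ, x + (1 + r - 1) * (1 / r) ^ 2 = x + 1 / r := by
      intro x
      field_simp
      ring
    have e1 : 1 - (1 + r) * (0 : ℝ) ^ 2 + (1 + r - 1) * (1 / r) ^ 2 = 1 + 1 / r := by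
      rw [e0]
      ring
    rw [e1]
    have hcs0 : csC 0 = 0 := by simp [csC]
    have hcs1 : csC 1 = 1 := by simp [csC]
    have hws1 : wsC w₁ θ₀ 1 = θ₀ := by simp [wsC]
    have hsk : sk (wsC w₁ θ₀) 1 = s := by
      unfold sk wp wsC
      simp [hs]
    simp only [Finset.sum_range_succ, Finset.sum_range_zero, Nat.reduceSub, hcs0, hcs1, hws1, hsk,
      zero_add, one_pow, one_mul, mul_one]
    norm_num
    have hm1 : max (-δ) 0 = 0 := max_eq_right (by linarith)
    have hm2 : max (min Y (-δ)) 0 = 0 := max_eq_right ((min_le_right _ _).trans (by linarith))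
    have hm3 : (1 : ℝ) / 2 - θ₀ - 6 * δ = Ys := hYs.symm
    rw [hm1, hm2, sub_zero]
    have hmain2 : s * ((1 + r) * κ * max (Y - (1 / 2 - θ₀ - 6 * δ)) 0 +
        (1 + r⁻¹) * max (min Y (1 / 2 - θ₀ - 6 * δ)) 0) ≤
        s * (SIG κ Ys Y + 2 * √(κ * Ys) * √ζ) := by
      rw [hm3]
      refine mul_le_mul_of_nonneg_left ?_ hs0
      rw [one_div] at hr3
      exact hr3
    have herr : (5 + 4 * (1 + r⁻¹) + 4 * (1 + r) * κ) * (3 / 2 * δ * s) ≤
        s * ((9 + 4 / √(Ys / κ) + 4 * (1 + √(Ys / (κ * ζ))) * κ) * (3 / 2 * δ)) := by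
      have k1 : 5 + 4 * (1 + r⁻¹) + 4 * (1 + r) * κ ≤
          9 + 4 / √(Ys / κ) + 4 * (1 + √(Ys / (κ * ζ))) * κ := by
        rw [one_div] at hr2
        have k2 : 4 / √(Ys / κ) = 4 * (1 / √(Ys / κ)) := by ring
        rw [k2]
        have k3 : 4 * (1 + r) * κ ≤ 4 * (1 + √(Ys / (κ * ζ))) * κ :=
          mul_le_mul_of_nonneg_right (by linarith) hκ0.le
        linarith
      calc _ ≤ (9 + 4 / √(Ys / κ) + 4 * (1 + √(Ys / (κ * ζ))) * κ) * (3 / 2 * δ * s) :=
            mul_le_mul_of_nonneg_right k1 (by positivity)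
        _ = _ := by ring
    have hfin : s * ((1 + r) * κ * max (Y - (1 / 2 - θ₀ - 6 * δ)) 0 +
        (1 + r⁻¹) * max (min Y (1 / 2 - θ₀ - 6 * δ)) 0) +
        (5 + 4 * (1 + r⁻¹) + 4 * (1 + r) * κ) * (3 / 2 * δ * s) ≤
        s * (SIG κ Ys Y + errC κ Ys ζ δ) := by
      unfold errC
      calc _ ≤ s * (SIG κ Ys Y + 2 * √(κ * Ys) * √ζ) +
          s * ((9 + 4 / √(Ys / κ) + 4 * (1 + √(Ys / (κ * ζ))) * κ) * (3 / 2 * δ)) :=
            add_le_add hmain2 herr
        _ = _ := by ring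
    rw [add_zero]
    exact mul_le_mul_of_nonneg_left hfin hI
  -- the integral over the heights
  have hf : ∀ d, Continuous (fun v : ℝ =>
      ∑ k ∈ range 2, (csC k * HS (wsC w₁ θ₀) k 0 - T k d (1 / 2 - v))) := by
    intro d
    refine continuous_finsetSum _ fun k hk => ?_
    exact continuous_const.sub ((hT k (Finset.mem_range.mp hk) d).comp (by fun_prop))
  have e1 : ∀ d, qP w (fun _ => 0) (fun _ => 0) 0 0 V
      (fun v => HJ (wsC w₁ θ₀) csC 2 0 - ∑ k ∈ range 2, T k d (1 / 2 - v)) =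
      ∫ v in (0 : ℝ)..V, w v *
        (∑ k ∈ range 2, (csC k * HS (wsC w₁ θ₀) k 0 - T k d (1 / 2 - v))) ^ 2 := by
    intro d
    unfold qP HJ
    simp only [zero_mul, add_zero]
    refine intervalIntegral.integral_congr fun v _ => ?_
    rw [Finset.sum_sub_distrib]
  have e2 : ∑ d ∈ S, cf d * qP w (fun _ => 0) (fun _ => 0) 0 0 V
      (fun v => HJ (wsC w₁ θ₀) csC 2 0 - ∑ k ∈ range 2, T k d (1 / 2 - v)) =
      ∫ v in (0 : ℝ)..V, w v * ∑ d ∈ S, cf d *
        (∑ k ∈ range 2, (csC k * HS (wsC w₁ θ₀) k 0 - T k d (1 / 2 - v))) ^ 2 := by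
    have e3 : (fun v : ℝ => w v * ∑ d ∈ S, cf d *
        (∑ k ∈ range 2, (csC k * HS (wsC w₁ θ₀) k 0 - T k d (1 / 2 - v))) ^ 2) =
        fun v => ∑ d ∈ S, cf d * (w v *
        (∑ k ∈ range 2, (csC k * HS (wsC w₁ θ₀) k 0 - T k d (1 / 2 - v))) ^ 2) := by
      funext v
      rw [Finset.mul_sum]
      refine Finset.sum_congr rfl fun d _ => ?_
      ring
    have hint : ∀ d ∈ S, IntervalIntegrable (fun v : ℝ => cf d * (w v *
        (∑ k ∈ range 2, (csC k * HS (wsC w₁ θ₀) k 0 - T k d (1 / 2 - v))) ^ 2)) volume 0 V := by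
      intro d _
      have hc : Continuous (fun v : ℝ => cf d * (w v *
          (∑ k ∈ range 2, (csC k * HS (wsC w₁ θ₀) k 0 - T k d (1 / 2 - v))) ^ 2)) :=
        continuous_const.mul (hw.mul ((hf d).pow 2))
      exact hc.intervalIntegrable _ _
    rw [e3, intervalIntegral.integral_finsetSum hint]
    refine Finset.sum_congr rfl fun d _ => ?_
    rw [intervalIntegral.integral_const_mul, e1 d]
  rw [e2]
  have c1 : Continuous (fun v : ℝ => w v * ∑ d ∈ S, cf d *
        (∑ k ∈ range 2, (csC k * HS (wsC w₁ θ₀) k 0 - T k d (1 / 2 - v))) ^ 2) :=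
    hw.mul (continuous_finsetSum _ fun d _ => continuous_const.mul ((hf d).pow 2))
  have c2 : Continuous (fun v : ℝ => w v * (s * (SIG κ Ys (1 / 2 - v) + errC κ Ys ζ δ))) :=
    hw.mul (continuous_const.mul (((SIG_cont κ Ys).comp (by fun_prop)).add continuous_const))
  have c3 : Continuous (fun v : ℝ => I * (w v * (s * (SIG κ Ys (1 / 2 - v) + errC κ Ys ζ δ))) +
      ε' / (W + 1) * w v) := (continuous_const.mul c2).add (continuous_const.mul hw)
  have h1 : ∫ v in (0 : ℝ)..V, w v * ∑ d ∈ S, cf d *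
        (∑ k ∈ range 2, (csC k * HS (wsC w₁ θ₀) k 0 - T k d (1 / 2 - v))) ^ 2 ≤
      ∫ v in (0 : ℝ)..V, (I * (w v * (s * (SIG κ Ys (1 / 2 - v) + errC κ Ys ζ δ))) +
      ε' / (W + 1) * w v) := by
    refine intervalIntegral.integral_mono_on hV0.le (c1.intervalIntegrable _ _)
      (c3.intervalIntegrable _ _) fun v hv => ?_
    have h2 := hone (1 / 2 - v) ⟨by rw [hV] at hv; linarith [hv.2], by linarith [hv.1]⟩
    calc w v * ∑ d ∈ S, cf d *
        (∑ k ∈ range 2, (csC k * HS (wsC w₁ θ₀) k 0 - T k d (1 / 2 - v))) ^ 2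
        ≤ w v * (I * (s * (SIG κ Ys (1 / 2 - v) + errC κ Ys ζ δ)) + ε' / (W + 1)) :=
          mul_le_mul_of_nonneg_left h2 (hwp v).le
      _ = _ := by ring
  refine h1.trans ?_
  have c4 : Continuous (fun v : ℝ => I * (w v * (s * (SIG κ Ys (1 / 2 - v) +
      errC κ Ys ζ δ)))) := continuous_const.mul c2
  have c5 : Continuous (fun v : ℝ => ε' / (W + 1) * w v) := continuous_const.mul hw
  rw [intervalIntegral.integral_add (c4.intervalIntegrable _ _) (c5.intervalIntegrable _ _),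
    intervalIntegral.integral_const_mul, intervalIntegral.integral_const_mul, ← hW]
  have h3 : I * (∫ v in (0 : ℝ)..V, w v * (s * (SIG κ Ys (1 / 2 - v) + errC κ Ys ζ δ))) ≤
      I * E := mul_le_mul_of_nonneg_left hE hI
  have h4 : ε' / (W + 1) * W ≤ ε' := by
    rw [div_mul_eq_mul_div, div_le_iff₀ (by linarith)]
    nlinarith
  linarith

end Pool.Agent.MP0016c7.PC
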