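import Mathlib
import Pool.Agent.Lib.MP_0016c7_nt.PC.CwB
import Pool.Agent.Lib.MP_0016c7_nt.PC.CwC

set_option autoImplicit false

/-!
The window certificate: integrals and the final inequality.
-/

open Finset MeasureTheory Filter Topology
open scoped Real ContDiff

namespace Pool.Agent.MP0016c7.PC

open Pool.Agent.MP0016c7.Rz

private lemma exp_deriv (k v : ℝ) : HasDerivAt (fun v : ℝ => Real.exp (k * v))
    (Real.exp (k * v) * k) v := by
  have := ((hasDerivAt_id v).const_mul k).exp
  simpa using this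

private lemma I1 {k V : ℝ} (hk : 0 < k) :
    ∫ v in (0 : ℝ)..V, Real.exp (k * v) ≤ Real.exp (k * V) / k := by
  have h1 : ∀ v ∈ Set.uIcc 0 V, HasDerivAt (fun v : ℝ => Real.exp (k * v) / k)
      (Real.exp (k * v)) v := by
    intro v _
    have := (exp_deriv k v).div_const k
    rwa [mul_div_cancel_right₀ _ hk.ne'] at this
  rw [intervalIntegral.integral_eq_sub_of_hasDerivAt h1
    (Continuous.intervalIntegrable (by fun_prop) _ _)]
  simp only [mul_zero, Real.exp_zero]
  have : 0 < 1 / k := by positivity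
  linarith

/-- The part of the integral beyond `c` vanishes. -/
private lemma cut {F : ℝ → ℝ} (hF : Continuous F) {c V : ℝ} (hcV : c ≤ V)
    (h0 : ∀ v, c ≤ v → F v = 0) : ∫ v in (0 : ℝ)..V, F v = ∫ v in (0 : ℝ)..c, F v := by
  rw [← intervalIntegral.integral_add_adjacent_intervals
    (hF.intervalIntegrable 0 c) (hF.intervalIntegrable c V)]
  have : ∫ v in c..V, F v = ∫ v in c..V, (0 : ℝ) := by
    refine intervalIntegral.integral_congr fun v hv => ?_
    rw [Set.uIcc_of_le hcV] at hv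
    exact h0 v hv.1
  rw [this]
  simp

private lemma I2 {k V c : ℝ} (hk : 0 < k) (hc : 0 ≤ c) (hcV : c ≤ V) :
    ∫ v in (0 : ℝ)..V, Real.exp (k * v) * max (c - v) 0 ≤ Real.exp (k * c) / k ^ 2 := by
  rw [cut (F := fun v => Real.exp (k * v) * max (c - v) 0) (by fun_prop) hcV (by
    intro v hv
    rw [max_eq_right (by linarith), mul_zero])]
  have e1 : ∫ v in (0 : ℝ)..c, Real.exp (k * v) * max (c - v) 0 =
      ∫ v in (0 : ℝ)..c, Real.exp (k * v) * (c - v) := by
    refine intervalIntegral.integral_congr fun v hv => ?_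
    rw [Set.uIcc_of_le hc] at hv
    rw [max_eq_left (by linarith [hv.2])]
  rw [e1]
  have h1 : ∀ v ∈ Set.uIcc 0 c, HasDerivAt
      (fun v : ℝ => Real.exp (k * v) * (c - v) / k + Real.exp (k * v) / k ^ 2)
      (Real.exp (k * v) * (c - v)) v := by
    intro v _
    have k1 := exp_deriv k v
    have k2 : HasDerivAt (fun v : ℝ => c - v) (-1) v := by
      simpa using (hasDerivAt_id v).const_sub c
    exact (((k1.mul k2).div_const k).add (k1.div_const (k ^ 2))).congr_deriv
      (by field_simp; ring)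
  rw [intervalIntegral.integral_eq_sub_of_hasDerivAt h1
    (Continuous.intervalIntegrable (by fun_prop) _ _)]
  simp only [mul_zero, Real.exp_zero, sub_self, zero_div, zero_add, sub_zero, one_mul]
  have : 0 ≤ c / k + 1 / k ^ 2 := by positivity
  linarith

private lemma I3 {k V c : ℝ} (hk : 0 < k) (hc : 0 ≤ c) (hcV : c ≤ V) :
    ∫ v in (0 : ℝ)..V, Real.exp (k * v) * √(max (c - v) 0) ≤
      Real.exp (k * c) * √(π * k) / (2 * k ^ 2) := by
  rw [cut (F := fun v => Real.exp (k * v) * √(max (c - v) 0)) (by fun_prop) hcV (by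
    intro v hv
    rw [max_eq_right (by linarith), Real.sqrt_zero, mul_zero])]
  have e1 : ∫ v in (0 : ℝ)..c, Real.exp (k * v) * √(max (c - v) 0) =
      ∫ z in (0 : ℝ)..c, Real.exp (k * (c - z)) * √(max z 0) := by
    have h := intervalIntegral.integral_comp_sub_left (a := 0) (b := c)
      (fun z => Real.exp (k * (c - z)) * √(max z 0)) c
    simp only [sub_self, sub_zero, sub_sub_cancel] at h
    exact h
  have e2 : ∫ z in (0 : ℝ)..c, Real.exp (k * (c - z)) * √(max z 0) =
      Real.exp (k * c) * ∫ z in (0 : ℝ)..c, z ^ ((3 / 2 : ℝ) - 1) * Real.exp (-(k * z)) := by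
    rw [← intervalIntegral.integral_const_mul]
    refine intervalIntegral.integral_congr fun z hz => ?_
    rw [Set.uIcc_of_le hc] at hz
    rw [max_eq_left hz.1, Real.sqrt_eq_rpow, mul_sub, sub_eq_add_neg, Real.exp_add]
    norm_num
    ring
  have e3 : ∫ z in (0 : ℝ)..c, z ^ ((3 / 2 : ℝ) - 1) * Real.exp (-(k * z)) ≤
      √(π * k) / (2 * k ^ 2) := by
    have hint := Real.integral_rpow_mul_exp_neg_mul_Ioi (a := 3 / 2) (r := k) (by norm_num) hk
    have hne : (∫ t in Set.Ioi (0 : ℝ), t ^ ((3 / 2 : ℝ) - 1) * Real.exp (-(k * t))) ≠ 0 := by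
      rw [hint]
      have := Real.Gamma_pos_of_pos (show (0 : ℝ) < 3 / 2 by norm_num)
      positivity
    have hi : IntegrableOn (fun t : ℝ => t ^ ((3 / 2 : ℝ) - 1) * Real.exp (-(k * t)))
        (Set.Ioi 0) := by
      by_contra hcon
      exact hne (integral_undef hcon)
    have h1 : ∫ z in (0 : ℝ)..c, z ^ ((3 / 2 : ℝ) - 1) * Real.exp (-(k * z)) ≤
        ∫ t in Set.Ioi (0 : ℝ), t ^ ((3 / 2 : ℝ) - 1) * Real.exp (-(k * t)) := by
      rw [intervalIntegral.integral_of_le hc]
      refine setIntegral_mono_set hi ?_ (LE.le.eventuallyLE Set.Ioc_subset_Ioi_self)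
      refine (ae_restrict_mem measurableSet_Ioi).mono fun t ht => ?_
      have ht' : (0 : ℝ) < t := ht
      simp only [Pi.zero_apply]
      positivity
    refine h1.trans (le_of_eq ?_)
    rw [hint]
    have hG : Real.Gamma (3 / 2) = √π / 2 := by
      have h2 := Real.Gamma_add_one (s := 1 / 2) (by norm_num)
      rw [Real.Gamma_one_half_eq] at h2
      have h3 : (1 : ℝ) / 2 + 1 = 3 / 2 := by norm_num
      rw [h3] at h2
      rw [h2]
      ring
    rw [hG]
    have h4 : (1 / k) ^ (3 / 2 : ℝ) = √k / k ^ 2 := by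
      rw [Real.div_rpow (by norm_num) hk.le, Real.one_rpow]
      have h5 : k ^ (3 / 2 : ℝ) = k * √k := by
        rw [Real.sqrt_eq_rpow]
        nth_rewrite 2 [← Real.rpow_one k]
        rw [← Real.rpow_add hk]
        norm_num
      rw [h5]
      have h6 : √k * √k = k := Real.mul_self_sqrt hk.le
      have h7 : 0 < √k := Real.sqrt_pos.mpr hk
      rw [div_eq_div_iff (by positivity) (by positivity)]
      calc 1 * k ^ 2 = k * (√k * √k) := by rw [h6]; ring
        _ = √k * (k * √k) := by ring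
    rw [h4, Real.sqrt_mul Real.pi_nonneg]
    field_simp
  rw [e1, e2, mul_div_assoc]
  exact mul_le_mul_of_nonneg_left e3 (Real.exp_pos _).le

/-- The bound for the energy integral. -/
noncomputable def enC (k κ Ys e V : ℝ) : ℝ :=
  1 / k ^ 2 * (Real.exp (k / 2) + Real.exp (k * (1 / 2 - Ys)) *
    (κ - 1 + √(κ * Ys) * √(π * k))) + e * (Real.exp (k * V) / k)

theorem int_SIG {k κ Ys e V : ℝ} (hk : 0 < k) (hκ : 1 ≤ κ) (hYs : 0 < Ys) (hYs' : Ys ≤ 1 / 2)
    (he : 0 ≤ e) (hV : 1 / 2 ≤ V) :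
    ∫ v in (0 : ℝ)..V, Real.exp (k * v) * (SIG κ Ys (1 / 2 - v) + e) ≤ enC k κ Ys e V := by
  have e1 : (fun v : ℝ => Real.exp (k * v) * (SIG κ Ys (1 / 2 - v) + e)) = fun v =>
      Real.exp (k * v) * max (1 / 2 - v) 0 +
      (κ - 1) * (Real.exp (k * v) * max ((1 / 2 - Ys) - v) 0) +
      2 * √(κ * Ys) * (Real.exp (k * v) * √(max ((1 / 2 - Ys) - v) 0)) +
      e * Real.exp (k * v) := by
    funext v
    unfold SIG
    rw [show (1 : ℝ) / 2 - v - Ys = 1 / 2 - Ys - v by ring]
    ring
  rw [e1]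
  have c1 : Continuous (fun v : ℝ => Real.exp (k * v) * max (1 / 2 - v) 0) := by fun_prop
  have c2 : Continuous (fun v : ℝ => (κ - 1) * (Real.exp (k * v) *
      max ((1 / 2 - Ys) - v) 0)) := by fun_prop
  have c3 : Continuous (fun v : ℝ => 2 * √(κ * Ys) * (Real.exp (k * v) *
      √(max ((1 / 2 - Ys) - v) 0))) := by fun_prop
  have c4 : Continuous (fun v : ℝ => e * Real.exp (k * v)) := by fun_prop
  have c12 : Continuous (fun v : ℝ => Real.exp (k * v) * max (1 / 2 - v) 0 +
      (κ - 1) * (Real.exp (k * v) * max ((1 / 2 - Ys) - v) 0)) := c1.add c2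
  have c123 : Continuous (fun v : ℝ => Real.exp (k * v) * max (1 / 2 - v) 0 +
      (κ - 1) * (Real.exp (k * v) * max ((1 / 2 - Ys) - v) 0) +
      2 * √(κ * Ys) * (Real.exp (k * v) * √(max ((1 / 2 - Ys) - v) 0))) := c12.add c3
  rw [intervalIntegral.integral_add (c123.intervalIntegrable _ _) (c4.intervalIntegrable _ _),
    intervalIntegral.integral_add (c12.intervalIntegrable _ _) (c3.intervalIntegrable _ _),
    intervalIntegral.integral_add (c1.intervalIntegrable _ _) (c2.intervalIntegrable _ _),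
    intervalIntegral.integral_const_mul, intervalIntegral.integral_const_mul,
    intervalIntegral.integral_const_mul]
  have h1 := I2 (V := V) hk (show (0 : ℝ) ≤ 1 / 2 by norm_num) hV
  have h2 := mul_le_mul_of_nonneg_left (I2 (V := V) hk (show (0 : ℝ) ≤ 1 / 2 - Ys by linarith)
    (by linarith)) (show 0 ≤ κ - 1 by linarith)
  have h3 := mul_le_mul_of_nonneg_left (I3 (V := V) hk (show (0 : ℝ) ≤ 1 / 2 - Ys by linarith)
    (by linarith)) (show 0 ≤ 2 * √(κ * Ys) by positivity)
  have h4 := mul_le_mul_of_nonneg_left (I1 (V := V) hk) he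
  unfold enC
  calc _ ≤ Real.exp (k * (1 / 2)) / k ^ 2 + (κ - 1) * (Real.exp (k * (1 / 2 - Ys)) / k ^ 2) +
      2 * √(κ * Ys) * (Real.exp (k * (1 / 2 - Ys)) * √(π * k) / (2 * k ^ 2)) +
      e * (Real.exp (k * V) / k) := by linarith
    _ = _ := by
      rw [show k * (1 / 2 : ℝ) = k / 2 by ring]
      field_simp
      ring

end Pool.Agent.MP0016c7.PC
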