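import Mathlib
import Pool.Agent.Lib.MP_0016c7_nt.PC.CwD

set_option autoImplicit false

/-!
The window certificate for prime conductors.
-/

open Finset MeasureTheory Filter Topology
open scoped Real ContDiff

namespace Pool.Agent.MP0016c7.PC

open Pool.Agent.MP0016c7.Rz

/-- The slice points as functions of `δ`. -/
noncomputable def w₁C (A δ : ℝ) : ℝ := 1 / 2 - 23 / (10 * A) - 11 * δ

noncomputable def θC (A δ : ℝ) : ℝ := 1 / 2 - 1 / A - 11 * δ

/-- The continuous form of the error. -/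
noncomputable def errD (A δ : ℝ) : ℝ :=
  2 * √(2 * A * (1 / A + 5 * δ)) * √δ + (9 + 4 / √((1 / A + 5 * δ) / (2 * A)) + 4 * (2 * A)) *
    (3 / 2 * δ) + 12 * A * √((1 / A + 5 * δ) * δ / (2 * A))

/-- The energy as a function of `δ`. -/
noncomputable def ΦC (A δ : ℝ) : ℝ :=
  gC (w₁C A δ) (θC A δ) (A - δ) (1 / 2 + δ) δ *
    (((θC A δ + 1 / 2) ^ 3 - (w₁C A δ + 1 / 2) ^ 3) / 3) *
    enC (3 / 2 * (A - δ)) (2 * A) (1 / A + 5 * δ) (errD A δ) (1 / 2 + δ)

private lemma err_eq {A δ : ℝ} (hA : 0 < A) (hδ : 0 < δ) :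
    errC (2 * A) (1 / A + 5 * δ) δ δ = errD A δ := by
  unfold errC errD
  have h1 : √((1 / A + 5 * δ) / (2 * A * δ)) * δ = √((1 / A + 5 * δ) * δ / (2 * A)) := by
    have h2 : (1 / A + 5 * δ) * δ / (2 * A) = ((1 / A + 5 * δ) / (2 * A * δ)) * δ ^ 2 := by
      field_simp
    rw [h2, Real.sqrt_mul (by positivity), Real.sqrt_sq hδ.le]
  rw [← h1]
  ring

private lemma exp13 : (3669 : ℝ) / 1000 < Real.exp (13 / 10) ∧ Real.exp (13 / 10) < 367 / 100 := by
  have h1 := Real.exp_one_gt_d9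
  have h2 := Real.exp_one_lt_d9
  have h0 : Real.exp (13 / 10) ^ 10 = Real.exp 1 ^ 13 := by
    rw [← Real.exp_nat_mul, ← Real.exp_nat_mul]
    norm_num
  constructor
  · by_contra hcon
    push Not at hcon
    have h3 : Real.exp (13 / 10) ^ 10 ≤ (3669 / 1000) ^ 10 :=
      pow_le_pow_left₀ (Real.exp_pos _).le hcon 10
    rw [h0] at h3
    have h4 : (2.7182818283 : ℝ) ^ 13 ≤ Real.exp 1 ^ 13 :=
      pow_le_pow_left₀ (by norm_num) h1.le 13
    norm_num at h3 h4
    linarith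
  · by_contra hcon
    push Not at hcon
    have h3 : ((367 : ℝ) / 100) ^ 10 ≤ Real.exp (13 / 10) ^ 10 :=
      pow_le_pow_left₀ (by norm_num) hcon 10
    rw [h0] at h3
    have h4 : Real.exp 1 ^ 13 ≤ (2.7182818286 : ℝ) ^ 13 :=
      pow_le_pow_left₀ (Real.exp_pos _).le h2.le 13
    norm_num at h3 h4
    linarith

private lemma exp15 : Real.exp (-(3 / 2)) ≤ 2231303 / 10000000 := by
  rw [Real.exp_neg, inv_le_comm₀ (Real.exp_pos _) (by norm_num)]
  by_contra hcon
  push Not at hcon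
  have h1 := Real.exp_one_gt_d9
  have h0 : Real.exp (3 / 2) ^ 2 = Real.exp 1 ^ 3 := by
    rw [← Real.exp_nat_mul, ← Real.exp_nat_mul]
    norm_num
  have h3 : Real.exp (3 / 2) ^ 2 ≤ ((2231303 / 10000000 : ℝ)⁻¹) ^ 2 :=
    pow_le_pow_left₀ (Real.exp_pos _).le hcon.le 2
  rw [h0] at h3
  have h4 : (2.7182818283 : ℝ) ^ 3 ≤ Real.exp 1 ^ 3 := pow_le_pow_left₀ (by norm_num) h1.le 3
  norm_num at h3 h4
  linarith

private lemma exp2 : Real.exp 2 ≤ 73891 / 10000 := by
  have h2 := Real.exp_one_lt_d9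
  have h0 : Real.exp 2 = Real.exp 1 ^ 2 := by
    rw [← Real.exp_nat_mul]
    norm_num
  rw [h0]
  calc Real.exp 1 ^ 2 ≤ (2.7182818286 : ℝ) ^ 2 := pow_le_pow_left₀ (Real.exp_pos _).le h2.le 2
    _ ≤ 73891 / 10000 := by norm_num

private lemma expA {A : ℝ} (hA : 496 / 100 ≤ A) : Real.exp (-A) ≤ 702 / 100000 := by
  have h1 : Real.exp (-A) ≤ Real.exp (-(496 / 100)) := Real.exp_le_exp.mpr (by linarith)
  refine h1.trans ?_
  rw [Real.exp_neg, inv_le_comm₀ (Real.exp_pos _) (by norm_num)]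
  by_contra hcon
  push Not at hcon
  have h2 := Real.exp_one_gt_d9
  have h0 : Real.exp (496 / 100) ^ 25 = Real.exp 1 ^ 124 := by
    rw [← Real.exp_nat_mul, ← Real.exp_nat_mul]
    norm_num
  have h3 : Real.exp (496 / 100) ^ 25 ≤ ((702 / 100000 : ℝ)⁻¹) ^ 25 :=
    pow_le_pow_left₀ (Real.exp_pos _).le hcon.le 25
  rw [h0] at h3
  have h4 : (2.7182818283 : ℝ) ^ 124 ≤ Real.exp 1 ^ 124 := pow_le_pow_left₀ (by norm_num) h2.le 124
  have h5 : ((702 / 100000 : ℝ)⁻¹) ^ 25 < (2.7182818283 : ℝ) ^ 124 := by norm_num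
  linarith

set_option maxHeartbeats 1000000 in
/-- The value at `δ = 0`. -/
theorem Phi0 {A : ℝ} (hA : 496 / 100 ≤ A) : ΦC A 0 < 12 * (A + 1) * Real.exp (-A) := by
  have hA0 : 0 < A := by linarith
  set e := Real.exp (-(13 / 10)) with he
  have he0 : 0 < e := Real.exp_pos _
  have he1 : e * Real.exp (13 / 10) = 1 := by
    rw [he, ← Real.exp_add]
    simp
  have he2 : e < 27256 / 100000 := by
    have := exp13.1
    by_contra hcon
    push Not at hcon
    nlinarith
  set x := Real.exp (-A) with hx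
  have hx0 : 0 < x := Real.exp_pos _
  have hx1 : x ≤ 702 / 100000 := expA hA
  set D := (A - 2) - e * (A - 33 / 10) with hD
  have hD0 : 72744 / 100000 * A - 110056 / 100000 ≤ D := by
    rw [hD]
    nlinarith
  have hDp : 0 < D := by nlinarith
  set p := Real.exp (A / 2) with hp
  have hp0 : 0 < p := Real.exp_pos _
  have hpx : p ^ 2 * x = 1 := by
    rw [hp, hx, ← Real.exp_nat_mul, ← Real.exp_add]
    convert Real.exp_zero using 2
    push_cast
    ring
  have hNN : NNc (w₁C A 0) (θC A 0) A = p * Real.exp (-1) * D := by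
    unfold NNc w₁C θC
    have h1 : Real.exp (A * (1 / 2 - 1 / A - 11 * 0)) = p * Real.exp (-1) := by
      rw [hp, ← Real.exp_add]
      congr 1
      field_simp
      ring
    have h2 : Real.exp (A * (1 / 2 - 23 / (10 * A) - 11 * 0)) = p * Real.exp (-1) * e := by
      rw [hp, he, ← Real.exp_add, ← Real.exp_add]
      congr 1
      field_simp
      ring
    rw [h1, h2, hD]
    field_simp
    ring
  have hS : Real.sinh (A * (1 / 2 + 0)) ^ 2 = p ^ 2 * (1 - x) ^ 2 / 4 := by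
    rw [Real.sinh_eq]
    have h1 : Real.exp (A * (1 / 2 + 0)) = p := by
      rw [hp]
      congr 1
      ring
    have h2 : Real.exp (-(A * (1 / 2 + 0))) = p * x := by
      rw [hp, hx, ← Real.exp_add]
      congr 1
      ring
    rw [h1, h2]
    ring
  have hs : ((θC A 0 + 1 / 2) ^ 3 - (w₁C A 0 + 1 / 2) ^ 3) / 3 =
      (13 / 10) * ((A - 1) ^ 2 - 13 / 10 * (A - 1) + 169 / 300) / A ^ 3 := by
    unfold θC w₁C
    field_simp
    ring
  have hen : enC (3 / 2 * (A - 0)) (2 * A) (1 / A + 5 * 0) (errD A 0) (1 / 2 + 0) =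
      4 / (9 * A ^ 2) * (Real.exp (3 / 4 * A) *
        (1 + Real.exp (-(3 / 2)) * (2 * A - 1 + √2 * √(π * (3 / 2 * A))))) := by
    have h1 : errD A 0 = 0 := by
      unfold errD
      simp
    rw [h1]
    unfold enC
    have h2 : Real.exp (3 / 2 * (A - 0) / 2) = Real.exp (3 / 4 * A) := by
      congr 1
      ring
    have h3 : Real.exp (3 / 2 * (A - 0) * (1 / 2 - (1 / A + 5 * 0))) =
        Real.exp (3 / 4 * A) * Real.exp (-(3 / 2)) := by
      rw [← Real.exp_add]
      congr 1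
      field_simp
      ring
    have h4 : 2 * A * (1 / A + 5 * 0) = 2 := by
      field_simp
      ring
    rw [h2, h3, h4, sub_zero]
    field_simp
    ring
  have hg : gC (w₁C A 0) (θC A 0) (A - 0) (1 / 2 + 0) 0 =
      Real.exp (A / 4) * 2 * A ^ 5 / (p ^ 4 * (1 - x) ^ 2 * Real.exp (-1) ^ 2 * D ^ 2) := by
    unfold gC
    rw [sub_zero, hNN, hS]
    have h1 : Real.exp (A * (1 / 2 + 0) / 2) = Real.exp (A / 4) := by
      congr 1
      ring
    rw [h1]
    have h2 : 0 < 1 - x := by linarith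
    have := Real.exp_pos (-1)
    field_simp
    ring
  set B := 1 + Real.exp (-(3 / 2)) * (2 * A - 1 + √2 * √(π * (3 / 2 * A))) with hB
  have hΦ : ΦC A 0 = 8 / 9 * (Real.exp 2 * (13 / 10) *
      ((A - 1) ^ 2 - 13 / 10 * (A - 1) + 169 / 300) * B) * x / ((1 - x) ^ 2 * D ^ 2) := by
    unfold ΦC
    rw [hg, hs, hen]
    have h1 : Real.exp (A / 4) * Real.exp (3 / 4 * A) = p ^ 2 := by
      rw [hp, ← Real.exp_nat_mul, ← Real.exp_add]
      congr 1
      push_cast
      ring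
    have h2 : Real.exp 2 * Real.exp (-1) ^ 2 = 1 := by
      rw [← Real.exp_nat_mul, ← Real.exp_add]
      convert Real.exp_zero using 2
      push_cast
      ring
    have h3 : 0 < 1 - x := by linarith
    have h4 := Real.exp_pos (-1)
    have h5 : x = 1 / p ^ 2 := by
      field_simp
      linarith
    have h6 : Real.exp 2 = 1 / Real.exp (-1) ^ 2 := by
      field_simp
      linarith
    have h7 : Real.exp (A / 4) * 2 * A ^ 5 / (p ^ 4 * (1 - x) ^ 2 * Real.exp (-1) ^ 2 * D ^ 2) *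
        ((13 / 10) * ((A - 1) ^ 2 - 13 / 10 * (A - 1) + 169 / 300) / A ^ 3) *
        (4 / (9 * A ^ 2) * (Real.exp (3 / 4 * A) * B)) =
        (Real.exp (A / 4) * Real.exp (3 / 4 * A)) * (8 / 9) * (13 / 10) *
        ((A - 1) ^ 2 - 13 / 10 * (A - 1) + 169 / 300) * B /
          (p ^ 4 * (1 - x) ^ 2 * Real.exp (-1) ^ 2 * D ^ 2) := by
      field_simp
      ring
    rw [h7, h1, h6]
    have h8 : 8 / 9 * (1 / Real.exp (-1) ^ 2 * (13 / 10) *
        ((A - 1) ^ 2 - 13 / 10 * (A - 1) + 169 / 300) * B) * x / ((1 - x) ^ 2 * D ^ 2) =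
        8 / 9 * (1 / Real.exp (-1) ^ 2 * (13 / 10) *
        ((A - 1) ^ 2 - 13 / 10 * (A - 1) + 169 / 300) * B) * (1 / p ^ 2) /
          ((1 - x) ^ 2 * D ^ 2) := by rw [← h5]
    rw [h8]
    field_simp
  rw [hΦ]
  have hB1 : B ≤ 161584 / 100000 + 586102 / 1000000 * A := by
    have h1 : √2 * √(π * (3 / 2 * A)) ≤ 6267 / 10000 * A + 376 / 100 := by
      rw [← Real.sqrt_mul (by norm_num)]
      refine Real.sqrt_le_iff.mpr ⟨by positivity, ?_⟩
      have := Real.pi_lt_d4
      nlinarith [sq_nonneg (A - 6)]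
    have h2 : 0 ≤ √2 * √(π * (3 / 2 * A)) := by positivity
    have h3 := exp15
    rw [hB]
    have h4 : 0 < Real.exp (-(3 / 2)) := Real.exp_pos _
    nlinarith
  have hB0 : 0 < B := by
    rw [hB]
    have h2 : 0 ≤ √2 * √(π * (3 / 2 * A)) := by positivity
    have h4 : 0 < Real.exp (-(3 / 2)) := Real.exp_pos _
    have h5 : 0 ≤ 2 * A - 1 + √2 * √(π * (3 / 2 * A)) := by linarith
    positivity
  have hR0 : 0 < (A - 1) ^ 2 - 13 / 10 * (A - 1) + 169 / 300 := by nlinarith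
  have h2 : 0 < 1 - x := by linarith
  rw [div_lt_iff₀ (by positivity)]
  have hL : 8 / 9 * (Real.exp 2 * (13 / 10) * ((A - 1) ^ 2 - 13 / 10 * (A - 1) + 169 / 300) * B) ≤
      8 / 9 * (73891 / 10000 * (13 / 10) * ((A - 1) ^ 2 - 13 / 10 * (A - 1) + 169 / 300) *
        (161584 / 100000 + 586102 / 1000000 * A)) := by
    have := exp2
    have h3 : 0 < 161584 / 100000 + 586102 / 1000000 * A := by positivity
    gcongr
  have hD2 : (72744 / 100000 * A - 110056 / 100000) ^ 2 ≤ D ^ 2 :=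
    pow_le_pow_left₀ (by nlinarith) hD0 2
  have hx2 : (986 / 1000 : ℝ) ≤ (1 - x) ^ 2 := by nlinarith
  have hR : 12 * (A + 1) * (986 / 1000 * (72744 / 100000 * A - 110056 / 100000) ^ 2) ≤
      12 * (A + 1) * ((1 - x) ^ 2 * D ^ 2) := by
    refine mul_le_mul_of_nonneg_left ?_ (by positivity)
    exact mul_le_mul hx2 hD2 (sq_nonneg _) (sq_nonneg _)
  have hfin : 8 / 9 * (73891 / 10000 * (13 / 10) * ((A - 1) ^ 2 - 13 / 10 * (A - 1) + 169 / 300) *
        (161584 / 100000 + 586102 / 1000000 * A)) <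
      12 * (A + 1) * (986 / 1000 * (72744 / 100000 * A - 110056 / 100000) ^ 2) := by
    obtain ⟨z, hz0, rfl⟩ : ∃ z : ℝ, 0 ≤ z ∧ A = 496 / 100 + z := ⟨A - 496 / 100, by linarith, by
      ring⟩
    have e1 : 12 * (496 / 100 + z + 1) * (986 / 1000 *
        (72744 / 100000 * (496 / 100 + z) - 110056 / 100000) ^ 2) -
        8 / 9 * (73891 / 10000 * (13 / 10) * ((496 / 100 + z - 1) ^ 2 -
        13 / 10 * (496 / 100 + z - 1) + 169 / 300) *
        (161584 / 100000 + 586102 / 1000000 * (496 / 100 + z))) =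
        979147259416875539 / 65917968750000000 +
        215897784593649457 / 10546875000000000 * z +
        614053218930353 / 70312500000000 * z ^ 2 +
        1767214708387 / 1406250000000 * z ^ 3 := by ring
    have h5 : 0 < 979147259416875539 / 65917968750000000 +
        215897784593649457 / 10546875000000000 * z +
        614053218930353 / 70312500000000 * z ^ 2 +
        1767214708387 / 1406250000000 * z ^ 3 := by positivity
    linarith
  calc 8 / 9 * (Real.exp 2 * (13 / 10) *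
      ((A - 1) ^ 2 - 13 / 10 * (A - 1) + 169 / 300) * B) * x
      ≤ 8 / 9 * (73891 / 10000 * (13 / 10) * ((A - 1) ^ 2 - 13 / 10 * (A - 1) + 169 / 300) *
        (161584 / 100000 + 586102 / 1000000 * A)) * x := mul_le_mul_of_nonneg_right hL hx0.le
    _ < 12 * (A + 1) * (986 / 1000 * (72744 / 100000 * A - 110056 / 100000) ^ 2) * x :=
        mul_lt_mul_of_pos_right hfin hx0
    _ ≤ 12 * (A + 1) * ((1 - x) ^ 2 * D ^ 2) * x := mul_le_mul_of_nonneg_right hR hx0.le
    _ = _ := by ring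

end Pool.Agent.MP0016c7.PC
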