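import Mathlib
import Pool.Agent.Lib.MP_0016c7_nt.PC.CwE

set_option autoImplicit false

/-!
The window certificate for prime conductors: final form.
-/

open Finset MeasureTheory Filter Topology
open scoped Real ContDiff

namespace Pool.Agent.MP0016c7.PC

open Pool.Agent.MP0016c7.Rz

private lemma exp13 : (3669 : ℝ) / 1000 < Real.exp (13 / 10) ∧ Real.exp (13 / 10) < 367 / 100 := by
  have h1 := Real.exp_one_gt_d9
  have h2 := Real.exp_one_lt_d9
  have h0 : Real.exp (13 / 10) ^ 10 = Real.exp 1 ^ 13 := by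
    rw [← Real.exp_nat_mul, ← Real.exp_nat_mul]
    norm_num
  constructor
  · by_contra hcon
    push Not at hcon
    have h3 : Real.exp (13 / 10) ^ 10 ≤ (3669 / 1000) ^ 10 :=
      pow_le_pow_left₀ (Real.exp_pos _).le hcon 10
    rw [h0] at h3
    have h4 : (2.7182818283 : ℝ) ^ 13 ≤ Real.exp 1 ^ 13 :=
      pow_le_pow_left₀ (by norm_num) h1.le 13
    norm_num at h3 h4
    linarith
  · by_contra hcon
    push Not at hcon
    have h3 : ((367 : ℝ) / 100) ^ 10 ≤ Real.exp (13 / 10) ^ 10 :=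
      pow_le_pow_left₀ (by norm_num) hcon 10
    rw [h0] at h3
    have h4 : Real.exp 1 ^ 13 ≤ (2.7182818286 : ℝ) ^ 13 :=
      pow_le_pow_left₀ (Real.exp_pos _).le h2.le 13
    norm_num at h3 h4
    linarith

private lemma err_eq {A δ : ℝ} (hA : 0 < A) (hδ : 0 < δ) :
    errC (2 * A) (1 / A + 5 * δ) δ δ = errD A δ := by
  unfold errC errD
  have h1 : √((1 / A + 5 * δ) / (2 * A * δ)) * δ = √((1 / A + 5 * δ) * δ / (2 * A)) := by
    have h2 : (1 / A + 5 * δ) * δ / (2 * A) = ((1 / A + 5 * δ) / (2 * A * δ)) * δ ^ 2 := by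
      field_simp
    rw [h2, Real.sqrt_mul (by positivity), Real.sqrt_sq hδ.le]
  rw [← h1]
  ring

private lemma contw (A : ℝ) : Continuous (w₁C A) := by
  unfold w₁C
  fun_prop

private lemma contθ (A : ℝ) : Continuous (θC A) := by
  unfold θC
  fun_prop

private lemma contN (A : ℝ) : Continuous (fun δ => NNc (w₁C A δ) (θC A δ) (A - δ)) := by
  unfold NNc
  have h1 := contw A
  have h2 := contθ A
  fun_prop

private lemma NN0 {A : ℝ} (hA : 496 / 100 ≤ A) : 0 < NNc (w₁C A 0) (θC A 0) (A - 0) := by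
  have hA0 : 0 < A := by linarith
  unfold NNc w₁C θC
  have h1 : Real.exp ((A - 0) * (1 / 2 - 1 / A - 11 * 0)) = Real.exp (A / 2 - 1) := by
    congr 1
    field_simp
    ring
  have h2 : Real.exp ((A - 0) * (1 / 2 - 23 / (10 * A) - 11 * 0)) = Real.exp (A / 2 - 23 / 10) := by
    congr 1
    field_simp
    ring
  have h3 : (A - 0) * (1 / 2 + (1 / 2 - 1 / A - 11 * 0)) - 1 = A - 2 := by
    field_simp
    ring
  have h4 : (A - 0) * (1 / 2 + (1 / 2 - 23 / (10 * A) - 11 * 0)) - 1 = A - 33 / 10 := by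
    field_simp
    ring
  rw [h1, h2, h3, h4]
  have h5 : Real.exp (A / 2 - 23 / 10) ≤ Real.exp (A / 2 - 1) := Real.exp_le_exp.mpr (by linarith)
  have h6 : 0 < Real.exp (A / 2 - 23 / 10) := Real.exp_pos _
  nlinarith

private lemma Mon0 {A : ℝ} (hA : 496 / 100 ≤ A) :
    Real.exp ((A - 0) * w₁C A 0) * ((A - 0) ^ 2 * w₁C A 0 ^ 2 + (A - 0) ^ 2 * w₁C A 0 / 2 -
      3 * (A - 0) * w₁C A 0 - (A - 0) + 3) <
    Real.exp ((A - 0) * θC A 0) * ((A - 0) ^ 2 * θC A 0 ^ 2 + (A - 0) ^ 2 * θC A 0 / 2 -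
      3 * (A - 0) * θC A 0 - (A - 0) + 3) := by
  have hA0 : 0 < A := by linarith
  have h1 : (A - 0) * w₁C A 0 = (A / 2 - 1) - 13 / 10 := by
    unfold w₁C
    field_simp
    ring
  have h2 : (A - 0) * θC A 0 = A / 2 - 1 := by
    unfold θC
    field_simp
    ring
  obtain ⟨z, hz⟩ : ∃ z : ℝ, z = A / 2 - 1 := ⟨_, rfl⟩
  have hz1 : 148 / 100 ≤ z := by rw [hz]; linarith
  have hAz : A = 2 * z + 2 := by rw [hz]; ring
  have e1 : (A - 0) ^ 2 * w₁C A 0 ^ 2 + (A - 0) ^ 2 * w₁C A 0 / 2 -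
      3 * (A - 0) * w₁C A 0 - (A - 0) + 3 = 2 * z ^ 2 - 79 / 10 * z + 529 / 100 := by
    have : (A - 0) ^ 2 * w₁C A 0 ^ 2 + (A - 0) ^ 2 * w₁C A 0 / 2 -
      3 * (A - 0) * w₁C A 0 - (A - 0) + 3 = ((A - 0) * w₁C A 0) ^ 2 +
        A * ((A - 0) * w₁C A 0) / 2 - 3 * ((A - 0) * w₁C A 0) - A + 3 := by ring
    rw [this, h1, ← hz, hAz]
    ring
  have e2 : (A - 0) ^ 2 * θC A 0 ^ 2 + (A - 0) ^ 2 * θC A 0 / 2 -
      3 * (A - 0) * θC A 0 - (A - 0) + 3 = 2 * z ^ 2 - 4 * z + 1 := by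
    have : (A - 0) ^ 2 * θC A 0 ^ 2 + (A - 0) ^ 2 * θC A 0 / 2 -
      3 * (A - 0) * θC A 0 - (A - 0) + 3 = ((A - 0) * θC A 0) ^ 2 +
        A * ((A - 0) * θC A 0) / 2 - 3 * ((A - 0) * θC A 0) - A + 3 := by ring
    rw [this, h2, ← hz, hAz]
    ring
  rw [e1, e2, h1, h2, ← hz]
  have e3 : Real.exp z = Real.exp (z - 13 / 10) * Real.exp (13 / 10) := by
    rw [← Real.exp_add]
    congr 1
    ring
  rw [e3, mul_assoc]
  refine mul_lt_mul_of_pos_left ?_ (Real.exp_pos _)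
  obtain ⟨h5, h6⟩ := exp13
  rcases le_or_gt 0 (2 * z ^ 2 - 4 * z + 1) with h | h
  · calc 2 * z ^ 2 - 79 / 10 * z + 529 / 100 < 3669 / 1000 * (2 * z ^ 2 - 4 * z + 1) := by
          nlinarith
      _ ≤ Real.exp (13 / 10) * (2 * z ^ 2 - 4 * z + 1) := mul_le_mul_of_nonneg_right h5.le h
  · calc 2 * z ^ 2 - 79 / 10 * z + 529 / 100 < 367 / 100 * (2 * z ^ 2 - 4 * z + 1) := by
          nlinarith
      _ ≤ Real.exp (13 / 10) * (2 * z ^ 2 - 4 * z + 1) :=
          mul_le_mul_of_nonpos_right h6.le h.le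

private lemma contG {A : ℝ} (hA : 496 / 100 ≤ A) : ContinuousAt (fun δ =>
    gC (w₁C A δ) (θC A δ) (A - δ) (1 / 2 + δ) δ) 0 := by
  have hA0 : 0 < A := by linarith
  unfold gC
  have hN := contN A
  have hN3 : ContinuousAt (fun δ => NNc (w₁C A δ) (θC A δ) (A - δ) / (A - δ) ^ 3) 0 :=
    ContinuousAt.div hN.continuousAt (by fun_prop) (by
      rw [sub_zero]
      positivity)
  refine ContinuousAt.div (by fun_prop) (ContinuousAt.mul (by fun_prop) (hN3.pow 2)) ?_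
  have h1 : 0 < Real.sinh ((A - 0) * (1 / 2 + 0)) := Real.sinh_pos_iff.mpr (by
    rw [sub_zero]
    positivity)
  have h2 := NN0 hA
  have h3 : 0 < A - 0 := by linarith
  positivity

private lemma contE {A : ℝ} (hA : 496 / 100 ≤ A) : ContinuousAt (fun δ =>
    enC (3 / 2 * (A - δ)) (2 * A) (1 / A + 5 * δ) (errD A δ) (1 / 2 + δ)) 0 := by
  have hA0 : 0 < A := by linarith
  have h1 : ContinuousAt (errD A) 0 := by
    unfold errD
    have h2 : ContinuousAt (fun δ : ℝ => 4 / √((1 / A + 5 * δ) / (2 * A))) 0 := by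
      refine ContinuousAt.div (by fun_prop) (by fun_prop) ?_
      have : 0 < √((1 / A + 5 * 0) / (2 * A)) := Real.sqrt_pos.mpr (by positivity)
      exact this.ne'
    fun_prop
  unfold enC
  have h3 : ContinuousAt (fun δ : ℝ => 1 / (3 / 2 * (A - δ)) ^ 2) 0 := by
    refine ContinuousAt.div (by fun_prop) (by fun_prop) ?_
    rw [sub_zero]
    positivity
  have h4 : ContinuousAt (fun δ : ℝ => Real.exp (3 / 2 * (A - δ) * (1 / 2 + δ)) /
      (3 / 2 * (A - δ))) 0 := by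
    refine ContinuousAt.div (by fun_prop) (by fun_prop) ?_
    rw [sub_zero]
    positivity
  refine ContinuousAt.add (ContinuousAt.mul h3 ?_) (ContinuousAt.mul h1 h4)
  fun_prop

/-- The certificates for the zeros outside the window `|s - 1/2| log q < A`. -/
theorem certCw (hpt : JF_pt) {A : ℝ} (hA : 496 / 100 ≤ A) :
    ∃ (A' δ κ μ E : ℝ) (J : ℕ) (ws cs : ℕ → ℝ) (w u₁ u₂ y : ℝ → ℝ) (g₁ g₂ : ℝ),
      0 < A' ∧ A' < A ∧ CertM A' δ κ μ J ws cs w u₁ u₂ y g₁ g₂ ∧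
      EnBd J ws cs δ κ w u₁ u₂ y g₁ g₂ E ∧ 0 ≤ E ∧ E < 12 * (A + 1) * Real.exp (-A) := by
  have hA0 : 0 < A := by linarith
  have hΦ0 := Phi0 hA
  have hΦc : ContinuousAt (ΦC A) 0 := by
    unfold ΦC
    have h1 := contw A
    have h2 := contθ A
    exact (ContinuousAt.mul (contG hA) (by fun_prop)).mul (contE hA)
  have ev1 : ∀ᶠ δ in 𝓝 (0 : ℝ), ΦC A δ < 12 * (A + 1) * Real.exp (-A) :=
    hΦc.eventually (gt_mem_nhds hΦ0)
  have ev2 : ∀ᶠ δ in 𝓝 (0 : ℝ), 0 < NNc (w₁C A δ) (θC A δ) (A - δ) :=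
    (contN A).continuousAt.eventually (lt_mem_nhds (NN0 hA))
  have ev3 : ∀ᶠ δ in 𝓝 (0 : ℝ), 0 <
      Real.exp ((A - δ) * θC A δ) * ((A - δ) ^ 2 * θC A δ ^ 2 + (A - δ) ^ 2 * θC A δ / 2 -
        3 * (A - δ) * θC A δ - (A - δ) + 3) -
      Real.exp ((A - δ) * w₁C A δ) * ((A - δ) ^ 2 * w₁C A δ ^ 2 + (A - δ) ^ 2 * w₁C A δ / 2 -
        3 * (A - δ) * w₁C A δ - (A - δ) + 3) := by
    have hc : Continuous (fun δ : ℝ =>
        Real.exp ((A - δ) * θC A δ) * ((A - δ) ^ 2 * θC A δ ^ 2 + (A - δ) ^ 2 * θC A δ / 2 -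
        3 * (A - δ) * θC A δ - (A - δ) + 3) -
      Real.exp ((A - δ) * w₁C A δ) * ((A - δ) ^ 2 * w₁C A δ ^ 2 + (A - δ) ^ 2 * w₁C A δ / 2 -
        3 * (A - δ) * w₁C A δ - (A - δ) + 3)) := by
      have h1 := contw A
      have h2 := contθ A
      fun_prop
    have h0 := Mon0 hA
    exact hc.continuousAt.eventually (lt_mem_nhds (by linarith))
  obtain ⟨η, hη, hev⟩ := Metric.eventually_nhds_iff.mp (ev1.and (ev2.and ev3))
  set δ := min (η / 2) (min (1 / 1000) (1 / (1000 * A))) with hδ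
  have hδ0 : 0 < δ := by
    rw [hδ]
    exact lt_min (by linarith) (lt_min (by norm_num) (by positivity))
  have hδ1 : δ ≤ 1 / 1000 := (min_le_right _ _).trans (min_le_left _ _)
  have hδ2 : δ ≤ 1 / (1000 * A) := (min_le_right _ _).trans (min_le_right _ _)
  have hδ3 : δ < η := (min_le_left _ _).trans_lt (by linarith)
  obtain ⟨hE, hN, hm⟩ := hev (show dist δ 0 < η by
    rw [Real.dist_eq, sub_zero, abs_of_pos hδ0]
    exact hδ3)
  clear_value δ
  have hδA : δ * A ≤ 1 / 1000 := by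
    calc δ * A ≤ 1 / (1000 * A) * A := mul_le_mul_of_nonneg_right hδ2 hA0.le
      _ = 1 / 1000 := by field_simp
  have hAinv : 1 / A ≤ 100 / 496 := by
    rw [div_le_div_iff₀ hA0 (by norm_num)]
    linarith
  have hAinv' : 23 / (10 * A) = 23 / 10 * (1 / A) := by field_simp
  have hAi0 : 0 < 1 / A := by positivity
  have hδi : 1000 * δ ≤ 1 / A := by
    rw [le_div_iff₀ hA0]
    linarith
  have hw₁ : 0 < w₁C A δ := by
    unfold w₁C
    rw [hAinv']
    linarith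
  have hwθ : w₁C A δ + δ ≤ θC A δ := by
    unfold w₁C θC
    rw [hAinv']
    linarith
  have hlen : θC A δ + 10 * δ + 2 / (2 * A) < 1 / 2 := by
    unfold θC
    have : 2 / (2 * A) = 1 / A := by field_simp
    rw [this]
    linarith
  have hYs : 1 / 2 - θC A δ - 6 * δ = 1 / A + 5 * δ := by
    unfold θC
    ring
  have hH0 : 0 < HJ (wsC (w₁C A δ) (θC A δ)) csC 2 0 := by
    rw [HJ_C]
    unfold Hid
    rw [if_neg (by linarith), if_neg (by linarith)]
    simp only [max_self]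
    nlinarith
  have hA'0 : 0 < A - δ := by linarith
  have hmon : MonC (w₁C A δ) (θC A δ) (A - δ) := by
    unfold MonC
    linarith
  have hV0 : (0 : ℝ) < 1 / 2 + δ := by linarith
  have hgp := gC_pos (w₁ := w₁C A δ) (θ₀ := θC A δ) hA'0 hV0 hδ0 hN
  have hwp : ∀ v, 0 < wC (w₁C A δ) (θC A δ) (A - δ) (1 / 2 + δ) δ v := by
    intro v
    unfold wC
    exact mul_pos hgp (Real.exp_pos _)
  have hs0 : 0 ≤ ((θC A δ + 1 / 2) ^ 3 - (w₁C A δ + 1 / 2) ^ 3) / 3 := by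
    have : (w₁C A δ + 1 / 2) ^ 3 ≤ (θC A δ + 1 / 2) ^ 3 :=
      pow_le_pow_left₀ (by linarith) (by linarith) 3
    linarith
  have herr : 0 ≤ errD A δ := by
    unfold errD
    have h5 : 0 < 1 / A + 5 * δ := by linarith
    positivity
  have hen : (∫ v in (0 : ℝ)..(1 / 2 + δ), wC (w₁C A δ) (θC A δ) (A - δ) (1 / 2 + δ) δ v *
      ((((θC A δ + 1 / 2) ^ 3 - (w₁C A δ + 1 / 2) ^ 3) / 3) *
      (SIG (2 * A) (1 / 2 - θC A δ - 6 * δ) (1 / 2 - v) +
        errC (2 * A) (1 / 2 - θC A δ - 6 * δ) δ δ))) ≤ ΦC A δ := by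
    rw [hYs, err_eq hA0 hδ0]
    have e1 : (fun v : ℝ => wC (w₁C A δ) (θC A δ) (A - δ) (1 / 2 + δ) δ v *
        ((((θC A δ + 1 / 2) ^ 3 - (w₁C A δ + 1 / 2) ^ 3) / 3) *
        (SIG (2 * A) (1 / A + 5 * δ) (1 / 2 - v) + errD A δ))) = fun v =>
        (gC (w₁C A δ) (θC A δ) (A - δ) (1 / 2 + δ) δ *
        (((θC A δ + 1 / 2) ^ 3 - (w₁C A δ + 1 / 2) ^ 3) / 3)) *
        (Real.exp (3 / 2 * (A - δ) * v) * (SIG (2 * A) (1 / A + 5 * δ) (1 / 2 - v) +
          errD A δ)) := by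
      funext v
      unfold wC
      ring
    rw [e1, intervalIntegral.integral_const_mul]
    unfold ΦC
    refine mul_le_mul_of_nonneg_left ?_ (mul_nonneg hgp.le hs0)
    exact int_SIG (by positivity) (by linarith) (by linarith) (by linarith) herr (by linarith)
  have hEn := cw_en hpt hδ0 (by linarith : δ ≤ 1 / 100) (by linarith : 1 ≤ 2 * A) hw₁ hwθ
    (by
      unfold θC
      linarith) hδ0 (by linarith : δ ≤ 1) (wC_cont (w₁C A δ) (θC A δ) (A - δ) (1 / 2 + δ) δ) hwp hen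
  have hE0 : 0 ≤ ΦC A δ := by
    refine le_trans ?_ hen
    refine intervalIntegral.integral_nonneg hV0.le fun v _ => ?_
    rw [hYs, err_eq hA0 hδ0]
    have h5 : 0 ≤ SIG (2 * A) (1 / A + 5 * δ) (1 / 2 - v) := by
      unfold SIG
      have h6 : 0 ≤ max (1 / 2 - v - (1 / A + 5 * δ)) 0 := le_max_right _ _
      have h7 : 0 ≤ max (1 / 2 - v) 0 := le_max_right _ _
      have h8 : 0 ≤ 2 * A - 1 := by linarith
      positivity
    exact mul_nonneg (hwp v).le (mul_nonneg hs0 (by linarith))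
  refine ⟨A - δ, δ, 2 * A, δ, ΦC A δ, 2, wsC (w₁C A δ) (θC A δ), csC,
    wC (w₁C A δ) (θC A δ) (A - δ) (1 / 2 + δ) δ, fun _ => 0, fun _ => 0,
    fun _ => HJ (wsC (w₁C A δ) (θC A δ)) csC 2 0, 0, 0, hA'0, by linarith, ?_, hEn, hE0, hE⟩
  refine ⟨by norm_num, hδ0, by linarith, hδ0, ?_, ?_, ?_, ?_, by linarith, ?_,
    wC_cont _ _ _ _ _, hwp, le_rfl, le_rfl, continuous_const, continuous_const,
    continuous_const, fun _ _ => hH0.le, ?_, ?_⟩
  · simpa [wsC] using hw₁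
  · intro k hk
    have hk0 : k = 0 := by omega
    subst hk0
    simpa [wsC] using hwθ
  · intro k _
    unfold csC
    split_ifs <;> norm_num
  · simp [csC]
  · simpa [wsC] using hlen
  · rw [intervalIntegral.integral_const, smul_eq_mul, sub_zero]
    exact mul_pos hV0 hH0
  · intro a ha f hf
    have h5 := cw_main hw₁ (by linarith : w₁C A δ < θC A δ) hA'0 hV0 hδ0 hmon hN a ha f hf
    have h6 : qP (wC (w₁C A δ) (θC A δ) (A - δ) (1 / 2 + δ) δ) (fun _ => 0) (fun _ => 0) 0 0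
        (1 / 2 + δ) f = ∫ v in (0 : ℝ)..(1 / 2 + δ),
          wC (w₁C A δ) (θC A δ) (A - δ) (1 / 2 + δ) δ v * f v ^ 2 := by
      unfold qP
      ring
    have h7 : wsC (w₁C A δ) (θC A δ) (2 - 1) = θC A δ := by simp [wsC]
    rw [h6, h7]
    exact h5

end Pool.Agent.MP0016c7.PC
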