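import Mathlib
import Pool.Agent.Lib.MP_0016c7_nt.Theta
import Pool.Agent.Lib.MP_0016c7_nt.Rz.Defs
import Pool.Agent.Lib.MP_0016c7_nt.Rz.DefsC
import Pool.Agent.Lib.MP_0016c7_nt.Rz.DefsF
import Pool.Agent.Lib.MP_0016c7_nt.Rz.DefsE
import Pool.Agent.Lib.MP_0016c7_nt.PC.DefsM
import Pool.Agent.Lib.MP_0016c7_nt.PC.Eul2p

set_option autoImplicit false

open Finset MeasureTheory Filter Topology
open scoped Real ContDiff

namespace Pool.Agent.MP0016c7.PC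

open Pool.Agent.MP0016c7.Rz

private lemma eul3_cauchy (f : ℂ → ℂ) (M : ℝ)
    (hd : ∀ s : ℂ, |s.re| ≤ 1 / 50 → DifferentiableAt ℂ f s)
    (hb : ∀ s : ℂ, |s.re| ≤ 1 / 50 → ‖f s‖ ≤ M) (s w : ℂ)
    (hs : |s.re| ≤ 1 / 100) (hw : |w.re| ≤ 1 / 100) :
    ‖f s - f w‖ ≤ 100 * M * ‖s - w‖ := by
  have hconv : Convex ℝ {s : ℂ | |s.re| ≤ 1 / 100} := by
    have h1 : Convex ℝ {s : ℂ | s.re ≤ 1 / 100} := convex_halfSpace_re_le _
    have h2 : Convex ℝ {s : ℂ | -(1 / 100) ≤ s.re} := convex_halfSpace_re_ge _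
    have : {s : ℂ | |s.re| ≤ 1 / 100} = {s : ℂ | -(1 / 100) ≤ s.re} ∩ {s : ℂ | s.re ≤ 1 / 100} := by
      ext s
      simp only [Set.mem_ofPred_eq, Set.mem_inter_iff, abs_le]
    rw [this]
    exact h2.inter h1
  have hder : ∀ s ∈ {s : ℂ | |s.re| ≤ 1 / 100}, ‖deriv f s‖ ≤ 100 * M := by
    intro s hs
    have hs' : |s.re| ≤ 1 / 100 := hs
    have hin : ∀ t ∈ Metric.closedBall s (1 / 100 : ℝ), |t.re| ≤ 1 / 50 := by
      intro t ht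
      have h1 : ‖t - s‖ ≤ 1 / 100 := by
        rw [Metric.mem_closedBall, dist_eq_norm] at ht
        exact ht
      have h2 : |(t - s).re| ≤ 1 / 100 := (Complex.abs_re_le_norm _).trans h1
      have h3 : t.re = s.re + (t - s).re := by simp
      rw [h3]
      calc |s.re + (t - s).re| ≤ |s.re| + |(t - s).re| := abs_add_le _ _
        _ ≤ 1 / 100 + 1 / 100 := add_le_add hs' h2
        _ = 1 / 50 := by norm_num
    have hdc : DiffContOnCl ℂ f (Metric.ball s (1 / 100 : ℝ)) := by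
      apply DifferentiableOn.diffContOnCl
      intro t ht
      have : t ∈ Metric.closedBall s (1 / 100 : ℝ) := Metric.closure_ball_subset_closedBall ht
      exact (hd t (hin t this)).differentiableWithinAt
    have hsp : ∀ t ∈ Metric.sphere s (1 / 100 : ℝ), ‖f t‖ ≤ M := by
      intro t ht
      exact hb t (hin t (Metric.sphere_subset_closedBall ht))
    have := Complex.norm_deriv_le_of_forall_mem_sphere_norm_le (by norm_num) hdc hsp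
    calc ‖deriv f s‖ ≤ M / (1 / 100) := this
      _ = 100 * M := by ring
  have := Convex.norm_image_sub_le_of_norm_deriv_le (𝕜 := ℂ) (f := f) (C := 100 * M)
    (s := {s : ℂ | |s.re| ≤ 1 / 100}) (x := w) (y := s) ?_ hder hconv hw hs
  · exact this
  · intro t ht
    have ht' : |t.re| ≤ 1 / 100 := ht
    exact hd t (ht'.trans (by norm_num))

private lemma eul3_nz {q x y x' y' u v : ℂ} (h : locZx q x y x' y' u v ≠ 0) :
    (1 - x ^ 2 / q) ≠ 0 ∧ (1 - x' ^ 2 / q) ≠ 0 ∧ (1 - x * x' / q) ≠ 0 ∧ (1 - y * y' / q) ≠ 0 ∧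
    (1 - x * u / q) ≠ 0 ∧ (1 - x' * u / q) ≠ 0 ∧ (1 - y * v / q) ≠ 0 ∧ (1 - y' * v / q) ≠ 0 := by
  unfold locZx at h
  have h1 := (div_ne_zero_iff.1 h).2
  have h0 := (div_ne_zero_iff.1 (mul_ne_zero_iff.1 (div_ne_zero_iff.1 h).1).1).2
  simp only [mul_ne_zero_iff] at h1 h0
  tauto

private lemma eul3_dZ {q y y' u v : ℂ} {X X' : ℂ → ℂ} {s : ℂ} (hX : DifferentiableAt ℂ X s)
    (hX' : DifferentiableAt ℂ X' s) (h : locZx q (X s) y (X' s) y' u v ≠ 0) :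
    DifferentiableAt ℂ (fun t => locZx q (X t) y (X' t) y' u v) s := by
  obtain ⟨n1, n2, n3, n4, n5, n6, n7, n8⟩ := eul3_nz h
  unfold locZx
  have hd : (1 - X s ^ 2 / q) * (1 - X' s ^ 2 / q) * (1 - X s * X' s / q) * (1 - y * y' / q) ≠ 0 := by
    simp only [mul_ne_zero_iff]
    tauto
  have hd' : (1 - X s * u / q) * (1 - X' s * u / q) * (1 - y * v / q) * (1 - y' * v / q) ≠ 0 := by
    simp only [mul_ne_zero_iff]
    tauto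
  fun_prop (disch := assumption)

private lemma eul3_dO {q y y' u v : ℂ} {X X' : ℂ → ℂ} {s : ℂ} (hX : DifferentiableAt ℂ X s)
    (hX' : DifferentiableAt ℂ X' s) (h : locZx q (X s) y (X' s) y' u v ≠ 0) :
    DifferentiableAt ℂ (fun t => locOxp q (X t) y (X' t) y' u v) s := by
  obtain ⟨n1, n2, n3, n4, n5, n6, n7, n8⟩ := eul3_nz h
  unfold locOxp
  have hd : (1 - X s ^ 2 / q) * (1 - X' s ^ 2 / q) ≠ 0 := by
    simp only [mul_ne_zero_iff]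
    tauto
  fun_prop (disch := assumption)

private lemma eul3_pow {p : ℕ} (hp : p.Prime) (s : ℂ) :
    DifferentiableAt ℂ (fun t : ℂ => (p : ℂ) ^ (-t)) s := by
  have hp0 : (p : ℂ) ≠ 0 := by exact_mod_cast hp.ne_zero
  exact DifferentiableAt.const_cpow (by fun_prop) (Or.inl hp0)

theorem loc_lipschitzp : ∃ C : ℝ, 0 < C ∧ ∀ p : ℕ, p.Prime → ∀ s₁ w₁ s₂ w₂ z : ℂ,
    |s₁.re| ≤ 1 / 100 → |w₁.re| ≤ 1 / 100 → |s₂.re| ≤ 1 / 100 → |w₂.re| ≤ 1 / 100 →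
    |z.re| ≤ 1 / 100 →
    ‖1 / locZ p s₁ w₁ s₂ w₂ z - 1‖ ≤ C * (‖s₁ - w₁‖ + ‖s₂ - w₂‖) ∧
    (3 ≤ p → ‖locOp p s₁ w₁ s₂ w₂ z / locZ p s₁ w₁ s₂ w₂ z - 1‖ ≤
      C * (p : ℝ) ^ (-(3 / 2) : ℝ) * (‖s₁ - w₁‖ + ‖s₂ - w₂‖)) := by
  obtain ⟨C₀, c, hc, hcr⟩ := loc_crudep
  set C₁ := max C₀ 1 with hC₁
  have hC₁0 : 0 < C₁ := lt_of_lt_of_le one_pos (le_max_right _ _)
  refine ⟨100 * (1 / c + 1 + C₁ / c), by positivity, ?_⟩
  intro p hp s₁ w₁ s₂ w₂ z h1 h2 h3 h4 h5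
  have e : ∀ t : ℂ, |t.re| ≤ 1 / 100 → |t.re| ≤ 1 / 50 := fun t ht => ht.trans (by norm_num)
  have hne : ∀ a b : ℂ, |a.re| ≤ 1 / 50 → |b.re| ≤ 1 / 50 → locZ p a w₁ b w₂ z ≠ 0 := by
    intro a b ha hb
    have := (hcr p hp a w₁ b w₂ z ha (e _ h2) hb (e _ h4) (e _ h5)).1
    intro h0
    rw [h0, norm_zero] at this
    linarith
  have hbF : ∀ a b : ℂ, |a.re| ≤ 1 / 50 → |b.re| ≤ 1 / 50 →
      ‖1 / locZ p a w₁ b w₂ z - 1‖ ≤ 1 / c + 1 := by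
    intro a b ha hb
    have := (hcr p hp a w₁ b w₂ z ha (e _ h2) hb (e _ h4) (e _ h5)).1
    calc ‖1 / locZ p a w₁ b w₂ z - 1‖ ≤ ‖1 / locZ p a w₁ b w₂ z‖ + ‖(1 : ℂ)‖ := norm_sub_le _ _
      _ ≤ 1 / c + 1 := by
        rw [norm_div, norm_one]
        gcongr
  have hbG : 3 ≤ p → ∀ a b : ℂ, |a.re| ≤ 1 / 50 → |b.re| ≤ 1 / 50 →
      ‖locOp p a w₁ b w₂ z / locZ p a w₁ b w₂ z - 1‖ ≤ C₁ / c * (p : ℝ) ^ (-(3 / 2) : ℝ) := by
    intro hp3 a b ha hb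
    have hh := (hcr p hp a w₁ b w₂ z ha (e _ h2) hb (e _ h4) (e _ h5))
    have hh1 := hh.1
    have hh2 := hh.2.2 hp3
    have hn := hne a b ha hb
    have e1 : locOp p a w₁ b w₂ z / locZ p a w₁ b w₂ z - 1
        = (locOp p a w₁ b w₂ z - locZ p a w₁ b w₂ z) / locZ p a w₁ b w₂ z := by
      rw [sub_div, div_self hn]
    have hpp : (0 : ℝ) ≤ (p : ℝ) ^ (-(3 / 2) : ℝ) := by positivity
    rw [e1, norm_div]
    calc ‖locOp p a w₁ b w₂ z - locZ p a w₁ b w₂ z‖ / ‖locZ p a w₁ b w₂ z‖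
        ≤ (C₁ * (p : ℝ) ^ (-(3 / 2) : ℝ)) / c := by
          have : C₀ ≤ C₁ := le_max_left _ _
          gcongr
          exact hh2.trans (mul_le_mul_of_nonneg_right this hpp)
      _ = C₁ / c * (p : ℝ) ^ (-(3 / 2) : ℝ) := by ring
  have hdZ1 : ∀ b : ℂ, |b.re| ≤ 1 / 50 → ∀ a : ℂ, |a.re| ≤ 1 / 50 →
      DifferentiableAt ℂ (fun t => locZ p t w₁ b w₂ z) a := by
    intro b hb a ha
    exact eul3_dZ (X := fun t : ℂ => (p : ℂ) ^ (-t)) (X' := fun _ : ℂ => (p : ℂ) ^ (-b))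
      (eul3_pow hp a) (differentiableAt_const _) (hne a b ha hb)
  have hdZ2 : ∀ a : ℂ, |a.re| ≤ 1 / 50 → ∀ b : ℂ, |b.re| ≤ 1 / 50 →
      DifferentiableAt ℂ (fun t => locZ p a w₁ t w₂ z) b := by
    intro a ha b hb
    exact eul3_dZ (X := fun _ : ℂ => (p : ℂ) ^ (-a)) (X' := fun t : ℂ => (p : ℂ) ^ (-t))
      (differentiableAt_const _) (eul3_pow hp b) (hne a b ha hb)
  have hdO1 : ∀ b : ℂ, |b.re| ≤ 1 / 50 → ∀ a : ℂ, |a.re| ≤ 1 / 50 →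
      DifferentiableAt ℂ (fun t => locOp p t w₁ b w₂ z) a := by
    intro b hb a ha
    exact eul3_dO (X := fun t : ℂ => (p : ℂ) ^ (-t)) (X' := fun _ : ℂ => (p : ℂ) ^ (-b))
      (eul3_pow hp a) (differentiableAt_const _) (hne a b ha hb)
  have hdO2 : ∀ a : ℂ, |a.re| ≤ 1 / 50 → ∀ b : ℂ, |b.re| ≤ 1 / 50 →
      DifferentiableAt ℂ (fun t => locOp p a w₁ t w₂ z) b := by
    intro a ha b hb
    exact eul3_dO (X := fun _ : ℂ => (p : ℂ) ^ (-a)) (X' := fun t : ℂ => (p : ℂ) ^ (-t))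
      (differentiableAt_const _) (eul3_pow hp b) (hne a b ha hb)
  have hdiag := loc_diagp p hp w₁ w₂ z (e _ h2) (e _ h4) (e _ h5)
  constructor
  · have k1 := eul3_cauchy (fun t => 1 / locZ p t w₁ s₂ w₂ z - 1) (1 / c + 1)
      (fun t ht => ((differentiableAt_const _).div (hdZ1 s₂ (e _ h3) t ht)
        (hne t s₂ ht (e _ h3))).sub_const _)
      (fun t ht => hbF t s₂ ht (e _ h3)) s₁ w₁ h1 h2
    have k2 := eul3_cauchy (fun t => 1 / locZ p w₁ w₁ t w₂ z - 1) (1 / c + 1)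
      (fun t ht => ((differentiableAt_const _).div (hdZ2 w₁ (e _ h2) t ht)
        (hne w₁ t (e _ h2) ht)).sub_const _)
      (fun t ht => hbF w₁ t (e _ h2) ht) s₂ w₂ h3 h4
    have k0 : 1 / locZ p w₁ w₁ w₂ w₂ z - 1 = 0 := by
      rw [hdiag.1]; norm_num
    have key : 1 / locZ p s₁ w₁ s₂ w₂ z - 1
        = ((1 / locZ p s₁ w₁ s₂ w₂ z - 1) - (1 / locZ p w₁ w₁ s₂ w₂ z - 1))
          + ((1 / locZ p w₁ w₁ s₂ w₂ z - 1) - (1 / locZ p w₁ w₁ w₂ w₂ z - 1)) := by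
      rw [k0]; ring
    rw [key]
    have hcc : 0 < C₁ / c := by positivity
    have hss : 0 ≤ ‖s₁ - w₁‖ + ‖s₂ - w₂‖ := by positivity
    calc _ ≤ 100 * (1 / c + 1) * ‖s₁ - w₁‖ + 100 * (1 / c + 1) * ‖s₂ - w₂‖ :=
          (norm_add_le _ _).trans (add_le_add k1 k2)
      _ = 100 * (1 / c + 1) * (‖s₁ - w₁‖ + ‖s₂ - w₂‖) := by ring
      _ ≤ 100 * (1 / c + 1 + C₁ / c) * (‖s₁ - w₁‖ + ‖s₂ - w₂‖) := by
          apply mul_le_mul_of_nonneg_right _ hss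
          linarith
  · intro hp3
    have k1 := eul3_cauchy (fun t => locOp p t w₁ s₂ w₂ z / locZ p t w₁ s₂ w₂ z - 1)
      (C₁ / c * (p : ℝ) ^ (-(3 / 2) : ℝ))
      (fun t ht => ((hdO1 s₂ (e _ h3) t ht).div (hdZ1 s₂ (e _ h3) t ht)
        (hne t s₂ ht (e _ h3))).sub_const _)
      (fun t ht => hbG hp3 t s₂ ht (e _ h3)) s₁ w₁ h1 h2
    have k2 := eul3_cauchy (fun t => locOp p w₁ w₁ t w₂ z / locZ p w₁ w₁ t w₂ z - 1)
      (C₁ / c * (p : ℝ) ^ (-(3 / 2) : ℝ))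
      (fun t ht => ((hdO2 w₁ (e _ h2) t ht).div (hdZ2 w₁ (e _ h2) t ht)
        (hne w₁ t (e _ h2) ht)).sub_const _)
      (fun t ht => hbG hp3 w₁ t (e _ h2) ht) s₂ w₂ h3 h4
    have k0 : locOp p w₁ w₁ w₂ w₂ z / locZ p w₁ w₁ w₂ w₂ z - 1 = 0 := by
      rw [hdiag.1, hdiag.2 hp3]; norm_num
    have key : locOp p s₁ w₁ s₂ w₂ z / locZ p s₁ w₁ s₂ w₂ z - 1
        = ((locOp p s₁ w₁ s₂ w₂ z / locZ p s₁ w₁ s₂ w₂ z - 1)
            - (locOp p w₁ w₁ s₂ w₂ z / locZ p w₁ w₁ s₂ w₂ z - 1))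
          + ((locOp p w₁ w₁ s₂ w₂ z / locZ p w₁ w₁ s₂ w₂ z - 1)
            - (locOp p w₁ w₁ w₂ w₂ z / locZ p w₁ w₁ w₂ w₂ z - 1)) := by
      rw [k0]; ring
    rw [key]
    have hss : 0 ≤ ‖s₁ - w₁‖ + ‖s₂ - w₂‖ := by positivity
    have hpp : (0 : ℝ) ≤ (p : ℝ) ^ (-(3 / 2) : ℝ) := by positivity
    calc _ ≤ 100 * (C₁ / c * (p : ℝ) ^ (-(3 / 2) : ℝ)) * ‖s₁ - w₁‖
          + 100 * (C₁ / c * (p : ℝ) ^ (-(3 / 2) : ℝ)) * ‖s₂ - w₂‖ :=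
          (norm_add_le _ _).trans (add_le_add k1 k2)
      _ = 100 * (C₁ / c) * (p : ℝ) ^ (-(3 / 2) : ℝ) * (‖s₁ - w₁‖ + ‖s₂ - w₂‖) := by ring
      _ ≤ 100 * (1 / c + 1 + C₁ / c) * (p : ℝ) ^ (-(3 / 2) : ℝ) * (‖s₁ - w₁‖ + ‖s₂ - w₂‖) := by
          have hc1 : 0 < 1 / c := by positivity
          apply mul_le_mul_of_nonneg_right _ hss
          apply mul_le_mul_of_nonneg_right _ hpp
          linarith

end Pool.Agent.MP0016c7.PC
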