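import Mathlib
import Pool.Agent.Lib.MP_0016c7_nt.Theta
import Pool.Agent.Lib.MP_0016c7_nt.Rz.Defs
import Pool.Agent.Lib.MP_0016c7_nt.Rz.DefsC
import Pool.Agent.Lib.MP_0016c7_nt.Rz.DefsF
import Pool.Agent.Lib.MP_0016c7_nt.Rz.DefsE
import Pool.Agent.Lib.MP_0016c7_nt.PC.DefsM
import Pool.Agent.Lib.MP_0016c7_nt.PC.Eul1p
import Pool.Agent.Lib.MP_0016c7_nt.PC.Eul2p
import Pool.Agent.Lib.MP_0016c7_nt.PC.Eul3p

set_option autoImplicit false

open Finset MeasureTheory Filter Topology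
open scoped Real ContDiff

namespace Pool.Agent.MP0016c7.PC

open Pool.Agent.MP0016c7.Rz

/-- inverse of a convergent product -/
private lemma e4_inv {ι : Type*} {f : ι → ℂ} {a : ℂ} (h : HasProd f a) (ha : a ≠ 0) :
    HasProd (fun i => (f i)⁻¹) a⁻¹ := by
  unfold HasProd at *
  have h2 := h.inv₀ ha
  refine h2.congr fun s => ?_
  rw [Finset.prod_inv_distrib]

private lemma e4_zeta {s : ℂ} (hs : 1 < s.re) :
    HasProd (fun p : Nat.Primes => (1 - (p : ℂ) ^ (-s))⁻¹) (riemannZeta s) :=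
  riemannZeta_eulerProduct_hasProd hs

private lemma e4_zeta_inv {s : ℂ} (hs : 1 < s.re) :
    HasProd (fun p : Nat.Primes => (1 - (p : ℂ) ^ (-s))) (riemannZeta s)⁻¹ := by
  have h := e4_inv (e4_zeta hs) (riemannZeta_ne_zero_of_one_lt_re hs)
  simpa only [inv_inv] using h

/-- the general estimates for infinite products -/
private lemma e4_prod {ι : Type*} (f : ι → ℂ) (b : ι → ℝ) (B : ℝ) (hb : HasSum b B)
    (hf : ∀ i, ‖f i - 1‖ ≤ b i) :
    Multipliable f ∧ ‖∏' i, f i - 1‖ ≤ Real.exp B - 1 := by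
  have h0 : ∀ i, 0 ≤ b i := fun i => (norm_nonneg _).trans (hf i)
  have hs : Summable fun i => ‖f i - 1‖ :=
    Summable.of_nonneg_of_le (fun i => norm_nonneg _) hf hb.summable
  have hm : Multipliable f := by
    have h := multipliable_one_add_of_summable hs
    simpa only [add_sub_cancel] using h
  refine ⟨hm, ?_⟩
  have h1 : Tendsto (fun s : Finset ι => ‖∏ i ∈ s, f i - 1‖) atTop (𝓝 ‖∏' i, f i - 1‖) := by
    have h2 := hm.hasProd
    unfold HasProd at h2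
    simp only [SummationFilter.unconditional_filter] at h2
    exact (h2.sub_const 1).norm
  refine le_of_tendsto h1 (Eventually.of_forall fun s => ?_)
  have h3 := Finset.norm_prod_one_add_sub_one_le s (fun i => f i - 1)
  simp only [add_sub_cancel] at h3
  refine h3.trans ?_
  have h4 : ∑ i ∈ s, ‖f i - 1‖ ≤ B :=
    (Finset.sum_le_sum fun i _ => hf i).trans (sum_le_hasSum s (fun i _ => h0 i) hb)
  linarith [Real.exp_le_exp.2 h4]

/-- the Euler product of the zeta quotients -/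
private lemma e4_locZ {s₁ w₁ s₂ w₂ z : ℂ} (h1 : |z.re| < s₁.re) (h2 : |z.re| < w₁.re)
    (h3 : |z.re| < s₂.re) (h4 : |z.re| < w₂.re) :
    HasProd (fun p : Nat.Primes => locZ p s₁ w₁ s₂ w₂ z)
      (Z0 s₁ w₁ s₂ w₂ * VV s₁ w₁ s₂ w₂ z) := by
  have z1 := le_abs_self z.re
  have z2 := neg_abs_le z.re
  have z0 := abs_nonneg z.re
  have r0 : ∀ s : ℂ, 0 < s.re → 1 < (1 + s).re := fun s hs => by
    rw [Complex.add_re, Complex.one_re]; linarith
  have a1 := e4_zeta (r0 (2 * s₁) (by simp; linarith))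
  have a2 := e4_zeta (r0 (2 * s₂) (by simp; linarith))
  have a3 := e4_zeta (r0 (s₁ + s₂) (by simp; linarith))
  have a4 := e4_zeta (r0 (w₁ + w₂) (by simp; linarith))
  have b1 := e4_zeta_inv (r0 (s₁ + w₁) (by simp; linarith))
  have b2 := e4_zeta_inv (r0 (s₁ + w₂) (by simp; linarith))
  have b3 := e4_zeta_inv (r0 (s₂ + w₁) (by simp; linarith))
  have b4 := e4_zeta_inv (r0 (s₂ + w₂) (by simp; linarith))
  have c1 := e4_zeta (r0 (s₁ - z) (by simp; linarith))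
  have c2 := e4_zeta (r0 (s₂ - z) (by simp; linarith))
  have c3 := e4_zeta (r0 (w₁ + z) (by simp; linarith))
  have c4 := e4_zeta (r0 (w₂ + z) (by simp; linarith))
  have d1 := e4_zeta_inv (r0 (w₁ - z) (by simp; linarith))
  have d2 := e4_zeta_inv (r0 (w₂ - z) (by simp; linarith))
  have d3 := e4_zeta_inv (r0 (s₁ + z) (by simp; linarith))
  have d4 := e4_zeta_inv (r0 (s₂ + z) (by simp; linarith))
  have key := ((((a1.mul a2).mul a3).mul a4).mul (((b1.mul b2).mul b3).mul b4)).mul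
    ((((c1.mul d1).mul (c2.mul d2)).mul (c3.mul d3)).mul (c4.mul d4))
  convert key using 1
  · funext p
    have hp0 : (p : ℂ) ≠ 0 := by exact_mod_cast p.2.ne_zero
    unfold locZ locZx
    have e : ∀ s : ℂ, (p : ℂ) ^ (-(1 + s)) = (p : ℂ) ^ (-s) / p := by
      intro s
      rw [show -(1 + s) = -s - 1 by ring, Complex.cpow_sub _ _ hp0, Complex.cpow_one]
    have e2 : ∀ s t : ℂ, (p : ℂ) ^ (-(s + t)) = (p : ℂ) ^ (-s) * (p : ℂ) ^ (-t) := by
      intro s t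
      rw [neg_add, Complex.cpow_add _ _ hp0]
    have e3 : ∀ s t : ℂ, (p : ℂ) ^ (-(s - t)) = (p : ℂ) ^ (-s) * (p : ℂ) ^ t := by
      intro s t
      rw [show -(s - t) = -s + t by ring, Complex.cpow_add _ _ hp0]
    have e4 : ∀ s : ℂ, (p : ℂ) ^ (-(2 * s)) = ((p : ℂ) ^ (-s)) ^ 2 := by
      intro s
      rw [two_mul, e2, sq]
    simp only [e, e4, e2, e3]
    simp only [div_eq_mul_inv, mul_inv_rev]
    ring
  · unfold Z0 VV
    simp only [div_eq_mul_inv, mul_inv_rev]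
    ring

theorem eulerp (r : ℕ) (hr : Odd r) :
    ∃ (A : ℂ → ℂ → ℂ → ℂ → ℂ → ℂ) (C : ℝ), 0 < C ∧
    (∀ s₁ w₁ s₂ w₂ z : ℂ, |s₁.re| ≤ 1 / 100 → |w₁.re| ≤ 1 / 100 → |s₂.re| ≤ 1 / 100 →
      |w₂.re| ≤ 1 / 100 → |z.re| ≤ 1 / 100 →
      ‖A s₁ w₁ s₂ w₂ z‖ ≤ C ∧ ‖A s₁ w₁ s₂ w₂ z - 1‖ ≤ C * (‖s₁ - w₁‖ + ‖s₂ - w₂‖)) ∧
    (∀ s₁ w₁ s₂ w₂ z : ℂ, |z.re| < s₁.re → |z.re| < w₁.re → |z.re| < s₂.re → |z.re| < w₂.re →
      s₁.re ≤ 1 / 100 → w₁.re ≤ 1 / 100 → s₂.re ≤ 1 / 100 → w₂.re ≤ 1 / 100 →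
      Summable (fun N : ℕ => ‖(if Nat.Coprime N (2 * r) then cfA s₁ w₁ s₂ w₂ N * bzp z N /
        (√(N : ℝ) : ℂ) else 0)‖) ∧
      OOp r s₁ w₁ s₂ w₂ z = Z0 s₁ w₁ s₂ w₂ * VV s₁ w₁ s₂ w₂ z * A s₁ w₁ s₂ w₂ z) := by
  obtain ⟨C0, c0, hc0, hcr⟩ := loc_crudep
  obtain ⟨C1, hC1, hlip⟩ := loc_lipschitzp
  have hr0 : 0 < r := hr.pos
  set S : ℝ := ∑' p : Nat.Primes, (p : ℝ) ^ (-(3 / 2) : ℝ) with hS
  have hsum : HasSum (fun p : Nat.Primes => (p : ℝ) ^ (-(3 / 2) : ℝ)) S :=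
    (Nat.Primes.summable_rpow.2 (by norm_num)).hasSum
  have hS0 : 0 ≤ S := tsum_nonneg fun p => by positivity
  set K : ℝ := ((2 * r : ℕ) : ℝ) ^ (3 / 2 : ℝ) with hK
  have h2r : (1 : ℝ) ≤ ((2 * r : ℕ) : ℝ) := by exact_mod_cast (by omega : 1 ≤ 2 * r)
  have hK1 : 1 ≤ K := Real.one_le_rpow h2r (by norm_num)
  -- the primes dividing `2 r`
  have hKp : ∀ p : Nat.Primes, (p : ℕ) ∣ 2 * r → 1 ≤ K * (p : ℝ) ^ (-(3 / 2) : ℝ) := by
    intro p hp
    have hp0 : (0 : ℝ) < p := by exact_mod_cast p.2.pos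
    have hle : (p : ℝ) ≤ ((2 * r : ℕ) : ℝ) := by exact_mod_cast Nat.le_of_dvd (by omega) hp
    rw [Real.rpow_neg hp0.le, ← div_eq_mul_inv, one_le_div (by positivity)]
    exact Real.rpow_le_rpow hp0.le hle (by norm_num)
  have hp3 : ∀ p : Nat.Primes, ¬ (p : ℕ) ∣ 2 * r → 3 ≤ (p : ℕ) := by
    intro p hp
    have h2 := p.2.two_le
    rcases h2.lt_or_eq with h | h
    · exact h
    · exact absurd (h ▸ Dvd.intro r rfl) hp
  have hC00 : 0 ≤ C0 := by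
    have := hcr 2 Nat.prime_two 0 0 0 0 0 (by norm_num) (by norm_num) (by norm_num)
      (by norm_num) (by norm_num)
    exact (norm_nonneg _).trans this.2.1
  set a : ℂ → ℂ → ℂ → ℂ → ℂ → Nat.Primes → ℂ := fun s₁ w₁ s₂ w₂ z p =>
    if (p : ℕ) ∣ 2 * r then 1 / locZ p s₁ w₁ s₂ w₂ z
    else locOp p s₁ w₁ s₂ w₂ z / locZ p s₁ w₁ s₂ w₂ z with ha
  set M1 : ℝ := K * (C0 / c0 + 1 / c0 + 1) with hM1
  set M2 : ℝ := K * C1 with hM2
  have hM10 : 0 ≤ M1 := by positivity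
  have hM20 : 0 ≤ M2 := by positivity
  -- the two bounds
  have hb : ∀ s₁ w₁ s₂ w₂ z : ℂ, |s₁.re| ≤ 1 / 100 → |w₁.re| ≤ 1 / 100 → |s₂.re| ≤ 1 / 100 →
      |w₂.re| ≤ 1 / 100 → |z.re| ≤ 1 / 100 → ∀ p : Nat.Primes,
      0 < ‖locZ p s₁ w₁ s₂ w₂ z‖ ∧
      ‖a s₁ w₁ s₂ w₂ z p - 1‖ ≤ M1 * (p : ℝ) ^ (-(3 / 2) : ℝ) ∧
      ‖a s₁ w₁ s₂ w₂ z p - 1‖ ≤ M2 * (‖s₁ - w₁‖ + ‖s₂ - w₂‖) * (p : ℝ) ^ (-(3 / 2) : ℝ) := by
    intro s₁ w₁ s₂ w₂ z h1 h2 h3 h4 h5 p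
    obtain ⟨g1, g2, g3⟩ := hcr p p.2 s₁ w₁ s₂ w₂ z (h1.trans (by norm_num))
      (h2.trans (by norm_num)) (h3.trans (by norm_num)) (h4.trans (by norm_num))
      (h5.trans (by norm_num))
    obtain ⟨k1, k2⟩ := hlip p p.2 s₁ w₁ s₂ w₂ z h1 h2 h3 h4 h5
    have hZ : 0 < ‖locZ p s₁ w₁ s₂ w₂ z‖ := hc0.trans_le g1
    have hZ0 : locZ p s₁ w₁ s₂ w₂ z ≠ 0 := norm_pos_iff.1 hZ
    have hP : 0 < (p : ℝ) ^ (-(3 / 2) : ℝ) := Real.rpow_pos_of_pos (by exact_mod_cast p.2.pos) _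
    set η := ‖s₁ - w₁‖ + ‖s₂ - w₂‖ with hη
    have hη0 : 0 ≤ η := by positivity
    refine ⟨hZ, ?_⟩
    by_cases hp : (p : ℕ) ∣ 2 * r
    · have e : a s₁ w₁ s₂ w₂ z p = 1 / locZ p s₁ w₁ s₂ w₂ z := if_pos hp
      rw [e]
      have hk := hKp p hp
      constructor
      · have h6 : ‖1 / locZ p s₁ w₁ s₂ w₂ z - 1‖ ≤ 1 / c0 + 1 := by
          refine (norm_sub_le _ _).trans ?_
          rw [norm_div, norm_one]
          have := one_div_le_one_div_of_le hc0 g1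
          linarith
        have h7 : 1 / c0 + 1 ≤ C0 / c0 + 1 / c0 + 1 := by
          have : 0 ≤ C0 / c0 := by positivity
          linarith
        have h8 : 0 ≤ C0 / c0 + 1 / c0 + 1 := by positivity
        calc _ ≤ (C0 / c0 + 1 / c0 + 1) * 1 := by rw [mul_one]; exact h6.trans h7
          _ ≤ (C0 / c0 + 1 / c0 + 1) * (K * (p : ℝ) ^ (-(3 / 2) : ℝ)) :=
              mul_le_mul_of_nonneg_left hk h8
          _ = _ := by rw [hM1]; ring
      · calc _ ≤ C1 * η * 1 := by rw [mul_one]; exact k1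
          _ ≤ C1 * η * (K * (p : ℝ) ^ (-(3 / 2) : ℝ)) :=
              mul_le_mul_of_nonneg_left hk (by positivity)
          _ = _ := by rw [hM2]; ring
    · have e : a s₁ w₁ s₂ w₂ z p = locOp p s₁ w₁ s₂ w₂ z / locZ p s₁ w₁ s₂ w₂ z := if_neg hp
      rw [e]
      have hp3' := hp3 p hp
      constructor
      · have h6 : locOp p s₁ w₁ s₂ w₂ z / locZ p s₁ w₁ s₂ w₂ z - 1 =
            (locOp p s₁ w₁ s₂ w₂ z - locZ p s₁ w₁ s₂ w₂ z) / locZ p s₁ w₁ s₂ w₂ z := by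
          rw [sub_div, div_self hZ0]
        rw [h6, norm_div]
        have h7 : ‖locOp p s₁ w₁ s₂ w₂ z - locZ p s₁ w₁ s₂ w₂ z‖ / ‖locZ p s₁ w₁ s₂ w₂ z‖ ≤
            (C0 * (p : ℝ) ^ (-(3 / 2) : ℝ)) / c0 :=
          div_le_div₀ (by positivity) (g3 hp3') hc0 g1
        refine h7.trans ?_
        have h8 : C0 / c0 ≤ M1 := by
          have h9 : 0 ≤ C0 / c0 := by positivity
          have h10 : 0 ≤ 1 / c0 := by positivity
          calc C0 / c0 ≤ 1 * (C0 / c0 + 1 / c0 + 1) := by linarith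
            _ ≤ M1 := mul_le_mul_of_nonneg_right hK1 (by positivity)
        calc _ = C0 / c0 * (p : ℝ) ^ (-(3 / 2) : ℝ) := by ring
          _ ≤ _ := mul_le_mul_of_nonneg_right h8 hP.le
      · refine (k2 hp3').trans ?_
        have h8 : C1 ≤ M2 := by
          calc C1 = 1 * C1 := (one_mul _).symm
            _ ≤ M2 := mul_le_mul_of_nonneg_right hK1 hC1.le
        calc _ = C1 * (η * (p : ℝ) ^ (-(3 / 2) : ℝ)) := by ring
          _ ≤ M2 * (η * (p : ℝ) ^ (-(3 / 2) : ℝ)) :=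
              mul_le_mul_of_nonneg_right h8 (by positivity)
          _ = _ := by ring
  refine ⟨fun s₁ w₁ s₂ w₂ z => ∏' p : Nat.Primes, a s₁ w₁ s₂ w₂ z p,
    Real.exp (M1 * S) + M2 * S * Real.exp (M2 * S) + 1, by positivity, ?_, ?_⟩
  · intro s₁ w₁ s₂ w₂ z h1 h2 h3 h4 h5
    have hB := hb s₁ w₁ s₂ w₂ z h1 h2 h3 h4 h5
    set η := ‖s₁ - w₁‖ + ‖s₂ - w₂‖ with hη
    have hη0 : 0 ≤ η := by positivity
    have p1 := (e4_prod (a s₁ w₁ s₂ w₂ z) _ _ (hsum.mul_left M1) fun p => (hB p).2.1).2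
    have p2 := (e4_prod (a s₁ w₁ s₂ w₂ z) _ _ (hsum.mul_left (M2 * η)) fun p => (hB p).2.2).2
    set P : ℂ := ∏' p : Nat.Primes, a s₁ w₁ s₂ w₂ z p with hPdef
    have q1 : 0 ≤ M2 * S * Real.exp (M2 * S) := by positivity
    have q2 : 0 < Real.exp (M1 * S) := Real.exp_pos _
    constructor
    · show ‖P‖ ≤ _
      have h6 : ‖P‖ ≤ ‖P - 1‖ + 1 := by
        have := norm_add_le (P - 1) 1
        rwa [sub_add_cancel, norm_one] at this
      linarith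
    · show ‖P - 1‖ ≤ _
      rcases le_or_gt η 1 with h6 | h6
      · have h7 : M2 * η * S ≤ M2 * S := by
          have := mul_le_mul_of_nonneg_left h6 (by positivity : 0 ≤ M2 * S)
          linarith
        have h8 : Real.exp (M2 * η * S) - 1 ≤ M2 * η * S * Real.exp (M2 * η * S) := by
          have h9 := Real.add_one_le_exp (-(M2 * η * S))
          have h10 : Real.exp (-(M2 * η * S)) * Real.exp (M2 * η * S) = 1 := by
            rw [← Real.exp_add, neg_add_cancel, Real.exp_zero]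
          have h11 := mul_le_mul_of_nonneg_right h9 (Real.exp_pos (M2 * η * S)).le
          linarith
        have h9 : M2 * η * S * Real.exp (M2 * η * S) ≤ M2 * η * S * Real.exp (M2 * S) :=
          mul_le_mul_of_nonneg_left (Real.exp_le_exp.2 h7) (by positivity)
        have h10 : 0 ≤ (Real.exp (M1 * S) + 1) * η := by positivity
        linarith
      · have h7 : Real.exp (M1 * S) * 1 ≤ Real.exp (M1 * S) * η :=
          mul_le_mul_of_nonneg_left h6.le q2.le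
        have h8 : 0 ≤ (M2 * S * Real.exp (M2 * S) + 1) * η := by positivity
        linarith
  · intro s₁ w₁ s₂ w₂ z h1 h2 h3 h4 g1 g2 g3 g4
    obtain ⟨o1, o2⟩ := OOp_euler r hr s₁ w₁ s₂ w₂ z h1 h2 h3 h4
    refine ⟨o1, ?_⟩
    have z0 := abs_nonneg z.re
    have hB := hb s₁ w₁ s₂ w₂ z (by rw [abs_of_pos (by linarith)]; exact g1)
      (by rw [abs_of_pos (by linarith)]; exact g2) (by rw [abs_of_pos (by linarith)]; exact g3)
      (by rw [abs_of_pos (by linarith)]; exact g4) (by linarith)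
    have hm := (e4_prod (a s₁ w₁ s₂ w₂ z) _ _ (hsum.mul_left M1) fun p => (hB p).2.1).1
    have hz := e4_locZ h1 h2 h3 h4
    have h5 := hz.mul hm.hasProd
    refine o2.unique ?_
    convert h5 using 1
    funext p
    have hZ0 : locZ p s₁ w₁ s₂ w₂ z ≠ 0 := norm_pos_iff.1 (hB p).1
    by_cases hp : (p : ℕ) ∣ 2 * r
    · have e : a s₁ w₁ s₂ w₂ z p = 1 / locZ p s₁ w₁ s₂ w₂ z := if_pos hp
      rw [e, if_pos hp, mul_one_div_cancel hZ0]
    · have e : a s₁ w₁ s₂ w₂ z p = locOp p s₁ w₁ s₂ w₂ z / locZ p s₁ w₁ s₂ w₂ z := if_neg hp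
      rw [e, if_neg hp, mul_div_cancel₀ _ hZ0]

end Pool.Agent.MP0016c7.PC
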