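import Mathlib
import Pool.Agent.Lib.MP_0016c7_nt.Rz.Defs
import Pool.Agent.Lib.MP_0016c7_nt.Qls.QJr
import Pool.Agent.Lib.MP_0da313_nt.BV.BvL

set_option autoImplicit false

/-!
Block [F] of the project on prime conductors: the Dirichlet characters `n ↦ (u / n) (n / a)`.
-/

open Finset MeasureTheory Filter Topology
open scoped Real ContDiff

namespace Pool.Agent.MP0016c7.PC

open Pool.Agent.MP0016c7.Rz

/-- the function `n ↦ (u / n) (n / a)` -/
noncomputable def fps (u : ℤ) (a n : ℕ) : ℝ := jr u n * jr n a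

lemma fps_mul (u : ℤ) (a m n : ℕ) : fps u a (m * n) = fps u a m * fps u a n := by
  unfold fps
  rw [jr_mul]
  push_cast
  rw [jr_mul_left]
  ring

lemma fps_abs_le (u : ℤ) (a n : ℕ) : |fps u a n| ≤ 1 := by
  unfold fps
  rw [abs_mul]
  exact mul_le_one₀ (abs_jr_le _ _) (abs_nonneg _) (abs_jr_le _ _)

/-- the four values of `u` -/
def US : Finset ℤ := {1, -1, 2, -2}

lemma US_dvd {u : ℤ} (hu : u ∈ US) (a : ℕ) : 4 * u.natAbs ∣ 8 * a := by
  have h : u = 1 ∨ u = -1 ∨ u = 2 ∨ u = -2 := by simpa [US] using hu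
  have h1 : 4 * u.natAbs ∣ 8 := by
    rcases h with rfl | rfl | rfl | rfl <;> decide
  exact h1.trans (Dvd.intro _ rfl)

lemma jr_u_congr {u : ℤ} (hu : u ∈ US) {m n : ℕ} (h : m ≡ n [MOD 8]) : jr u m = jr u n := by
  have h4 := US_dvd hu 1
  rw [mul_one] at h4
  have hp : Odd m ↔ Odd n := by
    rw [Nat.odd_iff, Nat.odd_iff]
    have : m ≡ n [MOD 2] := h.of_dvd (by norm_num)
    rw [this]
  unfold jr
  by_cases hn : Odd n
  · rw [if_pos hn, if_pos (hp.2 hn), jacobiSym.mod_right u hn, jacobiSym.mod_right u (hp.2 hn)]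
    have : m ≡ n [MOD 4 * u.natAbs] := h.of_dvd h4
    rw [this]
  · rw [if_neg hn, if_neg (fun h' => hn (hp.1 h'))]

lemma jr_a_congr {a m n : ℕ} (h : m ≡ n [MOD a]) : jr (m : ℤ) a = jr (n : ℤ) a := by
  unfold jr
  have h1 : ((m : ℤ)) % a = (n : ℤ) % a := by exact_mod_cast h
  rw [jacobiSym.mod_left' h1]

lemma fps_congr {u : ℤ} (hu : u ∈ US) {a m n : ℕ} (h : m ≡ n [MOD 8 * a]) :
    fps u a m = fps u a n := by
  unfold fps
  rw [jr_u_congr hu (h.of_dvd (Dvd.intro _ rfl)), jr_a_congr (h.of_dvd (Dvd.intro_left _ rfl))]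

lemma fps_eq_zero {u : ℤ} {a n : ℕ} (ha : a ≠ 0) (h : ¬ Nat.Coprime n (8 * a)) :
    fps u a n = 0 := by
  unfold fps
  by_cases hn : Odd n
  · have h1 : ¬ Nat.Coprime n a := by
      intro h2
      apply h
      refine Nat.Coprime.mul_right ?_ h2
      have : Nat.Coprime n (2 ^ 3) := Nat.Coprime.pow_right 3 (Nat.coprime_two_right.2 hn)
      exact this
    rw [jr_eq_zero ha (fun h2 => h1 (Nat.isCoprime_iff_coprime.1 h2)), mul_zero]
  · have : jr u n = 0 := by simp [jr, hn]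
    rw [this, zero_mul]

/-- the Dirichlet character `n ↦ (u / n) (n / a)` -/
noncomputable def feC (u : ℤ) (a : ℕ) (hu : u ∈ US) (ha : Odd a) :
    DirichletCharacter ℂ (8 * a) where
  toFun x := (fps u a x.val : ℂ)
  map_one' := by
    have : Fact (1 < 8 * a) := ⟨by have := ha.pos; omega⟩
    rw [ZMod.val_one]
    unfold fps
    rw [jr_one_right]
    push_cast
    rw [jr_one_left ha]
    norm_num
  map_mul' x y := by
    rw [ZMod.val_mul, fps_congr hu (Nat.mod_modEq _ _), fps_mul]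
    push_cast
    rfl
  map_nonunit' x hx := by
    have : NeZero (8 * a) := ⟨by have := ha.pos; omega⟩
    have h1 : ¬ Nat.Coprime x.val (8 * a) := by
      intro h
      apply hx
      have := (ZMod.isUnit_iff_coprime x.val (8 * a)).2 h
      rwa [ZMod.natCast_zmod_val] at this
    show (fps u a x.val : ℂ) = 0
    rw [fps_eq_zero ha.pos.ne' h1]
    simp

lemma feC_nat (u : ℤ) (a : ℕ) (hu : u ∈ US) (ha : Odd a) (n : ℕ) :
    feC u a hu ha (n : ZMod (8 * a)) = (fps u a n : ℂ) := by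
  show (fps u a (n : ZMod (8 * a)).val : ℂ) = _
  rw [ZMod.val_natCast, fps_congr hu (Nat.mod_modEq _ _)]

/-- a nonresidue modulo one prime factor of `a` -/
lemma fps_elt {u : ℤ} (hu : u ∈ US) {p b : ℕ} (hp : p.Prime) (hp2 : p ≠ 2) (hb : Odd b)
    (hpb : Nat.Coprime p b) : ∃ n : ℕ, n ≡ 1 [MOD 8 * b] ∧ fps u (p * b) n = -1 := by
  have : Fact p.Prime := ⟨hp⟩
  have hpo : Odd p := hp.odd_of_ne_two hp2
  have hcop : Nat.Coprime p (8 * b) := by
    refine Nat.Coprime.mul_right ?_ hpb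
    have : Nat.Coprime p (2 ^ 3) := Nat.Coprime.pow_right 3 (Nat.coprime_two_right.2 hpo)
    exact this
  obtain ⟨g, hg⟩ : ∃ g : ℕ, jacobiSym g p = -1 := by
    obtain ⟨a, ha⟩ := FiniteField.exists_nonsquare (F := ZMod p) (by
      rw [ZMod.ringChar_zmod_n]; exact hp2)
    refine ⟨a.val, ?_⟩
    have h1 : ¬ IsSquare ((a.val : ℤ) : ZMod p) := by
      rw [Int.cast_natCast, ZMod.natCast_zmod_val]
      exact ha
    exact ZMod.nonsquare_iff_jacobiSym_eq_neg_one.mpr h1
  obtain ⟨n, hn1, hn2⟩ := Nat.chineseRemainder hcop g 1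
  refine ⟨n, hn2, ?_⟩
  unfold fps
  have h1 : jr u n = 1 := by
    rw [jr_u_congr hu (hn2.of_dvd (Dvd.intro _ rfl)), jr_one_right]
  have h2 : jr (n : ℤ) (p * b) = -1 := by
    rw [jr_mul, jr_a_congr hn1, jr_a_congr (hn2.of_dvd (Dvd.intro_left _ rfl)), Nat.cast_one,
      jr_one_left hb, jr_of_odd _ hpo, hg]
    norm_num
  rw [h1, h2]
  norm_num

lemma fps_elt' {u : ℤ} (hu : u ∈ US) (h1 : u ≠ 1) : ∃ n : ℕ, fps u 1 n = -1 := by
  have h : u = 1 ∨ u = -1 ∨ u = 2 ∨ u = -2 := by simpa [US] using hu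
  have e : ∀ n : ℕ, fps u 1 n = jr u n := by
    intro n
    unfold fps
    rw [jr_one_right, mul_one]
  simp only [e]
  rcases h with rfl | rfl | rfl | rfl
  · exact absurd rfl h1
  · refine ⟨3, ?_⟩
    rw [jr_of_odd _ (by decide)]
    have : jacobiSym (-1) 3 = -1 := by norm_num
    rw [this]
    norm_num
  · refine ⟨3, ?_⟩
    rw [jr_of_odd _ (by decide)]
    have : jacobiSym 2 3 = -1 := by norm_num
    rw [this]
    norm_num
  · refine ⟨5, ?_⟩
    rw [jr_of_odd _ (by decide)]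
    have : jacobiSym (-2) 5 = -1 := by norm_num
    rw [this]
    norm_num

/-- splitting off a prime factor -/
lemma fe_split {a p : ℕ} (ha : Odd a) (hs : Squarefree a) (hp : p.Prime) (hpa : p ∣ a) :
    ∃ b, a = p * b ∧ p ≠ 2 ∧ Odd b ∧ Nat.Coprime p b := by
  obtain ⟨b, rfl⟩ := hpa
  refine ⟨b, rfl, ?_, ?_, ?_⟩
  · rintro rfl
    rw [Nat.odd_mul] at ha
    exact absurd ha.1 (by decide)
  · rw [Nat.odd_mul] at ha
    exact ha.2
  · rw [hp.coprime_iff_not_dvd]
    rintro ⟨c, rfl⟩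
    have := hs p ⟨c, by ring⟩
    exact hp.one_lt.ne' (Nat.isUnit_iff.1 this)

lemma feC_ne_one {u : ℤ} {a : ℕ} (hu : u ∈ US) (ha : Odd a) (hs : Squarefree a)
    (h : u ≠ 1 ∨ a ≠ 1) : feC u a hu ha ≠ 1 := by
  obtain ⟨n, hn⟩ : ∃ n : ℕ, fps u a n = -1 := by
    by_cases h1 : a = 1
    · subst h1
      exact fps_elt' hu (h.resolve_right (by simp))
    · obtain ⟨p, hp, hpa⟩ := Nat.exists_prime_and_dvd h1
      obtain ⟨b, rfl, hp2, hb, hpb⟩ := fe_split ha hs hp hpa
      obtain ⟨n, _, hn⟩ := fps_elt hu hp hp2 hb hpb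
      exact ⟨n, hn⟩
  intro h1
  have h2 := feC_nat u a hu ha n
  rw [hn, h1] at h2
  by_cases hun : IsUnit (n : ZMod (8 * a))
  · rw [MulChar.one_apply hun] at h2
    norm_num at h2
  · rw [MulChar.map_nonunit _ hun] at h2
    norm_num at h2

lemma fe_coprime_apply {q : ℕ} (χ : DirichletCharacter ℂ q) (n : ℕ) (hn : n.Coprime q) :
    χ (n : ZMod q) = χ.primitiveCharacter (n : ZMod χ.conductor) := by
  have := χ.primitiveCharacter_apply_of_isCoprime (a := (n : ℤ)) (by
    rw [Nat.isCoprime_iff_coprime]; exact hn)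
  push_cast at this
  exact this.symm

/-- the conductor is a multiple of `a` -/
lemma dvd_conductor {u : ℤ} {a : ℕ} (hu : u ∈ US) (ha : Odd a) (hs : Squarefree a) :
    a ∣ (feC u a hu ha).conductor := by
  set χ := feC u a hu ha with hχ
  have hr : χ.conductor ∣ 8 * a := χ.conductor_dvd_level
  have key : ∀ p ∈ a.primeFactors, p ∣ χ.conductor := by
    intro p hp
    have hpp := Nat.prime_of_mem_primeFactors hp
    obtain ⟨b, hab, hp2, hb, hpb⟩ := fe_split ha hs hpp (Nat.dvd_of_mem_primeFactors hp)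
    by_contra hcon
    obtain ⟨n, hn1, hn2⟩ := fps_elt hu hpp hp2 hb hpb
    rw [← hab] at hn2
    have h1 : χ.conductor ∣ 8 * b := by
      have h2 : χ.conductor ∣ p * (8 * b) := by
        have : p * (8 * b) = 8 * a := by rw [hab]; ring
        rw [this]
        exact hr
      exact (Nat.Coprime.dvd_of_dvd_mul_left ((Nat.Prime.coprime_iff_not_dvd hpp).2 hcon).symm h2)
    have h3 : n ≡ 1 [MOD χ.conductor] := hn1.of_dvd h1
    have hcop : n.Coprime (8 * a) := by
      by_contra hc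
      rw [fps_eq_zero ha.pos.ne' hc] at hn2
      norm_num at hn2
    have h4 := fe_coprime_apply χ n hcop
    have h5 : (n : ZMod χ.conductor) = 1 := by
      have := (ZMod.natCast_eq_natCast_iff _ _ _).2 h3
      simpa using this
    rw [h5, map_one, feC_nat, hn2] at h4
    norm_num at h4
  have h := Finset.prod_primes_dvd _ (fun p hp => (Nat.prime_of_mem_primeFactors hp).prime) key
  rwa [Nat.prod_primeFactors_of_squarefree hs] at h

end Pool.Agent.MP0016c7.PC
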