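import Mathlib
import Pool.Agent.Lib.MP_0016c7_nt.PC.FEU1
import Pool.Agent.Lib.MP_0016c7_nt.PC.Defs
import Pool.Agent.Lib.MP_0016c7_nt.Rz.DivB
import Pool.Agent.Lib.MP_0da313_nt.BV.SmallCor
import Pool.Agent.Lib.MP_0da313_nt.BV.LargeL

set_option autoImplicit false

/-!
Block [F] of the project on prime conductors: moduli up to `Z ^ (1 / 60)`.
-/

open Finset MeasureTheory Filter Topology
open scoped Real ContDiff

namespace Pool.Agent.MP0016c7.PC

open Pool.Agent.MP0016c7.Rz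
open Pool.Agent.BVall (OmL psiChiL psiChiL_sub_le small_all sum_psiChiL_le)
open Pool.Agent.MP89da58 (primChars DD)

lemma tau_pow_le (K : ℕ) (ε : ℝ) (hε : 0 < ε) : ∃ C : ℝ, 1 ≤ C ∧ ∀ a : ℕ, 0 < a →
    (a.divisors.card : ℝ) ^ K ≤ C * (a : ℝ) ^ ε := by
  obtain ⟨C, hC, h⟩ := divisor_bound (ε / (K + 1)) (by positivity)
  refine ⟨(max C 1) ^ K, one_le_pow₀ (le_max_right _ _), fun a ha => ?_⟩
  have ha1 : (1 : ℝ) ≤ a := by exact_mod_cast ha
  calc (a.divisors.card : ℝ) ^ K ≤ (C * (a : ℝ) ^ (ε / (K + 1))) ^ K := by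
        gcongr
        exact h a ha
    _ ≤ (max C 1 * (a : ℝ) ^ (ε / (K + 1))) ^ K := by
        gcongr
        exact le_max_left _ _
    _ = (max C 1) ^ K * (a : ℝ) ^ (ε / (K + 1) * K) := by
        rw [mul_pow, ← Real.rpow_natCast (_ ^ _) K, ← Real.rpow_mul (by positivity)]
    _ ≤ (max C 1) ^ K * (a : ℝ) ^ ε := by
        gcongr
        rw [div_mul_eq_mul_div, div_le_iff₀ (by positivity)]
        nlinarith

lemma ev_log_le (c : ℝ) (k : ℕ) {s : ℝ} (hs : 0 < s) :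
    ∀ᶠ Z : ℝ in atTop, c * (Real.log Z) ^ k ≤ Z ^ s := by
  have h := isLittleO_log_rpow_rpow_atTop (k : ℝ) hs
  have h1 := h.bound (show (0 : ℝ) < 1 / (|c| + 1) by positivity)
  filter_upwards [h1, eventually_ge_atTop 1] with Z hZ hZ1
  have hl : 0 ≤ Real.log Z := Real.log_nonneg hZ1
  have hZs : 0 ≤ Z ^ s := by positivity
  rw [Real.rpow_natCast, Real.norm_of_nonneg (by positivity), Real.norm_of_nonneg hZs] at hZ
  have h2 : |c| * (1 / (|c| + 1)) ≤ 1 := by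
    rw [mul_one_div, div_le_one (by positivity)]
    linarith
  calc c * (Real.log Z) ^ k ≤ |c| * (Real.log Z) ^ k := by
        gcongr
        exact le_abs_self c
    _ ≤ |c| * (1 / (|c| + 1) * Z ^ s) := by gcongr
    _ = (|c| * (1 / (|c| + 1))) * Z ^ s := by ring
    _ ≤ 1 * Z ^ s := by gcongr
    _ = Z ^ s := one_mul _

open Classical in
/-- the primitive character behind `n ↦ (u / n) (n / a)` -/
noncomputable def feP (u : ℤ) (a : ℕ) : Σ q, DirichletCharacter ℂ q :=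
  if h : u ∈ US ∧ Odd a then ⟨(feC u a h.1 h.2).conductor, (feC u a h.1 h.2).primitiveCharacter⟩
  else ⟨1, 1⟩

lemma feP_of {u : ℤ} {a : ℕ} (hu : u ∈ US) (ha : Odd a) :
    feP u a = ⟨(feC u a hu ha).conductor, (feC u a hu ha).primitiveCharacter⟩ := by
  unfold feP
  rw [dif_pos (show u ∈ US ∧ Odd a from ⟨hu, ha⟩)]

lemma feP_mem {u : ℤ} {a R : ℕ} (hu : u ∈ US) (ha : Odd a) (hs : Squarefree a)
    (h : u ≠ 1 ∨ a ≠ 1) (hR : 8 * a ≤ R) : feP u a ∈ primChars R := by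
  classical
  rw [feP_of hu ha, primChars, mem_sigma, mem_filter, mem_Icc]
  have : NeZero (8 * a) := ⟨by have := ha.pos; omega⟩
  have h0 : (feC u a hu ha).conductor ≠ 0 := DirichletCharacter.conductor_ne_zero _
  have h1 : (feC u a hu ha).conductor ≠ 1 := fun h1 =>
    feC_ne_one hu ha hs h (DirichletCharacter.eq_one_iff_conductor_eq_one.2 h1)
  have h2 : (feC u a hu ha).conductor ≤ 8 * a :=
    Nat.le_of_dvd (by have := ha.pos; omega) (feC u a hu ha).conductor_dvd_level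
  exact ⟨⟨by dsimp only; omega, by dsimp only; omega⟩, mem_univ _,
    (feC u a hu ha).primitiveCharacter_isPrimitive⟩

lemma feP_inj {u : ℤ} {a a' : ℕ} (hu : u ∈ US) (ha : Odd a) (hs : Squarefree a) (ha' : Odd a')
    (hs' : Squarefree a') (h : feP u a = feP u a') : a = a' := by
  have h1 : (feP u a).1 = (feP u a').1 := by rw [h]
  rw [feP_of hu ha, feP_of hu ha'] at h1
  dsimp only at h1
  have d1 : a ∣ 8 * a' := (dvd_conductor hu ha hs).trans
    (h1 ▸ (feC u a' hu ha').conductor_dvd_level)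
  have d2 : a' ∣ 8 * a := (dvd_conductor hu ha' hs').trans
    (h1.symm ▸ (feC u a hu ha).conductor_dvd_level)
  have key : ∀ b : ℕ, Odd b → Nat.Coprime b 8 := by
    intro b hb
    have : Nat.Coprime b (2 ^ 3) := Nat.Coprime.pow_right 3 (Nat.coprime_two_right.2 hb)
    exact this
  exact Nat.dvd_antisymm ((key a ha).dvd_of_dvd_mul_left d1) ((key a' ha').dvd_of_dvd_mul_left d2)

lemma EU_eq (lam Z : ℝ) {u : ℤ} {a : ℕ} (hu : u ∈ US) (ha : Odd a) :
    (EU lam Z u a : ℂ) = psiChiL lam Z (feC u a hu ha) := by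
  unfold EU psiChiL
  push_cast
  refine sum_congr rfl fun n _ => ?_
  rw [feC_nat, fps]
  push_cast
  ring

lemma EU_le {lam : ℝ} (hlam : 1 ≤ lam) {Z : ℝ} (hZ : 1 ≤ Z) (hZl : 1 ≤ Real.log Z) {u : ℤ} {a : ℕ}
    (hu : u ∈ US) (ha : Odd a) :
    |EU lam Z u a| ≤ ‖psiChiL lam Z (feP u a).2‖ + DD Z (8 * a) := by
  rw [feP_of hu ha]
  have h1 : |EU lam Z u a| = ‖psiChiL lam Z (feC u a hu ha)‖ := by
    rw [← EU_eq lam Z hu ha, Complex.norm_real, Real.norm_eq_abs]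
  rw [h1]
  have h2 := psiChiL_sub_le hlam hZ hZl (q := 8 * a) (by have := ha.pos; omega)
    (feC u a hu ha) (feC u a hu ha).primitiveCharacter (fe_coprime_apply _)
  have h3 := norm_le_norm_add_norm_sub' (psiChiL lam Z (feC u a hu ha))
    (psiChiL lam Z (feC u a hu ha).primitiveCharacter)
  linarith

lemma sum_feP_le {lam Z : ℝ} {u : ℤ} (hu : u ∈ US) {R : ℕ} {S : Finset ℕ}
    (hS : ∀ a ∈ S, Odd a ∧ Squarefree a ∧ (u ≠ 1 ∨ a ≠ 1) ∧ 8 * a ≤ R) :
    ∑ a ∈ S, ‖psiChiL lam Z (feP u a).2‖ ≤ ∑ p ∈ primChars R, ‖psiChiL lam Z p.2‖ := by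
  classical
  have h1 : ∑ a ∈ S, ‖psiChiL lam Z (feP u a).2‖ = ∑ p ∈ S.image (feP u), ‖psiChiL lam Z p.2‖ := by
    rw [sum_image]
    intro a ha a' ha' h
    obtain ⟨o, s, _, _⟩ := hS a ha
    obtain ⟨o', s', _, _⟩ := hS a' ha'
    exact feP_inj hu o s o' s' h
  rw [h1]
  refine sum_le_sum_of_subset_of_nonneg ?_ fun p _ _ => norm_nonneg _
  intro p hp
  obtain ⟨a, ha, rfl⟩ := mem_image.1 hp
  obtain ⟨o, s, n, r⟩ := hS a ha
  exact feP_mem hu o s n r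

/-- the moduli up to `Z ^ (1 / 60)` -/
theorem fe_small {lam : ℝ} (hlam : 1 ≤ lam) (A K : ℕ) : ∀ᶠ Z : ℝ in atTop, ∀ u ∈ US,
    ∑ a ∈ (Osq ⌊Z ^ (1 / 60 : ℝ)⌋₊).filter (fun a => u ≠ 1 ∨ a ≠ 1),
      (a.divisors.card : ℝ) ^ K / √(a : ℝ) * |EU lam Z u a| ≤ Z / (Real.log Z) ^ A := by
  classical
  obtain ⟨C, hC1, hC⟩ := tau_pow_le K (1 / 4) (by norm_num)
  have hC0 : 0 < C := by linarith
  have hlam0 : 0 < lam := by linarith
  set B : ℕ := 4 * (A + 6) with hB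
  have e1 := small_all (A + B + 2) (B + 1) hlam
  have e2 : ∀ᶠ Z : ℝ in atTop, 8 ≤ Real.log Z := Real.tendsto_log_atTop.eventually_ge_atTop _
  have e3 : ∀ᶠ Z : ℝ in atTop, 2 * (C + 1280 * C * lam) ≤ Real.log Z :=
    Real.tendsto_log_atTop.eventually_ge_atTop _
  have e4 := ev_log_le (2 * (64 * C * 2)) (A + 1) (s := 29 / 30) (by norm_num)
  have e5 := ev_log_le 8 0 (s := 1 / 300) (by norm_num)
  filter_upwards [e1, e2, e3, e4, e5, eventually_ge_atTop 3] with Z h1 h2 h3 h4 h5 hZ3 u hu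
  have hZ0 : 0 < Z := by linarith
  have hZ1 : 1 ≤ Z := by linarith
  set L := Real.log Z with hL
  have hL0 : 0 < L := by linarith
  have hL1 : 1 ≤ L := by linarith
  set R : ℕ := ⌊Z ^ (1 / 50 : ℝ)⌋₊ with hR
  set S := (Osq ⌊Z ^ (1 / 60 : ℝ)⌋₊).filter (fun a => u ≠ 1 ∨ a ≠ 1) with hS
  have hS' : ∀ a ∈ S, 1 ≤ a ∧ (a : ℝ) ≤ Z ^ (1 / 60 : ℝ) ∧ Odd a ∧ Squarefree a ∧
      (u ≠ 1 ∨ a ≠ 1) := by
    intro a ha
    rw [hS, mem_filter, Osq, mem_filter, mem_Icc] at ha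
    exact ⟨ha.1.1.1, (Nat.le_floor_iff (by positivity)).1 ha.1.1.2, ha.1.2.1, ha.1.2.2, ha.2⟩
  have hR8 : ∀ a ∈ S, 8 * a ≤ R := by
    intro a ha
    rw [hR, Nat.le_floor_iff (by positivity)]
    push_cast
    calc (8 : ℝ) * a ≤ Z ^ (1 / 300 : ℝ) * Z ^ (1 / 60 : ℝ) := by
          have := (hS' a ha).2.1
          have h5' : (8 : ℝ) ≤ Z ^ (1 / 300 : ℝ) := by simpa using h5
          gcongr
      _ = Z ^ (1 / 50 : ℝ) := by rw [← Real.rpow_add hZ0]; norm_num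
  set T : ℕ → ℝ := fun a => ‖psiChiL lam Z (feP u a).2‖ with hT
  have hT0 : ∀ a, 0 ≤ T a := fun a => norm_nonneg _
  have hTsum : ∑ a ∈ S, T a ≤ lam * (1280 * Z * L ^ 4) := by
    refine (sum_feP_le hu (R := R) fun a ha => ?_).trans
      (sum_psiChiL_le hlam ?_ R hR)
    · obtain ⟨_, _, o, s, n⟩ := hS' a ha
      exact ⟨o, s, n, hR8 a ha⟩
    · rw [← Real.le_log_iff_exp_le hZ0]
      linarith
  have hw : ∀ a : ℕ, 1 ≤ a → (a.divisors.card : ℝ) ^ K / √(a : ℝ) ≤ C * (a : ℝ) ^ (-(1 / 4) : ℝ) := by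
    intro a ha
    have ha0 : (0 : ℝ) < a := by exact_mod_cast ha
    rw [div_le_iff₀ (Real.sqrt_pos.2 ha0), Real.sqrt_eq_rpow, mul_assoc, ← Real.rpow_add ha0]
    refine (hC a ha).trans (le_of_eq ?_)
    norm_num
  have hw1 : ∀ a : ℕ, 1 ≤ a → (a.divisors.card : ℝ) ^ K / √(a : ℝ) ≤ C := by
    intro a ha
    have ha1 : (1 : ℝ) ≤ a := by exact_mod_cast ha
    refine (hw a ha).trans ?_
    have : (a : ℝ) ^ (-(1 / 4) : ℝ) ≤ 1 := Real.rpow_le_one_of_one_le_of_nonpos ha1 (by norm_num)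
    nlinarith
  have hw2 : ∀ a : ℕ, 1 ≤ a → L ^ B < a → (a.divisors.card : ℝ) ^ K / √(a : ℝ) ≤
      C / L ^ (A + 6) := by
    intro a ha hLa
    refine (hw a ha).trans ?_
    have h6 : (a : ℝ) ^ (-(1 / 4) : ℝ) ≤ (L ^ B) ^ (-(1 / 4) : ℝ) :=
      Real.rpow_le_rpow_of_nonpos (by positivity) hLa.le (by norm_num)
    have h7 : (L ^ B) ^ (-(1 / 4) : ℝ) = (L ^ (A + 6))⁻¹ := by
      rw [hB, mul_comm, pow_mul, ← Real.rpow_natCast (_ ^ _) 4, ← Real.rpow_mul (by positivity)]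
      norm_num
      rw [Real.rpow_neg_one]
    rw [h7] at h6
    calc C * (a : ℝ) ^ (-(1 / 4) : ℝ) ≤ C * (L ^ (A + 6))⁻¹ := by gcongr
      _ = C / L ^ (A + 6) := (div_eq_mul_inv _ _).symm
  have hDD : ∀ a ∈ S, DD Z (8 * a) ≤ 64 * Z ^ (1 / 60 : ℝ) * (2 * L) := by
    intro a ha
    unfold DD
    have h6 : Real.log (3 * Z) ≤ 2 * L := by
      rw [Real.log_mul (by norm_num) hZ0.ne']
      have : Real.log 3 ≤ Real.log Z := Real.log_le_log (by norm_num) hZ3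
      linarith
    have h7 : 0 ≤ Real.log (3 * Z) := Real.log_nonneg (by linarith)
    push_cast
    have := (hS' a ha).2.1
    calc 8 * (8 * (a : ℝ) * Real.log (3 * Z)) = 64 * a * Real.log (3 * Z) := by ring
      _ ≤ _ := by gcongr
  have hterm : ∀ a ∈ S, (a.divisors.card : ℝ) ^ K / √(a : ℝ) * |EU lam Z u a| ≤
      (if (a : ℝ) ≤ L ^ B then C * (Z / L ^ (A + B + 2)) else 0) + C / L ^ (A + 6) * T a +
        C * (64 * Z ^ (1 / 60 : ℝ) * (2 * L)) := by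
    intro a ha
    obtain ⟨ha1, haZ, o, s, n⟩ := hS' a ha
    have h6 := EU_le hlam hZ1 (by linarith : 1 ≤ Real.log Z) hu o (lam := lam) (a := a) (u := u)
    have hw0 : 0 ≤ (a.divisors.card : ℝ) ^ K / √(a : ℝ) := by positivity
    have h7 : (a.divisors.card : ℝ) ^ K / √(a : ℝ) * DD Z (8 * a) ≤
        C * (64 * Z ^ (1 / 60 : ℝ) * (2 * L)) := by
      refine (mul_le_mul_of_nonneg_left (hDD a ha) hw0).trans ?_
      exact mul_le_mul_of_nonneg_right (hw1 a ha1) (by positivity)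
    have h8 : (a.divisors.card : ℝ) ^ K / √(a : ℝ) * T a ≤
        (if (a : ℝ) ≤ L ^ B then C * (Z / L ^ (A + B + 2)) else 0) + C / L ^ (A + 6) * T a := by
      have hnn : 0 ≤ C / L ^ (A + 6) * T a := mul_nonneg (by positivity) (hT0 a)
      split_ifs with hcase
      · have h9 : T a ≤ Z / L ^ (A + B + 2) := by
          have hm := Pool.Agent.MP89da58.mem_primChars (feP_mem hu o s n (hR8 a ha))
          refine h1 (feP u a).1 hm.1 ?_ (feP u a).2 hm.2.2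
          have h10 : (feP u a).1 ≤ 8 * a := by
            rw [feP_of hu o]
            exact Nat.le_of_dvd (by omega) (feC u a hu o).conductor_dvd_level
          calc ((feP u a).1 : ℝ) ≤ 8 * a := by exact_mod_cast h10
            _ ≤ L * L ^ B := by gcongr
            _ = L ^ (B + 1) := by ring
        have h10 : (a.divisors.card : ℝ) ^ K / √(a : ℝ) * T a ≤ C * (Z / L ^ (A + B + 2)) :=
          mul_le_mul (hw1 a ha1) h9 (hT0 a) hC0.le
        linarith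
      · rw [zero_add]
        exact mul_le_mul_of_nonneg_right (hw2 a ha1 (not_le.1 hcase)) (hT0 a)
    calc (a.divisors.card : ℝ) ^ K / √(a : ℝ) * |EU lam Z u a|
        ≤ (a.divisors.card : ℝ) ^ K / √(a : ℝ) * (T a + DD Z (8 * a)) :=
          mul_le_mul_of_nonneg_left h6 hw0
      _ ≤ _ := by
          rw [mul_add]
          linarith
  refine (sum_le_sum hterm).trans ?_
  rw [sum_add_distrib, sum_add_distrib, ← mul_sum, sum_const, nsmul_eq_mul]
  have hcard : (S.card : ℝ) ≤ Z ^ (1 / 60 : ℝ) := by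
    have : S.card ≤ ⌊Z ^ (1 / 60 : ℝ)⌋₊ := by
      calc S.card ≤ (Icc 1 ⌊Z ^ (1 / 60 : ℝ)⌋₊).card :=
            card_le_card ((filter_subset _ _).trans (filter_subset _ _))
        _ = _ := by rw [Nat.card_Icc, Nat.add_sub_cancel]
    exact (Nat.cast_le.2 this).trans (Nat.floor_le (by positivity))
  have hs1 : ∑ a ∈ S, (if (a : ℝ) ≤ L ^ B then C * (Z / L ^ (A + B + 2)) else 0) ≤
      C * (Z / L ^ (A + 2)) := by
    rw [← sum_filter, sum_const, nsmul_eq_mul]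
    have h6 : ((S.filter fun a : ℕ => (a : ℝ) ≤ L ^ B).card : ℝ) ≤ L ^ B := by
      have : (S.filter fun a : ℕ => (a : ℝ) ≤ L ^ B).card ≤ ⌊L ^ B⌋₊ := by
        calc _ ≤ (Icc 1 ⌊L ^ B⌋₊).card := by
              apply card_le_card
              intro a ha
              rw [mem_filter] at ha
              exact mem_Icc.2 ⟨(hS' a ha.1).1, Nat.le_floor ha.2⟩
          _ = _ := by rw [Nat.card_Icc, Nat.add_sub_cancel]
      exact (Nat.cast_le.2 this).trans (Nat.floor_le (by positivity))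
    calc ((S.filter fun a : ℕ => (a : ℝ) ≤ L ^ B).card : ℝ) * (C * (Z / L ^ (A + B + 2)))
        ≤ L ^ B * (C * (Z / L ^ (A + B + 2))) := by gcongr
      _ = C * (Z / L ^ (A + 2)) := by
          rw [show A + B + 2 = B + (A + 2) by ring, pow_add]
          field_simp
  have hs2 : C / L ^ (A + 6) * ∑ a ∈ S, T a ≤ 1280 * C * lam * (Z / L ^ (A + 2)) := by
    calc C / L ^ (A + 6) * ∑ a ∈ S, T a ≤ C / L ^ (A + 6) * (lam * (1280 * Z * L ^ 4)) := by
          gcongr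
      _ = _ := by
          rw [show A + 6 = (A + 2) + 4 by ring, pow_add]
          field_simp
  have hs3 : (S.card : ℝ) * (C * (64 * Z ^ (1 / 60 : ℝ) * (2 * L))) ≤ 1 / 2 * (Z / L ^ A) := by
    calc (S.card : ℝ) * (C * (64 * Z ^ (1 / 60 : ℝ) * (2 * L)))
        ≤ Z ^ (1 / 60 : ℝ) * (C * (64 * Z ^ (1 / 60 : ℝ) * (2 * L))) := by gcongr
      _ = 1 / 2 * ((2 * (64 * C * 2) * L ^ (A + 1)) * (Z ^ (1 / 60 : ℝ) * Z ^ (1 / 60 : ℝ)) / L ^ A) := by
          rw [pow_succ]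
          field_simp
      _ ≤ 1 / 2 * (Z ^ (29 / 30 : ℝ) * (Z ^ (1 / 60 : ℝ) * Z ^ (1 / 60 : ℝ)) / L ^ A) := by
          gcongr
      _ = 1 / 2 * (Z / L ^ A) := by
          rw [← Real.rpow_add hZ0, ← Real.rpow_add hZ0]
          norm_num
  have hs4 : (C + 1280 * C * lam) * (Z / L ^ (A + 2)) ≤ 1 / 2 * (Z / L ^ A) := by
    have h6 : 2 * (C + 1280 * C * lam) ≤ L ^ 2 := by
      calc 2 * (C + 1280 * C * lam) ≤ L := h3
        _ ≤ L ^ 2 := by nlinarith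
    calc (C + 1280 * C * lam) * (Z / L ^ (A + 2)) =
          1 / 2 * (2 * (C + 1280 * C * lam) * (Z / L ^ (A + 2))) := by ring
      _ ≤ 1 / 2 * (L ^ 2 * (Z / L ^ (A + 2))) := by gcongr
      _ = 1 / 2 * (Z / L ^ A) := by
          rw [pow_add]
          field_simp
  have : C * (Z / L ^ (A + 2)) + 1280 * C * lam * (Z / L ^ (A + 2)) =
      (C + 1280 * C * lam) * (Z / L ^ (A + 2)) := by ring
  linarith

end Pool.Agent.MP0016c7.PC
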