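import Mathlib
import Pool.Agent.Lib.MP_0da313_nt.BV.SepL
import Pool.Agent.Lib.MP_0da313_nt.BV.LargeL

set_option autoImplicit false

/-!
Block [F] of the project on prime conductors: the identity of Vaughan for a completely
multiplicative function, and the sums of type I.
-/

open Finset MeasureTheory Filter Topology
open scoped Real ContDiff

namespace Pool.Agent.MP0016c7.PC

open ArithmeticFunction
open Pool.Agent.BVall (OmL boxL boxL_nonneg boxL_le_one boxL_of_mem boxL_of_not twAL twBL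
  norm_twAL_le twAL_eq_zero_of_small sum_norm_bilinearL_le OmL_eq_zero_of_large
  OmL_eq_zero_of_small)
open Pool.Agent.MP89da58 (tri cX cX_ge_one X_rpow_cX rpow_neg_cX_le norm_sum_mul_antitone_le
  af_sub_apply abs_moebius_le vaughan trunc trunc_apply card_divisors_eq_sum sum_dA)

variable {lam : ℝ}

/-- The arithmetic functions of the identity of Vaughan. -/
lemma vaughan_ex (U : ℕ) : ∃ L1 M H a b : ArithmeticFunction ℝ,
    (vonMangoldt : ArithmeticFunction ℝ) =
      L1 + M * log - H * (zeta : ArithmeticFunction ℝ) + a * b ∧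
    (∀ d, U < d → L1 d = 0) ∧ (∀ d, |M d| ≤ 1) ∧ (∀ d, U < d → M d = 0) ∧
    (∀ d, 1 ≤ d → |H d| ≤ Real.log d) ∧ (∀ d, U ^ 2 < d → H d = 0) ∧
    (∀ d, 1 ≤ d → |a d| ≤ Real.log d) ∧ (∀ d, d ≤ U → a d = 0) ∧
    (∀ d, 1 ≤ d → |b d| ≤ d.divisors.card) ∧ (∀ d, 1 ≤ d → d ≤ U → b d = 0) := by
  set M : ArithmeticFunction ℝ := trunc U (moebius : ArithmeticFunction ℝ) with hM
  set L1 : ArithmeticFunction ℝ := trunc U vonMangoldt with hL1
  have hMle : ∀ d, |M d| ≤ 1 := by
    intro d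
    rw [hM, trunc_apply]
    split_ifs
    · exact abs_moebius_le d
    · simp
  have hM0 : ∀ d, U < d → M d = 0 := by
    intro d hd
    rw [hM, trunc_apply, if_neg (by omega)]
  have hL0 : ∀ d, 0 ≤ L1 d ∧ L1 d ≤ vonMangoldt d := by
    intro d
    rw [hL1, trunc_apply]
    split_ifs
    · exact ⟨vonMangoldt_nonneg, le_rfl⟩
    · exact ⟨le_rfl, vonMangoldt_nonneg⟩
  have hL1' : ∀ d, U < d → L1 d = 0 := by
    intro d hd
    rw [hL1, trunc_apply, if_neg (by omega)]
  have hHle : ∀ d, 1 ≤ d → |(M * L1) d| ≤ Real.log d := by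
    intro d _
    rw [mul_apply]
    refine (abs_sum_le_sum_abs _ _).trans ?_
    calc ∑ x ∈ d.divisorsAntidiagonal, |M x.1 * L1 x.2|
        ≤ ∑ x ∈ d.divisorsAntidiagonal, vonMangoldt x.2 := by
          apply sum_le_sum
          intro x _
          rw [abs_mul, abs_of_nonneg (hL0 x.2).1]
          calc |M x.1| * L1 x.2 ≤ 1 * L1 x.2 :=
                mul_le_mul_of_nonneg_right (hMle _) (hL0 _).1
            _ ≤ vonMangoldt x.2 := by rw [one_mul]; exact (hL0 _).2
      _ = ∑ i ∈ d.divisors, vonMangoldt i := by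
          rw [← Nat.map_div_left_divisors, sum_map]
          rfl
      _ = Real.log d := vonMangoldt_sum
  have hH0 : ∀ d, U ^ 2 < d → (M * L1) d = 0 := by
    intro d hd
    rw [mul_apply]
    apply sum_eq_zero
    intro x hx
    rw [Nat.mem_divisorsAntidiagonal] at hx
    by_cases h1 : U < x.1
    · rw [hM0 _ h1, zero_mul]
    · by_cases h2 : U < x.2
      · rw [hL1' _ h2, mul_zero]
      · exfalso
        have : x.1 * x.2 ≤ U * U := Nat.mul_le_mul (by omega) (by omega)
        rw [hx.1] at this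
        linarith only [hd, this]
  set b : ArithmeticFunction ℝ := ((moebius : ArithmeticFunction ℝ) - M) *
    (zeta : ArithmeticFunction ℝ) with hb
  have hsubM : ∀ d, ((moebius : ArithmeticFunction ℝ) - M) d =
      if d ≤ U then 0 else (moebius : ArithmeticFunction ℝ) d := by
    intro d
    rw [af_sub_apply, hM, trunc_apply]
    split_ifs <;> simp
  have hble : ∀ d, 1 ≤ d → |b d| ≤ d.divisors.card := by
    intro d _
    rw [hb, mul_apply, card_divisors_eq_sum]
    refine (abs_sum_le_sum_abs _ _).trans (sum_le_sum fun x hx => ?_)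
    rw [abs_mul, hsubM]
    have h1 : |(zeta : ArithmeticFunction ℝ) x.2| ≤ 1 := by
      rw [natCoe_apply, zeta_apply]
      split_ifs <;> simp
    have h2 : |(if x.1 ≤ U then (0 : ℝ) else (moebius : ArithmeticFunction ℝ) x.1)| ≤ 1 := by
      split_ifs
      · simp
      · exact abs_moebius_le x.1
    exact mul_le_one₀ h2 (abs_nonneg _) h1
  have hb0 : ∀ d, 1 ≤ d → d ≤ U → b d = 0 := by
    intro d hd1 hdU
    rw [hb, mul_apply]
    apply sum_eq_zero
    intro x hx
    rw [Nat.mem_divisorsAntidiagonal] at hx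
    have : x.1 ≤ d := Nat.le_of_dvd (by omega) (Dvd.intro _ hx.1)
    rw [hsubM, if_pos (by omega), zero_mul]
  set a : ArithmeticFunction ℝ := vonMangoldt - L1 with ha
  have haeq : ∀ d, a d = if d ≤ U then 0 else vonMangoldt d := by
    intro d
    rw [ha, af_sub_apply, hL1, trunc_apply]
    split_ifs <;> simp
  have hale : ∀ d, 1 ≤ d → |a d| ≤ Real.log d := by
    intro d hd
    rw [haeq]
    split_ifs
    · rw [abs_zero]; exact Real.log_natCast_nonneg d
    · rw [abs_of_nonneg vonMangoldt_nonneg]; exact vonMangoldt_le_log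
  have ha0 : ∀ d, d ≤ U → a d = 0 := by
    intro d hd
    rw [haeq, if_pos hd]
  exact ⟨L1, M, M * L1, a, b, vaughan U, hL1', hMle, hM0, hHle, hH0, hale, ha0, hble, hb0⟩

lemma sum_convP (hlam : 1 ≤ lam) {X : ℝ} (hX : 0 < X) {N : ℕ} (hN : N = ⌊3 * X⌋₊)
    (ψ : ℕ → ℂ) (hψ : ∀ m n, ψ (m * n) = ψ m * ψ n) (f g : ArithmeticFunction ℝ) :
    ∑ n ∈ Icc 1 N, (((f * g) n : ℝ) : ℂ) * ψ n * (OmL lam X n : ℂ) =
      ∑ d ∈ Icc 1 N, ∑ m ∈ Icc 1 N, ((f d : ℂ) * ψ d) * ((g m : ℂ) * ψ m) *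
        (OmL lam X (d * m) : ℂ) := by
  have h1 : ∀ n ∈ Icc 1 N, (((f * g) n : ℝ) : ℂ) * ψ n * (OmL lam X n : ℂ) =
      ∑ x ∈ n.divisorsAntidiagonal, ((f x.1 : ℂ) * ψ x.1) *
        ((g x.2 : ℂ) * ψ x.2) * (OmL lam X (x.1 * x.2) : ℂ) := by
    intro n _
    rw [mul_apply]
    push_cast
    rw [sum_mul, sum_mul]
    apply sum_congr rfl
    intro x hx
    rw [Nat.mem_divisorsAntidiagonal] at hx
    rw [← hx.1, hψ]
    ring
  rw [sum_congr rfl h1, sum_dA (fun a b : ℕ => ((f a : ℂ) * ψ a) *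
        ((g b : ℂ) * ψ b) * (OmL lam X (a * b) : ℂ))]
  apply sum_congr rfl
  intro d hd
  apply sum_congr rfl
  intro m hm
  split_ifs with h
  · rfl
  · rw [OmL_eq_zero_of_large hlam hX]
    · simp
    · rw [not_le, hN, Nat.floor_lt (by positivity)] at h
      have : Real.exp 1 * X ≤ 3 * X :=
        mul_le_mul_of_nonneg_right (by linarith [Real.exp_one_lt_d9]) hX.le
      linarith

/-- The decomposition of a sum over primes. -/
lemma psi_dec (hlam : 1 ≤ lam) {X : ℝ} (hX : 0 < X) {N U : ℕ} (hN : N = ⌊3 * X⌋₊)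
    (hU : Real.exp 1 * U ≤ X)
    {L1 M H a b : ArithmeticFunction ℝ} (hv : (vonMangoldt : ArithmeticFunction ℝ) =
      L1 + M * log - H * (zeta : ArithmeticFunction ℝ) + a * b)
    (hL1 : ∀ d, U < d → L1 d = 0)
    (ψ : ℕ → ℂ) (hψ : ∀ m n, ψ (m * n) = ψ m * ψ n) :
    ∑ n ∈ Icc 1 N, (vonMangoldt n : ℂ) * ψ n * (OmL lam X n : ℂ) =
      ∑ d ∈ Icc 1 N, ∑ m ∈ Icc 1 N, ((M d : ℂ) * ψ d) *
        ((log m : ℂ) * ψ m) * (OmL lam X (d * m) : ℂ)
      - ∑ d ∈ Icc 1 N, ∑ m ∈ Icc 1 N, ((H d : ℂ) * ψ d) *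
        (((zeta : ArithmeticFunction ℝ) m : ℂ) * ψ m) * (OmL lam X (d * m) : ℂ)
      + ∑ d ∈ Icc 1 N, ∑ m ∈ Icc 1 N, ((a d : ℂ) * ψ d) *
        ((b m : ℂ) * ψ m) * (OmL lam X (d * m) : ℂ) := by
  rw [← sum_convP hlam hX hN ψ hψ, ← sum_convP hlam hX hN ψ hψ, ← sum_convP hlam hX hN ψ hψ,
    ← sum_sub_distrib, ← sum_add_distrib]
  apply sum_congr rfl
  intro n hn
  rw [mem_Icc] at hn
  have h1 : vonMangoldt n = L1 n + (M * log) n - (H * (zeta : ArithmeticFunction ℝ)) n +
      (a * b) n := by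
    conv_lhs => rw [hv]
    rw [ArithmeticFunction.add_apply, af_sub_apply, ArithmeticFunction.add_apply]
  have h2 : (L1 n : ℂ) * (OmL lam X n : ℂ) = 0 := by
    by_cases h : n ≤ U
    · rw [OmL_eq_zero_of_small hlam hX (by omega) (by
        have : (n : ℝ) ≤ U := by exact_mod_cast h
        have h3 := Real.exp_pos 1
        nlinarith only [this, hU, h3])]
      simp
    · rw [hL1 n (by omega)]; simp
  rw [h1]
  push_cast
  linear_combination ψ n * h2

/-- the smooth factor in a type I sum -/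
lemma norm_twBL_psi_le {X : ℝ} (N : ℕ) (ψ : ℕ → ℂ) {P : ℝ}
    (hP : ∀ a k : ℕ, ‖∑ i ∈ range k, ψ (a + i)‖ ≤ P) (g : ℝ → ℝ) (s : ℝ)
    (hg : AntitoneOn (fun x : ℝ => x ^ (-cX X) * g x) (Set.Ici (Real.exp s)))
    (hgn : ∀ x, Real.exp s ≤ x → 0 ≤ g x) :
    ‖twBL lam X N (fun m => ψ m * (g m : ℂ)) s‖ ≤
      P * (Real.exp s ^ (-cX X) * g (Real.exp s)) := by
  set a : ℕ := ⌈Real.exp s⌉₊ with ha
  set b : ℕ := min N ⌊Real.exp (s + 1 / lam)⌋₊ with hb
  have hP0 : 0 ≤ P := (norm_nonneg _).trans (hP 0 0)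
  have ha1 : 1 ≤ a := Nat.one_le_ceil_iff.mpr (Real.exp_pos s)
  have hae : Real.exp s ≤ a := Nat.le_ceil _
  set f : ℝ → ℝ := fun x : ℝ => x ^ (-cX X) * g x with hf
  have hfn : ∀ x, Real.exp s ≤ x → 0 ≤ f x := by
    intro x hx
    have : 0 < x := lt_of_lt_of_le (Real.exp_pos s) hx
    exact mul_nonneg (by positivity) (hgn x hx)
  have h1 : twBL lam X N (fun m => ψ m * (g m : ℂ)) s =
      ∑ m ∈ Ico a (b + 1), ψ m * (f m : ℂ) := by
    rw [twBL]
    have hsub : Ico a (b + 1) ⊆ Icc 1 N := by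
      intro m hm
      rw [mem_Ico] at hm
      rw [mem_Icc]
      have : b ≤ N := min_le_left _ _
      omega
    rw [← sum_subset hsub]
    · apply sum_congr rfl
      intro m hm
      rw [mem_Ico, Nat.lt_succ_iff] at hm
      have hm0 : (0 : ℝ) < m := by
        have : 1 ≤ m := by omega
        exact_mod_cast this
      have hm1 : Real.exp s ≤ m := hae.trans (by exact_mod_cast hm.1)
      have hm2 : (m : ℝ) ≤ Real.exp (s + 1 / lam) := by
        have h5 : m ≤ ⌊Real.exp (s + 1 / lam)⌋₊ := hm.2.trans (min_le_right _ _)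
        exact (Nat.le_floor_iff (Real.exp_pos _).le).mp h5
      have hl1 : s ≤ Real.log m := (Real.le_log_iff_exp_le hm0).mpr hm1
      have hl2 : Real.log m ≤ s + 1 / lam := (Real.log_le_iff_le_exp hm0).mpr hm2
      rw [boxL_of_mem (by linarith) hl1, hf]
      push_cast
      ring
    · intro m hm hm'
      rw [mem_Icc] at hm
      rw [mem_Ico, not_and_or, not_le, not_lt] at hm'
      have hm0 : (0 : ℝ) < m := by exact_mod_cast hm.1
      rw [boxL_of_not]
      · simp
      · rintro ⟨hc1, hc2⟩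
        rcases hm' with hm' | hm'
        · have h5 : (m : ℝ) < Real.exp s := by
            by_contra hcon
            rw [not_lt] at hcon
            have := Nat.ceil_le.mpr hcon
            omega
          have := (Real.log_lt_iff_lt_exp hm0).mpr h5
          linarith
        · have h6 : ⌊Real.exp (s + 1 / lam)⌋₊ < m := by
            rcases min_lt_iff.mp (lt_of_lt_of_le (Nat.lt_succ_self b) hm') with h | h
            · omega
            · exact h
          have h7 : Real.exp (s + 1 / lam) < m := (Nat.floor_lt (Real.exp_pos _).le).mp h6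
          have := (Real.lt_log_iff_exp_lt hm0).mpr h7
          linarith
  rw [h1, sum_Ico_eq_sum_range]
  have h2 : ∀ i : ℕ, Real.exp s ≤ ((a + i : ℕ) : ℝ) := by
    intro i
    push_cast
    have : (0 : ℝ) ≤ i := Nat.cast_nonneg i
    linarith
  have h3 := norm_sum_mul_antitone_le (fun i => ψ (a + i))
    (fun i => f ((a + i : ℕ) : ℝ)) P (b + 1 - a)
    (fun k _ => hP a k)
    (fun i _ => hg (Set.mem_Ici.mpr (h2 i)) (Set.mem_Ici.mpr (h2 (i + 1)))
      (by push_cast; linarith))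
    (hfn _ (h2 _))
  refine h3.trans ?_
  apply mul_le_mul_of_nonneg_left _ hP0
  exact hg (Set.mem_Ici.mpr le_rfl) (Set.mem_Ici.mpr (h2 0)) (h2 0)

/-- bound for a type I sum -/
lemma typeI_boundP (hlam : 1 ≤ lam) {X : ℝ} (hX : 1 < X) (N : ℕ) (ψ : ℕ → ℂ) {P : ℝ}
    (hP : ∀ a k : ℕ, ‖∑ i ∈ range k, ψ (a + i)‖ ≤ P) (V : ℕ) (hV : 1 ≤ V)
    (hVX : Real.exp 2 * V ≤ X) (α : ℕ → ℂ) {L : ℝ} (hL : 0 ≤ L)
    (hα : ∀ d, 1 ≤ d → ‖α d‖ ≤ L) (hα0 : ∀ d, V < d → α d = 0) (g : ℝ → ℝ)
    (hg : AntitoneOn (fun x : ℝ => x ^ (-cX X) * g x) (Set.Ici (Real.exp 1)))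
    (hgn : ∀ x, Real.exp 1 ≤ x → 0 ≤ g x) (hgs : ∀ s, 1 ≤ s → g (Real.exp s) ≤ s) :
    ‖∑ d ∈ Icc 1 N, ∑ m ∈ Icc 1 N, α d * (ψ m * (g m : ℂ)) * (OmL lam X (d * m) : ℂ)‖ ≤
      lam * (Real.exp 2 * P * V ^ 2 * L * (Real.log X * (Real.log X + 1))) := by
  have hP0 : 0 ≤ P := (norm_nonneg _).trans (hP 0 0)
  have hV0 : (0 : ℝ) < V := by exact_mod_cast hV
  have hX0 : 0 < X := by linarith
  have hlog : 0 < Real.log X := Real.log_pos hX
  have hlV : 2 ≤ Real.log (X / V) := by
    rw [Real.le_log_iff_exp_le (by positivity), le_div_iff₀ hV0]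
    exact hVX
  have key := sum_norm_bilinearL_le hlam hX.le N (I := (Finset.univ : Finset Unit)) (fun _ => α)
    (fun _ m => ψ m * (g m : ℂ)) (K := V * L * (P * (Real.log X *
      (Real.exp 1 * V / X)))) (by
    intro s hs
    rw [Set.mem_Icc] at hs
    simp only [univ_unique, sum_singleton]
    by_cases hs1 : s < Real.log (X / V) - 1
    · rw [twAL_eq_zero_of_small hlam hX.le N V hV α hα0 hs1]
      simp only [norm_zero, zero_mul]
      positivity
    · rw [not_lt] at hs1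
      have hs2 : 1 ≤ s := by linarith
      have h1 := norm_twAL_le (lam := lam) hX.le N V α hL hα hα0 s
      have hexp : Real.exp 1 ≤ Real.exp s := Real.exp_le_exp.mpr hs2
      have h2 := norm_twBL_psi_le (lam := lam) (X := X) N ψ hP g s
        (hg.mono (Set.Ici_subset_Ici.mpr hexp)) (fun x hx => hgn x (hexp.trans hx))
      apply mul_le_mul h1 _ (norm_nonneg _) (by positivity)
      refine h2.trans ?_
      apply mul_le_mul_of_nonneg_left _ hP0
      rw [mul_comm]
      have h3 : Real.exp s ^ (-cX X) ≤ (Real.exp s)⁻¹ :=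
        rpow_neg_cX_le hX.le (Real.one_le_exp (by linarith))
      have h4 : (Real.exp s)⁻¹ ≤ Real.exp 1 * V / X := by
        rw [inv_le_comm₀ (Real.exp_pos s) (by positivity), inv_div]
        calc X / (Real.exp 1 * V) = Real.exp (Real.log (X / V) - 1) := by
              rw [Real.exp_sub, Real.exp_log (by positivity)]
              field_simp
          _ ≤ Real.exp s := Real.exp_le_exp.mpr hs1
      exact mul_le_mul ((hgs s hs2).trans hs.2) (h3.trans h4) (by positivity) hlog.le)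
  simp only [univ_unique, sum_singleton] at key
  refine key.trans (le_of_eq ?_)
  rw [X_rpow_cX hX]
  have : Real.exp 2 = Real.exp 1 * Real.exp 1 := by rw [← Real.exp_add]; norm_num
  rw [this]
  field_simp

/-- The two sums of type I in the decomposition. -/
lemma typeI_two (hlam : 1 ≤ lam) {X : ℝ} (hX : Real.exp 3 ≤ X) (N U : ℕ) (hU1 : 1 ≤ U)
    (hVX : Real.exp 2 * ((U ^ 2 : ℕ) : ℝ) ≤ X) {M H : ArithmeticFunction ℝ}
    (hMle : ∀ d, |M d| ≤ 1) (hM0 : ∀ d, U < d → M d = 0)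
    (hHle : ∀ d, 1 ≤ d → |H d| ≤ Real.log d) (hH0 : ∀ d, U ^ 2 < d → H d = 0)
    (ψ : ℕ → ℂ) (hψ1 : ∀ n, ‖ψ n‖ ≤ 1) {P : ℝ}
    (hP : ∀ a k : ℕ, ‖∑ i ∈ range k, ψ (a + i)‖ ≤ P) :
    ‖∑ d ∈ Icc 1 N, ∑ m ∈ Icc 1 N, ((M d : ℂ) * ψ d) *
        ((log m : ℂ) * ψ m) * (OmL lam X (d * m) : ℂ)‖ ≤
      lam * (Real.exp 2 * P * ((U ^ 2 : ℕ) : ℝ) ^ 2 * Real.log X *
        (Real.log X * (Real.log X + 1))) ∧
    ‖∑ d ∈ Icc 1 N, ∑ m ∈ Icc 1 N, ((H d : ℂ) * ψ d) *
        (((zeta : ArithmeticFunction ℝ) m : ℂ) * ψ m) * (OmL lam X (d * m) : ℂ)‖ ≤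
      lam * (Real.exp 2 * P * ((U ^ 2 : ℕ) : ℝ) ^ 2 * Real.log X *
        (Real.log X * (Real.log X + 1))) := by
  have hX0 : 0 < X := lt_of_lt_of_le (Real.exp_pos 3) hX
  have hX1 : 1 < X :=
    lt_of_lt_of_le (by rw [← Real.exp_zero]; exact Real.exp_lt_exp.mpr (by norm_num)) hX
  have hlog3 : 3 ≤ Real.log X := (Real.le_log_iff_exp_le hX0).mpr hX
  have hlog : 0 < Real.log X := by linarith only [hlog3]
  have hV1 : 1 ≤ U ^ 2 := Nat.one_le_pow _ _ hU1
  have hV1X : ((U ^ 2 : ℕ) : ℝ) ≤ X := by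
    refine le_trans ?_ hVX
    have : 1 ≤ Real.exp 2 := Real.one_le_exp (by norm_num)
    have h0 : (0 : ℝ) ≤ ((U ^ 2 : ℕ) : ℝ) := Nat.cast_nonneg _
    nlinarith only [this, h0]
  have hinvexp : ∀ x : ℝ, Real.exp 1 ≤ x → 0 < x := fun x hx => lt_of_lt_of_le (Real.exp_pos 1) hx
  have hc1 : 1 ≤ cX X := cX_ge_one hX1.le
  constructor
  · have key := typeI_boundP hlam hX1 N ψ hP (U ^ 2) hV1 hVX (fun d => (M d : ℂ) * ψ d)
      hlog.le (by
        intro d _
        rw [norm_mul, Complex.norm_real, Real.norm_eq_abs]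
        calc |M d| * ‖ψ d‖ ≤ 1 :=
              mul_le_one₀ (hMle d) (norm_nonneg _) (hψ1 _)
          _ ≤ Real.log X := by linarith only [hlog3]) (by
        intro d hd
        have hUU : U ≤ U ^ 2 := Nat.le_self_pow (by norm_num) U
        rw [hM0 d (by omega)]
        simp) Real.log (by
        intro x hx y hy hxy
        have h1 := Real.log_div_self_rpow_antitoneOn (a := cX X) (by linarith only [hc1])
        have h2 : Real.exp (cX X)⁻¹ ≤ Real.exp 1 :=
          Real.exp_le_exp.mpr (inv_le_one_of_one_le₀ hc1)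
        have h3 := h1 (a := x) (b := y) (Set.mem_Ici.mpr (h2.trans hx))
          (Set.mem_Ici.mpr (h2.trans hy)) hxy
        simp only at h3 ⊢
        rw [Real.rpow_neg (hinvexp x hx).le, Real.rpow_neg (hinvexp y hy).le, mul_comm,
          mul_comm (x ^ cX X)⁻¹, ← div_eq_mul_inv, ← div_eq_mul_inv]
        exact h3) (by
        intro x hx
        exact Real.log_nonneg (by
          have := Real.one_le_exp (x := 1) (by norm_num)
          linarith only [hx, this])) (by
        intro s _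
        rw [Real.log_exp])
    refine le_trans (le_of_eq ?_) key
    congr 1
    apply sum_congr rfl
    intro d _
    apply sum_congr rfl
    intro m _
    rw [log_apply]
    ring
  · have key := typeI_boundP hlam hX1 N ψ hP (U ^ 2) hV1 hVX (fun d => (H d : ℂ) * ψ d)
      hlog.le (by
        intro d hd
        rw [norm_mul, Complex.norm_real, Real.norm_eq_abs]
        by_cases hdU : U ^ 2 < d
        · rw [hH0 d hdU]
          simp [hlog.le]
        · have hd0 : (0 : ℝ) < d := by exact_mod_cast hd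
          have h2 : (d : ℝ) ≤ X := by
            refine le_trans ?_ hV1X
            exact_mod_cast not_lt.mp hdU
          have h3 : Real.log d ≤ Real.log X := Real.log_le_log hd0 h2
          calc |H d| * ‖ψ d‖ ≤ |H d| * 1 :=
                mul_le_mul_of_nonneg_left (hψ1 _) (abs_nonneg _)
            _ ≤ Real.log X := by rw [mul_one]; exact (hHle d hd).trans h3) (by
        intro d hd
        rw [hH0 d hd]
        simp) (fun _ => 1) (by
        intro x hx y hy hxy
        simp only [mul_one]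
        exact Real.rpow_le_rpow_of_nonpos (hinvexp x hx) hxy (by linarith only [hc1])) (by
        intro x hx
        exact zero_le_one) (by
        intro s hs
        exact hs)
    refine le_trans (le_of_eq ?_) key
    congr 1
    apply sum_congr rfl
    intro d _
    apply sum_congr rfl
    intro m hm
    rw [mem_Icc] at hm
    rw [natCoe_apply, zeta_apply, if_neg (by omega)]
    push_cast
    ring

end Pool.Agent.MP0016c7.PC
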