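import Mathlib
import Pool.Agent.Lib.MP_0016c7_nt.PC.FEU1
import Pool.Agent.Lib.MP_0016c7_nt.PC.FEU3
import Pool.Agent.Lib.MP_0016c7_nt.Rz.ArithA1
import Pool.Agent.Lib.MP_0016c7_nt.Rz2.Mean2

set_option autoImplicit false

/-!
Block [F] of the project on prime conductors: the sums of type II, by the quadratic large sieve.
-/

open Finset MeasureTheory Filter Topology
open scoped Real ContDiff

namespace Pool.Agent.MP0016c7.PC

open Pool.Agent.MP0016c7.Rz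
open Pool.Agent.BVall (OmL boxL boxL_nonneg boxL_le_one boxL_of_mem boxL_of_not twAL twBL
  sum_norm_bilinearL_le inv_lam_le)
open Pool.Agent.MP89da58 (tri cX cX_ge_one X_rpow_cX rpow_neg_cX_le)

lemma sum_sq2_le (N : ℕ) : ∑ n ∈ Icc 1 N, (sq2 n : ℝ) ≤ N * (1 + Real.log N) := by
  classical
  have hmap : ∀ n ∈ Icc 1 N, sq2 n ∈ Icc 1 N := by
    intro n hn
    have hn1 := (mem_Icc.1 hn).1
    have h := sq1_mul_sq2 n (by omega)
    have h1 : 0 < sq1 n := Nat.pos_of_ne_zero fun h0 => by rw [h0] at h; omega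
    have h2 : 0 < sq2 n := Nat.pos_of_ne_zero fun h0 => by rw [h0] at h; simp at h; omega
    have h4 : sq2 n ≤ n := by
      conv_rhs => rw [← h]
      calc sq2 n ≤ sq2 n ^ 2 := Nat.le_self_pow (by norm_num) _
        _ ≤ _ := Nat.le_mul_of_pos_left _ h1
    exact mem_Icc.2 ⟨h2, h4.trans (mem_Icc.1 hn).2⟩
  rw [← sum_fiberwise_of_maps_to (g := sq2) (t := Icc 1 N) hmap]
  have h1 : ∀ b ∈ Icc 1 N, ∑ n ∈ (Icc 1 N).filter (fun n => sq2 n = b), (sq2 n : ℝ) ≤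
      N * (1 / (b : ℝ)) := by
    intro b hb
    have hb0 : (0 : ℝ) < b := by exact_mod_cast (mem_Icc.1 hb).1
    have h2 : ∑ n ∈ (Icc 1 N).filter (fun n => sq2 n = b), (sq2 n : ℝ) =
        ((Icc 1 N).filter (fun n => sq2 n = b)).card * (b : ℝ) := by
      rw [← nsmul_eq_mul, ← sum_const]
      exact sum_congr rfl fun n hn => by rw [(mem_filter.1 hn).2]
    have h3 : ((Icc 1 N).filter (fun n => sq2 n = b)).card ≤ N / b ^ 2 := by
      rw [← Nat.Ioc_filter_dvd_card_eq_div]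
      apply card_le_card
      intro n hn
      rw [mem_filter, mem_Icc] at hn
      rw [mem_filter, mem_Ioc]
      refine ⟨⟨by omega, hn.1.2⟩, ?_⟩
      have h := sq1_mul_sq2 n (by omega)
      rw [hn.2] at h
      exact Dvd.intro_left _ h
    have h4 : (((Icc 1 N).filter (fun n => sq2 n = b)).card : ℝ) ≤ N / (b : ℝ) ^ 2 := by
      calc (((Icc 1 N).filter (fun n => sq2 n = b)).card : ℝ) ≤ ((N / b ^ 2 : ℕ) : ℝ) := by
            exact_mod_cast h3
        _ ≤ (N : ℝ) / ((b ^ 2 : ℕ) : ℝ) := Nat.cast_div_le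
        _ = _ := by push_cast; rfl
    rw [h2]
    calc (((Icc 1 N).filter (fun n => sq2 n = b)).card : ℝ) * b ≤ N / (b : ℝ) ^ 2 * b := by
          gcongr
      _ = N * (1 / (b : ℝ)) := by field_simp
  refine (sum_le_sum h1).trans ?_
  rw [← mul_sum]
  apply mul_le_mul_of_nonneg_left _ (Nat.cast_nonneg _)
  have := harmonic_le_one_add_log N
  rw [harmonic_eq_sum_Icc] at this
  push_cast at this
  simpa [one_div] using this

/-- The mean square for coefficients of size `H / y`. -/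
lemma l2_bound [QlsHyp] (ε : ℝ) (hε : 0 < ε) : ∃ C : ℝ, 0 < C ∧ ∀ K : ℕ, 1 ≤ K → ∀ y H : ℝ,
    1 ≤ y → 0 ≤ H → ∀ x : ℕ → ℂ, (∀ d : ℕ, 1 ≤ d → (d : ℝ) ≤ y → ‖x d‖ ≤ H / y) →
    ∑ a ∈ Osf K, ‖∑ d ∈ Icc 1 ⌊y⌋₊, x d * (jr d a : ℂ)‖ ^ 2 ≤
      C * ((K : ℝ) * y) ^ ε * H ^ 2 * (K / y + 1) := by
  obtain ⟨C, hC, h⟩ := mean2 (ε / 2) (by linarith)
  refine ⟨C * (1 + 2 / ε), by positivity, fun K hK y H hy hH x hx => ?_⟩
  have hy0 : 0 < y := by linarith
  have hK1 : (1 : ℝ) ≤ K := by exact_mod_cast hK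
  have hN1 : 1 ≤ ⌊y⌋₊ := (Nat.one_le_floor_iff y).2 hy
  have hNy : (⌊y⌋₊ : ℝ) ≤ y := Nat.floor_le hy0.le
  have hNr : (1 : ℝ) ≤ ⌊y⌋₊ := by exact_mod_cast hN1
  have hKy : 1 ≤ (K : ℝ) * y := by nlinarith
  have h1 : ∑ n ∈ Icc 1 ⌊y⌋₊, ‖x n‖ ^ 2 * (sq2 n : ℝ) ≤ (H / y) ^ 2 * (y * (1 + Real.log y)) := by
    calc ∑ n ∈ Icc 1 ⌊y⌋₊, ‖x n‖ ^ 2 * (sq2 n : ℝ)
        ≤ ∑ n ∈ Icc 1 ⌊y⌋₊, (H / y) ^ 2 * (sq2 n : ℝ) := by
          refine sum_le_sum fun n hn => ?_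
          rw [mem_Icc] at hn
          have : (n : ℝ) ≤ y := le_trans (by exact_mod_cast hn.2) hNy
          have := hx n hn.1 this
          gcongr
      _ = (H / y) ^ 2 * ∑ n ∈ Icc 1 ⌊y⌋₊, (sq2 n : ℝ) := by rw [mul_sum]
      _ ≤ (H / y) ^ 2 * ((⌊y⌋₊ : ℝ) * (1 + Real.log ⌊y⌋₊)) := by
          gcongr
          exact sum_sq2_le _
      _ ≤ _ := by
          have : 0 ≤ Real.log (⌊y⌋₊ : ℝ) := Real.log_nonneg hNr
          gcongr
  have h2 : 1 + Real.log y ≤ (1 + 2 / ε) * ((K : ℝ) * y) ^ (ε / 2) := by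
    have h3 : Real.log y ≤ y ^ (ε / 2) / (ε / 2) := Real.log_le_rpow_div (by positivity) (by linarith)
    have h4 : y ^ (ε / 2) ≤ ((K : ℝ) * y) ^ (ε / 2) :=
      Real.rpow_le_rpow (by positivity) (by nlinarith) (by linarith)
    have h5 : (1 : ℝ) ≤ ((K : ℝ) * y) ^ (ε / 2) := Real.one_le_rpow hKy (by linarith)
    have h6 : y ^ (ε / 2) / (ε / 2) ≤ 2 / ε * ((K : ℝ) * y) ^ (ε / 2) := by
      rw [div_le_iff₀ (by linarith)]
      calc y ^ (ε / 2) ≤ ((K : ℝ) * y) ^ (ε / 2) := h4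
        _ = 2 / ε * ((K : ℝ) * y) ^ (ε / 2) * (ε / 2) := by field_simp
    linarith
  have hlogy : 0 ≤ 1 + Real.log y := by
    have := Real.log_nonneg hy
    linarith
  calc _ ≤ C * ((K : ℝ) * ⌊y⌋₊) ^ (ε / 2) * (K + ⌊y⌋₊) *
        ∑ n ∈ Icc 1 ⌊y⌋₊, ‖x n‖ ^ 2 * (sq2 n : ℝ) := h K ⌊y⌋₊ hK hN1 x
    _ ≤ C * ((K : ℝ) * y) ^ (ε / 2) * (K + y) *
        ((H / y) ^ 2 * (y * ((1 + 2 / ε) * ((K : ℝ) * y) ^ (ε / 2)))) := by
        refine mul_le_mul ?_ (h1.trans ?_) (by positivity) (by positivity)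
        · gcongr
        · gcongr
    _ = C * (1 + 2 / ε) * (((K : ℝ) * y) ^ (ε / 2) * ((K : ℝ) * y) ^ (ε / 2)) * H ^ 2 *
        (K / y + 1) := by
        field_simp
    _ = _ := by
        rw [← Real.rpow_add (by positivity)]
        congr 4
        ring

/-- The first factor of a type II sum. -/
lemma twA_l2 [QlsHyp] (ε : ℝ) (hε : 0 < ε) : ∃ C : ℝ, 0 < C ∧ ∀ lam : ℝ, 1 ≤ lam → ∀ X : ℝ,
    1 ≤ X → ∀ N U K : ℕ, N = ⌊3 * X⌋₊ → 1 ≤ K → ∀ u : ℤ, ∀ (av : ℕ → ℂ) (H : ℝ), 0 ≤ H →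
    (∀ d : ℕ, 1 ≤ d → (d : ℝ) ≤ 3 * X → ‖av d‖ ≤ H) → (∀ d : ℕ, 1 ≤ d → d ≤ U → av d = 0) →
    ∀ s ∈ Set.Icc (-1 : ℝ) (Real.log X),
    (X * Real.exp (-s) < U → ∀ a, twAL lam X N (fun d => av d * (fps u a d : ℂ)) s = 0) ∧
    ∑ a ∈ Osf K, ‖twAL lam X N (fun d => av d * (fps u a d : ℂ)) s‖ ^ 2 ≤
      C * ((K : ℝ) * (3 * X)) ^ ε * H ^ 2 * (K / (X * Real.exp (-s)) + 1) := by
  obtain ⟨C, hC, h⟩ := l2_bound ε hε
  refine ⟨C * Real.exp 1 ^ 2, by positivity, ?_⟩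
  intro lam hlam X hX N U K hN hK u av H hH hav hav0 s hs
  rw [Set.mem_Icc] at hs
  have hl := inv_lam_le hlam
  have hX0 : 0 < X := by linarith
  have hlog : 0 ≤ Real.log X := Real.log_nonneg hX
  set y : ℝ := X * Real.exp (-s) with hy
  have hy0 : 0 < y := by positivity
  have hy1 : 1 ≤ y := by
    have h1 : Real.exp (-Real.log X) ≤ Real.exp (-s) := Real.exp_le_exp.2 (by linarith)
    rw [Real.exp_neg, Real.exp_log hX0] at h1
    calc (1 : ℝ) = X * X⁻¹ := by field_simp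
      _ ≤ y := by rw [hy]; gcongr
  have hy3 : y ≤ 3 * X := by
    have h1 : Real.exp (-s) ≤ 3 := by
      calc Real.exp (-s) ≤ Real.exp 1 := Real.exp_le_exp.mpr (by linarith)
        _ ≤ 3 := by linarith [Real.exp_one_lt_d9]
    rw [hy, mul_comm]
    exact mul_le_mul_of_nonneg_right h1 hX0.le
  have hyN : ⌊y⌋₊ ≤ N := by
    rw [hN]
    exact Nat.floor_le_floor hy3
  have hlogXd : ∀ d : ℕ, 1 ≤ d → Real.log (X / d) = Real.log X - Real.log d := by
    intro d hd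
    have : (0 : ℝ) < d := by exact_mod_cast hd
    rw [Real.log_div (by positivity) (by positivity)]
  have hlogy : Real.log y = Real.log X - s := by
    rw [hy, Real.log_mul (by positivity) (by positivity), Real.log_exp]
    ring
  have hbox : ∀ d : ℕ, 1 ≤ d → ¬ ((d : ℝ) ≤ y ∧ y ≤ Real.exp 1 * d) →
      boxL lam (Real.log (X / d)) s = 0 := by
    intro d hd hcon
    have hd0 : (0 : ℝ) < d := by exact_mod_cast hd
    rw [boxL_of_not]
    rintro ⟨h1, h2⟩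
    apply hcon
    rw [hlogXd d hd] at h1 h2
    constructor
    · rw [← Real.log_le_log_iff hd0 hy0, hlogy]
      linarith
    · rw [← Real.log_le_log_iff hy0 (by positivity), hlogy,
        Real.log_mul (Real.exp_pos 1).ne' hd0.ne', Real.log_exp]
      linarith
  set x : ℕ → ℂ := fun d => av d * (jr u d : ℂ) *
    (((d : ℝ) ^ (-cX X) * boxL lam (Real.log (X / d)) s : ℝ) : ℂ) with hx
  have hxzero : ∀ d : ℕ, 1 ≤ d → ¬ ((d : ℝ) ≤ y ∧ y ≤ Real.exp 1 * d) → x d = 0 := by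
    intro d hd hcon
    rw [hx]
    simp only
    rw [hbox d hd hcon]
    simp
  have h1 : ∀ a, twAL lam X N (fun d => av d * (fps u a d : ℂ)) s =
      ∑ d ∈ Icc 1 ⌊y⌋₊, x d * (jr d a : ℂ) := by
    intro a
    rw [twAL]
    have hsub : Icc 1 ⌊y⌋₊ ⊆ Icc 1 N := Icc_subset_Icc le_rfl hyN
    rw [sum_subset hsub]
    · apply sum_congr rfl
      intro d _
      rw [hx, fps]
      push_cast
      ring
    · intro d hd hd'
      rw [mem_Icc] at hd
      rw [mem_Icc, not_and, not_le] at hd'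
      have h2 := hd' hd.1
      rw [Nat.floor_lt hy0.le] at h2
      rw [hxzero d hd.1 (by intro h; linarith [h.1])]
      simp
  refine ⟨fun hyU a => ?_, ?_⟩
  · rw [h1]
    apply sum_eq_zero
    intro d hd
    rw [mem_Icc] at hd
    have h2 : (d : ℝ) ≤ y := le_trans (by exact_mod_cast hd.2) (Nat.floor_le hy0.le)
    have h3 : d ≤ U := by
      have : (d : ℝ) < U := lt_of_le_of_lt h2 hyU
      exact_mod_cast this.le
    rw [hx]
    simp only
    rw [hav0 d hd.1 h3]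
    simp
  · rw [sum_congr rfl fun a _ => by rw [h1 a]]
    have h2 : ∀ d : ℕ, 1 ≤ d → (d : ℝ) ≤ y → ‖x d‖ ≤ H * Real.exp 1 / y := by
      intro d hd hdy
      have hd0 : (0 : ℝ) < d := by exact_mod_cast hd
      have hd1 : (1 : ℝ) ≤ d := by exact_mod_cast hd
      by_cases hc : (d : ℝ) ≤ y ∧ y ≤ Real.exp 1 * d
      · rw [hx]
        simp only
        rw [norm_mul, norm_mul, Complex.norm_real, Complex.norm_real, Real.norm_eq_abs,
          Real.norm_of_nonneg (mul_nonneg (by positivity) (boxL_nonneg _ _))]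
        have h3 : (d : ℝ) ^ (-cX X) * boxL lam (Real.log (X / d)) s ≤ Real.exp 1 / y := by
          calc (d : ℝ) ^ (-cX X) * boxL lam (Real.log (X / d)) s ≤ (d : ℝ)⁻¹ * 1 :=
                mul_le_mul (rpow_neg_cX_le hX hd1) (boxL_le_one _ _) (boxL_nonneg _ _)
                  (by positivity)
            _ ≤ Real.exp 1 / y := by
                rw [mul_one, inv_eq_one_div, div_le_div_iff₀ hd0 hy0]
                linarith [hc.2]
        calc ‖av d‖ * |jr u d| * ((d : ℝ) ^ (-cX X) * boxL lam (Real.log (X / d)) s)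
            ≤ H * 1 * (Real.exp 1 / y) := by
              apply mul_le_mul _ h3 (mul_nonneg (by positivity) (boxL_nonneg _ _)) (by positivity)
              exact mul_le_mul (hav d hd (hdy.trans hy3)) (abs_jr_le _ _) (abs_nonneg _) hH
          _ = H * Real.exp 1 / y := by ring
      · rw [hxzero d hd hc, norm_zero]
        positivity
    refine (h K hK y (H * Real.exp 1) hy1 (by positivity) x h2).trans ?_
    calc C * ((K : ℝ) * y) ^ ε * (H * Real.exp 1) ^ 2 * (K / y + 1)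
        ≤ C * ((K : ℝ) * (3 * X)) ^ ε * (H * Real.exp 1) ^ 2 * (K / y + 1) := by gcongr
      _ = _ := by ring

/-- The second factor of a type II sum. -/
lemma twB_l2 [QlsHyp] (ε : ℝ) (hε : 0 < ε) : ∃ C : ℝ, 0 < C ∧ ∀ lam : ℝ, 1 ≤ lam → ∀ X : ℝ,
    1 ≤ X → ∀ N U K : ℕ, N = ⌊3 * X⌋₊ → 1 ≤ K → ∀ u : ℤ, ∀ (bv : ℕ → ℂ) (H : ℝ), 0 ≤ H →
    (∀ d : ℕ, 1 ≤ d → (d : ℝ) ≤ 3 * X → ‖bv d‖ ≤ H) → (∀ d : ℕ, 1 ≤ d → d ≤ U → bv d = 0) →
    ∀ s ∈ Set.Icc (-1 : ℝ) (Real.log X),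
    (Real.exp (s + 1) < U → ∀ a, twBL lam X N (fun d => bv d * (fps u a d : ℂ)) s = 0) ∧
    ∑ a ∈ Osf K, ‖twBL lam X N (fun d => bv d * (fps u a d : ℂ)) s‖ ^ 2 ≤
      C * ((K : ℝ) * (3 * X)) ^ ε * H ^ 2 * (K / Real.exp (s + 1) + 1) := by
  obtain ⟨C, hC, h⟩ := l2_bound ε hε
  refine ⟨C * Real.exp 1 ^ 2, by positivity, ?_⟩
  intro lam hlam X hX N U K hN hK u bv H hH hbv hbv0 s hs
  rw [Set.mem_Icc] at hs
  have hl := inv_lam_le hlam
  have hX0 : 0 < X := by linarith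
  have hlog : 0 ≤ Real.log X := Real.log_nonneg hX
  set y : ℝ := Real.exp (s + 1) with hy
  have hy0 : 0 < y := by positivity
  have hy1 : 1 ≤ y := Real.one_le_exp (by linarith)
  have hlogy : Real.log y = s + 1 := by rw [hy, Real.log_exp]
  have hy3 : y ≤ 3 * X := by
    calc y = Real.exp 1 * Real.exp s := by rw [hy, Real.exp_add, mul_comm]
      _ ≤ 3 * X := by
          apply mul_le_mul (by linarith [Real.exp_one_lt_d9]) _ (Real.exp_pos s).le (by norm_num)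
          calc Real.exp s ≤ Real.exp (Real.log X) := Real.exp_le_exp.mpr hs.2
            _ = X := Real.exp_log hX0
  have hyN : ⌊y⌋₊ ≤ N := by
    rw [hN]
    exact Nat.floor_le_floor hy3
  have hbox : ∀ d : ℕ, 1 ≤ d → ¬ ((d : ℝ) ≤ y ∧ y ≤ Real.exp 1 * d) →
      boxL lam (Real.log d) s = 0 := by
    intro d hd hcon
    have hd0 : (0 : ℝ) < d := by exact_mod_cast hd
    rw [boxL_of_not]
    rintro ⟨h1, h2⟩
    apply hcon
    constructor
    · rw [← Real.log_le_log_iff hd0 hy0, hlogy]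
      linarith
    · rw [← Real.log_le_log_iff hy0 (by positivity), hlogy,
        Real.log_mul (Real.exp_pos 1).ne' hd0.ne', Real.log_exp]
      linarith
  set x : ℕ → ℂ := fun d => bv d * (jr u d : ℂ) *
    (((d : ℝ) ^ (-cX X) * boxL lam (Real.log d) s : ℝ) : ℂ) with hx
  have hxzero : ∀ d : ℕ, 1 ≤ d → ¬ ((d : ℝ) ≤ y ∧ y ≤ Real.exp 1 * d) → x d = 0 := by
    intro d hd hcon
    rw [hx]
    simp only
    rw [hbox d hd hcon]
    simp
  have h1 : ∀ a, twBL lam X N (fun d => bv d * (fps u a d : ℂ)) s =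
      ∑ d ∈ Icc 1 ⌊y⌋₊, x d * (jr d a : ℂ) := by
    intro a
    rw [twBL]
    have hsub : Icc 1 ⌊y⌋₊ ⊆ Icc 1 N := Icc_subset_Icc le_rfl hyN
    rw [sum_subset hsub]
    · apply sum_congr rfl
      intro d _
      rw [hx, fps]
      push_cast
      ring
    · intro d hd hd'
      rw [mem_Icc] at hd
      rw [mem_Icc, not_and, not_le] at hd'
      have h2 := hd' hd.1
      rw [Nat.floor_lt hy0.le] at h2
      rw [hxzero d hd.1 (by intro h; linarith [h.1])]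
      simp
  refine ⟨fun hyU a => ?_, ?_⟩
  · rw [h1]
    apply sum_eq_zero
    intro d hd
    rw [mem_Icc] at hd
    have h2 : (d : ℝ) ≤ y := le_trans (by exact_mod_cast hd.2) (Nat.floor_le hy0.le)
    have h3 : d ≤ U := by
      have : (d : ℝ) < U := lt_of_le_of_lt h2 hyU
      exact_mod_cast this.le
    rw [hx]
    simp only
    rw [hbv0 d hd.1 h3]
    simp
  · rw [sum_congr rfl fun a _ => by rw [h1 a]]
    have h2 : ∀ d : ℕ, 1 ≤ d → (d : ℝ) ≤ y → ‖x d‖ ≤ H * Real.exp 1 / y := by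
      intro d hd hdy
      have hd0 : (0 : ℝ) < d := by exact_mod_cast hd
      have hd1 : (1 : ℝ) ≤ d := by exact_mod_cast hd
      by_cases hc : (d : ℝ) ≤ y ∧ y ≤ Real.exp 1 * d
      · rw [hx]
        simp only
        rw [norm_mul, norm_mul, Complex.norm_real, Complex.norm_real, Real.norm_eq_abs,
          Real.norm_of_nonneg (mul_nonneg (by positivity) (boxL_nonneg _ _))]
        have h3 : (d : ℝ) ^ (-cX X) * boxL lam (Real.log d) s ≤ Real.exp 1 / y := by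
          calc (d : ℝ) ^ (-cX X) * boxL lam (Real.log d) s ≤ (d : ℝ)⁻¹ * 1 :=
                mul_le_mul (rpow_neg_cX_le hX hd1) (boxL_le_one _ _) (boxL_nonneg _ _)
                  (by positivity)
            _ ≤ Real.exp 1 / y := by
                rw [mul_one, inv_eq_one_div, div_le_div_iff₀ hd0 hy0]
                linarith [hc.2]
        calc ‖bv d‖ * |jr u d| * ((d : ℝ) ^ (-cX X) * boxL lam (Real.log d) s)
            ≤ H * 1 * (Real.exp 1 / y) := by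
              apply mul_le_mul _ h3 (mul_nonneg (by positivity) (boxL_nonneg _ _)) (by positivity)
              exact mul_le_mul (hbv d hd (hdy.trans hy3)) (abs_jr_le _ _) (abs_nonneg _) hH
          _ = H * Real.exp 1 / y := by ring
      · rw [hxzero d hd hc, norm_zero]
        positivity
    refine (h K hK y (H * Real.exp 1) hy1 (by positivity) x h2).trans ?_
    calc C * ((K : ℝ) * y) ^ ε * (H * Real.exp 1) ^ 2 * (K / y + 1)
        ≤ C * ((K : ℝ) * (3 * X)) ^ ε * (H * Real.exp 1) ^ 2 * (K / y + 1) := by gcongr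
      _ = _ := by ring

/-- The sums of type II. -/
lemma typeII_F [QlsHyp] (ε : ℝ) (hε : 0 < ε) : ∃ C : ℝ, 0 < C ∧ ∀ lam : ℝ, 1 ≤ lam → ∀ X : ℝ,
    1 < X → ∀ N U K : ℕ, N = ⌊3 * X⌋₊ → 1 ≤ K → 1 ≤ U → ∀ u : ℤ, ∀ (av bv : ℕ → ℂ) (Ha Hb : ℝ),
    0 ≤ Ha → 0 ≤ Hb → (∀ d : ℕ, 1 ≤ d → (d : ℝ) ≤ 3 * X → ‖av d‖ ≤ Ha) →
    (∀ d : ℕ, 1 ≤ d → d ≤ U → av d = 0) →
    (∀ d : ℕ, 1 ≤ d → (d : ℝ) ≤ 3 * X → ‖bv d‖ ≤ Hb) → (∀ d : ℕ, 1 ≤ d → d ≤ U → bv d = 0) →
    ∑ a ∈ Osf K, ‖∑ d ∈ Icc 1 N, ∑ m ∈ Icc 1 N, (av d * (fps u a d : ℂ)) *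
      (bv m * (fps u a m : ℂ)) * (OmL lam X (d * m) : ℂ)‖ ≤
      C * lam * X * ((Real.log X + 1) * (((K : ℝ) * (3 * X)) ^ ε * (Ha * Hb *
        √((K : ℝ) ^ 2 / X + 2 * K / U + 1)))) := by
  obtain ⟨C₁, hC₁, h₁⟩ := twA_l2 ε hε
  obtain ⟨C₂, hC₂, h₂⟩ := twB_l2 ε hε
  refine ⟨Real.exp 1 * √(C₁ * C₂), by positivity, ?_⟩
  intro lam hlam X hX N U K hN hK hU u av bv Ha Hb hHa hHb hav hav0 hbv hbv0
  have hX0 : 0 < X := by linarith
  have hlog : 0 < Real.log X := Real.log_pos hX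
  have hK0 : (0 : ℝ) < K := by exact_mod_cast hK
  have hU0 : (0 : ℝ) < U := by exact_mod_cast hU
  set Q : ℝ := ((K : ℝ) * (3 * X)) ^ ε with hQ
  have hQ0 : 0 ≤ Q := by positivity
  set W : ℝ := (K : ℝ) ^ 2 / X + 2 * K / U + 1 with hW
  have hW0 : 0 ≤ W := by positivity
  have key := sum_norm_bilinearL_le hlam hX.le N (I := Osf K)
    (fun a d => av d * (fps u a d : ℂ)) (fun a m => bv m * (fps u a m : ℂ))
    (K := √(C₁ * C₂) * (Q * (Ha * Hb * √W))) (by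
    intro s hs
    have hA := h₁ lam hlam X hX.le N U K hN hK u av Ha hHa hav hav0 s hs
    have hB := h₂ lam hlam X hX.le N U K hN hK u bv Hb hHb hbv hbv0 s hs
    have hnn : 0 ≤ √(C₁ * C₂) * (Q * (Ha * Hb * √W)) := by positivity
    by_cases hy : X * Real.exp (-s) < U
    · rw [sum_eq_zero fun a _ => by rw [hA.1 hy a, norm_zero, zero_mul]]
      exact hnn
    by_cases hy' : Real.exp (s + 1) < U
    · rw [sum_eq_zero fun a _ => by rw [hB.1 hy' a, norm_zero, mul_zero]]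
      exact hnn
    rw [not_lt] at hy hy'
    set y := X * Real.exp (-s) with hyd
    set y' := Real.exp (s + 1) with hyd'
    have hy0 : 0 < y := by positivity
    have hy0' : 0 < y' := by positivity
    have hyy : X ≤ y * y' := by
      have : y * y' = X * Real.exp 1 := by
        rw [hyd, hyd', mul_assoc, ← Real.exp_add]
        congr 2
        ring
      rw [this]
      have := Real.one_le_exp (x := 1) (by norm_num)
      nlinarith
    have hWW : ((K : ℝ) / y + 1) * (K / y' + 1) ≤ W := by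
      have e1 : ((K : ℝ) / y + 1) * (K / y' + 1) = (K : ℝ) ^ 2 / (y * y') + (K / y + K / y') + 1 := by
        field_simp
        ring
      rw [e1, hW]
      have e2 : (K : ℝ) ^ 2 / (y * y') ≤ (K : ℝ) ^ 2 / X := by gcongr
      have e3 : (K : ℝ) / y ≤ K / U := by gcongr
      have e4 : (K : ℝ) / y' ≤ K / U := by gcongr
      have e5 : 2 * (K : ℝ) / U = K / U + K / U := by ring
      linarith
    have h3 := sum_mul_sq_le_sq_mul_sq (Osf K)
      (fun a => ‖twAL lam X N (fun d => av d * (fps u a d : ℂ)) s‖)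
      (fun a => ‖twBL lam X N (fun m => bv m * (fps u a m : ℂ)) s‖)
    have h5 : (∑ a ∈ Osf K, ‖twAL lam X N (fun d => av d * (fps u a d : ℂ)) s‖ *
        ‖twBL lam X N (fun m => bv m * (fps u a m : ℂ)) s‖) ^ 2 ≤
        (√(C₁ * C₂) * (Q * (Ha * Hb * √W))) ^ 2 := by
      refine h3.trans ((mul_le_mul hA.2 hB.2 (sum_nonneg fun _ _ => by positivity)
        (by positivity)).trans ?_)
      calc C₁ * Q * Ha ^ 2 * (K / y + 1) * (C₂ * Q * Hb ^ 2 * (K / y' + 1))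
          = C₁ * C₂ * Q ^ 2 * (Ha * Hb) ^ 2 * ((K / y + 1) * (K / y' + 1)) := by ring
        _ ≤ C₁ * C₂ * Q ^ 2 * (Ha * Hb) ^ 2 * W := by gcongr
        _ = _ := by
            have e6 : (√(C₁ * C₂) * (Q * (Ha * Hb * √W))) ^ 2 =
                √(C₁ * C₂) ^ 2 * (Q ^ 2 * ((Ha * Hb) ^ 2 * √W ^ 2)) := by ring
            rw [e6, Real.sq_sqrt (by positivity), Real.sq_sqrt hW0]
            ring
    exact (pow_le_pow_iff_left₀ (sum_nonneg fun _ _ => by positivity) hnn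
      (by norm_num)).mp h5)
  refine key.trans (le_of_eq ?_)
  rw [X_rpow_cX hX]
  ring

end Pool.Agent.MP0016c7.PC
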