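import Mathlib
import Pool.Agent.Lib.MP_0016c7_nt.PC.FEU2
import Pool.Agent.Lib.MP_0016c7_nt.PC.FEU4
import Pool.Agent.Lib.MP_0016c7_nt.Rz.PV1

set_option autoImplicit false

/-!
Block [F] of the project on prime conductors: moduli above `Z ^ (1 / 60)`.
-/

open Finset MeasureTheory Filter Topology
open scoped Real ContDiff

namespace Pool.Agent.MP0016c7.PC

open Pool.Agent.MP0016c7.Rz
open Pool.Agent.BVall (OmL)

/-- The inequality of Pólya and Vinogradov. -/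
lemma pv_fps (ε : ℝ) (hε : 0 < ε) : ∃ C : ℝ, 0 < C ∧ ∀ u ∈ US, ∀ a : ℕ, Odd a → Squarefree a →
    (u ≠ 1 ∨ a ≠ 1) → ∀ x k : ℕ,
    ‖∑ i ∈ range k, (fps u a (x + i) : ℂ)‖ ≤ C * ((a : ℝ) ^ ε * √(a : ℝ)) := by
  obtain ⟨C, hC, hCd⟩ := divisor_bound (ε / 2) (by positivity)
  refine ⟨2 * (C * (1 + 2 / ε) * 8 ^ ε * √8), by positivity, ?_⟩
  intro u hu a ha hs h x k
  have ha0 : (0 : ℝ) < a := by exact_mod_cast ha.pos
  have : NeZero (8 * a) := ⟨by have := ha.pos; omega⟩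
  set q : ℝ := ((8 * a : ℕ) : ℝ) with hq
  have hq8 : q = 8 * a := by rw [hq]; push_cast; ring
  have hq1 : 1 ≤ q := by
    rw [hq]
    exact_mod_cast (by have := ha.pos; omega : 1 ≤ 8 * a)
  have hq0 : 0 < q := by linarith
  have key : ∀ y : ℕ, ‖∑ n ∈ range y, (fps u a n : ℂ)‖ ≤
      C * (1 + 2 / ε) * 8 ^ ε * √8 * ((a : ℝ) ^ ε * √(a : ℝ)) := by
    intro y
    have h1 := polya_vinogradov (feC u a hu ha) (feC_ne_one hu ha hs h) y
    simp_rw [feC_nat] at h1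
    refine h1.trans ?_
    have h3 : ((8 * a).divisors.card : ℝ) ≤ C * q ^ (ε / 2) := hCd _ (by have := ha.pos; omega)
    have h4 : 1 + Real.log q ≤ (1 + 2 / ε) * q ^ (ε / 2) := by
      have h5 := Real.log_le_rpow_div hq0.le (by positivity : 0 < ε / 2)
      have h6 : 1 ≤ q ^ (ε / 2) := Real.one_le_rpow hq1 (by positivity)
      have h7 : q ^ (ε / 2) / (ε / 2) = 2 / ε * q ^ (ε / 2) := by field_simp
      rw [h7] at h5
      linarith
    have hlog : 0 ≤ 1 + Real.log q := by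
      have := Real.log_nonneg hq1
      linarith
    calc ((8 * a).divisors.card : ℝ) * (√q * (1 + Real.log q))
        ≤ (C * q ^ (ε / 2)) * (√q * ((1 + 2 / ε) * q ^ (ε / 2))) := by gcongr
      _ = C * (1 + 2 / ε) * (q ^ (ε / 2) * q ^ (ε / 2)) * √q := by ring
      _ = C * (1 + 2 / ε) * q ^ ε * √q := by
          rw [← Real.rpow_add hq0, add_halves]
      _ = _ := by
          rw [hq8, Real.mul_rpow (by norm_num) ha0.le, Real.sqrt_mul (by norm_num)]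
          ring
  have h1 := sum_range_add (fun n : ℕ => (fps u a n : ℂ)) x k
  have h2 : ∑ i ∈ range k, (fps u a (x + i) : ℂ) =
      ∑ n ∈ range (x + k), (fps u a n : ℂ) - ∑ n ∈ range x, (fps u a n : ℂ) := by
    rw [h1]
    ring
  rw [h2]
  refine (norm_sub_le _ _).trans ?_
  have h3 := key (x + k)
  have h4 := key x
  linarith

/-- The sum over the moduli up to `K`. -/
lemma fe_S [QlsHyp] {lam : ℝ} (hlam : 1 ≤ lam) (ε : ℝ) (hε : 0 < ε) : ∃ C : ℝ, 0 < C ∧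
    ∀ X : ℝ, Real.exp 3 ≤ X → ∀ u ∈ US, ∀ K U : ℕ, 1 ≤ K → (K : ℝ) ≤ X → 1 ≤ U →
    Real.exp 2 * ((U ^ 2 : ℕ) : ℝ) ≤ X →
    ∑ a ∈ (Osf K).filter (fun a => u ≠ 1 ∨ a ≠ 1), |EU lam X u a| ≤
      C * X ^ ε * (K * √(K : ℝ) * (U : ℝ) ^ 4 +
        X * √((K : ℝ) ^ 2 / X + 2 * K / U + 1)) := by
  classical
  obtain ⟨C₁, hC₁, hII⟩ := typeII_F (ε / 8) (by positivity)
  obtain ⟨C₂, hC₂, hτ⟩ := divisor_bound (ε / 8) (by positivity)
  obtain ⟨C₃, hC₃, hpv⟩ := pv_fps (ε / 8) (by positivity)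
  set e := ε / 8 with he
  have he0 : 0 < e := by positivity
  set C₄ : ℝ := 1 + 1 / e with hC₄
  have hC₄0 : 0 < C₄ := by positivity
  have hlam0 : 0 < lam := by linarith
  refine ⟨2 * lam * Real.exp 2 * C₃ * C₄ ^ 3 + C₁ * lam * C₄ * 3 ^ e * (2 * C₄) * (C₂ * 3 ^ e),
    by positivity, ?_⟩
  intro X hX u hu K U hK hKX hU hUX
  have hX0 : 0 < X := lt_of_lt_of_le (Real.exp_pos 3) hX
  have hX1 : 1 < X :=
    lt_of_lt_of_le (by rw [← Real.exp_zero]; exact Real.exp_lt_exp.mpr (by norm_num)) hX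
  have hlog3 : 3 ≤ Real.log X := (Real.le_log_iff_exp_le hX0).mpr hX
  have hK1 : (1 : ℝ) ≤ K := by exact_mod_cast hK
  have hU1 : (1 : ℝ) ≤ U := by exact_mod_cast hU
  set t : ℝ := X ^ e with ht
  have ht1 : 1 ≤ t := Real.one_le_rpow hX1.le he0.le
  have ht0 : 0 < t := by linarith
  have hX8 : X ^ ε = t ^ 8 := by
    rw [ht, ← Real.rpow_natCast, ← Real.rpow_mul hX0.le, he]
    congr 1
    push_cast
    ring
  have hlogt : Real.log X + 1 ≤ C₄ * t := by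
    have h5 := Real.log_le_rpow_div hX0.le he0
    have h7 : X ^ e / e = 1 / e * t := by rw [ht]; ring
    rw [h7] at h5
    rw [hC₄]
    linarith
  set N : ℕ := ⌊3 * X⌋₊ with hN
  obtain ⟨L1, M, H, av, bv, hv, hL1, hM, hM0, hH, hH0, hav, hav0, hbv, hbv0⟩ := vaughan_ex U
  have heU : Real.exp 1 * U ≤ X := by
    refine le_trans ?_ hUX
    push_cast
    apply mul_le_mul (Real.exp_le_exp.mpr (by norm_num)) (le_self_pow₀ hU1 (by norm_num))
      (by positivity) (Real.exp_pos _).le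
  set S := (Osf K).filter (fun a => u ≠ 1 ∨ a ≠ 1) with hS
  have hSK : ∀ a ∈ S, 1 ≤ a ∧ a ≤ K ∧ Odd a ∧ Squarefree a ∧ (u ≠ 1 ∨ a ≠ 1) := by
    intro a ha
    rw [hS, mem_filter, Osf, mem_filter, mem_Icc] at ha
    exact ⟨ha.1.1.1, ha.1.1.2, ha.1.2.1, ha.1.2.2, ha.2⟩
  set T3 : ℕ → ℂ := fun a => ∑ d ∈ Icc 1 N, ∑ m ∈ Icc 1 N, ((av d : ℂ) * (fps u a d : ℂ)) *
      ((bv m : ℂ) * (fps u a m : ℂ)) * (OmL lam X (d * m) : ℂ) with hT3
  set Z0 : ℝ := lam * (Real.exp 2 * (C₃ * (t * √(K : ℝ))) * (U : ℝ) ^ 4 * (C₄ * t) ^ 3) with hZ0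
  have hone : ∀ a ∈ S, |EU lam X u a| ≤ 2 * Z0 + ‖T3 a‖ := by
    intro a ha
    obtain ⟨ha1, haK, o, s, n⟩ := hSK a ha
    have hEU : (EU lam X u a : ℂ) = ∑ n ∈ Icc 1 N,
        ((ArithmeticFunction.vonMangoldt n : ℝ) : ℂ) * (fps u a n : ℂ) * (OmL lam X n : ℂ) := by
      unfold EU fps
      push_cast
      refine sum_congr rfl fun n _ => ?_
      ring
    have hψ : ∀ m n, ((fps u a (m * n) : ℝ) : ℂ) = (fps u a m : ℂ) * (fps u a n : ℂ) := by
      intro m n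
      rw [fps_mul]
      push_cast
      ring
    have hψ1 : ∀ n, ‖((fps u a n : ℝ) : ℂ)‖ ≤ 1 := by
      intro n
      rw [Complex.norm_real, Real.norm_eq_abs]
      exact fps_abs_le _ _ _
    have hdec := psi_dec hlam hX0 hN heU hv hL1 (fun n => (fps u a n : ℂ)) hψ
    have hI := typeI_two hlam hX N U hU hUX hM hM0 hH hH0 (fun n => (fps u a n : ℂ)) hψ1
      (fun x k => hpv u hu a o s n x k)
    have hZ : lam * (Real.exp 2 * (C₃ * ((a : ℝ) ^ e * √(a : ℝ))) * ((U ^ 2 : ℕ) : ℝ) ^ 2 *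
        Real.log X * (Real.log X * (Real.log X + 1))) ≤ Z0 := by
      rw [hZ0]
      have h1 : (a : ℝ) ^ e ≤ t := by
        rw [ht]
        apply Real.rpow_le_rpow (by positivity) _ he0.le
        exact le_trans (by exact_mod_cast haK) hKX
      have h2 : √(a : ℝ) ≤ √(K : ℝ) := Real.sqrt_le_sqrt (by exact_mod_cast haK)
      have h3 : Real.log X * (Real.log X * (Real.log X + 1)) ≤ (C₄ * t) ^ 3 := by
        have : Real.log X * (Real.log X * (Real.log X + 1)) ≤ (Real.log X + 1) ^ 3 := by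
          have h0 : 0 ≤ Real.log X := by linarith
          calc Real.log X * (Real.log X * (Real.log X + 1)) ≤
                (Real.log X + 1) * ((Real.log X + 1) * (Real.log X + 1)) := by
                gcongr <;> linarith
            _ = _ := by ring
        exact this.trans (pow_le_pow_left₀ (by linarith) hlogt 3)
      have h4 : ((U ^ 2 : ℕ) : ℝ) ^ 2 = (U : ℝ) ^ 4 := by push_cast; ring
      rw [h4]
      have h0 : 0 ≤ Real.log X := by linarith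
      calc lam * (Real.exp 2 * (C₃ * ((a : ℝ) ^ e * √(a : ℝ))) * (U : ℝ) ^ 4 *
        Real.log X * (Real.log X * (Real.log X + 1)))
          = lam * (Real.exp 2 * (C₃ * ((a : ℝ) ^ e * √(a : ℝ))) * (U : ℝ) ^ 4 *
            (Real.log X * (Real.log X * (Real.log X + 1)))) := by ring
        _ ≤ _ := by gcongr
    rw [← Real.norm_eq_abs, ← Complex.norm_real, hEU, hdec]
    refine (norm_add_le _ _).trans (add_le_add ((norm_sub_le _ _).trans ?_) le_rfl)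
    have := hI.1.trans hZ
    have := hI.2.trans hZ
    linarith
  have hcard : (S.card : ℝ) ≤ K := by
    have : S.card ≤ K := by
      calc S.card ≤ (Icc 1 K).card :=
            card_le_card ((filter_subset _ _).trans (filter_subset _ _))
        _ = _ := by rw [Nat.card_Icc, Nat.add_sub_cancel]
    exact_mod_cast this
  have hZ00 : 0 ≤ Z0 := by positivity
  have hsub : ∑ a ∈ S, ‖T3 a‖ ≤ ∑ a ∈ Osf K, ‖T3 a‖ :=
    sum_le_sum_of_subset_of_nonneg (filter_subset _ _) fun _ _ _ => norm_nonneg _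
  have hlog3X : Real.log (3 * X) ≤ 2 * (C₄ * t) := by
    rw [Real.log_mul (by norm_num) hX0.ne']
    have h1 : Real.log 3 ≤ 2 := by
      have := Real.log_le_sub_one_of_pos (show (0 : ℝ) < 3 by norm_num)
      linarith
    linarith
  have hII' := hII lam hlam X hX1 N U K hN hK hU u (fun d => (av d : ℂ)) (fun d => (bv d : ℂ))
    (2 * (C₄ * t)) (C₂ * (3 ^ e * t)) (by positivity) (by positivity)
    (by
      intro d hd hdX
      have hd0 : (0 : ℝ) < d := by exact_mod_cast hd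
      rw [Complex.norm_real, Real.norm_eq_abs]
      exact (hav d hd).trans ((Real.log_le_log hd0 hdX).trans hlog3X))
    (by
      intro d _ hdU
      rw [hav0 d hdU]
      simp)
    (by
      intro d hd hdX
      rw [Complex.norm_real, Real.norm_eq_abs]
      refine (hbv d hd).trans ((hτ d hd).trans ?_)
      have : (d : ℝ) ^ e ≤ (3 * X) ^ e := Real.rpow_le_rpow (by positivity) hdX he0.le
      rw [Real.mul_rpow (by norm_num) hX0.le] at this
      exact mul_le_mul_of_nonneg_left this hC₂.le)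
    (by
      intro d hd hdU
      rw [hbv0 d hd hdU]
      simp)
  set W : ℝ := √((K : ℝ) ^ 2 / X + 2 * K / U + 1) with hW
  have hW0 : 0 ≤ W := Real.sqrt_nonneg _
  have hKe : ((K : ℝ) * (3 * X)) ^ e ≤ 3 ^ e * t ^ 2 := by
    calc ((K : ℝ) * (3 * X)) ^ e ≤ (X * (3 * X)) ^ e := by
          apply Real.rpow_le_rpow (by positivity) _ he0.le
          gcongr
      _ = (3 * (X * X)) ^ e := by ring_nf
      _ = 3 ^ e * t ^ 2 := by
          rw [Real.mul_rpow (by norm_num) (by positivity), Real.mul_rpow hX0.le hX0.le, ht]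
          ring
  have hlog0 : 0 ≤ Real.log X + 1 := by linarith
  have ht5 : t ^ 5 ≤ t ^ 8 := pow_le_pow_right₀ ht1 (by norm_num)
  have ht4 : t ^ 4 ≤ t ^ 8 := pow_le_pow_right₀ ht1 (by norm_num)
  have hB : ∑ a ∈ Osf K, ‖T3 a‖ ≤
      C₁ * lam * C₄ * 3 ^ e * (2 * C₄) * (C₂ * 3 ^ e) * t ^ 8 * (X * W) := by
    refine hII'.trans ?_
    calc C₁ * lam * X * ((Real.log X + 1) * (((K : ℝ) * (3 * X)) ^ e *
          (2 * (C₄ * t) * (C₂ * (3 ^ e * t)) * W)))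
        ≤ C₁ * lam * X * ((C₄ * t) * ((3 ^ e * t ^ 2) *
          (2 * (C₄ * t) * (C₂ * (3 ^ e * t)) * W))) := by gcongr
      _ = C₁ * lam * C₄ * 3 ^ e * (2 * C₄) * (C₂ * 3 ^ e) * t ^ 5 * (X * W) := by ring
      _ ≤ _ := by gcongr
  have hA : (S.card : ℝ) * (2 * Z0) ≤
      2 * lam * Real.exp 2 * C₃ * C₄ ^ 3 * t ^ 8 * (K * √(K : ℝ) * (U : ℝ) ^ 4) := by
    calc (S.card : ℝ) * (2 * Z0) ≤ K * (2 * Z0) := by gcongr
      _ = 2 * lam * Real.exp 2 * C₃ * C₄ ^ 3 * t ^ 4 * (K * √(K : ℝ) * (U : ℝ) ^ 4) := by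
          rw [hZ0]
          ring
      _ ≤ _ := by gcongr
  calc ∑ a ∈ S, |EU lam X u a| ≤ ∑ a ∈ S, (2 * Z0 + ‖T3 a‖) := sum_le_sum hone
    _ = S.card * (2 * Z0) + ∑ a ∈ S, ‖T3 a‖ := by
        rw [sum_add_distrib, sum_const, nsmul_eq_mul]
    _ ≤ 2 * lam * Real.exp 2 * C₃ * C₄ ^ 3 * t ^ 8 * (K * √(K : ℝ) * (U : ℝ) ^ 4) +
        C₁ * lam * C₄ * 3 ^ e * (2 * C₄) * (C₂ * 3 ^ e) * t ^ 8 * (X * W) := by linarith
    _ ≤ _ := by
        rw [hX8]
        have h1 : 0 ≤ 2 * lam * Real.exp 2 * C₃ * C₄ ^ 3 * t ^ 8 * (X * W) := by positivity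
        have h2 : 0 ≤ C₁ * lam * C₄ * 3 ^ e * (2 * C₄) * (C₂ * 3 ^ e) * t ^ 8 *
          (K * √(K : ℝ) * (U : ℝ) ^ 4) := by positivity
        nlinarith only [h1, h2]

/-- One block. -/
lemma fe_block [QlsHyp] {lam : ℝ} (hlam : 1 ≤ lam) {η : ℝ} (hη : 0 < η) (hη2 : η ≤ 1 / 2) :
    ∃ C : ℝ, 0 < C ∧ ∀ᶠ X : ℝ in atTop, ∀ u ∈ US, ∀ K : ℕ, X ^ (1 / 60 : ℝ) ≤ K →
    (K : ℝ) ≤ 2 * X ^ (1 - η) →
    ∑ a ∈ (Osf K).filter (fun a => u ≠ 1 ∨ a ≠ 1), |EU lam X u a| ≤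
      C * √(K : ℝ) * X ^ (1 - η / 128) := by
  obtain ⟨C, hC, h⟩ := fe_S hlam (η / 128) (by positivity)
  refine ⟨5 * C, by positivity, ?_⟩
  have e1 := ev_log_le 2 0 (s := η) hη
  have e2 := ev_log_le (Real.exp 2) 0 (s := 1 - η / 8) (by linarith)
  filter_upwards [e1, e2, eventually_ge_atTop (Real.exp 3)] with X h1 h2 h3 u hu K hK1 hK2
  have hX0 : 0 < X := lt_of_lt_of_le (Real.exp_pos 3) h3
  have hX1 : 1 < X :=
    lt_of_lt_of_le (by rw [← Real.exp_zero]; exact Real.exp_lt_exp.mpr (by norm_num)) h3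
  rw [pow_zero, mul_one] at h1 h2
  have hKX : (K : ℝ) ≤ X := by
    calc (K : ℝ) ≤ 2 * X ^ (1 - η) := hK2
      _ ≤ X ^ η * X ^ (1 - η) := by gcongr
      _ = X := by rw [← Real.rpow_add hX0]; norm_num
  have hK0 : (1 : ℝ) ≤ K := le_trans (Real.one_le_rpow hX1.le (by norm_num)) hK1
  have hKpos : (0 : ℝ) < K := by linarith
  have hKn : 1 ≤ K := by exact_mod_cast hK0
  set v : ℝ := X ^ (η / 16) with hv
  have hv1 : 1 ≤ v := Real.one_le_rpow hX1.le (by positivity)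
  set U : ℕ := ⌊v⌋₊ with hU
  have hU1 : 1 ≤ U := (Nat.one_le_floor_iff v).2 hv1
  have hU1' : (1 : ℝ) ≤ U := by exact_mod_cast hU1
  have hUv : (U : ℝ) ≤ v := Nat.floor_le (by linarith)
  have hUv2 : v ≤ 2 * U := by
    have := Nat.lt_floor_add_one v
    rw [← hU] at this
    linarith
  have hUX : Real.exp 2 * ((U ^ 2 : ℕ) : ℝ) ≤ X := by
    calc Real.exp 2 * ((U ^ 2 : ℕ) : ℝ) ≤ X ^ (1 - η / 8) * v ^ 2 := by
          push_cast
          gcongr
      _ = X := by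
          rw [hv, ← Real.rpow_natCast, ← Real.rpow_mul hX0.le, ← Real.rpow_add hX0]
          have : 1 - η / 8 + η / 16 * ((2 : ℕ) : ℝ) = 1 := by push_cast; ring
          rw [this, Real.rpow_one]
  refine (h X h3 u hu K U hKn hKX hU1 hUX).trans ?_
  have hA : (K : ℝ) * √(K : ℝ) * (U : ℝ) ^ 4 ≤ √(K : ℝ) * (2 * X ^ (1 - η / 64)) := by
    calc (K : ℝ) * √(K : ℝ) * (U : ℝ) ^ 4 ≤ (2 * X ^ (1 - η)) * √(K : ℝ) * v ^ 4 := by gcongr
      _ = √(K : ℝ) * (2 * (X ^ (1 - η) * v ^ 4)) := by ring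
      _ = √(K : ℝ) * (2 * X ^ (1 - 3 * η / 4)) := by
          rw [hv, ← Real.rpow_natCast, ← Real.rpow_mul hX0.le, ← Real.rpow_add hX0]
          have : 1 - η + η / 16 * ((4 : ℕ) : ℝ) = 1 - 3 * η / 4 := by push_cast; ring
          rw [this]
      _ ≤ _ := by
          have : X ^ (1 - 3 * η / 4) ≤ X ^ (1 - η / 64) :=
            Real.rpow_le_rpow_of_exponent_le hX1.le (by linarith)
          exact mul_le_mul_of_nonneg_left (mul_le_mul_of_nonneg_left this (by norm_num))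
            (Real.sqrt_nonneg _)
  have hB : X * √((K : ℝ) ^ 2 / X + 2 * K / U + 1) ≤ √(K : ℝ) * (3 * X ^ (1 - η / 64)) := by
    have hW : (K : ℝ) ^ 2 / X + 2 * K / U + 1 = K * (K / X + 2 / U + 1 / K) := by
      field_simp
    have b1 : (K : ℝ) / X ≤ 2 * X ^ (-(η / 32)) := by
      calc (K : ℝ) / X ≤ 2 * X ^ (1 - η) / X := by gcongr
        _ = 2 * X ^ (-η) := by
            rw [Real.rpow_sub hX0, Real.rpow_one, Real.rpow_neg hX0.le]
            field_simp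
        _ ≤ _ := by
            gcongr
            · exact hX1.le
            · linarith
    have b2 : 2 / (U : ℝ) ≤ 4 * X ^ (-(η / 32)) := by
      calc 2 / (U : ℝ) ≤ 4 / v := by
            rw [div_le_div_iff₀ (by linarith) (by linarith)]
            linarith
        _ = 4 * X ^ (-(η / 16)) := by
            rw [hv, Real.rpow_neg hX0.le]
            field_simp
        _ ≤ _ := by
            gcongr
            · exact hX1.le
            · linarith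
    have b3 : 1 / (K : ℝ) ≤ X ^ (-(η / 32)) := by
      calc 1 / (K : ℝ) ≤ 1 / X ^ (1 / 60 : ℝ) := by gcongr
        _ = X ^ (-(1 / 60) : ℝ) := by
            rw [Real.rpow_neg hX0.le, one_div]
        _ ≤ _ := by
            apply Real.rpow_le_rpow_of_exponent_le hX1.le
            linarith
    have hX3 : √((K : ℝ) ^ 2 / X + 2 * K / U + 1) ≤ √(K : ℝ) * (3 * X ^ (-(η / 64))) := by
      rw [hW, Real.sqrt_mul hKpos.le]
      gcongr
      rw [Real.sqrt_le_left (by positivity)]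
      have : (3 * X ^ (-(η / 64))) ^ 2 = 9 * X ^ (-(η / 32)) := by
        rw [mul_pow, ← Real.rpow_natCast (X ^ _) 2, ← Real.rpow_mul hX0.le]
        norm_num
        congr 1
        ring
      rw [this]
      have hpos : 0 ≤ X ^ (-(η / 32)) := by positivity
      linarith
    calc X * √((K : ℝ) ^ 2 / X + 2 * K / U + 1) ≤ X * (√(K : ℝ) * (3 * X ^ (-(η / 64)))) := by
          gcongr
      _ = √(K : ℝ) * (3 * (X * X ^ (-(η / 64)))) := by ring
      _ = _ := by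
          have : X * X ^ (-(η / 64)) = X ^ (1 - η / 64) := by
            rw [sub_eq_add_neg, Real.rpow_add hX0, Real.rpow_one]
          rw [this]
  calc C * X ^ (η / 128) * ((K : ℝ) * √(K : ℝ) * (U : ℝ) ^ 4 +
        X * √((K : ℝ) ^ 2 / X + 2 * K / U + 1))
      ≤ C * X ^ (η / 128) * (√(K : ℝ) * (2 * X ^ (1 - η / 64)) +
        √(K : ℝ) * (3 * X ^ (1 - η / 64))) := by gcongr
    _ = 5 * C * √(K : ℝ) * (X ^ (η / 128) * X ^ (1 - η / 64)) := by ring
    _ = _ := by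
        rw [← Real.rpow_add hX0]
        congr 2
        ring

/-- The moduli above `Z ^ (1 / 60)`. -/
theorem fe_large [QlsHyp] {lam : ℝ} (hlam : 1 ≤ lam) {η : ℝ} (hη : 0 < η) (hη2 : η ≤ 1 / 2)
    (A K : ℕ) : ∀ᶠ Z : ℝ in atTop, ∀ u ∈ US,
    ∑ a ∈ ((Osq ⌊Z ^ (1 - η)⌋₊).filter (fun a => u ≠ 1 ∨ a ≠ 1)).filter
        (fun a : ℕ => Z ^ (1 / 60 : ℝ) < a),
      (a.divisors.card : ℝ) ^ K / √(a : ℝ) * |EU lam Z u a| ≤ Z / (Real.log Z) ^ A := by
  classical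
  obtain ⟨C₁, hC₁, hτ⟩ := tau_pow_le K (η / 512) (by positivity)
  obtain ⟨C₂, hC₂, hb⟩ := fe_block hlam hη hη2
  have hC₁0 : 0 < C₁ := by linarith
  have e1 := ev_log_le (3 * (C₁ * C₂ * √2)) (A + 1) (s := 3 * η / 512) (by positivity)
  have e2 : ∀ᶠ Z : ℝ in atTop, 1 ≤ Real.log Z := Real.tendsto_log_atTop.eventually_ge_atTop _
  filter_upwards [hb, e1, e2, eventually_ge_atTop 2] with Z h1 h2 h3 hZ2 u hu
  have hZ0 : 0 < Z := by linarith
  have hZ1 : 1 < Z := by linarith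
  set L := Real.log Z with hL
  set S := ((Osq ⌊Z ^ (1 - η)⌋₊).filter (fun a => u ≠ 1 ∨ a ≠ 1)).filter
        (fun a : ℕ => Z ^ (1 / 60 : ℝ) < a) with hS
  have hS' : ∀ a ∈ S, 1 ≤ a ∧ (a : ℝ) ≤ Z ^ (1 - η) ∧ Odd a ∧ Squarefree a ∧
      (u ≠ 1 ∨ a ≠ 1) ∧ Z ^ (1 / 60 : ℝ) < a := by
    intro a ha
    rw [hS, mem_filter, mem_filter, Osq, mem_filter, mem_Icc] at ha
    exact ⟨ha.1.1.1.1, (Nat.le_floor_iff (by positivity)).1 ha.1.1.1.2, ha.1.1.2.1, ha.1.1.2.2,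
      ha.1.2, ha.2⟩
  have hZη : Z ^ (1 - η) ≤ Z := by
    calc Z ^ (1 - η) ≤ Z ^ (1 : ℝ) := Real.rpow_le_rpow_of_exponent_le hZ1.le (by linarith)
      _ = Z := Real.rpow_one Z
  set J : ℕ := Nat.log 2 ⌊Z⌋₊ with hJ
  have hmap : ∀ a ∈ S, Nat.log 2 a ∈ range (J + 1) := by
    intro a ha
    rw [mem_range, Nat.lt_succ_iff, hJ]
    apply Nat.log_mono_right
    exact Nat.le_floor ((hS' a ha).2.1.trans hZη)
  have hJL : ((J + 1 : ℕ) : ℝ) ≤ 3 * L := by
    have hfl : ⌊Z⌋₊ ≠ 0 := by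
      have : 1 ≤ ⌊Z⌋₊ := (Nat.one_le_floor_iff Z).2 hZ1.le
      omega
    have h4 : 2 ^ J ≤ ⌊Z⌋₊ := Nat.pow_log_le_self 2 hfl
    have h5 : (2 : ℝ) ^ J ≤ Z := by
      calc (2 : ℝ) ^ J = ((2 ^ J : ℕ) : ℝ) := by push_cast; rfl
        _ ≤ (⌊Z⌋₊ : ℝ) := by exact_mod_cast h4
        _ ≤ Z := Nat.floor_le hZ0.le
    have h6 : (J : ℝ) * Real.log 2 ≤ L := by
      rw [← Real.log_pow]
      exact Real.log_le_log (by positivity) h5
    have h7 : (1 / 2 : ℝ) ≤ Real.log 2 := by linarith [Real.log_two_gt_d9]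
    have h8 : (J : ℝ) ≤ 2 * L := by
      have h9 : (0 : ℝ) ≤ J := Nat.cast_nonneg J
      nlinarith
    push_cast
    linarith
  rw [← sum_fiberwise_of_maps_to hmap]
  have hfib : ∀ j ∈ range (J + 1), ∑ a ∈ S.filter (fun a => Nat.log 2 a = j),
      (a.divisors.card : ℝ) ^ K / √(a : ℝ) * |EU lam Z u a| ≤
      C₁ * C₂ * √2 * (Z ^ (η / 512) * Z ^ (1 - η / 128)) := by
    intro j _
    rcases (S.filter (fun a => Nat.log 2 a = j)).eq_empty_or_nonempty with he | ⟨a₀, ha₀⟩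
    · rw [he, sum_empty]
      positivity
    have hj : ∀ a ∈ S.filter (fun a => Nat.log 2 a = j), 2 ^ j ≤ a ∧ a < 2 ^ (j + 1) := by
      intro a ha
      rw [mem_filter] at ha
      have := (hS' a ha.1).1
      rw [← ha.2]
      exact ⟨Nat.pow_log_le_self 2 (by omega), Nat.lt_pow_succ_log_self (by norm_num) a⟩
    have hK1 : Z ^ (1 / 60 : ℝ) ≤ ((2 ^ (j + 1) : ℕ) : ℝ) := by
      have h4 := (hj a₀ ha₀).2
      have h5 := (hS' a₀ (mem_filter.1 ha₀).1).2.2.2.2.2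
      have h6 : (a₀ : ℝ) < ((2 ^ (j + 1) : ℕ) : ℝ) := by exact_mod_cast h4
      linarith
    have hK2 : ((2 ^ (j + 1) : ℕ) : ℝ) ≤ 2 * Z ^ (1 - η) := by
      have h4 := (hj a₀ ha₀).1
      have h5 := (hS' a₀ (mem_filter.1 ha₀).1).2.1
      have h6 : ((2 ^ j : ℕ) : ℝ) ≤ a₀ := by exact_mod_cast h4
      have h7 : ((2 ^ (j + 1) : ℕ) : ℝ) = 2 * ((2 ^ j : ℕ) : ℝ) := by push_cast; ring
      rw [h7]
      linarith
    have hblk := h1 u hu (2 ^ (j + 1)) hK1 hK2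
    have h2j : (0 : ℝ) < ((2 ^ j : ℕ) : ℝ) := by positivity
    have hterm : ∀ a ∈ S.filter (fun a => Nat.log 2 a = j),
        (a.divisors.card : ℝ) ^ K / √(a : ℝ) * |EU lam Z u a| ≤
        C₁ * Z ^ (η / 512) / √((2 ^ j : ℕ) : ℝ) * |EU lam Z u a| := by
      intro a ha
      have haS := hS' a (mem_filter.1 ha).1
      have ha0 : (0 : ℝ) < a := by exact_mod_cast haS.1
      have h4 : ((2 ^ j : ℕ) : ℝ) ≤ a := by exact_mod_cast (hj a ha).1
      have h5 : (a.divisors.card : ℝ) ^ K ≤ C₁ * Z ^ (η / 512) := by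
        refine (hτ a haS.1).trans ?_
        have : (a : ℝ) ^ (η / 512) ≤ Z ^ (η / 512) :=
          Real.rpow_le_rpow ha0.le (haS.2.1.trans hZη) (by positivity)
        gcongr
      gcongr
    have hsub : S.filter (fun a => Nat.log 2 a = j) ⊆
        (Osf (2 ^ (j + 1))).filter (fun a => u ≠ 1 ∨ a ≠ 1) := by
      intro a ha
      have haS := hS' a (mem_filter.1 ha).1
      rw [mem_filter, Osf, mem_filter, mem_Icc]
      exact ⟨⟨⟨haS.1, (hj a ha).2.le⟩, haS.2.2.1, haS.2.2.2.1⟩, haS.2.2.2.2.1⟩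
    have hsq : √((2 ^ (j + 1) : ℕ) : ℝ) = √2 * √((2 ^ j : ℕ) : ℝ) := by
      rw [← Real.sqrt_mul (by norm_num)]
      congr 1
      push_cast
      ring
    calc ∑ a ∈ S.filter (fun a => Nat.log 2 a = j),
        (a.divisors.card : ℝ) ^ K / √(a : ℝ) * |EU lam Z u a|
        ≤ ∑ a ∈ S.filter (fun a => Nat.log 2 a = j),
          C₁ * Z ^ (η / 512) / √((2 ^ j : ℕ) : ℝ) * |EU lam Z u a| := sum_le_sum hterm
      _ = C₁ * Z ^ (η / 512) / √((2 ^ j : ℕ) : ℝ) *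
          ∑ a ∈ S.filter (fun a => Nat.log 2 a = j), |EU lam Z u a| := by rw [mul_sum]
      _ ≤ C₁ * Z ^ (η / 512) / √((2 ^ j : ℕ) : ℝ) *
          ∑ a ∈ (Osf (2 ^ (j + 1))).filter (fun a => u ≠ 1 ∨ a ≠ 1), |EU lam Z u a| := by
          apply mul_le_mul_of_nonneg_left _ (by positivity)
          exact sum_le_sum_of_subset_of_nonneg hsub fun _ _ _ => abs_nonneg _
      _ ≤ C₁ * Z ^ (η / 512) / √((2 ^ j : ℕ) : ℝ) *
          (C₂ * √((2 ^ (j + 1) : ℕ) : ℝ) * Z ^ (1 - η / 128)) := by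
          apply mul_le_mul_of_nonneg_left hblk (by positivity)
      _ = _ := by
          rw [hsq]
          have : √((2 ^ j : ℕ) : ℝ) ≠ 0 := (Real.sqrt_pos.2 h2j).ne'
          field_simp
  refine (sum_le_sum hfib).trans ?_
  rw [sum_const, card_range, nsmul_eq_mul]
  have hL0 : 0 < L := by linarith
  rw [le_div_iff₀ (by positivity)]
  calc ((J + 1 : ℕ) : ℝ) * (C₁ * C₂ * √2 * (Z ^ (η / 512) * Z ^ (1 - η / 128))) * L ^ A
      ≤ (3 * L) * (C₁ * C₂ * √2 * (Z ^ (η / 512) * Z ^ (1 - η / 128))) * L ^ A := by gcongr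
    _ = (3 * (C₁ * C₂ * √2) * L ^ (A + 1)) * (Z ^ (η / 512) * Z ^ (1 - η / 128)) := by
        rw [pow_succ]
        ring
    _ ≤ Z ^ (3 * η / 512) * (Z ^ (η / 512) * Z ^ (1 - η / 128)) := by gcongr
    _ = Z := by
        rw [← Real.rpow_add hZ0, ← Real.rpow_add hZ0]
        have : 3 * η / 512 + (η / 512 + (1 - η / 128)) = 1 := by ring
        rw [this, Real.rpow_one]

end Pool.Agent.MP0016c7.PC
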