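import Mathlib
import Pool.Agent.Lib.MP_0016c7_nt.PC.FEU5
import Pool.Agent.Lib.MP_0016c7_nt.PC.Iface2
import Pool.Agent.Lib.MP_0016c7_nt.Rz2.Qls

set_option autoImplicit false

/-!
Block [F] of the project on prime conductors: the prime sums twisted by quadratic characters,
over all moduli up to `Z ^ (1 - η)`.
-/

open Finset MeasureTheory Filter Topology
open scoped Real ContDiff

namespace Pool.Agent.MP0016c7.PC

open Pool.Agent.MP0016c7.Rz

/-- [F] holds. -/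
theorem fe_EU : JF_EU := by
  classical
  have : QlsHyp := qlsHyp
  intro lam hlam η hη A K
  set η' : ℝ := min η (1 / 2) with hη'
  have hη'0 : 0 < η' := lt_min hη (by norm_num)
  have hη'1 : η' ≤ η := min_le_left _ _
  have hη'2 : η' ≤ 1 / 2 := min_le_right _ _
  have e1 := fe_small hlam (A + 1) K
  have e2 := fe_large hlam hη'0 hη'2 (A + 1) K
  have e3 : ∀ᶠ Z : ℝ in atTop, 2 ≤ Real.log Z := Real.tendsto_log_atTop.eventually_ge_atTop _
  apply eventually_atTop.1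
  filter_upwards [e1, e2, e3, eventually_ge_atTop 1] with Z h1 h2 h3 hZ1 u hu
  have hZ0 : 0 < Z := by linarith
  have hu' : u ∈ US := hu
  set f : ℕ → ℝ := fun a => (a.divisors.card : ℝ) ^ K / √(a : ℝ) * |EU lam Z u a| with hf
  have hf0 : ∀ a, 0 ≤ f a := fun a => mul_nonneg (by positivity) (abs_nonneg _)
  set S₁ := (Osq ⌊Z ^ (1 / 60 : ℝ)⌋₊).filter (fun a => u ≠ 1 ∨ a ≠ 1) with hS₁
  set S₂ := ((Osq ⌊Z ^ (1 - η')⌋₊).filter (fun a => u ≠ 1 ∨ a ≠ 1)).filter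
        (fun a : ℕ => Z ^ (1 / 60 : ℝ) < a) with hS₂
  have hsub : (Osq ⌊Z ^ (1 - η)⌋₊).filter (fun a => u ≠ 1 ∨ a ≠ 1) ⊆ S₁ ∪ S₂ := by
    intro a ha
    rw [mem_filter, Osq, mem_filter, mem_Icc] at ha
    obtain ⟨⟨⟨ha1, ha2⟩, ha3⟩, ha4⟩ := ha
    rw [mem_union]
    by_cases hc : (a : ℝ) ≤ Z ^ (1 / 60 : ℝ)
    · left
      rw [hS₁, mem_filter, Osq, mem_filter, mem_Icc]
      exact ⟨⟨⟨ha1, Nat.le_floor hc⟩, ha3⟩, ha4⟩
    · right
      rw [hS₂, mem_filter, mem_filter, Osq, mem_filter, mem_Icc]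
      refine ⟨⟨⟨⟨ha1, ha2.trans (Nat.floor_le_floor ?_)⟩, ha3⟩, ha4⟩, not_le.1 hc⟩
      exact Real.rpow_le_rpow_of_exponent_le hZ1 (by linarith)
  have h4 : ∑ a ∈ (Osq ⌊Z ^ (1 - η)⌋₊).filter (fun a => u ≠ 1 ∨ a ≠ 1), f a ≤
      ∑ a ∈ S₁, f a + ∑ a ∈ S₂, f a := by
    calc _ ≤ ∑ a ∈ S₁ ∪ S₂, f a := sum_le_sum_of_subset_of_nonneg hsub fun a _ _ => hf0 a
      _ ≤ _ := by
          rw [← sum_union_inter]
          have : 0 ≤ ∑ a ∈ S₁ ∩ S₂, f a := sum_nonneg fun a _ => hf0 a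
          linarith
  have h5 := h1 u hu'
  have h6 := h2 u hu'
  have h7 : Z / (Real.log Z) ^ (A + 1) + Z / (Real.log Z) ^ (A + 1) ≤ Z / (Real.log Z) ^ A := by
    have hL0 : 0 < Real.log Z := by linarith
    rw [← add_div, div_le_div_iff₀ (by positivity) (by positivity), pow_succ]
    have : 0 ≤ Z * (Real.log Z) ^ A := by positivity
    nlinarith
  exact h4.trans ((add_le_add h5 h6).trans h7)

end Pool.Agent.MP0016c7.PC
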