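import Mathlib
import Pool.Agent.Lib.MP_0016c7_nt.PC.Iface2
import Pool.Agent.Lib.MP_0016c7_nt.PC.FinB
import Pool.Agent.Lib.MP_0016c7_nt.PC.CwF

set_option autoImplicit false

/-!
Project PrimeConductors: the assembly of the blocks.
-/

open Finset MeasureTheory Filter Topology
open scoped Real ContDiff

namespace Pool.Agent.MP0016c7.PC

open Pool.Agent.MP0016c7.Rz

/-- The bound for one family. -/
theorem totP_of (hwin : JF_window) (htot : JF_total) {A δ κ μ E E' : ℝ} {J : ℕ} {ws cs : ℕ → ℝ}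
    {w u₁ u₂ y : ℝ → ℝ} {g₁ g₂ : ℝ} (hC : CertM A δ κ μ J ws cs w u₁ u₂ y g₁ g₂)
    (hEn : EnBd J ws cs δ κ w u₁ u₂ y g₁ g₂ E) {R NZ : ℕ → Prop} {D : ℝ} {c₀ : ℕ} {σ : ℤ}
    (hf : FamP A R NZ D c₀ σ δ) (hE' : 0 < E') (hEE : E < E') : TotP R NZ E' := by
  obtain ⟨S, hS⟩ := hf.pcl
  have h1 : E < max ((E + E') / 2) 0 := lt_max_of_lt_left (by linarith)
  have h2 : max ((E + E') / 2) 0 < E' := max_lt (by linarith) hE'
  exact htot R NZ D S hS _ E' (le_max_right _ _) h2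
    (hwin A δ κ μ E J ws cs w u₁ u₂ y g₁ g₂ hC hEn R NZ D c₀ σ hf _ h1)

theorem totP_mono {R NZ NZ' : ℕ → Prop} {E : ℝ} (h : TotP R NZ E) (hn : ∀ d, NZ d → NZ' d) :
    TotP R NZ' E := by
  obtain ⟨X₀, h⟩ := h
  refine ⟨X₀, fun X hX => le_trans ?_ (h X hX)⟩
  rw [Nat.card_coe_set_eq, Nat.card_coe_set_eq, Nat.cast_le]
  exact Set.ncard_le_ncard (fun p hp => ⟨hp.1, hp.2.1, hp.2.2.1, fun h => hp.2.2.2 (hn p h)⟩)
    ((Set.finite_Iic X).subset fun p hp => hp.1)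

/-- The interval `(0, 1)`, all families. -/
theorem totP_fam0 (hwin : JF_window) (htot : JF_total) (hfam : JF_fam0) {δ κ μ E E' : ℝ} {J : ℕ}
    {ws cs : ℕ → ℝ} {w u₁ u₂ y : ℝ → ℝ} {g₁ g₂ : ℝ}
    (hC : CertM 0 δ κ μ J ws cs w u₁ u₂ y g₁ g₂)
    (hEn : EnBd J ws cs δ κ w u₁ u₂ y g₁ g₂ E) (hE' : 0 < E') (hEE : E < E') {A : ℝ} :
    (∀ σ : ℤ, (σ = 1 ∨ σ = -1) → TotP Odd (NoZW A σ) E') ∧
    (∀ (m c ε : ℤ) (κ : ℕ), Fam m c ε κ → ∀ σ : ℤ, (σ = 1 ∨ σ = -1) →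
      TotP (Rf m c σ) (NoZWG A κ) E') := by
  constructor
  · intro σ hσ
    refine totP_mono (totP_of hwin htot hC hEn (hfam σ hσ δ hC.hδ hC.hδ').1 hE' hEE) ?_
    intro d h hN χ h1 h2 h3 s hs0 hs1 _
    exact h hN χ h1 h2 h3 s hs0 hs1
  · intro m c ε κ hF σ hσ
    refine totP_mono (totP_of hwin htot hC hEn ((hfam σ hσ δ hC.hδ hC.hδ').2 m c ε κ hF) hE' hEE)
      ?_
    intro d h hN χ h1 h2 s hs0 hs1 _
    exact h hN χ h1 h2 s hs0 hs1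

/-- The complement of a window, all families. -/
theorem totP_famW (hwin : JF_window) (htot : JF_total) (hfam : JF_famW) {A A' δ κ μ E E' : ℝ}
    {J : ℕ} {ws cs : ℕ → ℝ} {w u₁ u₂ y : ℝ → ℝ} {g₁ g₂ : ℝ} (hA' : 0 < A') (hAA : A' < A)
    (hC : CertM A' δ κ μ J ws cs w u₁ u₂ y g₁ g₂)
    (hEn : EnBd J ws cs δ κ w u₁ u₂ y g₁ g₂ E) (hE' : 0 < E') (hEE : E < E') :
    (∀ σ : ℤ, (σ = 1 ∨ σ = -1) → TotP Odd (NoZW A σ) E') ∧
    (∀ (m c ε : ℤ) (κ : ℕ), Fam m c ε κ → ∀ σ : ℤ, (σ = 1 ∨ σ = -1) →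
      TotP (Rf m c σ) (NoZWG A κ) E') := by
  constructor
  · intro σ hσ
    exact totP_of hwin htot hC hEn (hfam σ hσ δ hC.hδ hC.hδ' A A' hA' hAA).1 hE' hEE
  · intro m c ε κ hF σ hσ
    exact totP_of hwin htot hC hEn ((hfam σ hσ δ hC.hδ hC.hδ' A A' hA' hAA).2 m c ε κ hF) hE' hEE

private lemma exp_496 : 449 / 1000 < 12 * (496 / 100 + 1) * Real.exp (-(496 / 100)) := by
  rw [Real.exp_neg]
  have h1 : Real.exp (496 / 100) < 150 := by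
    have h2 : Real.exp (496 / 100) ≤ Real.exp 5 := Real.exp_le_exp.mpr (by norm_num)
    have h3 := Real.exp_one_lt_d9
    have h4 : Real.exp 5 = Real.exp 1 ^ 5 := by
      rw [← Real.exp_nat_mul]
      norm_num
    have h5 : Real.exp 1 ^ 5 ≤ (2.7182818286 : ℝ) ^ 5 :=
      pow_le_pow_left₀ (Real.exp_pos _).le h3.le 5
    have h6 : (2.7182818286 : ℝ) ^ 5 < 150 := by norm_num
    linarith
  have h0 := Real.exp_pos (496 / 100 : ℝ)
  rw [← div_eq_mul_inv, lt_div_iff₀ h0]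
  nlinarith

/-- A window parameter with a good exponential bound is at least `4.96`. -/
private lemma A_ge {A : ℝ} (hA : 0 ≤ A) (h : 12 * (A + 1) * Real.exp (-A) < 449 / 1000) :
    496 / 100 ≤ A := by
  by_contra hcon
  push Not at hcon
  have h1 : 1 + (496 / 100 - A) ≤ Real.exp (496 / 100 - A) := by
    have := Real.add_one_le_exp (496 / 100 - A)
    linarith
  have h2 : Real.exp (-A) = Real.exp (496 / 100 - A) * Real.exp (-(496 / 100)) := by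
    rw [← Real.exp_add]
    congr 1
    ring
  have h3 := exp_496
  have h4 : 12 * (496 / 100 + 1) * Real.exp (-(496 / 100)) ≤ 12 * (A + 1) * Real.exp (-A) := by
    rw [h2, ← mul_assoc]
    refine mul_le_mul_of_nonneg_right ?_ (Real.exp_pos _).le
    calc 12 * (496 / 100 + 1) ≤ 12 * (A + 1) * (1 + (496 / 100 - A)) := by nlinarith
      _ ≤ 12 * (A + 1) * Real.exp (496 / 100 - A) := by
          have : 0 ≤ 12 * (A + 1) := by linarith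
          gcongr
  linarith

/-- The main theorem from the blocks. -/
theorem main_prime_of (hwin : JF_window) (htot : JF_total) (hfam0 : JF_fam0) (hfamW : JF_famW)
    (hpt : JF_pt) (hcert : ∃ (δ κ μ E : ℝ) (J : ℕ) (ws cs : ℕ → ℝ) (w u₁ u₂ y : ℝ → ℝ)
      (g₁ g₂ : ℝ), CertM 0 δ κ μ J ws cs w u₁ u₂ y g₁ g₂ ∧ EnBd J ws cs δ κ w u₁ u₂ y g₁ g₂ E ∧
      E < 449 / 1000) (A : ℝ) (hA : 0 ≤ A) :
    ∃ Q₀ : ℕ, ∀ Q : ℕ, Q₀ ≤ Q → ∀ S : Set (ℕ × ℂ × ℂ),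
      (1 - min (449 / 1000) (12 * (A + 1) * Real.exp (-A))) *
        Nat.card {x : (q : ℕ) × DirichletCharacter ℂ q |
          x ∈ PQ Q ∧ (∃ p k : ℕ, p.Prime ∧ p ≠ 2 ∧ x.1 = 2 ^ k * p) ∧
            (Nat.gcd x.1 8, x.2 (-1), x.2 2) ∈ S} ≤
      Nat.card {x : (q : ℕ) × DirichletCharacter ℂ q |
        (x ∈ PQ Q ∧ (∃ p k : ℕ, p.Prime ∧ p ≠ 2 ∧ x.1 = 2 ^ k * p) ∧
          (Nat.gcd x.1 8, x.2 (-1), x.2 2) ∈ S) ∧
        ∀ (N : ℕ) (_ : NeZero N) (hN : x.1 ∣ N) (s : ℝ), 0 < s → s < 1 →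
          A ≤ |s - 1 / 2| * Real.log x.1 →
          ((DirichletCharacter.changeLevel hN x.2).LFunction s).im = 0 ∧
            0 < ((DirichletCharacter.changeLevel hN x.2).LFunction s).re} := by
  rcases le_or_gt (449 / 1000) (12 * (A + 1) * Real.exp (-A)) with h | h
  · rw [min_eq_left h]
    obtain ⟨δ, κ, μ, E, J, ws, cs, w, u₁, u₂, y, g₁, g₂, hC, hEn, hE⟩ := hcert
    obtain ⟨h1, h2⟩ := totP_fam0 hwin htot hfam0 hC hEn (by norm_num) hE (A := A)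
    exact prime_sets (by norm_num) h1 h2
  · rw [min_eq_right h.le]
    have hA5 := A_ge hA h
    obtain ⟨A', δ, κ, μ, E, J, ws, cs, w, u₁, u₂, y, g₁, g₂, hA', hAA, hC, hEn, hE0, hE⟩ :=
      certCw hpt hA5
    have hpos : 0 < 12 * (A + 1) * Real.exp (-A) := lt_of_le_of_lt hE0 hE
    obtain ⟨h1, h2⟩ := totP_famW hwin htot hfamW hA' hAA hC hEn hpos hE
    exact prime_sets hpos.le h1 h2

end Pool.Agent.MP0016c7.PC
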