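import Mathlib
import Pool.Agent.Lib.MP_0016c7_nt.PC.Iface2

set_option autoImplicit false

/-!
Project PrimeConductors, block [G]: the functional inequality `JF_core` and its pointwise version
`JF_pt`. Pieces `G_..` (each to be proved in PC/G/<name>.lean, theorem `p_<name> : G_<name>`,
with other pieces as hypotheses where indicated).
-/

open Finset MeasureTheory Filter Topology
open scoped Real ContDiff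

namespace Pool.Agent.MP0016c7.PC

open Pool.Agent.MP0016c7.Rz

/-- The bilinear form of `qP`, applied to a kernel `C`. -/
noncomputable def BCk (w u₁ u₂ : ℝ → ℝ) (g₁ g₂ V : ℝ) (C : ℝ → ℝ → ℝ) : ℝ :=
  (∫ v in (0 : ℝ)..V, w v * C v v) +
    g₁ * (∫ v in (0 : ℝ)..V, ∫ v' in (0 : ℝ)..V, u₁ v * u₁ v' * C v v') +
    g₂ * (∫ v in (0 : ℝ)..V, ∫ v' in (0 : ℝ)..V, u₂ v * u₂ v' * C v v')

/-- The constant in the bound for `BCk`. -/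
noncomputable def WW (w u₁ u₂ : ℝ → ℝ) (g₁ g₂ V : ℝ) : ℝ :=
  (∫ v in (0 : ℝ)..V, w v) + g₁ * (∫ v in (0 : ℝ)..V, |u₁ v|) ^ 2 +
    g₂ * (∫ v in (0 : ℝ)..V, |u₂ v|) ^ 2

/-- The combination `c₀ T(Y) + c₁ T(min Y τ) + c₂ T(min Y σ)`. -/
noncomputable def cmb (c₀ c₁ c₂ τ σ : ℝ) (T : ℝ → ℝ) (Y : ℝ) : ℝ :=
  c₀ * T Y + c₁ * T (min Y τ) + c₂ * T (min Y σ)

/-- The covariance kernel of two combinations. -/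
noncomputable def GG (Γ : ℝ → ℝ → ℝ) (c₀ c₁ c₂ τ σ e₀ e₁ e₂ τ' σ' Y Y' : ℝ) : ℝ :=
  cmb c₀ c₁ c₂ τ σ (fun a => cmb e₀ e₁ e₂ τ' σ' (fun b => Γ a b) Y') Y

/-- The exact Brownian covariance. -/
noncomputable def mnp (Y Y' : ℝ) : ℝ := max (min Y Y') 0

/-- The total limit kernel for the pair `(i, j)` of components, with the stopping heights
`(τ, σ)`, `(τ', σ')`; `r = 1 - t lam² + (t-1) ν²`. -/
noncomputable def XX (Γ : ℝ → ℝ → ℝ) (r t lam κ' τ σ τ' σ' Y Y' : ℝ) : ℝ :=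
  GG Γ 0 0 1 τ σ 0 0 1 τ' σ' Y Y' + 2 * GG Γ 0 0 1 τ σ 1 0 (-1) τ' σ' Y Y' +
    r * GG Γ 0 1 (-1) τ σ 0 1 (-1) τ' σ' Y Y' +
    t * κ' * GG Γ 1 (lam - 1) (-lam) τ σ 1 (lam - 1) (-lam) τ' σ' Y Y'

/-- Size S. `BCk` of a product kernel; `qP f` is the diagonal case. Proof: pull the constant
factors out of the inner integral (`intervalIntegral.integral_const_mul` after `ring_nf`), no
integrability needed: `∫ v, ∫ v', u v * u v' * (f v * e v') = ∫ v, (u v * f v) * ∫ v', u v' * e v'`,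
then pull out the constant. -/
def G_prod : Prop :=
  ∀ (w u₁ u₂ : ℝ → ℝ) (g₁ g₂ V : ℝ) (f e : ℝ → ℝ),
    BCk w u₁ u₂ g₁ g₂ V (fun v v' => f v * e v') =
      (∫ v in (0 : ℝ)..V, w v * (f v * e v)) +
      g₁ * ((∫ v in (0 : ℝ)..V, u₁ v * f v) * ∫ v in (0 : ℝ)..V, u₁ v * e v) +
      g₂ * ((∫ v in (0 : ℝ)..V, u₂ v * f v) * ∫ v in (0 : ℝ)..V, u₂ v * e v) ∧
    BCk w u₁ u₂ g₁ g₂ V (fun v v' => f v * f v') = qP w u₁ u₂ g₁ g₂ V f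

/-- Size S/M. Linearity and bound of `BCk` for continuous kernels (as functions on the plane).
Proof: all integrands are continuous, so interval integrable (inner integral of a continuous
function of two variables is continuous: `intervalIntegral.continuous_parametric_intervalIntegral_of_continuous'`
or `continuous_parametric_...`). Bound: `|w v * C v v| ≤ M * w v` on `[0,V]`,
`|u v * u v' * C v v'| ≤ M |u v| |u v'|`. -/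
def G_lin : Prop :=
  ∀ (w u₁ u₂ : ℝ → ℝ) (g₁ g₂ V : ℝ), Continuous w → Continuous u₁ → Continuous u₂ → 0 ≤ V →
    (∀ (a b : ℝ) (C C' : ℝ → ℝ → ℝ), Continuous (fun p : ℝ × ℝ => C p.1 p.2) →
      Continuous (fun p : ℝ × ℝ => C' p.1 p.2) →
      BCk w u₁ u₂ g₁ g₂ V (fun v v' => a * C v v' + b * C' v v') =
        a * BCk w u₁ u₂ g₁ g₂ V C + b * BCk w u₁ u₂ g₁ g₂ V C') ∧
    (∀ (n : ℕ) (c : ℕ → ℝ) (C : ℕ → ℝ → ℝ → ℝ),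
      (∀ i, Continuous (fun p : ℝ × ℝ => C i p.1 p.2)) →
      BCk w u₁ u₂ g₁ g₂ V (fun v v' => ∑ i ∈ range n, c i * C i v v') =
        ∑ i ∈ range n, c i * BCk w u₁ u₂ g₁ g₂ V (C i)) ∧
    (∀ (S : Finset ℕ) (c : ℕ → ℝ) (C : ℕ → ℝ → ℝ → ℝ),
      (∀ i, Continuous (fun p : ℝ × ℝ => C i p.1 p.2)) →
      BCk w u₁ u₂ g₁ g₂ V (fun v v' => ∑ i ∈ S, c i * C i v v') =
        ∑ i ∈ S, c i * BCk w u₁ u₂ g₁ g₂ V (C i)) ∧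
    ((∀ v, 0 < w v) → 0 ≤ g₁ → 0 ≤ g₂ → 0 ≤ WW w u₁ u₂ g₁ g₂ V ∧
      ∀ (M : ℝ) (C : ℝ → ℝ → ℝ), Continuous (fun p : ℝ × ℝ => C p.1 p.2) →
      (∀ v ∈ Set.Icc 0 V, ∀ v' ∈ Set.Icc 0 V, |C v v'| ≤ M) →
      |BCk w u₁ u₂ g₁ g₂ V C| ≤ M * WW w u₁ u₂ g₁ g₂ V)

/-- Size M. The splitting for one discriminant. Proof: put `b f e` for the bilinear form (right
side of `G_prod`; symmetric, bilinear on continuous functions, `b f f = qP f ≥ 0` since `w > 0`,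
`g_i ≥ 0`). `qP (F - (A+B)) = b F F - 2 b F (A+B) + b (A+B) (A+B)` and
`b (A+B)(A+B) = t b (B + lam A)(B + lam A) - (t-1) b (B - ν A)(B - ν A) + r b A A` by
`t - (t-1) = 1`, `2 t lam + 2 (t-1) ν = 2`, `t lam² - (t-1) ν² + r = 1`. -/
def G_split : Prop :=
  ∀ (w u₁ u₂ : ℝ → ℝ) (g₁ g₂ V : ℝ), Continuous w → (∀ v, 0 < w v) → Continuous u₁ →
    Continuous u₂ → 0 ≤ V → 0 ≤ g₁ → 0 ≤ g₂ → ∀ t lam ν : ℝ, 1 ≤ t → t * lam + (t - 1) * ν = 1 →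
    ∀ (F A B : ℝ → ℝ), Continuous F → Continuous A → Continuous B →
    0 ≤ qP w u₁ u₂ g₁ g₂ V (fun v => B v + lam * A v) ∧
    qP w u₁ u₂ g₁ g₂ V (fun v => F v - (A v + B v)) ≤
      BCk w u₁ u₂ g₁ g₂ V (fun v v' => F v * F v' - 2 * (F v * (A v' + B v')) +
        (1 - t * lam ^ 2 + (t - 1) * ν ^ 2) * (A v * A v')) +
      t * qP w u₁ u₂ g₁ g₂ V (fun v => B v + lam * A v)

/-- Size S/M. The smoothed covariance is close to the Brownian covariance, and continuous.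
Proof: `ρ ≥ 0`, `∫ ρ = 1`, on the support `|x|, |y| < δ/2`; `max (min · ·) 0` is 1-Lipschitz in
each variable (sup norm): `|max (min (Y₁-x) (Y₂-y)) 0 - max (min Y₁ Y₂) 0| ≤ max |x| |y| ≤ δ/2`,
and `0 ≤ max (Y₁-x+(Y₂-y)-1) 0 ≤ δ` as `Y₁ + Y₂ ≤ 1`. Integrate. Continuity: the integrand is
Lipschitz in `(Y₁, Y₂)` uniformly (constant 3), so `|Gam2 Y - Gam2 Y'| ≤ 3 ‖Y - Y'‖ (∫ρ)²`.
(Integrability: `ρ` continuous with compact support.) -/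
def G_gam : Prop :=
  ∀ (δ : ℝ) (ρ : ℝ → ℝ), 0 < δ → Bump ρ (-(δ / 2)) (δ / 2) → (∀ y, 0 ≤ ρ y) → (∫ y, ρ y) = 1 →
    Continuous (fun p : ℝ × ℝ => Gam2 ρ ρ p.1 p.2) ∧
    (∀ Y₁ ≤ (1 / 2 : ℝ), ∀ Y₂ ≤ (1 / 2 : ℝ), |Gam2 ρ ρ Y₁ Y₂ - mnp Y₁ Y₂| ≤ 3 / 2 * δ) ∧
    (∀ Y₁ ≤ -δ, ∀ Y₂ ≤ (1 / 2 : ℝ), Gam2 ρ ρ Y₁ Y₂ = 0 ∧ Gam2 ρ ρ Y₂ Y₁ = 0)

/-- Size M. The kernel length of `(α, β)` below both heights. Proof: for `x = min (1/2-v) (1/2-v')`: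
`max (min x β) 0 - max (min x α) 0 = ∫ h in α..β, if h < x then 1 else 0`; Fubini; for fixed `h`:
`∫_0^V ∫_0^V u v u v' 1[v < 1/2-h] 1[v' < 1/2-h] = (∫_0^{1/2-h} u)²` (as `0 ≤ 1/2-h ≤ V`), same for
`w`; substitute `u = 1/2 - h`. Alternative without Fubini: both sides are `C¹` functions of `β`
(for fixed `α`) which vanish at `β = α`; derivative of the left side with respect to `β` is
`Kq (1/2 - β)`. -/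
def G_lev : Prop :=
  ∀ (w u₁ u₂ : ℝ → ℝ) (g₁ g₂ V α β : ℝ), Continuous w → Continuous u₁ → Continuous u₂ →
    1 / 2 ≤ V → 0 ≤ α → α ≤ β → β ≤ 1 / 2 →
    BCk w u₁ u₂ g₁ g₂ V (fun v v' => max (min (min (1 / 2 - v) (1 / 2 - v')) β) 0 -
      max (min (min (1 / 2 - v) (1 / 2 - v')) α) 0) =
      ∫ u in (1 / 2 - β)..(1 / 2 - α), Kq w u₁ u₂ g₁ g₂ u

/-- Size S/M (real arithmetic). The exact Brownian kernel of `XX` on the diagonal: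
with `x = min Y Y'`, `X β = max (min x β) 0` all entries are
`mnp (min Y a) (min Y' b) = X (min a b)` (`a, b ∈ {∞, τ, σ}`), `σ ≤ τ ≤ 1/2`, `Y, Y' ≤ 1/2`.
Also the trivial bounds `0 ≤ mnp ≤ 1/2` give the bound for different stopping heights: `XX` is a
sum of values of `mnp` at heights `≤ 1/2` with coefficients of total size
`1 + 4 + 4 r + t κ' (1 + |lam-1| + |lam|)² = 5 + 4 r + 4 t κ'`. And the same count for the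
difference of two kernels `Γ`, `Γ'` with `|Γ - Γ'| ≤ ε` at heights `≤ 1/2`. -/
def G_xx : Prop :=
  (∀ (r t lam κ' τ σ Y Y' : ℝ), σ ≤ τ → 0 ≤ τ → τ ≤ 1 / 2 → Y ≤ 1 / 2 → Y' ≤ 1 / 2 →
    XX mnp r t lam κ' τ σ τ σ Y Y' =
      t * κ' * (max (min (min Y Y') (1 / 2)) 0 - max (min (min Y Y') τ) 0) +
      (r + t * κ' * lam ^ 2) * (max (min (min Y Y') τ) 0 - max (min (min Y Y') (max σ 0)) 0) +
      (max (min (min Y Y') (max σ 0)) 0 - max (min (min Y Y') 0) 0)) ∧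
  (∀ (r t lam κ' τ σ τ' σ' Y Y' ε : ℝ) (Γ Γ' : ℝ → ℝ → ℝ), 0 ≤ r → 0 ≤ t → 0 ≤ κ' → 0 ≤ lam →
    lam ≤ 1 → Y ≤ 1 / 2 → Y' ≤ 1 / 2 →
    (∀ a ≤ (1 / 2 : ℝ), ∀ b ≤ (1 / 2 : ℝ), |Γ a b - Γ' a b| ≤ ε) →
    |XX Γ r t lam κ' τ σ τ' σ' Y Y' - XX Γ' r t lam κ' τ σ τ' σ' Y Y'| ≤
      (5 + 4 * r + 4 * t * κ') * ε) ∧
  (∀ (r t lam κ' τ σ τ' σ' Y Y' : ℝ), 0 ≤ r → 0 ≤ t → 0 ≤ κ' → 0 ≤ lam → lam ≤ 1 → Y ≤ 1 / 2 →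
    Y' ≤ 1 / 2 → |XX mnp r t lam κ' τ σ τ' σ' Y Y'| ≤ (5 + 4 * r + 4 * t * κ') * (1 / 2))

/-- Size M. The energy of the total limit kernel. Proof: write
`XX (Gam2 ρ ρ) = XX mnp + (XX (Gam2 ρ ρ) - XX mnp)` for `i = j` (second part of `G_xx` with
`ε = 3δ/2`), evaluate `BCk (XX mnp)` by the first part and `G_lev` (three levels:
`(τ, 1/2)`, `(max σ 0, τ)`, `(0, max σ 0)`; `1/2 - max σ 0 = min (1/2) (1/2 - σ)`), bound it by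
`κ' ≤ κ`, `0 ≤ Sm k k ≤ s k` (`Kq ≥ 0` and the three weights are `≥ 0`, increasing in `κ'`);
for `i ≠ j` use the second and third part: `|XX (Gam2)| ≤ (5+4r+4tκ)(1/2 + 3δ/2) ≤ 5+4r+4tκ`. -/
def G_en : Prop :=
  ∀ (J : ℕ) (δ κ : ℝ), 0 < δ → δ ≤ 1 / 100 → 0 ≤ κ → ∀ ρ : ℝ → ℝ, Bump ρ (-(δ / 2)) (δ / 2) →
  (∀ y, 0 ≤ ρ y) → (∫ y, ρ y) = 1 → ∀ (w u₁ u₂ e : ℝ → ℝ) (g₁ g₂ B₁ B₂ t lam ν : ℝ),
  Continuous w → (∀ v, 0 < w v) → Continuous u₁ → Continuous u₂ → Continuous e →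
  0 ≤ g₁ → 0 ≤ g₂ →
  (∫ v in (0 : ℝ)..(1 / 2 + δ), |u₁ v|) ^ 2 ≤ B₁ → (∫ v in (0 : ℝ)..(1 / 2 + δ), |u₂ v|) ^ 2 ≤ B₂ →
  1 ≤ t → 0 ≤ lam → lam ≤ 1 → 0 ≤ 1 - t * lam ^ 2 + (t - 1) * ν ^ 2 →
  ∀ (τ σ : ℕ → ℝ), (∀ k < J, σ k ≤ τ k ∧ 0 ≤ τ k ∧ τ k ≤ 1 / 2) →
  ∀ (s : ℕ → ℝ) (Sm : ℕ → ℕ → ℝ) (S₁ : ℝ), (∀ k < J, 0 ≤ Sm k k ∧ Sm k k ≤ s k) →
  (∑ i ∈ range J, ∑ j ∈ range J, (if i = j then 0 else |Sm i j|)) ≤ S₁ →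
  ∀ κ' : ℝ, 0 ≤ κ' → κ' ≤ κ →
  BCk w u₁ u₂ g₁ g₂ (1 / 2 + δ) (fun v v' => e v * e v' +
    ∑ i ∈ range J, ∑ j ∈ range J, Sm i j *
      XX (Gam2 ρ ρ) (1 - t * lam ^ 2 + (t - 1) * ν ^ 2) t lam κ' (τ i) (σ i) (τ j) (σ j)
        (1 / 2 - v) (1 / 2 - v')) ≤
    enJ J s τ σ S₁ κ t lam ν δ w u₁ u₂ g₁ g₂ B₁ B₂ e

/-- The moment hypotheses at the stopping heights (consequence of `MD`). -/
structure MS (J : ℕ) (τ σ mm : ℕ → ℝ) (Sm : ℕ → ℕ → ℝ) (Γ : ℝ → ℝ → ℝ) (δ I κ' ε₁ : ℝ)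
    (S : Finset ℕ) (cf cf' : ℕ → ℝ) (T : ℕ → ℕ → ℝ → ℝ) : Prop where
  nn : ∀ d ∈ S, 0 ≤ cf d ∧ cf d ≤ cf' d
  ct : ∀ k < J, ∀ d, Continuous (T k d)
  m0 : |(∑ d ∈ S, cf d) - I| ≤ ε₁
  m1 : ∀ k < J, ∀ Y ∈ Set.Icc (-δ) (1 / 2 : ℝ), |(∑ d ∈ S, cf d * T k d Y) - I * mm k| ≤ ε₁
  mt : ∀ i < J, ∀ j < J, ∀ Y₁ ∈ Set.Icc (-δ) (τ i), ∀ Y₂ ∈ Set.Icc (-δ) (τ j),
    |(∑ d ∈ S, cf d * (T i d Y₁ * T j d Y₂)) - I * (mm i * mm j + Sm i j * Γ Y₁ Y₂)| ≤ ε₁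
  ms : ∀ i < J, ∀ j < J, ∀ Y₁ ∈ Set.Icc (-δ) (σ i), ∀ Y₂ ∈ Set.Icc (-δ) (1 / 2 : ℝ),
    |(∑ d ∈ S, cf d * (T i d Y₁ * T j d Y₂)) - I * (mm i * mm j + Sm i j * Γ Y₁ Y₂)| ≤ ε₁ ∧
    |(∑ d ∈ S, cf d * (T j d Y₂ * T i d Y₁)) - I * (mm i * mm j + Sm i j * Γ Y₁ Y₂)| ≤ ε₁
  m2' : ∀ i < J, ∀ j < J, ∀ Y₁ ∈ Set.Icc (-δ) (1 / 2 : ℝ), ∀ Y₂ ∈ Set.Icc (-δ) (1 / 2 : ℝ),
    |(∑ d ∈ S, cf' d * (T i d Y₁ * T j d Y₂)) - κ' * I * (mm i * mm j + Sm i j * Γ Y₁ Y₂)| ≤ ε₁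

/-- Size M/L. The mean of the kernels. Fix a height pair `Y = 1/2 - v`, `Y' = 1/2 - v'` in
`[-δ, 1/2]`; put `F_d v = y v - ∑ T k d (min Y (σ k))`,
`A_d v = ∑ (T k d (min Y (τ k)) - T k d (min Y (σ k)))`, `B_d v = ∑ (T k d Y - T k d (min Y (τ k)))`.
Expand the products (finite sums over the pairs `(i, j)`), apply `m0`, `m1`, `mt`, `ms`
(the cf part: only pairs `(σ i, ·)` and `(τ i, τ j)` occur; in `F_d v * (A+B)_d v'` the pairs are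
`(min Y (σ i), Y')` and `(min Y (σ i), min Y' (σ j))`) and `m2'` (the cf' part:
`B + lam A = ∑ cmb 1 (lam-1) (-lam) (τ k) (σ k) (T k d)`). The mean parts: `∑ cf F F' ->
(y - m)(y' - m)`, `∑ cf F (A+B)' -> 0`, `∑ cf A A' -> 0`, `∑ cf' (B + lam A)(B + lam A)' -> 0`
(coefficients sum to 0), so that the sum of all is `I * ((y v - m)(y v' - m) + ∑∑ Sm i j * XX)`.
The error is at most `C₁ ε₁`, `C₁` depending only on `J`, `K₁`, `Yb`, `mm`. -/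
def G_mean : Prop :=
  ∀ (J : ℕ) (δ K₁ Yb : ℝ), 0 < δ → δ ≤ 1 / 100 →
  ∀ (τ σ : ℕ → ℝ), (∀ k < J, -δ ≤ σ k ∧ σ k ≤ τ k ∧ 0 ≤ τ k ∧ τ k ≤ 1 / 2) →
  ∀ mm : ℕ → ℝ, ∃ C₁ : ℝ, 0 ≤ C₁ ∧ ∀ (y : ℝ → ℝ) (t lam r : ℝ),
  (∀ v ∈ Set.Icc 0 (1 / 2 + δ), |y v| ≤ Yb) → 1 ≤ t → t ≤ K₁ → 0 ≤ lam → lam ≤ 1 → 0 ≤ r →
  r ≤ K₁ → ∀ (Sm : ℕ → ℕ → ℝ) (Γ : ℝ → ℝ → ℝ),
  (∀ i j, Sm i j = Sm j i) → (∀ a b, Γ a b = Γ b a) →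
  ∀ (I κ' ε₁ : ℝ), 0 ≤ I → 0 ≤ κ' →
  ∀ (S : Finset ℕ) (cf cf' : ℕ → ℝ) (T : ℕ → ℕ → ℝ → ℝ),
  MS J τ σ mm Sm Γ δ I κ' ε₁ S cf cf' T →
  ∀ v ∈ Set.Icc 0 (1 / 2 + δ), ∀ v' ∈ Set.Icc 0 (1 / 2 + δ),
  |(∑ d ∈ S, cf d * ((y v - ∑ k ∈ range J, T k d (min (1 / 2 - v) (σ k))) *
        (y v' - ∑ k ∈ range J, T k d (min (1 / 2 - v') (σ k))) -
      2 * ((y v - ∑ k ∈ range J, T k d (min (1 / 2 - v) (σ k))) *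
        ∑ k ∈ range J, (T k d (1 / 2 - v') - T k d (min (1 / 2 - v') (σ k)))) +
      r * ((∑ k ∈ range J, (T k d (min (1 / 2 - v) (τ k)) - T k d (min (1 / 2 - v) (σ k)))) *
        ∑ k ∈ range J, (T k d (min (1 / 2 - v') (τ k)) - T k d (min (1 / 2 - v') (σ k)))))) +
    t * (∑ d ∈ S, cf' d * ((∑ k ∈ range J, cmb 1 (lam - 1) (-lam) (τ k) (σ k) (T k d)
        (1 / 2 - v)) * ∑ k ∈ range J, cmb 1 (lam - 1) (-lam) (τ k) (σ k) (T k d) (1 / 2 - v'))) -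
    I * ((y v - ∑ k ∈ range J, mm k) * (y v' - ∑ k ∈ range J, mm k) +
      ∑ i ∈ range J, ∑ j ∈ range J, Sm i j *
        XX Γ r t lam κ' (τ i) (σ i) (τ j) (σ j) (1 / 2 - v) (1 / 2 - v'))| ≤ C₁ * ε₁

/-- Size S/M. From `MD` to `MS` (the constants: `σ k = -δ` is allowed; then use `det`).
For `ms` with `σ i = -δ`: `Y₁ = -δ`, `|∑ cf T i (-δ) T j Y₂ - mm i ∑ cf T j Y₂| ≤ ε₁ ∑ cf |T j Y₂|`
and `∑ cf |T j Y₂| ≤ ∑ cf' (1 + (T j Y₂)²)`-type bound: `∑ cf ≤ K + 1`,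
`∑ cf (T j Y₂)² ≤ ∑ cf' (T j Y₂)² ≤ κ K (mm² + |Sm| (2 + δ)) + 1`, Cauchy-Schwarz or
`|x| ≤ 1 + x²`. `Gam2 (-δ) Y₂ = 0` by `G_gam`. So `MS` holds with `C₂ ε₁` for `ε₁ ≤ 1`. -/
def G_ms : Prop :=
  ∀ (J : ℕ) (δ κ K : ℝ) (ws cs σs : ℕ → ℝ), 0 < δ → δ ≤ 1 / 100 → 0 ≤ κ → 0 < ws 0 →
  (∀ k, k + 1 < J → ws k + δ ≤ ws (k + 1)) → (∀ k < J, 0 ≤ cs k) →
  ws (J - 1) + 6 * δ ≤ 1 / 2 → (∀ k < J, -δ ≤ σs k ∧ σs k ≤ 1 / 2 - ws k - 6 * δ) →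
  (∀ k < J, σs k = -δ ∨ σs k + ws k + ws (J - 1) + 12 * δ ≤ 1 / 2) →
  ∀ ρ : ℝ → ℝ, Bump ρ (-(δ / 2)) (δ / 2) → (∀ y, 0 ≤ ρ y) → (∫ y, ρ y) = 1 →
  ∀ (mm : ℕ → ℝ) (Sm : ℕ → ℕ → ℝ), (∀ i j, Sm i j = Sm j i) →
  ∃ C₂ : ℝ, 1 ≤ C₂ ∧ ∀ (I κ' ε₁ : ℝ), 0 ≤ I → I ≤ K → 0 ≤ κ' → κ' ≤ κ → 0 < ε₁ → ε₁ ≤ 1 →
  ∀ (S : Finset ℕ) (cf cf' : ℕ → ℝ) (T : ℕ → ℕ → ℝ → ℝ),
  MD J ws mm Sm ρ δ I κ' ε₁ S cf cf' T →
  MS J (fun k => 1 / 2 - ws k - 6 * δ) σs mm Sm (Gam2 ρ ρ) δ I κ' (C₂ * ε₁) S cf cf' T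

/-- Size S. `Gam2` is symmetric. (Fubini / `integral_integral_swap`, or symmetrise the integrand:
continuous with compact support in `(x, y)` because of `ρ x * ρ y`.) -/
def G_sym : Prop :=
  ∀ (δ : ℝ) (ρ : ℝ → ℝ), 0 < δ → Bump ρ (-(δ / 2)) (δ / 2) → ∀ a b : ℝ,
    Gam2 ρ ρ a b = Gam2 ρ ρ b a

/-- Size M. Final: `G_prod`, `G_lin`, `G_split`, `G_gam`, `G_en`, `G_mean`, `G_ms`, `G_sym`
imply `JF_core`. Note: in `EnBd` the matrix `Sm` is not assumed symmetric; the moment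
hypotheses only see the symmetric part: replace `Sm` by `(Sm i j + Sm j i)/2`: by `m2`, `m2'` with
`(i,Y₁), (j,Y₂)` and `(j,Y₂), (i,Y₁)` the same sums, so `MD` holds with the symmetrised matrix and
the same `ε₁` (average of the two estimates, `Gam2` symmetric); diagonal and off-diagonal bounds
are preserved. Then: for every `d`, `G_split` with `F, A, B` as in `G_mean`
(`F - (A + B) = y - ∑ T k d (1/2 - v)`; `B + lam A = ∑ cmb 1 (lam-1) (-lam) ..`); multiply by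
`cf d ≥ 0` and sum; in the term `t qP(B + lam A) ≥ 0` replace `cf d` by `cf' d ≥ cf d`;
`qP = BCk` of the product kernel, linearity (`G_lin`) gives `BCk` of the kernel of `G_mean`;
bound by `I * BCk(limit kernel) + C₁ C₂ ε₁ WW` (`G_lin`), `G_en` with `e = y - ∑ mm`, and choose
`ε₁ = min 1 (ε' / (C₁ C₂ WW + 1))`. The off-diagonal sum: `∑_{i≠j} |Sm i j| ≤
2 δ ∑_{k<J-1} cs k cs (k+1)`. -/
def G_fin : Prop :=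
  G_prod → G_lin → G_split → G_gam → G_en → G_mean → G_ms → G_sym → JF_core

/-- Size M. The same at one height: `JF_pt`. Take `v = v' = 1/2 - Y` in `G_mean` with `y v` := the
constant `∑ mm` (so the first product is `0`), the pointwise splitting
`(F-(A+B))² ≤ F² - 2F(A+B) + r A² + t (B + lam A)²` (elementary), the diagonal value of `XX`
(`G_xx`, `Y = Y'`) and the error counts (as in `G_en`). `r ≤ 1 + K₁ ^ 3`, so apply `G_mean` with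
`1 + K₁ + K₁ ^ 3`. `Sm` is to be symmetrised as in `G_fin`. -/
def G_finpt : Prop :=
  G_xx → G_gam → G_mean → G_ms → G_sym → JF_pt

end Pool.Agent.MP0016c7.PC
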