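import Mathlib
import Pool.Agent.Lib.MP_0016c7_nt.PC.Iface2
import Pool.Agent.Lib.MP_0016c7_nt.Rz2.PSplit
import Pool.Agent.Lib.MP_0016c7_nt.Rz2.NSc
import Pool.Agent.Lib.MP_0016c7_nt.Rz.Poisson2
import Pool.Agent.Lib.MP_0016c7_nt.Rz.Poisson3

set_option autoImplicit false

/-!
The twisted Poisson formula, generic part (dilation by the sieve modulus).
-/

open Finset MeasureTheory Filter Topology
open scoped Real ContDiff

namespace Pool.Agent.MP0016c7.PC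

open Pool.Agent.MP0016c7.Rz

theorem tw_jr_mul (a b : ℤ) (n : ℕ) : jr (a * b) n = jr a n * jr b n := by
  unfold jr
  split_ifs
  · rw [jacobiSym.mul_left]
    push_cast
    ring
  · simp

theorem tw_jr_sq_one {k : ℤ} {n : ℕ} (hn : Odd n) (h : IsCoprime k (n : ℤ)) :
    jr k n ^ 2 = 1 := by
  unfold jr
  rw [if_pos hn]
  have := jacobiSym.sq_one (a := k) (b := n) (by
    rw [← Int.isCoprime_iff_gcd_eq_one]; exact h)
  exact_mod_cast this

theorem tw_cop {m N : ℕ} (h : Nat.Coprime m N) : IsCoprime (m : ℤ) (N : ℤ) :=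
  Nat.isCoprime_iff_coprime.2 h

theorem tw_jr_sq {m N : ℕ} (hN : Odd N) (h : Nat.Coprime m N) : jr ((m : ℤ) ^ 2) N = 1 := by
  rw [sq, tw_jr_mul, ← sq]
  exact tw_jr_sq_one hN (tw_cop h)

private theorem tw_odd12 {N : ℕ} (hN : Odd N) : Odd (sq1 N) ∧ Odd (sq2 N) := by
  have hNAB := sq1_mul_sq2 N hN.pos.ne'
  rw [← hNAB] at hN
  exact ⟨(Nat.odd_mul.1 hN).1, (Nat.odd_pow_iff (by norm_num)).1 (Nat.odd_mul.1 hN).2⟩

/-- Multiplication by an integer coprime to `N`. -/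
theorem tw_gg_mul {N : ℕ} (hN : Odd N) (u : ℤ) (hu : IsCoprime u (N : ℤ)) (k : ℤ) :
    gg (u * k) N = jr u N * gg k N := by
  have hNAB := sq1_mul_sq2 N hN.pos.ne'
  obtain ⟨hA, hB⟩ := tw_odd12 hN
  have hB0 : (((sq2 N : ℕ) : ℤ)) ^ 2 ≠ 0 := pow_ne_zero _ (by exact_mod_cast hB.pos.ne')
  have hNc : (N : ℤ) = (sq1 N : ℤ) * (sq2 N : ℤ) ^ 2 := by
    have : (((sq1 N * sq2 N ^ 2 : ℕ)) : ℤ) = (N : ℤ) := by rw [hNAB]
    push_cast at this
    exact this.symm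
  have huB : IsCoprime u ((sq2 N : ℤ) ^ 2) := by
    rw [hNc] at hu
    exact hu.of_mul_right_right
  have hjr : jr u N = jr u (sq1 N) := by
    have h1 : jr u N = jr u (sq1 N) * jr u (sq2 N) ^ 2 := by
      have : NeZero (sq1 N) := ⟨hA.pos.ne'⟩
      have : NeZero (sq2 N) := ⟨hB.pos.ne'⟩
      have h0 : jr u (sq1 N * sq2 N ^ 2) = jr u (sq1 N) * jr u (sq2 N) ^ 2 := by
        unfold jr
        rw [if_pos (hA.mul hB.pow), if_pos hA, if_pos hB, jacobiSym.mul_right,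
          jacobiSym.pow_right]
        push_cast
        ring
      rwa [hNAB] at h0
    rw [h1, tw_jr_sq_one hB (by
      rw [sq] at huB
      exact huB.of_mul_right_left), mul_one]
  rw [hjr]
  unfold gg
  rw [← mul_div_assoc, Finset.mul_sum]
  congr 1
  have hfil : (sq2 N).divisors.filter (fun e : ℕ => ((sq2 N : ℕ) : ℤ) ^ 2 ∣ (u * k) * (e : ℤ)) =
      (sq2 N).divisors.filter (fun e : ℕ => ((sq2 N : ℕ) : ℤ) ^ 2 ∣ k * (e : ℤ)) := by
    apply Finset.filter_congr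
    intro e _
    rw [mul_assoc]
    constructor
    · intro h
      exact huB.symm.dvd_of_dvd_mul_left h
    · intro h
      exact h.mul_left u
  rw [hfil]
  refine Finset.sum_congr rfl fun e he => ?_
  have hdvd := (mem_filter.1 he).2
  obtain ⟨t, ht⟩ := hdvd
  have h2 : (u * k) * (e : ℤ) ^ 2 / ((sq2 N : ℕ) : ℤ) ^ 2 = u * (t * e) := by
    apply Int.ediv_eq_of_eq_mul_right hB0
    have : (u * k) * (e : ℤ) ^ 2 = (k * e) * (u * e) := by ring
    rw [this, ht]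
    ring
  have h3 : k * (e : ℤ) ^ 2 / ((sq2 N : ℕ) : ℤ) ^ 2 = t * e := by
    apply Int.ediv_eq_of_eq_mul_right hB0
    have : k * (e : ℤ) ^ 2 = (k * e) * e := by ring
    rw [this, ht]
    ring
  rw [h2, h3, tw_jr_mul]
  ring

theorem tw_gg_sq {m N : ℕ} (hN : Odd N) (h : Nat.Coprime m N) (k : ℤ) :
    gg ((m : ℤ) ^ 2 * k) N = gg k N := by
  rw [tw_gg_mul hN _ ((tw_cop h).pow_left), tw_jr_sq hN h, one_mul]

/-- Summation over the multiples of `m`. -/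
theorem tw_sum_mul (P : ℕ → Prop) (g : ℕ → ℝ) {m : ℕ} (hm : m ≠ 0)
    [∀ d, Decidable (P d ∧ m ∣ d)] [∀ d, Decidable (P (m * d))] :
    ∑' d : ℕ, (if P d ∧ m ∣ d then g d else 0) =
      ∑' d : ℕ, (if P (m * d) then g (m * d) else 0) := by
  have hinj : Function.Injective (fun d : ℕ => m * d) := fun a b h =>
    Nat.eq_of_mul_eq_mul_left (Nat.pos_of_ne_zero hm) h
  rw [← hinj.tsum_eq (f := fun d => if P d ∧ m ∣ d then g d else 0)]
  · refine tsum_congr fun d => ?_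
    by_cases h : P (m * d)
    · rw [if_pos ⟨h, Dvd.intro d rfl⟩, if_pos h]
    · rw [if_neg (fun h' => h h'.1), if_neg h]
  · intro d hd
    rw [Function.mem_support] at hd
    by_cases h : m ∣ d
    · obtain ⟨a, rfl⟩ := h
      exact ⟨a, rfl⟩
    · rw [if_neg (fun h' => h h'.2)] at hd
      exact absurd rfl hd

theorem tw_sum_mulZ (g : ℤ → ℝ) {m : ℤ} (hm : m ≠ 0) [∀ t : ℤ, Decidable (m ∣ t)] :
    ∑' t : ℤ, (if m ∣ t then g t else 0) = ∑' k : ℤ, g (m * k) := by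
  have hinj : Function.Injective (fun k : ℤ => m * k) := fun a b h => mul_left_cancel₀ hm h
  rw [← hinj.tsum_eq (f := fun t => if m ∣ t then g t else 0)]
  · refine tsum_congr fun k => ?_
    rw [if_pos (Dvd.intro k rfl)]
  · intro t ht
    rw [Function.mem_support] at ht
    by_cases h : m ∣ t
    · obtain ⟨a, rfl⟩ := h
      exact ⟨a, rfl⟩
    · rw [if_neg h] at ht
      exact absurd rfl ht

/-- The sum over the squares. -/
noncomputable def QQm (F : ℝ → ℝ) (σ : ℤ) (c : ℤ → ℝ) (Z : ℝ) (N : ℕ) : ℝ :=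
  ∑' j : ℕ, c ((j : ℤ) ^ 2) * gg ((j : ℤ) ^ 2) N * Ft F σ ((j : ℝ) ^ 2 * Z / (2 * N))

theorem tw_sum {F : ℝ → ℝ} {a b : ℝ} (ha : 0 < a) (hF : Bump F a b) (σ : ℤ)
    (hσ : σ = 1 ∨ σ = -1) (N : ℕ) (hN : Odd N) (Z : ℝ) (hZ : 0 < Z) (c : ℤ → ℝ)
    (hc : ∀ k, |c k| ≤ 2) :
    Summable (fun k : ℤ => c k * gg k N * Ft F σ ((k : ℝ) * Z / (2 * N))) := by
  obtain ⟨h1, _⟩ := poisson_odd ha hF σ hσ N hN Z hZ
  refine Summable.of_norm_bounded (h1.norm.mul_left 2) fun k => ?_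
  rw [mul_assoc, norm_mul]
  exact mul_le_mul_of_nonneg_right (hc k) (norm_nonneg _)

/-- Splitting of the sum over the multiples of `m` into squares and nonsquares. -/
theorem tw_split {F : ℝ → ℝ} {a b : ℝ} (ha : 0 < a) (hF : Bump F a b) (σ : ℤ)
    (hσ : σ = 1 ∨ σ = -1) (N : ℕ) (hN : Odd N) (Z : ℝ) (hZ : 0 < Z) (c : ℤ → ℝ)
    (hc : ∀ k, |c k| ≤ 2) (m : ℕ) (hm : Odd m) (hms : Squarefree m) (hmN : Nat.Coprime m N)
    (hper : ∀ k : ℤ, c ((m : ℤ) ^ 2 * k) = c k) :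
    jr m N * ∑' k : ℤ, c (m * k) * gg k N * Ft F σ ((k : ℝ) * (Z / m) / (2 * N)) =
      QQm F σ c Z N + NSm F σ c m Z N := by
  classical
  have hm0 : (m : ℤ) ≠ 0 := by exact_mod_cast hm.pos.ne'
  have hmR : (0 : ℝ) < m := by exact_mod_cast hm.pos
  have hNR : (0 : ℝ) < N := by exact_mod_cast hN.pos
  set u : ℤ → ℝ := fun t => c t * gg t N * Ft F σ ((t : ℝ) * Z / (2 * (m : ℝ) ^ 2 * N)) with hu
  have hus : Summable u := by
    refine (tw_sum ha hF σ hσ N hN (Z / (m : ℝ) ^ 2) (by positivity) c hc).congr fun k => ?_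
    rw [hu]
    simp only
    congr 2
    field_simp
  -- the left side
  have hL : jr m N * ∑' k : ℤ, c (m * k) * gg k N * Ft F σ ((k : ℝ) * (Z / m) / (2 * N)) =
      ∑' t : ℤ, (if (m : ℤ) ∣ t then u t else 0) := by
    rw [tw_sum_mulZ u hm0, ← tsum_mul_left]
    refine tsum_congr fun k => ?_
    rw [hu]
    simp only
    rw [tw_gg_mul hN _ (tw_cop hmN)]
    have e1 : (((m : ℤ) * k : ℤ) : ℝ) * Z / (2 * (m : ℝ) ^ 2 * N) =
        (k : ℝ) * (Z / m) / (2 * N) := by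
      push_cast
      field_simp
    rw [e1]
    ring
  rw [hL]
  have hs1 : Summable fun t : ℤ => if (m : ℤ) ∣ t ∧ IsSquare t then u t else 0 := by
    refine Summable.of_norm_bounded hus.norm fun k => ?_
    split_ifs
    · exact le_rfl
    · rw [norm_zero]
      exact norm_nonneg _
  have hs2 : Summable fun t : ℤ => if IsSquare t ∨ ¬ (m : ℤ) ∣ t then 0 else u t := by
    refine Summable.of_norm_bounded hus.norm fun k => ?_
    split_ifs
    · rw [norm_zero]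
      exact norm_nonneg _
    · exact le_rfl
  have h3 : ∑' t : ℤ, (if (m : ℤ) ∣ t then u t else 0) =
      ∑' t : ℤ, (if (m : ℤ) ∣ t ∧ IsSquare t then u t else 0) +
      ∑' t : ℤ, (if IsSquare t ∨ ¬ (m : ℤ) ∣ t then 0 else u t) := by
    rw [← hs1.tsum_add hs2]
    refine tsum_congr fun t => ?_
    by_cases h1 : (m : ℤ) ∣ t
    · by_cases h2 : IsSquare t
      · simp [h1, h2]
      · simp [h1, h2]
    · simp [h1]
  have hinj : Function.Injective (fun j : ℕ => ((m : ℤ) * j) ^ 2) := by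
    intro i j hij
    have h4 : (((m * i) ^ 2 : ℕ) : ℤ) = (((m * j) ^ 2 : ℕ) : ℤ) := by
      push_cast
      exact hij
    have h5 := Nat.pow_left_injective (n := 2) (by norm_num) (by exact_mod_cast h4 :
      (m * i) ^ 2 = (m * j) ^ 2)
    exact Nat.eq_of_mul_eq_mul_left hm.pos h5
  have h4 : ∑' t : ℤ, (if (m : ℤ) ∣ t ∧ IsSquare t then u t else 0) = QQm F σ c Z N := by
    rw [← hinj.tsum_eq (f := fun t : ℤ => if (m : ℤ) ∣ t ∧ IsSquare t then u t else 0)]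
    · unfold QQm
      refine tsum_congr fun j => ?_
      have h5 : (m : ℤ) ∣ ((m : ℤ) * j) ^ 2 ∧ IsSquare (((m : ℤ) * j) ^ 2) :=
        ⟨⟨(m : ℤ) * j ^ 2, by ring⟩, IsSquare.sq _⟩
      simp only [if_pos h5, hu]
      have e1 : ((((m : ℤ) * j) ^ 2 : ℤ) : ℝ) * Z / (2 * (m : ℝ) ^ 2 * N) =
          (j : ℝ) ^ 2 * Z / (2 * N) := by
        push_cast
        field_simp
      rw [e1, mul_pow, hper, tw_gg_sq hN hmN]
    · intro t ht
      rw [Function.mem_support] at ht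
      by_cases h : (m : ℤ) ∣ t ∧ IsSquare t
      · obtain ⟨h6, r, rfl⟩ := h
        have h7 : m ∣ r.natAbs := by
          have h8 : m ∣ r.natAbs ^ 2 := by
            have h9 := Int.natAbs_dvd_natAbs.2 h6
            rw [Int.natAbs_natCast, Int.natAbs_mul, ← sq] at h9
            exact h9
          exact (hms.dvd_pow_iff_dvd (by norm_num)).1 h8
        obtain ⟨s, hs⟩ := h7
        refine ⟨s, ?_⟩
        simp only
        have h10 : ((m : ℤ) * s) = |r| := by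
          rw [Int.abs_eq_natAbs, hs]
          push_cast
          ring
        rw [h10, sq_abs, sq]
      · rw [if_neg h] at ht
        exact absurd rfl ht
  have h5 : ∑' t : ℤ, (if IsSquare t ∨ ¬ (m : ℤ) ∣ t then 0 else u t) = NSm F σ c m Z N := by
    unfold NSm
    refine tsum_congr fun t => ?_
    by_cases h : IsSquare t ∨ ¬ (m : ℤ) ∣ t
    · simp only [if_pos h]
    · simp only [if_neg h]
      rfl
  rw [h3, h4, h5]

theorem NSm_one (F : ℝ → ℝ) (σ : ℤ) (c : ℤ → ℝ) (Z : ℝ) (N : ℕ) :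
    NSm F σ c 1 Z N = NSc F σ c Z N := by
  classical
  unfold NSm NSc
  refine tsum_congr fun t => ?_
  by_cases h : IsSquare t
  · rw [if_pos (Or.inl h), if_pos h]
  · rw [if_neg (fun h' => h'.elim h (fun h2 => h2 (by simp))), if_neg h]
    congr 2
    push_cast
    ring

theorem NSm_zero (F : ℝ → ℝ) (σ : ℤ) (m : ℕ) (Y : ℝ) (N : ℕ) :
    NSm F σ (fun _ => 0) m Y N = 0 := by
  unfold NSm
  simp

theorem NSc_zero' (F : ℝ → ℝ) (σ : ℤ) (Y : ℝ) (N : ℕ) : NSc F σ (fun _ => 0) Y N = 0 := by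
  unfold NSc
  simp

/-- From the untwisted sum to the sum over the multiples of `m`. -/
theorem tw_PRw (R : ℕ → Prop) (D : ℝ) (c₀ : ℕ) (σ : ℤ) (F : ℝ → ℝ) (m : ℕ) (hm : 0 < m) (X : ℝ)
    (N : ℕ) [∀ d, Decidable (R (m * d))] :
    PRw R D c₀ σ F m X N = jr m N * (1 / (D * (X / m)) * ∑' d : ℕ,
      if R (m * d) then F (d / (X / m)) * jr (2 * σ * ((c₀ * d : ℕ) : ℤ)) N else 0) := by
  classical
  have hmR : (m : ℝ) ≠ 0 := by exact_mod_cast hm.ne'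
  unfold PRw
  rw [tw_sum_mul R (fun d => F (d / X) * jr (2 * σ * ((c₀ * d : ℕ) : ℤ)) N) hm.ne']
  have h1 : ∀ d : ℕ, (if R (m * d) then F (((m * d : ℕ) : ℝ) / X) *
      jr (2 * σ * ((c₀ * (m * d) : ℕ) : ℤ)) N else 0) =
      jr m N * (if R (m * d) then F (d / (X / m)) * jr (2 * σ * ((c₀ * d : ℕ) : ℤ)) N else 0) := by
    intro d
    have e1 : ((m * d : ℕ) : ℝ) / X = d / (X / m) := by
      push_cast
      rw [div_div_eq_mul_div, mul_comm]
    have e2 : (2 * σ * ((c₀ * (m * d) : ℕ) : ℤ)) = m * (2 * σ * ((c₀ * d : ℕ) : ℤ)) := by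
      push_cast
      ring
    split_ifs
    · rw [e1, e2, tw_jr_mul]
      ring
    · ring
  rw [tsum_congr h1, tsum_mul_left]
  have h2 : (m : ℝ) / (D * X) = 1 / (D * (X / m)) := by
    rw [← mul_div_assoc, one_div_div]
  rw [h2]
  ring

/-- The generic twisted formula: from Poisson summation for all residue classes. -/
theorem tw_gen {F : ℝ → ℝ} {a b : ℝ} (ha : 0 < a) (hF : Bump F a b) (σ : ℤ)
    (hσ : σ = 1 ∨ σ = -1) (R : ℕ → Prop) (D : ℝ) (c₀ : ℕ) (c₁ c₂ c₃ : ℤ → ℝ) (k₁ k₂ k₃ : ℝ)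
    (hc₁ : ∀ k, |c₁ k| ≤ 2) (hc₂ : ∀ k, |c₂ k| ≤ 2) (hc₃ : ∀ k, |c₃ k| ≤ 2)
    (hk₁ : 0 < k₁) (hk₂ : 0 < k₂) (hk₃ : 0 < k₃)
    (hp₁ : ∀ m : ℕ, Odd m → ∀ k : ℤ, c₁ ((m : ℤ) ^ 2 * k) = c₁ k)
    (hp₂ : ∀ m : ℕ, Odd m → ∀ k : ℤ, c₂ ((m : ℤ) ^ 2 * k) = c₂ k)
    (hp₃ : ∀ m : ℕ, Odd m → ∀ k : ℤ, c₃ ((m : ℤ) ^ 2 * k) = c₃ k)
    (H : ∀ m : ℕ, Odd m → ∀ N : ℕ, Odd N → ∀ Y : ℝ, 0 < Y →
      1 / (D * Y) * ∑' d : ℕ, (@ite ℝ (R (m * d)) (Classical.dec _)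
        (F (d / Y) * jr (2 * σ * ((c₀ * d : ℕ) : ℤ)) N) 0) =
      ∑' k : ℤ, c₁ (m * k) * gg k N * Ft F σ ((k : ℝ) * (k₁ * Y) / (2 * N)) +
      ∑' k : ℤ, c₂ (m * k) * gg k N * Ft F σ ((k : ℝ) * (k₂ * Y) / (2 * N)) +
      ∑' k : ℤ, c₃ (m * k) * gg k N * Ft F σ ((k : ℝ) * (k₃ * Y) / (2 * N)))
    (m : ℕ) (hm : Odd m) (hms : Squarefree m) (N : ℕ) (hN : Odd N) (hmN : Nat.Coprime m N)
    (X : ℝ) (hX : 0 < X) :
    PRw R D c₀ σ F m X N = (QQm F σ c₁ (k₁ * X) N + QQm F σ c₂ (k₂ * X) N +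
      QQm F σ c₃ (k₃ * X) N) + NSm F σ c₁ m (k₁ * X) N + NSm F σ c₂ m (k₂ * X) N +
      NSm F σ c₃ m (k₃ * X) N := by
  classical
  have hmR : (0 : ℝ) < m := by exact_mod_cast hm.pos
  have h0 := H m hm N hN (X / m) (by positivity)
  have h1 := tw_PRw R D c₀ σ F m hm.pos X N
  have e0 : ∀ d : ℕ, (@ite ℝ (R (m * d)) (Classical.dec _)
        (F (d / (X / m)) * jr (2 * σ * ((c₀ * d : ℕ) : ℤ)) N) 0) =
      if R (m * d) then F (d / (X / m)) * jr (2 * σ * ((c₀ * d : ℕ) : ℤ)) N else 0 := by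
    intro d
    by_cases h : R (m * d)
    · simp only [if_pos h]
    · simp only [if_neg h]
  rw [tsum_congr e0] at h0
  rw [h1, h0]
  have t1 := tw_split ha hF σ hσ N hN (k₁ * X) (by positivity) c₁ hc₁ m hm hms hmN (hp₁ m hm)
  have t2 := tw_split ha hF σ hσ N hN (k₂ * X) (by positivity) c₂ hc₂ m hm hms hmN (hp₂ m hm)
  have t3 := tw_split ha hF σ hσ N hN (k₃ * X) (by positivity) c₃ hc₃ m hm hms hmN (hp₃ m hm)
  simp only [mul_div_assoc k₁ X (m : ℝ), mul_div_assoc k₂ X (m : ℝ),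
    mul_div_assoc k₃ X (m : ℝ)] at t1 t2 t3
  rw [mul_add, mul_add, t1, t2, t3]
  ring

end Pool.Agent.MP0016c7.PC
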