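import Mathlib
import Pool.Agent.Lib.MP_0016c7_nt.PC.TwA
import Pool.Agent.Lib.MP_0016c7_nt.PC.Iface
import Pool.Agent.Lib.MP_0016c7_nt.Rz2.PRs
import Pool.Agent.Lib.MP_0016c7_nt.Rz2.MGr
import Pool.Agent.Lib.MP_0016c7_nt.Rz2.BCG
import Pool.Agent.Lib.MP_0016c7_nt.Rz.MMr
import Pool.Agent.Lib.MP_0016c7_nt.Rz.BBi

set_option autoImplicit false

/-!
The twisted Poisson formula: absolute bounds for the main functions and the family `Odd`.
-/

open Finset MeasureTheory Filter Topology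
open scoped Real ContDiff

namespace Pool.Agent.MP0016c7.PC

open Pool.Agent.MP0016c7.Rz

private theorem tb_sq1_pos (N : ℕ) : 0 < sq1 N := by
  unfold sq1
  exact Finset.prod_pos (fun p hp => (Nat.prime_of_mem_primeFactors (Finset.mem_filter.1 hp).1).pos)

private theorem tb_rho (N : ℕ) : 0 ≤ rhoN N ∧ rhoN N ≤ 1 := by
  unfold rhoN
  have h1 : ∀ p ∈ (sq2 N).primeFactors.filter (fun p => ¬ p ∣ sq1 N),
      0 ≤ 1 - 1 / (p : ℝ) ∧ 1 - 1 / (p : ℝ) ≤ 1 := by
    intro p hp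
    have hp2 : 2 ≤ p := (Nat.prime_of_mem_primeFactors (Finset.mem_filter.1 hp).1).two_le
    have hp3 : (2 : ℝ) ≤ p := by exact_mod_cast hp2
    have h2 : 1 / (p : ℝ) ≤ 1 := by
      rw [div_le_one (by linarith)]
      linarith
    have h3 : 0 ≤ 1 / (p : ℝ) := by positivity
    constructor <;> linarith
  exact ⟨Finset.prod_nonneg fun p hp => (h1 p hp).1,
    Finset.prod_le_one (fun p hp => (h1 p hp).1) fun p hp => (h1 p hp).2⟩

/-- The size of the main function, family `Odd`. -/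
theorem tw_MM_abs {F : ℝ → ℝ} {a b : ℝ} (ha : 0 < a) (hF : Bump F a b)
    (hF0 : 0 < ∫ t, F t) (σ : ℤ) :
    ∃ C : ℝ, 0 ≤ C ∧ ∀ N : ℕ, Odd N → ∀ Y : ℝ, 0 < Y →
      |MM F σ Y N| ≤ C * ((N.divisors.card : ℝ) / √(sq1 N : ℝ)) := by
  obtain ⟨C, hC, hb⟩ := BB_le ha hF hF0 σ
  refine ⟨(∫ t, F t) * (1 + C / 2), by positivity, fun N hN Y hY => ?_⟩
  rw [MM_eq ha hF hF0 σ N hN Y hY, abs_mul, abs_of_pos hF0, mul_assoc]
  apply mul_le_mul_of_nonneg_left _ hF0.le
  obtain ⟨hr0, hr1⟩ := tb_rho N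
  have hN0 : N ≠ 0 := by
    rintro rfl
    simp at hN
  have hq : 1 ≤ sq1 N := tb_sq1_pos N
  have hqR : (1 : ℝ) ≤ sq1 N := by exact_mod_cast hq
  have hs : (0 : ℝ) < √(sq1 N : ℝ) := Real.sqrt_pos.2 (by linarith)
  have hd1 : (1 : ℝ) ≤ N.divisors.card := by
    have : 0 < N.divisors.card := Finset.card_pos.2 ⟨1, Nat.one_mem_divisors.2 hN0⟩
    exact_mod_cast this
  have hdd : ((sq1 N).divisors.card : ℝ) ≤ N.divisors.card := by
    have h1 := sq1_mul_sq2 N hN0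
    have : (sq1 N).divisors ⊆ N.divisors :=
      Nat.divisors_subset_of_dvd hN0 ⟨_, h1.symm⟩
    exact_mod_cast Finset.card_le_card this
  have h1 : |(if sq1 N = 1 then rhoN N else 0)| ≤ (N.divisors.card : ℝ) / √(sq1 N : ℝ) := by
    split_ifs with h
    · rw [h, Nat.cast_one, Real.sqrt_one, div_one, abs_of_nonneg hr0]
      linarith
    · rw [abs_zero]
      positivity
  have h3 : |∑ e ∈ (sq1 N).divisors,
      (ArithmeticFunction.moebius e : ℝ) * BB F σ ((e : ℝ) ^ 2 * Y / (2 * (sq1 N : ℝ)))| ≤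
      C * N.divisors.card := by
    calc |∑ e ∈ (sq1 N).divisors,
      (ArithmeticFunction.moebius e : ℝ) * BB F σ ((e : ℝ) ^ 2 * Y / (2 * (sq1 N : ℝ)))|
        ≤ ∑ e ∈ (sq1 N).divisors, |(ArithmeticFunction.moebius e : ℝ) *
          BB F σ ((e : ℝ) ^ 2 * Y / (2 * (sq1 N : ℝ)))| := Finset.abs_sum_le_sum_abs _ _
      _ ≤ ∑ _e ∈ (sq1 N).divisors, C := by
          apply Finset.sum_le_sum
          intro e he
          have he0 : (0 : ℝ) < e := by exact_mod_cast Nat.pos_of_mem_divisors he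
          rw [abs_mul]
          have h4 : |(ArithmeticFunction.moebius e : ℝ)| ≤ 1 := by
            have := ArithmeticFunction.abs_moebius_le_one (n := e)
            exact_mod_cast this
          have h5 := (hb ((e : ℝ) ^ 2 * Y / (2 * (sq1 N : ℝ))) (by positivity)).1
          calc |(ArithmeticFunction.moebius e : ℝ)| *
              |BB F σ ((e : ℝ) ^ 2 * Y / (2 * (sq1 N : ℝ)))| ≤ 1 * C :=
                mul_le_mul h4 h5 (abs_nonneg _) (by norm_num)
            _ = C := one_mul _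
      _ = ((sq1 N).divisors.card : ℝ) * C := by
          rw [Finset.sum_const, nsmul_eq_mul]
      _ ≤ C * N.divisors.card := by
          rw [mul_comm]
          exact mul_le_mul_of_nonneg_left hdd hC.le
  have h2 : |rhoN N / √(sq1 N : ℝ)| ≤ 1 / √(sq1 N : ℝ) := by
    rw [abs_of_nonneg (by positivity)]
    exact div_le_div_of_nonneg_right hr1 hs.le
  calc |(if sq1 N = 1 then rhoN N else 0) - 1 / 2 * (rhoN N / √(sq1 N : ℝ) *
        ∑ e ∈ (sq1 N).divisors,
        (ArithmeticFunction.moebius e : ℝ) * BB F σ ((e : ℝ) ^ 2 * Y / (2 * (sq1 N : ℝ))))|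
      ≤ |(if sq1 N = 1 then rhoN N else 0)| + |1 / 2 * (rhoN N / √(sq1 N : ℝ) *
        ∑ e ∈ (sq1 N).divisors,
        (ArithmeticFunction.moebius e : ℝ) * BB F σ ((e : ℝ) ^ 2 * Y / (2 * (sq1 N : ℝ))))| :=
        abs_sub _ _
    _ ≤ (N.divisors.card : ℝ) / √(sq1 N : ℝ) +
        1 / 2 * (1 / √(sq1 N : ℝ) * (C * N.divisors.card)) := by
        apply add_le_add h1
        rw [abs_mul, abs_mul, abs_of_pos (by norm_num : (0 : ℝ) < 1 / 2)]
        apply mul_le_mul_of_nonneg_left _ (by norm_num)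
        exact mul_le_mul h2 h3 (abs_nonneg _) (by positivity)
    _ = (1 + C / 2) * ((N.divisors.card : ℝ) / √(sq1 N : ℝ)) := by
        field_simp

private theorem tb_AA_le {F : ℝ → ℝ} (σ : ℤ) {B : ℝ} {N : ℕ}
    (h : ∀ Y : ℝ, 0 < Y → |MM F σ Y N| ≤ B) (Y : ℝ) (hY : 0 < Y) :
    |AA F σ Y N| ≤ B := by
  unfold AA
  have hgeo : HasSum (fun i : ℕ => (1 / 2 : ℝ) ^ (i + 1) * B) B := by
    have h1 := (hasSum_geometric_two).mul_left (1 / 2 * B)
    have e7 : 1 / 2 * B * 2 = B := by ring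
    rw [e7] at h1
    refine h1.congr_fun fun i => ?_
    rw [pow_succ]
    ring
  rw [← Real.norm_eq_abs]
  apply tsum_of_norm_bounded hgeo
  intro i
  rw [Real.norm_eq_abs, abs_mul, abs_of_nonneg (by positivity)]
  exact mul_le_mul_of_nonneg_left (h _ (by positivity)) (by positivity)

/-- The size of the main functions of the families. -/
theorem tw_MG_abs {F : ℝ → ℝ} {a b : ℝ} (ha : 0 < a) (hF : Bump F a b) (hF0 : 0 < ∫ t, F t)
    (σ ε : ℤ) (hε : ε = 0 ∨ ε = 1 ∨ ε = -1) :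
    ∃ C : ℝ, 0 ≤ C ∧ ∀ N : ℕ, Odd N → ∀ Y : ℝ, 0 < Y →
      |MG F σ ε Y N| ≤ C * ((N.divisors.card : ℝ) / √(sq1 N : ℝ)) := by
  obtain ⟨C, hC0, hC⟩ := tw_MM_abs ha hF hF0 σ
  refine ⟨(√2 * 2 + 1) * C, by positivity, fun N hN Y hY => ?_⟩
  have hM := hC N hN
  set B : ℝ := C * ((N.divisors.card : ℝ) / √(sq1 N : ℝ)) with hB
  have hB0 : 0 ≤ B := by positivity
  have hs : 0 ≤ √(2 : ℝ) := Real.sqrt_nonneg 2
  have e0 : (√2 * 2 + 1) * C * ((N.divisors.card : ℝ) / √(sq1 N : ℝ)) = (√2 * 2 + 1) * B := by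
    rw [hB]
    ring
  rw [e0]
  unfold MG
  split_ifs with h0
  · have h1 := hM (Y / 2) (by positivity)
    nlinarith [mul_nonneg hs hB0]
  · have h1 := tb_AA_le σ hM (Y / 4) (by positivity)
    have h2 := tb_AA_le σ hM Y hY
    have h3 := tb_AA_le σ hM (Y / 2) (by positivity)
    have hε1 : |(ε : ℝ)| ≤ 1 := by
      rcases hε with h | h | h <;> rw [h] <;> norm_num
    calc |√2 * ε * (AA F σ (Y / 4) N - AA F σ Y N) + AA F σ (Y / 2) N|
        ≤ |√2 * ε * (AA F σ (Y / 4) N - AA F σ Y N)| + |AA F σ (Y / 2) N| := abs_add_le _ _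
      _ ≤ √2 * 1 * (B + B) + B := by
          apply add_le_add _ h3
          rw [abs_mul, abs_mul, abs_of_nonneg hs]
          apply mul_le_mul
          · exact mul_le_mul_of_nonneg_left hε1 hs
          · exact (abs_sub _ _).trans (add_le_add h1 h2)
          · exact abs_nonneg _
          · positivity
      _ = (√2 * 2 + 1) * B := by ring

/-- The interface statement on the size of the main functions. -/
theorem if_absMG : IF_absMG := by
  intro F a b ha hF hF0 σ _ ε hε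
  obtain ⟨C, _, hC⟩ := tw_MG_abs ha hF hF0 σ ε hε
  exact ⟨C, hC⟩

/-- The kernel of the family `Odd` is admissible. -/
theorem BC_bb {F : ℝ → ℝ} {a b : ℝ} (ha : 0 < a) (hF : Bump F a b) (hF0 : 0 < ∫ t, F t) (σ : ℤ) :
    BC (bb F σ) (BB F σ) := by
  refine ⟨fun A => ?_, fun c hc => ?_, fun c hc hc1 y hy => ?_⟩
  · obtain ⟨C, hC0, hC⟩ := bb_bound ha hF hF0 σ A
    exact ⟨C, hC0, fun z hz => hC z (by linarith)⟩
  · exact continuous_bb ha hF hF0 σ c (by linarith)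
  · exact BB_inversion ha hF hF0 σ c hc (by linarith) y hy

private theorem tb_neg_one (m : ℕ) (hm : Odd m) (k : ℤ) :
    (-1 : ℝ) ^ ((m : ℤ) * k).natAbs = (-1 : ℝ) ^ k.natAbs := by
  rw [Int.natAbs_mul, Int.natAbs_natCast, pow_mul, hm.neg_one_pow]

/-- The twisted Poisson formula for the family of all odd numbers. -/
theorem tw_odd (σ : ℤ) (hσ : σ = 1 ∨ σ = -1) : TwP Odd (1 / 2) 1 σ := by
  classical
  intro F a b ha hF hF0
  obtain ⟨C, hC0, hC⟩ := tw_MM_abs ha hF hF0 σ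
  set c₁ : ℤ → ℝ := fun k => (-1 : ℝ) ^ k.natAbs with hc₁
  have hb₁ : ∀ k, |c₁ k| ≤ 2 := by
    intro k
    rw [hc₁]
    simp only
    rw [abs_pow, abs_neg, abs_one, one_pow]
    norm_num
  have hb₀ : ∀ k : ℤ, |(fun _ : ℤ => (0 : ℝ)) k| ≤ 2 := fun k => by norm_num
  refine ⟨bb F σ, BB F σ, fun Y => MM F σ Y, c₁, fun _ => 0, fun _ => 0, 1, 1, 1, C,
    BC_bb ha hF hF0 σ, hC0, one_pos, one_pos, one_pos, hb₁, hb₀, hb₀, ?_, hC, ?_⟩
  · intro Y hY N hN c hc hc1
    exact MM_repr ha hF hF0 σ N hN Y hY c hc (by linarith)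
  · intro m hm hms N hN hmN X hX
    have hm1 : (1 : ℝ) ≤ m := by exact_mod_cast hm.pos
    have hX0 : 0 < X := by nlinarith
    have hp₁ : ∀ m : ℕ, Odd m → ∀ k : ℤ, c₁ ((m : ℤ) ^ 2 * k) = c₁ k := by
      intro m hm k
      rw [hc₁]
      simp only
      rw [sq, mul_assoc, tb_neg_one m hm, tb_neg_one m hm]
    have H : ∀ m : ℕ, Odd m → ∀ N : ℕ, Odd N → ∀ Y : ℝ, 0 < Y →
      1 / (1 / 2 * Y) * ∑' d : ℕ, (@ite ℝ (Odd (m * d)) (Classical.dec _)
        (F (d / Y) * jr (2 * σ * ((1 * d : ℕ) : ℤ)) N) 0) =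
      ∑' k : ℤ, c₁ (m * k) * gg k N * Ft F σ ((k : ℝ) * (1 * Y) / (2 * N)) +
      ∑' k : ℤ, (fun _ : ℤ => (0 : ℝ)) (m * k) * gg k N *
        Ft F σ ((k : ℝ) * (1 * Y) / (2 * N)) +
      ∑' k : ℤ, (fun _ : ℤ => (0 : ℝ)) (m * k) * gg k N *
        Ft F σ ((k : ℝ) * (1 * Y) / (2 * N)) := by
      intro m hm N hN Y hY
      obtain ⟨_, h2⟩ := poisson_odd ha hF σ hσ N hN Y hY
      have e1 : ∀ d : ℕ, (@ite ℝ (Odd (m * d)) (Classical.dec _)
          (F (d / Y) * jr (2 * σ * ((1 * d : ℕ) : ℤ)) N) 0) =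
          (if Odd d then F (d / Y) * jr (2 * σ * d) N else 0) := by
        intro d
        by_cases h : Odd d
        · rw [if_pos (hm.mul h), if_pos h, one_mul]
        · rw [if_neg (fun h' => h (Nat.odd_mul.1 h').2), if_neg h]
      rw [tsum_congr e1, h2, ← mul_assoc]
      have e2 : 1 / (1 / 2 * Y) * (Y / 2) = 1 := by field_simp
      rw [e2, one_mul]
      simp only [zero_mul, tsum_zero, add_zero, one_mul]
      refine tsum_congr fun k => ?_
      rw [hc₁]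
      simp only
      rw [tb_neg_one m hm]
    have h1 := tw_gen ha hF σ hσ Odd (1 / 2) 1 c₁ (fun _ => 0) (fun _ => 0) 1 1 1 hb₁ hb₀ hb₀
      one_pos one_pos one_pos hp₁ (fun _ _ _ => rfl) (fun _ _ _ => rfl) H m hm hms N hN hmN X hX0
    rw [h1, NSm_zero]
    have h2 : QQm F σ c₁ (1 * X) N = MM F σ X N := by
      unfold QQm MM
      refine tsum_congr fun j => ?_
      have h3 : c₁ ((j : ℤ) ^ 2) = (-1 : ℝ) ^ j := by
        rw [hc₁]
        simp only
        rw [Int.natAbs_pow, Int.natAbs_natCast]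
        by_cases hj : Odd j
        · rw [hj.pow.neg_one_pow, hj.neg_one_pow]
        · rw [Nat.not_odd_iff_even] at hj
          rw [(hj.pow_of_ne_zero (by norm_num)).neg_one_pow, hj.neg_one_pow]
      rw [h3, one_mul]
    have h3 : QQm F σ (fun _ => 0) (1 * X) N = 0 := by
      unfold QQm
      simp
    rw [h2, h3]
    simp only [add_zero, sub_self, abs_zero]
    positivity

end Pool.Agent.MP0016c7.PC
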