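import Mathlib
import Pool.Agent.Lib.MP_0016c7_nt.PC.TwB

set_option autoImplicit false

/-!
The twisted Poisson formula: the residue classes modulo `4` and `8`.
-/

open Finset MeasureTheory Filter Topology
open scoped Real ContDiff

namespace Pool.Agent.MP0016c7.PC

open Pool.Agent.MP0016c7.Rz

private theorem tc_t4_abs (m k : ℤ) : |t4 m k| ≤ 1 := by
  unfold t4
  split_ifs <;> norm_num

private theorem tc_t8_abs (m : ℤ) : |t8 m| ≤ 1 := by
  unfold t8
  split_ifs <;> norm_num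

private theorem tc_sqrt2 : √2 ≤ 2 := by
  have : √2 ≤ √4 := Real.sqrt_le_sqrt (by norm_num)
  rw [show (4 : ℝ) = 2 ^ 2 by norm_num, Real.sqrt_sq (by norm_num)] at this
  exact this

private theorem tc_fin {F : ℝ → ℝ} {a b : ℝ} (hF : Bump F a b) {Y : ℝ} (hY : 0 < Y)
    (g : ℕ → ℝ) (P : ℕ → Prop) [DecidablePred P] :
    Summable (fun d : ℕ => if P d then F (d / Y) * g d else 0) := by
  apply summable_of_hasFiniteSupport
  refine (Set.finite_Iic ⌊b * Y⌋₊).subset ?_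
  intro d hd
  rw [Function.mem_support] at hd
  have h1 : F (d / Y) ≠ 0 := by
    intro h0
    apply hd
    simp [h0]
  have h2 := (hF.supp _ h1).2
  rw [div_lt_iff₀ hY] at h2
  exact Nat.le_floor h2.le

/-- Poisson summation over the class `1` modulo `4`. -/
private theorem tc_poisson4_one {F : ℝ → ℝ} {a b : ℝ} (ha : 0 < a) (hF : Bump F a b) (σ : ℤ)
    (hσ : σ = 1 ∨ σ = -1) (N : ℕ) (hN : Odd N) (Y : ℝ) (hY : 0 < Y) :
    ∑' d : ℕ, (if (σ * d) % 4 = 1 then F (d / Y) * jr (σ * d) N else 0) =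
      Y / 4 * ∑' k : ℤ, (if k % 4 = 0 then 1 else t4 1 k) * gg k N *
        Ft F σ ((k : ℝ) * Y / (4 * N)) := by
  have hNr : (0 : ℝ) < N := by exact_mod_cast hN.pos
  have hcop2 : IsCoprime (2 : ℤ) (N : ℤ) := by
    have := (Nat.coprime_two_left (n := N)).2 hN
    exact_mod_cast Nat.isCoprime_iff_coprime.2 this
  have hcop4 : IsCoprime (4 : ℤ) (N : ℤ) := by
    have : (4 : ℤ) = 2 * 2 := by norm_num
    rw [this]
    exact IsCoprime.mul_left hcop2 hcop2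
  have h4 : jr 4 N = 1 := by
    have : (4 : ℤ) = 2 * 2 := by norm_num
    rw [this, tw_jr_mul, ← sq]
    exact tw_jr_sq_one hN hcop2
  have hterm : ∀ d : ℕ, (if (σ * d) % 4 = 1 then F (d / Y) * jr (σ * d) N else 0) =
      (if (σ * d) % 8 = 1 then F (d / Y) * jr (σ * d) N else 0) +
        (if (σ * d) % 8 = 5 then F (d / Y) * jr (σ * d) N else 0) := by
    intro d
    generalize σ * (d : ℤ) = m
    by_cases h : m % 4 = 1
    · have h3 : m % 8 = 1 ∨ m % 8 = 5 := by omega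
      rcases h3 with h3 | h3
      · have e2 : ¬ m % 8 = 5 := by omega
        rw [if_pos h, if_pos h3, if_neg e2, add_zero]
      · have e1 : ¬ m % 8 = 1 := by omega
        rw [if_pos h, if_neg e1, if_pos h3, zero_add]
    · have e1 : ¬ m % 8 = 1 := by omega
      have e2 : ¬ m % 8 = 5 := by omega
      rw [if_neg h, if_neg e1, if_neg e2, add_zero]
  have hs : ∀ c : ℤ, Summable (fun d : ℕ =>
      if (σ * d) % 8 = c then F (d / Y) * jr (σ * d) N else 0) :=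
    fun c => tc_fin hF hY (fun d => jr (σ * d) N) (fun d : ℕ => (σ * d) % 8 = c)
  rw [tsum_congr hterm, (hs 1).tsum_add (hs 5),
    poisson8c ha hF σ hσ N hN 1 (by norm_num) (by norm_num) Y hY,
    poisson8c ha hF σ hσ N hN 5 (by norm_num) (by norm_num) Y hY, ← mul_add]
  have b1 : ∀ (c : ℤ) (k : ℤ), |√2 * t8 (c * k)| ≤ 2 := by
    intro c k
    rw [abs_mul, abs_of_nonneg (Real.sqrt_nonneg 2)]
    calc √2 * |t8 (c * k)| ≤ 2 * 1 :=
          mul_le_mul tc_sqrt2 (tc_t8_abs _) (abs_nonneg _) (by norm_num)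
      _ = 2 := by norm_num
  have s8 : ∀ c : ℤ, Summable (fun k : ℤ => √2 * t8 (c * k) * gg k N *
      Ft F σ ((k : ℝ) * Y / (8 * N))) := fun c => by
    refine (tw_sum ha hF σ hσ N hN (Y / 4) (by positivity) (fun k => √2 * t8 (c * k))
      (b1 c)).congr fun k => ?_
    congr 2
    field_simp
    ring
  have s4 : ∀ c : ℤ, Summable (fun k : ℤ => t4 c k * gg k N *
      Ft F σ ((k : ℝ) * Y / (4 * N))) := fun c => by
    refine (tw_sum ha hF σ hσ N hN (Y / 2) (by positivity) (fun k => t4 c k)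
      (fun k => (tc_t4_abs c k).trans (by norm_num))).congr fun k => ?_
    congr 2
    field_simp
    norm_num
  have s1 : Summable (fun k : ℤ => gg k N * Ft F σ ((k : ℝ) * Y / N)) := by
    refine (tw_sum ha hF σ hσ N hN (2 * Y) (by positivity) (fun _ => 1)
      (fun k => by norm_num)).congr fun k => ?_
    rw [one_mul]
    congr 2
    field_simp
  have sI : ∀ c : ℤ, Summable (fun k : ℤ => gg k N * (√2 * t8 (c * k) *
      Ft F σ ((k : ℝ) * Y / (8 * N)) + t4 c k * Ft F σ ((k : ℝ) * Y / (4 * N)) +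
        Ft F σ ((k : ℝ) * Y / N))) := fun c => by
    refine (((s8 c).add (s4 c)).add s1).congr fun k => ?_
    ring
  rw [← (sI 1).tsum_add (sI 5)]
  have h8 : ∀ k : ℤ, t8 (5 * k) = -t8 (1 * k) := by
    intro k
    unfold t8
    have h8 : k % 8 = 0 ∨ k % 8 = 1 ∨ k % 8 = 2 ∨ k % 8 = 3 ∨ k % 8 = 4 ∨ k % 8 = 5 ∨
      k % 8 = 6 ∨ k % 8 = 7 := by omega
    rw [Int.mul_emod 5 k, Int.mul_emod 1 k]
    rcases h8 with h | h | h | h | h | h | h | h <;> rw [h] <;> norm_num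
  have h45 : ∀ k : ℤ, t4 5 k = t4 1 k := by
    intro k
    unfold t4
    have : (5 * k) % 4 = (1 * k) % 4 := by omega
    rw [this]
  have hT : ∀ k : ℤ, gg k N * (√2 * t8 (1 * k) *
      Ft F σ ((k : ℝ) * Y / (8 * N)) + t4 1 k * Ft F σ ((k : ℝ) * Y / (4 * N)) +
        Ft F σ ((k : ℝ) * Y / N)) + gg k N * (√2 * t8 (5 * k) *
      Ft F σ ((k : ℝ) * Y / (8 * N)) + t4 5 k * Ft F σ ((k : ℝ) * Y / (4 * N)) +
        Ft F σ ((k : ℝ) * Y / N)) = 2 * (t4 1 k * gg k N * Ft F σ ((k : ℝ) * Y / (4 * N)) +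
        gg k N * Ft F σ ((k : ℝ) * Y / N)) := by
    intro k
    rw [h8 k, h45 k]
    ring
  rw [tsum_congr hT, tsum_mul_left, (s4 1).tsum_add s1]
  have s4' : Summable (fun k : ℤ => gg k N * Ft F σ ((k : ℝ) * Y / (4 * N))) := by
    refine (tw_sum ha hF σ hσ N hN (Y / 2) (by positivity) (fun _ => 1)
      (fun k => by norm_num)).congr fun k => ?_
    rw [one_mul]
    congr 2
    field_simp
    norm_num
  have h3 : ∑' k : ℤ, gg k N * Ft F σ ((k : ℝ) * Y / N) =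
      ∑' k : ℤ, (if (4 : ℤ) ∣ k then gg k N * Ft F σ ((k : ℝ) * Y / (4 * N)) else 0) := by
    rw [tw_sum_mulZ (fun k : ℤ => gg k N * Ft F σ ((k : ℝ) * Y / (4 * N))) (by norm_num)]
    refine tsum_congr fun k => ?_
    have e2 : ((4 * k : ℤ) : ℝ) * Y / (4 * N) = (k : ℝ) * Y / N := by
      push_cast
      field_simp
    rw [e2, tw_gg_mul hN 4 hcop4, h4, one_mul]
  have s3 : Summable (fun k : ℤ =>
      if (4 : ℤ) ∣ k then gg k N * Ft F σ ((k : ℝ) * Y / (4 * N)) else 0) := by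
    refine Summable.of_norm_bounded s4'.norm fun x => ?_
    split_ifs
    · exact le_rfl
    · rw [norm_zero]
      exact norm_nonneg _
  have hfin : ∑' k : ℤ, (if k % 4 = 0 then 1 else t4 1 k) * gg k N *
        Ft F σ ((k : ℝ) * Y / (4 * N)) =
      ∑' k : ℤ, t4 1 k * gg k N * Ft F σ ((k : ℝ) * Y / (4 * N)) +
      ∑' k : ℤ, (if (4 : ℤ) ∣ k then gg k N * Ft F σ ((k : ℝ) * Y / (4 * N)) else 0) := by
    rw [← (s4 1).tsum_add s3]
    refine tsum_congr fun k => ?_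
    by_cases h : k % 4 = 0
    · have e1 : (4 : ℤ) ∣ k := by omega
      have e2 : t4 1 k = 0 := by
        unfold t4
        have h1 : ¬ (1 * k) % 4 = 1 := by omega
        have h2 : ¬ (1 * k) % 4 = 3 := by omega
        have h3 : ¬ k % 4 = 2 := by omega
        rw [if_neg h1, if_neg h2, if_neg h3]
      rw [if_pos h, if_pos e1, e2]
      ring
    · have e1 : ¬ (4 : ℤ) ∣ k := by omega
      rw [if_neg h, if_neg e1]
      ring
  rw [hfin, h3]
  ring

/-- Poisson summation over an odd class modulo `4`. -/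
theorem tw_poisson4 {F : ℝ → ℝ} {a b : ℝ} (ha : 0 < a) (hF : Bump F a b) (σ : ℤ)
    (hσ : σ = 1 ∨ σ = -1) (N : ℕ) (hN : Odd N) (c : ℤ) (hc : c = 1 ∨ c = 3) (Y : ℝ)
    (hY : 0 < Y) :
    ∑' d : ℕ, (if (σ * d) % 4 = c then F (d / Y) * jr (σ * d) N else 0) =
      Y / 4 * ∑' k : ℤ, (if k % 4 = 0 then 1 else t4 c k) * gg k N *
        Ft F σ ((k : ℝ) * Y / (4 * N)) := by
  rcases hc with rfl | rfl
  · exact tc_poisson4_one ha hF σ hσ N hN Y hY
  · exact poisson4c ha hF σ hσ N hN Y hY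

private theorem tc_mod4 (k : ℤ) : (k * k) % 4 = 0 ∨ (k * k) % 4 = 1 := by
  have h : k % 4 = 0 ∨ k % 4 = 1 ∨ k % 4 = 2 ∨ k % 4 = 3 := by omega
  rcases h with h | h | h | h <;> rw [Int.mul_emod, h] <;> norm_num

private theorem tc_mod8 (k : ℤ) : (k * k) % 8 = 0 ∨ (k * k) % 8 = 1 ∨ (k * k) % 8 = 4 := by
  have h : k % 8 = 0 ∨ k % 8 = 1 ∨ k % 8 = 2 ∨ k % 8 = 3 ∨ k % 8 = 4 ∨ k % 8 = 5 ∨ k % 8 = 6 ∨
      k % 8 = 7 := by omega
  rcases h with h | h | h | h | h | h | h | h <;> rw [Int.mul_emod, h] <;> norm_num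

private theorem tc_odd_sq {m : ℕ} (hm : Odd m) : ((m : ℤ) ^ 2) % 8 = 1 := by
  have h1 : (m : ℤ) % 8 = 1 ∨ (m : ℤ) % 8 = 3 ∨ (m : ℤ) % 8 = 5 ∨ (m : ℤ) % 8 = 7 := by
    have := Nat.odd_iff.1 hm
    omega
  rw [sq, Int.mul_emod]
  rcases h1 with h | h | h | h <;> rw [h] <;> norm_num

private theorem tc_sq_mul8 {m : ℕ} (hm : Odd m) (k : ℤ) : ((m : ℤ) ^ 2 * k) % 8 = k % 8 := by
  rw [Int.mul_emod, tc_odd_sq hm, one_mul, Int.emod_emod_of_dvd _ (dvd_refl 8)]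

private theorem tc_sq_mul4 {m : ℕ} (hm : Odd m) (k : ℤ) : ((m : ℤ) ^ 2 * k) % 4 = k % 4 := by
  have := tc_sq_mul8 hm k
  omega

private theorem tc_odd4 {m : ℕ} (hm : Odd m) : (m : ℤ) % 4 = 1 ∨ (m : ℤ) % 4 = 3 := by
  have := Nat.odd_iff.1 hm
  omega

private theorem tc_mul4 {m : ℕ} (hm : Odd m) (k : ℤ) :
    (((m : ℤ) * k) % 4 = 0 ↔ k % 4 = 0) ∧ (((m : ℤ) * k) % 4 = 2 ↔ k % 4 = 2) := by
  have h : k % 4 = 0 ∨ k % 4 = 1 ∨ k % 4 = 2 ∨ k % 4 = 3 := by omega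
  rw [Int.mul_emod]
  rcases tc_odd4 hm with h1 | h1 <;> rcases h with h | h | h | h <;> rw [h1, h] <;> norm_num

private theorem tc_t4_mul {m : ℕ} (hm : Odd m) (c k : ℤ) :
    t4 c ((m : ℤ) * k) = t4 ((c * m) % 8) k := by
  unfold t4
  have e1 : (c * ((m : ℤ) * k)) % 4 = (((c * m) % 8) * k) % 4 := by
    rw [← mul_assoc, Int.mul_emod, Int.mul_emod ((c * m) % 8) k, Int.emod_emod_of_dvd _
      (by norm_num : (4 : ℤ) ∣ 8)]
  rw [e1]
  simp only [(tc_mul4 hm k).2]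

private theorem tc_t4_mul' {m : ℕ} (hm : Odd m) (c k : ℤ) :
    t4 c ((m : ℤ) * k) = t4 ((c * m) % 4) k := by
  unfold t4
  have e1 : (c * ((m : ℤ) * k)) % 4 = (((c * m) % 4) * k) % 4 := by
    rw [← mul_assoc, Int.mul_emod, Int.mul_emod ((c * m) % 4) k, Int.emod_emod_of_dvd _
      (dvd_refl (4 : ℤ))]
  rw [e1]
  simp only [(tc_mul4 hm k).2]

private theorem tc_t4_sq {m : ℕ} (hm : Odd m) (c k : ℤ) : t4 c ((m : ℤ) ^ 2 * k) = t4 c k := by
  unfold t4
  have e1 : (c * ((m : ℤ) ^ 2 * k)) % 4 = (c * k) % 4 := by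
    rw [Int.mul_emod, tc_sq_mul4 hm, ← Int.mul_emod]
  rw [e1, tc_sq_mul4 hm]

private theorem tc_t8_sq {m : ℕ} (hm : Odd m) (c k : ℤ) :
    t8 (c * ((m : ℤ) ^ 2 * k)) = t8 (c * k) := by
  unfold t8
  have e1 : (c * ((m : ℤ) ^ 2 * k)) % 8 = (c * k) % 8 := by
    rw [Int.mul_emod, tc_sq_mul8 hm, ← Int.mul_emod]
  rw [e1]

private theorem tc_t8_mul {m : ℕ} (c k : ℤ) : t8 (c * ((m : ℤ) * k)) = t8 (((c * m) % 8) * k) := by
  unfold t8
  have e1 : (c * ((m : ℤ) * k)) % 8 = (((c * m) % 8) * k) % 8 := by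
    rw [← mul_assoc, Int.mul_emod, Int.mul_emod ((c * m) % 8) k, Int.emod_emod_of_dvd _
      (dvd_refl (8 : ℤ))]
  rw [e1]

private theorem tc_Q0 (F : ℝ → ℝ) (σ : ℤ) (Z : ℝ) (N : ℕ) : QQm F σ (fun _ => 0) Z N = 0 := by
  unfold QQm
  simp

/-- The twisted Poisson formula for the family of the class `3` modulo `4`. -/
theorem tw_four (σ : ℤ) (hσ : σ = 1 ∨ σ = -1) : TwP (Rf 4 3 σ) (1 / 4) 2 σ := by
  classical
  intro F a b ha hF hF0
  obtain ⟨C, hC0, hC⟩ := tw_MG_abs ha hF hF0 σ 0 (Or.inl rfl)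
  set c₂ : ℤ → ℝ := fun k => if k % 4 = 0 then 1 else t4 3 k with hc₂
  have hb₂ : ∀ k, |c₂ k| ≤ 2 := by
    intro k
    rw [hc₂]
    simp only
    split_ifs
    · norm_num
    · exact (tc_t4_abs 3 k).trans (by norm_num)
  have hb₀ : ∀ k : ℤ, |(fun _ : ℤ => (0 : ℝ)) k| ≤ 2 := fun k => by norm_num
  have hp₂ : ∀ m : ℕ, Odd m → ∀ k : ℤ, c₂ ((m : ℤ) ^ 2 * k) = c₂ k := by
    intro m hm k
    rw [hc₂]
    simp only
    rw [tc_sq_mul4 hm, tc_t4_sq hm]
  have H : ∀ m : ℕ, Odd m → ∀ N : ℕ, Odd N → ∀ Y : ℝ, 0 < Y →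
      1 / (1 / 4 * Y) * ∑' d : ℕ, (@ite ℝ (Rf 4 3 σ (m * d)) (Classical.dec _)
        (F (d / Y) * jr (2 * σ * ((2 * d : ℕ) : ℤ)) N) 0) =
      ∑' k : ℤ, (fun _ : ℤ => (0 : ℝ)) (m * k) * gg k N *
        Ft F σ ((k : ℝ) * (1 * Y) / (2 * N)) +
      ∑' k : ℤ, c₂ (m * k) * gg k N * Ft F σ ((k : ℝ) * (1 / 2 * Y) / (2 * N)) +
      ∑' k : ℤ, (fun _ : ℤ => (0 : ℝ)) (m * k) * gg k N *
        Ft F σ ((k : ℝ) * (1 * Y) / (2 * N)) := by
    intro m hm N hN Y hY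
    have hNr : (0 : ℝ) < N := by exact_mod_cast hN.pos
    have hcop2 : IsCoprime (2 : ℤ) (N : ℤ) := by
      have := (Nat.coprime_two_left (n := N)).2 hN
      exact_mod_cast Nat.isCoprime_iff_coprime.2 this
    have h4 : jr 4 N = 1 := by
      have : (4 : ℤ) = 2 * 2 := by norm_num
      rw [this, tw_jr_mul, ← sq]
      exact tw_jr_sq_one hN hcop2
    set c' : ℤ := (3 * (m : ℤ)) % 4 with hc'
    have hc13 : c' = 1 ∨ c' = 3 := by
      rcases tc_odd4 hm with h | h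
      · right
        omega
      · left
        omega
    have e1 : ∀ d : ℕ, (@ite ℝ (Rf 4 3 σ (m * d)) (Classical.dec _)
        (F (d / Y) * jr (2 * σ * ((2 * d : ℕ) : ℤ)) N) 0) =
        (if (σ * d) % 4 = c' then F (d / Y) * jr (σ * d) N else 0) := by
      intro d
      have e2 : (2 * σ * ((2 * d : ℕ) : ℤ)) = 4 * (σ * d) := by
        push_cast
        ring
      rw [e2, tw_jr_mul, h4, one_mul]
      have e3 : Rf 4 3 σ (m * d) ↔ (σ * d) % 4 = c' := by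
        unfold Rf
        have e4 : (σ * ((m * d : ℕ) : ℤ)) % 4 = (((m : ℤ) % 4) * ((σ * d) % 4)) % 4 := by
          rw [← Int.mul_emod]
          congr 1
          push_cast
          ring
        have h5 : (σ * (d : ℤ)) % 4 = 0 ∨ (σ * (d : ℤ)) % 4 = 1 ∨ (σ * (d : ℤ)) % 4 = 2 ∨
          (σ * (d : ℤ)) % 4 = 3 := by omega
        have h6 : ((σ * ((m * d : ℕ) : ℤ)) % 4 = 3) ↔ (σ * d) % 4 = c' := by
          rw [e4, hc', Int.mul_emod 3]
          rcases tc_odd4 hm with h | h <;> rcases h5 with h5 | h5 | h5 | h5 <;> rw [h, h5] <;>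
            norm_num
        rw [h6]
        constructor
        · exact fun h => h.1
        · intro h
          refine ⟨h, ?_⟩
          rintro ⟨k, hk⟩
          have h7 := h6.2 h
          rw [hk] at h7
          have := tc_mod4 k
          omega
      by_cases h : (σ * (d : ℤ)) % 4 = c'
      · rw [if_pos (e3.2 h), if_pos h]
      · rw [if_neg (fun h' => h (e3.1 h')), if_neg h]
    rw [tsum_congr e1, tw_poisson4 ha hF σ hσ N hN c' hc13 Y hY, ← mul_assoc]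
    have e2 : 1 / (1 / 4 * Y) * (Y / 4) = 1 := by field_simp
    rw [e2, one_mul]
    simp only [zero_mul, tsum_zero, add_zero, zero_add]
    refine tsum_congr fun k => ?_
    have e5 : c₂ (m * k) = if k % 4 = 0 then 1 else t4 c' k := by
      rw [hc₂]
      simp only [(tc_mul4 hm k).1]
      rw [tc_t4_mul' hm]
    have e6 : (k : ℝ) * (1 / 2 * Y) / (2 * N) = (k : ℝ) * Y / (4 * N) := by
      field_simp
      norm_num
    rw [e5, e6]
  have hgen := tw_gen ha hF σ hσ (Rf 4 3 σ) (1 / 4) 2 (fun _ => 0) c₂ (fun _ => 0) 1 (1 / 2) 1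
    hb₀ hb₂ hb₀ one_pos (by norm_num) one_pos (fun _ _ _ => rfl) hp₂ (fun _ _ _ => rfl) H
  have hQ : ∀ N : ℕ, Odd N → ∀ X : ℝ, 0 < X → QQm F σ c₂ (1 / 2 * X) N = MG F σ 0 X N := by
    intro N hN X hX
    have h1 := hgen 1 odd_one squarefree_one N hN (Nat.coprime_one_left N) X hX
    have h2 := H 1 odd_one N hN X hX
    have h3 := psplit4 ha hF σ hσ N hN X hX
    rw [tw_PRw _ _ _ _ _ 1 one_pos] at h1
    have hcop2 : IsCoprime (2 : ℤ) (N : ℤ) := by
      have := (Nat.coprime_two_left (n := N)).2 hN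
      exact_mod_cast Nat.isCoprime_iff_coprime.2 this
    have h4 : jr 4 N = 1 := by
      have : (4 : ℤ) = 2 * 2 := by norm_num
      rw [this, tw_jr_mul, ← sq]
      exact tw_jr_sq_one hN hcop2
    have hj1 : jr ((1 : ℕ) : ℤ) N = 1 := by
      have := tw_jr_sq (m := 1) hN (Nat.coprime_one_left N)
      simpa using this
    have e1 : ∀ d : ℕ, (if Rf 4 3 σ (1 * d) then F (d / (X / ((1 : ℕ) : ℝ))) *
        jr (2 * σ * ((2 * d : ℕ) : ℤ)) N else 0) =
        (if (σ * d) % 4 = 3 then F (d / X) * jr (σ * d) N else 0) := by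
      intro d
      have e2 : (2 * σ * ((2 * d : ℕ) : ℤ)) = 4 * (σ * d) := by
        push_cast
        ring
      rw [e2, tw_jr_mul, h4, one_mul, one_mul, Nat.cast_one, div_one]
      by_cases h : (σ * (d : ℤ)) % 4 = 3
      · have h5 : Rf 4 3 σ d := by
          refine ⟨h, ?_⟩
          rintro ⟨k, hk⟩
          rw [hk] at h
          have := tc_mod4 k
          omega
        rw [if_pos h5, if_pos h]
      · rw [if_neg (fun h' => h h'.1), if_neg h]
    rw [tsum_congr e1, hj1, one_mul, Nat.cast_one, div_one] at h1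
    have e3 : (1 : ℝ) / (1 / 4 * X) = 4 / X := by
      field_simp
    rw [e3, h3, tc_Q0, NSm_zero, NSm_one] at h1
    have e4 : (1 : ℝ) / 2 * X = X / 2 := by ring
    rw [e4] at h1 ⊢
    have h6 : MG F σ 0 X N = MM F σ (X / 2) N := by
      unfold MG
      rw [if_pos rfl]
    rw [h6]
    linarith
  refine ⟨bG F σ 0, BG F σ 0, fun Y => MG F σ 0 Y, fun _ => 0, c₂, fun _ => 0, 1, 1 / 2, 1, C,
    BC_bG ha hF hF0 σ 0 (Or.inl rfl), hC0, one_pos, by norm_num, one_pos, hb₀, hb₂, hb₀,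
    fun Y hY => MG_repr ha hF hF0 σ 0 (Or.inl rfl) Y hY, hC, ?_⟩
  intro m hm hms N hN hmN X hX
  have hm1 : (1 : ℝ) ≤ m := by exact_mod_cast hm.pos
  have hX0 : 0 < X := by nlinarith
  rw [hgen m hm hms N hN hmN X hX0, tc_Q0, NSm_zero, hQ N hN X hX0]
  simp only [add_zero, zero_add, sub_self, abs_zero]
  positivity

end Pool.Agent.MP0016c7.PC
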