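import Mathlib
import Pool.Agent.Lib.MP_0016c7_nt.PC.TwC

set_option autoImplicit false

/-!
The twisted Poisson formula: the classes `1` and `5` modulo `8`, and the interface statement.
-/

open Finset MeasureTheory Filter Topology
open scoped Real ContDiff

namespace Pool.Agent.MP0016c7.PC

open Pool.Agent.MP0016c7.Rz

private theorem td_t4_abs (m k : ℤ) : |t4 m k| ≤ 1 := by
  unfold t4
  split_ifs <;> norm_num

private theorem td_t8_abs (m : ℤ) : |t8 m| ≤ 1 := by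
  unfold t8
  split_ifs <;> norm_num

private theorem td_sqrt2 : √2 ≤ 2 := by
  have : √2 ≤ √4 := Real.sqrt_le_sqrt (by norm_num)
  rw [show (4 : ℝ) = 2 ^ 2 by norm_num, Real.sqrt_sq (by norm_num)] at this
  exact this

private theorem td_fin {F : ℝ → ℝ} {a b : ℝ} (hF : Bump F a b) {Y : ℝ} (hY : 0 < Y)
    (g : ℕ → ℝ) (P : ℕ → Prop) [DecidablePred P] :
    Summable (fun d : ℕ => if P d then F (d / Y) * g d else 0) := by
  apply summable_of_hasFiniteSupport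
  refine (Set.finite_Iic ⌊b * Y⌋₊).subset ?_
  intro d hd
  rw [Function.mem_support] at hd
  have h1 : F (d / Y) ≠ 0 := by
    intro h0
    apply hd
    simp [h0]
  have h2 := (hF.supp _ h1).2
  rw [div_lt_iff₀ hY] at h2
  exact Nat.le_floor h2.le

/-- The twisted sum with the classical decidability instance. -/
theorem PRw_eq (R : ℕ → Prop) (D : ℝ) (c₀ : ℕ) (σ : ℤ) (F : ℝ → ℝ) (m : ℕ) (X : ℝ) (N : ℕ) :
    PRw R D c₀ σ F m X N = m / (D * X) * ∑' d : ℕ, (@ite ℝ (R d ∧ m ∣ d) (Classical.dec _)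
      (F (d / X) * jr (2 * σ * ((c₀ * d : ℕ) : ℤ)) N) 0) := by
  classical
  unfold PRw
  congr 1
  refine tsum_congr fun d => ?_
  by_cases h : R d ∧ m ∣ d
  · simp only [if_pos h]
  · simp only [if_neg h]

private theorem td_mod8 (k : ℤ) : (k * k) % 8 = 0 ∨ (k * k) % 8 = 1 ∨ (k * k) % 8 = 4 := by
  have h : k % 8 = 0 ∨ k % 8 = 1 ∨ k % 8 = 2 ∨ k % 8 = 3 ∨ k % 8 = 4 ∨ k % 8 = 5 ∨ k % 8 = 6 ∨
      k % 8 = 7 := by omega
  rcases h with h | h | h | h | h | h | h | h <;> rw [Int.mul_emod, h] <;> norm_num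

private theorem td_odd_sq {m : ℕ} (hm : Odd m) : ((m : ℤ) ^ 2) % 8 = 1 := by
  have h1 : (m : ℤ) % 8 = 1 ∨ (m : ℤ) % 8 = 3 ∨ (m : ℤ) % 8 = 5 ∨ (m : ℤ) % 8 = 7 := by
    have := Nat.odd_iff.1 hm
    omega
  rw [sq, Int.mul_emod]
  rcases h1 with h | h | h | h <;> rw [h] <;> norm_num

private theorem td_sq_mul8 {m : ℕ} (hm : Odd m) (k : ℤ) : ((m : ℤ) ^ 2 * k) % 8 = k % 8 := by
  rw [Int.mul_emod, td_odd_sq hm, one_mul, Int.emod_emod_of_dvd _ (dvd_refl 8)]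

private theorem td_sq_mul4 {m : ℕ} (hm : Odd m) (k : ℤ) : ((m : ℤ) ^ 2 * k) % 4 = k % 4 := by
  have := td_sq_mul8 hm k
  omega

private theorem td_mul4 {m : ℕ} (hm : Odd m) (k : ℤ) :
    (((m : ℤ) * k) % 4 = 2 ↔ k % 4 = 2) := by
  have h0 : (m : ℤ) % 4 = 1 ∨ (m : ℤ) % 4 = 3 := by
    have := Nat.odd_iff.1 hm
    omega
  have h : k % 4 = 0 ∨ k % 4 = 1 ∨ k % 4 = 2 ∨ k % 4 = 3 := by omega
  rw [Int.mul_emod]
  rcases h0 with h1 | h1 <;> rcases h with h | h | h | h <;> rw [h1, h] <;> norm_num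

private theorem td_t4_mul {m : ℕ} (hm : Odd m) (c k : ℤ) :
    t4 c ((m : ℤ) * k) = t4 ((c * m) % 8) k := by
  unfold t4
  have e1 : (c * ((m : ℤ) * k)) % 4 = (((c * m) % 8) * k) % 4 := by
    rw [← mul_assoc, Int.mul_emod, Int.mul_emod ((c * m) % 8) k, Int.emod_emod_of_dvd _
      (by norm_num : (4 : ℤ) ∣ 8)]
  rw [e1]
  simp only [td_mul4 hm k]

private theorem td_t4_sq {m : ℕ} (hm : Odd m) (c k : ℤ) : t4 c ((m : ℤ) ^ 2 * k) = t4 c k := by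
  unfold t4
  have e1 : (c * ((m : ℤ) ^ 2 * k)) % 4 = (c * k) % 4 := by
    rw [Int.mul_emod, td_sq_mul4 hm, ← Int.mul_emod]
  rw [e1, td_sq_mul4 hm]

private theorem td_t8_sq {m : ℕ} (hm : Odd m) (c k : ℤ) :
    t8 (c * ((m : ℤ) ^ 2 * k)) = t8 (c * k) := by
  unfold t8
  have e1 : (c * ((m : ℤ) ^ 2 * k)) % 8 = (c * k) % 8 := by
    rw [Int.mul_emod, td_sq_mul8 hm, ← Int.mul_emod]
  rw [e1]

private theorem td_t8_mul {m : ℕ} (c k : ℤ) : t8 (c * ((m : ℤ) * k)) = t8 (((c * m) % 8) * k) := by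
  unfold t8
  have e1 : (c * ((m : ℤ) * k)) % 8 = (((c * m) % 8) * k) % 8 := by
    rw [← mul_assoc, Int.mul_emod, Int.mul_emod ((c * m) % 8) k, Int.emod_emod_of_dvd _
      (dvd_refl (8 : ℤ))]
  rw [e1]

private theorem td_pol (F : ℝ → ℝ) (σ ε : ℤ) {Y : ℝ} (hY : 0 < Y) (N : ℕ) :
    √2 * ε * (pol F σ (Y / 4) N - pol F σ Y N) + pol F σ (Y / 2) N =
      (1 + ε) * ((∏ p ∈ N.primeFactors, (1 - 1 / (p : ℝ))) *
        ((1 + σ) / 2 * ∫ t : ℝ, F t / √t)) / √Y := by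
  unfold pol
  set P := (∏ p ∈ N.primeFactors, (1 - 1 / (p : ℝ))) * ((1 + σ) / 2 * ∫ t : ℝ, F t / √t) with hP
  have h2 : 0 < √2 := by positivity
  have hs : 0 < √Y := Real.sqrt_pos.2 hY
  have hss : √2 * √2 = 2 := Real.mul_self_sqrt (by norm_num)
  have e1 : √(2 * (Y / 4)) = √Y / √2 := by
    rw [show 2 * (Y / 4) = Y / 2 by ring, Real.sqrt_div hY.le]
  have e2 : √(2 * Y) = √2 * √Y := Real.sqrt_mul (by norm_num) Y
  have e3 : √(2 * (Y / 2)) = √Y := by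
    rw [show 2 * (Y / 2) = Y by ring]
  rw [e1, e2, e3]
  field_simp
  have h3 : √2 ^ 2 = 2 := by rw [sq]; exact hss
  rw [h3]
  ring

private theorem td_sq_iff {m : ℕ} (hm : Odd m) (d : ℕ) :
    (((m ^ 2 * d : ℕ) : ℤ) % 8 = 1 ∧ IsSquare ((m ^ 2 * d : ℕ) : ℤ)) ↔
      (IsSquare (d : ℤ) ∧ Odd d) := by
  have hm0 : (m : ℤ) ≠ 0 := by exact_mod_cast hm.pos.ne'
  have e0 : ((m ^ 2 * d : ℕ) : ℤ) = (m : ℤ) ^ 2 * d := by push_cast; ring
  rw [e0, td_sq_mul8 hm]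
  constructor
  · rintro ⟨h1, r, hr⟩
    have h2 : (m : ℤ) ∣ r := by
      have h3 : (m : ℤ) ^ 2 ∣ r ^ 2 := ⟨d, by rw [sq r, ← hr]⟩
      exact (Int.pow_dvd_pow_iff (by norm_num)).1 h3
    obtain ⟨s, rfl⟩ := h2
    refine ⟨⟨s, ?_⟩, ?_⟩
    · have h4 : (m : ℤ) ^ 2 * d = (m : ℤ) ^ 2 * (s * s) := by rw [hr]; ring
      exact mul_left_cancel₀ (pow_ne_zero _ hm0) h4
    · rw [Nat.odd_iff]
      omega
  · rintro ⟨h1, h2⟩
    obtain ⟨k, hk⟩ := h1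
    have h8 := td_mod8 k
    rw [← hk] at h8
    have h3 := Nat.odd_iff.1 h2
    refine ⟨by omega, (m : ℤ) * k, ?_⟩
    rw [hk]
    ring

open Classical in
/-- The squares, for `σ = 1`. -/
private theorem td_PRw_sq (F : ℝ → ℝ) (m : ℕ) (hm : Odd m) (hms : Squarefree m) (N : ℕ)
    (hN : Odd N) (hmN : Nat.Coprime m N) (X : ℝ) (hX : 0 < X) :
    PRw (fun d : ℕ => ((1 : ℤ) * d) % 8 = 1 ∧ IsSquare ((1 : ℤ) * (d : ℤ))) (1 / 8) 2 1 F m X N =
      8 * m / X * ∑' d : ℕ, (if IsSquare (d : ℤ) ∧ Odd d then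
        F (d / (X / (m : ℝ) ^ 2)) * jr d N else 0) := by
  have hmR : (0 : ℝ) < m := by exact_mod_cast hm.pos
  have hcop2 : IsCoprime (2 : ℤ) (N : ℤ) := by
    have := (Nat.coprime_two_left (n := N)).2 hN
    exact_mod_cast Nat.isCoprime_iff_coprime.2 this
  have h4 : jr 4 N = 1 := by
    have : (4 : ℤ) = 2 * 2 := by norm_num
    rw [this, tw_jr_mul, ← sq]
    exact tw_jr_sq_one hN hcop2
  rw [PRw_eq]
  have e0 : (m : ℝ) / (1 / 8 * X) = 8 * m / X := by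
    field_simp
  rw [e0]
  congr 1
  set g : ℕ → ℝ := fun d => (@ite ℝ ((fun d : ℕ => ((1 : ℤ) * d) % 8 = 1 ∧
    IsSquare ((1 : ℤ) * (d : ℤ))) d ∧ m ∣ d) (Classical.dec _)
    (F (d / X) * jr (2 * 1 * ((2 * d : ℕ) : ℤ)) N) 0) with hg
  have hinj : Function.Injective (fun d : ℕ => m ^ 2 * d) := fun a b h =>
    Nat.eq_of_mul_eq_mul_left (pow_pos hm.pos 2) h
  have h1 : ∑' d, g d = ∑' d, g (m ^ 2 * d) := by
    rw [← hinj.tsum_eq (f := g)]
    intro d hd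
    rw [Function.mem_support] at hd
    by_cases h : (((1 : ℤ) * d) % 8 = 1 ∧ IsSquare ((1 : ℤ) * (d : ℤ))) ∧ m ∣ d
    · obtain ⟨⟨_, r, hr⟩, h6⟩ := h
      rw [one_mul] at hr
      have h7 : d = r.natAbs ^ 2 := by
        have : (d : ℤ) = ((r.natAbs ^ 2 : ℕ) : ℤ) := by
          rw [hr]
          push_cast
          rw [sq_abs, sq]
        exact_mod_cast this
      have h8 : m ∣ r.natAbs := by
        rw [h7] at h6
        exact (hms.dvd_pow_iff_dvd (by norm_num)).1 h6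
      obtain ⟨s, hs⟩ := h8
      refine ⟨s ^ 2, ?_⟩
      simp only
      rw [h7, hs, mul_pow]
    · rw [hg] at hd
      simp only [if_neg h] at hd
      exact absurd rfl hd
  rw [h1]
  refine tsum_congr fun d => ?_
  rw [hg]
  simp only
  have hiff := td_sq_iff hm d
  by_cases h : IsSquare (d : ℤ) ∧ Odd d
  · have h5 := hiff.2 h
    have h6 : (((1 : ℤ) * ((m ^ 2 * d : ℕ) : ℤ)) % 8 = 1 ∧
        IsSquare ((1 : ℤ) * ((m ^ 2 * d : ℕ) : ℤ))) ∧ m ∣ m ^ 2 * d := by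
      rw [one_mul]
      exact ⟨h5, ⟨m * d, by ring⟩⟩
    rw [if_pos h6, if_pos h]
    have e1 : ((m ^ 2 * d : ℕ) : ℝ) / X = d / (X / (m : ℝ) ^ 2) := by
      push_cast
      field_simp
    have e2 : (2 * 1 * ((2 * (m ^ 2 * d) : ℕ) : ℤ)) = (4 * (m : ℤ) ^ 2) * d := by
      push_cast
      ring
    rw [e1, e2, tw_jr_mul, tw_jr_mul, h4, tw_jr_sq hN hmN]
    ring
  · have h6 : ¬ ((((1 : ℤ) * ((m ^ 2 * d : ℕ) : ℤ)) % 8 = 1 ∧
        IsSquare ((1 : ℤ) * ((m ^ 2 * d : ℕ) : ℤ))) ∧ m ∣ m ^ 2 * d) := by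
      rw [one_mul]
      exact fun h7 => h (hiff.1 h7.1)
    rw [if_neg h6, if_neg h]

/-- The squares removed from the class, with the pole of the main terms. -/
private theorem td_squares {F : ℝ → ℝ} {a b : ℝ} (ha : 0 < a) (hF : Bump F a b) (σ : ℤ)
    (hσ : σ = 1 ∨ σ = -1) (c ε : ℤ) (hc : (c = 1 ∧ ε = 1) ∨ (c = 5 ∧ ε = -1)) :
    ∃ C : ℝ, 0 ≤ C ∧ ∀ m : ℕ, Odd m → Squarefree m → ∀ N : ℕ, Odd N → Nat.Coprime m N →
    ∀ X : ℝ, (m : ℝ) ^ 2 ≤ X →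
    |(1 + ε) * ((∏ p ∈ N.primeFactors, (1 - 1 / (p : ℝ))) *
        ((1 + σ) / 2 * ∫ t : ℝ, F t / √t)) / √X -
      PRw (fun d : ℕ => (σ * d) % 8 = c ∧ IsSquare (σ * (d : ℤ))) (1 / 8) 2 σ F m X N| ≤
      C * m * N.divisors.card / X := by
  classical
  obtain ⟨C, hC⟩ := sq_sum ha hF
  refine ⟨8 * |C|, by positivity, fun m hm hms N hN hmN X hX => ?_⟩
  have hm1 : (1 : ℝ) ≤ m := by exact_mod_cast hm.pos
  have hm0 : (0 : ℝ) < m := by linarith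
  have hX0 : 0 < X := by nlinarith
  by_cases hcase : σ = 1 ∧ c = 1
  · obtain ⟨rfl, rfl⟩ := hcase
    have hε : ε = 1 := by
      rcases hc with ⟨_, h⟩ | ⟨h, _⟩
      · exact h
      · norm_num at h
    subst hε
    have hY : 1 ≤ X / (m : ℝ) ^ 2 := by
      rw [le_div_iff₀ (by positivity), one_mul]
      exact hX
    have h1 := hC N hN (X / (m : ℝ) ^ 2) hY
    rw [td_PRw_sq F m hm hms N hN hmN X hX0]
    have hsm : √(X / (m : ℝ) ^ 2) = √X / m := by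
      rw [Real.sqrt_div hX0.le, Real.sqrt_sq hm0.le]
    rw [hsm] at h1
    set S := ∑' d : ℕ, (if IsSquare (d : ℤ) ∧ Odd d then
      F (d / (X / (m : ℝ) ^ 2)) * jr d N else 0) with hS
    set P := ∏ p ∈ N.primeFactors, (1 - 1 / (p : ℝ)) with hP
    set I := ∫ t : ℝ, F t / √t with hI
    have hsX : 0 < √X := Real.sqrt_pos.2 hX0
    have hXX : √X * √X = X := Real.mul_self_sqrt hX0.le
    have e1 : ((1 + ((1 : ℤ) : ℝ)) * (P * ((1 + ((1 : ℤ) : ℝ)) / 2 * I)) / √X - 8 * m / X * S) =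
        -(8 * m / X) * (S - √X / m / 4 * P * I) := by
      have e2 : 1 / √X = √X / X := by
        rw [div_eq_div_iff hsX.ne' hX0.ne', one_mul, hXX]
      push_cast
      have e3 : (1 + 1) * (P * ((1 + 1) / 2 * I)) / √X = 2 * P * I * (1 / √X) := by ring
      rw [e3, e2]
      field_simp
      ring
    rw [e1, abs_mul, abs_neg, abs_of_pos (by positivity : 0 < 8 * (m : ℝ) / X)]
    calc 8 * m / X * |S - √X / m / 4 * P * I| ≤ 8 * m / X * (C * N.divisors.card) :=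
          mul_le_mul_of_nonneg_left h1 (by positivity)
      _ ≤ 8 * m / X * (|C| * N.divisors.card) := by
          refine mul_le_mul_of_nonneg_left (mul_le_mul_of_nonneg_right (le_abs_self C) ?_) ?_
          · exact Nat.cast_nonneg _
          · positivity
      _ = 8 * |C| * m * N.divisors.card / X := by ring
  · have hT0 : PRw (fun d : ℕ => (σ * d) % 8 = c ∧ IsSquare (σ * (d : ℤ))) (1 / 8) 2 σ F m X N =
        0 := by
      rw [PRw_eq]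
      have : ∀ d : ℕ, ¬ ((σ * (d : ℤ)) % 8 = c ∧ IsSquare (σ * (d : ℤ))) := by
        intro d
        rintro ⟨p1, k, hk⟩
        have h8 := td_mod8 k
        rw [← hk] at h8
        rcases hσ with rfl | rfl
        · apply hcase
          refine ⟨rfl, ?_⟩
          rcases hc with ⟨h, _⟩ | ⟨h, _⟩
          · exact h
          · omega
        · have h0 := mul_self_nonneg k
          rw [← hk] at h0
          have hd0 : (0 : ℤ) ≤ d := Int.natCast_nonneg d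
          have hd : (d : ℤ) = 0 := by linarith
          rw [hd] at p1
          rcases hc with ⟨h, _⟩ | ⟨h, _⟩ <;> omega
      exact mul_eq_zero_of_right _ ((tsum_congr fun d => if_neg (fun h => this d h.1)).trans
        tsum_zero)
    have hz : (1 + (ε : ℝ)) * ((∏ p ∈ N.primeFactors, (1 - 1 / (p : ℝ))) *
        ((1 + (σ : ℝ)) / 2 * ∫ t : ℝ, F t / √t)) / √X = 0 := by
      rcases hc with ⟨h, h'⟩ | ⟨h, h'⟩
      · have : σ = -1 := by
          rcases hσ with h0 | h0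
          · exact absurd ⟨h0, h⟩ hcase
          · exact h0
        rw [this]
        push_cast
        norm_num
      · rw [h']
        push_cast
        norm_num
    rw [hT0, hz, sub_zero, abs_zero]
    positivity

/-- The twisted Poisson formula for the families of the classes `1` and `5` modulo `8`. -/
theorem tw_eight (σ : ℤ) (hσ : σ = 1 ∨ σ = -1) (c ε : ℤ)
    (hc : (c = 1 ∧ ε = 1) ∨ (c = 5 ∧ ε = -1)) : TwP (Rf 8 c σ) (1 / 8) 2 σ := by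
  classical
  intro F a b ha hF hF0
  have hε : ε = 0 ∨ ε = 1 ∨ ε = -1 := by
    rcases hc with ⟨_, h⟩ | ⟨_, h⟩
    · exact Or.inr (Or.inl h)
    · exact Or.inr (Or.inr h)
  have hε0 : ε ≠ 0 := by rcases hc with ⟨_, h⟩ | ⟨_, h⟩ <;> rw [h] <;> norm_num
  have hc1 : c = 1 ∨ c = 5 := by
    rcases hc with ⟨h, _⟩ | ⟨h, _⟩
    · exact Or.inl h
    · exact Or.inr h
  obtain ⟨C, hC0, hC⟩ := tw_MG_abs ha hF hF0 σ ε hε
  obtain ⟨C', hC'0, hC'⟩ := td_squares ha hF σ hσ c ε hc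
  set c₁ : ℤ → ℝ := fun k => √2 * t8 (c * k) with hc₁
  set c₂ : ℤ → ℝ := fun k => t4 c k with hc₂
  have hb₁ : ∀ k, |c₁ k| ≤ 2 := by
    intro k
    rw [hc₁]
    simp only
    rw [abs_mul, abs_of_nonneg (Real.sqrt_nonneg 2)]
    calc √2 * |t8 (c * k)| ≤ 2 * 1 := mul_le_mul td_sqrt2 (td_t8_abs _) (abs_nonneg _) (by norm_num)
      _ = 2 := by norm_num
  have hb₂ : ∀ k, |c₂ k| ≤ 2 := fun k => (td_t4_abs c k).trans (by norm_num)
  have hb₃ : ∀ k : ℤ, |(fun _ : ℤ => (1 : ℝ)) k| ≤ 2 := fun k => by norm_num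
  have hp₁ : ∀ m : ℕ, Odd m → ∀ k : ℤ, c₁ ((m : ℤ) ^ 2 * k) = c₁ k := by
    intro m hm k
    rw [hc₁]
    simp only
    rw [td_t8_sq hm]
  have hp₂ : ∀ m : ℕ, Odd m → ∀ k : ℤ, c₂ ((m : ℤ) ^ 2 * k) = c₂ k := by
    intro m hm k
    rw [hc₂]
    simp only
    rw [td_t4_sq hm]
  have hj4 : ∀ N : ℕ, Odd N → jr 4 N = 1 := by
    intro N hN
    have hcop2 : IsCoprime (2 : ℤ) (N : ℤ) := by
      have := (Nat.coprime_two_left (n := N)).2 hN
      exact_mod_cast Nat.isCoprime_iff_coprime.2 this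
    have : (4 : ℤ) = 2 * 2 := by norm_num
    rw [this, tw_jr_mul, ← sq]
    exact tw_jr_sq_one hN hcop2
  have H : ∀ m : ℕ, Odd m → ∀ N : ℕ, Odd N → ∀ Y : ℝ, 0 < Y →
      1 / (1 / 8 * Y) * ∑' d : ℕ, (@ite ℝ ((σ * ((m * d : ℕ) : ℤ)) % 8 = c) (Classical.dec _)
        (F (d / Y) * jr (2 * σ * ((2 * d : ℕ) : ℤ)) N) 0) =
      ∑' k : ℤ, c₁ (m * k) * gg k N * Ft F σ ((k : ℝ) * (1 / 4 * Y) / (2 * N)) +
      ∑' k : ℤ, c₂ (m * k) * gg k N * Ft F σ ((k : ℝ) * (1 / 2 * Y) / (2 * N)) +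
      ∑' k : ℤ, (fun _ : ℤ => (1 : ℝ)) (m * k) * gg k N *
        Ft F σ ((k : ℝ) * (2 * Y) / (2 * N)) := by
    intro m hm N hN Y hY
    have hNr : (0 : ℝ) < N := by exact_mod_cast hN.pos
    have hm8 : (m : ℤ) % 8 = 1 ∨ (m : ℤ) % 8 = 3 ∨ (m : ℤ) % 8 = 5 ∨ (m : ℤ) % 8 = 7 := by
      have := Nat.odd_iff.1 hm
      omega
    set c' : ℤ := (c * (m : ℤ)) % 8 with hc'
    have hc8 : c' % 8 = c' := Int.emod_emod_of_dvd _ (dvd_refl 8)
    have hc2 : c' % 2 = 1 := by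
      rw [hc']
      rw [Int.mul_emod]
      rcases hc1 with h | h <;> rcases hm8 with h' | h' | h' | h' <;> rw [h, h'] <;> norm_num
    have e1 : ∀ d : ℕ, (@ite ℝ ((σ * ((m * d : ℕ) : ℤ)) % 8 = c) (Classical.dec _)
        (F (d / Y) * jr (2 * σ * ((2 * d : ℕ) : ℤ)) N) 0) =
        (if (σ * d) % 8 = c' then F (d / Y) * jr (σ * d) N else 0) := by
      intro d
      have e2 : (2 * σ * ((2 * d : ℕ) : ℤ)) = 4 * (σ * d) := by
        push_cast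
        ring
      rw [e2, tw_jr_mul, hj4 N hN, one_mul]
      have e3 : (σ * ((m * d : ℕ) : ℤ)) % 8 = c ↔ (σ * d) % 8 = c' := by
        have e4 : (σ * ((m * d : ℕ) : ℤ)) % 8 = (((m : ℤ) % 8) * ((σ * d) % 8)) % 8 := by
          rw [← Int.mul_emod]
          congr 1
          push_cast
          ring
        have h5 : (σ * (d : ℤ)) % 8 = 0 ∨ (σ * (d : ℤ)) % 8 = 1 ∨ (σ * (d : ℤ)) % 8 = 2 ∨
          (σ * (d : ℤ)) % 8 = 3 ∨ (σ * (d : ℤ)) % 8 = 4 ∨ (σ * (d : ℤ)) % 8 = 5 ∨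
          (σ * (d : ℤ)) % 8 = 6 ∨ (σ * (d : ℤ)) % 8 = 7 := by omega
        rw [e4, hc', Int.mul_emod c]
        rcases hc1 with h | h <;> rcases hm8 with h' | h' | h' | h' <;>
          rcases h5 with h5 | h5 | h5 | h5 | h5 | h5 | h5 | h5 <;> rw [h, h', h5] <;> norm_num
      by_cases h : (σ * (d : ℤ)) % 8 = c'
      · rw [if_pos (e3.2 h), if_pos h]
      · rw [if_neg (fun h' => h (e3.1 h')), if_neg h]
    rw [tsum_congr e1, poisson8c ha hF σ hσ N hN c' hc8 hc2 Y hY, ← mul_assoc]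
    have e2 : 1 / (1 / 8 * Y) * (Y / 8) = 1 := by field_simp
    rw [e2, one_mul]
    have bb₁ : ∀ k : ℤ, |c₁ (m * k)| ≤ 2 := fun k => hb₁ _
    have bb₂ : ∀ k : ℤ, |c₂ (m * k)| ≤ 2 := fun k => hb₂ _
    have s1 := tw_sum ha hF σ hσ N hN (1 / 4 * Y) (by positivity) (fun k => c₁ (m * k)) bb₁
    have s2 := tw_sum ha hF σ hσ N hN (1 / 2 * Y) (by positivity) (fun k => c₂ (m * k)) bb₂
    have s3 := tw_sum ha hF σ hσ N hN (2 * Y) (by positivity)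
      (fun k => (fun _ : ℤ => (1 : ℝ)) (m * k)) (fun k => hb₃ 0)
    rw [← s1.tsum_add s2, ← (s1.add s2).tsum_add s3]
    refine tsum_congr fun k => ?_
    have f1 : c₁ (m * k) = √2 * t8 (c' * k) := by
      rw [hc₁]
      simp only
      rw [td_t8_mul]
    have f2 : c₂ (m * k) = t4 c' k := by
      rw [hc₂]
      simp only
      rw [td_t4_mul hm]
    rw [f1, f2]
    have g1 : (k : ℝ) * (1 / 4 * Y) / (2 * N) = (k : ℝ) * Y / (8 * N) := by
      field_simp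
      ring
    have g2 : (k : ℝ) * (1 / 2 * Y) / (2 * N) = (k : ℝ) * Y / (4 * N) := by
      field_simp
      norm_num
    have g3 : (k : ℝ) * (2 * Y) / (2 * N) = (k : ℝ) * Y / N := by
      field_simp
    rw [g1, g2, g3]
    ring
  have hgen := tw_gen ha hF σ hσ (fun d : ℕ => (σ * (d : ℤ)) % 8 = c) (1 / 8) 2 c₁ c₂
    (fun _ => 1) (1 / 4) (1 / 2) 2 hb₁ hb₂ hb₃ (by norm_num) (by norm_num) (by norm_num) hp₁ hp₂
    (fun _ _ _ => rfl) H
  have hQ : ∀ N : ℕ, Odd N → ∀ X : ℝ, 0 < X → QQm F σ c₁ (1 / 4 * X) N +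
      QQm F σ c₂ (1 / 2 * X) N + QQm F σ (fun _ => 1) (2 * X) N = MG F σ ε X N +
      (1 + ε) * ((∏ p ∈ N.primeFactors, (1 - 1 / (p : ℝ))) *
        ((1 + σ) / 2 * ∫ t : ℝ, F t / √t)) / √X := by
    intro N hN X hX
    have h1 := hgen 1 odd_one squarefree_one N hN (Nat.coprime_one_left N) X hX
    have h3 := psplit8 ha hF σ hσ N hN c ε hc X hX
    rw [AR_eq ha hF hF0 σ N hN (X / 4) (by positivity), AR_eq ha hF hF0 σ N hN X hX,
      AR_eq ha hF hF0 σ N hN (X / 2) (by positivity)] at h3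
    rw [tw_PRw _ _ _ _ _ 1 one_pos] at h1
    have hj1 : jr ((1 : ℕ) : ℤ) N = 1 := by
      have := tw_jr_sq (m := 1) hN (Nat.coprime_one_left N)
      simpa using this
    have e1 : ∀ d : ℕ, (if (σ * ((1 * d : ℕ) : ℤ)) % 8 = c then F (d / (X / ((1 : ℕ) : ℝ))) *
        jr (2 * σ * ((2 * d : ℕ) : ℤ)) N else 0) =
        (if (σ * d) % 8 = c then F (d / X) * jr (σ * d) N else 0) := by
      intro d
      have e2 : (2 * σ * ((2 * d : ℕ) : ℤ)) = 4 * (σ * d) := by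
        push_cast
        ring
      rw [e2, tw_jr_mul, hj4 N hN, one_mul, one_mul, Nat.cast_one, div_one]
    rw [tsum_congr e1, hj1, one_mul, Nat.cast_one, div_one] at h1
    have e3 : (1 : ℝ) / (1 / 8 * X) = 8 / X := by
      field_simp
    rw [e3, h3, NSm_one, NSm_one, NSm_one] at h1
    have e4 : (1 : ℝ) / 2 * X = X / 2 := by ring
    have e5 : (1 : ℝ) / 4 * X = X / 4 := by ring
    rw [e4, e5] at h1 ⊢
    have h6 : MG F σ ε X N = √2 * ε * (AA F σ (X / 4) N - AA F σ X N) + AA F σ (X / 2) N := by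
      unfold MG
      rw [if_neg hε0]
    rw [h6, ← td_pol F σ ε hX N]
    linarith
  refine ⟨bG F σ ε, BG F σ ε, fun Y => MG F σ ε Y, c₁, c₂, fun _ => 1, 1 / 4, 1 / 2, 2, C + C',
    BC_bG ha hF hF0 σ ε hε, by positivity, by norm_num, by norm_num, by norm_num, hb₁, hb₂, hb₃,
    fun Y hY => MG_repr ha hF hF0 σ ε hε Y hY, ?_, ?_⟩
  · intro N hN Y hY
    exact (hC N hN Y hY).trans (mul_le_mul_of_nonneg_right (by linarith)
      (div_nonneg (Nat.cast_nonneg _) (Real.sqrt_nonneg _)))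
  intro m hm hms N hN hmN X hX
  have hm1 : (1 : ℝ) ≤ m := by exact_mod_cast hm.pos
  have hX0 : 0 < X := by nlinarith
  have h1 := hgen m hm hms N hN hmN X hX0
  have h2 := hQ N hN X hX0
  have h3 := hC' m hm hms N hN hmN X hX
  have h4 : PRw (fun d : ℕ => (σ * (d : ℤ)) % 8 = c) (1 / 8) 2 σ F m X N =
      PRw (Rf 8 c σ) (1 / 8) 2 σ F m X N +
      PRw (fun d : ℕ => (σ * d) % 8 = c ∧ IsSquare (σ * (d : ℤ))) (1 / 8) 2 σ F m X N := by
    rw [PRw_eq, PRw_eq, PRw_eq, ← mul_add]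
    congr 1
    have s1 := td_fin hF hX0 (fun d : ℕ => jr (2 * σ * ((2 * d : ℕ) : ℤ)) N)
      (fun d : ℕ => Rf 8 c σ d ∧ m ∣ d)
    have s2 := td_fin hF hX0 (fun d : ℕ => jr (2 * σ * ((2 * d : ℕ) : ℤ)) N)
      (fun d : ℕ => ((σ * d) % 8 = c ∧ IsSquare (σ * (d : ℤ))) ∧ m ∣ d)
    have t1 : ∀ d : ℕ, (if Rf 8 c σ d ∧ m ∣ d then F (d / X) *
        jr (2 * σ * ((2 * d : ℕ) : ℤ)) N else 0) = (@ite ℝ (Rf 8 c σ d ∧ m ∣ d) (Classical.dec _)
        (F (d / X) * jr (2 * σ * ((2 * d : ℕ) : ℤ)) N) 0) := by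
      intro d
      by_cases h : Rf 8 c σ d ∧ m ∣ d
      · simp only [if_pos h]
      · simp only [if_neg h]
    have t2 : ∀ d : ℕ, (if ((σ * d) % 8 = c ∧ IsSquare (σ * (d : ℤ))) ∧ m ∣ d then F (d / X) *
        jr (2 * σ * ((2 * d : ℕ) : ℤ)) N else 0) =
        (@ite ℝ (((σ * d) % 8 = c ∧ IsSquare (σ * (d : ℤ))) ∧ m ∣ d) (Classical.dec _)
        (F (d / X) * jr (2 * σ * ((2 * d : ℕ) : ℤ)) N) 0) := by
      intro d
      by_cases h : ((σ * (d : ℤ)) % 8 = c ∧ IsSquare (σ * (d : ℤ))) ∧ m ∣ d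
      · simp only [if_pos h]
      · simp only [if_neg h]
    rw [← (s1.congr fun d => t1 d).tsum_add (s2.congr fun d => t2 d)]
    refine tsum_congr fun d => ?_
    by_cases p0 : m ∣ d
    · by_cases p1 : (σ * (d : ℤ)) % 8 = c
      · by_cases p2 : IsSquare (σ * (d : ℤ))
        · have q1 : ¬ (Rf 8 c σ d ∧ m ∣ d) := fun h => h.1.2 p2
          rw [if_pos ⟨p1, p0⟩, if_neg q1, if_pos ⟨⟨p1, p2⟩, p0⟩, zero_add]
        · have q2 : ¬ (((σ * (d : ℤ)) % 8 = c ∧ IsSquare (σ * (d : ℤ))) ∧ m ∣ d) :=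
            fun h => p2 h.1.2
          rw [if_pos ⟨p1, p0⟩, if_pos ⟨⟨p1, p2⟩, p0⟩, if_neg q2, add_zero]
      · have q0 : ¬ ((σ * (d : ℤ)) % 8 = c ∧ m ∣ d) := fun h => p1 h.1
        have q1 : ¬ (Rf 8 c σ d ∧ m ∣ d) := fun h => p1 h.1.1
        have q2 : ¬ (((σ * (d : ℤ)) % 8 = c ∧ IsSquare (σ * (d : ℤ))) ∧ m ∣ d) :=
          fun h => p1 h.1.1
        rw [if_neg q0, if_neg q1, if_neg q2, add_zero]
    · have q0 : ¬ ((σ * (d : ℤ)) % 8 = c ∧ m ∣ d) := fun h => p0 h.2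
      have q1 : ¬ (Rf 8 c σ d ∧ m ∣ d) := fun h => p0 h.2
      have q2 : ¬ (((σ * (d : ℤ)) % 8 = c ∧ IsSquare (σ * (d : ℤ))) ∧ m ∣ d) := fun h => p0 h.2
      rw [if_neg q0, if_neg q1, if_neg q2, add_zero]
  have h5 : PRw (Rf 8 c σ) (1 / 8) 2 σ F m X N - (MG F σ ε X N + NSm F σ c₁ m (1 / 4 * X) N +
      NSm F σ c₂ m (1 / 2 * X) N + NSm F σ (fun _ => 1) m (2 * X) N) =
      (1 + ε) * ((∏ p ∈ N.primeFactors, (1 - 1 / (p : ℝ))) *
        ((1 + σ) / 2 * ∫ t : ℝ, F t / √t)) / √X -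
      PRw (fun d : ℕ => (σ * d) % 8 = c ∧ IsSquare (σ * (d : ℤ))) (1 / 8) 2 σ F m X N := by
    rw [h2] at h1
    linarith
  rw [h5]
  refine h3.trans ?_
  have : 0 ≤ C * m * N.divisors.card / X :=
    div_nonneg (mul_nonneg (mul_nonneg hC0 (Nat.cast_nonneg _)) (Nat.cast_nonneg _)) hX0.le
  have e9 : (C + C') * m * N.divisors.card / X = C * m * N.divisors.card / X +
      C' * m * N.divisors.card / X := by ring
  rw [e9]
  linarith

/-- The twisted Poisson formula for all families. -/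
theorem jf_tw : JF_tw := by
  intro σ hσ
  refine ⟨tw_odd σ hσ, fun m c ε κ hf => ?_⟩
  rcases hf with ⟨rfl, rfl, _, _⟩ | ⟨rfl, rfl, _, _⟩ | ⟨rfl, rfl, _, _⟩
  · rw [show (1 : ℝ) / ((4 : ℤ) : ℝ) = 1 / 4 by norm_num]
    exact tw_four σ hσ
  · rw [show (1 : ℝ) / ((8 : ℤ) : ℝ) = 1 / 8 by norm_num]
    exact tw_eight σ hσ 1 1 (Or.inl ⟨rfl, rfl⟩)
  · rw [show (1 : ℝ) / ((8 : ℤ) : ℝ) = 1 / 8 by norm_num]
    exact tw_eight σ hσ 5 (-1) (Or.inr ⟨rfl, rfl⟩)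

end Pool.Agent.MP0016c7.PC
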