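import Mathlib
import Pool.Agent.Lib.MP_0016c7_nt.PC.Iface2
import Pool.Agent.Lib.MP_89da58_nt.Bv

set_option autoImplicit false

/-!
From windows to counts: the weights and the summation over the windows.
-/

open Finset MeasureTheory Filter Topology
open scoped Real ContDiff

namespace Pool.Agent.MP0016c7.PC.Zt

open Pool.Agent.MP0016c7.Rz
open Pool.Agent.BVall (OmL)
open Pool.Agent.MP89da58 (tri cX tri_nonneg tri_le_one cX_bounds)

/-- The clamped ramp. -/
private noncomputable def clamp (x : ℝ) : ℝ := max 0 (min 1 x)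

private lemma tri_clamp (v : ℝ) : tri v = clamp (v + 1) - clamp v := by
  unfold tri clamp
  rcases le_total v (-1) with h1 | h1
  · rw [abs_of_nonpos (by linarith), max_eq_left (by linarith), min_eq_right (by linarith),
      min_eq_right (by linarith), max_eq_left (by linarith), max_eq_left (by linarith)]
    ring
  · rcases le_total v 0 with h2 | h2
    · rw [abs_of_nonpos h2, max_eq_right (by linarith), min_eq_right (by linarith),
        min_eq_right (by linarith), max_eq_right (by linarith), max_eq_left (by linarith)]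
      ring
    · rcases le_total v 1 with h3 | h3
      · rw [abs_of_nonneg h2, max_eq_right (by linarith), min_eq_left (by linarith),
          min_eq_right (by linarith), max_eq_right (by linarith), max_eq_right (by linarith)]
      · rw [abs_of_nonneg h2, max_eq_left (by linarith), min_eq_left (by linarith),
          min_eq_left (by linarith)]
        simp

private lemma clamp_nonneg (x : ℝ) : 0 ≤ clamp x := le_max_left _ _

private lemma clamp_le_one (x : ℝ) : clamp x ≤ 1 := max_le zero_le_one (min_le_left _ _)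

theorem sum_tri (u : ℝ) (n : ℕ) : ∑ j ∈ range n, tri (u - (j + 1)) = clamp u - clamp (u - n) := by
  have h1 : ∀ j : ℕ, tri (u - (j + 1)) = (fun j : ℕ => clamp (u - j)) j -
      (fun j : ℕ => clamp (u - j)) (j + 1) := by
    intro j
    rw [tri_clamp]
    simp only
    congr 2
    · ring
    · push_cast
      ring
  rw [Finset.sum_congr rfl fun j _ => h1 j, Finset.sum_range_sub']
  simp

theorem sum_tri_le (u : ℝ) (n : ℕ) : ∑ j ∈ range n, tri (u - (j + 1)) ≤ 1 := by
  rw [sum_tri]
  have := clamp_nonneg (u - n)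
  have := clamp_le_one u
  linarith

theorem sum_tri_eq {u : ℝ} {n : ℕ} (h1 : 1 ≤ u) (h2 : u ≤ n) :
    ∑ j ∈ range n, tri (u - (j + 1)) = 1 := by
  rw [sum_tri]
  unfold clamp
  have e1 : min 1 (u - (n : ℝ)) = u - n := min_eq_right (by linarith)
  have e2 : max 0 (u - (n : ℝ)) = 0 := max_eq_left (by linarith)
  rw [min_eq_left h1, e1, e2]
  simp

/-- The support of the window. -/
theorem tri_supp {lam Z : ℝ} (hlam : 0 < lam) {n : ℕ} (h : tri (lam * Real.log (n / Z)) ≠ 0) :
    |Real.log (n / Z)| < 1 / lam := by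
  by_contra hcon
  push Not at hcon
  apply h
  unfold tri
  refine max_eq_left ?_
  rw [abs_mul, abs_of_pos hlam]
  have : 1 ≤ lam * |Real.log (n / Z)| := by
    rw [div_le_iff₀ hlam] at hcon
    linarith
  linarith

/-- Bounds for the weight of a window. -/
theorem OmL_bd {lam Z : ℝ} (hlam : 0 < lam) (hZ : 0 < Z) (hL : 1 ≤ Real.log Z) {n : ℕ}
    (hn : 0 < n) :
    Real.exp (-(2 / lam)) * tri (lam * Real.log (n / Z)) ≤ OmL lam Z n ∧
      OmL lam Z n ≤ Real.exp (2 / lam) * tri (lam * Real.log (n / Z)) := by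
  unfold OmL
  by_cases h : tri (lam * Real.log (n / Z)) = 0
  · rw [h]
    simp
  · have h1 := tri_supp hlam h
    have hn' : (0 : ℝ) < n := Nat.cast_pos.mpr hn
    have hq : 0 < Z / n := div_pos hZ hn'
    obtain ⟨hc1, hc2⟩ := cX_bounds hL
    have h2 : Real.log (Z / n) = - Real.log (n / Z) := by
      rw [← Real.log_inv, inv_div]
    have h3 : |cX Z * Real.log (Z / n)| ≤ 2 / lam := by
      rw [h2, abs_mul, abs_neg, abs_of_pos (by linarith)]
      calc cX Z * |Real.log (n / Z)| ≤ 2 * (1 / lam) :=
            mul_le_mul hc2 h1.le (abs_nonneg _) (by norm_num)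
        _ = 2 / lam := by ring
    have h4 := abs_le.mp h3
    have h5 : (Z / n) ^ cX Z = Real.exp (cX Z * Real.log (Z / n)) := by
      rw [Real.rpow_def_of_pos hq, mul_comm]
    rw [h5]
    have h6 := tri_nonneg (lam * Real.log (n / Z))
    exact ⟨mul_le_mul_of_nonneg_right (Real.exp_le_exp.mpr h4.1) h6,
      mul_le_mul_of_nonneg_right (Real.exp_le_exp.mpr h4.2) h6⟩

/-- Bounds for `log n` times the weight of a window. -/
theorem logOmL_bd {lam Z : ℝ} (hlam : 1 ≤ lam) (hZ : 0 < Z) (hL : 3 ≤ Real.log Z) {n : ℕ}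
    (hn : 0 < n) :
    (Real.log Z - 1 / lam) * Real.exp (-(2 / lam)) * tri (lam * Real.log (n / Z)) ≤
        Real.log n * OmL lam Z n ∧
      Real.log n * OmL lam Z n ≤
        (Real.log Z + 1 / lam) * Real.exp (2 / lam) * tri (lam * Real.log (n / Z)) := by
  have hlam0 : 0 < lam := by linarith
  have hn' : (0 : ℝ) < n := Nat.cast_pos.mpr hn
  obtain ⟨h1, h2⟩ := OmL_bd hlam0 hZ (by linarith) hn
  by_cases h : tri (lam * Real.log (n / Z)) = 0
  · rw [h] at h1 h2 ⊢
    have h3 : OmL lam Z n = 0 := by
      apply le_antisymm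
      · simpa using h2
      · simpa using h1
    rw [h3]
    simp
  · have h3 := abs_lt.mp (tri_supp hlam0 h)
    have h4 : Real.log (n / Z) = Real.log n - Real.log Z := Real.log_div hn'.ne' hZ.ne'
    rw [h4] at h3
    have h5 : 1 / lam ≤ 1 := by
      rw [div_le_one hlam0]
      exact hlam
    have h6 := tri_nonneg (lam * Real.log (n / Z))
    have h7 : 0 ≤ OmL lam Z n := le_trans (by positivity) h1
    constructor
    · calc (Real.log Z - 1 / lam) * Real.exp (-(2 / lam)) * tri (lam * Real.log (n / Z))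
          = (Real.log Z - 1 / lam) * (Real.exp (-(2 / lam)) * tri (lam * Real.log (n / Z))) := by
            ring
        _ ≤ (Real.log Z - 1 / lam) * OmL lam Z n :=
            mul_le_mul_of_nonneg_left h1 (by linarith)
        _ ≤ Real.log n * OmL lam Z n := mul_le_mul_of_nonneg_right (by linarith) h7
    · calc Real.log n * OmL lam Z n ≤ (Real.log Z + 1 / lam) * OmL lam Z n :=
            mul_le_mul_of_nonneg_right (by linarith) h7
        _ ≤ (Real.log Z + 1 / lam) * (Real.exp (2 / lam) * tri (lam * Real.log (n / Z))) :=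
            mul_le_mul_of_nonneg_left h2 (by positivity)
        _ = _ := by ring

/-- The ratio of the two bounds. -/
theorem ratio_bd {lam L : ℝ} (hlam : 1 ≤ lam) (hL : 3 ≤ L) :
    (L + 1 / lam) * Real.exp (2 / lam) ≤
      Real.exp (5 / lam) * ((L - 1 / lam) * Real.exp (-(2 / lam))) := by
  have hlam0 : 0 < lam := by linarith
  have h5 : 1 / lam ≤ 1 := by
    rw [div_le_one hlam0]
    exact hlam
  have h0 : 0 < 1 / lam := by positivity
  have e1 : Real.exp (5 / lam) * ((L - 1 / lam) * Real.exp (-(2 / lam))) =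
      (L - 1 / lam) * Real.exp (1 / lam) * Real.exp (2 / lam) := by
    have : Real.exp (5 / lam) = Real.exp (1 / lam) * Real.exp (2 / lam) * Real.exp (2 / lam) := by
      rw [← Real.exp_add, ← Real.exp_add]
      congr 1
      ring
    rw [this]
    have h1 : Real.exp (2 / lam) * Real.exp (-(2 / lam)) = 1 := by
      rw [← Real.exp_add]
      simp
    linear_combination ((L - 1 / lam) * Real.exp (1 / lam) * Real.exp (2 / lam)) * h1
  rw [e1]
  refine mul_le_mul_of_nonneg_right ?_ (Real.exp_pos _).le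
  have h6 := Real.add_one_le_exp (1 / lam)
  nlinarith

open Classical in
/-- One window: from the weighted inequality to the triangle weights. -/
theorem one_window {B R : ℕ → Prop} {lam Z E : ℝ} (hlam : 3 ≤ lam)
    (hZ : 0 < Z) (hL : 3 ≤ Real.log Z) (hE : 0 ≤ E)
    (h : psiR B lam Z (fun _ => 1) ≤ E * psiR R lam Z (fun _ => 1)) (x N : ℕ)
    (hN : Z * Real.exp (1 / lam) ≤ N) :
    ∑ p ∈ (Icc 1 x).filter (fun p => p.Prime ∧ B p), tri (lam * Real.log (p / Z)) ≤
      E * Real.exp (5 / lam) *
        ∑ p ∈ (Icc 1 N).filter (fun p => p.Prime ∧ R p), tri (lam * Real.log (p / Z)) := by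
  have hlam0 : 0 < lam := by linarith
  set m := (Real.log Z - 1 / lam) * Real.exp (-(2 / lam)) with hm
  have h5 : 1 / lam ≤ 1 := by
    rw [div_le_one hlam0]
    linarith
  have hm0 : 0 < m := by
    rw [hm]
    have := Real.exp_pos (-(2 / lam))
    have : 0 < Real.log Z - 1 / lam := by linarith
    positivity
  have hsupp : ∀ n : ℕ, 0 < n → tri (lam * Real.log (n / Z)) ≠ 0 →
      (n : ℝ) ≤ Z * Real.exp (1 / lam) := by
    intro n hn hne
    have h1 := abs_lt.mp (tri_supp hlam0 hne)
    have hn' : (0 : ℝ) < n := Nat.cast_pos.mpr hn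
    rw [Real.log_div hn'.ne' hZ.ne'] at h1
    rw [← Real.log_le_log_iff hn' (by positivity), Real.log_mul hZ.ne' (Real.exp_pos _).ne',
      Real.log_exp]
    linarith [h1.2]
  have he3 : Real.exp (1 / lam) ≤ 3 := by
    calc Real.exp (1 / lam) ≤ Real.exp 1 := Real.exp_le_exp.mpr h5
      _ ≤ 3 := by
        have := Real.exp_one_lt_d9
        linarith
  -- the sum over the bad primes
  have h1 : m * ∑ p ∈ (Icc 1 x).filter (fun p => p.Prime ∧ B p), tri (lam * Real.log (p / Z)) ≤
      psiR B lam Z (fun _ => 1) := by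
    rw [Finset.mul_sum]
    unfold psiR
    calc ∑ p ∈ (Icc 1 x).filter (fun p => p.Prime ∧ B p), m * tri (lam * Real.log (p / Z))
        = ∑ p ∈ ((Icc 1 x).filter (fun p => p.Prime ∧ B p)).filter
            (fun p : ℕ => tri (lam * Real.log (p / Z)) ≠ 0),
            m * tri (lam * Real.log (p / Z)) := by
          exact (Finset.sum_filter_of_ne fun p _ hp => right_ne_zero_of_mul hp).symm
      _ ≤ ∑ p ∈ (Icc 1 ⌊3 * Z⌋₊).filter (fun p => p.Prime ∧ B p),
            m * tri (lam * Real.log (p / Z)) := by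
          refine Finset.sum_le_sum_of_subset_of_nonneg ?_ ?_
          · intro p hp
            simp only [Finset.mem_filter, Finset.mem_Icc] at hp ⊢
            obtain ⟨⟨⟨hp1, _⟩, hp2⟩, hp3⟩ := hp
            refine ⟨⟨hp1, Nat.le_floor ?_⟩, hp2⟩
            calc (p : ℝ) ≤ Z * Real.exp (1 / lam) := hsupp p hp1 hp3
              _ ≤ Z * 3 := mul_le_mul_of_nonneg_left he3 hZ.le
              _ = 3 * Z := by ring
          · intro p _ _
            exact mul_nonneg hm0.le (tri_nonneg _)
      _ ≤ ∑ p ∈ (Icc 1 ⌊3 * Z⌋₊).filter (fun p => p.Prime ∧ B p),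
            Real.log p * OmL lam Z p * 1 := by
          refine Finset.sum_le_sum fun p hp => ?_
          simp only [Finset.mem_filter, Finset.mem_Icc] at hp
          rw [mul_one]
          exact (logOmL_bd (by linarith) hZ hL hp.1.1).1
  have h2 : psiR R lam Z (fun _ => 1) ≤ (Real.log Z + 1 / lam) * Real.exp (2 / lam) *
      ∑ p ∈ (Icc 1 N).filter (fun p => p.Prime ∧ R p), tri (lam * Real.log (p / Z)) := by
    set M := (Real.log Z + 1 / lam) * Real.exp (2 / lam) with hM
    have hM0 : 0 ≤ M := by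
      rw [hM]
      have := Real.exp_pos (2 / lam)
      positivity
    rw [Finset.mul_sum]
    unfold psiR
    calc ∑ p ∈ (Icc 1 ⌊3 * Z⌋₊).filter (fun p => p.Prime ∧ R p),
            Real.log p * OmL lam Z p * 1
        ≤ ∑ p ∈ (Icc 1 ⌊3 * Z⌋₊).filter (fun p => p.Prime ∧ R p),
            M * tri (lam * Real.log (p / Z)) := by
          refine Finset.sum_le_sum fun p hp => ?_
          simp only [Finset.mem_filter, Finset.mem_Icc] at hp
          rw [mul_one]
          exact (logOmL_bd (by linarith) hZ hL hp.1.1).2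
      _ = ∑ p ∈ ((Icc 1 ⌊3 * Z⌋₊).filter (fun p => p.Prime ∧ R p)).filter
            (fun p : ℕ => tri (lam * Real.log (p / Z)) ≠ 0),
            M * tri (lam * Real.log (p / Z)) := by
          exact (Finset.sum_filter_of_ne fun p _ hp => right_ne_zero_of_mul hp).symm
      _ ≤ ∑ p ∈ (Icc 1 N).filter (fun p => p.Prime ∧ R p),
            M * tri (lam * Real.log (p / Z)) := by
          refine Finset.sum_le_sum_of_subset_of_nonneg ?_ ?_
          · intro p hp
            simp only [Finset.mem_filter, Finset.mem_Icc] at hp ⊢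
            obtain ⟨⟨⟨hp1, _⟩, hp2⟩, hp3⟩ := hp
            refine ⟨⟨hp1, ?_⟩, hp2⟩
            have : (p : ℝ) ≤ N := (hsupp p hp1 hp3).trans hN
            exact_mod_cast this
          · intro p _ _
            exact mul_nonneg hM0 (tri_nonneg _)
  have h3 : 0 ≤ ∑ p ∈ (Icc 1 N).filter (fun p => p.Prime ∧ R p),
      tri (lam * Real.log (p / Z)) := Finset.sum_nonneg fun p _ => tri_nonneg _
  have h4 := ratio_bd (lam := lam) (by linarith) hL
  rw [← hm] at h4
  have h6 : m * ∑ p ∈ (Icc 1 x).filter (fun p => p.Prime ∧ B p),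
      tri (lam * Real.log (p / Z)) ≤ m * (E * Real.exp (5 / lam) *
        ∑ p ∈ (Icc 1 N).filter (fun p => p.Prime ∧ R p), tri (lam * Real.log (p / Z))) := by
    calc _ ≤ psiR B lam Z (fun _ => 1) := h1
      _ ≤ E * psiR R lam Z (fun _ => 1) := h
      _ ≤ E * ((Real.log Z + 1 / lam) * Real.exp (2 / lam) *
          ∑ p ∈ (Icc 1 N).filter (fun p => p.Prime ∧ R p), tri (lam * Real.log (p / Z))) :=
          mul_le_mul_of_nonneg_left h2 hE
      _ ≤ E * (Real.exp (5 / lam) * m *
          ∑ p ∈ (Icc 1 N).filter (fun p => p.Prime ∧ R p), tri (lam * Real.log (p / Z))) :=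
          mul_le_mul_of_nonneg_left (mul_le_mul_of_nonneg_right h4 h3) hE
      _ = _ := by ring
  exact le_of_mul_le_mul_left h6 hm0

end Pool.Agent.MP0016c7.PC.Zt
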