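import Mathlib
import Pool.Agent.Lib.MP_0016c7_nt.PC.ZtA

set_option autoImplicit false

/-!
From windows to counts: the summation over the windows and the size of the prime counts.
-/

open Finset MeasureTheory Filter Topology
open scoped Real ContDiff

namespace Pool.Agent.MP0016c7.PC.Zt

open Pool.Agent.MP0016c7.Rz
open Pool.Agent.BVall (OmL)
open Pool.Agent.MP89da58 (tri cX tri_nonneg tri_le_one cX_bounds)

private lemma exp_third : Real.exp (1 / 3) ≤ 3 / 2 := by
  have h := Real.exp_one_lt_d9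
  have h1 : Real.exp (1 / 3) ^ 3 = Real.exp 1 := by
    rw [← Real.exp_nat_mul]
    norm_num
  by_contra hcon
  push Not at hcon
  have h2 : (3 / 2 : ℝ) ^ 3 ≤ Real.exp (1 / 3) ^ 3 := pow_le_pow_left₀ (by norm_num) hcon.le 3
  rw [h1] at h2
  norm_num at h2 h
  linarith

private lemma exp_two_third : Real.exp (2 / 3) ≤ 2 := by
  have h := Real.exp_one_lt_d9
  have h1 : Real.exp (2 / 3) ^ 3 = Real.exp 1 ^ 2 := by
    rw [← Real.exp_nat_mul, ← Real.exp_nat_mul]
    norm_num
  by_contra hcon
  push Not at hcon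
  have h2 : (2 : ℝ) ^ 3 < Real.exp (2 / 3) ^ 3 := pow_lt_pow_left₀ hcon (by norm_num) (by norm_num)
  rw [h1] at h2
  have h3 := Real.exp_pos 1
  have h4 : Real.exp 1 < 2.72 := h.trans (by norm_num)
  nlinarith

/-- An upper bound for the sum of the weights. -/
theorem SO_le {lam Z : ℝ} (hlam : 3 ≤ lam) (hL : 3 ≤ Real.log Z) (hZ : lam ≤ Z) :
    SO lam Z ≤ 8 * Z / lam := by
  have hlam0 : 0 < lam := by linarith
  have hZ0 : 0 < Z := by linarith
  have hx : 1 / lam ≤ 1 / 3 := one_div_le_one_div_of_le (by norm_num) hlam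
  have hx0 : 0 < 1 / lam := by positivity
  have h2 : Real.exp (2 / lam) ≤ 2 := by
    refine le_trans (Real.exp_le_exp.mpr ?_) exp_two_third
    have : 2 / lam = 2 * (1 / lam) := by ring
    linarith
  have h1 : SO lam Z ≤ ∑ n ∈ Ioc ⌊Z * Real.exp (-(1 / lam))⌋₊ ⌊Z * Real.exp (1 / lam)⌋₊, (2 : ℝ) := by
    unfold SO
    calc ∑ n ∈ Icc 1 ⌊3 * Z⌋₊, OmL lam Z n
        = ∑ n ∈ (Icc 1 ⌊3 * Z⌋₊).filter (fun n : ℕ => OmL lam Z n ≠ 0), OmL lam Z n :=
          (Finset.sum_filter_ne_zero _).symm
      _ ≤ ∑ n ∈ (Icc 1 ⌊3 * Z⌋₊).filter (fun n : ℕ => OmL lam Z n ≠ 0), (2 : ℝ) := by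
          refine Finset.sum_le_sum fun n hn => ?_
          simp only [Finset.mem_filter, Finset.mem_Icc] at hn
          refine (OmL_bd hlam0 hZ0 (by linarith) hn.1.1).2.trans ?_
          have := tri_le_one (lam * Real.log (n / Z))
          have := tri_nonneg (lam * Real.log (n / Z))
          have := Real.exp_pos (2 / lam)
          nlinarith
      _ ≤ _ := by
          refine Finset.sum_le_sum_of_subset_of_nonneg ?_ fun _ _ _ => by norm_num
          intro n hn
          simp only [Finset.mem_filter, Finset.mem_Icc] at hn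
          have hn' : (0 : ℝ) < n := Nat.cast_pos.mpr hn.1.1
          have hne : tri (lam * Real.log (n / Z)) ≠ 0 := by
            intro h0
            apply hn.2
            unfold OmL
            rw [h0, mul_zero]
          have h3 := abs_lt.mp (tri_supp hlam0 hne)
          rw [Real.log_div hn'.ne' hZ0.ne'] at h3
          rw [Finset.mem_Ioc]
          constructor
          · rw [Nat.floor_lt (by positivity), ← Real.log_lt_log_iff (by positivity) hn',
              Real.log_mul hZ0.ne' (Real.exp_pos _).ne', Real.log_exp]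
            linarith [h3.1]
          · refine Nat.le_floor ?_
            rw [← Real.log_le_log_iff hn' (by positivity),
              Real.log_mul hZ0.ne' (Real.exp_pos _).ne', Real.log_exp]
            linarith [h3.2]
  rw [Finset.sum_const, Nat.card_Ioc, nsmul_eq_mul] at h1
  have h3 : ((⌊Z * Real.exp (1 / lam)⌋₊ - ⌊Z * Real.exp (-(1 / lam))⌋₊ : ℕ) : ℝ) ≤
      Z * Real.exp (1 / lam) - Z * Real.exp (-(1 / lam)) + 1 := by
    have h4 := Nat.floor_le (show 0 ≤ Z * Real.exp (1 / lam) by positivity)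
    have h5 := Nat.lt_floor_add_one (Z * Real.exp (-(1 / lam)))
    have h6 : ⌊Z * Real.exp (-(1 / lam))⌋₊ ≤ ⌊Z * Real.exp (1 / lam)⌋₊ := by
      apply Nat.floor_le_floor
      exact mul_le_mul_of_nonneg_left (Real.exp_le_exp.mpr (by linarith)) hZ0.le
    rw [Nat.cast_sub h6]
    linarith
  have h4 : Real.exp (1 / lam) - Real.exp (-(1 / lam)) ≤ 3 * (1 / lam) := by
    have h5 : Real.exp (-(1 / lam)) = Real.exp (1 / lam) * Real.exp (-(2 * (1 / lam))) := by
      rw [← Real.exp_add]
      congr 1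
      ring
    have h6 := Real.add_one_le_exp (-(2 * (1 / lam)))
    have h7 : Real.exp (1 / lam) ≤ 3 / 2 := le_trans (Real.exp_le_exp.mpr hx) exp_third
    have h8 := Real.exp_pos (1 / lam)
    rw [h5]
    nlinarith
  have h5 : (1 : ℝ) ≤ Z * (1 / lam) := by
    rw [mul_one_div, le_div_iff₀ hlam0]
    linarith
  have h6 : 8 * Z / lam = 8 * (Z * (1 / lam)) := by ring
  rw [h6]
  nlinarith

/-- A lower bound for the sum of the weights, `lam = 3`. -/
theorem SO_ge {Z : ℝ} (hL : 3 ≤ Real.log Z) (hZ : 12 ≤ Z) : Z / 48 ≤ SO 3 Z := by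
  have hZ0 : 0 < Z := by linarith
  have h2 : (1 / 2 : ℝ) ≤ Real.exp (-(2 / 3)) := by
    rw [Real.exp_neg, one_div]
    exact inv_anti₀ (Real.exp_pos _) exp_two_third
  have he3 : Real.exp (1 / 6) ≤ 3 := by
    have := Real.exp_one_lt_d9
    have : Real.exp (1 / 6) ≤ Real.exp 1 := Real.exp_le_exp.mpr (by norm_num)
    linarith
  have h1 : ∑ n ∈ Ioc ⌊Z⌋₊ ⌊Z * Real.exp (1 / 6)⌋₊, (1 / 4 : ℝ) ≤ SO 3 Z := by
    unfold SO
    calc ∑ n ∈ Ioc ⌊Z⌋₊ ⌊Z * Real.exp (1 / 6)⌋₊, (1 / 4 : ℝ)
        ≤ ∑ n ∈ Ioc ⌊Z⌋₊ ⌊Z * Real.exp (1 / 6)⌋₊, OmL 3 Z n := by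
          refine Finset.sum_le_sum fun n hn => ?_
          rw [Finset.mem_Ioc] at hn
          have h3 : Z < n := (Nat.floor_lt hZ0.le).mp hn.1
          have h4 : (n : ℝ) ≤ Z * Real.exp (1 / 6) :=
            (Nat.cast_le.mpr hn.2).trans (Nat.floor_le (by positivity))
          have hn' : (0 : ℝ) < n := hZ0.trans h3
          have hn'' : 0 < n := Nat.cast_pos.mp hn'
          refine le_trans ?_ (OmL_bd (by norm_num) hZ0 (by linarith) hn'').1
          have h5 : 0 ≤ Real.log (n / Z) := Real.log_nonneg (by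
            rw [le_div_iff₀ hZ0]
            linarith)
          have h6 : Real.log (n / Z) ≤ 1 / 6 := by
            rw [Real.log_le_iff_le_exp (by positivity), div_le_iff₀ hZ0]
            linarith
          have h7 : (1 / 2 : ℝ) ≤ tri (3 * Real.log (n / Z)) := by
            unfold tri
            rw [abs_of_nonneg (by positivity)]
            refine le_trans ?_ (le_max_right _ _)
            linarith
          nlinarith [tri_nonneg (3 * Real.log (n / Z))]
      _ ≤ _ := by
          refine Finset.sum_le_sum_of_subset_of_nonneg ?_ ?_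
          · intro n hn
            rw [Finset.mem_Ioc] at hn
            rw [Finset.mem_Icc]
            refine ⟨by omega, hn.2.trans (Nat.floor_le_floor ?_)⟩
            nlinarith
          · intro n hn _
            rw [Finset.mem_Icc] at hn
            refine le_trans ?_ (OmL_bd (by norm_num) hZ0 (by linarith) hn.1).1
            exact mul_nonneg (Real.exp_pos _).le (tri_nonneg _)
  rw [Finset.sum_const, Nat.card_Ioc, nsmul_eq_mul] at h1
  have h3 : Z * Real.exp (1 / 6) - Z - 1 ≤ ((⌊Z * Real.exp (1 / 6)⌋₊ - ⌊Z⌋₊ : ℕ) : ℝ) := by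
    have h4 := Nat.floor_le hZ0.le
    have h5 := Nat.lt_floor_add_one (Z * Real.exp (1 / 6))
    have h6 : ⌊Z⌋₊ ≤ ⌊Z * Real.exp (1 / 6)⌋₊ := by
      apply Nat.floor_le_floor
      have := Real.one_le_exp (show (0 : ℝ) ≤ 1 / 6 by norm_num)
      nlinarith
    rw [Nat.cast_sub h6]
    linarith
  have h4 := Real.add_one_le_exp (1 / 6 : ℝ)
  nlinarith

open Classical in
/-- The sum over the windows. -/
theorem sum_windows {B R : ℕ → Prop} {lam E X₀ y₀ : ℝ} (hlam : 3 ≤ lam) (hE : 0 ≤ E)
    (hy : Real.exp 3 ≤ y₀) (hy' : X₀ ≤ y₀)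
    (h : ∀ X : ℝ, X₀ ≤ X → psiR B lam (X * Real.exp (1 / lam)) (fun _ => 1) ≤
      E * psiR R lam (X * Real.exp (1 / lam)) (fun _ => 1)) (x N : ℕ) (hx : y₀ ≤ x)
    (hN : x * Real.exp (2 / lam) ≤ N) :
    (((Icc 1 x).filter (fun p => p.Prime ∧ B p)).card : ℝ) ≤ 3 * y₀ +
      E * Real.exp (5 / lam) * ((Icc 1 N).filter (fun p => p.Prime ∧ R p)).card := by
  have hlam0 : 0 < lam := by linarith
  have hy0 : 0 < y₀ := (Real.exp_pos 3).trans_le hy
  have hx0 : (0 : ℝ) < x := hy0.trans_le hx
  set J := ⌈lam * Real.log (x / y₀)⌉₊ with hJ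
  have hxy : 0 ≤ lam * Real.log (x / y₀) := by
    refine mul_nonneg hlam0.le (Real.log_nonneg ?_)
    rw [le_div_iff₀ hy0]
    linarith
  have hJ1 : lam * Real.log (x / y₀) ≤ J := Nat.le_ceil _
  have hJ2 : (J : ℝ) < lam * Real.log (x / y₀) + 1 := Nat.ceil_lt_add_one hxy
  -- one window
  have hwin : ∀ j ∈ range J, ∑ p ∈ (Icc 1 x).filter (fun p => p.Prime ∧ B p),
      tri (lam * Real.log (p / y₀) - (j + 1)) ≤ E * Real.exp (5 / lam) *
        ∑ p ∈ (Icc 1 N).filter (fun p => p.Prime ∧ R p),
          tri (lam * Real.log (p / y₀) - (j + 1)) := by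
    intro j hj
    rw [Finset.mem_range] at hj
    have hj' : (j : ℝ) + 1 ≤ J := by exact_mod_cast hj
    set Z := y₀ * Real.exp (j / lam) * Real.exp (1 / lam) with hZ
    have hZ0 : 0 < Z := by positivity
    have hlogZ : Real.log Z = Real.log y₀ + (j + 1) / lam := by
      rw [hZ, Real.log_mul (by positivity) (by positivity), Real.log_mul hy0.ne' (by positivity),
        Real.log_exp, Real.log_exp]
      ring
    have hy3 : 3 ≤ Real.log y₀ := by
      rw [Real.le_log_iff_exp_le hy0]
      exact hy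
    have hL : 3 ≤ Real.log Z := by
      rw [hlogZ]
      have : 0 ≤ ((j : ℝ) + 1) / lam := by positivity
      linarith
    have hX : X₀ ≤ y₀ * Real.exp (j / lam) := by
      have : 1 ≤ Real.exp (j / lam) := Real.one_le_exp (by positivity)
      nlinarith
    have hNj : Z * Real.exp (1 / lam) ≤ N := by
      refine le_trans ?_ hN
      rw [← Real.log_le_log_iff (by positivity) (by positivity),
        Real.log_mul hZ0.ne' (by positivity), Real.log_mul hx0.ne' (by positivity), Real.log_exp,
        Real.log_exp, hlogZ]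
      have h1 : lam * Real.log (x / y₀) = lam * Real.log x - lam * Real.log y₀ := by
        rw [Real.log_div hx0.ne' hy0.ne']
        ring
      have h2 : ((j : ℝ) + 1) / lam ≤ Real.log x - Real.log y₀ + 1 / lam := by
        rw [div_le_iff₀ hlam0]
        have : (Real.log x - Real.log y₀ + 1 / lam) * lam =
            lam * Real.log x - lam * Real.log y₀ + 1 := by
          field_simp
        rw [this]
        linarith
      have h3 : 2 / lam = 1 / lam + 1 / lam := by ring
      rw [h3]
      linarith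
    have key := one_window (B := B) (R := R) hlam hZ0 hL hE (h _ hX) x N hNj
    have harg : ∀ p : ℕ, 0 < p → lam * Real.log (p / Z) =
        lam * Real.log (p / y₀) - (j + 1) := by
      intro p hp
      have hp' : (0 : ℝ) < p := Nat.cast_pos.mpr hp
      rw [Real.log_div hp'.ne' hZ0.ne', Real.log_div hp'.ne' hy0.ne', hlogZ]
      field_simp
      ring
    have e1 : ∀ (M : ℕ) (Q : ℕ → Prop),
        ∑ p ∈ (Icc 1 M).filter (fun p => p.Prime ∧ Q p), tri (lam * Real.log (p / Z)) =
        ∑ p ∈ (Icc 1 M).filter (fun p => p.Prime ∧ Q p),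
          tri (lam * Real.log (p / y₀) - (j + 1)) := by
      intro M Q
      refine Finset.sum_congr rfl fun p hp => ?_
      simp only [Finset.mem_filter, Finset.mem_Icc] at hp
      rw [harg p hp.1.1]
    rw [e1, e1] at key
    exact key
  have hsum := Finset.sum_le_sum hwin
  rw [← Finset.mul_sum, Finset.sum_comm, Finset.sum_comm (s := range J)
    (t := (Icc 1 N).filter (fun p => p.Prime ∧ R p))] at hsum
  -- the right hand side
  have hR : ∑ p ∈ (Icc 1 N).filter (fun p => p.Prime ∧ R p), ∑ j ∈ range J,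
      tri (lam * Real.log (p / y₀) - (j + 1)) ≤
      ((Icc 1 N).filter (fun p => p.Prime ∧ R p)).card := by
    calc _ ≤ ∑ p ∈ (Icc 1 N).filter (fun p => p.Prime ∧ R p), (1 : ℝ) :=
          Finset.sum_le_sum fun p _ => sum_tri_le _ _
      _ = _ := by simp
  -- the left hand side
  have hB : (((Icc 1 x).filter (fun p => p.Prime ∧ B p)).card : ℝ) ≤ 3 * y₀ +
      ∑ p ∈ (Icc 1 x).filter (fun p => p.Prime ∧ B p), ∑ j ∈ range J,
        tri (lam * Real.log (p / y₀) - (j + 1)) := by
    have h1 : (((Icc 1 x).filter (fun p => p.Prime ∧ B p)).card : ℝ) =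
        ((((Icc 1 x).filter (fun p => p.Prime ∧ B p)).filter
          (fun p : ℕ => (p : ℝ) ≤ 3 * y₀)).card : ℝ) +
        ((((Icc 1 x).filter (fun p => p.Prime ∧ B p)).filter
          (fun p : ℕ => ¬ (p : ℝ) ≤ 3 * y₀)).card : ℝ) := by
      rw [← Nat.cast_add, Finset.card_filter_add_card_filter_not]
    rw [h1]
    refine add_le_add ?_ ?_
    · have h2 : (((Icc 1 x).filter (fun p => p.Prime ∧ B p)).filter
          (fun p : ℕ => (p : ℝ) ≤ 3 * y₀)) ⊆ Icc 1 ⌊3 * y₀⌋₊ := by
        intro p hp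
        simp only [Finset.mem_filter, Finset.mem_Icc] at hp ⊢
        exact ⟨hp.1.1.1, Nat.le_floor hp.2⟩
      have h3 := Finset.card_le_card h2
      rw [Nat.card_Icc, Nat.add_sub_cancel] at h3
      calc _ ≤ ((⌊3 * y₀⌋₊ : ℕ) : ℝ) := by exact_mod_cast h3
        _ ≤ 3 * y₀ := Nat.floor_le (by positivity)
    · rw [Finset.card_eq_sum_ones, Nat.cast_sum]
      calc ∑ p ∈ ((Icc 1 x).filter (fun p => p.Prime ∧ B p)).filter
            (fun p : ℕ => ¬ (p : ℝ) ≤ 3 * y₀), ((1 : ℕ) : ℝ)
          = ∑ p ∈ ((Icc 1 x).filter (fun p => p.Prime ∧ B p)).filter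
            (fun p : ℕ => ¬ (p : ℝ) ≤ 3 * y₀), ∑ j ∈ range J,
              tri (lam * Real.log (p / y₀) - (j + 1)) := by
            refine Finset.sum_congr rfl fun p hp => ?_
            simp only [Finset.mem_filter, Finset.mem_Icc, not_le] at hp
            have hp' : (0 : ℝ) < p := Nat.cast_pos.mpr hp.1.1.1
            rw [sum_tri_eq]
            · simp
            · have h4 : 1 ≤ Real.log (p / y₀) := by
                rw [Real.le_log_iff_exp_le (by positivity), le_div_iff₀ hy0]
                have := Real.exp_one_lt_d9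
                nlinarith [hp.2]
              nlinarith
            · refine le_trans ?_ hJ1
              refine mul_le_mul_of_nonneg_left ?_ hlam0.le
              refine Real.log_le_log (by positivity) ?_
              exact div_le_div_of_nonneg_right (by exact_mod_cast hp.1.1.2) hy0.le
        _ ≤ _ := by
            refine Finset.sum_le_sum_of_subset_of_nonneg (Finset.filter_subset _ _) ?_
            intro p _ _
            exact Finset.sum_nonneg fun j _ => tri_nonneg _
  calc _ ≤ 3 * y₀ + ∑ p ∈ (Icc 1 x).filter (fun p => p.Prime ∧ B p), ∑ j ∈ range J,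
        tri (lam * Real.log (p / y₀) - (j + 1)) := hB
    _ ≤ 3 * y₀ + E * Real.exp (5 / lam) * ∑ p ∈ (Icc 1 N).filter (fun p => p.Prime ∧ R p),
        ∑ j ∈ range J, tri (lam * Real.log (p / y₀) - (j + 1)) := by linarith
    _ ≤ _ := by
        have : 0 ≤ E * Real.exp (5 / lam) := by positivity
        have := mul_le_mul_of_nonneg_left hR this
        linarith

end Pool.Agent.MP0016c7.PC.Zt
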