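import Mathlib
import Pool.Agent.Lib.MP_0016c7_nt.PC.ZtB

set_option autoImplicit false

/-!
From windows to counts: the size of the prime counts and the final step.
-/

open Finset MeasureTheory Filter Topology
open scoped Real ContDiff

namespace Pool.Agent.MP0016c7.PC.Zt

open Pool.Agent.MP0016c7.Rz
open Pool.Agent.BVall (OmL)
open Pool.Agent.MP89da58 (tri cX tri_nonneg tri_le_one cX_bounds)

open Classical in
/-- Upper bound for `psiR` by the number of primes. -/
theorem psiR_le {R : ℕ → Prop} {lam Z : ℝ} (hlam : 3 ≤ lam)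
    (hZ : 0 < Z) (hL : 3 ≤ Real.log Z) (N : ℕ) (hN : Z * Real.exp (1 / lam) ≤ N) :
    psiR R lam Z (fun _ => 1) ≤ (Real.log Z + 1 / lam) * Real.exp (2 / lam) *
      ((Icc 1 N).filter (fun p => p.Prime ∧ R p)).card := by
  have hlam0 : 0 < lam := by linarith
  have hsupp : ∀ n : ℕ, 0 < n → tri (lam * Real.log (n / Z)) ≠ 0 →
      (n : ℝ) ≤ Z * Real.exp (1 / lam) := by
    intro n hn hne
    have h1 := abs_lt.mp (tri_supp hlam0 hne)
    have hn' : (0 : ℝ) < n := Nat.cast_pos.mpr hn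
    rw [Real.log_div hn'.ne' hZ.ne'] at h1
    rw [← Real.log_le_log_iff hn' (by positivity), Real.log_mul hZ.ne' (Real.exp_pos _).ne',
      Real.log_exp]
    linarith [h1.2]
  set M := (Real.log Z + 1 / lam) * Real.exp (2 / lam) with hM
  have hM0 : 0 ≤ M := by
    rw [hM]
    have := Real.exp_pos (2 / lam)
    positivity
  unfold psiR
  calc ∑ p ∈ (Icc 1 ⌊3 * Z⌋₊).filter (fun p => p.Prime ∧ R p),
          Real.log p * OmL lam Z p * 1
      ≤ ∑ p ∈ (Icc 1 ⌊3 * Z⌋₊).filter (fun p => p.Prime ∧ R p),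
          M * tri (lam * Real.log (p / Z)) := by
        refine Finset.sum_le_sum fun p hp => ?_
        simp only [Finset.mem_filter, Finset.mem_Icc] at hp
        rw [mul_one]
        exact (logOmL_bd (by linarith) hZ hL hp.1.1).2
    _ = ∑ p ∈ ((Icc 1 ⌊3 * Z⌋₊).filter (fun p => p.Prime ∧ R p)).filter
          (fun p : ℕ => tri (lam * Real.log (p / Z)) ≠ 0),
          M * tri (lam * Real.log (p / Z)) := by
        exact (Finset.sum_filter_of_ne fun p _ hp => right_ne_zero_of_mul hp).symm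
    _ ≤ ∑ p ∈ (Icc 1 N).filter (fun p => p.Prime ∧ R p),
          M * tri (lam * Real.log (p / Z)) := by
        refine Finset.sum_le_sum_of_subset_of_nonneg ?_ ?_
        · intro p hp
          simp only [Finset.mem_filter, Finset.mem_Icc] at hp ⊢
          obtain ⟨⟨⟨hp1, _⟩, hp2⟩, hp3⟩ := hp
          refine ⟨⟨hp1, ?_⟩, hp2⟩
          have : (p : ℝ) ≤ N := (hsupp p hp1 hp3).trans hN
          exact_mod_cast this
        · intro p _ _
          exact mul_nonneg hM0 (tri_nonneg _)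
    _ ≤ ∑ p ∈ (Icc 1 N).filter (fun p => p.Prime ∧ R p), M := by
        refine Finset.sum_le_sum fun p _ => ?_
        have := tri_le_one (lam * Real.log (p / Z))
        nlinarith
    _ = _ := by
        rw [Finset.sum_const, nsmul_eq_mul]
        ring

open Classical in
/-- Lower bound for `psiR` by the number of primes in the middle of the window. -/
theorem psiR_ge {R : ℕ → Prop} {lam Z : ℝ} (hlam : 3 ≤ lam)
    (hZ : 0 < Z) (hL : 3 ≤ Real.log Z) (F : Finset ℕ)
    (hF : ∀ p ∈ F, p.Prime ∧ R p ∧ lam * |Real.log (p / Z)| ≤ 1 / 2) :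
    (F.card : ℝ) * (Real.log Z / 8) ≤ psiR R lam Z (fun _ => 1) := by
  have hlam0 : 0 < lam := by linarith
  have h5 : 1 / lam ≤ 1 / 3 := one_div_le_one_div_of_le (by norm_num) hlam
  have he : (1 / 2 : ℝ) ≤ Real.exp (-(2 / lam)) := by
    have h6 : Real.exp (2 / lam) ≤ 2 := by
      have h7 : 2 / lam ≤ 2 / 3 := by
        have : 2 / lam = 2 * (1 / lam) := by ring
        linarith
      have h := Real.exp_one_lt_d9
      have h1 : Real.exp (2 / 3) ^ 3 = Real.exp 1 ^ 2 := by
        rw [← Real.exp_nat_mul, ← Real.exp_nat_mul]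
        norm_num
      refine le_trans (Real.exp_le_exp.mpr h7) ?_
      by_contra hcon
      push Not at hcon
      have h2 : (2 : ℝ) ^ 3 < Real.exp (2 / 3) ^ 3 :=
        pow_lt_pow_left₀ hcon (by norm_num) (by norm_num)
      rw [h1] at h2
      have h3 := Real.exp_pos 1
      have h4 : Real.exp 1 < 2.72 := h.trans (by norm_num)
      nlinarith
    rw [Real.exp_neg, one_div]
    exact inv_anti₀ (Real.exp_pos _) h6
  have he3 : Real.exp (1 / lam) ≤ 3 := by
    have h := Real.exp_one_lt_d9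
    have h1 : Real.exp (1 / lam) ≤ Real.exp 1 := Real.exp_le_exp.mpr (by linarith)
    linarith
  rw [← nsmul_eq_mul, ← Finset.sum_const]
  unfold psiR
  calc ∑ p ∈ F, Real.log Z / 8 ≤ ∑ p ∈ F, Real.log p * OmL lam Z p * 1 := by
        refine Finset.sum_le_sum fun p hp => ?_
        obtain ⟨hp1, hp2, hp3⟩ := hF p hp
        rw [mul_one]
        refine le_trans ?_ (logOmL_bd (by linarith) hZ hL hp1.pos).1
        have h7 : (1 / 2 : ℝ) ≤ tri (lam * Real.log (p / Z)) := by
          unfold tri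
          rw [abs_mul, abs_of_pos hlam0]
          refine le_trans ?_ (le_max_right _ _)
          linarith
        have h8 : Real.log Z / 2 ≤ Real.log Z - 1 / lam := by linarith
        have h9 : Real.log Z / 2 * (1 / 2) ≤ (Real.log Z - 1 / lam) * Real.exp (-(2 / lam)) :=
          mul_le_mul h8 he (by norm_num) (by linarith)
        calc Real.log Z / 8 = Real.log Z / 2 * (1 / 2) * (1 / 2) := by ring
          _ ≤ (Real.log Z - 1 / lam) * Real.exp (-(2 / lam)) * tri (lam * Real.log (p / Z)) := by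
              refine mul_le_mul h9 h7 (by norm_num) ?_
              have := Real.exp_pos (-(2 / lam))
              have : 0 ≤ Real.log Z - 1 / lam := by linarith
              positivity
    _ ≤ _ := by
        refine Finset.sum_le_sum_of_subset_of_nonneg ?_ ?_
        · intro p hp
          obtain ⟨hp1, hp2, hp3⟩ := hF p hp
          have hp' : (0 : ℝ) < p := Nat.cast_pos.mpr hp1.pos
          simp only [Finset.mem_filter, Finset.mem_Icc]
          refine ⟨⟨hp1.pos, Nat.le_floor ?_⟩, hp1, hp2⟩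
          have h1 : Real.log (p / Z) ≤ 1 / lam := by
            rw [le_div_iff₀ hlam0]
            have := le_abs_self (Real.log (p / Z))
            nlinarith
          rw [Real.log_le_iff_le_exp (by positivity), div_le_iff₀ hZ] at h1
          nlinarith
        · intro p hp _
          simp only [Finset.mem_filter, Finset.mem_Icc] at hp
          rw [mul_one]
          refine mul_nonneg (Real.log_natCast_nonneg p) ?_
          refine le_trans ?_ (OmL_bd hlam0 hZ (by linarith) hp.1.1).1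
          exact mul_nonneg (Real.exp_pos _).le (tri_nonneg _)

open Classical in
/-- The primes in a class modulo `8`, lower bound. -/
theorem primes_ge (hz : JF_zmP) {r : ℕ} (hr : r ∈ ({1, 3, 5, 7} : Finset ℕ)) :
    ∃ x₀ : ℝ, ∀ x : ℕ, x₀ ≤ x → (x : ℝ) / (1200 * Real.log x) ≤
      ((Icc 1 x).filter (fun p => p.Prime ∧ p % 8 = r)).card := by
  obtain ⟨X₀, hX₀⟩ := hz 3 le_rfl r hr (1 / 400) (by norm_num)
  refine ⟨max (X₀ * Real.exp (2 / 3)) (Real.exp 5), fun x hx => ?_⟩
  have hx1 : X₀ * Real.exp (2 / 3) ≤ x := (le_max_left _ _).trans hx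
  have hx2 : Real.exp 5 ≤ x := (le_max_right _ _).trans hx
  have hx0 : (0 : ℝ) < x := (Real.exp_pos 5).trans_le hx2
  have hlx : 5 ≤ Real.log x := by
    rw [Real.le_log_iff_exp_le hx0]
    exact hx2
  set X := (x : ℝ) * Real.exp (-(2 / 3)) with hX
  have hX0 : 0 < X := by positivity
  have hXX : X₀ ≤ X := by
    rw [hX, Real.exp_neg, ← div_eq_mul_inv, le_div_iff₀ (Real.exp_pos _)]
    exact hx1
  set Z := X * Real.exp (1 / 3) with hZ
  have hZ0 : 0 < Z := by positivity
  have hZx : Z * Real.exp (1 / 3) = x := by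
    rw [hZ, hX, mul_assoc, mul_assoc, ← Real.exp_add, ← Real.exp_add]
    norm_num
  have hlZ : Real.log Z = Real.log x - 1 / 3 := by
    rw [← hZx, Real.log_mul hZ0.ne' (Real.exp_pos _).ne', Real.log_exp]
    ring
  have hL : 3 ≤ Real.log Z := by linarith
  have hZ12 : 12 ≤ Z := by
    have h1 : Real.exp (14 / 3) ≤ Z := by
      rw [← Real.le_log_iff_exp_le hZ0, hlZ]
      linarith
    have h2 : (12 : ℝ) ≤ Real.exp (14 / 3) := by
      have h3 : Real.exp 4 ≤ Real.exp (14 / 3) := Real.exp_le_exp.mpr (by norm_num)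
      have h4 : Real.exp 4 = Real.exp 1 ^ 4 := by
        rw [← Real.exp_nat_mul]
        norm_num
      have h5 : (2 : ℝ) ≤ Real.exp 1 := by
        have := Real.exp_one_gt_d9
        linarith
      have h6 : (2 : ℝ) ^ 4 ≤ Real.exp 1 ^ 4 := pow_le_pow_left₀ (by norm_num) h5 4
      norm_num at h6
      linarith
    linarith
  have key := hX₀ X hXX
  rw [← hZ] at key
  have h1 := (abs_le.mp key).1
  have h2 := SO_ge hL hZ12
  have hXZ : X ≤ Z := by
    rw [hZ]
    have := Real.one_le_exp (show (0 : ℝ) ≤ 1 / 3 by norm_num)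
    nlinarith
  set K := (((Icc 1 x).filter (fun p => p.Prime ∧ p % 8 = r)).card : ℝ) with hK
  have h3 : psiR (fun p => p % 8 = r) 3 Z (fun _ => 1) ≤
      (Real.log Z + 1 / 3) * Real.exp (2 / 3) * K := by
    have h := psiR_le (R := fun p => p % 8 = r) le_rfl hZ0 hL x hZx.le
    rw [hK]
    convert h
  have hK0 : 0 ≤ K := by positivity
  have he23 : Real.exp (2 / 3) ≤ 2 := by
    have h := Real.exp_one_lt_d9
    have h1 : Real.exp (2 / 3) ^ 3 = Real.exp 1 ^ 2 := by
      rw [← Real.exp_nat_mul, ← Real.exp_nat_mul]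
      norm_num
    by_contra hcon
    push Not at hcon
    have h2 : (2 : ℝ) ^ 3 < Real.exp (2 / 3) ^ 3 :=
      pow_lt_pow_left₀ hcon (by norm_num) (by norm_num)
    rw [h1] at h2
    have h3 := Real.exp_pos 1
    have h4 : Real.exp 1 < 2.72 := h.trans (by norm_num)
    nlinarith
  have h4 : psiR (fun p => p % 8 = r) 3 Z (fun _ => 1) ≤ 2 * Real.log x * K := by
    refine h3.trans ?_
    rw [hlZ]
    have h5 : (Real.log x - 1 / 3 + 1 / 3) * Real.exp (2 / 3) * K =
      Real.exp (2 / 3) * (Real.log x * K) := by ring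
    rw [h5]
    have : 0 ≤ Real.log x * K := by positivity
    nlinarith
  have h5 : Z / 400 ≤ 2 * Real.log x * K := by linarith
  have h6 : (2 / 3 : ℝ) * x ≤ Z := by
    have h7 : Real.exp (1 / 3) ≤ 3 / 2 := by
      have h := Real.exp_one_lt_d9
      have h1 : Real.exp (1 / 3) ^ 3 = Real.exp 1 := by
        rw [← Real.exp_nat_mul]
        norm_num
      by_contra hcon
      push Not at hcon
      have h2 : (3 / 2 : ℝ) ^ 3 ≤ Real.exp (1 / 3) ^ 3 :=
        pow_le_pow_left₀ (by norm_num) hcon.le 3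
      rw [h1] at h2
      have h4 : Real.exp 1 < 2.72 := h.trans (by norm_num)
      norm_num at h2
      linarith
    rw [← hZx]
    nlinarith
  rw [div_le_iff₀ (by positivity)]
  nlinarith

open Classical in
/-- The odd primes in a short interval, upper bound. -/
theorem primes_le (hz : JF_zmP) {lam : ℝ} (hlam : 9 ≤ lam) :
    ∃ x₀ : ℝ, ∀ x N : ℕ, x₀ ≤ x → (N : ℝ) ≤ x * Real.exp (3 / lam) →
      (((Ioc x N).filter (fun p => p.Prime ∧ p % 8 ∈ ({1, 3, 5, 7} : Finset ℕ))).card : ℝ) ≤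
        432 * x / (lam * Real.log x) := by
  have hlam0 : 0 < lam := by linarith
  set l₂ := lam / 3 with hl₂
  have hl3 : 3 ≤ l₂ := by
    rw [hl₂]
    linarith
  have hl0 : 0 < l₂ := by linarith
  have hex : ∀ r ∈ ({1, 3, 5, 7} : Finset ℕ), ∃ X₀ : ℝ, ∀ X : ℝ, X₀ ≤ X →
    |psiR (fun p => p % 8 = r) l₂ (X * Real.exp (1 / l₂)) (fun _ => 1) -
      SO l₂ (X * Real.exp (1 / l₂)) / 4| ≤ (1 / l₂) * X :=
    fun r hr => hz l₂ hl3 r hr (1 / l₂) (by positivity)
  choose! X₀ hX₀ using hex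
  refine ⟨max (max (X₀ 1 + X₀ 3 + X₀ 5 + X₀ 7) 0 + (|X₀ 1| + |X₀ 3| + |X₀ 5| + |X₀ 7|) * 2)
    (max (Real.exp 5) (l₂)), fun x N hx hN => ?_⟩
  have hxA : max (X₀ 1 + X₀ 3 + X₀ 5 + X₀ 7) 0 + (|X₀ 1| + |X₀ 3| + |X₀ 5| + |X₀ 7|) * 2 ≤ x :=
    (le_max_left _ _).trans hx
  have hx2 : Real.exp 5 ≤ x := ((le_max_left _ _).trans (le_max_right _ _)).trans hx
  have hx3 : l₂ ≤ x := ((le_max_right _ _).trans (le_max_right _ _)).trans hx
  have hx0 : (0 : ℝ) < x := (Real.exp_pos 5).trans_le hx2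
  have hlx : 5 ≤ Real.log x := by
    rw [Real.le_log_iff_exp_le hx0]
    exact hx2
  -- the centre of the window is `x * exp (3 / (2 * lam))`
  set Z := (x : ℝ) * Real.exp (1 / (2 * l₂)) with hZ
  set X := Z * Real.exp (-(1 / l₂)) with hX
  have hZ0 : 0 < Z := by positivity
  have hX0 : 0 < X := by positivity
  have hZX : X * Real.exp (1 / l₂) = Z := by
    rw [hX, mul_assoc, ← Real.exp_add]
    simp
  have h13 : 1 / l₂ ≤ 1 / 3 := one_div_le_one_div_of_le (by norm_num) hl3
  have h10 : 0 < 1 / l₂ := by positivity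
  have h16 : 1 / (2 * l₂) = 1 / l₂ / 2 := by
    field_simp
  have hXx : (1 / 2 : ℝ) * x ≤ X := by
    have e1 : X = x * Real.exp (-(1 / l₂ / 2)) := by
      rw [hX, hZ, mul_assoc, ← Real.exp_add, h16]
      congr 2
      ring
    rw [e1]
    have := Real.add_one_le_exp (-(1 / l₂ / 2))
    nlinarith
  have hXr : ∀ r ∈ ({1, 3, 5, 7} : Finset ℕ), X₀ r ≤ X := by
    intro r hr
    have a1 := le_max_right (X₀ 1 + X₀ 3 + X₀ 5 + X₀ 7) 0
    have b1 := le_abs_self (X₀ 1)
    have b2 := le_abs_self (X₀ 3)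
    have b3 := le_abs_self (X₀ 5)
    have b4 := le_abs_self (X₀ 7)
    have c1 := abs_nonneg (X₀ 1)
    have c2 := abs_nonneg (X₀ 3)
    have c3 := abs_nonneg (X₀ 5)
    have c4 := abs_nonneg (X₀ 7)
    simp only [Finset.mem_insert, Finset.mem_singleton] at hr
    rcases hr with h | h | h | h <;> rw [h] <;> linarith
  have hlZ : Real.log Z = Real.log x + 1 / l₂ / 2 := by
    rw [hZ, Real.log_mul hx0.ne' (Real.exp_pos _).ne', Real.log_exp, h16]
  have hL : 3 ≤ Real.log Z := by linarith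
  have hxZ : (x : ℝ) ≤ Z := by
    rw [hZ]
    have := Real.one_le_exp (show (0 : ℝ) ≤ 1 / (2 * l₂) by positivity)
    nlinarith
  have hZ1 : Z ≤ 3 / 2 * x := by
    have h7 : Real.exp (1 / (2 * l₂)) ≤ 3 / 2 := by
      have h8 : Real.exp (1 / (2 * l₂)) ≤ Real.exp (1 / 3) := by
        apply Real.exp_le_exp.mpr
        rw [h16]
        linarith
      refine h8.trans ?_
      have h := Real.exp_one_lt_d9
      have h1 : Real.exp (1 / 3) ^ 3 = Real.exp 1 := by
        rw [← Real.exp_nat_mul]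
        norm_num
      by_contra hcon
      push Not at hcon
      have h2 : (3 / 2 : ℝ) ^ 3 ≤ Real.exp (1 / 3) ^ 3 :=
        pow_le_pow_left₀ (by norm_num) hcon.le 3
      rw [h1] at h2
      have h4 : Real.exp 1 < 2.72 := h.trans (by norm_num)
      norm_num at h2
      linarith
    rw [hZ]
    nlinarith
  have hSO := SO_le hl3 hL (hx3.trans hxZ)
  have hXZ : X ≤ Z := by
    rw [← hZX]
    have := Real.one_le_exp h10.le
    nlinarith
  -- one class
  have hone : ∀ r ∈ ({1, 3, 5, 7} : Finset ℕ),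
      (((Ioc x N).filter (fun p => p.Prime ∧ p % 8 = r)).card : ℝ) * (Real.log Z / 8) ≤
        3 * Z / l₂ := by
    intro r hr
    have h1 := hX₀ r hr X (hXr r hr)
    rw [hZX] at h1
    have h2 := (abs_le.mp h1).2
    have h3 : psiR (fun p => p % 8 = r) l₂ Z (fun _ => 1) ≤ 3 * Z / l₂ := by
      have e1 : 3 * Z / l₂ = 8 * Z / l₂ / 4 + 1 / l₂ * Z := by ring
      rw [e1]
      have : 1 / l₂ * X ≤ 1 / l₂ * Z := mul_le_mul_of_nonneg_left hXZ h10.le
      linarith
    refine le_trans (psiR_ge hl3 hZ0 hL _ ?_) h3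
    intro p hp
    simp only [Finset.mem_filter, Finset.mem_Ioc] at hp
    obtain ⟨⟨hp1, hp2⟩, hp3, hp4⟩ := hp
    refine ⟨hp3, hp4, ?_⟩
    have hp' : (0 : ℝ) < p := Nat.cast_pos.mpr hp3.pos
    have hpx : (x : ℝ) < p := by exact_mod_cast hp1
    have hpN : (p : ℝ) ≤ N := by exact_mod_cast hp2
    have g1 : Real.log x < Real.log p := Real.log_lt_log hx0 hpx
    have g2 : Real.log p ≤ Real.log x + 3 / lam := by
      rw [← Real.log_exp (3 / lam), ← Real.log_mul hx0.ne' (Real.exp_pos _).ne']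
      exact Real.log_le_log hp' (hpN.trans hN)
    have g3 : 3 / lam = 1 / l₂ := by
      rw [hl₂]
      field_simp
    rw [g3] at g2
    rw [Real.log_div hp'.ne' hZ0.ne', hlZ]
    have g4 : |Real.log p - (Real.log x + 1 / l₂ / 2)| ≤ 1 / l₂ / 2 := by
      rw [abs_le]
      constructor <;> linarith
    calc l₂ * |Real.log p - (Real.log x + 1 / l₂ / 2)| ≤ l₂ * (1 / l₂ / 2) :=
          mul_le_mul_of_nonneg_left g4 hl0.le
      _ = 1 / 2 := by
          field_simp
  have hsub : (((Ioc x N).filter (fun p => p.Prime ∧ p % 8 ∈ ({1, 3, 5, 7} : Finset ℕ))).card : ℝ) ≤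
      ∑ r ∈ ({1, 3, 5, 7} : Finset ℕ),
        (((Ioc x N).filter (fun p => p.Prime ∧ p % 8 = r)).card : ℝ) := by
    rw [← Nat.cast_sum]
    have h1 : (Ioc x N).filter (fun p => p.Prime ∧ p % 8 ∈ ({1, 3, 5, 7} : Finset ℕ)) ⊆
        ({1, 3, 5, 7} : Finset ℕ).biUnion
          (fun r => (Ioc x N).filter (fun p => p.Prime ∧ p % 8 = r)) := by
      intro p hp
      rw [Finset.mem_filter] at hp
      rw [Finset.mem_biUnion]
      exact ⟨p % 8, hp.2.2, Finset.mem_filter.mpr ⟨hp.1, hp.2.1, rfl⟩⟩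
    exact_mod_cast (Finset.card_le_card h1).trans Finset.card_biUnion_le
  have h4 := Finset.sum_le_sum hone
  rw [← Finset.sum_mul, Finset.sum_const] at h4
  have hc : (({1, 3, 5, 7} : Finset ℕ)).card = 4 := by decide
  rw [hc, nsmul_eq_mul] at h4
  set K := (((Ioc x N).filter
    (fun p => p.Prime ∧ p % 8 ∈ ({1, 3, 5, 7} : Finset ℕ))).card : ℝ) with hK
  have hK0 : 0 ≤ K := by positivity
  have h5 : K * (Real.log x / 8) ≤ 12 * (3 / 2 * x) / l₂ := by
    calc K * (Real.log x / 8) ≤ (∑ r ∈ ({1, 3, 5, 7} : Finset ℕ),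
        (((Ioc x N).filter (fun p => p.Prime ∧ p % 8 = r)).card : ℝ)) * (Real.log Z / 8) := by
          refine mul_le_mul hsub ?_ (by positivity) (hK0.trans hsub)
          linarith
      _ ≤ ((4 : ℕ) : ℝ) * (3 * Z / l₂) := h4
      _ = 12 * Z / l₂ := by
          push_cast
          ring
      _ ≤ 12 * (3 / 2 * x) / l₂ := by
          apply div_le_div_of_nonneg_right _ hl0.le
          linarith
  have e2 : 12 * (3 / 2 * (x : ℝ)) / l₂ = 54 * x / lam := by
    rw [hl₂]
    field_simp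
    ring
  rw [e2] at h5
  rw [le_div_iff₀ (by positivity)]
  rw [le_div_iff₀ hlam0] at h5
  nlinarith

end Pool.Agent.MP0016c7.PC.Zt
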