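import Mathlib
import Pool.Agent.Lib.MP_0016c7_nt.PC.ZtC

set_option autoImplicit false

/-!
From windows to counts: the final step.
-/

open Finset MeasureTheory Filter Topology
open scoped Real ContDiff

namespace Pool.Agent.MP0016c7.PC

open Pool.Agent.MP0016c7.PC.Zt

open Pool.Agent.MP0016c7.Rz
open Pool.Agent.BVall (OmL)
open Pool.Agent.MP89da58 (tri cX tri_nonneg tri_le_one cX_bounds)

open Classical in
private lemma natCard_eq (X : ℕ) (Q : ℕ → Prop) :
    Nat.card {p : ℕ | p ≤ X ∧ p.Prime ∧ Q p} =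
      ((Icc 1 X).filter (fun p => p.Prime ∧ Q p)).card := by
  rw [Nat.card_coe_set_eq, ← Set.ncard_coe_finset]
  congr 1
  ext p
  simp only [Set.mem_ofPred_eq, Finset.coe_filter, Finset.mem_Icc]
  constructor
  · rintro ⟨h1, h2, h3⟩
    exact ⟨⟨h2.pos, h1⟩, h2, h3⟩
  · rintro ⟨⟨_, h1⟩, h2, h3⟩
    exact ⟨h1, h2, h3⟩

private lemma exp_le_lin {t : ℝ} (h0 : 0 ≤ t) (h1 : t ≤ 1) : Real.exp t ≤ 1 + 2 * t := by
  have h2 := Real.exp_bound' h0 h1 (n := 2) (by norm_num)
  norm_num [Finset.sum_range_succ] at h2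
  nlinarith

open Classical in
/-- [Z] From windows to counts. -/
theorem total_of_zmP (hz : JF_zmP) : JF_total := by
  intro R NZ D S hS E E' hE hEE' hwin
  obtain ⟨lam₁, hlam₁⟩ := hwin
  obtain ⟨hS1, hS2, _, hS3⟩ := hS
  set Δ := E' - E with hΔ
  have hΔ0 : 0 < Δ := by linarith
  -- the parameter
  set lam := max (max lam₁ 9) (5000000 * (E + 1) / Δ) with hlam
  have hl1 : lam₁ ≤ lam := (le_max_left _ _).trans (le_max_left _ _)
  have hl9 : 9 ≤ lam := (le_max_right _ _).trans (le_max_left _ _)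
  have hl3 : 5000000 * (E + 1) / Δ ≤ lam := le_max_right _ _
  have hlam0 : 0 < lam := by linarith
  rw [div_le_iff₀ hΔ0] at hl3
  obtain ⟨X₀, hX₀⟩ := hlam₁ lam hl1 (by linarith)
  obtain ⟨r, hr⟩ := Finset.card_pos.mp hS2
  obtain ⟨x₁, hx₁⟩ := primes_ge hz (hS1 hr)
  obtain ⟨x₂, hx₂⟩ := primes_le hz hl9
  set y₀ := max X₀ (Real.exp 3) with hy₀
  have hy0 : 0 < y₀ := (Real.exp_pos 3).trans_le (le_max_right _ _)
  -- the final threshold
  have hlim : Tendsto (fun x : ℝ => x / Real.log x) atTop atTop := by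
    have h1 : Tendsto (fun x : ℝ => Real.log x / x) atTop (𝓝 0) :=
      (Real.isLittleO_log_id_atTop).tendsto_div_nhds_zero
    have h2 : Tendsto (fun x : ℝ => Real.log x / x) atTop (𝓝[>] 0) := by
      rw [tendsto_nhdsWithin_iff]
      refine ⟨h1, ?_⟩
      filter_upwards [eventually_gt_atTop (1 : ℝ)] with x hx
      exact div_pos (Real.log_pos hx) (by linarith)
    have h3 := h2.inv_tendsto_nhdsGT_zero
    refine h3.congr fun x => ?_
    simp only [Pi.inv_apply, inv_div]
  obtain ⟨x₃, hx₃⟩ := Filter.eventually_atTop.mp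
    (hlim.eventually_ge_atTop (10800 * y₀ / Δ))
  have hep : 0 < Real.exp (3 / lam) - Real.exp (2 / lam) := by
    have : Real.exp (2 / lam) < Real.exp (3 / lam) := by
      apply Real.exp_lt_exp.mpr
      exact div_lt_div_of_pos_right (by norm_num) hlam0
    linarith
  set x₄ := max (max (max x₁ x₂) (max x₃ y₀)) (max (Real.exp 5)
    (1 / (Real.exp (3 / lam) - Real.exp (2 / lam)))) with hx₄
  refine ⟨⌈x₄⌉₊, fun x hx => ?_⟩
  have hx' : x₄ ≤ x := (Nat.le_ceil _).trans (by exact_mod_cast hx)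
  have g1 : x₁ ≤ x := (((le_max_left _ _).trans (le_max_left _ _)).trans (le_max_left _ _)).trans hx'
  have g2 : x₂ ≤ x :=
    (((le_max_right _ _).trans (le_max_left _ _)).trans (le_max_left _ _)).trans hx'
  have g3 : x₃ ≤ x :=
    (((le_max_left _ _).trans (le_max_right _ _)).trans (le_max_left _ _)).trans hx'
  have g4 : y₀ ≤ x :=
    (((le_max_right _ _).trans (le_max_right _ _)).trans (le_max_left _ _)).trans hx'
  have g5 : Real.exp 5 ≤ x := ((le_max_left _ _).trans (le_max_right _ _)).trans hx'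
  have g6 : 1 / (Real.exp (3 / lam) - Real.exp (2 / lam)) ≤ x :=
    ((le_max_right _ _).trans (le_max_right _ _)).trans hx'
  have hx0 : (0 : ℝ) < x := (Real.exp_pos 5).trans_le g5
  have hlx : 5 ≤ Real.log x := by
    rw [Real.le_log_iff_exp_le hx0]
    exact g5
  rw [natCard_eq x (fun p => R p ∧ ¬ NZ p), natCard_eq x R]
  set N := ⌈(x : ℝ) * Real.exp (2 / lam)⌉₊ with hN
  have hN1 : (x : ℝ) * Real.exp (2 / lam) ≤ N := Nat.le_ceil _
  have hN2 : (N : ℝ) ≤ x * Real.exp (3 / lam) := by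
    have h1 : (N : ℝ) < x * Real.exp (2 / lam) + 1 := Nat.ceil_lt_add_one (by positivity)
    rw [div_le_iff₀ hep] at g6
    linarith
  have hxN : x ≤ N := by
    have h1 : (x : ℝ) ≤ N := by
      refine le_trans ?_ hN1
      have := Real.one_le_exp (show (0 : ℝ) ≤ 2 / lam by positivity)
      nlinarith
    exact_mod_cast h1
  have key := sum_windows (B := fun p => R p ∧ ¬ NZ p) (R := R) (lam := lam) (E := E) (X₀ := X₀)
    (y₀ := y₀) (by linarith) hE (le_max_right _ _) (le_max_left _ _) hX₀ x N g4 hN1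
  have hB := hx₁ x g1
  have hC := hx₂ x N g2 hN2
  set P := (((Icc 1 x).filter (fun p => p.Prime ∧ R p)).card : ℝ) with hP
  -- the good primes
  have hPge : (x : ℝ) / (1200 * Real.log x) ≤ P := by
    refine hB.trans ?_
    rw [hP]
    have h1 : (Icc 1 x).filter (fun p => p.Prime ∧ p % 8 = r) ⊆
        (Icc 1 x).filter (fun p => p.Prime ∧ R p) := by
      intro p hp
      simp only [Finset.mem_filter] at hp ⊢
      refine ⟨hp.1, hp.2.1, (hS3 p hp.2.1).mpr ?_⟩
      rw [hp.2.2]
      exact hr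
    exact_mod_cast Finset.card_le_card h1
  have hPN : (((Icc 1 N).filter (fun p => p.Prime ∧ R p)).card : ℝ) ≤
      P + 432 * x / (lam * Real.log x) := by
    have h1 : (Icc 1 N).filter (fun p => p.Prime ∧ R p) ⊆
        (Icc 1 x).filter (fun p => p.Prime ∧ R p) ∪
        (Ioc x N).filter (fun p => p.Prime ∧ p % 8 ∈ ({1, 3, 5, 7} : Finset ℕ)) := by
      intro p hp
      simp only [Finset.mem_filter, Finset.mem_Icc, Finset.mem_union, Finset.mem_Ioc] at hp ⊢
      by_cases h : p ≤ x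
      · exact Or.inl ⟨⟨hp.1.1, h⟩, hp.2⟩
      · exact Or.inr ⟨⟨by omega, hp.1.2⟩, hp.2.1, hS1 ((hS3 p hp.2.1).mp hp.2.2)⟩
    have h2 := (Finset.card_le_card h1).trans (Finset.card_union_le _ _)
    have h3 : (((Icc 1 N).filter (fun p => p.Prime ∧ R p)).card : ℝ) ≤
        (((Icc 1 x).filter (fun p => p.Prime ∧ R p)).card : ℝ) +
        (((Ioc x N).filter (fun p => p.Prime ∧ p % 8 ∈ ({1, 3, 5, 7} : Finset ℕ))).card : ℝ) := by
      exact_mod_cast h2
    linarith
  have hP0 : 0 ≤ P := by positivity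
  have hL0 : 0 < Real.log x := by linarith
  have hxL : (x : ℝ) / Real.log x ≤ 1200 * P := by
    rw [div_le_iff₀ (by positivity)] at hPge
    rw [div_le_iff₀ hL0]
    linarith
  -- the exponential factor
  have hexp : Real.exp (5 / lam) ≤ 1 + 10 / lam := by
    have h1 : 5 / lam ≤ 1 := by
      rw [div_le_one hlam0]
      linarith
    have h2 := exp_le_lin (show 0 ≤ 5 / lam by positivity) h1
    have : 2 * (5 / lam) = 10 / lam := by ring
    linarith
  have hexp2 : 1 + 10 / lam ≤ 3 := by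
    have : 10 / lam ≤ 2 := by
      rw [div_le_iff₀ hlam0]
      linarith
    linarith
  have t1 : E * (10 / lam) ≤ Δ / 3 := by
    rw [mul_div_assoc', div_le_iff₀ hlam0]
    linarith
  have t2 : E * 3 * (432 * x / (lam * Real.log x)) ≤ Δ / 3 * P := by
    have e1 : E * 3 * (432 * x / (lam * Real.log x)) = (1296 * E / lam) * (x / Real.log x) := by
      field_simp
      ring
    rw [e1]
    have h1 : 1296 * E / lam * 1200 ≤ Δ / 3 := by
      rw [div_mul_eq_mul_div, div_le_iff₀ hlam0]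
      linarith
    calc (1296 * E / lam) * (x / Real.log x) ≤ (1296 * E / lam) * (1200 * P) :=
          mul_le_mul_of_nonneg_left hxL (by positivity)
      _ = (1296 * E / lam * 1200) * P := by ring
      _ ≤ Δ / 3 * P := mul_le_mul_of_nonneg_right h1 hP0
  have t3 : 3 * y₀ ≤ Δ / 3 * P := by
    have h1 := hx₃ x g3
    rw [div_le_iff₀ hΔ0] at h1
    have h2 := h1.trans (mul_le_mul_of_nonneg_right hxL hΔ0.le)
    linarith
  have hExp0 : 0 ≤ E * Real.exp (5 / lam) := by positivity
  have hc0 : 0 ≤ 432 * (x : ℝ) / (lam * Real.log x) := by positivity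
  refine key.trans ?_
  calc 3 * y₀ + E * Real.exp (5 / lam) *
        (((Icc 1 N).filter (fun p => p.Prime ∧ R p)).card : ℝ)
      ≤ 3 * y₀ + E * Real.exp (5 / lam) * (P + 432 * x / (lam * Real.log x)) := by
        have := mul_le_mul_of_nonneg_left hPN hExp0
        linarith
    _ = 3 * y₀ + E * Real.exp (5 / lam) * P +
        E * Real.exp (5 / lam) * (432 * x / (lam * Real.log x)) := by ring
    _ ≤ Δ / 3 * P + (E + Δ / 3) * P + Δ / 3 * P := by
        have s1 : E * Real.exp (5 / lam) ≤ E + Δ / 3 := by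
          calc E * Real.exp (5 / lam) ≤ E * (1 + 10 / lam) := mul_le_mul_of_nonneg_left hexp hE
            _ = E + E * (10 / lam) := by ring
            _ ≤ E + Δ / 3 := by linarith
        have s2 : E * Real.exp (5 / lam) ≤ E * 3 :=
          mul_le_mul_of_nonneg_left (hexp.trans hexp2) hE
        have s3 := mul_le_mul_of_nonneg_right s1 hP0
        have s4 := mul_le_mul_of_nonneg_right s2 hc0
        linarith
    _ = E' * P := by
        rw [hΔ]
        ring

end Pool.Agent.MP0016c7.PC
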