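import Mathlib
import Pool.Agent.Lib.MP_0016c7_nt.Rz2.Qls
import Pool.Agent.Lib.MP_0016c7_nt.PC.A.Mdx
import Pool.Agent.Lib.MP_0016c7_nt.PC.A.Win
import Pool.Agent.Lib.MP_0016c7_nt.PC.A.A_SO
import Pool.Agent.Lib.MP_0016c7_nt.PC.A.A_tri
import Pool.Agent.Lib.MP_0016c7_nt.PC.A.A_F
import Pool.Agent.Lib.MP_0016c7_nt.PC.A.A_dom
import Pool.Agent.Lib.MP_0016c7_nt.PC.A.A_CC
import Pool.Agent.Lib.MP_0016c7_nt.PC.A.A_m0
import Pool.Agent.Lib.MP_0016c7_nt.PC.A.A_m2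
import Pool.Agent.Lib.MP_0016c7_nt.PC.A.A_m2s
import Pool.Agent.Lib.MP_0016c7_nt.PC.A.A_badsum
import Pool.Agent.Lib.MP_0016c7_nt.PC.A.A_bad
import Pool.Agent.Lib.MP_0016c7_nt.PC.A.A_pert
import Pool.Agent.Lib.MP_0016c7_nt.PC.A.A_prof
import Pool.Agent.Lib.MP_0016c7_nt.PC.A.A_lin
import Pool.Agent.Lib.MP_0016c7_nt.PC.A.A_sumP
import Pool.Agent.Lib.MP_0016c7_nt.PC.Sv.SIface
import Pool.Agent.Lib.MP_0016c7_nt.PC.W.Fin
import Pool.Agent.Lib.MP_0016c7_nt.PC.E.Fin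
import Pool.Agent.Lib.MP_0016c7_nt.PC.TwE
import Pool.Agent.Lib.MP_0016c7_nt.PC.G.Asm
import Pool.Agent.Lib.MP_0016c7_nt.PC.H.Fin
import Pool.Agent.Lib.MP_0016c7_nt.PC.C.Fin
import Pool.Agent.Lib.MP_0016c7_nt.PC.ZtD
import Pool.Agent.Lib.MP_0016c7_nt.PC.FinC

set_option autoImplicit false

/-!
Project PrimeConductors: the main theorem from the moments over the primes.
-/

open Finset MeasureTheory Filter Topology
open scoped Real ContDiff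

namespace Pool.Agent.MP0016c7.PC

open Pool.Agent.MP0016c7.Rz

/-- [A] The window estimate from the moments over the primes. -/
theorem window_of (h3 : JF_covP) (h4 : JF_fmP) (h5 : JF_zmP) : JF_window :=
  jf_window (p_A_MD p_A_SO (p_A_F p_A_tri) (p_A_dom p_A_sumP) p_A_CC (p_A_m0 p_A_sumP p_A_cl)
      (p_A_m1 p_A_sumP p_A_cl p_A_CC) (p_A_m2 p_A_sumP p_A_cl p_A_CC) (p_A_m2s p_A_sumS p_A_CC))
    (p_A_badsum (p_A_bad p_A_prof) p_A_pert p_A_sumP) p_A_prof p_A_lin p_A_sumP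
    IF_sieve_proof (jf_smW jf_err jf_quadp) h3 h4 h5

/-- The certificate with the energy bound. -/
theorem cert_data : ∃ (δ κ μ E : ℝ) (J : ℕ) (ws cs : ℕ → ℝ) (w u₁ u₂ y : ℝ → ℝ)
      (g₁ g₂ : ℝ), CertM 0 δ κ μ J ws cs w u₁ u₂ y g₁ g₂ ∧ EnBd J ws cs δ κ w u₁ u₂ y g₁ g₂ E ∧
      E < 449 / 1000 := by
  have h := certM_fin
  exact ⟨_, _, _, _, _, _, _, _, _, _, _, _, _, h,
    jf_core _ _ _ _ _ _ _ _ _ _ _ _ _ _ _ _ _ _ h.hδ h.hδ' (by linarith [h.hκ]) h.hJ h.hws₀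
      h.hws h.hcs h.hw h.hwp h.hu₁ h.hu₂ h.hy h.hg₁ h.hg₂ certE_fin, by norm_num⟩

/-- The main theorem from the moments over the primes. -/
theorem main_prime_X (h3 : JF_covP) (h4 : JF_fmP) (h5 : JF_zmP) (A : ℝ) (hA : 0 ≤ A) :
    ∃ Q₀ : ℕ, ∀ Q : ℕ, Q₀ ≤ Q → ∀ S : Set (ℕ × ℂ × ℂ),
      (1 - min (449 / 1000) (12 * (A + 1) * Real.exp (-A))) *
        Nat.card {x : (q : ℕ) × DirichletCharacter ℂ q |
          x ∈ PQ Q ∧ (∃ p k : ℕ, p.Prime ∧ p ≠ 2 ∧ x.1 = 2 ^ k * p) ∧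
            (Nat.gcd x.1 8, x.2 (-1), x.2 2) ∈ S} ≤
      Nat.card {x : (q : ℕ) × DirichletCharacter ℂ q |
        (x ∈ PQ Q ∧ (∃ p k : ℕ, p.Prime ∧ p ≠ 2 ∧ x.1 = 2 ^ k * p) ∧
          (Nat.gcd x.1 8, x.2 (-1), x.2 2) ∈ S) ∧
        ∀ (N : ℕ) (_ : NeZero N) (hN : x.1 ∣ N) (s : ℝ), 0 < s → s < 1 →
          A ≤ |s - 1 / 2| * Real.log x.1 →
          ((DirichletCharacter.changeLevel hN x.2).LFunction s).im = 0 ∧
            0 < ((DirichletCharacter.changeLevel hN x.2).LFunction s).re} :=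
  haveI := qlsHyp
  main_prime_of (window_of h3 h4 h5) (total_of_zmP h5) jf_fam0 jf_famW jf_pt cert_data A hA

end Pool.Agent.MP0016c7.PC
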