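import Mathlib
import Pool.Agent.Lib.MP_0016c7_nt.Theta
import Pool.Agent.Lib.MP_0016c7_nt.Rz.Defs
import Pool.Agent.Lib.MP_0016c7_nt.Rz.DefsC
import Pool.Agent.Lib.MP_0016c7_nt.Rz.DefsF
import Pool.Agent.Lib.MP_0016c7_nt.Rz.DefsE
import Pool.Agent.Lib.MP_0016c7_nt.PC.DefsM
import Pool.Agent.Lib.MP_0016c7_nt.PC.Qap
import Pool.Agent.Lib.MP_0016c7_nt.PC.Qbp
import Pool.Agent.Lib.MP_0016c7_nt.Rz.BBm
import Pool.Agent.Lib.MP_0016c7_nt.Rz.BBi
import Pool.Agent.Lib.MP_0016c7_nt.Rz.Qe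
import Pool.Agent.Lib.MP_0016c7_nt.Rz2.DefsG

set_option autoImplicit false

/-!
Bound of the Dirichlet series, general kernels.
-/

open Finset MeasureTheory Filter Topology
open scoped Real ContDiff

namespace Pool.Agent.MP0016c7.PC

open Pool.Agent.MP0016c7.Rz


theorem measurable_OOp_z (r : ℕ) (s₁ w₁ s₂ w₂ : ℂ) :
    Measurable fun z : ℂ => OOp r s₁ w₁ s₂ w₂ z := by
  unfold OOp bzp bz
  refine Measurable.tsum fun N => ?_
  split_ifs
  · refine Measurable.div_const (Measurable.const_mul (Measurable.const_mul (Measurable.const_mul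
      (Finset.measurable_sum _ fun e _ => Measurable.const_mul ?_ _) _) _) _) _
    exact measurable_const.pow measurable_id
  · exact measurable_const

/-- the integrand of the second part of `QX` in the variable `t = L ζ` -/
noncomputable def QeGp (β : ℂ → ℂ) (r : ℕ) (X : ℝ) (s₁ w₁ s₂ w₂ : ℂ) (t : ℝ) : ℂ :=
  β ((1 + Complex.I * t) / Real.log X) *
    (((X / (2 * r ^ 2) : ℝ)) : ℂ) ^ (-((1 + Complex.I * t) / Real.log X)) *
    (OOp r (s₁ / Real.log X) (w₁ / Real.log X) (s₂ / Real.log X) (w₂ / Real.log X)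
        ((1 + Complex.I * t) / Real.log X) -
      OOp r (s₁ / Real.log X) (w₁ / Real.log X) (s₂ / Real.log X) (w₂ / Real.log X) 0) /
    (1 + Complex.I * t)

private theorem qeg_line_eq (L t : ℝ) :
    (1 + Complex.I * t) / (L : ℂ) = ((1 / L : ℝ) : ℂ) + Complex.I * ((t / L : ℝ) : ℂ) := by
  push_cast
  ring

private theorem qeg_line_re (L t : ℝ) : ((1 + Complex.I * t) / (L : ℂ)).re = 1 / L := by
  rw [qeg_line_eq]
  simp

private theorem qeg_line_im (L t : ℝ) : ((1 + Complex.I * t) / (L : ℂ)).im = t / L := by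
  rw [qeg_line_eq]
  simp

private theorem qeg_norm_line (t : ℝ) : (1 + |t|) / 2 ≤ ‖(1 : ℂ) + Complex.I * t‖ := by
  have h1 : |((1 : ℂ) + Complex.I * t).re| ≤ ‖(1 : ℂ) + Complex.I * t‖ :=
    Complex.abs_re_le_norm _
  have h2 : |((1 : ℂ) + Complex.I * t).im| ≤ ‖(1 : ℂ) + Complex.I * t‖ :=
    Complex.abs_im_le_norm _
  simp at h1 h2
  linarith

private theorem qeg_line_ne (t : ℝ) : (1 : ℂ) + Complex.I * t ≠ 0 := by
  intro h
  have := congrArg Complex.re h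
  simp at this

/-- the power is bounded on the line -/
private theorem qeg_pow_bound (r : ℕ) (hr : 1 ≤ r) (X : ℝ) (hX : 0 < X) (hL : 1 ≤ Real.log X)
    (z : ℂ) (hz : z.re = 1 / Real.log X) :
    ‖(((X / (2 * r ^ 2) : ℝ)) : ℂ) ^ (-z)‖ ≤ 2 * (r : ℝ) ^ 2 := by
  have hr' : (1 : ℝ) ≤ r := by exact_mod_cast hr
  have hr2 : (0 : ℝ) < 2 * (r : ℝ) ^ 2 := by positivity
  have hY : 0 < X / (2 * (r : ℝ) ^ 2) := by positivity
  rw [Complex.norm_cpow_eq_rpow_re_of_pos hY, Complex.neg_re, hz, Real.rpow_def_of_pos hY,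
    Real.log_div hX.ne' hr2.ne']
  have h0 : 0 ≤ Real.log (2 * (r : ℝ) ^ 2) := Real.log_nonneg (by nlinarith only [hr', hr2])
  have h1 : (Real.log X - Real.log (2 * (r : ℝ) ^ 2)) * -(1 / Real.log X) ≤
      Real.log (2 * (r : ℝ) ^ 2) := by
    have hL0 : 0 < Real.log X := by linarith
    have e : (Real.log X - Real.log (2 * (r : ℝ) ^ 2)) * -(1 / Real.log X) =
        -1 + Real.log (2 * (r : ℝ) ^ 2) / Real.log X := by
      field_simp
      ring
    rw [e]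
    have := div_le_self h0 hL
    linarith only [this]
  calc Real.exp ((Real.log X - Real.log (2 * (r : ℝ) ^ 2)) * -(1 / Real.log X))
      ≤ Real.exp (Real.log (2 * (r : ℝ) ^ 2)) := Real.exp_le_exp.2 h1
    _ = 2 * (r : ℝ) ^ 2 := Real.exp_log hr2

private theorem qeg_weight_bound (L t A B : ℝ) (hL : 1 ≤ L) (hA : 0 ≤ A) (hB : 0 ≤ B) (z : ℂ)
    (hz : |t| / L ≤ ‖z‖) (hB1 : B * (1 + ‖z‖) ^ (A + 2) ≤ 1) :
    B * (1 + |t| / L) ^ A * (1 / (1 + |t|) + 1 / L) ≤ 2 / (1 + |t|) := by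
  have hL0 : 0 < L := by linarith
  have hu : 1 ≤ 1 + |t| / L := by
    have : 0 ≤ |t| / L := by positivity
    linarith
  have hu0 : 0 < 1 + |t| / L := by linarith
  have h1 : B * (1 + |t| / L) ^ (A + 2) ≤ 1 := by
    refine le_trans (mul_le_mul_of_nonneg_left ?_ hB) hB1
    exact Real.rpow_le_rpow hu0.le (by linarith) (by linarith)
  have h2 : B * (1 + |t| / L) ^ A * (1 + |t| / L) ^ 2 ≤ 1 := by
    rw [Real.rpow_add hu0, ← mul_assoc] at h1
    exact_mod_cast h1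
  set w := B * (1 + |t| / L) ^ A with hw
  have hw0 : 0 ≤ w := by positivity
  have h3 : w ≤ 1 := (le_mul_of_one_le_right hw0 (one_le_pow₀ hu)).trans h2
  have h4 : w * (1 + |t| / L) ≤ 1 := by
    nlinarith only [h2, hw0, hu0, hu, mul_nonneg hw0 (by linarith only [hu] : (0:ℝ) ≤ |t| / L), mul_nonneg (mul_nonneg hw0 hu0.le)
      (by linarith only [hu] : (0:ℝ) ≤ (1 + |t| / L) - 1)]
  have ht : 0 < 1 + |t| := by positivity
  have h5 : w * (1 / (1 + |t|)) ≤ 1 / (1 + |t|) := by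
    have : 0 ≤ 1 / (1 + |t|) := by positivity
    nlinarith only [h3, this]
  have h6 : w * (1 / L) ≤ 1 / (1 + |t|) := by
    have e : w * (1 + |t| / L) = w * (1 / L) * (L + |t|) := by field_simp
    rw [e] at h4
    rw [le_div_iff₀ ht]
    have : 0 ≤ w * (1 / L) := by positivity
    nlinarith only [h4, hL, this]
  have e : 2 / (1 + |t|) = 1 / (1 + |t|) + 1 / (1 + |t|) := by ring
  rw [e, mul_add]
  linarith only [h5, h6]

/-- the majorant of the integrand -/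
theorem QeGp_bound {β : ℂ → ℂ} {B : ℝ → ℝ} (hβ : BC β B) (r : ℕ) (hr : Odd r) : ∃ C A X₀ : ℝ, 0 < C ∧ 0 < A ∧ ∀ X : ℝ, X₀ ≤ X →
    ∀ a' b' c' d' t : ℝ,
    ‖QeGp β r X (2 + Complex.I * a') (3 + Complex.I * b') (5 / 2 + Complex.I * c')
      (3 + Complex.I * d') t‖ ≤
      C * ((1 + |a'|) * (1 + |b'|) * (1 + |c'|) * (1 + |d'|)) ^ A * (1 + t ^ 2)⁻¹ := by
  obtain ⟨C₁, A₁, L₁, hC₁, hA₁, h1⟩ := OOp_diff_bound r hr
  obtain ⟨C₂, hC₂, h2⟩ := hβ.bd (A₁ + 2)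
  have hr1 : 1 ≤ r := hr.pos
  refine ⟨C₂ * (2 * (r : ℝ) ^ 2) * C₁ * 4, A₁, Real.exp (max L₁ 8), by positivity, hA₁, ?_⟩
  intro X hX a' b' c' d' t
  have hX0 : 0 < X := (Real.exp_pos _).trans_le hX
  have hLm : max L₁ 8 ≤ Real.log X := (Real.le_log_iff_exp_le hX0).2 hX
  have hL1 : L₁ ≤ Real.log X := (le_max_left _ _).trans hLm
  have hL8 : 8 ≤ Real.log X := (le_max_right _ _).trans hLm
  have hL : 1 ≤ Real.log X := by linarith
  have hL0 : 0 < Real.log X := by linarith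
  set z : ℂ := (1 + Complex.I * t) / Real.log X with hz
  have hzre : z.re = 1 / Real.log X := qeg_line_re _ _
  have hzn : |t| / Real.log X ≤ ‖z‖ := by
    have := Complex.abs_im_le_norm z
    rw [hz, qeg_line_im, abs_div, abs_of_pos hL0] at this
    exact this
  have hb := (h2 z (by rw [hzre, abs_of_pos (by positivity)]; exact one_div_le_one_div_of_le (by norm_num) hL8)).1
  have hp := qeg_pow_bound r hr1 X hX0 hL z hzre
  have ho := h1 (Real.log X) hL1 a' b' c' d' t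
  set P : ℝ := ((1 + |a'|) * (1 + |b'|) * (1 + |c'|) * (1 + |d'|)) ^ A₁ with hP
  have hP0 : 0 ≤ P := by (clear * -; positivity)
  set O : ℝ := ‖OOp r ((2 + Complex.I * a') / Real.log X) ((3 + Complex.I * b') / Real.log X)
    ((5 / 2 + Complex.I * c') / Real.log X) ((3 + Complex.I * d') / Real.log X) z -
    OOp r ((2 + Complex.I * a') / Real.log X) ((3 + Complex.I * b') / Real.log X)
    ((5 / 2 + Complex.I * c') / Real.log X) ((3 + Complex.I * d') / Real.log X) 0‖ with hO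
  have hw := qeg_weight_bound (Real.log X) t A₁ (‖β z‖ / C₂) hL hA₁.le (by positivity) z hzn
    (by rw [div_mul_eq_mul_div]; exact (div_le_one hC₂).2 hb)
  have hn := qeg_norm_line t
  have ht : 0 < 1 + |t| := by positivity
  have hn0 : 0 < ‖(1 : ℂ) + Complex.I * t‖ := by
    refine lt_of_lt_of_le ?_ hn
    positivity
  unfold QeGp
  rw [norm_div, norm_mul, norm_mul, ← hz, ← hO]
  have hmain : ‖β z‖ * O ≤ C₂ * C₁ * P * (2 / (1 + |t|)) := by
    calc ‖β z‖ * O ≤ ‖β z‖ * (C₁ * P * (1 + |t| / Real.log X) ^ A₁ *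
          (1 / (1 + |t|) + 1 / Real.log X)) := mul_le_mul_of_nonneg_left ho (norm_nonneg _)
      _ = C₂ * C₁ * P * (‖β z‖ / C₂ * (1 + |t| / Real.log X) ^ A₁ *
          (1 / (1 + |t|) + 1 / Real.log X)) := by field_simp
      _ ≤ C₂ * C₁ * P * (2 / (1 + |t|)) := mul_le_mul_of_nonneg_left hw (by (clear * - hC₂ hC₁; positivity))
  have hO0 : 0 ≤ O := norm_nonneg _
  have hmul : ‖β z‖ * ‖(((X / (2 * r ^ 2) : ℝ)) : ℂ) ^ (-z)‖ * O ≤
      (2 * (r : ℝ) ^ 2) * (C₂ * C₁ * P * (2 / (1 + |t|))) := by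
    calc ‖β z‖ * ‖(((X / (2 * r ^ 2) : ℝ)) : ℂ) ^ (-z)‖ * O
        = ‖(((X / (2 * r ^ 2) : ℝ)) : ℂ) ^ (-z)‖ * (‖β z‖ * O) := by ring
      _ ≤ (2 * (r : ℝ) ^ 2) * (C₂ * C₁ * P * (2 / (1 + |t|))) :=
          mul_le_mul hp hmain (by positivity) (by positivity)
  rw [div_le_iff₀ hn0]
  refine hmul.trans ?_
  have h7 : 2 / (1 + |t|) ≤ 4 * (1 + t ^ 2)⁻¹ * ‖(1 : ℂ) + Complex.I * t‖ := by
    have h8 : 4 * (1 + t ^ 2)⁻¹ * ((1 + |t|) / 2) ≤ 4 * (1 + t ^ 2)⁻¹ * ‖(1 : ℂ) + Complex.I * t‖ :=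
      mul_le_mul_of_nonneg_left hn (by positivity)
    refine le_trans ?_ h8
    have h9 : 0 < 1 + t ^ 2 := by positivity
    rw [div_le_iff₀ ht]
    have e : 4 * (1 + t ^ 2)⁻¹ * ((1 + |t|) / 2) * (1 + |t|) =
        2 * ((1 + |t|) ^ 2 * (1 + t ^ 2)⁻¹) := by ring
    rw [e, ← div_eq_mul_inv]
    have h10 : 1 ≤ (1 + |t|) ^ 2 / (1 + t ^ 2) := by
      rw [one_le_div h9]
      have := sq_abs t
      nlinarith only [this, abs_nonneg t]
    linarith only [h10]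
  calc 2 * (r : ℝ) ^ 2 * (C₂ * C₁ * P * (2 / (1 + |t|)))
      = (2 * (r : ℝ) ^ 2 * (C₂ * C₁ * P)) * (2 / (1 + |t|)) := by ring
    _ ≤ (2 * (r : ℝ) ^ 2 * (C₂ * C₁ * P)) * (4 * (1 + t ^ 2)⁻¹ * ‖(1 : ℂ) + Complex.I * t‖) :=
        mul_le_mul_of_nonneg_left h7 (by (clear * - hr1 hC₂ hC₁; positivity))
    _ = C₂ * (2 * (r : ℝ) ^ 2) * C₁ * 4 * P * (1 + t ^ 2)⁻¹ * ‖(1 : ℂ) + Complex.I * t‖ := by ring

private theorem qeg_measurable_bb_line {β : ℂ → ℂ} {B : ℝ → ℝ} (hβ : BC β B) (L : ℝ) (hL : 8 ≤ L) :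
    Measurable fun t : ℝ => β ((1 + Complex.I * t) / (L : ℂ)) := by
  have h1 := hβ.ct (1 / L)
    (by rw [abs_of_pos (by positivity)]; exact one_div_le_one_div_of_le (by norm_num) hL)
  have h2 : (fun t : ℝ => β ((1 + Complex.I * t) / (L : ℂ))) =
      (fun t : ℝ => β (((1 / L : ℝ) : ℂ) + Complex.I * t)) ∘ fun t : ℝ => t / L := by
    funext t
    simp only [Function.comp]
    rw [qeg_line_eq]
  rw [h2]
  exact (h1.comp (by fun_prop)).measurable

private theorem qeg_measurable_pow_line (Y L : ℝ) :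
    Measurable fun t : ℝ => ((Y : ℝ) : ℂ) ^ (-((1 + Complex.I * t) / (L : ℂ))) := by
  refine measurable_const.pow ?_
  fun_prop

theorem measurable_QeGp {β : ℂ → ℂ} {B : ℝ → ℝ} (hβ : BC β B) (r : ℕ) (X : ℝ) (hL : 8 ≤ Real.log X)
    (s₁ w₁ s₂ w₂ : ℂ) :
    Measurable (QeGp β r X s₁ w₁ s₂ w₂) := by
  unfold QeGp
  refine Measurable.div ?_ (by fun_prop)
  refine Measurable.mul (Measurable.mul (qeg_measurable_bb_line hβ _ hL)
    (qeg_measurable_pow_line _ _)) ?_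
  refine Measurable.sub_const ?_ _
  exact (measurable_OOp_z r _ _ _ _).comp (by fun_prop)

private theorem qeg_g_integrable {β : ℂ → ℂ} {B : ℝ → ℝ} (hβ : BC β B) (r : ℕ) (hr : 1 ≤ r) (X : ℝ) (hX : 0 < X)
    (hL : 8 ≤ Real.log X) :
    Integrable fun t : ℝ => β ((1 + Complex.I * t) / Real.log X) *
      (((X / (2 * r ^ 2) : ℝ)) : ℂ) ^ (-((1 + Complex.I * t) / Real.log X)) /
      (1 + Complex.I * t) := by
  obtain ⟨C₂, hC₂, h2⟩ := hβ.bd 2
  have hL0 : 0 < Real.log X := by linarith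
  set L := Real.log X with hLdef
  have hm : Integrable fun t : ℝ => (C₂ * (2 * (r : ℝ) ^ 2)) * (1 + (t / L) ^ 2)⁻¹ := by
    refine Integrable.const_mul ?_ _
    have := integrable_inv_one_add_sq.comp_mul_left' (R := 1 / L) (by positivity)
    refine this.congr (Eventually.of_forall fun t => ?_)
    simp only
    congr 3
    ring
  refine hm.mono' ?_ (Eventually.of_forall fun t => ?_)
  · refine Measurable.aestronglyMeasurable ?_
    exact Measurable.div (Measurable.mul (qeg_measurable_bb_line hβ _ hL)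
      (qeg_measurable_pow_line _ _)) (by fun_prop)
  · set z : ℂ := (1 + Complex.I * t) / (L : ℂ) with hz
    have hzre : z.re = 1 / L := qeg_line_re _ _
    have hzn : |t / L| ≤ ‖z‖ := by
      have := Complex.abs_im_le_norm z
      rwa [hz, qeg_line_im] at this
    have hb := (h2 z (by rw [hzre, abs_of_pos (by positivity)]; exact one_div_le_one_div_of_le (by norm_num) hL)).1
    have hp := qeg_pow_bound r hr X hX (by linarith) z hzre
    have hn : 1 ≤ ‖(1 : ℂ) + Complex.I * t‖ := by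
      have h1 : |((1 : ℂ) + Complex.I * t).re| ≤ ‖(1 : ℂ) + Complex.I * t‖ :=
        Complex.abs_re_le_norm _
      simpa using h1
    rw [norm_div, norm_mul]
    have hb2 : ‖β z‖ * (1 + (t / L) ^ 2) ≤ C₂ := by
      refine le_trans (mul_le_mul_of_nonneg_left ?_ (norm_nonneg _)) hb
      have e : (1 + ‖z‖) ^ (2 : ℝ) = (1 + ‖z‖) ^ 2 := by norm_num
      rw [e, ← sq_abs (t / L)]
      nlinarith only [hzn, norm_nonneg z, abs_nonneg (t / L)]
    have hb3 : ‖β z‖ ≤ C₂ * (1 + (t / L) ^ 2)⁻¹ := by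
      rw [← div_eq_mul_inv, le_div_iff₀ (by positivity)]
      exact hb2
    calc ‖β z‖ * ‖(((X / (2 * r ^ 2) : ℝ)) : ℂ) ^ (-z)‖ / ‖(1 : ℂ) + Complex.I * t‖
        ≤ ‖β z‖ * ‖(((X / (2 * r ^ 2) : ℝ)) : ℂ) ^ (-z)‖ :=
          div_le_self (by positivity) hn
      _ ≤ (C₂ * (1 + (t / L) ^ 2)⁻¹) * (2 * (r : ℝ) ^ 2) :=
          mul_le_mul hb3 hp (norm_nonneg _) (by positivity)
      _ = C₂ * (2 * (r : ℝ) ^ 2) * (1 + (t / L) ^ 2)⁻¹ := by ring

/-- substitution `t = L ζ` on the line `1 / L` -/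
private theorem qeg_line_subst (L : ℝ) (hL : 0 < L) (f : ℂ → ℂ) :
    ∫ ζ : ℝ, f (1 / (L : ℂ) + Complex.I * ζ) / (1 / (L : ℂ) + Complex.I * ζ) =
      ∫ t : ℝ, f ((1 + Complex.I * t) / (L : ℂ)) / (1 + Complex.I * t) := by
  have hLc : (L : ℂ) ≠ 0 := by exact_mod_cast hL.ne'
  have h1 : ∀ ζ : ℝ, f (1 / (L : ℂ) + Complex.I * ζ) / (1 / (L : ℂ) + Complex.I * ζ) =
      (fun t : ℝ => (L : ℂ) * (f ((1 + Complex.I * t) / (L : ℂ)) / (1 + Complex.I * t)))
        (L * ζ) := by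
    intro ζ
    simp only
    have e1 : (1 + Complex.I * ((L * ζ : ℝ) : ℂ)) / (L : ℂ) = 1 / (L : ℂ) + Complex.I * ζ := by
      push_cast
      field_simp
    have e2 : (1 + Complex.I * ((L * ζ : ℝ) : ℂ)) = (L : ℂ) * (1 / (L : ℂ) + Complex.I * ζ) := by
      push_cast
      field_simp
    rw [e1, e2, ← mul_div_assoc, mul_div_mul_left _ _ hLc]
  rw [integral_congr_ae (Eventually.of_forall h1), MeasureTheory.Measure.integral_comp_mul_left
    (fun t : ℝ => (L : ℂ) * (f ((1 + Complex.I * t) / (L : ℂ)) / (1 + Complex.I * t))) L,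
    integral_const_mul, abs_of_pos (by positivity), Complex.real_smul, ← mul_assoc]
  push_cast
  rw [inv_mul_cancel₀ hLc, one_mul]

theorem QeGp_integrable {β : ℂ → ℂ} {B : ℝ → ℝ} (hβ : BC β B) (r : ℕ) (hr : Odd r) : ∃ X₀ : ℝ, ∀ X : ℝ, X₀ ≤ X →
    ∀ a' b' c' d' : ℝ,
    Integrable (QeGp β r X (2 + Complex.I * a') (3 + Complex.I * b') (5 / 2 + Complex.I * c')
      (3 + Complex.I * d')) := by
  obtain ⟨C, A, X₀, hC, hA, h⟩ := QeGp_bound hβ r hr
  refine ⟨max X₀ (Real.exp 8), fun X hX a' b' c' d' => ?_⟩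
  have hX0 : 0 < X := (Real.exp_pos 8).trans_le ((le_max_right _ _).trans hX)
  have hL : 8 ≤ Real.log X := (Real.le_log_iff_exp_le hX0).2 ((le_max_right _ _).trans hX)
  have hm : Integrable fun t : ℝ =>
      C * ((1 + |a'|) * (1 + |b'|) * (1 + |c'|) * (1 + |d'|)) ^ A * (1 + t ^ 2)⁻¹ :=
    integrable_inv_one_add_sq.const_mul _
  exact hm.mono' (measurable_QeGp hβ r X hL _ _ _ _).aestronglyMeasurable
    (Eventually.of_forall fun t => h X ((le_max_left _ _).trans hX) a' b' c' d' t)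

/-- the decomposition of `QX` -/
theorem QX_splitp {β : ℂ → ℂ} {B : ℝ → ℝ} (hβ : BC β B) (r : ℕ) (hr : Odd r) : ∃ X₀ : ℝ, ∀ X : ℝ, X₀ ≤ X → ∀ a' b' c' d' : ℝ,
    QXgp β r X (2 + Complex.I * a') (3 + Complex.I * b') (5 / 2 + Complex.I * c')
      (3 + Complex.I * d') =
    OOp r ((2 + Complex.I * a') / Real.log X) ((3 + Complex.I * b') / Real.log X)
      ((5 / 2 + Complex.I * c') / Real.log X) ((3 + Complex.I * d') / Real.log X) 0 *
      (1 - (B (X / (2 * r ^ 2)) : ℂ) / 2) -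
    1 / (4 * π) * ∫ t : ℝ, QeGp β r X (2 + Complex.I * a') (3 + Complex.I * b')
      (5 / 2 + Complex.I * c') (3 + Complex.I * d') t := by
  obtain ⟨X₀, h⟩ := QeGp_integrable hβ r hr
  refine ⟨max X₀ (Real.exp 8), fun X hX a' b' c' d' => ?_⟩
  have hX0 : 0 < X := (Real.exp_pos 8).trans_le ((le_max_right _ _).trans hX)
  have hL : 8 ≤ Real.log X := (Real.le_log_iff_exp_le hX0).2 ((le_max_right _ _).trans hX)
  have hL0 : 0 < Real.log X := by linarith
  have hG := h X ((le_max_left _ _).trans hX) a' b' c' d'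
  have hg := qeg_g_integrable hβ r hr.pos X hX0 hL
  have hr' : (0 : ℝ) < r := by exact_mod_cast hr.pos
  have hY : 0 < X / (2 * (r : ℝ) ^ 2) := by positivity
  have hinv := hβ.inv (1 / Real.log X) (by positivity)
    (one_div_le_one_div_of_le (by norm_num) hL) _ hY
  have hcast : ((1 / Real.log X : ℝ) : ℂ) = 1 / (Real.log X : ℂ) := by push_cast; ring
  rw [hcast, qeg_line_subst (Real.log X) hL0 (fun z => β z *
    (((X / (2 * r ^ 2) : ℝ)) : ℂ) ^ (-z))] at hinv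
  unfold QXgp
  rw [qeg_line_subst (Real.log X) hL0 (fun z => β z *
    (((X / (2 * r ^ 2) : ℝ)) : ℂ) ^ (-z) *
    OOp r ((2 + Complex.I * a') / Real.log X) ((3 + Complex.I * b') / Real.log X)
      ((5 / 2 + Complex.I * c') / Real.log X) ((3 + Complex.I * d') / Real.log X) z)]
  set O0 := OOp r ((2 + Complex.I * a') / Real.log X) ((3 + Complex.I * b') / Real.log X)
      ((5 / 2 + Complex.I * c') / Real.log X) ((3 + Complex.I * d') / Real.log X) 0 with hO0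
  have hpt : ∀ t : ℝ, β ((1 + Complex.I * t) / Real.log X) *
      (((X / (2 * r ^ 2) : ℝ)) : ℂ) ^ (-((1 + Complex.I * t) / Real.log X)) *
      OOp r ((2 + Complex.I * a') / Real.log X) ((3 + Complex.I * b') / Real.log X)
      ((5 / 2 + Complex.I * c') / Real.log X) ((3 + Complex.I * d') / Real.log X)
        ((1 + Complex.I * t) / Real.log X) / (1 + Complex.I * t) =
      O0 * (β ((1 + Complex.I * t) / Real.log X) *
      (((X / (2 * r ^ 2) : ℝ)) : ℂ) ^ (-((1 + Complex.I * t) / Real.log X)) /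
      (1 + Complex.I * t)) + QeGp β r X (2 + Complex.I * a') (3 + Complex.I * b')
      (5 / 2 + Complex.I * c') (3 + Complex.I * d') t := by
    intro t
    unfold QeGp
    rw [← hO0]
    ring
  rw [integral_congr_ae (Eventually.of_forall hpt), integral_add (hg.const_mul O0) hG,
    integral_const_mul]
  rw [hinv]
  have hpi : (π : ℂ) ≠ 0 := by exact_mod_cast Real.pi_ne_zero
  field_simp
  ring

/-- the cut-off function decays -/
theorem BC_lep {β : ℂ → ℂ} {B : ℝ → ℝ} (hβ : BC β B) :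
    ∃ C : ℝ, 0 < C ∧ ∀ y : ℝ, 0 < y → |B y| ≤ C * y ^ (-(1 / 8) : ℝ) := by
  obtain ⟨C, hC, hb⟩ := hβ.bd 2
  refine ⟨4 * C, by positivity, fun y hy => ?_⟩
  have hinv := hβ.inv (1 / 8) (by norm_num) le_rfl y hy
  have h1 : |B y| = ‖(B y : ℂ)‖ := by rw [Complex.norm_real, Real.norm_eq_abs]
  rw [h1, hinv, norm_mul]
  have hyc : 0 < y ^ (-(1 / 8) : ℝ) := Real.rpow_pos_of_pos hy _
  have hpt : ∀ t : ℝ, ‖β (((1 / 8 : ℝ) : ℂ) + Complex.I * t) *
      (y : ℂ) ^ (-(((1 / 8 : ℝ) : ℂ) + Complex.I * t : ℂ)) / (((1 / 8 : ℝ) : ℂ) + Complex.I * t)‖ ≤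
      (8 * C * y ^ (-(1 / 8) : ℝ)) * (1 + t ^ 2)⁻¹ := by
    intro t
    have hre : (((1 / 8 : ℝ) : ℂ) + Complex.I * t).re = 1 / 8 := by simp
    have him : (((1 / 8 : ℝ) : ℂ) + Complex.I * t).im = t := by simp
    have h2 := (hb (((1 / 8 : ℝ) : ℂ) + Complex.I * t) (by rw [hre, abs_of_pos (by norm_num)])).1
    have h3 : |t| ≤ ‖((1 / 8 : ℝ) : ℂ) + Complex.I * t‖ := by
      have := Complex.abs_im_le_norm (((1 / 8 : ℝ) : ℂ) + Complex.I * t)
      rwa [him] at this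
    have h4 : 1 / 8 ≤ ‖((1 / 8 : ℝ) : ℂ) + Complex.I * t‖ := by
      have := Complex.re_le_norm (((1 / 8 : ℝ) : ℂ) + Complex.I * t)
      rwa [hre] at this
    have h5 : ‖β (((1 / 8 : ℝ) : ℂ) + Complex.I * t)‖ ≤ C * (1 + t ^ 2)⁻¹ := by
      rw [← div_eq_mul_inv, le_div_iff₀ (by positivity)]
      refine le_trans ?_ h2
      apply mul_le_mul_of_nonneg_left _ (norm_nonneg _)
      rw [Real.rpow_two]
      have h6 : t ^ 2 ≤ ‖((1 / 8 : ℝ) : ℂ) + Complex.I * t‖ ^ 2 := by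
        rw [← sq_abs t]
        exact pow_le_pow_left₀ (abs_nonneg t) h3 2
      nlinarith only [h4, h6, norm_nonneg (((1 / 8 : ℝ) : ℂ) + Complex.I * t)]
    have h7 : ‖(y : ℂ) ^ (-(((1 / 8 : ℝ) : ℂ) + Complex.I * t : ℂ))‖ = y ^ (-(1 / 8) : ℝ) := by
      rw [Complex.norm_cpow_eq_rpow_re_of_pos hy, Complex.neg_re, hre]
    rw [norm_div, norm_mul, h7]
    calc ‖β (((1 / 8 : ℝ) : ℂ) + Complex.I * t)‖ * y ^ (-(1 / 8) : ℝ) /
          ‖((1 / 8 : ℝ) : ℂ) + Complex.I * t‖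
        ≤ (C * (1 + t ^ 2)⁻¹) * y ^ (-(1 / 8) : ℝ) / (1 / 8) := by
          apply div_le_div₀ (by positivity) (mul_le_mul_of_nonneg_right h5 hyc.le) (by norm_num) h4
      _ = _ := by ring
  have h8 := norm_integral_le_of_norm_le (integrable_inv_one_add_sq.const_mul _)
    (Eventually.of_forall hpt)
  rw [integral_const_mul, integral_univ_inv_one_add_sq] at h8
  have hpi : ‖(1 / (2 * π) : ℂ)‖ = 1 / (2 * π) := by
    have : (1 / (2 * π) : ℂ) = ((1 / (2 * π) : ℝ) : ℂ) := by push_cast; ring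
    rw [this, Complex.norm_real, Real.norm_of_nonneg (by positivity)]
  rw [hpi]
  calc _ ≤ 1 / (2 * π) * (8 * C * y ^ (-(1 / 8) : ℝ) * π) :=
        mul_le_mul_of_nonneg_left h8 (by positivity)
    _ = _ := by
        have := Real.pi_pos
        field_simp
        ring

theorem QX_boundp {β : ℂ → ℂ} {B : ℝ → ℝ} (hβ : BC β B) (r : ℕ) (hr : Odd r) : ∃ C A X₀ : ℝ, 0 < C ∧ 0 < A ∧ ∀ X : ℝ, X₀ ≤ X →
    ∀ a' b' c' d' : ℝ,
    ‖QXgp β r X (2 + Complex.I * a') (3 + Complex.I * b') (5 / 2 + Complex.I * c')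
      (3 + Complex.I * d')‖ ≤ C * ((1 + |a'|) * (1 + |b'|) * (1 + |c'|) * (1 + |d'|)) ^ A := by
  obtain ⟨C₁, A₁, X₁, hC₁, hA₁, h1⟩ := QeGp_bound hβ r hr
  obtain ⟨X₂, h2⟩ := QX_splitp hβ r hr
  obtain ⟨C₃, A₃, L₃, hC₃, hA₃, h3⟩ := OOp_zero_bound r hr
  obtain ⟨C₄, hC₄, h4⟩ := BC_lep hβ
  refine ⟨C₃ * (1 + C₄ / 2) + 1 / (4 * π) * (C₁ * π), max A₁ A₃,
    max (max (max X₁ X₂) (2 * (r : ℝ) ^ 2)) (Real.exp (max L₃ 8)), by positivity, lt_max_of_lt_left hA₁, ?_⟩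
  intro X hX a' b' c' d'
  have hXe : Real.exp (max L₃ 8) ≤ X := (le_max_right _ _).trans hX
  have hX0 : 0 < X := (Real.exp_pos _).trans_le hXe
  have hLm : max L₃ 8 ≤ Real.log X := (Real.le_log_iff_exp_le hX0).2 hXe
  have hL3 : L₃ ≤ Real.log X := (le_max_left _ _).trans hLm
  have hX1 : X₁ ≤ X := (le_max_left _ _).trans ((le_max_left _ _).trans ((le_max_left _ _).trans hX))
  have hX2 : X₂ ≤ X := (le_max_right _ _).trans ((le_max_left _ _).trans ((le_max_left _ _).trans hX))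
  have hX3 : 2 * (r : ℝ) ^ 2 ≤ X := (le_max_right _ _).trans ((le_max_left _ _).trans hX)
  have hr' : (0 : ℝ) < r := by exact_mod_cast hr.pos
  have hY : 0 < X / (2 * (r : ℝ) ^ 2) := by positivity
  set P : ℝ := (1 + |a'|) * (1 + |b'|) * (1 + |c'|) * (1 + |d'|) with hP
  have hP1 : 1 ≤ P := by
    have e1 : 1 ≤ 1 + |a'| := by linarith [abs_nonneg a']
    have e2 : 1 ≤ 1 + |b'| := by linarith [abs_nonneg b']
    have e3 : 1 ≤ 1 + |c'| := by linarith [abs_nonneg c']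
    have e4 : 1 ≤ 1 + |d'| := by linarith [abs_nonneg d']
    exact one_le_mul_of_one_le_of_one_le (one_le_mul_of_one_le_of_one_le
      (one_le_mul_of_one_le_of_one_le e1 e2) e3) e4
  have hPA : P ^ A₁ ≤ P ^ max A₁ A₃ := Real.rpow_le_rpow_of_exponent_le hP1 (le_max_left _ _)
  have hPB : P ^ A₃ ≤ P ^ max A₁ A₃ := Real.rpow_le_rpow_of_exponent_le hP1 (le_max_right _ _)
  rw [h2 X hX2]
  have hI : ‖∫ t : ℝ, QeGp β r X (2 + Complex.I * a') (3 + Complex.I * b')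
      (5 / 2 + Complex.I * c') (3 + Complex.I * d') t‖ ≤ C₁ * P ^ A₁ * π := by
    refine (norm_integral_le_of_norm_le (integrable_inv_one_add_sq.const_mul _)
      (Eventually.of_forall fun t => h1 X hX1 a' b' c' d' t)).trans ?_
    rw [integral_const_mul, integral_univ_inv_one_add_sq]
  have hO := h3 (Real.log X) hL3 a' b' c' d'
  have hB : |B (X / (2 * (r : ℝ) ^ 2))| ≤ C₄ := by
    refine (h4 _ hY).trans ?_
    have h9 : 1 ≤ X / (2 * (r : ℝ) ^ 2) := by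
      rw [le_div_iff₀ (by positivity)]
      linarith only [hX3]
    have h10 : (X / (2 * (r : ℝ) ^ 2)) ^ (-(1 / 8) : ℝ) ≤ 1 :=
      Real.rpow_le_one_of_one_le_of_nonpos h9 (by norm_num)
    have := mul_le_mul_of_nonneg_left h10 hC₄.le
    linarith only [this]
  have hB2 : ‖1 - (B (X / (2 * r ^ 2)) : ℂ) / 2‖ ≤ 1 + C₄ / 2 := by
    refine (norm_sub_le _ _).trans ?_
    rw [norm_one, norm_div, Complex.norm_real, Real.norm_eq_abs]
    have : ‖(2 : ℂ)‖ = 2 := by norm_num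
    rw [this]
    linarith only [hB]
  refine (norm_sub_le _ _).trans ?_
  rw [norm_mul, norm_mul]
  have hpi : ‖(1 / (4 * π) : ℂ)‖ = 1 / (4 * π) := by
    have : (1 / (4 * π) : ℂ) = ((1 / (4 * π) : ℝ) : ℂ) := by push_cast; ring
    rw [this, Complex.norm_real, Real.norm_of_nonneg (by positivity)]
  rw [hpi]
  have t1 : ‖OOp r ((2 + Complex.I * a') / Real.log X) ((3 + Complex.I * b') / Real.log X)
      ((5 / 2 + Complex.I * c') / Real.log X) ((3 + Complex.I * d') / Real.log X) 0‖ *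
      ‖1 - (B (X / (2 * r ^ 2)) : ℂ) / 2‖ ≤ (C₃ * P ^ max A₁ A₃) * (1 + C₄ / 2) :=
    mul_le_mul (hO.trans (mul_le_mul_of_nonneg_left hPB hC₃.le)) hB2 (norm_nonneg _)
      (by (clear * - hC₃; positivity))
  have t2 : 1 / (4 * π) * ‖∫ t : ℝ, QeGp β r X (2 + Complex.I * a') (3 + Complex.I * b')
      (5 / 2 + Complex.I * c') (3 + Complex.I * d') t‖ ≤
      1 / (4 * π) * (C₁ * P ^ max A₁ A₃ * π) := by
    refine mul_le_mul_of_nonneg_left (hI.trans ?_) (by positivity)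
    exact mul_le_mul_of_nonneg_right (mul_le_mul_of_nonneg_left hPA hC₁.le) Real.pi_pos.le
  calc _ ≤ (C₃ * P ^ max A₁ A₃) * (1 + C₄ / 2) + 1 / (4 * π) * (C₁ * P ^ max A₁ A₃ * π) :=
        add_le_add t1 t2
    _ = (C₃ * (1 + C₄ / 2) + 1 / (4 * π) * (C₁ * π)) * P ^ max A₁ A₃ := by ring

end Pool.Agent.MP0016c7.PC
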