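import Mathlib
import Pool.Agent.Lib.MP_0016c7_nt.Theta
import Pool.Agent.Lib.MP_0016c7_nt.Rz.Defs
import Pool.Agent.Lib.MP_0016c7_nt.Rz.DefsC
import Pool.Agent.Lib.MP_0016c7_nt.Rz.DefsF
import Pool.Agent.Lib.MP_0016c7_nt.Rz.DefsE
import Pool.Agent.Lib.MP_0016c7_nt.PC.DefsM
import Pool.Agent.Lib.MP_0016c7_nt.PC.Eul4p
import Pool.Agent.Lib.MP_0016c7_nt.Rz.ZetaUp

set_option autoImplicit false

open Finset MeasureTheory Filter Topology
open scoped Real ContDiff

namespace Pool.Agent.MP0016c7.PC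

open Pool.Agent.MP0016c7.Rz

/-- `(u / L) ζ(1 + u / L)` -/
private noncomputable def qcE (u : ℂ) (L : ℝ) : ℂ := u / L * riemannZeta (1 + u / L)

private lemma qcE_lim {u : ℂ} (hu : 0 < u.re) : Tendsto (qcE u) atTop (𝓝 1) := by
  have hu0 : u ≠ 0 := fun h => by rw [h, Complex.zero_re] at hu; exact lt_irrefl _ hu
  have h1 : Tendsto (fun L : ℝ => 1 + u / (L : ℂ)) atTop (𝓝[≠] 1) := by
    refine tendsto_nhdsWithin_iff.2 ⟨?_, ?_⟩
    · have h2 : Tendsto (fun L : ℝ => u * (((L⁻¹ : ℝ)) : ℂ)) atTop (𝓝 (u * ((0 : ℝ) : ℂ))) :=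
        ((Complex.continuous_ofReal.tendsto 0).comp tendsto_inv_atTop_zero).const_mul u
      have h3 := h2.const_add (1 : ℂ)
      simp only [Complex.ofReal_zero, mul_zero, add_zero] at h3
      refine h3.congr fun L => ?_
      rw [Complex.ofReal_inv, div_eq_mul_inv]
    · filter_upwards [eventually_gt_atTop 0] with L hL
      have hL0 : (L : ℂ) ≠ 0 := by exact_mod_cast hL.ne'
      have h4 : u / (L : ℂ) ≠ 0 := div_ne_zero hu0 hL0
      show (1 + u / (L : ℂ)) ≠ 1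
      intro h
      exact h4 (by linear_combination h)
  have h2 := riemannZeta_residue_one.comp h1
  refine h2.congr fun L => ?_
  unfold qcE
  simp only [Function.comp_apply]
  ring

private lemma qcE_ne {u : ℂ} (hu : 0 < u.re) {L : ℝ} (hL : 0 < L) :
    qcE u L ≠ 0 ∧ riemannZeta (1 + u / L) = qcE u L * (L / u) := by
  have hu0 : u ≠ 0 := fun h => by rw [h, Complex.zero_re] at hu; exact lt_irrefl _ hu
  have hL0 : (L : ℂ) ≠ 0 := by exact_mod_cast hL.ne'
  have h1 : 1 < (1 + u / (L : ℂ)).re := by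
    rw [Complex.add_re, Complex.one_re, Complex.div_ofReal_re]
    have := div_pos hu hL
    linarith
  have h2 : riemannZeta (1 + u / (L : ℂ)) ≠ 0 := riemannZeta_ne_zero_of_one_lt_re h1
  unfold qcE
  refine ⟨mul_ne_zero (div_ne_zero hu0 hL0) h2, ?_⟩
  field_simp

theorem OOp_lim (r : ℕ) (hr : Odd r) (s₁ w₁ s₂ w₂ z : ℂ) (h1 : |z.re| < s₁.re) (h2 : |z.re| < w₁.re)
    (h3 : |z.re| < s₂.re) (h4 : |z.re| < w₂.re) :
    Tendsto (fun L : ℝ => OOp r (s₁ / L) (w₁ / L) (s₂ / L) (w₂ / L) (z / L)) atTop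
      (𝓝 (R0 s₁ w₁ s₂ w₂ * Vr s₁ w₁ s₂ w₂ z)) := by
  obtain ⟨A, C, hC, hA, hE⟩ := eulerp r hr
  have z1 := le_abs_self z.re
  have z2 := neg_abs_le z.re
  have z0 := abs_nonneg z.re
  -- the real parts
  have r1 : 0 < (2 * s₁).re := by simp; linarith
  have r2 : 0 < (2 * s₂).re := by simp; linarith
  have r3 : 0 < (s₁ + s₂).re := by simp; linarith
  have r4 : 0 < (w₁ + w₂).re := by simp; linarith
  have r5 : 0 < (s₁ + w₁).re := by simp; linarith
  have r6 : 0 < (s₁ + w₂).re := by simp; linarith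
  have r7 : 0 < (s₂ + w₁).re := by simp; linarith
  have r8 : 0 < (s₂ + w₂).re := by simp; linarith
  have t1 : 0 < (s₁ - z).re := by simp; linarith
  have t2 : 0 < (s₂ - z).re := by simp; linarith
  have t3 : 0 < (w₁ + z).re := by simp; linarith
  have t4 : 0 < (w₂ + z).re := by simp; linarith
  have t5 : 0 < (w₁ - z).re := by simp; linarith
  have t6 : 0 < (w₂ - z).re := by simp; linarith
  have t7 : 0 < (s₁ + z).re := by simp; linarith
  have t8 : 0 < (s₂ + z).re := by simp; linarith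
  have ne : ∀ u : ℂ, 0 < u.re → u ≠ 0 := fun u hu h => by
    rw [h, Complex.zero_re] at hu; exact lt_irrefl _ hu
  -- the correction factor
  set Q : ℝ → ℂ := fun L => (qcE (2 * s₁) L * qcE (2 * s₂) L * qcE (s₁ + s₂) L * qcE (w₁ + w₂) L) /
      (qcE (s₁ + w₁) L * qcE (s₁ + w₂) L * qcE (s₂ + w₁) L * qcE (s₂ + w₂) L) *
      ((qcE (s₁ - z) L / qcE (w₁ - z) L) * (qcE (s₂ - z) L / qcE (w₂ - z) L) *
        (qcE (w₁ + z) L / qcE (s₁ + z) L) * (qcE (w₂ + z) L / qcE (s₂ + z) L)) with hQ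
  have hQlim : Tendsto Q atTop (𝓝 1) := by
    have l1 := (((qcE_lim r1).mul (qcE_lim r2)).mul (qcE_lim r3)).mul (qcE_lim r4)
    have l2 := (((qcE_lim r5).mul (qcE_lim r6)).mul (qcE_lim r7)).mul (qcE_lim r8)
    have l3 := l1.div l2 (by norm_num)
    have l4 := ((((qcE_lim t1).div (qcE_lim t5) one_ne_zero).mul
      ((qcE_lim t2).div (qcE_lim t6) one_ne_zero)).mul
      ((qcE_lim t3).div (qcE_lim t7) one_ne_zero)).mul
      ((qcE_lim t4).div (qcE_lim t8) one_ne_zero)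
    have l5 := l3.mul l4
    norm_num at l5
    exact l5
  have hAlim : Tendsto (fun L : ℝ => A (s₁ / L) (w₁ / L) (s₂ / L) (w₂ / L) (z / L)) atTop
      (𝓝 1) := by
    rw [tendsto_iff_norm_sub_tendsto_zero]
    have hb : Tendsto (fun L : ℝ => C * (‖s₁ - w₁‖ + ‖s₂ - w₂‖) * L⁻¹) atTop (𝓝 0) := by
      have := tendsto_inv_atTop_zero (𝕜 := ℝ) |>.const_mul (C * (‖s₁ - w₁‖ + ‖s₂ - w₂‖))
      rwa [mul_zero] at this
    refine squeeze_zero' (Eventually.of_forall fun L => norm_nonneg _) ?_ hb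
    filter_upwards [eventually_ge_atTop (100 * (s₁.re + w₁.re + s₂.re + w₂.re + 1))] with L hL
    have hL0 : 0 < L := by linarith
    have hre : ∀ u : ℂ, |u.re| ≤ s₁.re + w₁.re + s₂.re + w₂.re + 1 → |(u / (L : ℂ)).re| ≤ 1 / 100 := by
      intro u hu
      rw [Complex.div_ofReal_re, abs_div, abs_of_pos hL0, div_le_iff₀ hL0]
      linarith
    have h := (hA (s₁ / L) (w₁ / L) (s₂ / L) (w₂ / L) (z / L)
      (hre _ (by rw [abs_of_pos (by linarith)]; linarith))
      (hre _ (by rw [abs_of_pos (by linarith)]; linarith))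
      (hre _ (by rw [abs_of_pos (by linarith)]; linarith))
      (hre _ (by rw [abs_of_pos (by linarith)]; linarith)) (hre _ (by linarith))).2
    refine h.trans (le_of_eq ?_)
    have hn : ‖(L : ℂ)‖ = L := by rw [Complex.norm_real, Real.norm_eq_abs, abs_of_pos hL0]
    rw [← sub_div, ← sub_div, norm_div, norm_div, hn]
    ring
  have hfin := (hQlim.mul hAlim).const_mul (R0 s₁ w₁ s₂ w₂ * Vr s₁ w₁ s₂ w₂ z)
  rw [mul_one, mul_one] at hfin
  refine hfin.congr' ?_
  filter_upwards [eventually_ge_atTop (100 * (s₁.re + w₁.re + s₂.re + w₂.re + 1))] with L hL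
  have hL0 : 0 < L := by linarith
  have hL0' : (L : ℂ) ≠ 0 := by exact_mod_cast hL0.ne'
  have hlt : ∀ u : ℂ, |z.re| < u.re → |(z / (L : ℂ)).re| < (u / (L : ℂ)).re := by
    intro u hu
    rw [Complex.div_ofReal_re, Complex.div_ofReal_re, abs_div, abs_of_pos hL0]
    exact div_lt_div_of_pos_right hu hL0
  have hre : ∀ u : ℂ, u.re ≤ s₁.re + w₁.re + s₂.re + w₂.re + 1 → (u / (L : ℂ)).re ≤ 1 / 100 := by
    intro u hu
    rw [Complex.div_ofReal_re, div_le_iff₀ hL0]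
    linarith
  have hO := (hE (s₁ / L) (w₁ / L) (s₂ / L) (w₂ / L) (z / L) (hlt _ h1) (hlt _ h2) (hlt _ h3)
    (hlt _ h4) (hre _ (by linarith)) (hre _ (by linarith)) (hre _ (by linarith))
    (hre _ (by linarith))).2
  rw [hO]
  have key : Z0 (s₁ / L) (w₁ / L) (s₂ / L) (w₂ / L) * VV (s₁ / L) (w₁ / L) (s₂ / L) (w₂ / L) (z / L) =
      R0 s₁ w₁ s₂ w₂ * Vr s₁ w₁ s₂ w₂ z * Q L := by
    unfold Z0 VV R0 Vr
    simp only [← add_div, ← sub_div, ← mul_div_assoc]
    rw [(qcE_ne r1 hL0).2, (qcE_ne r2 hL0).2, (qcE_ne r3 hL0).2, (qcE_ne r4 hL0).2,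
      (qcE_ne r5 hL0).2, (qcE_ne r6 hL0).2, (qcE_ne r7 hL0).2, (qcE_ne r8 hL0).2,
      (qcE_ne t1 hL0).2, (qcE_ne t2 hL0).2, (qcE_ne t3 hL0).2, (qcE_ne t4 hL0).2,
      (qcE_ne t5 hL0).2, (qcE_ne t6 hL0).2, (qcE_ne t7 hL0).2, (qcE_ne t8 hL0).2, hQ]
    have e5 := (qcE_ne r5 hL0).1
    have e6 := (qcE_ne r6 hL0).1
    have e7 := (qcE_ne r7 hL0).1
    have e8 := (qcE_ne r8 hL0).1
    have f5 := (qcE_ne t5 hL0).1
    have f6 := (qcE_ne t6 hL0).1
    have f7 := (qcE_ne t7 hL0).1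
    have f8 := (qcE_ne t8 hL0).1
    have n1 := ne _ r1
    have n2 := ne _ r2
    have n3 := ne _ r3
    have n4 := ne _ r4
    have n5 := ne _ r5
    have n6 := ne _ r6
    have n7 := ne _ r7
    have n8 := ne _ r8
    have m1 := ne _ t1
    have m2 := ne _ t2
    have m3 := ne _ t3
    have m4 := ne _ t4
    have m5 := ne _ t5
    have m6 := ne _ t6
    have m7 := ne _ t7
    have m8 := ne _ t8
    simp only
    generalize qcE (2 * s₁) L = E1 at *
    generalize qcE (2 * s₂) L = E2 at *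
    generalize qcE (s₁ + s₂) L = E3 at *
    generalize qcE (w₁ + w₂) L = E4 at *
    generalize qcE (s₁ + w₁) L = E5 at *
    generalize qcE (s₁ + w₂) L = E6 at *
    generalize qcE (s₂ + w₁) L = E7 at *
    generalize qcE (s₂ + w₂) L = E8 at *
    generalize qcE (s₁ - z) L = F1 at *
    generalize qcE (s₂ - z) L = F2 at *
    generalize qcE (w₁ + z) L = F3 at *
    generalize qcE (w₂ + z) L = F4 at *
    generalize qcE (w₁ - z) L = F5 at *
    generalize qcE (w₂ - z) L = F6 at *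
    generalize qcE (s₁ + z) L = F7 at *
    generalize qcE (s₂ + z) L = F8 at *
    have g1 : s₁ ≠ 0 := fun h => n1 (by rw [h, mul_zero])
    have g2 : s₂ ≠ 0 := fun h => n2 (by rw [h, mul_zero])
    generalize s₁ + s₂ = a3 at *
    generalize w₁ + w₂ = a4 at *
    generalize s₁ + w₁ = a5 at *
    generalize s₁ + w₂ = a6 at *
    generalize s₂ + w₁ = a7 at *
    generalize s₂ + w₂ = a8 at *
    generalize s₁ - z = b1 at *
    generalize s₂ - z = b2 at *
    generalize w₁ + z = b3 at *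
    generalize w₂ + z = b4 at *
    generalize w₁ - z = b5 at *
    generalize w₂ - z = b6 at *
    generalize s₁ + z = b7 at *
    generalize s₂ + z = b8 at *
    field_simp
    try ring
  rw [key]
  ring

end Pool.Agent.MP0016c7.PC
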