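import Mathlib
import Pool.Agent.Lib.MP_0016c7_nt.Theta
import Pool.Agent.Lib.MP_0016c7_nt.Rz.Defs
import Pool.Agent.Lib.MP_0016c7_nt.Rz.DefsC
import Pool.Agent.Lib.MP_0016c7_nt.Rz.DefsF
import Pool.Agent.Lib.MP_0016c7_nt.Rz.DefsE
import Pool.Agent.Lib.MP_0016c7_nt.PC.DefsM
import Pool.Agent.Lib.MP_0016c7_nt.PC.Qcp
import Pool.Agent.Lib.MP_0016c7_nt.Rz.Qd
import Pool.Agent.Lib.MP_0016c7_nt.Rz.Qe
import Pool.Agent.Lib.MP_0016c7_nt.PC.Qep

set_option autoImplicit false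

/-!
Limit of the Dirichlet series, general kernels.
-/

open Finset MeasureTheory Filter Topology
open scoped Real ContDiff

namespace Pool.Agent.MP0016c7.PC

open Pool.Agent.MP0016c7.Rz


private theorem qfg_bb_tendsto {β : ℂ → ℂ} {B : ℝ → ℝ} (hβ : BC β B) (w : ℂ) :
    Tendsto (fun L : ℝ => β (w / (L : ℂ))) atTop (𝓝 1) := by
  obtain ⟨C, hC, h⟩ := hβ.bd 0
  have hz : Tendsto (fun L : ℝ => ‖w / (L : ℂ)‖) atTop (𝓝 0) := by
    have : (fun L : ℝ => ‖w / (L : ℂ)‖) = fun L : ℝ => ‖w‖ * |L|⁻¹ := by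
      funext L
      rw [norm_div, Complex.norm_real, Real.norm_eq_abs, div_eq_mul_inv]
    rw [this]
    have h1 : Tendsto (fun L : ℝ => |L|⁻¹) atTop (𝓝 0) :=
      tendsto_inv_atTop_zero.comp tendsto_abs_atTop_atTop
    simpa using h1.const_mul ‖w‖
  rw [tendsto_iff_norm_sub_tendsto_zero]
  have h2 : Tendsto (fun L : ℝ => C * ‖w / (L : ℂ)‖) atTop (𝓝 0) := by
    simpa using hz.const_mul C
  refine squeeze_zero' (Eventually.of_forall fun L => norm_nonneg _) ?_ h2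
  have h3 : ∀ᶠ L : ℝ in atTop, ‖w / (L : ℂ)‖ < 1 / 8 := hz.eventually (gt_mem_nhds (by norm_num))
  filter_upwards [h3] with L hL
  exact (h _ ((Complex.abs_re_le_norm _).trans hL.le)).2

private theorem qfg_pow_tendsto (r : ℕ) (hr : 1 ≤ r) (w : ℂ) :
    Tendsto (fun X : ℝ => (((X / (2 * r ^ 2) : ℝ)) : ℂ) ^ (-(w / (Real.log X : ℂ)))) atTop
      (𝓝 (Complex.exp (-w))) := by
  have hr' : (0 : ℝ) < r := by exact_mod_cast hr
  have h1 : Tendsto (fun X : ℝ => Real.log (X / (2 * (r : ℝ) ^ 2)) / Real.log X) atTop (𝓝 1) := by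
    have h2 : Tendsto (fun X : ℝ => 1 - Real.log (2 * (r : ℝ) ^ 2) * (Real.log X)⁻¹) atTop
        (𝓝 (1 - Real.log (2 * (r : ℝ) ^ 2) * 0)) :=
      ((tendsto_inv_atTop_zero.comp Real.tendsto_log_atTop).const_mul _).const_sub 1
    rw [mul_zero, sub_zero] at h2
    refine h2.congr' ?_
    filter_upwards [eventually_gt_atTop 1] with X hX
    have hL : 0 < Real.log X := Real.log_pos hX
    rw [Real.log_div (by linarith) (by positivity)]
    field_simp
  have h3 : Tendsto (fun X : ℝ => Complex.exp (-w *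
      ((Real.log (X / (2 * (r : ℝ) ^ 2)) / Real.log X : ℝ) : ℂ))) atTop
      (𝓝 (Complex.exp (-w * ((1 : ℝ) : ℂ)))) := by
    refine (Complex.continuous_exp.tendsto _).comp ?_
    exact ((Complex.continuous_ofReal.tendsto _).comp h1).const_mul (-w)
  rw [Complex.ofReal_one, mul_one] at h3
  refine h3.congr' ?_
  filter_upwards [eventually_gt_atTop 1] with X hX
  have hY : 0 < X / (2 * (r : ℝ) ^ 2) := by positivity
  rw [Complex.cpow_def_of_ne_zero (by exact_mod_cast hY.ne'), ← Complex.ofReal_log hY.le]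
  congr 1
  push_cast
  ring

private theorem qfg_Vr_zero {s₁ w₁ s₂ w₂ : ℂ} (n1 : s₁ ≠ 0) (n2 : w₁ ≠ 0) (n3 : s₂ ≠ 0)
    (n4 : w₂ ≠ 0) : Vr s₁ w₁ s₂ w₂ 0 = 1 := by
  unfold Vr
  rw [sub_zero, sub_zero, sub_zero, sub_zero, add_zero, add_zero, add_zero, add_zero]
  field_simp

private theorem qfg_BB_tendsto {β : ℂ → ℂ} {B : ℝ → ℝ} (hβ : BC β B) (r : ℕ) (hr : 1 ≤ r) :
    Tendsto (fun X : ℝ => B (X / (2 * (r : ℝ) ^ 2))) atTop (𝓝 0) := by
  have hr' : (0 : ℝ) < r := by exact_mod_cast hr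
  obtain ⟨C, hC, h⟩ := BC_lep hβ
  have h1 : Tendsto (fun X : ℝ => X / (2 * (r : ℝ) ^ 2)) atTop atTop :=
    tendsto_id.atTop_div_const (by positivity)
  have h2 : Tendsto (fun X : ℝ => C * (X / (2 * (r : ℝ) ^ 2)) ^ (-(1 / 8) : ℝ)) atTop (𝓝 0) := by
    have h3 := (tendsto_rpow_neg_atTop (y := 1 / 8) (by norm_num)).comp h1
    simpa using h3.const_mul C
  refine squeeze_zero_norm' ?_ h2
  filter_upwards [eventually_gt_atTop 0] with X hX
  have hY : 0 < X / (2 * (r : ℝ) ^ 2) := by positivity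
  rw [Real.norm_eq_abs]
  exact h _ hY

theorem QX_limp {β : ℂ → ℂ} {B : ℝ → ℝ} (hβ : BC β B) (r : ℕ) (hr : Odd r) (a' b' c' d' : ℝ) (hbd : b' ≠ d') :
    Tendsto (fun X : ℝ => QXgp β r X (2 + Complex.I * a') (3 + Complex.I * b')
      (5 / 2 + Complex.I * c') (3 + Complex.I * d')) atTop
      (𝓝 (Qinf (2 + Complex.I * a') (3 + Complex.I * b') (5 / 2 + Complex.I * c')
        (3 + Complex.I * d'))) := by
  obtain ⟨X₂, h2⟩ := QX_splitp hβ r hr
  obtain ⟨C₁, A₁, X₁, hC₁, hA₁, h1⟩ := QeGp_bound hβ r hr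
  have hs₁ : (2 + Complex.I * a' : ℂ).re = 2 := by simp
  have hw₁ : (3 + Complex.I * b' : ℂ).re = 3 := by simp
  have hs₂ : (5 / 2 + Complex.I * c' : ℂ).re = 5 / 2 := by simp
  have hw₂ : (3 + Complex.I * d' : ℂ).re = 3 := by simp
  have hne : (2 + Complex.I * a' : ℂ) ≠ 5 / 2 + Complex.I * c' := by
    intro h
    have := congrArg Complex.re h
    rw [hs₁, hs₂] at this
    norm_num at this
  have hne' : (3 + Complex.I * b' : ℂ) ≠ 3 + Complex.I * d' := by
    intro h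
    have := congrArg Complex.im h
    simp at this
    exact hbd this
  have hZ := z_integral (2 + Complex.I * a') (3 + Complex.I * b') (5 / 2 + Complex.I * c')
    (3 + Complex.I * d') (by rw [hs₁]; norm_num) (by rw [hs₂]; norm_num) (by rw [hw₁]; norm_num)
    (by rw [hw₂]; norm_num) hne hne'
  have hV0 : Vr (2 + Complex.I * a') (3 + Complex.I * b') (5 / 2 + Complex.I * c')
      (3 + Complex.I * d') 0 = 1 := by
    have n1 : (2 + Complex.I * a' : ℂ) ≠ 0 := fun h => by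
      have := congrArg Complex.re h; rw [hs₁] at this; norm_num at this
    have n2 : (3 + Complex.I * b' : ℂ) ≠ 0 := fun h => by
      have := congrArg Complex.re h; rw [hw₁] at this; norm_num at this
    have n3 : (5 / 2 + Complex.I * c' : ℂ) ≠ 0 := fun h => by
      have := congrArg Complex.re h; rw [hs₂] at this; norm_num at this
    have n4 : (3 + Complex.I * d' : ℂ) ≠ 0 := fun h => by
      have := congrArg Complex.re h; rw [hw₂] at this; norm_num at this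
    exact qfg_Vr_zero n1 n2 n3 n4
  set s₁ : ℂ := 2 + Complex.I * a' with hs₁d
  set w₁ : ℂ := 3 + Complex.I * b' with hw₁d
  set s₂ : ℂ := 5 / 2 + Complex.I * c' with hs₂d
  set w₂ : ℂ := 3 + Complex.I * d' with hw₂d
  have hOO : ∀ z : ℂ, |z.re| < 2 → Tendsto (fun X : ℝ => OOp r (s₁ / Real.log X)
      (w₁ / Real.log X) (s₂ / Real.log X) (w₂ / Real.log X) (z / Real.log X)) atTop
      (𝓝 (R0 s₁ w₁ s₂ w₂ * Vr s₁ w₁ s₂ w₂ z)) := by
    intro z hz
    exact (OOp_lim r hr s₁ w₁ s₂ w₂ z (by rw [hs₁]; exact hz) (by rw [hw₁]; linarith)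
      (by rw [hs₂]; linarith) (by rw [hw₂]; linarith)).comp Real.tendsto_log_atTop
  have hO0 : Tendsto (fun X : ℝ => OOp r (s₁ / Real.log X)
      (w₁ / Real.log X) (s₂ / Real.log X) (w₂ / Real.log X) 0) atTop
      (𝓝 (R0 s₁ w₁ s₂ w₂)) := by
    have := hOO 0 (by simp)
    rw [hV0, mul_one] at this
    refine this.congr fun X => ?_
    rw [zero_div]
  have hInt : Tendsto (fun X : ℝ => ∫ t : ℝ, QeGp β r X s₁ w₁ s₂ w₂ t) atTop
      (𝓝 (∫ t : ℝ, 1 * Complex.exp (-(1 + Complex.I * t)) *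
        (R0 s₁ w₁ s₂ w₂ * Vr s₁ w₁ s₂ w₂ (1 + Complex.I * t) - R0 s₁ w₁ s₂ w₂) /
        (1 + Complex.I * t))) := by
    refine tendsto_integral_filter_of_dominated_convergence
      (fun t => C₁ * ((1 + |a'|) * (1 + |b'|) * (1 + |c'|) * (1 + |d'|)) ^ A₁ * (1 + t ^ 2)⁻¹)
      ?_ ?_ (integrable_inv_one_add_sq.const_mul _) ?_
    · filter_upwards [eventually_ge_atTop (Real.exp 8)] with X hX
      exact (measurable_QeGp hβ r X ((Real.le_log_iff_exp_le
        ((Real.exp_pos 8).trans_le hX)).2 hX) _ _ _ _).aestronglyMeasurable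
    · filter_upwards [eventually_ge_atTop X₁] with X hX
      exact Eventually.of_forall fun t => h1 X hX a' b' c' d' t
    · refine Eventually.of_forall fun t => ?_
      have e1 : Tendsto (fun X : ℝ => β ((1 + Complex.I * t) / (Real.log X : ℂ))) atTop
          (𝓝 1) := (qfg_bb_tendsto hβ (1 + Complex.I * t)).comp Real.tendsto_log_atTop
      have e2 := qfg_pow_tendsto r hr.pos (1 + Complex.I * t)
      have e3 := hOO (1 + Complex.I * t) (by simp)
      unfold QeGp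
      exact (((e1.mul e2).mul (e3.sub hO0)).div_const _)
  have hB : Tendsto (fun X : ℝ => 1 - (B (X / (2 * (r : ℝ) ^ 2)) : ℂ) / 2) atTop
      (𝓝 (1 - ((0 : ℝ) : ℂ) / 2)) :=
    (((Complex.continuous_ofReal.tendsto _).comp (qfg_BB_tendsto hβ r hr.pos)).div_const
      2).const_sub 1
  have hfin := (hO0.mul hB).sub (hInt.const_mul (1 / (4 * π) : ℂ))
  have hval : R0 s₁ w₁ s₂ w₂ * (1 - ((0 : ℝ) : ℂ) / 2) - 1 / (4 * π) *
      (∫ t : ℝ, 1 * Complex.exp (-(1 + Complex.I * t)) *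
        (R0 s₁ w₁ s₂ w₂ * Vr s₁ w₁ s₂ w₂ (1 + Complex.I * t) - R0 s₁ w₁ s₂ w₂) /
        (1 + Complex.I * t)) = Qinf s₁ w₁ s₂ w₂ := by
    have e : ∀ t : ℝ, 1 * Complex.exp (-(1 + Complex.I * t)) *
        (R0 s₁ w₁ s₂ w₂ * Vr s₁ w₁ s₂ w₂ (1 + Complex.I * t) - R0 s₁ w₁ s₂ w₂) /
        (1 + Complex.I * t) = R0 s₁ w₁ s₂ w₂ * ((Vr s₁ w₁ s₂ w₂ (1 + Complex.I * t) - 1) *
        Complex.exp (-(1 + Complex.I * t)) / (1 + Complex.I * t)) := by
      intro t
      ring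
    rw [integral_congr_ae (Eventually.of_forall e), integral_const_mul]
    unfold Qinf
    rw [← hZ]
    have hpi : (π : ℂ) ≠ 0 := by exact_mod_cast Real.pi_ne_zero
    rw [Complex.ofReal_zero]
    field_simp
    ring
  rw [← hval]
  refine hfin.congr' ?_
  filter_upwards [eventually_ge_atTop X₂] with X hX
  rw [h2 X hX a' b' c' d']

end Pool.Agent.MP0016c7.PC
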