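import Mathlib
import Pool.Agent.Lib.MP_0016c7_nt.Theta
import Pool.Agent.Lib.MP_0016c7_nt.Rz.Defs
import Pool.Agent.Lib.MP_0016c7_nt.Rz.DefsC
import Pool.Agent.Lib.MP_0016c7_nt.Rz.DefsF
import Pool.Agent.Lib.MP_0016c7_nt.Rz.DefsE
import Pool.Agent.Lib.MP_0016c7_nt.Rz.SumQ
import Pool.Agent.Lib.MP_0016c7_nt.PC.DefsM
import Pool.Agent.Lib.MP_0016c7_nt.PC.Eul1p
import Pool.Agent.Lib.MP_0016c7_nt.PC.HQXp
import Pool.Agent.Lib.MP_0016c7_nt.PC.Qap
import Pool.Agent.Lib.MP_0016c7_nt.PC.Qcp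
import Pool.Agent.Lib.MP_0016c7_nt.PC.Qep
import Pool.Agent.Lib.MP_0016c7_nt.PC.Qfp

set_option autoImplicit false

/-!
The two families of main series: the sieved main term and the diagonal term.
-/

open Finset MeasureTheory Filter Topology
open scoped Real ContDiff

namespace Pool.Agent.MP0016c7.PC

open Pool.Agent.MP0016c7.Rz

/-! ### continuity of the Dirichlet series -/

private lemma qok_pwA {α : Type} [TopologicalSpace α] {s : α → ℂ} (hs : Continuous s) (n : ℕ) :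
    Continuous (fun x => pwA (s x) n) := by
  simp only [pwA, ArithmeticFunction.coe_mk]
  by_cases hn : n = 0
  · simp only [hn, if_true]
    exact continuous_const
  · simp only [hn, if_false]
    exact Continuous.const_cpow hs.neg (Or.inl (by exact_mod_cast hn))

private lemma qok_pmA {α : Type} [TopologicalSpace α] {s : α → ℂ} (hs : Continuous s) (n : ℕ) :
    Continuous (fun x => pmA (s x) n) := by
  simp only [pmA, ArithmeticFunction.coe_mk]
  by_cases hn : n = 0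
  · simp only [hn, if_true]
    exact continuous_const
  · simp only [hn, if_false]
    exact continuous_const.mul (Continuous.const_cpow hs.neg (Or.inl (by exact_mod_cast hn)))

private lemma qok_cfA {α : Type} [TopologicalSpace α] {s₁ w₁ s₂ w₂ : α → ℂ} (h1 : Continuous s₁)
    (h2 : Continuous w₁) (h3 : Continuous s₂) (h4 : Continuous w₂) (n : ℕ) :
    Continuous (fun x => cfA (s₁ x) (w₁ x) (s₂ x) (w₂ x) n) := by
  unfold cfA
  simp only [ArithmeticFunction.mul_apply]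
  refine continuous_finsetSum _ fun p _ => Continuous.mul ?_ ?_
  · exact continuous_finsetSum _ fun q _ => (qok_pwA h1 _).mul (qok_pmA h2 _)
  · exact continuous_finsetSum _ fun q _ => (qok_pwA h3 _).mul (qok_pmA h4 _)

private lemma qok_sq1_pos (n : ℕ) : 0 < sq1 n :=
  Finset.prod_pos fun p hp => (Nat.prime_of_mem_primeFactors (Finset.mem_filter.mp hp).1).pos

private lemma qok_bz {α : Type} [TopologicalSpace α] {z : α → ℂ} (hz : Continuous z) (n : ℕ) :
    Continuous (fun x => bzp (z x) n) := by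
  unfold bzp bz
  refine continuous_const.mul
    (continuous_const.mul (continuous_finsetSum _ fun e he => continuous_const.mul ?_))
  refine Continuous.const_cpow hz (Or.inl ?_)
  have h1 : (0 : ℝ) < sq1 n := by exact_mod_cast qok_sq1_pos n
  have h2 : (0 : ℝ) < e := by exact_mod_cast Nat.pos_of_mem_divisors he
  have h3 : (0 : ℝ) < (sq1 n : ℝ) / (e : ℝ) ^ 2 := by positivity
  exact_mod_cast h3.ne'

private lemma qok_OO {α : Type} [TopologicalSpace α] {s₁ w₁ s₂ w₂ z : α → ℂ} (h1 : Continuous s₁)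
    (h2 : Continuous w₁) (h3 : Continuous s₂) (h4 : Continuous w₂) (h5 : Continuous z)
    {m ζ : ℝ} (hζ : 0 ≤ ζ) (hm : ζ < m) (g1 : ∀ x, m ≤ (s₁ x).re) (g2 : ∀ x, m ≤ (w₁ x).re)
    (g3 : ∀ x, m ≤ (s₂ x).re) (g4 : ∀ x, m ≤ (w₂ x).re) (g5 : ∀ x, |(z x).re| ≤ ζ) (r : ℕ) :
    Continuous (fun x => OOp r (s₁ x) (w₁ x) (s₂ x) (w₂ x) (z x)) := by
  unfold OOp
  refine continuous_tsum (fun N => ?_) (summable_sq5 m ζ hζ hm) fun N x => ?_
  · by_cases hN : Nat.Coprime N (2 * r)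
    · simp only [if_pos hN]
      exact ((qok_cfA h1 h2 h3 h4 N).mul (qok_bz h5 N)).div_const _
    · simp only [if_neg hN]
      exact continuous_const
  · have hnn : 0 ≤ (N.divisors.card : ℝ) ^ 5 * (N : ℝ) ^ (-(1 / 2) - m) *
        (sq1 N : ℝ) ^ (-(1 / 2) + ζ) := by (clear * -; positivity)
    by_cases hN : Nat.Coprime N (2 * r)
    · simp only [if_pos hN]
      rcases Nat.eq_zero_or_pos N with h0 | h0
      · subst h0
        simp
      · have hN0 : (0 : ℝ) < N := by exact_mod_cast h0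
        have e1 := norm_cfA_le (s₁ x) (w₁ x) (s₂ x) (w₂ x) m (g1 x) (g2 x) (g3 x) (g4 x) N
        have e2 := norm_bzp_le (z x) N h0.ne'
        have hs1 : (1 : ℝ) ≤ sq1 N := by exact_mod_cast qok_sq1_pos N
        have e3 : (sq1 N : ℝ) ^ (-(1 / 2) + |(z x).re|) ≤ (sq1 N : ℝ) ^ (-(1 / 2) + ζ) :=
          Real.rpow_le_rpow_of_exponent_le hs1 (by linarith only [g5, g5 x])
        have e4 : ‖((√(N : ℝ) : ℝ) : ℂ)‖ = √(N : ℝ) := by
          rw [Complex.norm_real, Real.norm_of_nonneg (Real.sqrt_nonneg _)]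
        have e5 : (N : ℝ) ^ (-(1 / 2) - m) = (N : ℝ) ^ (-m) / √(N : ℝ) := by
          rw [Real.sqrt_eq_rpow, ← Real.rpow_sub hN0]
          congr 1
          ring
        rw [norm_div, norm_mul, e4, e5]
        have hsq : 0 < √(N : ℝ) := Real.sqrt_pos.mpr hN0
        have e6 : ‖cfA (s₁ x) (w₁ x) (s₂ x) (w₂ x) N‖ * ‖bzp (z x) N‖ ≤
            ((N.divisors.card : ℝ) ^ 3 * (N : ℝ) ^ (-m)) *
              ((N.divisors.card : ℝ) ^ 2 * (sq1 N : ℝ) ^ (-(1 / 2) + ζ)) := by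
          refine mul_le_mul e1 (e2.trans ?_) (norm_nonneg _) (by (clear * - h0; positivity))
          exact mul_le_mul_of_nonneg_left e3 (by positivity)
        calc _ ≤ ((N.divisors.card : ℝ) ^ 3 * (N : ℝ) ^ (-m)) *
              ((N.divisors.card : ℝ) ^ 2 * (sq1 N : ℝ) ^ (-(1 / 2) + ζ)) / √(N : ℝ) :=
              div_le_div_of_nonneg_right e6 hsq.le
          _ = _ := by ring
    · simp only [if_neg hN, norm_zero]
      exact hnn

theorem measurable_QXgp {β : ℂ → ℂ} {B : ℝ → ℝ} (hβ : BC β B) (r : ℕ) {X : ℝ} (hX : 0 < X) (hL : 8 ≤ Real.log X) (hr : 0 < r) :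
    Measurable (fun p : ℝ × ℝ × ℝ × ℝ => QXgp β r X (2 + Complex.I * p.1) (3 + Complex.I * p.2.1)
      (5 / 2 + Complex.I * p.2.2.1) (3 + Complex.I * p.2.2.2)) := by
  set L := Real.log X with hLdef
  have hL0 : 0 < L := by linarith
  have hLc : (L : ℂ) ≠ 0 := by exact_mod_cast hL0.ne'
  have c1 : Continuous (fun p : (ℝ × ℝ × ℝ × ℝ) × ℝ => (2 + Complex.I * (p.1.1 : ℂ)) / (L : ℂ)) := by
    fun_prop
  have c2 : Continuous (fun p : (ℝ × ℝ × ℝ × ℝ) × ℝ => (3 + Complex.I * (p.1.2.1 : ℂ)) / (L : ℂ)) := by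
    fun_prop
  have c3 : Continuous (fun p : (ℝ × ℝ × ℝ × ℝ) × ℝ =>
    (5 / 2 + Complex.I * (p.1.2.2.1 : ℂ)) / (L : ℂ)) := by fun_prop
  have c4 : Continuous (fun p : (ℝ × ℝ × ℝ × ℝ) × ℝ =>
    (3 + Complex.I * (p.1.2.2.2 : ℂ)) / (L : ℂ)) := by fun_prop
  have c5 : Continuous (fun p : (ℝ × ℝ × ℝ × ℝ) × ℝ =>
    (1 / (L : ℂ) + Complex.I * (p.2 : ℂ))) := by fun_prop
  have re : ∀ (c : ℝ) (t : ℝ), (((c : ℂ) + Complex.I * (t : ℂ)) / (L : ℂ)).re = c / L := by
    intro c t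
    rw [Complex.div_ofReal_re]
    simp
  have hm : ∀ (c : ℝ), 2 ≤ c → ∀ t : ℝ, 2 / L ≤ (((c : ℂ) + Complex.I * (t : ℂ)) / (L : ℂ)).re := by
    intro c hc t
    rw [re]
    exact div_le_div_of_nonneg_right hc hL0.le
  have g1 : ∀ t : ℝ, 2 / L ≤ ((2 + Complex.I * (t : ℂ)) / (L : ℂ)).re := by
    intro t
    have := hm 2 le_rfl t
    simpa using this
  have g2 : ∀ t : ℝ, 2 / L ≤ ((3 + Complex.I * (t : ℂ)) / (L : ℂ)).re := by
    intro t
    have := hm 3 (by norm_num) t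
    simpa using this
  have g3 : ∀ t : ℝ, 2 / L ≤ ((5 / 2 + Complex.I * (t : ℂ)) / (L : ℂ)).re := by
    intro t
    have := hm (5 / 2) (by norm_num) t
    simpa using this
  have g5 : ∀ t : ℝ, |(1 / (L : ℂ) + Complex.I * (t : ℂ)).re| ≤ 1 / L := by
    intro t
    have e : (1 / (L : ℂ) + Complex.I * (t : ℂ)).re = 1 / L := by
      rw [Complex.add_re, Complex.div_ofReal_re]
      simp
    rw [e, abs_of_pos (by positivity)]
  have hζ : (0 : ℝ) ≤ 1 / L := by positivity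
  have hmζ : 1 / L < 2 / L := div_lt_div_of_pos_right (by norm_num) hL0
  have k1 : Continuous (fun p : (ℝ × ℝ × ℝ × ℝ) × ℝ => OOp r ((2 + Complex.I * (p.1.1 : ℂ)) / (L : ℂ))
      ((3 + Complex.I * (p.1.2.1 : ℂ)) / (L : ℂ)) ((5 / 2 + Complex.I * (p.1.2.2.1 : ℂ)) / (L : ℂ))
      ((3 + Complex.I * (p.1.2.2.2 : ℂ)) / (L : ℂ)) (1 / (L : ℂ) + Complex.I * (p.2 : ℂ))) :=
    qok_OO c1 c2 c3 c4 c5 hζ hmζ (fun p => g1 _) (fun p => g2 _) (fun p => g3 _) (fun p => g2 _)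
      (fun p => g5 _) r
  have k0 : Continuous (fun p : ℝ × ℝ × ℝ × ℝ => OOp r ((2 + Complex.I * (p.1 : ℂ)) / (L : ℂ))
      ((3 + Complex.I * (p.2.1 : ℂ)) / (L : ℂ)) ((5 / 2 + Complex.I * (p.2.2.1 : ℂ)) / (L : ℂ))
      ((3 + Complex.I * (p.2.2.2 : ℂ)) / (L : ℂ)) 0) :=
    qok_OO (by fun_prop) (by fun_prop) (by fun_prop) (by fun_prop) continuous_const hζ hmζ
      (fun p => g1 _) (fun p => g2 _) (fun p => g3 _) (fun p => g2 _)
      (fun p => by simp [hL0.le]) r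
  have hb : Continuous (fun t : ℝ => β (1 / (L : ℂ) + Complex.I * t)) := by
    have h1 := hβ.ct (1 / L) (by
      rw [abs_of_pos (by positivity)]; exact one_div_le_one_div_of_le (by norm_num) hL)
    simpa using h1
  have hz0 : ∀ t : ℝ, (1 / (L : ℂ) + Complex.I * (t : ℂ)) ≠ 0 := by
    intro t h0
    have e : (1 / (L : ℂ) + Complex.I * (t : ℂ)).re = 1 / L := by
      rw [Complex.add_re, Complex.div_ofReal_re]
      simp
    rw [h0, Complex.zero_re] at e
    have : 0 < 1 / L := by positivity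
    linarith only [e, this]
  have hY : (((X / (2 * (r : ℝ) ^ 2) : ℝ)) : ℂ) ≠ 0 := by
    have hr' : (0 : ℝ) < r := by exact_mod_cast hr
    have : 0 < X / (2 * (r : ℝ) ^ 2) := by positivity
    exact_mod_cast this.ne'
  have k2 : Continuous (fun p : (ℝ × ℝ × ℝ × ℝ) × ℝ => β (1 / (L : ℂ) + Complex.I * p.2) *
      (((X / (2 * r ^ 2) : ℝ)) : ℂ) ^ (-(1 / (L : ℂ) + Complex.I * p.2 : ℂ)) *
      OOp r ((2 + Complex.I * (p.1.1 : ℂ)) / (L : ℂ))
      ((3 + Complex.I * (p.1.2.1 : ℂ)) / (L : ℂ)) ((5 / 2 + Complex.I * (p.1.2.2.1 : ℂ)) / (L : ℂ))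
      ((3 + Complex.I * (p.1.2.2.2 : ℂ)) / (L : ℂ)) (1 / (L : ℂ) + Complex.I * (p.2 : ℂ)) /
        (1 / (L : ℂ) + Complex.I * p.2)) := by
    refine Continuous.div (((hb.comp continuous_snd).mul ?_).mul k1) c5 fun p => hz0 _
    exact Continuous.const_cpow c5.neg (Or.inl hY)
  unfold QXgp
  refine k0.measurable.sub (measurable_const.mul ?_)
  exact (StronglyMeasurable.integral_prod_right
    (f := fun (p : ℝ × ℝ × ℝ × ℝ) (t : ℝ) => β (1 / (L : ℂ) + Complex.I * t) *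
      (((X / (2 * r ^ 2) : ℝ)) : ℂ) ^ (-(1 / (L : ℂ) + Complex.I * t : ℂ)) *
      OOp r ((2 + Complex.I * (p.1 : ℂ)) / (L : ℂ))
      ((3 + Complex.I * (p.2.1 : ℂ)) / (L : ℂ)) ((5 / 2 + Complex.I * (p.2.2.1 : ℂ)) / (L : ℂ))
      ((3 + Complex.I * (p.2.2.2 : ℂ)) / (L : ℂ)) (1 / (L : ℂ) + Complex.I * (t : ℂ)) /
        (1 / (L : ℂ) + Complex.I * t)) k2.stronglyMeasurable).measurable

/-! ### the sieved main series -/

theorem serQ_p {β : ℂ → ℂ} {B : ℝ → ℝ} (hβ : BC β B) (I₀ : ℝ) (r : ℕ) (hr : Odd r) :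
    ∃ X₀ : ℝ, ∀ X : ℝ, X₀ ≤ X → ∀ M : ℕ → ℝ, MRepp β I₀ (X / r ^ 2) M →
      SerQ M r (Real.log X) (fun s₁ w₁ s₂ w₂ => (I₀ : ℂ) * QXgp β r X s₁ w₁ s₂ w₂) := by
  obtain ⟨X₀, h⟩ := hasSum_QXp hβ I₀ r hr
  exact ⟨X₀, fun X hX M hM => h X hX M hM⟩

theorem qok_p {β : ℂ → ℂ} {B : ℝ → ℝ} (hβ : BC β B) (I₀ : ℝ) (r : ℕ) (hr : Odd r) :
    QOK (fun X s₁ w₁ s₂ w₂ => (I₀ : ℂ) * QXgp β r X s₁ w₁ s₂ w₂)
      (fun s₁ w₁ s₂ w₂ => (I₀ : ℂ) * Qinf s₁ w₁ s₂ w₂) := by
  refine ⟨⟨Real.exp 8, fun X hX => ?_⟩, ?_, fun a' b' c' d' h => ?_⟩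
  · have hXp : 0 < X := lt_of_lt_of_le (Real.exp_pos _) hX
    have hL : 8 ≤ Real.log X := by
      rw [Real.le_log_iff_exp_le hXp]
      exact hX
    exact (measurable_QXgp hβ r hXp hL hr.pos).const_mul _
  · obtain ⟨C, A, X₀, hC, hA, h⟩ := QX_boundp hβ r hr
    refine ⟨(|I₀| + 1) * C, A, X₀, by positivity, hA, fun X hX a' b' c' d' => ?_⟩
    have h1 := h X hX a' b' c' d'
    rw [norm_mul, Complex.norm_real, Real.norm_eq_abs, mul_assoc]
    exact mul_le_mul (by linarith) h1 (norm_nonneg _) (by positivity)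
  · exact (QX_limp hβ r hr a' b' c' d' h).const_mul _

/-! ### the diagonal series -/

theorem sq1_eq_one {N : ℕ} (hN : N ≠ 0) : sq1 N = 1 ↔ IsSquare N := by
  constructor
  · intro h
    have h1 := sq1_mul_sq2 N hN
    rw [h, one_mul] at h1
    exact ⟨sq2 N, by rw [← pow_two]; exact h1.symm⟩
  · rintro ⟨a, rfl⟩
    have ha : a ≠ 0 := by
      rintro rfl
      exact hN rfl
    unfold sq1
    refine Finset.prod_eq_one fun p hp => ?_
    exfalso
    rw [Finset.mem_filter, Nat.factorization_mul ha ha] at hp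
    have h2 := hp.2
    rw [Finsupp.add_apply] at h2
    exact (Nat.not_odd_iff_even.2 ⟨_, rfl⟩) h2

open Classical in
/-- The indicator function of the squares. -/
noncomputable def sqI (N : ℕ) : ℝ := if IsSquare N then 1 else 0

theorem bzp_zero {N : ℕ} (hN : N ≠ 0) : bzp 0 N = (sqI N : ℂ) := by
  have hpos : 0 < sq1 N := Finset.prod_pos fun p hp =>
    (Nat.prime_of_mem_primeFactors (Finset.mem_filter.mp hp).1).pos
  have h1 : ∑ e ∈ (sq1 N).divisors, (ArithmeticFunction.moebius e : ℂ) *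
      (((sq1 N : ℝ) / (e : ℝ) ^ 2 : ℝ) : ℂ) ^ (0 : ℂ) = if sq1 N = 1 then 1 else 0 := by
    simp only [Complex.cpow_zero, mul_one]
    have h2 := congrArg (fun f : ArithmeticFunction ℤ => f (sq1 N))
      ArithmeticFunction.moebius_mul_coe_zeta
    simp only [ArithmeticFunction.coe_mul_zeta_apply, ArithmeticFunction.one_apply] at h2
    have h3 := congrArg (fun z : ℤ => (z : ℂ)) h2
    push_cast at h3
    exact h3
  unfold bzp bz
  rw [h1]
  unfold sqI
  by_cases hs : IsSquare N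
  · have hs1 : sq1 N = 1 := (sq1_eq_one hN).2 hs
    have h2 := sq1_mul_sq2 N hN
    rw [hs1, one_mul] at h2
    rw [if_pos hs, if_pos hs1, hs1]
    have h4 : (sq2 N).primeFactors = N.primeFactors := by
      conv_rhs => rw [← h2]
      rw [Nat.primeFactors_pow _ (by norm_num)]
    have h5 : gN N * rhoN N = 1 := by
      unfold gN rhoN
      rw [hs1]
      have h6 : (sq2 N).primeFactors.filter (fun p => ¬ p ∣ 1) = N.primeFactors := by
        rw [← h4]
        refine Finset.filter_true_of_mem fun p hp => ?_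
        have := (Nat.prime_of_mem_primeFactors hp).one_lt
        intro h7
        have := Nat.dvd_one.1 h7
        omega
      rw [h6, ← Finset.prod_mul_distrib]
      refine Finset.prod_eq_one fun p hp => ?_
      have hpp := Nat.prime_of_mem_primeFactors hp
      have h7 : (2 : ℝ) ≤ p := by exact_mod_cast hpp.two_le
      have h8 : 1 / (p : ℝ) ≤ 1 / 2 := one_div_le_one_div_of_le (by norm_num) h7
      exact inv_mul_cancel₀ (by linarith)
    have h6 : (gN N : ℂ) * (rhoN N : ℂ) = 1 := by exact_mod_cast h5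
    simp only [Nat.cast_one, Real.sqrt_one, Complex.ofReal_one, div_one, mul_one]
    exact h6
  · have hs1 : ¬ sq1 N = 1 := fun h => hs ((sq1_eq_one hN).1 h)
    rw [if_neg hs, if_neg hs1]
    simp

theorem serQ_0 (r : ℕ) (hr : Odd r) :
    ∃ X₀ : ℝ, ∀ X : ℝ, X₀ ≤ X → SerQ sqI r (Real.log X) (fun s₁ w₁ s₂ w₂ =>
      OOp r (s₁ / Real.log X) (w₁ / Real.log X) (s₂ / Real.log X) (w₂ / Real.log X) 0) := by
  refine ⟨Real.exp 8, fun X hX s₁ w₁ s₂ w₂ hs1 _ hw1 _ hs2 _ hw2 _ => ?_⟩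
  have hXpos : 0 < X := lt_of_lt_of_le (Real.exp_pos 8) hX
  set L : ℝ := Real.log X with hL
  have hL8 : 8 ≤ L := by
    rw [hL, Real.le_log_iff_exp_le hXpos]
    exact hX
  have hLpos : 0 < L := by linarith
  have hcop0 : ¬ Nat.Coprime 0 (2 * r) := by
    rw [Nat.coprime_zero_left]
    omega
  have hcop_ne : ∀ N : ℕ, Nat.Coprime N (2 * r) → N ≠ 0 := by
    rintro N hN rfl
    exact hcop0 hN
  set m : ℝ := 2 / L with hm
  set c : ℝ := 1 / L with hcdef
  have hcpos : 0 < c := by positivity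
  have hcm : c < m := by
    rw [hcdef, hm]
    exact div_lt_div_of_pos_right (by norm_num) hLpos
  have hsq := summable_sq5 m c hcpos.le hcm
  have hre : ∀ s : ℂ, 2 ≤ s.re → m ≤ (s / (L : ℂ)).re := by
    intro s hs
    rw [Complex.div_ofReal_re, hm]
    exact div_le_div_of_nonneg_right hs hLpos.le
  set f : ℕ → ℂ := fun N => if Nat.Coprime N (2 * r) then (sqI N : ℂ) / (√(N : ℝ) : ℂ) else 0
    with hf
  have hf0 : f 0 = 0 := by
    simp only [hf]
    rw [if_neg hcop0]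
  have hrp : ∀ N : ℕ, N ≠ 0 → (N : ℝ) ^ (-(1 / 2) - m) = (N : ℝ) ^ (-m) / √(N : ℝ) := by
    intro N hN
    have hNp : (0 : ℝ) < N := by exact_mod_cast Nat.pos_of_ne_zero hN
    rw [show (-(1 / 2) - m : ℝ) = -m + -(1 / 2) by ring, Real.rpow_add hNp, Real.rpow_neg hNp.le (1 / 2),
      ← Real.sqrt_eq_rpow, div_eq_mul_inv]
  have hM : ∀ N : ℕ, N ≠ 0 → ‖(sqI N : ℂ)‖ ≤ (N.divisors.card : ℝ) ^ 2 * (sq1 N : ℝ) ^ (-(1 / 2) + c) := by
    intro N hN
    rw [← bzp_zero hN]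
    refine (norm_bzp_le 0 N hN).trans ?_
    apply mul_le_mul_of_nonneg_left _ (by positivity)
    apply Real.rpow_le_rpow_of_exponent_le
    · have hpos : 0 < sq1 N := Finset.prod_pos fun p hp =>
        (Nat.prime_of_mem_primeFactors (Finset.mem_filter.mp hp).1).pos
      exact_mod_cast hpos
    · simp [hcpos.le]
  have hfs : Summable (fun N : ℕ => (N.divisors.card : ℝ) ^ 3 * (N : ℝ) ^ (-m) * ‖f N‖) := by
    apply Summable.of_nonneg_of_le _ _ hsq
    · intro N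
      positivity
    · intro N
      by_cases hN : Nat.Coprime N (2 * r)
      · have hN0 := hcop_ne N hN
        simp only [hf]
        rw [if_pos hN, norm_div, Complex.norm_real (√(N : ℝ)), Real.norm_eq_abs,
          abs_of_nonneg (Real.sqrt_nonneg _)]
        have h1 := hM N hN0
        rw [hrp N hN0]
        have h2 : 0 ≤ (N.divisors.card : ℝ) ^ 3 * (N : ℝ) ^ (-m) / √(N : ℝ) := by positivity
        calc (N.divisors.card : ℝ) ^ 3 * (N : ℝ) ^ (-m) * (‖(sqI N : ℂ)‖ / √(N : ℝ))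
            = ((N.divisors.card : ℝ) ^ 3 * (N : ℝ) ^ (-m) / √(N : ℝ)) * ‖(sqI N : ℂ)‖ := by ring
          _ ≤ ((N.divisors.card : ℝ) ^ 3 * (N : ℝ) ^ (-m) / √(N : ℝ)) *
              ((N.divisors.card : ℝ) ^ 2 * (sq1 N : ℝ) ^ (-(1 / 2) + c)) :=
              mul_le_mul_of_nonneg_left h1 h2
          _ = _ := by ring
      · simp only [hf]
        rw [if_neg hN, norm_zero, mul_zero]
        have : (0 : ℝ) ≤ (sq1 N : ℝ) ^ (-(1 / 2) + c) := Real.rpow_nonneg (Nat.cast_nonneg _) _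
        have h3 : (0 : ℝ) ≤ (N : ℝ) ^ (-(1 / 2) - m) := Real.rpow_nonneg (Nat.cast_nonneg _) _
        positivity
  obtain ⟨hA, hB⟩ := sum_quad_eq (s₁ / L) (w₁ / L) (s₂ / L) (w₂ / L) m (hre s₁ hs1) (hre w₁ hw1)
    (hre s₂ hs2) (hre w₂ hw2) f hf0 hfs
  refine ⟨?_, ?_⟩
  · refine hA.congr (fun q => ?_)
    set N := q.1.1 * q.1.2 * q.2.1 * q.2.2 with hNdef
    by_cases hN : Nat.Coprime N (2 * r)
    · have hN0 := hcop_ne N hN
      simp only [hf]
      rw [if_pos hN, if_pos hN, norm_div, Complex.norm_real (√(N : ℝ)), Real.norm_eq_abs,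
          abs_of_nonneg (Real.sqrt_nonneg _), Complex.norm_real, Real.norm_eq_abs]
      rw [show (-(1 / 2) - 2 / L : ℝ) = -(1 / 2) - m from rfl, hrp N hN0]
      ring
    · simp only [hf]
      rw [if_neg hN, if_neg hN, norm_zero, mul_zero]
  · have hC : ∑' q : (ℕ × ℕ) × (ℕ × ℕ),
      (if Nat.Coprime (q.1.1 * q.1.2 * q.2.1 * q.2.2) (2 * r) then
        (ArithmeticFunction.moebius q.1.2 : ℂ) * (ArithmeticFunction.moebius q.2.2 : ℂ) *
        (q.1.1 : ℂ) ^ (-(s₁ / L)) * (q.1.2 : ℂ) ^ (-(w₁ / L)) *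
        (q.2.1 : ℂ) ^ (-(s₂ / L)) * (q.2.2 : ℂ) ^ (-(w₂ / L)) /
        (√((q.1.1 * q.1.2 * q.2.1 * q.2.2 : ℕ) : ℝ) : ℂ) *
        (sqI (q.1.1 * q.1.2 * q.2.1 * q.2.2) : ℂ) else 0) =
        ∑' q : (ℕ × ℕ) × (ℕ × ℕ),
        (ArithmeticFunction.moebius q.1.2 : ℂ) * (ArithmeticFunction.moebius q.2.2 : ℂ) *
        (q.1.1 : ℂ) ^ (-(s₁ / L)) * (q.1.2 : ℂ) ^ (-(w₁ / L)) *
        (q.2.1 : ℂ) ^ (-(s₂ / L)) * (q.2.2 : ℂ) ^ (-(w₂ / L)) * f (q.1.1 * q.1.2 * q.2.1 * q.2.2) := by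
      apply tsum_congr
      intro q
      simp only [hf]
      split_ifs
      · ring
      · ring
    rw [hC, hB]
    unfold OOp
    apply tsum_congr
    intro N
    simp only [hf]
    by_cases hN : Nat.Coprime N (2 * r)
    · rw [if_pos hN, if_pos hN, bzp_zero (hcop_ne N hN)]
      ring
    · rw [if_neg hN, if_neg hN, mul_zero]

theorem qok_0 (r : ℕ) (hr : Odd r) :
    QOK (fun X s₁ w₁ s₂ w₂ =>
      OOp r (s₁ / Real.log X) (w₁ / Real.log X) (s₂ / Real.log X) (w₂ / Real.log X) 0) R0 := by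
  refine ⟨⟨Real.exp 8, fun X hX => ?_⟩, ?_, fun a' b' c' d' _ => ?_⟩
  · have hXp : 0 < X := lt_of_lt_of_le (Real.exp_pos _) hX
    have hL : 8 ≤ Real.log X := by
      rw [Real.le_log_iff_exp_le hXp]
      exact hX
    set L : ℝ := Real.log X with hLd
    have hL0 : 0 < L := by linarith
    have hζ : (0 : ℝ) ≤ 1 / L := by positivity
    have hmζ : 1 / L < 2 / L := div_lt_div_of_pos_right (by norm_num) hL0
    have g1 : ∀ x : ℝ, 2 / L ≤ ((2 + Complex.I * (x : ℂ)) / (L : ℂ)).re := by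
      intro x
      rw [Complex.div_ofReal_re]
      simp
    have g2 : ∀ x : ℝ, 2 / L ≤ ((3 + Complex.I * (x : ℂ)) / (L : ℂ)).re := by
      intro x
      rw [Complex.div_ofReal_re]
      refine div_le_div_of_nonneg_right ?_ hL0.le
      simp
      norm_num
    have g3 : ∀ x : ℝ, 2 / L ≤ ((5 / 2 + Complex.I * (x : ℂ)) / (L : ℂ)).re := by
      intro x
      rw [Complex.div_ofReal_re]
      refine div_le_div_of_nonneg_right ?_ hL0.le
      simp
      norm_num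
    have k0 : Continuous (fun p : ℝ × ℝ × ℝ × ℝ => OOp r ((2 + Complex.I * (p.1 : ℂ)) / (L : ℂ))
        ((3 + Complex.I * (p.2.1 : ℂ)) / (L : ℂ)) ((5 / 2 + Complex.I * (p.2.2.1 : ℂ)) / (L : ℂ))
        ((3 + Complex.I * (p.2.2.2 : ℂ)) / (L : ℂ)) 0) :=
      qok_OO (by fun_prop) (by fun_prop) (by fun_prop) (by fun_prop) continuous_const hζ hmζ
        (fun p => g1 _) (fun p => g2 _) (fun p => g3 _) (fun p => g2 _)
        (fun p => by simp [hL0.le]) r
    exact k0.measurable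
  · obtain ⟨C, A, L₀, hC, hA, h⟩ := OOp_zero_bound r hr
    obtain ⟨X₀, hX₀⟩ := Filter.eventually_atTop.1
      (Real.tendsto_log_atTop.eventually_ge_atTop L₀)
    exact ⟨C, A, X₀, hC, hA, fun X hX a' b' c' d' => h (Real.log X) (hX₀ X hX) a' b' c' d'⟩
  · have h := (OOp_lim r hr (2 + Complex.I * a') (3 + Complex.I * b') (5 / 2 + Complex.I * c')
      (3 + Complex.I * d') 0 (by simp) (by simp) (by simp) (by simp)).comp
      Real.tendsto_log_atTop
    have ne : ∀ (u : ℝ) (x : ℝ), 0 < u → ((u : ℂ) + Complex.I * x) ≠ 0 := by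
      intro u x hu h0
      have := congrArg Complex.re h0
      simp at this
      linarith
    have n1 := ne 2 a' (by norm_num)
    have n2 := ne 3 b' (by norm_num)
    have n3 := ne (5 / 2) c' (by norm_num)
    have n4 := ne 3 d' (by norm_num)
    push_cast at n1 n2 n3 n4
    have hV : Vr (2 + Complex.I * a') (3 + Complex.I * b') (5 / 2 + Complex.I * c')
      (3 + Complex.I * d') 0 = 1 := by
      unfold Vr
      simp only [sub_zero, add_zero]
      generalize (2 + Complex.I * (a' : ℂ)) = x1 at *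
      generalize (3 + Complex.I * (b' : ℂ)) = x2 at *
      generalize (5 / 2 + Complex.I * (c' : ℂ)) = x3 at *
      generalize (3 + Complex.I * (d' : ℂ)) = x4 at *
      field_simp
    rw [hV, mul_one] at h
    refine h.congr fun X => ?_
    simp only [Function.comp, zero_div]

end Pool.Agent.MP0016c7.PC
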